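import Pool.Agent.H96.FL.Df
import Pool.Agent.H6.AE.BLKm

/-!
# BLD: one block of the weight `D`

`gb b (om B n) ≤ 2^(om B n)` (`gb_le`), and `C(k, 2b+1) ≤ 2^k`, `= 0` for `k ≤ 2b`. So for `T ≥ 1` and `s' = insert a₀ s`
`∏_{a∈s} gb b (om B (n+a)) * C(om B (n+a₀), 2b+1) ≤ (T^(2b))⁻¹ ∏_{p∈B} ((if p ∣ n + a₀ then T else 1) * ∏_{a'∈s'} (if p ∣ n+a' then 2^m else 1))`
(compare `BLKm_point`, second part), and the average of the right side is `≤ (T^(2b))⁻¹ e^b ≤ (1/2)^b * (∏ (1-1/p))^(s.card+1)`: exactly the second part (`hsec`, `hsmall`, `hMlow`) of the proof of `BLKm` in `Pool/Agent/H6/AE/BLKm.lean` (same `T = b/K`, same choice of `b₀`), which can be copied.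
-/

set_option autoImplicit false

namespace Pool.Agent.H96.FL

open Finset Pool.Agent.H17 Pool.Agent.H6.MF Pool.Agent.H6.MB Pool.Agent.H12.DM Pool.Agent.H6.AE

theorem BLD_point (b : ℕ) (B : Finset ℕ) {m : ℕ} (s : Finset ℤ) (a₀ : ℤ) (h₀ : a₀ ∉ s) (hm : 1 ≤ m) {T : ℝ}
    (hT : 1 ≤ T) (n : ℤ) :
    (∏ a ∈ s, gb b (om B (n + a))) * ((om B (n + a₀)).choose (2 * b + 1) : ℝ) ≤
      (T ^ (2 * b))⁻¹ * ∏ p ∈ B, ((if (p : ℤ) ∣ n + a₀ then T else 1) *
        ∏ a' ∈ insert a₀ s, (if (p : ℤ) ∣ n + a' then ((2 : ℝ) ^ m) else 1)) := by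
  have hT0 : 0 < T := by linarith
  have h2m : (0 : ℝ) < 2 ^ m := by positivity
  have h3 : ∏ p ∈ B, ((if (p : ℤ) ∣ n + a₀ then T else 1) *
      ∏ a' ∈ insert a₀ s, (if (p : ℤ) ∣ n + a' then ((2 : ℝ) ^ m) else 1)) =
      T ^ om B (n + a₀) * ∏ a ∈ insert a₀ s, ((2 : ℝ) ^ m) ^ om B (n + a) := by
    rw [Finset.prod_mul_distrib, ← BLK_pow_om, Finset.prod_comm]
    congr 1
    refine Finset.prod_congr rfl fun a' _ => ?_
    rw [BLK_pow_om]
  rw [h3]
  by_cases h1 : 2 * b < om B (n + a₀)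
  · have h4 : (1 : ℝ) ≤ (T ^ (2 * b))⁻¹ * T ^ om B (n + a₀) := by
      rw [inv_mul_eq_div, le_div_iff₀ (by positivity), one_mul]
      exact pow_le_pow_right₀ hT h1.le
    have h5 : 0 ≤ ∏ a ∈ insert a₀ s, ((2 : ℝ) ^ m) ^ om B (n + a) := by positivity
    have h22 : (2 : ℝ) ≤ 2 ^ m := by
      calc (2 : ℝ) = 2 ^ 1 := by norm_num
        _ ≤ 2 ^ m := pow_le_pow_right₀ (by norm_num) hm
    have h6 : ∏ a ∈ s, gb b (om B (n + a)) ≤ ∏ a ∈ s, ((2 : ℝ) ^ m) ^ om B (n + a) := by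
      refine Finset.prod_le_prod (fun a _ => gb_nonneg _ _) (fun a _ => ?_)
      exact (gb_le _ _).trans (pow_le_pow_left₀ (by norm_num) h22 _)
    have h7 : ((om B (n + a₀)).choose (2 * b + 1) : ℝ) ≤ ((2 : ℝ) ^ m) ^ om B (n + a₀) := by
      have h8 : (om B (n + a₀)).choose (2 * b + 1) ≤ 2 ^ om B (n + a₀) := Nat.choose_le_two_pow _ _
      have h9 : ((om B (n + a₀)).choose (2 * b + 1) : ℝ) ≤ (2 : ℝ) ^ om B (n + a₀) := by exact_mod_cast h8
      exact h9.trans (pow_le_pow_left₀ (by norm_num) h22 _)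
    have h10 : (∏ a ∈ s, gb b (om B (n + a))) * ((om B (n + a₀)).choose (2 * b + 1) : ℝ) ≤
        ∏ a ∈ insert a₀ s, ((2 : ℝ) ^ m) ^ om B (n + a) := by
      rw [Finset.prod_insert h₀, mul_comm (((2 : ℝ) ^ m) ^ om B (n + a₀))]
      exact mul_le_mul h6 h7 (Nat.cast_nonneg _) (by positivity)
    rw [← mul_assoc]
    exact h10.trans (le_mul_of_one_le_left h5 h4)
  · rw [Nat.choose_eq_zero_of_lt (by omega)]
    simp only [Nat.cast_zero, mul_zero]
    positivity

theorem BLD (m : ℕ) (L : ℝ) (hL : 0 < L) : ∃ b₀ : ℕ, ∀ b : ℕ, b₀ ≤ b → ∀ B : Finset ℕ, (∀ p ∈ B, p.Prime) →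
    ∑ p ∈ B, 1 / (p : ℝ) ≤ L → ∀ s : Finset ℤ, ∀ a₀ : ℤ, a₀ ∉ s → s.card + 1 ≤ m →
    avgP (∏ p ∈ B, p) (fun t => (∏ a ∈ s, gb b (om B (t + a))) * ((om B (t + a₀)).choose (2 * b + 1) : ℝ))
      ≤ (1 / 2) ^ b * (∏ p ∈ B, (1 - 1 / (p : ℝ))) ^ (s.card + 1) := by
  classical
  rcases Nat.eq_zero_or_pos m with hm0 | hm0
  · refine ⟨0, fun b _ B _ _ s a₀ _ hsm => ?_⟩
    omega
  have hm : (1 : ℝ) ≤ m := by exact_mod_cast hm0
  set G : ℝ := 2 ^ m with hG
  have hG1 : 1 ≤ G := one_le_pow₀ (by norm_num)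
  have hG0 : 0 < G := by linarith
  set K : ℝ := m * G ^ m * L with hK
  have hK0 : 0 < K := by positivity
  set T₀ : ℝ := 2 * m * Real.exp (2 * m * L + 1) with hT₀
  have hT₀1 : 1 ≤ T₀ := by
    have h1 : (1 : ℝ) ≤ Real.exp (2 * m * L + 1) := Real.one_le_exp (by positivity)
    rw [hT₀]
    nlinarith
  refine ⟨⌈K * T₀⌉₊ + 1, fun b hb B hB hBL s a₀ h₀ hsm => ?_⟩
  have hbK : K * T₀ ≤ b := by
    have h1 : K * T₀ ≤ (⌈K * T₀⌉₊ : ℝ) := Nat.le_ceil _
    have h2 : ((⌈K * T₀⌉₊ + 1 : ℕ) : ℝ) ≤ b := by exact_mod_cast hb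
    push_cast at h2
    linarith
  have hb1 : 1 ≤ b := by omega
  set T : ℝ := b / K with hT
  have hTT : T₀ ≤ T := by
    rw [hT, le_div_iff₀ hK0]
    linarith
  have hT1 : 1 ≤ T := hT₀1.trans hTT
  have hT0 : 0 < T := by linarith
  have hKT : K * T = b := by
    rw [hT]
    field_simp
  have hcard : (insert a₀ s).card ≤ m := by
    rw [Finset.card_insert_of_notMem h₀]
    exact hsm
  -- the average of the majorant
  have hstep := BLK_mono (P := ∏ p ∈ B, p) (BLD_point b B s a₀ h₀ hm0 hT1)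
  refine hstep.trans ?_
  rw [BLK_smul]
  have hsec : (T ^ (2 * b))⁻¹ * avgP (∏ p ∈ B, p) (fun n => ∏ p ∈ B, ((if (p : ℤ) ∣ n + a₀ then T else 1) *
        ∏ a' ∈ insert a₀ s, (if (p : ℤ) ∣ n + a' then G else 1))) ≤ (T ^ (2 * b))⁻¹ * Real.exp b := by
    refine mul_le_mul_of_nonneg_left ?_ (by positivity)
    rw [BLK_avg_prod B hB (fun p n => (if (p : ℤ) ∣ n + a₀ then T else 1) *
        ∏ a' ∈ insert a₀ s, (if (p : ℤ) ∣ n + a' then G else 1))
      (fun p _ n k => by simp only [BLK_dvd_shift])]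
    calc ∏ p ∈ B, avgP p (fun n => (if (p : ℤ) ∣ n + a₀ then T else 1) *
            ∏ a' ∈ insert a₀ s, (if (p : ℤ) ∣ n + a' then G else 1))
        ≤ ∏ p ∈ B, Real.exp (m * T * G ^ m / (p : ℝ)) := by
          refine Finset.prod_le_prod (fun p hp => ?_) (fun p hp => ?_)
          · unfold avgP
            refine div_nonneg (Finset.sum_nonneg fun m _ => mul_nonneg ?_ ?_) (Nat.cast_nonneg p)
            · split_ifs <;> linarith
            · exact Finset.prod_nonneg fun a' _ => by split_ifs <;> linarith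
          · refine (BLKm_avgT (hB p hp).pos (insert a₀ s) hcard (Finset.mem_insert_self _ _) hT1 hG1).trans ?_
            linarith [Real.add_one_le_exp (m * T * G ^ m / (p : ℝ))]
      _ = Real.exp (m * T * G ^ m * ∑ p ∈ B, 1 / (p : ℝ)) := by
          rw [← Real.exp_sum, Finset.mul_sum]
          congr 1
          refine Finset.sum_congr rfl fun p _ => ?_
          ring
      _ ≤ Real.exp b := by
          refine Real.exp_le_exp.mpr ?_
          calc m * T * G ^ m * ∑ p ∈ B, 1 / (p : ℝ) ≤ m * T * G ^ m * L :=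
                mul_le_mul_of_nonneg_left hBL (by positivity)
            _ = K * T := by rw [hK]; ring
            _ = b := hKT
  refine hsec.trans ?_
  set M : ℝ := (∏ p ∈ B, (1 - 1 / (p : ℝ))) ^ (s.card + 1) with hM
  have hMlow : Real.exp (-(2 * m * L)) ≤ M := by
    have h1 : Real.exp (-(2 * L)) ≤ ∏ p ∈ B, (1 - 1 / (p : ℝ)) := by
      calc Real.exp (-(2 * L)) ≤ Real.exp (∑ p ∈ B, (-(2 * (1 / (p : ℝ))))) := by
            refine Real.exp_le_exp.mpr ?_
            rw [Finset.sum_neg_distrib, ← Finset.mul_sum]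
            linarith
        _ = ∏ p ∈ B, Real.exp (-(2 * (1 / (p : ℝ)))) := Real.exp_sum _ _
        _ ≤ ∏ p ∈ B, (1 - 1 / (p : ℝ)) := by
            refine Finset.prod_le_prod (fun p _ => (Real.exp_pos _).le) (fun p hp => ?_)
            have hp2 : (2 : ℝ) ≤ p := by exact_mod_cast (hB p hp).two_le
            exact BLK_exp_le (by positivity) (one_div_le_one_div_of_le (by norm_num) hp2)
    have h2 : (0 : ℝ) < Real.exp (-(2 * L)) := Real.exp_pos _
    calc Real.exp (-(2 * m * L)) = Real.exp (-(2 * L)) ^ m := by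
          rw [← Real.exp_nat_mul]
          congr 1
          ring
      _ ≤ Real.exp (-(2 * L)) ^ (s.card + 1) := by
          refine pow_le_pow_of_le_one h2.le ?_ hsm
          rw [Real.exp_le_one_iff]
          linarith
      _ ≤ M := pow_le_pow_left₀ h2.le h1 _
  -- the second part is small
  have h1 : 2 * m * Real.exp (2 * m * L + 1) ≤ T := hTT
  have hE1 : (1 : ℝ) ≤ Real.exp (2 * m * L) := Real.one_le_exp (by positivity)
  have h2 : m * Real.exp (2 * m * L) * (2 * Real.exp 1 / T ^ 2) ^ b ≤ 1 := by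
    have h3 : 2 * Real.exp 1 / T ^ 2 ≤ 1 / (m * Real.exp (2 * m * L)) := by
      rw [div_le_div_iff₀ (by positivity) (by positivity)]
      have h4 : 2 * Real.exp 1 * (m * Real.exp (2 * m * L)) = 2 * m * Real.exp (2 * m * L + 1) := by
        rw [Real.exp_add]
        ring
      rw [h4]
      nlinarith
    have h5 : (1 : ℝ) ≤ m * Real.exp (2 * m * L) := by nlinarith
    have h6 : 1 / (m * Real.exp (2 * m * L)) ≤ 1 := by
      rw [div_le_one (by positivity)]
      exact h5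
    have h7 : (0 : ℝ) ≤ 2 * Real.exp 1 / T ^ 2 := by positivity
    calc m * Real.exp (2 * m * L) * (2 * Real.exp 1 / T ^ 2) ^ b
        ≤ m * Real.exp (2 * m * L) * (1 / (m * Real.exp (2 * m * L))) ^ b := by
          refine mul_le_mul_of_nonneg_left (pow_le_pow_left₀ h7 h3 b) (by positivity)
      _ ≤ m * Real.exp (2 * m * L) * (1 / (m * Real.exp (2 * m * L))) ^ 1 := by
          refine mul_le_mul_of_nonneg_left (pow_le_pow_of_le_one (by positivity) h6 hb1) (by positivity)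
      _ = 1 := by
          rw [pow_one]
          field_simp
  have h3 : (2 * Real.exp 1 / T ^ 2) ^ b = 2 ^ b * ((T ^ (2 * b))⁻¹ * Real.exp b) := by
    rw [div_pow, mul_pow, ← Real.exp_nat_mul, ← pow_mul, mul_one, div_eq_mul_inv]
    ring
  rw [h3] at h2
  have h5 : 0 ≤ (T ^ (2 * b))⁻¹ * Real.exp b := by positivity
  have h6 : Real.exp (2 * m * L) * Real.exp (-(2 * m * L)) = 1 := by
    rw [← Real.exp_add]
    simp
  have h7 : (0 : ℝ) < 2 ^ b := by positivity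
  have h8 : (T ^ (2 * b))⁻¹ * Real.exp b ≤ (1 / 2) ^ b * Real.exp (-(2 * m * L)) := by
    calc (T ^ (2 * b))⁻¹ * Real.exp b ≤ m * ((T ^ (2 * b))⁻¹ * Real.exp b) :=
          le_mul_of_one_le_left h5 hm
      _ = (1 / 2) ^ b * (m * (2 ^ b * ((T ^ (2 * b))⁻¹ * Real.exp b))) := by
          rw [one_div, inv_pow]
          field_simp
      _ = (1 / 2) ^ b * (Real.exp (-(2 * m * L)) *
            (m * Real.exp (2 * m * L) * (2 ^ b * ((T ^ (2 * b))⁻¹ * Real.exp b)))) := by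
          linear_combination (-(1 / 2) ^ b * (m * (2 ^ b * ((T ^ (2 * b))⁻¹ * Real.exp b)))) * h6
      _ ≤ (1 / 2) ^ b * (Real.exp (-(2 * m * L)) * 1) := by
          refine mul_le_mul_of_nonneg_left (mul_le_mul_of_nonneg_left h2 (Real.exp_pos _).le) (by positivity)
      _ = (1 / 2) ^ b * Real.exp (-(2 * m * L)) := by rw [mul_one]
  exact h8.trans (mul_le_mul_of_nonneg_left hMlow (by positivity))

end Pool.Agent.H96.FL
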