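import Pool.Agent.H96.FL.EDf
import Pool.Agent.H96.AS.CLS

/-!
# CLE: correlations in the residue classes modulo `W`, for a family of signed weights

The same as `CLGa` (`Pool/Agent/H96/FL/CLGa.lean`; copy its private lemmas and its proof) for a family `F e` with means `μ e` of any sign (`|μ e| ≤ 1` because `|F e| ≤ β`, `avg β = 1`).
2. for `T ⊆ S`: `avg(V_T (V_e F_e - μ_e)(V_e' F_e' - μ_e')) = A₂ avg(F_e F_e') - μ_e μ_e' A₁ - μ_e μ_e' A₁' + μ_e μ_e' A₀ = A₂ (avg(F_e F_e') - μ_e μ_e') + μ_e μ_e' (A₂ - A₁ - A₁' + A₀)` with `A₂ = avg(V_T V_e V_e')` etc., all in `[1 - q/20, a₀]`, `a₀ = (1+4q)(1+q/20) ≤ 6`, so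
`|A₂ - A₁ - A₁' + A₀| ≤ 2 (a₀ - 1 + q/20) ≤ 9.5 q` and the first term is `≤ 6 q/20` (`1/L ≤ q/20`): total `≤ 10 q` (`a₀ - 1 + q/20 = 4q + q/10 + q²/5 ≤ 4.3 q`, so `2 * 4.3 q + 0.3 q ≤ 10 q`).
3. `(V F - μ)² ≤ 2 V² F² + 2 μ² ≤ 2 C V² β + 2` for `0 < n - e ≤ 2x`, as in `CLGa`.
-/

set_option autoImplicit false

namespace Pool.Agent.H96.FL

open Finset Pool.Agent.H17 Pool.Agent.H6.MF Pool.Agent.H6.MB Pool.Agent.H12.DM Pool.Agent.H6.AE Pool.Agent.H96.AE Pool.Agent.H96.AS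

private lemma CLE_sum {P : ℕ} {B A : ℝ} {F : ℤ → ℝ} (h : TD P B F) {x : ℝ} {H t : ℕ} (ht : t < WW (yy x))
    (hc : (WW (yy x)).Coprime P) (hP : 0 < P) (hA : avgP P F ≤ A) (hA0 : 0 ≤ A) :
    ∑ n ∈ JC x H t, F (n : ℤ) ≤ A * (((⌊x⌋₊ : ℝ) + 1) / (WW (yy x) : ℝ)) + 2 * B := by
  have hW : 0 < WW (yy x) := WW_pos _
  have hW' : (0 : ℝ) < (WW (yy x) : ℝ) := by exact_mod_cast hW
  have h1 := abs_le.1 (TRN h hW hc ht (⌊x⌋₊ + 1 + H) hP)
  have h2 := abs_le.1 (TRN h hW hc ht (H + 1) hP)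
  have h3 : ∑ n ∈ (Finset.range (H + 1)).filter (fun n => n % WW (yy x) = t), F (n : ℤ)
      + ∑ n ∈ JC x H t, F (n : ℤ)
      = ∑ n ∈ (Finset.range (⌊x⌋₊ + 1 + H)).filter (fun n => n % WW (yy x) = t), F (n : ℤ) := by
    unfold JC JJ
    rw [Finset.sum_filter, Finset.sum_filter, Finset.sum_filter]
    exact Finset.sum_range_add_sum_Ico _ (by omega)
  have h4 : ((⌊x⌋₊ + 1 + H : ℕ) : ℝ) / (WW (yy x) : ℝ) * avgP P F
      = ((H + 1 : ℕ) : ℝ) / (WW (yy x) : ℝ) * avgP P F + (⌊x⌋₊ : ℝ) / (WW (yy x) : ℝ) * avgP P F := by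
    push_cast
    field_simp
    ring
  have h5 : (⌊x⌋₊ : ℝ) / (WW (yy x) : ℝ) * avgP P F ≤ (⌊x⌋₊ : ℝ) / (WW (yy x) : ℝ) * A :=
    mul_le_mul_of_nonneg_left hA (by positivity)
  have h6 : (⌊x⌋₊ : ℝ) / (WW (yy x) : ℝ) * A ≤ A * (((⌊x⌋₊ : ℝ) + 1) / (WW (yy x) : ℝ)) := by
    rw [mul_comm]
    apply mul_le_mul_of_nonneg_left _ hA0
    gcongr
    linarith
  linarith [h1.1, h1.2, h2.1, h2.2]

private lemma CLE_add {P : ℕ} (F G : ℤ → ℝ) : avgP P (fun n => F n + G n) = avgP P F + avgP P G := by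
  unfold avgP
  rw [Finset.sum_add_distrib, add_div]

private lemma CLE_sub {P : ℕ} (F G : ℤ → ℝ) : avgP P (fun n => F n - G n) = avgP P F - avgP P G := by
  unfold avgP
  rw [Finset.sum_sub_distrib, sub_div]

private lemma CLE_smul {P : ℕ} (c : ℝ) (F : ℤ → ℝ) : avgP P (fun n => c * F n) = c * avgP P F := by
  unfold avgP
  rw [← Finset.mul_sum, mul_div_assoc]

private lemma CLE_fsum {ι : Type*} {P : ℕ} (s : Finset ι) (F : ι → ℤ → ℝ) :
    avgP P (fun n => ∑ i ∈ s, F i n) = ∑ i ∈ s, avgP P (F i) := by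
  unfold avgP
  rw [Finset.sum_comm, Finset.sum_div]

private lemma CLE_one {P : ℕ} (hP : 0 < P) : avgP P (fun _ => 1) = 1 := by
  unfold avgP
  rw [Finset.sum_const, Finset.card_range, nsmul_eq_mul, mul_one]
  exact div_self (by exact_mod_cast hP.ne')

private lemma CLE_TDc {P : ℕ} {c : ℝ} (hc : 0 ≤ c) : TD P c (fun _ => c) := by
  have h := TD_ind (P := P) (q := 1) one_pos (one_dvd P) 0 c
  rw [abs_of_nonneg hc] at h
  simpa using h

private lemma CLE_TDadd {P : ℕ} {B B' : ℝ} {F G : ℤ → ℝ} (h : TD P B F) (h' : TD P B' G) :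
    TD P (B + B') (fun n => F n + G n) := by
  have := TD_sum (Finset.univ : Finset Bool) (P := P) (B := fun i => if i then B else B')
    (F := fun i => if i then F else G) (by
      intro i _
      cases i
      · simpa using h'
      · simpa using h)
  simpa using this

private lemma CLE_TDneg {P : ℕ} {B : ℝ} {F : ℤ → ℝ} (h : TD P B F) : TD P B (fun n => - F n) := by
  obtain ⟨D, lam, h1, h2, h3⟩ := h
  refine ⟨D, fun d => - lam d, h1, ?_, ?_⟩
  · intro n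
    change - F n = _
    rw [h2, ← Finset.sum_neg_distrib]
    apply Finset.sum_congr rfl
    intro d _
    split_ifs <;> simp
  · simpa using h3

private lemma CLE_TDsubc {P : ℕ} {B μ : ℝ} {F : ℤ → ℝ} (h : TD P B F) (h1 : |μ| ≤ 1) :
    TD P (B + 1) (fun n => F n - μ) := by
  have h2 : TD P |μ| (fun _ => μ) := by
    have h := TD_ind (P := P) (q := 1) one_pos (one_dvd P) 0 μ
    simpa using h
  have h3 := CLE_TDadd h (CLE_TDneg h2)
  have h4 := TD_mono h3 (dvd_refl P) (by linarith : B + |μ| ≤ B + 1)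
  simpa [sub_eq_add_neg] using h4

private lemma CLE_TDsh {P : ℕ} {B : ℝ} {F : ℤ → ℝ} (h : TD P B F) (a : ℤ) : TD P B (fun n => F (n - a)) := by
  have := TD_add_shift h (-a)
  simpa [sub_eq_add_neg] using this

/-- the product over `S`, expanded -/
private lemma CLE_pow {P j : ℕ} {A : ℝ} (V G : ℤ → ℝ) (S : Finset ℤ) (hS : S.card ≤ j) (hA : 0 ≤ A)
    (h : ∀ T ⊆ S, avgP P (fun n => (∏ c ∈ T, V (n - c)) * G n) ≤ A) :
    avgP P (fun n => (∏ c ∈ S, (1 + V (n - c))) * G n) ≤ 2 ^ j * A := by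
  have h1 : (fun n : ℤ => (∏ c ∈ S, (1 + V (n - c))) * G n)
      = fun n : ℤ => ∑ T ∈ S.powerset, (∏ c ∈ T, V (n - c)) * G n := by
    funext n
    rw [Finset.prod_one_add, Finset.sum_mul]
  rw [h1, CLE_fsum]
  calc ∑ T ∈ S.powerset, avgP P (fun n => (∏ c ∈ T, V (n - c)) * G n)
      ≤ ∑ T ∈ S.powerset, A := Finset.sum_le_sum fun T hT => h T (Finset.mem_powerset.1 hT)
    _ = (2 : ℝ) ^ S.card * A := by
        rw [Finset.sum_const, Finset.card_powerset, nsmul_eq_mul]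
        push_cast
        ring
    _ ≤ 2 ^ j * A := by
        apply mul_le_mul_of_nonneg_right _ hA
        exact pow_le_pow_right₀ (by norm_num) hS

private lemma CLE_num {q w a₀ A₀ A₁ A₁' A₂ : ℝ} (h0 : 0 ≤ q) (h1 : q ≤ 1) (hw : |w| ≤ 1)
    (ha : a₀ = (1 + 4 * q) * (1 + q / 20)) (ha6 : a₀ ≤ 6)
    (u0 : A₀ ≤ a₀) (l0 : 1 - q / 20 ≤ A₀) (u1 : A₁ ≤ a₀) (l1 : 1 - q / 20 ≤ A₁)
    (u1' : A₁' ≤ a₀) (l1' : 1 - q / 20 ≤ A₁') (u2 : A₂ ≤ a₀) (l2 : 1 - q / 20 ≤ A₂) :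
    A₂ * (w + q / 20) - w * A₁ - w * A₁' + w * A₀ ≤ 10 * q := by
  have q2 : q ^ 2 ≤ q := by nlinarith
  have h3 : |A₂ - A₁ - A₁' + A₀| ≤ 2 * (a₀ - (1 - q / 20)) := by
    rw [abs_le]
    constructor <;> linarith
  have h4 : a₀ - (1 - q / 20) ≤ 43 / 10 * q := by
    rw [ha]
    nlinarith
  have h5 : w * (A₂ - A₁ - A₁' + A₀) ≤ |A₂ - A₁ - A₁' + A₀| := by
    calc w * (A₂ - A₁ - A₁' + A₀) ≤ |w * (A₂ - A₁ - A₁' + A₀)| := le_abs_self _
      _ = |w| * |A₂ - A₁ - A₁' + A₀| := abs_mul _ _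
      _ ≤ 1 * |A₂ - A₁ - A₁' + A₀| := mul_le_mul_of_nonneg_right hw (abs_nonneg _)
      _ = _ := one_mul _
  have h6 : A₂ * (q / 20) ≤ 6 * (q / 20) := mul_le_mul_of_nonneg_right (u2.trans ha6) (by positivity)
  have e : A₂ * (w + q / 20) - w * A₁ - w * A₁' + w * A₀ = w * (A₂ - A₁ - A₁' + A₀) + A₂ * (q / 20) := by ring
  rw [e]
  linarith

private lemma CLE_avgabs {P : ℕ} {F β : ℤ → ℝ} (h : ∀ n, |F n| ≤ β n) : |avgP P F| ≤ avgP P β := by
  unfold avgP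
  rw [abs_div, abs_of_nonneg (Nat.cast_nonneg P : (0 : ℝ) ≤ (P : ℝ))]
  apply div_le_div_of_nonneg_right _ (Nat.cast_nonneg P)
  exact (Finset.abs_sum_le_sum_abs _ _).trans (Finset.sum_le_sum fun n _ => h _)

/-- averages of products of `V` -/
private lemma CLE_V (m b : ℕ) (κ : ℝ) (hκ : 0 < κ) : ∃ X : ℝ, ∀ x : ℝ, X ≤ x → ∀ V : ℤ → ℝ, GoodVm m b x V →
    ∀ T : Finset ℤ, T.card ≤ m → (∀ a ∈ T, ∀ a' ∈ T, |((a - a' : ℤ) : ℝ)| ≤ 4 * (Real.log x) ^ 2) →
    (∀ e : ℤ → ℕ, (∀ a, 1 ≤ e a ∧ e a ≤ m) →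
      avgP (PR (yy x : ℝ) (x ^ dlm m b)) (fun n => ∏ c ∈ T, V (n - c) ^ e c)
        ≤ (1 + 4 * (1 / 2 : ℝ) ^ b) * (1 + κ) * (EP (yy x : ℝ) (x ^ dlm m b))⁻¹ ^ (∑ c ∈ T, (e c - 1))) ∧
    1 - (m : ℝ) ^ 2 / (yy x : ℝ) ≤ avgP (PR (yy x : ℝ) (x ^ dlm m b)) (fun n => ∏ c ∈ T, V (n - c)) := by
  obtain ⟨X, hX⟩ := PW_Gs m m κ hκ
  refine ⟨max X 1, fun x hx V hV T hT hd => ?_⟩
  have hx1 : 1 ≤ x := (le_max_right _ _).trans hx
  obtain ⟨_, _, _, h4, h5⟩ := hV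
  have hinj : Set.InjOn (fun a : ℤ => -a) (T : Set ℤ) := neg_injective.injOn
  have hcard : (T.image (fun a => -a)).card ≤ m := Finset.card_image_le.trans hT
  have hprod : ∀ (n : ℤ) (e : ℤ → ℕ), ∏ a ∈ T.image (fun a => -a), V (n + a) ^ e (-a) = ∏ c ∈ T, V (n - c) ^ e c := by
    intro n e
    rw [Finset.prod_image hinj]
    apply Finset.prod_congr rfl
    intro c _
    rw [neg_neg, sub_eq_add_neg]
  constructor
  · intro e he
    have h6 := h4 (T.image (fun a => -a)) hcard (fun a => e (-a)) (fun a => he (-a))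
    have h7 : (fun n : ℤ => ∏ a ∈ T.image (fun a => -a), V (n + a) ^ e (-a)) = fun n : ℤ => ∏ c ∈ T, V (n - c) ^ e c := by
      funext n
      exact hprod n e
    have h8 : ∑ a ∈ T.image (fun a => -a), (e (-a) - 1) = ∑ c ∈ T, (e c - 1) := by
      rw [Finset.sum_image hinj]
      apply Finset.sum_congr rfl
      intro c _
      rw [neg_neg]
    rw [h7, h8] at h6
    have h9 : Dp m (yy x : ℝ) (x ^ dlm m b) (T.image (fun a => -a)) ≤ 1 + κ := by
      have g1 := OBm m (yy x) (le_refl (yy x : ℝ)) (le_refl (yy x : ℝ)) (z := x ^ dlm m b) (by positivity)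
        (T.image (fun a => -a)) ∅ ∅ (T.image (fun a => -a)) (Finset.empty_subset _) (Finset.empty_subset _)
        (Finset.Subset.refl _)
      have g2 := one_le_Dp m (yy x : ℝ) (yy x : ℝ) ∅
      have g3 := one_le_Dp m (yy x : ℝ) (x ^ dlm m b) (T.image (fun a => -a))
      rw [OB_neg] at g1
      have g4 := hX x ((le_max_left _ _).trans hx) T hT hd
      have g5 : Dp m (yy x : ℝ) (x ^ dlm m b) (T.image (fun a => -a))
          ≤ Dp m (yy x : ℝ) (yy x : ℝ) ∅ * (Dp m (yy x : ℝ) (yy x : ℝ) ∅ *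
            Dp m (yy x : ℝ) (x ^ dlm m b) (T.image (fun a => -a))) := by
        have g6 : Dp m (yy x : ℝ) (x ^ dlm m b) (T.image (fun a => -a)) ≤ Dp m (yy x : ℝ) (yy x : ℝ) ∅ *
            Dp m (yy x : ℝ) (x ^ dlm m b) (T.image (fun a => -a)) := by nlinarith
        nlinarith
      linarith
    have hE : 0 ≤ (EP (yy x : ℝ) (x ^ dlm m b))⁻¹ := (inv_pos.2 (EP_pos _ _)).le
    calc avgP (PR (yy x : ℝ) (x ^ dlm m b)) (fun n => ∏ c ∈ T, V (n - c) ^ e c)
        ≤ (1 + 4 * (1 / 2 : ℝ) ^ b) * (EP (yy x : ℝ) (x ^ dlm m b))⁻¹ ^ (∑ c ∈ T, (e c - 1)) *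
          Dp m (yy x : ℝ) (x ^ dlm m b) (T.image (fun a => -a)) := h6
      _ ≤ (1 + 4 * (1 / 2 : ℝ) ^ b) * (EP (yy x : ℝ) (x ^ dlm m b))⁻¹ ^ (∑ c ∈ T, (e c - 1)) * (1 + κ) :=
          mul_le_mul_of_nonneg_left h9 (by positivity)
      _ = _ := by ring
  · have h6 := h5 (T.image (fun a => -a)) hcard
    have h7 : (fun n : ℤ => ∏ a ∈ T.image (fun a => -a), V (n + a)) = fun n : ℤ => ∏ c ∈ T, V (n - c) := by
      funext n
      have := hprod n (fun _ => 1)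
      simpa using this
    rwa [h7] at h6

private lemma CLE_ev (j b m : ℕ) (η C : ℝ) (hη0 : 0 < η) (hC : 0 < C) (κ : ℝ) (hκ : 0 < κ) : ∃ X : ℝ, ∀ x : ℝ, X ≤ x →
    1 ≤ x ∧ 1 ≤ Real.log x ∧ (Real.log x) ^ 2 ≤ x ∧ 1 / Real.log x ≤ κ ∧ (m : ℝ) ^ 2 / (yy x : ℝ) ≤ κ ∧
    (yy x : ℝ) ≤ x ^ dlm m b ∧
    2 * (2 * (2 ^ j * (C + 1) ^ 2 * x ^ (1 - η))) ≤ 2 ^ j * (1 / 2 : ℝ) ^ b * (((⌊x⌋₊ : ℝ) + 1) / (WW (yy x) : ℝ)) := by
  have hq : (0 : ℝ) < (1 / 2 : ℝ) ^ b := by positivity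
  have hK : (0 : ℝ) < (1 / 2 : ℝ) ^ b / (4 * (C + 1) ^ 2) := by positivity
  have h1 : ∀ᶠ x : ℝ in Filter.atTop, 1 ≤ Real.log x := Real.tendsto_log_atTop.eventually_ge_atTop _
  have h2 := eventually_log_pow_le 2 (show (0 : ℝ) < 1 by norm_num)
  have h3 : ∀ᶠ x : ℝ in Filter.atTop, 1 / κ ≤ Real.log x := Real.tendsto_log_atTop.eventually_ge_atTop _
  have h4 : ∀ᶠ x : ℝ in Filter.atTop, (m : ℝ) ^ 2 / κ + 1 ≤ (yy x : ℝ) :=
    (tendsto_natCast_atTop_atTop.comp tendsto_yy).eventually_ge_atTop _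
  have h5 := (isLittleO_log_rpow_atTop (show (0 : ℝ) < η by positivity)).bound hK
  have h7 := (isLittleO_log_rpow_atTop (dlm_pos m b)).bound (show (0 : ℝ) < 1 by norm_num)
  obtain ⟨X, hX⟩ := Filter.eventually_atTop.1 (h1.and (h2.and (h3.and (h4.and (h5.and (h7.and
    (Filter.eventually_ge_atTop (1 : ℝ))))))))
  refine ⟨X, fun x hx => ?_⟩
  obtain ⟨a1, a2, a3, a4, a5, a7, a6⟩ := hX x hx
  have x0 : 0 < x := by linarith
  have L0 : 0 < Real.log x := by linarith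
  have hWL : (WW (yy x) : ℝ) ≤ Real.log x := MAJ_W a1
  have hW0 : (0 : ℝ) < (WW (yy x) : ℝ) := by exact_mod_cast WW_pos _
  refine ⟨a6, a1, by linarith, ?_, ?_, ?_, ?_⟩
  · rw [div_le_iff₀ L0]
    rw [div_le_iff₀ hκ] at a3
    linarith
  · have y0 : (0 : ℝ) < (yy x : ℝ) := by
      have : (0 : ℝ) ≤ (m : ℝ) ^ 2 / κ := by positivity
      linarith
    rw [div_le_iff₀ y0]
    have : (m : ℝ) ^ 2 / κ ≤ (yy x : ℝ) := by linarith
    rw [div_le_iff₀ hκ] at this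
    linarith
  · rw [Real.norm_of_nonneg L0.le, Real.norm_of_nonneg (Real.rpow_nonneg x0.le _), one_mul] at a7
    have e1 : (yy x : ℝ) ≤ Real.log (Real.log x) / 100 := Nat.floor_le (div_nonneg (Real.log_nonneg a1) (by norm_num))
    have e2 := Real.log_le_sub_one_of_pos L0
    linarith
  · rw [Real.norm_of_nonneg L0.le, Real.norm_of_nonneg (Real.rpow_nonneg x0.le _)] at a5
    have b1 : x / Real.log x ≤ ((⌊x⌋₊ : ℝ) + 1) / (WW (yy x) : ℝ) := by
      have := (Nat.lt_floor_add_one x).le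
      gcongr
    have b2 : 4 * (C + 1) ^ 2 * x ^ (1 - η) ≤ (1 / 2 : ℝ) ^ b * (x / Real.log x) := by
      have e1 : x = x ^ (1 - η) * x ^ η := by
        rw [← Real.rpow_add x0]
        ring_nf
        rw [Real.rpow_one]
      rw [← mul_div_assoc, le_div_iff₀ L0]
      have e2 : 4 * (C + 1) ^ 2 * Real.log x ≤ (1 / 2 : ℝ) ^ b * x ^ η := by
        have := mul_le_mul_of_nonneg_left a5 (show (0 : ℝ) ≤ 4 * (C + 1) ^ 2 by positivity)
        calc 4 * (C + 1) ^ 2 * Real.log x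
            ≤ 4 * (C + 1) ^ 2 * ((1 / 2 : ℝ) ^ b / (4 * (C + 1) ^ 2) * x ^ η) := this
          _ = (1 / 2 : ℝ) ^ b * x ^ η := by
            field_simp
      have e3 : 0 ≤ x ^ (1 - η) := Real.rpow_nonneg x0.le _
      calc 4 * (C + 1) ^ 2 * x ^ (1 - η) * Real.log x
          = x ^ (1 - η) * (4 * (C + 1) ^ 2 * Real.log x) := by ring
        _ ≤ x ^ (1 - η) * ((1 / 2 : ℝ) ^ b * x ^ η) := mul_le_mul_of_nonneg_left e2 e3
        _ = (1 / 2 : ℝ) ^ b * (x ^ (1 - η) * x ^ η) := by ring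
        _ = (1 / 2 : ℝ) ^ b * x := by rw [← e1]
    calc 2 * (2 * (2 ^ j * (C + 1) ^ 2 * x ^ (1 - η))) = 2 ^ j * (4 * (C + 1) ^ 2 * x ^ (1 - η)) := by ring
      _ ≤ 2 ^ j * ((1 / 2 : ℝ) ^ b * (x / Real.log x)) := mul_le_mul_of_nonneg_left b2 (by positivity)
      _ ≤ 2 ^ j * ((1 / 2 : ℝ) ^ b * (((⌊x⌋₊ : ℝ) + 1) / (WW (yy x) : ℝ))) := by
          gcongr
      _ = _ := by ring

/-- the three bounds for the coefficients -/
private lemma CLE_B {x η C v : ℝ} {j k m : ℕ} (hx : 1 ≤ x) (hη1 : η ≤ 1 / 20) (hC : 0 < C) (hk : k ≤ j)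
    (hm : (j : ℝ) + 4 ≤ 10 * ((m : ℝ) + 1) * η) (hv : v = x ^ (1 / (10 * ((m : ℝ) + 1)))) :
    (1 + v) ^ k ≤ 2 ^ j * (C + 1) ^ 2 * x ^ (1 - η) ∧
    (1 + v) ^ k * ((v * (C * x ^ (1 / 2 - η)) + 1) * (v * (C * x ^ (1 / 2 - η)) + 1))
      ≤ 2 ^ j * (C + 1) ^ 2 * x ^ (1 - η) ∧
    (1 + v) ^ k * (2 * C * (v * v * (C * x ^ (1 / 2 - η))) + 2) ≤ 2 * (2 ^ j * (C + 1) ^ 2 * x ^ (1 - η)) := by
  have x0 : 0 < x := by linarith
  have hv1 : 1 ≤ v := by
    rw [hv]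
    exact Real.one_le_rpow hx (by positivity)
  set Y : ℝ := x ^ (1 / 2 - η) with hY
  have hY1 : 1 ≤ Y := Real.one_le_rpow hx (by linarith)
  have h1 : (1 + v) ^ k ≤ 2 ^ j * v ^ j := by
    calc (1 + v) ^ k ≤ (1 + v) ^ j := pow_le_pow_right₀ (by linarith) hk
      _ ≤ (2 * v) ^ j := by
          gcongr
          linarith
      _ = 2 ^ j * v ^ j := mul_pow _ _ _
  have h2 : v ^ j * (v ^ 2 * Y ^ 2) ≤ x ^ (1 - η) := by
    have e1 : v ^ j * (v ^ 2 * Y ^ 2) = v ^ (j + 2) * Y ^ 2 := by ring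
    rw [e1, hv, hY, ← Real.rpow_natCast, ← Real.rpow_natCast, ← Real.rpow_mul x0.le, ← Real.rpow_mul x0.le,
      ← Real.rpow_add x0]
    apply Real.rpow_le_rpow_of_exponent_le hx
    have e2 : 1 / (10 * ((m : ℝ) + 1)) * ((j + 2 : ℕ) : ℝ) ≤ η := by
      rw [one_div_mul_eq_div, div_le_iff₀ (by positivity)]
      push_cast
      nlinarith
    push_cast at e2 ⊢
    linarith
  have hvj : 0 < v ^ j := by positivity
  have key : ∀ u : ℝ, 0 ≤ u → u ≤ (C + 1) ^ 2 * (v ^ 2 * Y ^ 2) →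
      (1 + v) ^ k * u ≤ 2 ^ j * (C + 1) ^ 2 * x ^ (1 - η) := by
    intro u hu0 hu
    calc (1 + v) ^ k * u ≤ (2 ^ j * v ^ j) * ((C + 1) ^ 2 * (v ^ 2 * Y ^ 2)) :=
          mul_le_mul h1 hu hu0 (by positivity)
      _ = 2 ^ j * (C + 1) ^ 2 * (v ^ j * (v ^ 2 * Y ^ 2)) := by ring
      _ ≤ _ := mul_le_mul_of_nonneg_left h2 (by positivity)
  have hvY : 1 ≤ v * Y := one_le_mul_of_one_le_of_one_le hv1 hY1
  refine ⟨?_, ?_, ?_⟩
  · have := key 1 zero_le_one (by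
      have g1 : 1 ≤ (v * Y) ^ 2 := one_le_pow₀ hvY
      have g2 : 1 ≤ (C + 1) ^ 2 := one_le_pow₀ (by linarith)
      calc (1 : ℝ) ≤ (C + 1) ^ 2 * (v * Y) ^ 2 := one_le_mul_of_one_le_of_one_le g2 g1
        _ = _ := by ring)
    rwa [mul_one] at this
  · apply key _ (by positivity)
    have g1 : v * (C * Y) + 1 ≤ (C + 1) * (v * Y) := by nlinarith
    have g0 : 0 ≤ v * (C * Y) + 1 := by positivity
    calc (v * (C * Y) + 1) * (v * (C * Y) + 1) ≤ ((C + 1) * (v * Y)) * ((C + 1) * (v * Y)) :=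
          mul_le_mul g1 g1 g0 (by positivity)
      _ = _ := by ring
  · have g0 : (1 + v) ^ k * (2 * C * (v * v * (C * Y)) + 2) = 2 * ((1 + v) ^ k * (C * (v * v * (C * Y)) + 1)) := by
      ring
    rw [g0]
    apply mul_le_mul_of_nonneg_left _ zero_le_two
    apply key _ (by positivity)
    have g1 : 1 ≤ v ^ 2 * Y ^ 2 := by
      rw [← mul_pow]
      exact one_le_pow₀ hvY
    have g2 : v * v * Y ≤ v ^ 2 * Y ^ 2 := by
      have : Y ≤ Y ^ 2 := by nlinarith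
      calc v * v * Y = v ^ 2 * Y := by ring
        _ ≤ v ^ 2 * Y ^ 2 := mul_le_mul_of_nonneg_left this (by positivity)
    calc C * (v * v * (C * Y)) + 1 = C ^ 2 * (v * v * Y) + 1 := by ring
      _ ≤ C ^ 2 * (v ^ 2 * Y ^ 2) + v ^ 2 * Y ^ 2 := by
          have := mul_le_mul_of_nonneg_left g2 (show (0 : ℝ) ≤ C ^ 2 by positivity)
          linarith
      _ ≤ (C + 1) ^ 2 * (v ^ 2 * Y ^ 2) := by nlinarith

theorem CLE (m b j : ℕ) (v η C : ℝ) (hη0 : 0 < η) (hη1 : η ≤ 1 / 20) (hj : j + 2 ≤ m)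
    (hm : (j : ℝ) + 4 ≤ 10 * ((m : ℝ) + 1) * η) (hC : 0 < C) (hv : dlm m b < v) : ∃ X : ℝ, ∀ x : ℝ, X ≤ x →
    ∀ V : ℤ → ℝ, GoodVm m b x V →
    ∀ (μ β : ℤ → ℝ) (F : ℤ → ℤ → ℝ), GoodE (dlm m b) v η C x μ β F →
    ∀ H : ℕ, (H : ℝ) ≤ (Real.log x) ^ 2 → ∀ S : Finset ℤ, S ⊆ Finset.Icc 1 (H : ℤ) → S.card ≤ j →
    ∀ t : ℕ, t < WW (yy x) →
    (∑ n ∈ JC x H t, ∏ c ∈ S, (1 + V ((n : ℤ) - c)) ≤ 2 ^ (j + 3) * (((⌊x⌋₊ : ℝ) + 1) / (WW (yy x) : ℝ))) ∧
    (∀ e ∈ Finset.Icc 1 (H : ℤ) \ S, ∀ e' ∈ Finset.Icc 1 (H : ℤ) \ S, e ≠ e' →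
      ∑ n ∈ JC x H t, (∏ c ∈ S, (1 + V ((n : ℤ) - c))) * ((V ((n : ℤ) - e) * F e ((n : ℤ) - e) - μ e) *
        (V ((n : ℤ) - e') * F e' ((n : ℤ) - e') - μ e'))
        ≤ 2 ^ (j + 5) * (1 / 2 : ℝ) ^ b * (((⌊x⌋₊ : ℝ) + 1) / (WW (yy x) : ℝ))) ∧
    (∀ e ∈ Finset.Icc 1 (H : ℤ) \ S,
      ∑ n ∈ JC x H t, (∏ c ∈ S, (1 + V ((n : ℤ) - c))) * (V ((n : ℤ) - e) * F e ((n : ℤ) - e) - μ e) ^ 2
        ≤ 2 ^ (j + 4) * (C + 1) * (EP (yy x : ℝ) (x ^ dlm m b))⁻¹ * (((⌊x⌋₊ : ℝ) + 1) / (WW (yy x) : ℝ))) := by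
  set q : ℝ := (1 / 2 : ℝ) ^ b with hq
  have hq0 : 0 < q := by positivity
  have hq1 : q ≤ 1 := pow_le_one₀ (by norm_num) (by norm_num)
  obtain ⟨X1, hX1⟩ := CLE_V m b (q / 20) (by positivity)
  obtain ⟨X2, hX2⟩ := CLE_ev j b m η C hη0 hC (q / 20) (by positivity)
  refine ⟨max X1 X2, fun x hx V hV μ β F hF H hH S hS hSj t ht => ?_⟩
  have hV1 := hX1 x ((le_max_left _ _).trans hx) V hV
  obtain ⟨x1, L1, hL2, hLi, hmw, hzw, hE⟩ := hX2 x ((le_max_right _ _).trans hx)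
  have x0 : 0 < x := by linarith
  have L0 : 0 < Real.log x := by linarith
  obtain ⟨V0, _, VT, _, _⟩ := hV
  obtain ⟨β0, Fb, βT, FT, βa, Fa, F2, βC⟩ := hF
  set z : ℝ := x ^ dlm m b with hz
  set R : ℝ := x ^ v with hR
  set P1 : ℕ := PR (yy x : ℝ) z with hP1
  set P2 : ℕ := PR z R with hP2
  set vv : ℝ := x ^ (1 / (10 * ((m : ℝ) + 1))) with hvv
  set Ei : ℝ := (EP (yy x : ℝ) z)⁻¹ with hEi
  set NW : ℝ := ((⌊x⌋₊ : ℝ) + 1) / (WW (yy x) : ℝ) with hNW
  have hz0 : 0 ≤ z := Real.rpow_nonneg x0.le _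
  have hR0 : 0 ≤ R := Real.rpow_nonneg x0.le _
  have hP1p : 0 < P1 := MAJ_PR_pos _ _
  have hP2p : 0 < P2 := MAJ_PR_pos _ _
  have hPp : 0 < P1 * P2 := Nat.mul_pos hP1p hP2p
  have hc12 : P1.Coprime P2 := MAJ_cop hz0 hR0
  have hcW1 : (WW (yy x)).Coprime P1 := MAJ_copW hz0 le_rfl
  have hcW2 : (WW (yy x)).Coprime P2 := MAJ_copW hR0 hzw
  have hcW : (WW (yy x)).Coprime (P1 * P2) := Nat.Coprime.mul_right hcW1 hcW2
  have hEi1 : 1 ≤ Ei := (one_le_inv₀ (EP_pos _ _)).2 (EP_le_one _ _)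
  have hNW0 : 0 ≤ NW := by positivity
  have hj0 : (0 : ℝ) < 2 ^ j := by positivity
  have hB := CLE_B (x := x) (η := η) (C := C) (v := vv) (j := j) (k := S.card) (m := m) x1 hη1 hC hSj hm hvv
  obtain ⟨hB1, hB2, hB3⟩ := hB
  have hZ : 0 ≤ 2 ^ j * (C + 1) ^ 2 * x ^ (1 - η) := by positivity
  set Y : ℝ := x ^ (1 / 2 - η) with hY
  have hm2 : 2 ≤ m := by omega
  -- differences
  have hdiff : ∀ a ∈ Finset.Icc 1 (H : ℤ), ∀ a' ∈ Finset.Icc 1 (H : ℤ), |((a - a' : ℤ) : ℝ)| ≤ 4 * (Real.log x) ^ 2 := by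
    intro a ha a' ha'
    rw [Finset.mem_Icc] at ha ha'
    have h1 : |a - a'| ≤ (H : ℤ) := by
      rw [abs_le]
      constructor <;> linarith [ha.1, ha.2, ha'.1, ha'.2]
    have h2 : |((a - a' : ℤ) : ℝ)| ≤ (H : ℝ) := by exact_mod_cast h1
    have h3 : 0 ≤ (Real.log x) ^ 2 := by positivity
    linarith
  set a₀ : ℝ := (1 + 4 * q) * (1 + q / 20) with ha₀
  have ha6 : a₀ ≤ 6 := by
    calc a₀ = (1 + 4 * q) * (1 + q / 20) := ha₀
      _ ≤ (1 + 4 * 1) * (1 + 1 / 20) := by gcongr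
      _ ≤ 6 := by norm_num
  have ha0 : 0 ≤ a₀ := by positivity
  -- averages of products of V
  have hA : ∀ T : Finset ℤ, T ⊆ Finset.Icc 1 (H : ℤ) → T.card ≤ m →
      avgP P1 (fun n => ∏ c ∈ T, V (n - c)) ≤ a₀ ∧ 1 - q / 20 ≤ avgP P1 (fun n => ∏ c ∈ T, V (n - c)) := by
    intro T hT hTm
    have h1 := hV1 T hTm (fun a ha a' ha' => hdiff a (hT ha) a' (hT ha'))
    have h2 := h1.1 (fun _ => 1) (fun _ => ⟨le_refl 1, by omega⟩)
    constructor
    · simpa using h2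
    · linarith [h1.2]
  have hA2 : ∀ T : Finset ℤ, T ⊆ Finset.Icc 1 (H : ℤ) → T.card + 1 ≤ m → ∀ e ∈ Finset.Icc 1 (H : ℤ), e ∉ T →
      avgP P1 (fun n => (∏ c ∈ T, V (n - c)) * (V (n - e) * V (n - e))) ≤ a₀ * Ei := by
    intro T hT hTm e he heT
    have h0 : insert e T ⊆ Finset.Icc 1 (H : ℤ) := Finset.insert_subset he hT
    have h1 := (hV1 (insert e T) (by rw [Finset.card_insert_of_notMem heT]; exact hTm)
      (fun a ha a' ha' => hdiff a (h0 ha) a' (h0 ha'))).1 (fun c => if c = e then 2 else 1)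
      (fun c => by
        by_cases hc : c = e
        · simp only [hc, if_true]
          omega
        · simp only [hc, if_false]
          omega)
    have h2 : (fun n : ℤ => ∏ c ∈ insert e T, V (n - c) ^ (if c = e then 2 else 1))
        = fun n : ℤ => (∏ c ∈ T, V (n - c)) * (V (n - e) * V (n - e)) := by
      funext n
      rw [Finset.prod_insert heT, if_pos rfl, mul_comm, pow_two]
      congr 1
      apply Finset.prod_congr rfl
      intro c hc
      have : c ≠ e := fun h => heT (h ▸ hc)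
      rw [if_neg this, pow_one]
    have h3 : ∑ c ∈ insert e T, ((if c = e then 2 else 1) - 1) = 1 := by
      rw [Finset.sum_insert heT, if_pos rfl]
      have : ∑ c ∈ T, ((if c = e then 2 else 1) - 1) = 0 := by
        apply Finset.sum_eq_zero
        intro c hc
        have : c ≠ e := fun h => heT (h ▸ hc)
        simp [this]
      rw [this]
    rw [h2, h3, pow_one] at h1
    exact h1
  -- independence
  have hVp : ∀ (c n k : ℤ), V (n + k * P1 - c) = V (n - c) := by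
    intro c n k
    rw [show n + k * (P1 : ℤ) - c = (n - c) + k * (P1 : ℤ) by ring]
    exact TD_period VT _ _
  have hβp : ∀ (c n k : ℤ), β (n + k * P2 - c) = β (n - c) := by
    intro c n k
    rw [show n + k * (P2 : ℤ) - c = (n - c) + k * (P2 : ℤ) by ring]
    exact TD_period βT _ _
  have hFp : ∀ (e c n k : ℤ), F e (n + k * P2 - c) = F e (n - c) := by
    intro e c n k
    rw [show n + k * (P2 : ℤ) - c = (n - c) + k * (P2 : ℤ) by ring]
    exact TD_period (FT e) _ _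
  have hμ1 : ∀ e : ℤ, |μ e| ≤ 1 := by
    intro e
    rw [← Fa e, ← βa]
    exact CLE_avgabs (Fb e)
  have hmul : ∀ (F G : ℤ → ℝ), (∀ n k : ℤ, F (n + k * P1) = F n) → (∀ n k : ℤ, G (n + k * P2) = G n) →
      avgP (P1 * P2) (fun n => F n * G n) = avgP P1 F * avgP P2 G :=
    fun F G hF hG => avg_mul hP1p hP2p hc12 hF hG
  have hTp : ∀ (T : Finset ℤ) (n k : ℤ), ∏ c ∈ T, V (n + k * P1 - c) = ∏ c ∈ T, V (n - c) := by
    intro T n k
    exact Finset.prod_congr rfl fun c _ => hVp c n k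
  have hβ1 : ∀ e : ℤ, avgP P2 (fun n => β (n - e)) = 1 := by
    intro e
    have h1 := avg_shift hP2p (G := β) (fun n k => TD_period βT n k) (-e)
    simp only [← sub_eq_add_neg] at h1
    rw [h1]
    exact βa
  have hF1 : ∀ e : ℤ, avgP P2 (fun n => F e (n - e)) = μ e := by
    intro e
    have h1 := avg_shift hP2p (G := F e) (fun n k => TD_period (FT e) n k) (-e)
    simp only [← sub_eq_add_neg] at h1
    rw [h1]
    exact Fa e
  have hone : avgP P2 (fun _ => (1 : ℝ)) = 1 := CLE_one hP2p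
  have hVone : ∀ T : Finset ℤ, avgP (P1 * P2) (fun n => (∏ c ∈ T, V (n - c)) * 1) = avgP P1 (fun n => ∏ c ∈ T, V (n - c)) := by
    intro T
    rw [hmul (fun n => ∏ c ∈ T, V (n - c)) (fun _ => 1) (hTp T) (fun _ _ => rfl), hone, mul_one]
  have hVβ : ∀ (T : Finset ℤ) (e : ℤ), avgP (P1 * P2) (fun n => (∏ c ∈ T, V (n - c)) * β (n - e))
      = avgP P1 (fun n => ∏ c ∈ T, V (n - c)) := by
    intro T e
    rw [hmul (fun n => ∏ c ∈ T, V (n - c)) (fun n => β (n - e)) (hTp T) (hβp e), hβ1, mul_one]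
  have hVF : ∀ (T : Finset ℤ) (e : ℤ), avgP (P1 * P2) (fun n => (∏ c ∈ T, V (n - c)) * F e (n - e))
      = avgP P1 (fun n => ∏ c ∈ T, V (n - c)) * μ e := by
    intro T e
    rw [hmul (fun n => ∏ c ∈ T, V (n - c)) (fun n => F e (n - e)) (hTp T) (hFp e e), hF1]
  -- TD
  have VTP : TD (P1 * P2) vv V := TD_mono VT (Nat.dvd_mul_right _ _) le_rfl
  have βTP : TD (P1 * P2) (C * Y) β := TD_mono βT (Nat.dvd_mul_left _ _) le_rfl
  have FTP : ∀ e : ℤ, TD (P1 * P2) (C * Y) (F e) := fun e => TD_mono (FT e) (Nat.dvd_mul_left _ _) le_rfl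
  have hST : ∀ P : ℕ, 0 < P → TD P vv V → TD P ((1 + vv) ^ S.card) (fun n => ∏ c ∈ S, (1 + V (n - c))) := by
    intro P hP h
    have := TD_prod S hP (B := fun _ => 1 + vv) (F := fun c n => 1 + V (n - c))
      (fun c _ => CLE_TDadd TD_one (CLE_TDsh h c))
    simpa using this
  have hFS0 : ∀ n : ℤ, 0 ≤ ∏ c ∈ S, (1 + V (n - c)) := fun n =>
    Finset.prod_nonneg fun c _ => by linarith [V0 (n - c)]
  refine ⟨?_, ?_, ?_⟩
  · have h1 : avgP P1 (fun n => (∏ c ∈ S, (1 + V (n - c))) * 1) ≤ 2 ^ j * 6 := by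
      apply CLE_pow V (fun _ => 1) S hSj (by norm_num)
      intro T hT
      simp only [mul_one]
      exact ((hA T (hT.trans hS) ((Finset.card_le_card hT).trans (by omega))).1).trans ha6
    simp only [mul_one] at h1
    have h2 := CLE_sum (x := x) (H := H) (hST P1 hP1p VT) ht hcW1 hP1p h1 (by positivity)
    calc ∑ n ∈ JC x H t, ∏ c ∈ S, (1 + V ((n : ℤ) - c))
        ≤ 2 ^ j * 6 * NW + 2 * (1 + vv) ^ S.card := h2
      _ ≤ 2 ^ j * 6 * NW + 2 ^ j * q * NW := by linarith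
      _ ≤ 2 ^ (j + 3) * NW := by
          have h3 : 2 ^ j * q * NW ≤ 2 ^ j * 1 * NW := by gcongr
          have h4 : 0 ≤ 2 ^ j * NW := by positivity
          rw [pow_add]
          linarith
  · intro e he e' he' hne
    rw [Finset.mem_sdiff] at he he'
    have h1 : avgP (P1 * P2) (fun n => (∏ c ∈ S, (1 + V (n - c))) *
        ((V (n - e) * F e (n - e) - μ e) * (V (n - e') * F e' (n - e') - μ e'))) ≤ 2 ^ j * (10 * q) := by
      apply CLE_pow V (fun n => (V (n - e) * F e (n - e) - μ e) * (V (n - e') * F e' (n - e') - μ e')) S hSj (by positivity)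
      intro T hT
      have hTI : T ⊆ Finset.Icc 1 (H : ℤ) := hT.trans hS
      have hTc : T.card ≤ j := (Finset.card_le_card hT).trans hSj
      have heT : e ∉ T := fun h => he.2 (hT h)
      have heT' : e' ∉ T := fun h => he'.2 (hT h)
      have heT2 : e ∉ insert e' T := by
        rw [Finset.mem_insert]
        push Not
        exact ⟨hne, heT⟩
      have hc1 : (insert e T).card = T.card + 1 := Finset.card_insert_of_notMem heT
      have hc2 : (insert e' T).card = T.card + 1 := Finset.card_insert_of_notMem heT'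
      have hc3 : (insert e (insert e' T)).card = T.card + 2 := by
        rw [Finset.card_insert_of_notMem heT2, hc2]
      have hfun : (fun n : ℤ => (∏ c ∈ T, V (n - c)) * ((V (n - e) * F e (n - e) - μ e) * (V (n - e') * F e' (n - e') - μ e')))
          = fun n : ℤ => ((∏ c ∈ insert e (insert e' T), V (n - c)) * (F e (n - e) * F e' (n - e')) -
            μ e' * ((∏ c ∈ insert e T, V (n - c)) * F e (n - e)) - μ e * ((∏ c ∈ insert e' T, V (n - c)) * F e' (n - e'))) +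
            μ e * μ e' * ((∏ c ∈ T, V (n - c)) * 1) := by
        funext n
        rw [Finset.prod_insert heT2, Finset.prod_insert heT', Finset.prod_insert heT]
        ring
      have hFF : avgP P2 (fun n => F e (n - e) * F e' (n - e')) ≤ μ e * μ e' + 1 / Real.log x := by
        have g1 := avg_shift hP2p (G := fun n => F e n * F e' (n + (e - e'))) (fun n k => by
          have g2 : n + k * (P2 : ℤ) + (e - e') = (n + (e - e')) + k * (P2 : ℤ) := by ring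
          simp only [g2, TD_period (FT e), TD_period (FT e')]) (-e)
        have g3 : (fun n : ℤ => F e (n + -e) * F e' (n + -e + (e - e'))) = fun n : ℤ => F e (n - e) * F e' (n - e') := by
          funext n
          rw [show n + -e = n - e by ring, show n - e + (e - e') = n - e' by ring]
        simp only [g3] at g1
        rw [g1]
        exact F2 e e' (e - e') (sub_ne_zero.2 hne) (hdiff e he.1 e' he'.1)
      rw [hfun, CLE_add, CLE_sub, CLE_sub, CLE_smul, CLE_smul, CLE_smul, hVone, hVF, hVF,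
        hmul (fun n => ∏ c ∈ insert e (insert e' T), V (n - c)) (fun n => F e (n - e) * F e' (n - e')) (hTp _)
          (fun n k => by simp only [hFp])]
      have k1 := hA (insert e (insert e' T)) (Finset.insert_subset he.1 (Finset.insert_subset he'.1 hTI))
        (by omega)
      have k2 := hA (insert e T) (Finset.insert_subset he.1 hTI) (by omega)
      have k3 := hA (insert e' T) (Finset.insert_subset he'.1 hTI) (by omega)
      have k4 := hA T hTI (by omega)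
      have hw : |μ e * μ e'| ≤ 1 := by
        rw [abs_mul]
        exact mul_le_one₀ (hμ1 e) (abs_nonneg _) (hμ1 e')
      have k0 : 0 ≤ avgP P1 (fun n => ∏ c ∈ insert e (insert e' T), V (n - c)) := by linarith [k1.2]
      have k5 : avgP P1 (fun n => ∏ c ∈ insert e (insert e' T), V (n - c)) * avgP P2 (fun n => F e (n - e) * F e' (n - e'))
          ≤ avgP P1 (fun n => ∏ c ∈ insert e (insert e' T), V (n - c)) * (μ e * μ e' + q / 20) :=
        mul_le_mul_of_nonneg_left (hFF.trans (by linarith)) k0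
      have k6 := CLE_num hq0.le hq1 hw ha₀ ha6 k4.1 k4.2 k2.1 k2.2 k3.1 k3.2 k1.1 k1.2
      have k10 : ∀ y : ℝ, μ e' * (y * μ e) = μ e * μ e' * y := fun y => by ring
      have k11 : ∀ y : ℝ, μ e * (y * μ e') = μ e * μ e' * y := fun y => by ring
      rw [k10, k11]
      linarith
    have h2 : TD (P1 * P2) ((1 + vv) ^ S.card * ((vv * (C * Y) + 1) * (vv * (C * Y) + 1)))
        (fun n => (∏ c ∈ S, (1 + V (n - c))) * ((V (n - e) * F e (n - e) - μ e) * (V (n - e') * F e' (n - e') - μ e'))) := by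
      apply TD_mul hPp (hST _ hPp VTP)
      apply TD_mul hPp
      · exact CLE_TDsubc (TD_mul hPp (CLE_TDsh VTP e) (CLE_TDsh (FTP e) e)) (hμ1 e)
      · exact CLE_TDsubc (TD_mul hPp (CLE_TDsh VTP e') (CLE_TDsh (FTP e') e')) (hμ1 e')
    have h3 := CLE_sum (x := x) (H := H) h2 ht hcW hPp h1 (by positivity)
    calc ∑ n ∈ JC x H t, (∏ c ∈ S, (1 + V ((n : ℤ) - c))) * ((V ((n : ℤ) - e) * F e ((n : ℤ) - e) - μ e) *
          (V ((n : ℤ) - e') * F e' ((n : ℤ) - e') - μ e'))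
        ≤ 2 ^ j * (10 * q) * NW + 2 * ((1 + vv) ^ S.card * ((vv * (C * Y) + 1) * (vv * (C * Y) + 1))) := h3
      _ ≤ 2 ^ j * (10 * q) * NW + 2 ^ j * q * NW := by linarith
      _ ≤ 2 ^ (j + 5) * q * NW := by
          have h4 : 0 ≤ 2 ^ j * q * NW := by positivity
          rw [pow_add]
          linarith
  · intro e he
    rw [Finset.mem_sdiff] at he
    have h1 : avgP (P1 * P2) (fun n => (∏ c ∈ S, (1 + V (n - c))) *
        (2 * C * (V (n - e) * V (n - e) * β (n - e)) + 2)) ≤ 2 ^ j * (12 * (C + 1) * Ei) := by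
      apply CLE_pow V (fun n => 2 * C * (V (n - e) * V (n - e) * β (n - e)) + 2) S hSj (by positivity)
      intro T hT
      have hTI : T ⊆ Finset.Icc 1 (H : ℤ) := hT.trans hS
      have hTc : T.card ≤ j := (Finset.card_le_card hT).trans hSj
      have heT : e ∉ T := fun h => he.2 (hT h)
      have hfun : (fun n : ℤ => (∏ c ∈ T, V (n - c)) * (2 * C * (V (n - e) * V (n - e) * β (n - e)) + 2))
          = fun n : ℤ => 2 * C * (((∏ c ∈ T, V (n - c)) * (V (n - e) * V (n - e))) * β (n - e)) +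
            2 * ((∏ c ∈ T, V (n - c)) * 1) := by
        funext n
        ring
      rw [hfun, CLE_add, CLE_smul, CLE_smul, hVone,
        hmul (fun n => (∏ c ∈ T, V (n - c)) * (V (n - e) * V (n - e))) (fun n => β (n - e))
          (fun n k => by simp only [hVp]) (hβp e), hβ1, mul_one]
      have k1 := hA2 T hTI (by omega) e he.1 heT
      have k2 := (hA T hTI (by omega)).1
      have k3 : 2 * C * avgP P1 (fun n => (∏ c ∈ T, V (n - c)) * (V (n - e) * V (n - e))) ≤ 2 * C * (6 * Ei) := by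
        apply mul_le_mul_of_nonneg_left _ (by positivity)
        exact k1.trans (mul_le_mul_of_nonneg_right ha6 (by linarith))
      have k4 : 12 * (C + 1) * Ei = 2 * C * (6 * Ei) + 12 * Ei := by ring
      rw [k4]
      linarith
    have h2 : TD (P1 * P2) ((1 + vv) ^ S.card * (2 * C * (vv * vv * (C * Y)) + 2))
        (fun n => (∏ c ∈ S, (1 + V (n - c))) * (2 * C * (V (n - e) * V (n - e) * β (n - e)) + 2)) := by
      apply TD_mul hPp (hST _ hPp VTP)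
      apply CLE_TDadd _ (CLE_TDc zero_le_two)
      apply TD_mul hPp (CLE_TDc (by positivity))
      exact TD_mul hPp (TD_mul hPp (CLE_TDsh VTP e) (CLE_TDsh VTP e)) (CLE_TDsh βTP e)
    have h3 := CLE_sum (x := x) (H := H) h2 ht hcW hPp h1 (by positivity)
    calc ∑ n ∈ JC x H t, (∏ c ∈ S, (1 + V ((n : ℤ) - c))) * (V ((n : ℤ) - e) * F e ((n : ℤ) - e) - μ e) ^ 2
        ≤ ∑ n ∈ JC x H t, (∏ c ∈ S, (1 + V ((n : ℤ) - c))) *
            (2 * C * (V ((n : ℤ) - e) * V ((n : ℤ) - e) * β ((n : ℤ) - e)) + 2) := by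
          apply Finset.sum_le_sum
          intro n hn
          apply mul_le_mul_of_nonneg_left _ (hFS0 _)
          unfold JC JJ at hn
          rw [Finset.mem_filter, Finset.mem_Ico] at hn
          have he1 := Finset.mem_Icc.1 he.1
          have hn1 : 0 < (n : ℤ) - e := by
            have : ((H : ℤ) + 1) ≤ (n : ℤ) := by exact_mod_cast hn.1.1
            linarith [he1.2]
          have hn2 : (((n : ℤ) - e : ℤ) : ℝ) ≤ 2 * x := by
            have g1 : (n : ℝ) + 1 ≤ (⌊x⌋₊ : ℝ) + 1 + H := by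
              have : n + 1 ≤ ⌊x⌋₊ + 1 + H := hn.1.2
              exact_mod_cast this
            have g2 : (⌊x⌋₊ : ℝ) ≤ x := Nat.floor_le x0.le
            have g3 : (1 : ℝ) ≤ (e : ℝ) := by exact_mod_cast he1.1
            push_cast
            linarith
          have hβC := βC e _ hn1 hn2
          have k1 : V ((n : ℤ) - e) * V ((n : ℤ) - e) * F e ((n : ℤ) - e) ^ 2
              ≤ V ((n : ℤ) - e) * V ((n : ℤ) - e) * (C * β ((n : ℤ) - e)) :=
            mul_le_mul_of_nonneg_left hβC (mul_self_nonneg _)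
          have k2 : μ e ^ 2 ≤ 1 := by
            have := abs_le.1 (hμ1 e)
            nlinarith [this.1, this.2]
          have k3 : (V ((n : ℤ) - e) * F e ((n : ℤ) - e) - μ e) ^ 2
              = 2 * (V ((n : ℤ) - e) * V ((n : ℤ) - e) * F e ((n : ℤ) - e) ^ 2) + 2 * μ e ^ 2
                - (V ((n : ℤ) - e) * F e ((n : ℤ) - e) + μ e) ^ 2 := by ring
          have k4 : 2 * C * (V ((n : ℤ) - e) * V ((n : ℤ) - e) * β ((n : ℤ) - e))
              = 2 * (V ((n : ℤ) - e) * V ((n : ℤ) - e) * (C * β ((n : ℤ) - e))) := by ring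
          have k5 : 0 ≤ (V ((n : ℤ) - e) * F e ((n : ℤ) - e) + μ e) ^ 2 := sq_nonneg _
          rw [k3, k4]
          linarith
      _ ≤ 2 ^ j * (12 * (C + 1) * Ei) * NW + 2 * ((1 + vv) ^ S.card * (2 * C * (vv * vv * (C * Y)) + 2)) := h3
      _ ≤ 2 ^ j * (12 * (C + 1) * Ei) * NW + 2 ^ j * q * NW := by linarith
      _ ≤ 2 ^ (j + 4) * (C + 1) * Ei * NW := by
          have h4 : q ≤ (C + 1) * Ei := hq1.trans (one_le_mul_of_one_le_of_one_le (by linarith) hEi1)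
          have h5 : 2 ^ j * q * NW ≤ 2 ^ j * ((C + 1) * Ei) * NW := by gcongr
          have h6 : 0 ≤ 2 ^ j * ((C + 1) * Ei) * NW := by positivity
          rw [pow_add]
          linarith

end Pool.Agent.H96.FL
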