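import Pool.Agent.H96.FL.Df
import Pool.Agent.H96.AS.CLS

/-!
# CLGb: correlations in the residue classes modulo `W`, for a signed weight

The same as `CLS` (`Pool/Agent/H96/AS/CLS.lean`; copy its private lemmas and its proof) with `F` (mean `μ`, `0 ≤ μ ≤ 1`) instead of `β` (mean `1`), the period `P₂ = PR (x^δ) (x^v)` instead of `PR z R`, and the `TD` bound `C x^(1/2-η)` instead of `C x^(2θ) = C x^(1/2 - 2η)`.
Only the bound with `D` (the parts 1 to 3 are `CLGa`).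
4. `avg(V_T D_e β_e) = avg_{P₁}(V_T D_e) * avg_{P₂} β ≤ 4 q (1+κ)` by the last part of `GoodDm` (shifts `-c`, `-e`; the product over the primes dividing a difference of elements of `insert e T` is `≤ 1 + κ`, as for `V`: `PW_Gs`, `Dp m w z s ≤ Gs m w s`), `2^j` sets `T`, `TD` bound `(1+v₀)^j v₀ C x^(1/2-η)`.
-/

set_option autoImplicit false

namespace Pool.Agent.H96.FL

open Finset Pool.Agent.H17 Pool.Agent.H6.MF Pool.Agent.H6.MB Pool.Agent.H12.DM Pool.Agent.H6.AE Pool.Agent.H96.AE Pool.Agent.H96.AS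

private lemma CLGb_sum {P : ℕ} {B A : ℝ} {F : ℤ → ℝ} (h : TD P B F) {x : ℝ} {H t : ℕ} (ht : t < WW (yy x))
    (hc : (WW (yy x)).Coprime P) (hP : 0 < P) (hA : avgP P F ≤ A) (hA0 : 0 ≤ A) :
    ∑ n ∈ JC x H t, F (n : ℤ) ≤ A * (((⌊x⌋₊ : ℝ) + 1) / (WW (yy x) : ℝ)) + 2 * B := by
  have hW : 0 < WW (yy x) := WW_pos _
  have hW' : (0 : ℝ) < (WW (yy x) : ℝ) := by exact_mod_cast hW
  have h1 := abs_le.1 (TRN h hW hc ht (⌊x⌋₊ + 1 + H) hP)
  have h2 := abs_le.1 (TRN h hW hc ht (H + 1) hP)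
  have h3 : ∑ n ∈ (Finset.range (H + 1)).filter (fun n => n % WW (yy x) = t), F (n : ℤ)
      + ∑ n ∈ JC x H t, F (n : ℤ)
      = ∑ n ∈ (Finset.range (⌊x⌋₊ + 1 + H)).filter (fun n => n % WW (yy x) = t), F (n : ℤ) := by
    unfold JC JJ
    rw [Finset.sum_filter, Finset.sum_filter, Finset.sum_filter]
    exact Finset.sum_range_add_sum_Ico _ (by omega)
  have h4 : ((⌊x⌋₊ + 1 + H : ℕ) : ℝ) / (WW (yy x) : ℝ) * avgP P F
      = ((H + 1 : ℕ) : ℝ) / (WW (yy x) : ℝ) * avgP P F + (⌊x⌋₊ : ℝ) / (WW (yy x) : ℝ) * avgP P F := by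
    push_cast
    field_simp
    ring
  have h5 : (⌊x⌋₊ : ℝ) / (WW (yy x) : ℝ) * avgP P F ≤ (⌊x⌋₊ : ℝ) / (WW (yy x) : ℝ) * A :=
    mul_le_mul_of_nonneg_left hA (by positivity)
  have h6 : (⌊x⌋₊ : ℝ) / (WW (yy x) : ℝ) * A ≤ A * (((⌊x⌋₊ : ℝ) + 1) / (WW (yy x) : ℝ)) := by
    rw [mul_comm]
    apply mul_le_mul_of_nonneg_left _ hA0
    gcongr
    linarith
  linarith [h1.1, h1.2, h2.1, h2.2]

private lemma CLGb_fsum {ι : Type*} {P : ℕ} (s : Finset ι) (F : ι → ℤ → ℝ) :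
    avgP P (fun n => ∑ i ∈ s, F i n) = ∑ i ∈ s, avgP P (F i) := by
  unfold avgP
  rw [Finset.sum_comm, Finset.sum_div]

private lemma CLGb_TDadd {P : ℕ} {B B' : ℝ} {F G : ℤ → ℝ} (h : TD P B F) (h' : TD P B' G) :
    TD P (B + B') (fun n => F n + G n) := by
  have := TD_sum (Finset.univ : Finset Bool) (P := P) (B := fun i => if i then B else B')
    (F := fun i => if i then F else G) (by
      intro i _
      cases i
      · simpa using h'
      · simpa using h)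
  simpa using this

private lemma CLGb_TDsh {P : ℕ} {B : ℝ} {F : ℤ → ℝ} (h : TD P B F) (a : ℤ) : TD P B (fun n => F (n - a)) := by
  have := TD_add_shift h (-a)
  simpa [sub_eq_add_neg] using this

private lemma CLGb_pow {P j : ℕ} {A : ℝ} (V G : ℤ → ℝ) (S : Finset ℤ) (hS : S.card ≤ j) (hA : 0 ≤ A)
    (h : ∀ T ⊆ S, avgP P (fun n => (∏ c ∈ T, V (n - c)) * G n) ≤ A) :
    avgP P (fun n => (∏ c ∈ S, (1 + V (n - c))) * G n) ≤ 2 ^ j * A := by
  have h1 : (fun n : ℤ => (∏ c ∈ S, (1 + V (n - c))) * G n)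
      = fun n : ℤ => ∑ T ∈ S.powerset, (∏ c ∈ T, V (n - c)) * G n := by
    funext n
    rw [Finset.prod_one_add, Finset.sum_mul]
  rw [h1, CLGb_fsum]
  calc ∑ T ∈ S.powerset, avgP P (fun n => (∏ c ∈ T, V (n - c)) * G n)
      ≤ ∑ T ∈ S.powerset, A := Finset.sum_le_sum fun T hT => h T (Finset.mem_powerset.1 hT)
    _ = (2 : ℝ) ^ S.card * A := by
        rw [Finset.sum_const, Finset.card_powerset, nsmul_eq_mul]
        push_cast
        ring
    _ ≤ 2 ^ j * A := by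
        apply mul_le_mul_of_nonneg_right _ hA
        exact pow_le_pow_right₀ (by norm_num) hS

private lemma CLGb_ev (j b m : ℕ) (η C : ℝ) (hη0 : 0 < η) (hC : 0 < C) (κ : ℝ) (hκ : 0 < κ) : ∃ X : ℝ, ∀ x : ℝ, X ≤ x →
    1 ≤ x ∧ 1 ≤ Real.log x ∧ (Real.log x) ^ 2 ≤ x ∧ 1 / Real.log x ≤ κ ∧ (m : ℝ) ^ 2 / (yy x : ℝ) ≤ κ ∧
    (yy x : ℝ) ≤ x ^ dlm m b ∧
    2 * (2 ^ j * (C + 1) ^ 2 * x ^ (1 - 3 * η)) ≤ 2 ^ j * (1 / 2 : ℝ) ^ b * (((⌊x⌋₊ : ℝ) + 1) / (WW (yy x) : ℝ)) := by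
  have hq : (0 : ℝ) < (1 / 2 : ℝ) ^ b := by positivity
  have hK : (0 : ℝ) < (1 / 2 : ℝ) ^ b / (2 * (C + 1) ^ 2) := by positivity
  have h1 : ∀ᶠ x : ℝ in Filter.atTop, 1 ≤ Real.log x := Real.tendsto_log_atTop.eventually_ge_atTop _
  have h2 := eventually_log_pow_le 2 (show (0 : ℝ) < 1 by norm_num)
  have h3 : ∀ᶠ x : ℝ in Filter.atTop, 1 / κ ≤ Real.log x := Real.tendsto_log_atTop.eventually_ge_atTop _
  have h4 : ∀ᶠ x : ℝ in Filter.atTop, (m : ℝ) ^ 2 / κ + 1 ≤ (yy x : ℝ) :=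
    (tendsto_natCast_atTop_atTop.comp tendsto_yy).eventually_ge_atTop _
  have h5 := (isLittleO_log_rpow_atTop (show (0 : ℝ) < 3 * η by positivity)).bound hK
  have h7 := (isLittleO_log_rpow_atTop (dlm_pos m b)).bound (show (0 : ℝ) < 1 by norm_num)
  obtain ⟨X, hX⟩ := Filter.eventually_atTop.1 (h1.and (h2.and (h3.and (h4.and (h5.and (h7.and
    (Filter.eventually_ge_atTop (1 : ℝ))))))))
  refine ⟨X, fun x hx => ?_⟩
  obtain ⟨a1, a2, a3, a4, a5, a7, a6⟩ := hX x hx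
  have x0 : 0 < x := by linarith
  have L0 : 0 < Real.log x := by linarith
  have hWL : (WW (yy x) : ℝ) ≤ Real.log x := MAJ_W a1
  have hW0 : (0 : ℝ) < (WW (yy x) : ℝ) := by exact_mod_cast WW_pos _
  refine ⟨a6, a1, by linarith, ?_, ?_, ?_, ?_⟩
  · rw [div_le_iff₀ L0]
    rw [div_le_iff₀ hκ] at a3
    linarith
  · have y0 : (0 : ℝ) < (yy x : ℝ) := by
      have : (0 : ℝ) ≤ (m : ℝ) ^ 2 / κ := by positivity
      linarith
    rw [div_le_iff₀ y0]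
    have : (m : ℝ) ^ 2 / κ ≤ (yy x : ℝ) := by linarith
    rw [div_le_iff₀ hκ] at this
    linarith
  · rw [Real.norm_of_nonneg L0.le, Real.norm_of_nonneg (Real.rpow_nonneg x0.le _), one_mul] at a7
    have e1 : (yy x : ℝ) ≤ Real.log (Real.log x) / 100 := Nat.floor_le (div_nonneg (Real.log_nonneg a1) (by norm_num))
    have e2 := Real.log_le_sub_one_of_pos L0
    linarith
  · rw [Real.norm_of_nonneg L0.le, Real.norm_of_nonneg (Real.rpow_nonneg x0.le _)] at a5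
    have b1 : x / Real.log x ≤ ((⌊x⌋₊ : ℝ) + 1) / (WW (yy x) : ℝ) := by
      have := (Nat.lt_floor_add_one x).le
      gcongr
    have b2 : 2 * (C + 1) ^ 2 * x ^ (1 - 3 * η) ≤ (1 / 2 : ℝ) ^ b * (x / Real.log x) := by
      have e1 : x = x ^ (1 - 3 * η) * x ^ (3 * η) := by
        rw [← Real.rpow_add x0]
        ring_nf
        rw [Real.rpow_one]
      rw [← mul_div_assoc, le_div_iff₀ L0]
      have e2 : 2 * (C + 1) ^ 2 * Real.log x ≤ (1 / 2 : ℝ) ^ b * x ^ (3 * η) := by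
        have := mul_le_mul_of_nonneg_left a5 (show (0 : ℝ) ≤ 2 * (C + 1) ^ 2 by positivity)
        calc 2 * (C + 1) ^ 2 * Real.log x
            ≤ 2 * (C + 1) ^ 2 * ((1 / 2 : ℝ) ^ b / (2 * (C + 1) ^ 2) * x ^ (3 * η)) := this
          _ = (1 / 2 : ℝ) ^ b * x ^ (3 * η) := by
            field_simp
      have e3 : 0 ≤ x ^ (1 - 3 * η) := Real.rpow_nonneg x0.le _
      calc 2 * (C + 1) ^ 2 * x ^ (1 - 3 * η) * Real.log x
          = x ^ (1 - 3 * η) * (2 * (C + 1) ^ 2 * Real.log x) := by ring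
        _ ≤ x ^ (1 - 3 * η) * ((1 / 2 : ℝ) ^ b * x ^ (3 * η)) := mul_le_mul_of_nonneg_left e2 e3
        _ = (1 / 2 : ℝ) ^ b * (x ^ (1 - 3 * η) * x ^ (3 * η)) := by ring
        _ = (1 / 2 : ℝ) ^ b * x := by rw [← e1]
    calc 2 * (2 ^ j * (C + 1) ^ 2 * x ^ (1 - 3 * η)) = 2 ^ j * (2 * (C + 1) ^ 2 * x ^ (1 - 3 * η)) := by ring
      _ ≤ 2 ^ j * ((1 / 2 : ℝ) ^ b * (x / Real.log x)) := mul_le_mul_of_nonneg_left b2 (by positivity)
      _ ≤ 2 ^ j * ((1 / 2 : ℝ) ^ b * (((⌊x⌋₊ : ℝ) + 1) / (WW (yy x) : ℝ))) := by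
          gcongr
      _ = _ := by ring

private lemma CLGb_Dp (m b : ℕ) (κ : ℝ) (hκ : 0 < κ) : ∃ X : ℝ, ∀ x : ℝ, X ≤ x →
    ∀ T : Finset ℤ, T.card ≤ m → (∀ a ∈ T, ∀ a' ∈ T, |((a - a' : ℤ) : ℝ)| ≤ 4 * (Real.log x) ^ 2) →
    Dp m (yy x : ℝ) (x ^ dlm m b) (T.image (fun a => -a)) ≤ 1 + κ := by
  obtain ⟨X, hX⟩ := PW_Gs m m κ hκ
  refine ⟨max X 1, fun x hx T hT hd => ?_⟩
  have hx1 : 1 ≤ x := (le_max_right _ _).trans hx
  have g1 := OBm m (yy x) (le_refl (yy x : ℝ)) (le_refl (yy x : ℝ)) (z := x ^ dlm m b) (by positivity)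
    (T.image (fun a => -a)) ∅ ∅ (T.image (fun a => -a)) (Finset.empty_subset _) (Finset.empty_subset _)
    (Finset.Subset.refl _)
  have g2 := one_le_Dp m (yy x : ℝ) (yy x : ℝ) ∅
  have g3 := one_le_Dp m (yy x : ℝ) (x ^ dlm m b) (T.image (fun a => -a))
  rw [OB_neg] at g1
  have g4 := hX x ((le_max_left _ _).trans hx) T hT hd
  have g5 : Dp m (yy x : ℝ) (x ^ dlm m b) (T.image (fun a => -a))
      ≤ Dp m (yy x : ℝ) (yy x : ℝ) ∅ * (Dp m (yy x : ℝ) (yy x : ℝ) ∅ *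
        Dp m (yy x : ℝ) (x ^ dlm m b) (T.image (fun a => -a))) := by
    have g6 : Dp m (yy x : ℝ) (x ^ dlm m b) (T.image (fun a => -a)) ≤ Dp m (yy x : ℝ) (yy x : ℝ) ∅ *
        Dp m (yy x : ℝ) (x ^ dlm m b) (T.image (fun a => -a)) := by nlinarith
    nlinarith
  linarith

private lemma CLGb_B {x η C v : ℝ} {j k m : ℕ} (hx : 1 ≤ x) (hη1 : η ≤ 1 / 20) (hC : 0 < C) (hk : k ≤ j)
    (hm : (j : ℝ) + 4 ≤ 10 * ((m : ℝ) + 1) * η) (hv : v = x ^ (1 / (10 * ((m : ℝ) + 1)))) :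
    (1 + v) ^ k * (v * (C * x ^ (1 / 2 - η))) ≤ 2 ^ j * (C + 1) ^ 2 * x ^ (1 - 3 * η) := by
  have x0 : 0 < x := by linarith
  have hv1 : 1 ≤ v := by
    rw [hv]
    exact Real.one_le_rpow hx (by positivity)
  have h1 : (1 + v) ^ k ≤ 2 ^ j * v ^ j := by
    calc (1 + v) ^ k ≤ (1 + v) ^ j := pow_le_pow_right₀ (by linarith) hk
      _ ≤ (2 * v) ^ j := by
          gcongr
          linarith
      _ = 2 ^ j * v ^ j := mul_pow _ _ _
  have h2 : v ^ j * v ≤ x ^ η := by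
    rw [← pow_succ, hv, ← Real.rpow_natCast, ← Real.rpow_mul x0.le]
    apply Real.rpow_le_rpow_of_exponent_le hx
    rw [one_div_mul_eq_div, div_le_iff₀ (by positivity)]
    push_cast
    nlinarith
  have h3 : x ^ η * x ^ (1 / 2 - η) ≤ x ^ (1 - 3 * η) := by
    rw [← Real.rpow_add x0]
    apply Real.rpow_le_rpow_of_exponent_le hx
    linarith
  have hY0 : 0 ≤ x ^ (1 / 2 - η) := Real.rpow_nonneg x0.le _
  have h4 : v ^ j * v * x ^ (1 / 2 - η) ≤ x ^ (1 - 3 * η) :=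
    (mul_le_mul_of_nonneg_right h2 hY0).trans h3
  have h5 : C ≤ (C + 1) ^ 2 := by nlinarith
  have h6 : 0 ≤ x ^ (1 - 3 * η) := Real.rpow_nonneg x0.le _
  calc (1 + v) ^ k * (v * (C * x ^ (1 / 2 - η)))
      ≤ (2 ^ j * v ^ j) * (v * (C * x ^ (1 / 2 - η))) :=
        mul_le_mul_of_nonneg_right h1 (by positivity)
    _ = 2 ^ j * C * (v ^ j * v * x ^ (1 / 2 - η)) := by ring
    _ ≤ 2 ^ j * C * x ^ (1 - 3 * η) := mul_le_mul_of_nonneg_left h4 (by positivity)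
    _ ≤ 2 ^ j * (C + 1) ^ 2 * x ^ (1 - 3 * η) := by
        apply mul_le_mul_of_nonneg_right _ h6
        exact mul_le_mul_of_nonneg_left h5 (by positivity)

theorem CLGb (m b j : ℕ) (v η C : ℝ) (hη0 : 0 < η) (hη1 : η ≤ 1 / 20) (hj : j + 2 ≤ m)
    (hm : (j : ℝ) + 4 ≤ 10 * ((m : ℝ) + 1) * η) (hC : 0 < C) (hv : dlm m b < v) : ∃ X : ℝ, ∀ x : ℝ, X ≤ x →
    ∀ V D : ℤ → ℝ, GoodVm m b x V → GoodDm m b x V D → ∀ μ : ℝ, 0 ≤ μ → μ ≤ 1 →
    ∀ β F : ℤ → ℝ, GoodF (dlm m b) v η C μ x β F →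
    ∀ H : ℕ, (H : ℝ) ≤ (Real.log x) ^ 2 → ∀ S : Finset ℤ, S ⊆ Finset.Icc 1 (H : ℤ) → S.card ≤ j →
    ∀ t : ℕ, t < WW (yy x) →
    ∀ e ∈ Finset.Icc 1 (H : ℤ) \ S,
      ∑ n ∈ JC x H t, (∏ c ∈ S, (1 + V ((n : ℤ) - c))) * (D ((n : ℤ) - e) * β ((n : ℤ) - e))
        ≤ 2 ^ (j + 4) * (1 / 2 : ℝ) ^ b * (((⌊x⌋₊ : ℝ) + 1) / (WW (yy x) : ℝ)) := by
  set q : ℝ := (1 / 2 : ℝ) ^ b with hq
  have hq0 : 0 < q := by positivity
  have hq1 : q ≤ 1 := pow_le_one₀ (by norm_num) (by norm_num)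
  obtain ⟨X1, hX1⟩ := CLGb_Dp m b 1 one_pos
  obtain ⟨X2, hX2⟩ := CLGb_ev j b m η C hη0 hC (q / 20) (by positivity)
  refine ⟨max X1 X2, fun x hx V D hV hD μ _ _ β F hβ H hH S hS hSj t ht e he => ?_⟩
  have hDp := hX1 x ((le_max_left _ _).trans hx)
  obtain ⟨x1, L1, hL2, hLi, hmw, hzw, hE⟩ := hX2 x ((le_max_right _ _).trans hx)
  have x0 : 0 < x := by linarith
  have L0 : 0 < Real.log x := by linarith
  obtain ⟨V0, _, VT, _, _⟩ := hV
  obtain ⟨D0, _, DT, Da⟩ := hD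
  obtain ⟨β0, _, βT, _, βa, _, _, _⟩ := hβ
  set z : ℝ := x ^ dlm m b with hz
  set R : ℝ := x ^ v with hR
  set P1 : ℕ := PR (yy x : ℝ) z with hP1
  set P2 : ℕ := PR z R with hP2
  set v0 : ℝ := x ^ (1 / (10 * ((m : ℝ) + 1))) with hv0
  set NW : ℝ := ((⌊x⌋₊ : ℝ) + 1) / (WW (yy x) : ℝ) with hNW
  have hz0 : 0 ≤ z := Real.rpow_nonneg x0.le _
  have hR0 : 0 ≤ R := Real.rpow_nonneg x0.le _
  have hP1p : 0 < P1 := MAJ_PR_pos _ _
  have hP2p : 0 < P2 := MAJ_PR_pos _ _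
  have hPp : 0 < P1 * P2 := Nat.mul_pos hP1p hP2p
  have hc12 : P1.Coprime P2 := MAJ_cop hz0 hR0
  have hcW1 : (WW (yy x)).Coprime P1 := MAJ_copW hz0 le_rfl
  have hcW2 : (WW (yy x)).Coprime P2 := MAJ_copW hR0 hzw
  have hcW : (WW (yy x)).Coprime (P1 * P2) := Nat.Coprime.mul_right hcW1 hcW2
  have hNW0 : 0 ≤ NW := by positivity
  have hj0 : (0 : ℝ) < 2 ^ j := by positivity
  have hB := CLGb_B (x := x) (η := η) (C := C) (v := v0) (j := j) (k := S.card) (m := m) x1 hη1 hC hSj hm hv0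
  set Y : ℝ := x ^ (1 / 2 - η) with hY
  rw [Finset.mem_sdiff] at he
  -- differences
  have hdiff : ∀ a ∈ Finset.Icc 1 (H : ℤ), ∀ a' ∈ Finset.Icc 1 (H : ℤ), |((a - a' : ℤ) : ℝ)| ≤ 4 * (Real.log x) ^ 2 := by
    intro a ha a' ha'
    rw [Finset.mem_Icc] at ha ha'
    have h1 : |a - a'| ≤ (H : ℤ) := by
      rw [abs_le]
      constructor <;> linarith [ha.1, ha.2, ha'.1, ha'.2]
    have h2 : |((a - a' : ℤ) : ℝ)| ≤ (H : ℝ) := by exact_mod_cast h1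
    have h3 : 0 ≤ (Real.log x) ^ 2 := by positivity
    linarith
  -- periods
  have hVp : ∀ (c n k : ℤ), V (n + k * P1 - c) = V (n - c) := by
    intro c n k
    rw [show n + k * (P1 : ℤ) - c = (n - c) + k * (P1 : ℤ) by ring]
    exact TD_period VT _ _
  have hDper : ∀ (c n k : ℤ), D (n + k * P1 - c) = D (n - c) := by
    intro c n k
    rw [show n + k * (P1 : ℤ) - c = (n - c) + k * (P1 : ℤ) by ring]
    exact TD_period DT _ _
  have hβp : ∀ (c n k : ℤ), β (n + k * P2 - c) = β (n - c) := by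
    intro c n k
    rw [show n + k * (P2 : ℤ) - c = (n - c) + k * (P2 : ℤ) by ring]
    exact TD_period βT _ _
  have hβ1 : avgP P2 (fun n => β (n - e)) = 1 := by
    have h1 := avg_shift hP2p (G := β) (fun n k => TD_period βT n k) (-e)
    simp only [← sub_eq_add_neg] at h1
    rw [h1]
    exact βa
  -- the average of a product of `V` and one `D`
  have hAD : ∀ T : Finset ℤ, T ⊆ S → avgP P1 (fun n => (∏ c ∈ T, V (n - c)) * D (n - e)) ≤ 8 * q := by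
    intro T hT
    have hTI : T ⊆ Finset.Icc 1 (H : ℤ) := hT.trans hS
    have hTc : T.card ≤ j := (Finset.card_le_card hT).trans hSj
    have heT : e ∉ T := fun h => he.2 (hT h)
    have hinj : Set.InjOn (fun a : ℤ => -a) (T : Set ℤ) := neg_injective.injOn
    have hc : (T.image (fun a => -a)).card ≤ j := Finset.card_image_le.trans hTc
    have hne : -e ∉ T.image (fun a => -a) := by
      intro h
      obtain ⟨a, ha, h2⟩ := Finset.mem_image.1 h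
      have : a = e := by linarith
      exact heT (this ▸ ha)
    have h1 := Da (T.image (fun a => -a)) (-e) hne (by omega)
    have h2 : (fun n : ℤ => (∏ a ∈ T.image (fun a => -a), V (n + a)) * D (n + -e))
        = fun n : ℤ => (∏ c ∈ T, V (n - c)) * D (n - e) := by
      funext n
      rw [Finset.prod_image hinj, sub_eq_add_neg n e]
      congr 1
    have h3 : insert (-e) (T.image (fun a => -a)) = (insert e T).image (fun a => -a) := by
      rw [Finset.image_insert]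
    have h4 := hDp (insert e T) (by
        rw [Finset.card_insert_of_notMem heT]
        omega)
      (fun a ha a' ha' => hdiff a (Finset.insert_subset he.1 hTI ha) a' (Finset.insert_subset he.1 hTI ha'))
    rw [h2, h3] at h1
    have h5 : avgP P1 (fun n => (∏ c ∈ T, V (n - c)) * D (n - e))
        ≤ 4 * q * Dp m (yy x : ℝ) z ((insert e T).image (fun a => -a)) := h1
    calc avgP P1 (fun n => (∏ c ∈ T, V (n - c)) * D (n - e))
        ≤ 4 * q * Dp m (yy x : ℝ) z ((insert e T).image (fun a => -a)) := h5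
      _ ≤ 4 * q * (1 + 1) := mul_le_mul_of_nonneg_left h4 (by positivity)
      _ = 8 * q := by ring
  have h1 : avgP (P1 * P2) (fun n => (∏ c ∈ S, (1 + V (n - c))) * (D (n - e) * β (n - e))) ≤ 2 ^ j * (8 * q) := by
    apply CLGb_pow V (fun n => D (n - e) * β (n - e)) S hSj (by positivity)
    intro T hT
    have hfun : (fun n : ℤ => (∏ c ∈ T, V (n - c)) * (D (n - e) * β (n - e)))
        = fun n : ℤ => ((∏ c ∈ T, V (n - c)) * D (n - e)) * β (n - e) := by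
      funext n
      ring
    have hper : ∀ n k : ℤ, (∏ c ∈ T, V (n + k * P1 - c)) * D (n + k * P1 - e)
        = (∏ c ∈ T, V (n - c)) * D (n - e) := by
      intro n k
      rw [hDper]
      congr 1
      exact Finset.prod_congr rfl fun c _ => hVp c n k
    rw [hfun, avg_mul hP1p hP2p hc12 (F := fun n => (∏ c ∈ T, V (n - c)) * D (n - e))
      (G := fun n => β (n - e)) hper (hβp e), hβ1, mul_one]
    exact hAD T hT
  -- TD
  have VTP : TD (P1 * P2) v0 V := TD_mono VT (Nat.dvd_mul_right _ _) le_rfl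
  have DTP : TD (P1 * P2) v0 D := TD_mono DT (Nat.dvd_mul_right _ _) le_rfl
  have βTP : TD (P1 * P2) (C * Y) β := TD_mono βT (Nat.dvd_mul_left _ _) le_rfl
  have hST : TD (P1 * P2) ((1 + v0) ^ S.card) (fun n => ∏ c ∈ S, (1 + V (n - c))) := by
    have := TD_prod S hPp (B := fun _ => 1 + v0) (F := fun c n => 1 + V (n - c))
      (fun c _ => CLGb_TDadd TD_one (CLGb_TDsh VTP c))
    simpa using this
  have h2 : TD (P1 * P2) ((1 + v0) ^ S.card * (v0 * (C * Y)))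
      (fun n => (∏ c ∈ S, (1 + V (n - c))) * (D (n - e) * β (n - e))) :=
    TD_mul hPp hST (TD_mul hPp (CLGb_TDsh DTP e) (CLGb_TDsh βTP e))
  have h3 := CLGb_sum (x := x) (H := H) h2 ht hcW hPp h1 (by positivity)
  calc ∑ n ∈ JC x H t, (∏ c ∈ S, (1 + V ((n : ℤ) - c))) * (D ((n : ℤ) - e) * β ((n : ℤ) - e))
      ≤ 2 ^ j * (8 * q) * NW + 2 * ((1 + v0) ^ S.card * (v0 * (C * Y))) := h3
    _ ≤ 2 ^ j * (8 * q) * NW + 2 ^ j * q * NW := by linarith
    _ ≤ 2 ^ (j + 4) * q * NW := by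
        have h4 : 0 ≤ 2 ^ j * q * NW := by positivity
        rw [pow_add]
        linarith

end Pool.Agent.H96.FL
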