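import Pool.Agent.H96.FD.OF

/-!
# FL: sieving one more shift, relative to an arbitrary set of prime tuples (MP_1039f5_nt). Definitions

`L = log x`, `N = ⌊x⌋₊ + 1`, `w = yy x`, `W = WW w`, `z = x ^ dlm m b`. `V` (from `GoodVm`): the Brun-Hooley weight for the primes in `(w, z]`, mean `1`; `D` (from `GoodDm`): a small sieve weight which is at least `V` at the integers with a prime factor in `(w, z]`.
`GoodF`: a signed weight `F` for the primes in `(z, x^v]` with mean `μ` and a majorant `β` with mean `1`.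
-/

set_option autoImplicit false

namespace Pool.Agent.H96.FL

open Finset Pool.Agent.H17 Pool.Agent.H6.MF Pool.Agent.H6.MB Pool.Agent.H12.DM Pool.Agent.H6.AE Pool.Agent.H96.AE Pool.Agent.H96.AS Pool.Agent.H96.FD

/-- the properties of the weight `D` -/
def GoodDm (m b : ℕ) (x : ℝ) (V D : ℤ → ℝ) : Prop :=
  (∀ n, 0 ≤ D n) ∧
  (∀ n : ℤ, (∃ p ∈ PI (yy x : ℝ) (x ^ dlm m b), (p : ℤ) ∣ n) → V n ≤ D n) ∧
  TD (PR (yy x : ℝ) (x ^ dlm m b)) (x ^ (1 / (10 * ((m : ℝ) + 1)))) D ∧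
  (∀ s : Finset ℤ, ∀ a₀ : ℤ, a₀ ∉ s → s.card + 1 ≤ m →
    avgP (PR (yy x : ℝ) (x ^ dlm m b)) (fun t => (∏ a ∈ s, V (t + a)) * D (t + a₀))
      ≤ 4 * (1 / 2 : ℝ) ^ b *
        ∏ p ∈ (PI (yy x : ℝ) (x ^ dlm m b)).filter
          (fun p : ℕ => ∃ a ∈ insert a₀ s, ∃ a' ∈ insert a₀ s, a ≠ a' ∧ (p : ℤ) ∣ a - a'), (1 + 2 ^ m / (p : ℝ)))

/-- the properties of a signed weight `F` for the primes in `(x^δ, x^v]`, with mean `μ` and majorant `β` -/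
def GoodF (δ v η C μ x : ℝ) (β F : ℤ → ℝ) : Prop :=
  (∀ n, 0 ≤ β n) ∧
  (∀ n, F n ≤ β n) ∧
  TD (PR (x ^ δ) (x ^ v)) (C * x ^ (1 / 2 - η)) β ∧
  TD (PR (x ^ δ) (x ^ v)) (C * x ^ (1 / 2 - η)) F ∧
  avgP (PR (x ^ δ) (x ^ v)) β = 1 ∧
  avgP (PR (x ^ δ) (x ^ v)) F = μ ∧
  (∀ k : ℤ, k ≠ 0 → |(k : ℝ)| ≤ 4 * (Real.log x) ^ 2 →
    avgP (PR (x ^ δ) (x ^ v)) (fun n => F n * F (n + k)) ≤ μ ^ 2 + 1 / Real.log x) ∧
  (∀ n : ℤ, 0 < n → (n : ℝ) ≤ 2 * x → β n ≤ C ∧ F n ^ 2 ≤ C * β n)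

/-- `∏_{p ∈ U} 1/(p-1)` -/
noncomputable def sa (U : Finset ℕ) : ℝ := ∏ p ∈ U, 1 / ((p : ℝ) - 1)

/-- `∑ 1/φ(r)` over the products `r ≤ R` of subsets of `S` -/
noncomputable def sG (S : Finset ℕ) (R : ℝ) : ℝ :=
  ∑ U ∈ S.powerset.filter (fun U : Finset ℕ => (∏ p ∈ U, (p : ℝ)) ≤ R), sa U

/-- Selberg's coefficients -/
noncomputable def sr (S : Finset ℕ) (R : ℝ) (T : Finset ℕ) : ℝ :=
  (-1) ^ T.card * (∏ p ∈ T, ((p : ℝ) / ((p : ℝ) - 1))) *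
    (∑ U ∈ (S \ T).powerset.filter (fun U : Finset ℕ => (∏ p ∈ T, (p : ℝ)) * (∏ p ∈ U, (p : ℝ)) ≤ R), sa U) / sG S R

/-- the divisor sum with coefficients `c` -/
noncomputable def pf (S : Finset ℕ) (c : Finset ℕ → ℝ) (n : ℤ) : ℝ :=
  ∑ T ∈ S.powerset, c T * (if ∀ p ∈ T, (p : ℤ) ∣ n then 1 else 0)

/-- the number of primes in `S` dividing `n` -/
noncomputable def omS (S : Finset ℕ) (n : ℤ) : ℕ := (S.filter (fun p : ℕ => (p : ℤ) ∣ n)).card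

/-- the sum of `1/φ(r)` over the products `r` of subsets of `S` with `A < r ≤ R` -/
noncomputable def sH (S : Finset ℕ) (A R : ℝ) : ℝ :=
  ∑ U ∈ S.powerset.filter (fun U : Finset ℕ => A < (∏ p ∈ U, (p : ℝ)) ∧ (∏ p ∈ U, (p : ℝ)) ≤ R), sa U

open scoped Classical in
/-- the indicator function of the integers without prime factor `≤ x^δ`, normalised -/
noncomputable def rgh (x δ : ℝ) (n : ℤ) : ℝ :=
  if ∀ p : ℕ, p.Prime → (p : ℝ) ≤ x ^ δ → ¬ (p : ℤ) ∣ n then (EP 0 (x ^ δ))⁻¹ else 0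

/-- no prime factor `≤ x^δ` and at most one in `(x^δ, x^(13/50)]` -/
def q4 (x δ : ℝ) (n : ℤ) : Prop :=
  (∀ p : ℕ, p.Prime → (p : ℝ) ≤ x ^ δ → ¬ (p : ℤ) ∣ n) ∧ omS (PI (x ^ δ) (x ^ (13 / 50 : ℝ))) n ≤ 1

end Pool.Agent.H96.FL
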