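import Pool.Agent.H96.FL.UDf

/-!
# EDf: definitions for families of weights

`GoodE`: as `GoodF` (`Df.lean`), for a family `F e` of signed weights for the primes in `(x^δ, x^v]`, one for each shift `e`, with means `μ e` (of any sign) and a common majorant `β` with mean `1`.
-/

set_option autoImplicit false

namespace Pool.Agent.H96.FL

open Finset Pool.Agent.H17 Pool.Agent.H6.MF Pool.Agent.H6.MB Pool.Agent.H12.DM

/-- the properties of a family of signed weights `F e` for the primes in `(x^δ, x^v]`, with means `μ e` and majorant `β` -/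
def GoodE (δ v η C x : ℝ) (μ : ℤ → ℝ) (β : ℤ → ℝ) (F : ℤ → ℤ → ℝ) : Prop :=
  (∀ n, 0 ≤ β n) ∧
  (∀ e n, |F e n| ≤ β n) ∧
  TD (PR (x ^ δ) (x ^ v)) (C * x ^ (1 / 2 - η)) β ∧
  (∀ e, TD (PR (x ^ δ) (x ^ v)) (C * x ^ (1 / 2 - η)) (F e)) ∧
  avgP (PR (x ^ δ) (x ^ v)) β = 1 ∧
  (∀ e, avgP (PR (x ^ δ) (x ^ v)) (F e) = μ e) ∧
  (∀ e e' k : ℤ, k ≠ 0 → |(k : ℝ)| ≤ 4 * (Real.log x) ^ 2 →
    avgP (PR (x ^ δ) (x ^ v)) (fun n => F e n * F e' (n + k)) ≤ μ e * μ e' + 1 / Real.log x) ∧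
  (∀ e n : ℤ, 0 < n → (n : ℝ) ≤ 2 * x → F e n ^ 2 ≤ C * β n)

open scoped Classical in
/-- the number of `m ∈ Z` such that `m + e` has no prime factor `≤ x^δ` and is divisible by all `p ∈ T` -/
noncomputable def zrT (x δ : ℝ) (Z : Finset ℤ) (e : ℤ) (T : Finset ℕ) : ℕ :=
  (Z.filter (fun m => (∀ p : ℕ, p.Prime → (p : ℝ) ≤ x ^ δ → ¬ (p : ℤ) ∣ m + e) ∧ ∀ p ∈ T, (p : ℤ) ∣ m + e)).card

/-- the error term, as a sum over sets of primes in `(x^δ, x^(1/2)]` with product at most `x^(1/2-η)` -/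
noncomputable def erT (x δ η : ℝ) (A : ℕ) (Z : Finset ℤ) (e : ℤ) : ℝ :=
  ∑ T ∈ (PI (x ^ δ) (x ^ (1 / 2 : ℝ))).powerset.filter (fun T : Finset ℕ => (∏ p ∈ T, (p : ℝ)) ≤ x ^ (1 / 2 - η)),
    (A : ℝ) ^ T.card * |(zrT x δ Z e T : ℝ) - EP (yy x : ℝ) (x ^ δ) * (zc x Z e : ℝ) / ∏ p ∈ T, (p : ℝ)|

/-- the squarefree integers `d ≤ x^(1/2-η)` all of whose prime factors are `> x^δ` -/
noncomputable def rd (x δ η : ℝ) : Finset ℕ :=
  (Finset.Icc 1 ⌊x ^ (1 / 2 - η)⌋₊).filter (fun d => Squarefree d ∧ ∀ p ∈ d.primeFactors, x ^ δ < (p : ℝ))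

open scoped Classical in
/-- the number of `m ∈ Z` such that `m + e` has no prime factor `≤ x^δ` and is divisible by `d` -/
noncomputable def zrd (x δ : ℝ) (Z : Finset ℤ) (e : ℤ) (d : ℕ) : ℕ :=
  (Z.filter (fun m => (∀ p : ℕ, p.Prime → (p : ℝ) ≤ x ^ δ → ¬ (p : ℤ) ∣ m + e) ∧ (d : ℤ) ∣ m + e)).card

end Pool.Agent.H96.FL
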