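import Pool.Agent.H96.FL.NDb

/-!
# NMD: existence of `V` and `D`

As `Num` (`Pool/Agent/H6/AE/Num.lean`; copy its proof), with `V n = (EP w z)⁻¹ * Nu_f b J w z n` and `D n = (EP w z)⁻¹ * ND b J w z n`. `GoodVm` is the proof of `Num`. `GoodDm`: `ND_nonneg`, `ND_ge`, `ND_TD` (bound `(log x/c) * z * x^(1/(40(m+1))) ≤ x^(1/(10(m+1)))` for large `x`, `z = x^(dlm m b)`, `dlm m b ≤ 1/(320(m+1))`; `Num_lev`), `ND_avg` with `b₁` from `BLKm` and `BLD` (`L` from `mer1`).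
-/

set_option autoImplicit false

namespace Pool.Agent.H96.FL

open Finset Pool.Agent.H17 Pool.Agent.H6.MF Pool.Agent.H6.MB Pool.Agent.H12.DM Pool.Agent.H6.AE Filter

theorem NMD_dlm (m b : ℕ) : dlm m b ≤ 1 / (40 * ((m : ℝ) + 1)) := by
  unfold dlm
  have hm : (0 : ℝ) < (m : ℝ) + 1 := by positivity
  have hb : (0 : ℝ) ≤ (b : ℝ) := Nat.cast_nonneg b
  refine one_div_le_one_div_of_le (by positivity) ?_
  have h1 : (1 : ℝ) ≤ 4 * (b : ℝ) + 8 := by linarith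
  exact le_mul_of_one_le_right (by positivity) h1

theorem NMD_ev (m b : ℕ) (c : ℝ) (hc : 0 < c) : ∃ X : ℝ, ∀ x : ℝ, X ≤ x →
    Real.log x / c * (x ^ dlm m b * x ^ (1 / (40 * ((m : ℝ) + 1)))) ≤ x ^ (1 / (10 * ((m : ℝ) + 1))) := by
  have hm : (0 : ℝ) < (m : ℝ) + 1 := by positivity
  have h1 : ∀ᶠ x : ℝ in atTop, Real.log x ≤ c * x ^ (1 / (20 * ((m : ℝ) + 1))) := by
    have h2 := isLittleO_log_rpow_atTop (show (0 : ℝ) < 1 / (20 * ((m : ℝ) + 1)) by positivity)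
    have h3 := h2.bound hc
    filter_upwards [h3, eventually_ge_atTop 1] with x hx hx1
    rw [Real.norm_eq_abs, Real.norm_eq_abs, abs_of_nonneg (Real.log_nonneg hx1),
      abs_of_nonneg (by positivity)] at hx
    exact hx
  obtain ⟨X, hX⟩ := Filter.eventually_atTop.1 (h1.and (eventually_ge_atTop 1))
  refine ⟨X, fun x hx => ?_⟩
  obtain ⟨ha, hx1⟩ := hX x hx
  have hx0 : 0 < x := by linarith
  have h4 : x ^ dlm m b ≤ x ^ (1 / (40 * ((m : ℝ) + 1))) :=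
    Real.rpow_le_rpow_of_exponent_le hx1 (NMD_dlm m b)
  have h5 : x ^ (1 / (10 * ((m : ℝ) + 1))) = x ^ (1 / (20 * ((m : ℝ) + 1))) *
      (x ^ (1 / (40 * ((m : ℝ) + 1))) * x ^ (1 / (40 * ((m : ℝ) + 1)))) := by
    rw [← Real.rpow_add hx0, ← Real.rpow_add hx0]
    congr 1
    field_simp
    norm_num
  rw [h5]
  have h6 : Real.log x / c ≤ x ^ (1 / (20 * ((m : ℝ) + 1))) := by
    rw [div_le_iff₀ hc]
    linarith
  exact mul_le_mul h6 (mul_le_mul_of_nonneg_right h4 (by positivity)) (by positivity) (by positivity)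

theorem NMD (m : ℕ) : ∃ b₁ : ℕ, ∀ b : ℕ, b₁ ≤ b → ∃ X : ℝ, ∀ x : ℝ, X ≤ x →
    ∃ V D : ℤ → ℝ, GoodVm m b x V ∧ GoodDm m b x V D := by
  classical
  obtain ⟨L, hL, hmer⟩ := mer1
  obtain ⟨b₁, hb₁⟩ := BLKm m L hL
  obtain ⟨b₂, hb₂⟩ := BLD m L hL
  obtain ⟨c, hc, hmer2⟩ := mer2
  obtain ⟨X, hX⟩ := Num_ev m c hc
  refine ⟨b₁ + b₂ + 3, fun b hb => ?_⟩
  obtain ⟨X', hX'⟩ := NMD_ev m b c hc
  refine ⟨max X X', fun x hx' => ?_⟩
  have hx : X ≤ x := (le_max_left _ _).trans hx'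
  have hpow' := hX' x ((le_max_right _ _).trans hx')
  obtain ⟨hx2, hy5, hyx, hpow⟩ := hX x hx
  have hδ := dlm_pos m b
  have hδ1 : dlm m b ≤ 1 := (dlm_le m b).trans (by norm_num)
  have hx1 : 1 ≤ x := by linarith
  have hx0 : 0 < x := by linarith
  obtain ⟨z, hzdef⟩ : ∃ z : ℝ, z = x ^ dlm m b := ⟨_, rfl⟩
  have hz : 1 ≤ z := by
    rw [hzdef]
    exact Real.one_le_rpow hx1 hδ.le
  have hzx : z ≤ x := by
    rw [hzdef]
    calc x ^ dlm m b ≤ x ^ (1 : ℝ) := Real.rpow_le_rpow_of_exponent_le hx1 hδ1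
      _ = x := Real.rpow_one x
  obtain ⟨J, hJ⟩ := NUA_exJ hz
  have hlog : 0 < Real.log x := Real.log_pos (by linarith)
  have hE0 := EP_pos (yy x : ℝ) z
  have hEinv : (EP (yy x : ℝ) z)⁻¹ ≤ Real.log x / c := by
    have h1 : EP 0 x ≤ EP (yy x : ℝ) z := by
      rcases le_total (yy x : ℝ) z with h | h
      · rw [EP_mul (Nat.cast_nonneg (yy x)) hyx, EP_mul h hzx]
        have h2 := EP_le_one 0 (yy x : ℝ)
        have h3 := EP_le_one z x
        have h4 := EP_pos 0 (yy x : ℝ)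
        have h5 := EP_pos z x
        have h6 : EP (yy x : ℝ) z * EP z x ≤ EP (yy x : ℝ) z := mul_le_of_le_one_right hE0.le h3
        calc EP 0 (yy x : ℝ) * (EP (yy x : ℝ) z * EP z x) ≤ 1 * (EP (yy x : ℝ) z * EP z x) :=
              mul_le_mul_of_nonneg_right h2 (by positivity)
          _ ≤ EP (yy x : ℝ) z := by rw [one_mul]; exact h6
      · have h2 : PI (yy x : ℝ) z = ∅ := by
          rw [Finset.eq_empty_iff_forall_notMem]
          intro p hp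
          rw [NUA_mem (by linarith)] at hp
          linarith [hp.2.1, hp.2.2]
        have h3 : EP (yy x : ℝ) z = 1 := by
          unfold EP
          rw [h2, Finset.prod_empty]
        rw [h3]
        exact EP_le_one 0 x
    have h2 := (hmer2 x hx2).trans h1
    rw [inv_le_comm₀ hE0 (by positivity), inv_div]
    exact h2
  have hEi0 : 0 < (EP (yy x : ℝ) z)⁻¹ := inv_pos.2 hE0
  have hPR0 : 0 < PR (yy x : ℝ) z := Nu_PRpos hz
  have hlev := Num_lev (m := m) (b := b) (J := J) hx1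
  rw [← hzdef] at hlev
  have hlev0 : 0 ≤ ∏ j ∈ range J, NUA_z z j ^ (2 * (b + j)) := by
    refine Finset.prod_nonneg fun j _ => ?_
    have := NUA_one_le hz j
    positivity
  refine ⟨fun n => (EP (yy x : ℝ) z)⁻¹ * Nu_f b J (yy x : ℝ) z n,
    fun n => (EP (yy x : ℝ) z)⁻¹ * ND b J (yy x : ℝ) z n, ?_, ?_⟩
  · unfold GoodVm
    rw [← hzdef]
    refine ⟨fun n => mul_nonneg hEi0.le (Nu_nonneg _ _ _ _ _), fun n hn => ?_, ?_,
      fun s hsm e he => ?_, fun s hsm => ?_⟩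
    · show (EP (yy x : ℝ) z)⁻¹ * Nu_f b J (yy x : ℝ) z n = (EP (yy x : ℝ) z)⁻¹
      rw [Nu_one hz hn, mul_one]
    · have h1 := Nu_smul (Nu_PRpos hz) (Nu_TD (b := b) (w := (yy x : ℝ)) hz hJ) hEi0.le
      refine TD_mono h1 dvd_rfl ?_
      exact le_trans (mul_le_mul hEinv hlev hlev0 (by positivity)) hpow
    · rcases Nat.eq_zero_or_pos s.card with hs0 | hs1
      · rw [Finset.card_eq_zero] at hs0
        subst hs0
        have h1 : avgP (PR (yy x : ℝ) z) (fun _ => (1 : ℝ)) = 1 := by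
          unfold avgP
          have : (PR (yy x : ℝ) z : ℝ) ≠ 0 := by exact_mod_cast hPR0.ne'
          simp [this]
        simp only [Finset.prod_empty, Finset.sum_empty, pow_zero, mul_one, h1, Finset.notMem_empty, false_and,
          exists_false, Finset.filter_false]
        have : (0 : ℝ) ≤ 4 * (1 / 2) ^ b := by positivity
        linarith
      have h1 := Num_upper (w := (yy x : ℝ)) (b := b) hz hJ hmer hb₁ (by omega) s hs1 hsm e he
      have h2 : (fun t : ℤ => ∏ a ∈ s, ((EP (yy x : ℝ) z)⁻¹ * Nu_f b J (yy x : ℝ) z (t + a)) ^ e a) =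
          fun t => (EP (yy x : ℝ) z)⁻¹ ^ (∑ a ∈ s, e a) *
            ∏ a ∈ s, Nu_f b J (yy x : ℝ) z (t + a) ^ e a := by
        funext t
        rw [← Finset.prod_pow_eq_pow_sum, ← Finset.prod_mul_distrib]
        exact Finset.prod_congr rfl fun a _ => mul_pow _ _ _
      rw [h2, BLK_smul]
      have h3 : ∑ a ∈ s, e a = s.card + ∑ a ∈ s, (e a - 1) := by
        rw [Finset.card_eq_sum_ones, ← Finset.sum_add_distrib]
        refine Finset.sum_congr rfl fun a _ => ?_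
        have := (he a).1
        omega
      have h4 : (EP (yy x : ℝ) z)⁻¹ ^ (∑ a ∈ s, e a) * EP (yy x : ℝ) z ^ s.card =
          (EP (yy x : ℝ) z)⁻¹ ^ (∑ a ∈ s, (e a - 1)) := by
        rw [h3, pow_add, mul_right_comm, ← mul_pow, inv_mul_cancel₀ hE0.ne', one_pow, one_mul]
      have h5 := Nu_exp (b := b) (by omega)
      set Q := ∏ p ∈ (PI (yy x : ℝ) z).filter
        (fun p : ℕ => ∃ a ∈ s, ∃ a' ∈ s, a ≠ a' ∧ (p : ℤ) ∣ a - a'), (1 + 2 ^ m / (p : ℝ)) with hQ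
      have hQ0 : 0 ≤ Q := Finset.prod_nonneg fun _ _ => by positivity
      calc (EP (yy x : ℝ) z)⁻¹ ^ (∑ a ∈ s, e a) *
            avgP (PR (yy x : ℝ) z) (fun t => ∏ a ∈ s, Nu_f b J (yy x : ℝ) z (t + a) ^ e a)
          ≤ (EP (yy x : ℝ) z)⁻¹ ^ (∑ a ∈ s, e a) *
            (Real.exp (2 * (1 / 2 : ℝ) ^ b) * EP (yy x : ℝ) z ^ s.card * Q) :=
            mul_le_mul_of_nonneg_left h1 (by positivity)
        _ = Real.exp (2 * (1 / 2 : ℝ) ^ b) *
            ((EP (yy x : ℝ) z)⁻¹ ^ (∑ a ∈ s, e a) * EP (yy x : ℝ) z ^ s.card) * Q := by ring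
        _ = Real.exp (2 * (1 / 2 : ℝ) ^ b) * (EP (yy x : ℝ) z)⁻¹ ^ (∑ a ∈ s, (e a - 1)) * Q := by
            rw [h4]
        _ ≤ (1 + 4 * (1 / 2 : ℝ) ^ b) * (EP (yy x : ℝ) z)⁻¹ ^ (∑ a ∈ s, (e a - 1)) * Q := by
            refine mul_le_mul_of_nonneg_right (mul_le_mul_of_nonneg_right h5 (by positivity)) hQ0
    · have h1 := Num_lower (m := m) (b := b) (J := J) (y := yy x) (z := z) hy5 hz s hsm
      have h2 : (fun t : ℤ => ∏ a ∈ s, ((EP (yy x : ℝ) z)⁻¹ * Nu_f b J (yy x : ℝ) z (t + a))) =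
          fun t => (EP (yy x : ℝ) z)⁻¹ ^ s.card *
            ∏ a ∈ s, Nu_f b J (yy x : ℝ) z (t + a) := by
        funext t
        rw [Finset.prod_mul_distrib, Finset.prod_const]
      rw [h2, BLK_smul]
      exact h1
  · unfold GoodDm
    rw [← hzdef]
    refine ⟨fun n => mul_nonneg hEi0.le (ND_nonneg _ _ _ _ _), fun n hn => ?_, ?_,
      fun s a₀ ha₀ hsm => ?_⟩
    · exact mul_le_mul_of_nonneg_left (ND_ge hz hJ hn) hEi0.le
    · have h1 := Nu_smul (Nu_PRpos hz) (ND_TD (b := b) (w := (yy x : ℝ)) hz hJ) hEi0.le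
      refine TD_mono h1 dvd_rfl ?_
      rw [← hzdef] at hpow'
      refine le_trans (mul_le_mul hEinv (mul_le_mul_of_nonneg_left hlev (by linarith))
        (mul_nonneg (by linarith) hlev0) (by positivity)) hpow'
    · have h1 := ND_avg (w := (yy x : ℝ)) (b := b) hz hJ hmer
        (fun b' hb' => hb₁ b' (by omega)) (fun b' hb' => hb₂ b' (by omega))
        (b₁ := b₁ + b₂) (by omega) (by omega) s a₀ ha₀ hsm
      have h2 : (fun t : ℤ => (∏ a ∈ s, ((EP (yy x : ℝ) z)⁻¹ * Nu_f b J (yy x : ℝ) z (t + a))) *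
          ((EP (yy x : ℝ) z)⁻¹ * ND b J (yy x : ℝ) z (t + a₀))) =
          fun t => (EP (yy x : ℝ) z)⁻¹ ^ (s.card + 1) *
            ((∏ a ∈ s, Nu_f b J (yy x : ℝ) z (t + a)) * ND b J (yy x : ℝ) z (t + a₀)) := by
        funext t
        rw [Finset.prod_mul_distrib, Finset.prod_const, pow_succ]
        ring
      rw [h2, BLK_smul]
      have h4 : (EP (yy x : ℝ) z)⁻¹ ^ (s.card + 1) * EP (yy x : ℝ) z ^ (s.card + 1) = 1 := by
        rw [← mul_pow, inv_mul_cancel₀ hE0.ne', one_pow]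
      refine (mul_le_mul_of_nonneg_left h1 (by positivity)).trans (le_of_eq ?_)
      rw [show (EP (yy x : ℝ) z)⁻¹ ^ (s.card + 1) * (4 * (1 / 2 : ℝ) ^ b * EP (yy x : ℝ) z ^ (s.card + 1) *
          ∏ p ∈ (PI (yy x : ℝ) z).filter (fun p : ℕ => ∃ a ∈ insert a₀ s, ∃ a' ∈ insert a₀ s,
            a ≠ a' ∧ (p : ℤ) ∣ a - a'), (1 + 2 ^ m / (p : ℝ))) =
          ((EP (yy x : ℝ) z)⁻¹ ^ (s.card + 1) * EP (yy x : ℝ) z ^ (s.card + 1)) * (4 * (1 / 2 : ℝ) ^ b *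
          ∏ p ∈ (PI (yy x : ℝ) z).filter (fun p : ℕ => ∃ a ∈ insert a₀ s, ∃ a' ∈ insert a₀ s,
            a ≠ a' ∧ (p : ℤ) ∣ a - a'), (1 + 2 ^ m / (p : ℝ))) by ring, h4, one_mul]

end Pool.Agent.H96.FL
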