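import Pool.Agent.H96.FL.CLGb

/-!
# OFD: the weight `D` is small on average, for every single `e`

`W = WW w`, `w = yy x`. Split `JJ x H` into the classes `JC x H t`, `t < W`; `Mm w (n - c) = Mm w (t - c)` for `n ≡ t` (`Mm_period`). With `|G n| ≤ A₀ ∏ Mm (1 + V)` and `CLGb`: the sum is at most `A₀ ∑_{t<W} (∏_{c∈S} Mm w (t-c)) Mm w (t-e) * 2^(j+4) (1/2)^b N/W = A₀ 2^(j+4) (1/2)^b N * sW x (insert e S)`
(`sW x s = avgP W (∏_{c∈s} Mm w (n-c))`, `e ∉ S`; see `OF_cls`, `OF_per`, `OF_Q1`, `OF_sW`, `OF_sWs` in `Pool/Agent/H96/FD/OF.lean`, private: copy).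
-/

set_option autoImplicit false

namespace Pool.Agent.H96.FL

open Finset Pool.Agent.H17 Pool.Agent.H6.MF Pool.Agent.H6.MB Pool.Agent.H12.DM Pool.Agent.H6.AE Pool.Agent.H96.AE Pool.Agent.H96.AS

private lemma OFD_cls {W : ℕ} (hW : 0 < W) (J : Finset ℕ) (F : ℕ → ℝ) :
    ∑ n ∈ J, F n = ∑ t ∈ Finset.range W, ∑ n ∈ J.filter (fun n => n % W = t), F n :=
  (Finset.sum_fiberwise_of_maps_to (fun n _ => Finset.mem_range.mpr (Nat.mod_lt n hW)) F).symm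

private lemma OFD_per {W : ℕ} {M : ℤ → ℝ} (hper : ∀ n k : ℤ, M (n + k * (W : ℤ)) = M n) {n t : ℕ}
    (h : n % W = t) (e : ℤ) : M ((n : ℤ) - e) = M ((t : ℤ) - e) := by
  have h1 : (n : ℤ) = (t : ℤ) + ((n / W : ℕ) : ℤ) * (W : ℤ) := by
    have h2 := Nat.div_add_mod n W
    rw [h] at h2
    rw [← h2]
    push_cast
    have : ((n / W : ℕ) : ℤ) = (((W * (n / W) + t) / W : ℕ) : ℤ) := by rw [h2]
    push_cast at this ⊢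
    rw [← this]
    ring
  rw [h1, ← hper ((t : ℤ) - e) ((n / W : ℕ) : ℤ)]
  congr 1
  ring

private lemma OFD_Q1 {W : ℕ} (hW : 0 < W) {M : ℤ → ℝ} (hper : ∀ n k : ℤ, M (n + k * (W : ℤ)) = M n)
    (hM : ∀ n, 0 ≤ M n) (S : Finset ℤ) (e : ℤ) (J : Finset ℕ) (P : ℕ → ℝ) (α : ℝ)
    (h : ∀ t ∈ Finset.range W, ∑ n ∈ J.filter (fun n => n % W = t), P n ≤ α) :
    ∑ n ∈ J, (∏ c ∈ S, M ((n : ℤ) - c)) * P n * M ((n : ℤ) - e) ≤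
      α * ∑ t ∈ Finset.range W, (∏ c ∈ S, M ((t : ℤ) - c)) * M ((t : ℤ) - e) := by
  rw [OFD_cls hW, Finset.mul_sum]
  refine Finset.sum_le_sum fun t ht => ?_
  have e1 : ∑ n ∈ J.filter (fun n => n % W = t), (∏ c ∈ S, M ((n : ℤ) - c)) * P n *
      M ((n : ℤ) - e) = ((∏ c ∈ S, M ((t : ℤ) - c)) * M ((t : ℤ) - e)) *
        ∑ n ∈ J.filter (fun n => n % W = t), P n := by
    rw [Finset.mul_sum]
    refine Finset.sum_congr rfl fun n hn => ?_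
    have hnt := (Finset.mem_filter.mp hn).2
    rw [Finset.prod_congr rfl fun c _ => OFD_per hper hnt c, OFD_per hper hnt e]
    ring
  rw [e1, mul_comm α]
  exact mul_le_mul_of_nonneg_left (h t ht) (mul_nonneg (Finset.prod_nonneg fun _ _ => hM _) (hM _))

private lemma OFD_sW (x : ℝ) (S : Finset ℤ) (e : ℤ) (he : e ∉ S) :
    ∑ t ∈ Finset.range (WW (yy x)), (∏ c ∈ S, Mm (yy x) ((t : ℤ) - c)) * Mm (yy x) ((t : ℤ) - e)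
      = sW x (insert e S) * (WW (yy x) : ℝ) := by
  have h : (0 : ℝ) < (WW (yy x) : ℝ) := WW_pos_real _
  have h1 : ∑ t ∈ Finset.range (WW (yy x)), ∏ c ∈ insert e S, Mm (yy x) ((t : ℤ) - c)
      = sW x (insert e S) * (WW (yy x) : ℝ) := by
    unfold sW avgP
    field_simp
  rw [← h1]
  refine Finset.sum_congr rfl fun t _ => ?_
  rw [Finset.prod_insert he]
  ring

theorem OFD (m b j : ℕ) (v η C : ℝ) (hη0 : 0 < η) (hη1 : η ≤ 1 / 20) (hj : j + 2 ≤ m)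
    (hm : (j : ℝ) + 4 ≤ 10 * ((m : ℝ) + 1) * η) (hC : 0 < C) (hv : dlm m b < v) : ∃ X : ℝ, ∀ x : ℝ, X ≤ x →
    ∀ V D : ℤ → ℝ, GoodVm m b x V → GoodDm m b x V D → ∀ μ : ℝ, 0 ≤ μ → μ ≤ 1 →
    ∀ β F : ℤ → ℝ, GoodF (dlm m b) v η C μ x β F →
    ∀ H : ℕ, (H : ℝ) ≤ (Real.log x) ^ 2 → ∀ S : Finset ℤ, S ⊆ Finset.Icc 1 (H : ℤ) → S.card ≤ j →
    ∀ A₀ : ℝ, 0 ≤ A₀ → ∀ G : ℤ → ℝ, (∀ n, |G n| ≤ A₀ * ∏ c ∈ S, (Mm (yy x) (n - c) * (1 + V (n - c)))) →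
    ∀ e ∈ Finset.Icc 1 (H : ℤ) \ S,
    ∑ n ∈ JJ x H, |G (n : ℤ)| * (Mm (yy x) ((n : ℤ) - e) * (D ((n : ℤ) - e) * β ((n : ℤ) - e)))
      ≤ A₀ * 2 ^ (j + 4) * (1 / 2 : ℝ) ^ b * sW x (insert e S) * ((⌊x⌋₊ : ℝ) + 1) := by
  obtain ⟨X, hX⟩ := CLGb m b j v η C hη0 hη1 hj hm hC hv
  refine ⟨X, ?_⟩
  intro x hx V D hV hD μ hμ0 hμ1 β F hβ H hH S hSI hSj A₀ hA₀ G hG e he
  have hcls := hX x hx V D hV hD μ hμ0 hμ1 β F hβ H hH S hSI hSj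
  have heS : e ∉ S := (Finset.mem_sdiff.1 he).2
  have hWpos : 0 < WW (yy x) := WW_pos (yy x)
  have hWr : (0 : ℝ) < (WW (yy x) : ℝ) := WW_pos_real (yy x)
  have hD0 : ∀ n, 0 ≤ D n := hD.1
  have hβ0 : ∀ n, 0 ≤ β n := hβ.1
  have Q1 := OFD_Q1 (M := Mm (yy x)) hWpos (Mm_period (yy x)) (Mm_nonneg (yy x)) S e (JJ x H)
    (fun n : ℕ => (∏ c ∈ S, (1 + V ((n : ℤ) - c))) * (D ((n : ℤ) - e) * β ((n : ℤ) - e)))
    (2 ^ (j + 4) * (1 / 2 : ℝ) ^ b * (((⌊x⌋₊ : ℝ) + 1) / (WW (yy x) : ℝ)))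
    (fun t ht => by
      have h1 := hcls t (Finset.mem_range.mp ht) e he
      unfold JC at h1
      exact h1)
  rw [OFD_sW x S e heS] at Q1
  calc ∑ n ∈ JJ x H, |G (n : ℤ)| * (Mm (yy x) ((n : ℤ) - e) * (D ((n : ℤ) - e) * β ((n : ℤ) - e)))
      ≤ ∑ n ∈ JJ x H, A₀ * ((∏ c ∈ S, Mm (yy x) ((n : ℤ) - c)) *
          ((∏ c ∈ S, (1 + V ((n : ℤ) - c))) * (D ((n : ℤ) - e) * β ((n : ℤ) - e))) *
          Mm (yy x) ((n : ℤ) - e)) := by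
        refine Finset.sum_le_sum fun n _ => ?_
        have h1 : 0 ≤ Mm (yy x) ((n : ℤ) - e) * (D ((n : ℤ) - e) * β ((n : ℤ) - e)) :=
          mul_nonneg (Mm_nonneg _ _) (mul_nonneg (hD0 _) (hβ0 _))
        refine (mul_le_mul_of_nonneg_right (hG (n : ℤ)) h1).trans (le_of_eq ?_)
        rw [Finset.prod_mul_distrib]
        ring
    _ = A₀ * ∑ n ∈ JJ x H, (∏ c ∈ S, Mm (yy x) ((n : ℤ) - c)) *
          ((∏ c ∈ S, (1 + V ((n : ℤ) - c))) * (D ((n : ℤ) - e) * β ((n : ℤ) - e))) *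
          Mm (yy x) ((n : ℤ) - e) := by rw [Finset.mul_sum]
    _ ≤ A₀ * (2 ^ (j + 4) * (1 / 2 : ℝ) ^ b * (((⌊x⌋₊ : ℝ) + 1) / (WW (yy x) : ℝ)) *
          (sW x (insert e S) * (WW (yy x) : ℝ))) := mul_le_mul_of_nonneg_left Q1 hA₀
    _ = _ := by
        field_simp

end Pool.Agent.H96.FL
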