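import Pool.Agent.H96.FL.OFg
import Pool.Agent.H96.FL.OFD
import Pool.Agent.H96.FL.NMD
import Pool.Agent.H96.FD.LO
import Pool.Agent.H96.AS.TS

/-!
# UWF: the fundamental lemma, weighted form

Compare `FN` (`Pool/Agent/H96/FD/FNa.lean`). `η = 1/20`, `m` with `k + 2 ≤ m`, `k + 4 ≤ 10 (m+1) η`, `b ≥ b₁` (`NMD m`) by `TS_choose m (k+1) (2 * 2^(k+4)) ε`, `δ = dlm m b`, so `2 * 2^(k+4) * (1+1/δ)^(k+1) * √(2 (1/2)^b) ≤ ε`, hence `2 * 2^(k+4) * A₀ * √(2 (1/2)^b) ≤ ε δ`, `A₀ = (1+1/δ)^k` (`1/δ ≤ 1 + 1/δ`).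
`β = F = 1`, `μ = 1`, `C = 1`, `v = 13/50` satisfy `GoodF` (`TD_one`, `TD_mono`). `OFg` (`σ = 1`): `|∑_e ∑_n G Mm (V - 1)(n-e)| ≤ A₀ 2^(k+4) √(2 (1/2)^b) N T` (`T = ∑_{e∈E} sW x (insert e S)`, `C₁ L sW x S ≤ (1/2)^b T` by `LO k` and `K` large, as in `FN`); `OFD`: `∑_e ∑_n G Mm D(n-e) ≤ A₀ 2^(k+4) (1/2)^b N T`, and `(1/2)^b ≤ √(2 (1/2)^b)`.
Pointwise (`w = yy x ≤ z = x^δ`): `0 ≤ Mm w n * V n - rgh x δ n ≤ Mm w n * D n`: if `n` has a prime factor `≤ w` then `Mm w n = 0 = rgh`; if `n` is coprime to `W` and has a prime factor in `(w, z]` then `rgh = 0` and `V ≤ D` (`GoodDm`); otherwise `Mm w n * V n = wp w * (EP w z)⁻¹ = (EP 0 z)⁻¹ = rgh x δ n` (`wp_eq`, `EP_mul`, `GoodVm`).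
-/

set_option autoImplicit false

namespace Pool.Agent.H96.FL

open Finset Pool.Agent.H17 Pool.Agent.H6.MF Pool.Agent.H6.MB Pool.Agent.H12.DM Pool.Agent.H6.AE Pool.Agent.H96.AE Pool.Agent.H96.AS Pool.Agent.H96.FD

private theorem UWF_ev (m b : ℕ) : ∃ X : ℝ, ∀ x : ℝ, X ≤ x →
    1 ≤ x ∧ 1 ≤ Real.log x ∧ (yy x : ℝ) ≤ x ^ dlm m b := by
  have h1 : ∀ᶠ x : ℝ in Filter.atTop, 1 ≤ x ∧ 1 ≤ Real.log x ∧ (yy x : ℝ) ≤ x ^ dlm m b := by
    have e3 := (isLittleO_log_rpow_atTop (dlm_pos m b)).bound (show (0 : ℝ) < 1 by norm_num)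
    filter_upwards [Filter.eventually_ge_atTop (1 : ℝ), Real.tendsto_log_atTop.eventually_ge_atTop 1,
      e3] with x a1 a2 a5
    refine ⟨a1, a2, ?_⟩
    rw [one_mul, Real.norm_of_nonneg (by linarith), Real.norm_of_nonneg (by positivity)] at a5
    have hll : 0 ≤ Real.log (Real.log x) := Real.log_nonneg a2
    have b1 : (yy x : ℝ) ≤ Real.log (Real.log x) / 100 := Nat.floor_le (by positivity)
    have b2 : Real.log (Real.log x) ≤ Real.log x - 1 := Real.log_le_sub_one_of_pos (by linarith)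
    linarith
  exact Filter.eventually_atTop.1 h1

private theorem UWF_dvd_WW {y p : ℕ} (hp : p.Prime) : p ∣ WW y ↔ p ≤ y := by
  unfold WW
  constructor
  · intro h
    obtain ⟨q, hq, hpq⟩ := (Nat.Prime.prime hp).exists_mem_finset_dvd h
    have h1 := mem_PP.1 hq
    rw [(Nat.prime_dvd_prime_iff_eq hp h1.2).1 hpq]
    exact h1.1
  · intro h
    exact Finset.dvd_prod_of_mem _ (mem_PP.2 ⟨h, hp⟩)

/-- the pointwise comparison -/
private theorem UWF_pt {m b : ℕ} {x : ℝ} (hx : 1 ≤ x) (hyz : (yy x : ℝ) ≤ x ^ dlm m b) {V D : ℤ → ℝ}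
    (hV : GoodVm m b x V) (hD : GoodDm m b x V D) (n : ℤ) :
    |rgh x (dlm m b) n - Mm (yy x) n * V n| ≤ Mm (yy x) n * D n := by
  obtain ⟨z, hz⟩ : ∃ z : ℝ, z = x ^ dlm m b := ⟨_, rfl⟩
  have hz0 : 0 ≤ z := by
    rw [hz]
    positivity
  have hM0 := Mm_nonneg (yy x) n
  have hD0 := hD.1 n
  have hV0 := hV.1 n
  have hMD : 0 ≤ Mm (yy x) n * D n := mul_nonneg hM0 hD0
  have hV1 := hV.2.1 n
  have hD1 := hD.2.1 n
  rw [← hz] at hV1 hD1 hyz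
  unfold rgh
  rw [← hz]
  by_cases hg : Int.gcd n (WW (yy x) : ℤ) = 1
  · have hMw : Mm (yy x) n = wp (yy x) := by
      unfold Mm
      rw [if_pos hg]
    by_cases hq : ∃ p ∈ PI (yy x : ℝ) z, (p : ℤ) ∣ n
    · have h1 := hD1 hq
      have h2 : ¬ ∀ p : ℕ, p.Prime → (p : ℝ) ≤ z → ¬ (p : ℤ) ∣ n := by
        intro h
        obtain ⟨p, hp, hpn⟩ := hq
        rw [NUA_mem hz0] at hp
        exact h p hp.1 hp.2.2 hpn
      rw [if_neg h2, zero_sub, abs_neg, abs_of_nonneg (mul_nonneg hM0 hV0)]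
      exact mul_le_mul_of_nonneg_left h1 hM0
    · push Not at hq
      have h1 := hV1 hq
      have h2 : ∀ p : ℕ, p.Prime → (p : ℝ) ≤ z → ¬ (p : ℤ) ∣ n := by
        intro p hp hpz hpn
        by_cases hpy : (yy x : ℝ) < (p : ℝ)
        · exact hq p ((NUA_mem hz0).2 ⟨hp, hpy, hpz⟩) hpn
        · have hpy' : p ≤ yy x := by
            exact_mod_cast not_lt.1 hpy
          have h3 : p ∣ WW (yy x) := (UWF_dvd_WW hp).2 hpy'
          have h4 : p ∣ Int.gcd n (WW (yy x) : ℤ) :=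
            Int.dvd_gcd hpn (Int.natCast_dvd_natCast.2 h3) |> fun h => by exact_mod_cast h
          rw [hg] at h4
          exact hp.one_lt.ne' (Nat.dvd_one.1 h4)
      rw [if_pos h2, h1, hMw, wp_eq, EP_mul (Nat.cast_nonneg (yy x)) hyz, mul_inv, sub_self, abs_zero,
        ← wp_eq, ← hMw]
      exact hMD
  · have hMw : Mm (yy x) n = 0 := by
      unfold Mm
      rw [if_neg hg]
    have h2 : ¬ ∀ p : ℕ, p.Prime → (p : ℝ) ≤ z → ¬ (p : ℤ) ∣ n := by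
      intro h
      obtain ⟨p, hp, hpg⟩ := Nat.exists_prime_and_dvd hg
      have h3 : (p : ℤ) ∣ n := (Int.natCast_dvd_natCast.2 hpg).trans (Int.gcd_dvd_left _ _)
      have h4 : p ∣ WW (yy x) := by
        have h5 : (p : ℤ) ∣ (WW (yy x) : ℤ) := (Int.natCast_dvd_natCast.2 hpg).trans (Int.gcd_dvd_right _ _)
        exact_mod_cast h5
      have h5 : p ≤ yy x := (UWF_dvd_WW hp).1 h4
      refine h p hp ?_ h3
      have h6 : (p : ℝ) ≤ (yy x : ℝ) := by exact_mod_cast h5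
      exact h6.trans hyz
    rw [if_neg h2, hMw, zero_mul, zero_mul, sub_zero, abs_zero]

private theorem UWF_goodF {δ x : ℝ} (hx : 1 ≤ x) (hL : 0 < Real.log x) :
    GoodF δ (13 / 50) (1 / 20) 1 1 x (fun _ => 1) (fun _ => 1) := by
  have hP : 0 < PR (x ^ δ) (x ^ (13 / 50 : ℝ)) := by
    unfold PR
    refine Finset.prod_pos fun p hp => ?_
    rw [NUA_mem (by positivity)] at hp
    exact hp.1.pos
  have hP' : ((PR (x ^ δ) (x ^ (13 / 50 : ℝ)) : ℕ) : ℝ) ≠ 0 := by exact_mod_cast hP.ne'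
  have hav : avgP (PR (x ^ δ) (x ^ (13 / 50 : ℝ))) (fun _ => (1 : ℝ)) = 1 := by
    unfold avgP
    rw [Finset.sum_const, Finset.card_range, nsmul_eq_mul, mul_one, div_self hP']
  have hx1 : (1 : ℝ) ≤ 1 * x ^ (1 / 2 - 1 / 20 : ℝ) := by
    rw [one_mul]
    exact Real.one_le_rpow hx (by norm_num)
  refine ⟨fun _ => zero_le_one, fun _ => le_rfl, TD_mono TD_one dvd_rfl hx1, TD_mono TD_one dvd_rfl hx1,
    hav, hav, fun k _ _ => ?_, fun n _ _ => ⟨le_rfl, by norm_num⟩⟩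
  have h1 : (fun n : ℤ => (fun _ : ℤ => (1 : ℝ)) n * (fun _ : ℤ => (1 : ℝ)) (n + k)) = fun _ => (1 : ℝ) := by
    funext n
    norm_num
  rw [h1, hav]
  have h2 : 0 ≤ 1 / Real.log x := by positivity
  linarith

theorem UWF (k : ℕ) (ε : ℝ) (hε : 0 < ε) : ∃ δ : ℝ, 0 < δ ∧ δ ≤ 1 / 320 ∧ ∃ K X : ℝ, 1 ≤ K ∧
    ∀ x : ℝ, X ≤ x → ∀ H : ℕ, (H : ℝ) ≤ (Real.log x) ^ 2 →
    ∀ S : Finset ℤ, S ⊆ Finset.Icc 1 (H : ℤ) → S.card = k →
    ∀ G : ℤ → ℝ, (∀ n, 0 ≤ G n) → (∀ n, G n ≤ ∏ c ∈ S, La x (n - c)) →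
    ∀ E : Finset ℤ, E ⊆ Finset.Icc 1 (H : ℤ) \ S → K * Real.log x ≤ (E.card : ℝ) → (∀ e ∈ E, adm (insert e S)) →
    |∑ e ∈ E, ∑ n ∈ JJ x H, G (n : ℤ) * (rgh x δ ((n : ℤ) - e) - Mm (yy x) ((n : ℤ) - e))| ≤
        ε * δ * ((⌊x⌋₊ : ℝ) + 1) * ∑ e ∈ E, sW x (insert e S) := by
  have hη0 : (0 : ℝ) < 1 / 20 := by norm_num
  obtain ⟨m, hm1, hm2⟩ : ∃ m : ℕ, k + 2 ≤ m ∧ (k : ℝ) + 4 ≤ 10 * ((m : ℝ) + 1) * (1 / 20) := by
    refine ⟨2 * k + 8, by omega, ?_⟩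
    push_cast
    have : (0 : ℝ) ≤ k := Nat.cast_nonneg k
    linarith
  obtain ⟨b₁, hNum⟩ := NMD m
  obtain ⟨b, hb, hbD⟩ := TS_choose m (k + 1) (2 * 2 ^ (k + 4)) ε (by positivity) hε b₁
  obtain ⟨X₁, hV⟩ := hNum b hb
  set δ : ℝ := dlm m b with hδdef
  have hδ0 : 0 < δ := dlm_pos m b
  have hδ1 : δ ≤ 1 / 320 := dlm_le m b
  have hδv : dlm m b < 13 / 50 := by
    rw [← hδdef]
    linarith
  obtain ⟨C₁, X₂, hC1, hOF⟩ := OFg m b k (13 / 50) (1 / 20) 1 hη0 le_rfl hm1 hm2 one_pos hδv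
  obtain ⟨X₃, hOD⟩ := OFD m b k (13 / 50) (1 / 20) 1 hη0 le_rfl hm1 hm2 one_pos hδv
  obtain ⟨X₄, hBM⟩ := BMU_maj m b
  obtain ⟨X₅, hev⟩ := UWF_ev m b
  obtain ⟨c, hc0, hLO⟩ := LO k
  set K : ℝ := max 1 (C₁ * 2 ^ b / c) with hK
  have hK1 : 1 ≤ K := le_max_left _ _
  have hKC : C₁ * 2 ^ b / c ≤ K := le_max_right _ _
  refine ⟨δ, hδ0, hδ1, K, max X₁ (max X₂ (max X₃ (max X₄ X₅))), hK1,
    fun x hx H hH S hSI hSc G hG0 hGL E hE hcard hadm => ?_⟩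
  simp only [max_le_iff] at hx
  obtain ⟨hx1, hx2, hx3, hx4, hx5⟩ := hx
  obtain ⟨hxx, hL1, hyz⟩ := hev x hx5
  have hL0 : 0 < Real.log x := by linarith
  obtain ⟨V, D, hVg, hDg⟩ := hV x hx1
  have hFg : GoodF (dlm m b) (13 / 50) (1 / 20) 1 1 x (fun _ => 1) (fun _ => 1) := UWF_goodF hxx hL0
  set N : ℝ := (⌊x⌋₊ : ℝ) + 1 with hN
  have hN0 : 0 ≤ N := by positivity
  have heS : ∀ e ∈ E, e ∉ S := fun e he => (Finset.mem_sdiff.1 (hE he)).2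
  set T : ℝ := ∑ e ∈ E, sW x (insert e S) with hT
  have hT0 : 0 ≤ T := Finset.sum_nonneg fun e _ => sW_nonneg x _
  have hS0 : 0 ≤ sW x S := sW_nonneg x _
  -- the lower bound for `T`
  have hTlow : C₁ * Real.log x * sW x S ≤ (1 / 2 : ℝ) ^ b * T := by
    have h1 : (E.card : ℝ) * (c * sW x S) ≤ T := by
      rw [← nsmul_eq_mul, ← Finset.sum_const]
      exact Finset.sum_le_sum fun e he => hLO x S hSc.le e (heS e he) (hadm e he)
    have h3 : C₁ * 2 ^ b ≤ K * c := by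
      rw [div_le_iff₀ hc0] at hKC
      exact hKC
    have h4 : C₁ * 2 ^ b * Real.log x * sW x S ≤ T := by
      refine le_trans ?_ h1
      have h5 : K * Real.log x * (c * sW x S) ≤ (E.card : ℝ) * (c * sW x S) :=
        mul_le_mul_of_nonneg_right hcard (by positivity)
      refine le_trans ?_ h5
      have h6 : C₁ * 2 ^ b * (Real.log x * sW x S) ≤ K * c * (Real.log x * sW x S) :=
        mul_le_mul_of_nonneg_right h3 (by positivity)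
      calc C₁ * 2 ^ b * Real.log x * sW x S = C₁ * 2 ^ b * (Real.log x * sW x S) := by ring
        _ ≤ _ := h6
        _ = _ := by ring
    have h7 : (1 / 2 : ℝ) ^ b * 2 ^ b = 1 := by
      rw [← mul_pow]
      norm_num
    calc C₁ * Real.log x * sW x S = ((1 / 2 : ℝ) ^ b * 2 ^ b) * (C₁ * Real.log x * sW x S) := by
          rw [h7, one_mul]
      _ = (1 / 2 : ℝ) ^ b * (C₁ * 2 ^ b * Real.log x * sW x S) := by ring
      _ ≤ _ := mul_le_mul_of_nonneg_left h4 (by positivity)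
  -- the majorant of `G`
  set A₀ : ℝ := (1 + 1 / δ) ^ k with hA0
  have hA00 : 0 ≤ A₀ := by positivity
  have hLV : ∀ n : ℤ, La x n ≤ (1 + 1 / δ) * (Mm (yy x) n * (1 + V n)) := by
    intro n
    have h3 := hBM x hx4 V hVg n
    have h4 := Mm_nonneg (yy x) n
    have h5 := hVg.1 n
    have h6 : 0 ≤ 1 / δ := by positivity
    have h7 := mul_nonneg h4 h5
    have h8 := mul_nonneg h6 h4
    nlinarith
  have hGb : ∀ n, |G n| ≤ A₀ * ∏ c ∈ S, (Mm (yy x) (n - c) * (1 + V (n - c))) := by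
    intro n
    rw [abs_of_nonneg (hG0 n)]
    refine (hGL n).trans ?_
    rw [hA0, ← hSc, ← Finset.prod_const, ← Finset.prod_mul_distrib]
    exact Finset.prod_le_prod (fun c _ => La_nonneg hxx _) fun c _ => hLV _
  -- the two errors
  have hErr := hOF x hx2 V hVg 1 zero_le_one le_rfl _ _ hFg H hH S hSI hSc.le E hE A₀ hA00 G hGb
    (fun _ => 1) (fun _ => ⟨zero_le_one, le_rfl⟩)
  have hErD : ∀ e ∈ E, ∑ n ∈ JJ x H, G (n : ℤ) * (Mm (yy x) ((n : ℤ) - e) * D ((n : ℤ) - e)) ≤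
      A₀ * 2 ^ (k + 4) * (1 / 2 : ℝ) ^ b * sW x (insert e S) * N := by
    intro e he
    have h1 := hOD x hx3 V D hVg hDg 1 zero_le_one le_rfl _ _ hFg H hH S hSI hSc.le A₀ hA00 G hGb e (hE he)
    simp only [mul_one] at h1
    refine le_trans (Finset.sum_le_sum fun n _ => ?_) h1
    rw [abs_of_nonneg (hG0 _)]
  simp only [mul_one, one_mul] at hErr
  have hsq : Real.sqrt (((1 / 2 : ℝ) ^ b * T + C₁ * Real.log x * sW x S) * T) ≤
      Real.sqrt (2 * (1 / 2 : ℝ) ^ b) * T := by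
    have h1 : Real.sqrt (2 * (1 / 2 : ℝ) ^ b) * T = Real.sqrt (2 * (1 / 2 : ℝ) ^ b * T ^ 2) := by
      rw [Real.sqrt_mul (by positivity : (0 : ℝ) ≤ 2 * (1 / 2 : ℝ) ^ b) (T ^ 2), Real.sqrt_sq hT0]
    rw [h1]
    apply Real.sqrt_le_sqrt
    have h2 : ((1 / 2 : ℝ) ^ b * T + C₁ * Real.log x * sW x S) * T ≤
        ((1 / 2 : ℝ) ^ b * T + (1 / 2 : ℝ) ^ b * T) * T :=
      mul_le_mul_of_nonneg_right (by linarith) hT0
    refine h2.trans (le_of_eq ?_)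
    ring
  have hhalf : (1 / 2 : ℝ) ^ b ≤ Real.sqrt (2 * (1 / 2 : ℝ) ^ b) := by
    apply Real.le_sqrt_of_sq_le
    have h1 : (0 : ℝ) ≤ (1 / 2 : ℝ) ^ b := by positivity
    have h2 : (1 / 2 : ℝ) ^ b ≤ 1 := pow_le_one₀ (by norm_num) (by norm_num)
    nlinarith
  set R : ℝ := Real.sqrt (2 * (1 / 2 : ℝ) ^ b) with hR
  have hR0 : 0 ≤ R := Real.sqrt_nonneg _
  have hbD' : 2 * 2 ^ (k + 4) * A₀ * R ≤ ε * δ := by
    have h1 : 2 * 2 ^ (k + 4) * (A₀ * (1 + 1 / δ)) * R ≤ ε := by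
      rw [hA0, ← pow_succ]
      exact hbD
    have h2 : 1 ≤ (1 + 1 / δ) * δ := by
      rw [add_mul, one_mul, div_mul_cancel₀ _ hδ0.ne']
      linarith
    have h3 : 0 ≤ 2 * 2 ^ (k + 4) * A₀ * R := by positivity
    calc 2 * 2 ^ (k + 4) * A₀ * R = 2 * 2 ^ (k + 4) * A₀ * R * 1 := by ring
      _ ≤ 2 * 2 ^ (k + 4) * A₀ * R * ((1 + 1 / δ) * δ) := mul_le_mul_of_nonneg_left h2 h3
      _ = (2 * 2 ^ (k + 4) * (A₀ * (1 + 1 / δ)) * R) * δ := by ring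
      _ ≤ ε * δ := mul_le_mul_of_nonneg_right h1 hδ0.le
  -- the decomposition
  have hdec : ∑ e ∈ E, ∑ n ∈ JJ x H, G (n : ℤ) * (rgh x δ ((n : ℤ) - e) - Mm (yy x) ((n : ℤ) - e)) =
      ∑ e ∈ E, ∑ n ∈ JJ x H, G (n : ℤ) *
          (rgh x δ ((n : ℤ) - e) - Mm (yy x) ((n : ℤ) - e) * V ((n : ℤ) - e)) +
        ∑ n ∈ JJ x H, G (n : ℤ) * ∑ e ∈ E, Mm (yy x) ((n : ℤ) - e) * (V ((n : ℤ) - e) - 1) := by
    have h1 : ∑ n ∈ JJ x H, G (n : ℤ) * ∑ e ∈ E, Mm (yy x) ((n : ℤ) - e) * (V ((n : ℤ) - e) - 1) =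
        ∑ e ∈ E, ∑ n ∈ JJ x H, G (n : ℤ) * (Mm (yy x) ((n : ℤ) - e) * (V ((n : ℤ) - e) - 1)) := by
      simp only [Finset.mul_sum]
      rw [Finset.sum_comm]
    rw [h1, ← Finset.sum_add_distrib]
    refine Finset.sum_congr rfl fun e _ => ?_
    rw [← Finset.sum_add_distrib]
    refine Finset.sum_congr rfl fun n _ => ?_
    ring
  have hp1 : |∑ e ∈ E, ∑ n ∈ JJ x H, G (n : ℤ) *
      (rgh x δ ((n : ℤ) - e) - Mm (yy x) ((n : ℤ) - e) * V ((n : ℤ) - e))| ≤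
      A₀ * 2 ^ (k + 4) * R * T * N := by
    refine (Finset.abs_sum_le_sum_abs _ _).trans ?_
    have h1 : ∀ e ∈ E, |∑ n ∈ JJ x H, G (n : ℤ) *
        (rgh x δ ((n : ℤ) - e) - Mm (yy x) ((n : ℤ) - e) * V ((n : ℤ) - e))| ≤
        A₀ * 2 ^ (k + 4) * (1 / 2 : ℝ) ^ b * sW x (insert e S) * N := by
      intro e he
      refine (Finset.abs_sum_le_sum_abs _ _).trans (le_trans (Finset.sum_le_sum fun n _ => ?_) (hErD e he))
      rw [abs_mul, abs_of_nonneg (hG0 _)]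
      exact mul_le_mul_of_nonneg_left (UWF_pt hxx hyz hVg hDg _) (hG0 _)
    refine (Finset.sum_le_sum h1).trans ?_
    rw [← Finset.sum_mul, ← Finset.mul_sum, ← hT]
    refine mul_le_mul_of_nonneg_right (mul_le_mul_of_nonneg_right ?_ hT0) hN0
    exact mul_le_mul_of_nonneg_left hhalf (by positivity)
  have hp2 : |∑ n ∈ JJ x H, G (n : ℤ) * ∑ e ∈ E, Mm (yy x) ((n : ℤ) - e) * (V ((n : ℤ) - e) - 1)| ≤
      A₀ * 2 ^ (k + 4) * R * T * N := by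
    refine hErr.trans ?_
    calc A₀ * 2 ^ (k + 4) * Real.sqrt (((1 / 2 : ℝ) ^ b * T + C₁ * Real.log x * sW x S) * T) * N
        ≤ A₀ * 2 ^ (k + 4) * (R * T) * N :=
          mul_le_mul_of_nonneg_right (mul_le_mul_of_nonneg_left hsq (by positivity)) hN0
      _ = _ := by ring
  rw [hdec]
  refine (abs_add_le _ _).trans ((add_le_add hp1 hp2).trans ?_)
  calc A₀ * 2 ^ (k + 4) * R * T * N + A₀ * 2 ^ (k + 4) * R * T * N
      = (2 * 2 ^ (k + 4) * A₀ * R) * (T * N) := by ring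
    _ ≤ ε * δ * (T * N) := mul_le_mul_of_nonneg_right hbD' (by positivity)
    _ = _ := by ring

end Pool.Agent.H96.FL
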