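import Pool.Agent.H96.FL.UTR
import Pool.Agent.H96.FL.UWF

/-!
# UFF: the fundamental lemma, for all but `K log x` of the shifts

As `UFU` (see its header) with `UWF k ε'` instead of `UWU`. `δ` from `UWF`, `z = x^δ`, `w = yy x ≤ z`. `∑_{m∈Zs} rgh x δ (m+e) = (EP 0 z)⁻¹ * #{m ∈ Zs : m + e has no prime factor ≤ z}`, `∑_{m∈Zs} Mm w (m+e) = wp w * #{m ∈ Zs : gcd(m+e, W) = 1}`, `EP 0 z * wp w = EP w z` (`wp_eq`, `EP_mul`). So
`zr x δ Z e - EP w z * zc x Z e = EP 0 z * ∑_{m∈Zs} (rgh x δ - Mm w)(m+e) + O*(|Z \ Zs|)` (`EP ≤ 1`), `|Z \ Zs| ≤ k (x^(1/4)+1)`. Split `E = E₁ ∪ E₂` according to the sign of the difference (one of the two has at least `|E|/2` elements). If `|E₁| > K L`: the sum over `E₁` of the left side is `> ε x L^(-k-1) ∑ sing`, but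
it is at most `EP 0 z * L^(-k) * ε' δ N T + |E₁| k (x^(1/4)+1)`, `EP 0 z ≤ 1/log z = 1/(δ L)` (`mer3`), `T ≥ c |E₁|`: a contradiction for small `ε'` and large `x`. The same for `E₂`.
-/

set_option autoImplicit false

namespace Pool.Agent.H96.FL

open Finset Pool.Agent.H17 Pool.Agent.H6.MF Pool.Agent.H6.MB Pool.Agent.H12.DM Pool.Agent.H6.AE Pool.Agent.H96.AE Pool.Agent.H96.AS Pool.Agent.H96.FD Pool.Agent.H6.AS

open scoped Classical in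
private theorem UFF_a (x δ : ℝ) (n : ℤ) :
    EP 0 (x ^ δ) * rgh x δ n = if ∀ p : ℕ, p.Prime → (p : ℝ) ≤ x ^ δ → ¬ (p : ℤ) ∣ n then (1 : ℝ) else 0 := by
  unfold rgh
  split_ifs with h
  · exact mul_inv_cancel₀ (EP_pos _ _).ne'
  · simp

private theorem UFF_b (x δ : ℝ) (n : ℤ) (hw : (yy x : ℝ) ≤ x ^ δ) :
    EP 0 (x ^ δ) * Mm (yy x) n =
      EP (yy x : ℝ) (x ^ δ) * (if Int.gcd n (WW (yy x) : ℤ) = 1 then (1 : ℝ) else 0) := by
  unfold Mm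
  split_ifs with h
  · rw [wp_eq, EP_mul (w := 0) (y := (yy x : ℝ)) (z := x ^ δ) (by positivity) hw]
    have h1 := (EP_pos 0 (yy x : ℝ)).ne'
    field_simp
  · simp

open scoped Classical in
private theorem UFF_dec (x δ : ℝ) (S Z : Finset ℤ) (e : ℤ) (hw : (yy x : ℝ) ≤ x ^ δ) :
    |((zr x δ Z e : ℝ) - EP (yy x : ℝ) (x ^ δ) * (zc x Z e : ℝ)) -
      EP 0 (x ^ δ) * ∑ m ∈ Zs x S Z, (rgh x δ (m + e) - Mm (yy x) (m + e))| ≤ (((Z \ Zs x S Z).card : ℕ) : ℝ) := by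
  have hsub : Zs x S Z ⊆ Z := Finset.filter_subset _ _
  have h1 : (zr x δ Z e : ℝ) = ∑ m ∈ Z, EP 0 (x ^ δ) * rgh x δ (m + e) := by
    unfold zr
    rw [Finset.sum_congr rfl (fun m _ => UFF_a x δ (m + e)), Finset.sum_boole]
  have h2 : EP (yy x : ℝ) (x ^ δ) * (zc x Z e : ℝ) = ∑ m ∈ Z, EP 0 (x ^ δ) * Mm (yy x) (m + e) := by
    unfold zc
    rw [Finset.sum_congr rfl (fun m _ => UFF_b x δ (m + e) hw), ← Finset.mul_sum, Finset.sum_boole]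
  have h3 : ((zr x δ Z e : ℝ) - EP (yy x : ℝ) (x ^ δ) * (zc x Z e : ℝ)) -
      EP 0 (x ^ δ) * ∑ m ∈ Zs x S Z, (rgh x δ (m + e) - Mm (yy x) (m + e)) =
      ∑ m ∈ Z \ Zs x S Z, EP 0 (x ^ δ) * (rgh x δ (m + e) - Mm (yy x) (m + e)) := by
    rw [h1, h2, ← Finset.sum_sub_distrib, ← Finset.sum_sdiff hsub, Finset.mul_sum]
    have h4 : ∀ T : Finset ℤ, ∑ m ∈ T, (EP 0 (x ^ δ) * rgh x δ (m + e) - EP 0 (x ^ δ) * Mm (yy x) (m + e)) =
        ∑ m ∈ T, EP 0 (x ^ δ) * (rgh x δ (m + e) - Mm (yy x) (m + e)) := by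
      intro T
      apply Finset.sum_congr rfl
      intro m _
      ring
    rw [h4, h4]
    ring
  rw [h3]
  calc |∑ m ∈ Z \ Zs x S Z, EP 0 (x ^ δ) * (rgh x δ (m + e) - Mm (yy x) (m + e))|
      ≤ ∑ m ∈ Z \ Zs x S Z, |EP 0 (x ^ δ) * (rgh x δ (m + e) - Mm (yy x) (m + e))| :=
        Finset.abs_sum_le_sum_abs _ _
    _ ≤ ∑ m ∈ Z \ Zs x S Z, (1 : ℝ) := by
        apply Finset.sum_le_sum
        intro m _
        rw [mul_sub, UFF_a, UFF_b _ _ _ hw]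
        have h5 := EP_pos (yy x : ℝ) (x ^ δ)
        have h6 := EP_le_one (yy x : ℝ) (x ^ δ)
        rw [abs_le]
        split_ifs <;> constructor <;> linarith
    _ = _ := by simp

private theorem UFF_large (δ c ε : ℝ) (k : ℕ) (hd : 0 < δ) (hc : 0 < c) (hε : 0 < ε) : ∃ X : ℝ, ∀ x : ℝ, X ≤ x →
    1 ≤ x ∧ 1 ≤ Real.log x ∧ (yy x : ℝ) ≤ x ^ δ ∧ 2 ≤ x ^ δ ∧
    (k : ℝ) * (x ^ (1 / 4 : ℝ) + 1) * (Real.log x) ^ (k + 1) ≤ c * (ε * x) := by
  have h1 : ∀ᶠ x : ℝ in Filter.atTop, 1 ≤ x := Filter.eventually_ge_atTop 1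
  have h2 : ∀ᶠ x : ℝ in Filter.atTop, 1 ≤ Real.log x := Real.tendsto_log_atTop.eventually_ge_atTop 1
  have h4 : ∀ᶠ t : ℝ in Filter.atTop, ‖Real.log t‖ ≤ δ * ‖id t‖ := Real.isLittleO_log_id_atTop.bound hd
  have h5 : ∀ᶠ x : ℝ in Filter.atTop, ‖Real.log (Real.log x)‖ ≤ δ * ‖id (Real.log x)‖ :=
    Real.tendsto_log_atTop.eventually h4
  have h6 : ∀ᶠ x : ℝ in Filter.atTop, 2 ≤ x ^ δ := (tendsto_rpow_atTop hd).eventually_ge_atTop 2
  have hη : (0 : ℝ) < c * ε / (2 * ((k : ℝ) + 1)) := by positivity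
  have h7 := (isLittleO_log_rpow_rpow_atTop ((k + 1 : ℕ) : ℝ) (show (0 : ℝ) < 1 / 2 by norm_num)).bound hη
  obtain ⟨X, hX⟩ := Filter.eventually_atTop.1 (h1.and (h2.and (h5.and (h6.and h7))))
  refine ⟨X, fun x hx => ?_⟩
  obtain ⟨a1, a2, a4, a5, a6⟩ := hX x hx
  have hx0 : 0 < x := by linarith
  refine ⟨a1, a2, ?_, a5, ?_⟩
  · have hl : 0 ≤ Real.log (Real.log x) := Real.log_nonneg a2
    have b1 : (yy x : ℝ) ≤ Real.log (Real.log x) / 100 := Nat.floor_le (by positivity)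
    rw [Real.norm_of_nonneg hl, id, Real.norm_of_nonneg (by linarith : (0 : ℝ) ≤ Real.log x)] at a4
    have b2 : x ^ δ = Real.exp (Real.log x * δ) := Real.rpow_def_of_pos hx0 δ
    have b3 := Real.add_one_le_exp (Real.log x * δ)
    have b4 : Real.log (Real.log x) / 100 ≤ Real.log (Real.log x) := by linarith
    rw [b2]
    nlinarith
  · rw [Real.rpow_natCast, Real.norm_of_nonneg (by positivity), Real.norm_of_nonneg (by positivity)] at a6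
    have b1 : (1 : ℝ) ≤ x ^ (1 / 4 : ℝ) := Real.one_le_rpow a1 (by norm_num)
    have b2 : x ^ (1 / 4 : ℝ) * x ^ (1 / 2 : ℝ) ≤ x := by
      rw [← Real.rpow_add hx0]
      calc x ^ (1 / 4 + 1 / 2 : ℝ) ≤ x ^ (1 : ℝ) := Real.rpow_le_rpow_of_exponent_le a1 (by norm_num)
        _ = x := Real.rpow_one x
    have hk0 : (0 : ℝ) ≤ k := Nat.cast_nonneg k
    calc (k : ℝ) * (x ^ (1 / 4 : ℝ) + 1) * (Real.log x) ^ (k + 1)
        ≤ ((k : ℝ) + 1) * (2 * x ^ (1 / 4 : ℝ)) * (c * ε / (2 * ((k : ℝ) + 1)) * x ^ (1 / 2 : ℝ)) := by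
          apply mul_le_mul _ a6 (by positivity) (by positivity)
          apply mul_le_mul (by linarith) (by linarith) (by positivity) (by positivity)
      _ = c * ε * (x ^ (1 / 4 : ℝ) * x ^ (1 / 2 : ℝ)) := by
          field_simp
      _ ≤ c * ε * x := mul_le_mul_of_nonneg_left b2 (by positivity)
      _ = _ := by ring

/-- one of the two signs -/
private theorem UFF_one (k : ℕ) (ε : ℝ) (hε : 0 < ε) (δ c K x : ℝ) (hδ : 0 < δ) (hc : 0 < c) (hK : 1 ≤ K)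
    (a1 : 1 ≤ x) (a2 : 1 ≤ Real.log x) (a3 : (yy x : ℝ) ≤ x ^ δ) (a4 : 2 ≤ x ^ δ)
    (a5 : (k : ℝ) * (x ^ (1 / 4 : ℝ) + 1) * (Real.log x) ^ (k + 1) ≤ c * (ε / 8 * x))
    (u v : ℤ) (S Z S' : Finset ℤ) (G : ℤ → ℝ) (E : Finset ℤ) (s : ℝ) (hs : |s| = 1)
    (hS' : S' ⊆ Finset.Icc 1 (⌊(Real.log x) ^ 2⌋₊ : ℤ)) (hSc : S'.card = k)
    (hG0 : ∀ n, 0 ≤ G n) (hG1 : ∀ n, G n ≤ ∏ c ∈ S', La x (n - c))
    (hG2 : ∀ f : ℤ → ℝ, ∀ e : ℤ, Wnd x u e → ∑ n ∈ JJ x ⌊(Real.log x) ^ 2⌋₊, G (n : ℤ) * f ((n : ℤ) - (v - e)) =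
        (Real.log x) ^ k * ∑ m ∈ Zs x S Z, f (m + e))
    (hE : ∀ e : ℤ, Wnd x u e → e ∉ S → sing (insert e S) ≠ 0 →
        v - e ∈ Finset.Icc 1 (⌊(Real.log x) ^ 2⌋₊ : ℤ) \ S' ∧ adm (insert (v - e) S') ∧
        c ≤ sW x (insert (v - e) S') ∧ (1 - 1 / 2) * sW x (insert (v - e) S') ≤ sing (insert e S) ∧
        sing (insert e S) ≤ (1 + 1 / 2) * sW x (insert (v - e) S'))
    (hZ : (((Z \ Zs x S Z).card : ℕ) : ℝ) ≤ k * (x ^ (1 / 4 : ℝ) + 1))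
    (hU : ∀ E : Finset ℤ, E ⊆ Finset.Icc 1 (⌊(Real.log x) ^ 2⌋₊ : ℤ) \ S' → K * Real.log x ≤ (E.card : ℝ) →
      (∀ e ∈ E, adm (insert e S')) →
      |∑ e ∈ E, ∑ n ∈ JJ x ⌊(Real.log x) ^ 2⌋₊, G (n : ℤ) * (rgh x δ ((n : ℤ) - e) - Mm (yy x) ((n : ℤ) - e))| ≤
        ε / 16 * δ * ((⌊x⌋₊ : ℝ) + 1) * ∑ e ∈ E, sW x (insert e S'))
    (hEE : ∀ e ∈ E, Wnd x u e ∧ e ∉ S ∧ sing (insert e S) ≠ 0 ∧
      ε * (sing (insert e S) * x / (Real.log x) ^ (k + 1)) <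
        s * ((zr x δ Z e : ℝ) - EP (yy x : ℝ) (x ^ δ) * (zc x Z e : ℝ))) :
    (E.card : ℝ) < K * Real.log x := by
  by_contra hcon
  push Not at hcon
  set L := Real.log x with hL
  have hL0 : 0 < L := by linarith
  have hx0 : 0 < x := by linarith
  have hcardpos : 0 < (E.card : ℝ) := by
    have : 0 < K * L := by positivity
    linarith
  -- the image of `E`
  have hinj : Function.Injective (fun e : ℤ => v - e) := fun a b hab => by
    have : v - a = v - b := hab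
    linarith
  have hcardE : (E.image (fun e => v - e)).card = E.card := Finset.card_image_of_injective E hinj
  have h1 := hU (E.image (fun e => v - e)) (by
      intro t ht
      obtain ⟨e, he, rfl⟩ := Finset.mem_image.1 ht
      exact (hE e (hEE e he).1 (hEE e he).2.1 (hEE e he).2.2.1).1) (by rw [hcardE]; exact hcon) (by
      intro t ht
      obtain ⟨e, he, rfl⟩ := Finset.mem_image.1 ht
      exact (hE e (hEE e he).1 (hEE e he).2.1 (hEE e he).2.2.1).2.1)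
  rw [Finset.sum_image (fun a _ b _ hab => hinj hab), Finset.sum_image (fun a _ b _ hab => hinj hab)] at h1
  have h2 : ∑ e ∈ E, ∑ n ∈ JJ x ⌊L ^ 2⌋₊, G (n : ℤ) * (rgh x δ ((n : ℤ) - (v - e)) - Mm (yy x) ((n : ℤ) - (v - e))) =
      L ^ k * ∑ e ∈ E, ∑ m ∈ Zs x S Z, (rgh x δ (m + e) - Mm (yy x) (m + e)) := by
    rw [Finset.mul_sum]
    apply Finset.sum_congr rfl
    intro e he
    exact hG2 (fun n => rgh x δ n - Mm (yy x) n) e (hEE e he).1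
  rw [h2] at h1
  set T : ℝ := ∑ e ∈ E, sW x (insert (v - e) S') with hT
  set A : ℝ := ∑ e ∈ E, ∑ m ∈ Zs x S Z, (rgh x δ (m + e) - Mm (yy x) (m + e)) with hA
  have hTc : c * (E.card : ℝ) ≤ T := by
    calc c * (E.card : ℝ) = ∑ e ∈ E, c := by rw [Finset.sum_const, nsmul_eq_mul, mul_comm]
      _ ≤ T := Finset.sum_le_sum (fun e he => (hE e (hEE e he).1 (hEE e he).2.1 (hEE e he).2.2.1).2.2.1)
  have hT0 : 0 < T := lt_of_lt_of_le (by positivity) hTc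
  have hLk : 0 < L ^ k := by positivity
  -- lower bound
  have h3 : ε * x / L ^ (k + 1) * (T / 2) ≤ ∑ e ∈ E, s * ((zr x δ Z e : ℝ) - EP (yy x : ℝ) (x ^ δ) * (zc x Z e : ℝ)) := by
    have e1 : ε * x / L ^ (k + 1) * (T / 2) = ∑ e ∈ E, ε * ((1 - 1 / 2) * sW x (insert (v - e) S') * x / L ^ (k + 1)) := by
      rw [hT, Finset.sum_div, Finset.mul_sum]
      apply Finset.sum_congr rfl
      intro e _
      ring
    rw [e1]
    apply Finset.sum_le_sum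
    intro e he
    obtain ⟨b1, b2, b3, b4⟩ := hEE e he
    refine le_trans ?_ b4.le
    apply mul_le_mul_of_nonneg_left _ hε.le
    apply div_le_div_of_nonneg_right _ (by positivity)
    exact mul_le_mul_of_nonneg_right (hE e b1 b2 b3).2.2.2.1 hx0.le
  -- upper bound
  have h4 : ∑ e ∈ E, s * ((zr x δ Z e : ℝ) - EP (yy x : ℝ) (x ^ δ) * (zc x Z e : ℝ)) ≤
      EP 0 (x ^ δ) * |A| + (E.card : ℝ) * (k * (x ^ (1 / 4 : ℝ) + 1)) := by
    have e1 : ∀ e ∈ E, s * ((zr x δ Z e : ℝ) - EP (yy x : ℝ) (x ^ δ) * (zc x Z e : ℝ)) ≤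
        s * (EP 0 (x ^ δ) * ∑ m ∈ Zs x S Z, (rgh x δ (m + e) - Mm (yy x) (m + e))) +
          (k * (x ^ (1 / 4 : ℝ) + 1)) := by
      intro e _
      have g1 := (UFF_dec x δ S Z e a3).trans hZ
      have g2 : s * (((zr x δ Z e : ℝ) - EP (yy x : ℝ) (x ^ δ) * (zc x Z e : ℝ)) -
          EP 0 (x ^ δ) * ∑ m ∈ Zs x S Z, (rgh x δ (m + e) - Mm (yy x) (m + e))) ≤ (k * (x ^ (1 / 4 : ℝ) + 1)) := by
        refine (le_abs_self _).trans ?_
        rw [abs_mul, hs, one_mul]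
        exact g1
      have g3 : s * (((zr x δ Z e : ℝ) - EP (yy x : ℝ) (x ^ δ) * (zc x Z e : ℝ)) -
          EP 0 (x ^ δ) * ∑ m ∈ Zs x S Z, (rgh x δ (m + e) - Mm (yy x) (m + e))) =
          s * ((zr x δ Z e : ℝ) - EP (yy x : ℝ) (x ^ δ) * (zc x Z e : ℝ)) -
          s * (EP 0 (x ^ δ) * ∑ m ∈ Zs x S Z, (rgh x δ (m + e) - Mm (yy x) (m + e))) := by ring
      linarith
    refine (Finset.sum_le_sum e1).trans ?_
    rw [Finset.sum_add_distrib, Finset.sum_const, nsmul_eq_mul, ← Finset.mul_sum, ← Finset.mul_sum]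
    apply add_le_add _ le_rfl
    refine (le_abs_self _).trans ?_
    rw [abs_mul, hs, one_mul, abs_mul, abs_of_pos (EP_pos _ _)]
  have h5 : EP 0 (x ^ δ) ≤ 1 / (δ * L) := by
    have := mer3 (x ^ δ) a4
    rwa [Real.log_rpow hx0] at this
  have h6 : L ^ k * |A| ≤ ε / 16 * δ * ((⌊x⌋₊ : ℝ) + 1) * T := by
    rw [abs_mul, abs_of_pos hLk] at h1
    exact h1
  have hN : ((⌊x⌋₊ : ℝ) + 1) ≤ 2 * x := by
    have := Nat.floor_le hx0.le
    linarith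
  have h7 : L ^ (k + 1) * (EP 0 (x ^ δ) * |A|) ≤ ε / 8 * x * T := by
    have hA0 := abs_nonneg A
    calc L ^ (k + 1) * (EP 0 (x ^ δ) * |A|) ≤ L ^ (k + 1) * (1 / (δ * L) * |A|) := by
          apply mul_le_mul_of_nonneg_left _ (by positivity)
          exact mul_le_mul_of_nonneg_right h5 hA0
      _ = (L ^ k * |A|) / δ := by
          rw [pow_succ]
          field_simp
      _ ≤ (ε / 16 * δ * ((⌊x⌋₊ : ℝ) + 1) * T) / δ := div_le_div_of_nonneg_right h6 hδ.le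
      _ = ε / 16 * T * ((⌊x⌋₊ : ℝ) + 1) := by
          field_simp
      _ ≤ ε / 16 * T * (2 * x) := mul_le_mul_of_nonneg_left hN (by positivity)
      _ = _ := by ring
  have h8 : L ^ (k + 1) * ((E.card : ℝ) * (k * (x ^ (1 / 4 : ℝ) + 1))) ≤ ε / 8 * x * T := by
    calc L ^ (k + 1) * ((E.card : ℝ) * (k * (x ^ (1 / 4 : ℝ) + 1)))
        = (E.card : ℝ) * (k * (x ^ (1 / 4 : ℝ) + 1) * L ^ (k + 1)) := by ring
      _ ≤ (E.card : ℝ) * (c * (ε / 8 * x)) := mul_le_mul_of_nonneg_left a5 hcardpos.le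
      _ = ε / 8 * x * (c * (E.card : ℝ)) := by ring
      _ ≤ ε / 8 * x * T := mul_le_mul_of_nonneg_left hTc (by positivity)
  have h9 : ε * x * (T / 2) = L ^ (k + 1) * (ε * x / L ^ (k + 1) * (T / 2)) := by
    have : L ^ (k + 1) ≠ 0 := by positivity
    field_simp
  have h10 : ε * x * (T / 2) ≤ ε / 8 * x * T + ε / 8 * x * T := by
    rw [h9]
    calc L ^ (k + 1) * (ε * x / L ^ (k + 1) * (T / 2)) ≤
        L ^ (k + 1) * (EP 0 (x ^ δ) * |A| + (E.card : ℝ) * (k * (x ^ (1 / 4 : ℝ) + 1))) :=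
          mul_le_mul_of_nonneg_left (h3.trans h4) (by positivity)
      _ ≤ _ := by
          rw [mul_add]
          exact add_le_add h7 h8
  have h11 : 0 < ε * x * T := by positivity
  nlinarith

theorem UFF (k : ℕ) (hk : 1 ≤ k) (ε : ℝ) (hε : 0 < ε) : ∃ δ K X : ℝ, 0 < δ ∧ ∀ x : ℝ, X ≤ x → ∀ u : ℤ,
    ∀ S : Finset ℤ, (∀ e ∈ S, Wnd x u e) → S.card = k → ∀ Z : Finset ℤ, Tup x S Z →
    ∀ E : Finset ℤ, (∀ e ∈ E, Wnd x u e ∧ e ∉ S ∧ sing (insert e S) ≠ 0 ∧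
      ε * (sing (insert e S) * x / (Real.log x) ^ (k + 1)) <
        |(zr x δ Z e : ℝ) - EP (yy x : ℝ) (x ^ δ) * (zc x Z e : ℝ)|) → (E.card : ℝ) ≤ K * Real.log x := by
  obtain ⟨c, X₁, hc, hT⟩ := UTR k hk (1 / 2) (by norm_num)
  obtain ⟨δ, hδ, _, K, X₂, hK, hW⟩ := UWF k (ε / 16) (by positivity)
  obtain ⟨X₃, hX₃⟩ := UFF_large δ c (ε / 8) k hδ hc (by positivity)
  refine ⟨δ, 2 * K, max X₁ (max X₂ X₃), hδ, ?_⟩
  intro x hx u S hS hSk Z hZ E hE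
  obtain ⟨a1, a2, a3, a4, a5⟩ := hX₃ x (((le_max_right _ _).trans (le_max_right _ _)).trans hx)
  obtain ⟨v, S', G, b1, b2, b3, b4, b5, b6, b7⟩ := hT x ((le_max_left _ _).trans hx) u S hS hSk Z hZ
  have hU := hW x (((le_max_left _ _).trans (le_max_right _ _)).trans hx) ⌊(Real.log x) ^ 2⌋₊
    (Nat.floor_le (by positivity)) S' b1 b2 G b3 b4
  classical
  set D : ℤ → ℝ := fun e => (zr x δ Z e : ℝ) - EP (yy x : ℝ) (x ^ δ) * (zc x Z e : ℝ) with hD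
  have c1 := UFF_one k ε hε δ c K x hδ hc hK a1 a2 a3 a4 a5 u v S Z S' G (E.filter (fun e => 0 < D e)) 1 (by norm_num)
    b1 b2 b3 b4 b5 b6 b7 hU (by
      intro e he
      rw [Finset.mem_filter] at he
      obtain ⟨g1, g2, g3, g4⟩ := hE e he.1
      refine ⟨g1, g2, g3, ?_⟩
      have g5 : |D e| = D e := abs_of_pos he.2
      rw [one_mul]
      calc _ < |D e| := g4
        _ = D e := g5)
  have c2 := UFF_one k ε hε δ c K x hδ hc hK a1 a2 a3 a4 a5 u v S Z S' G (E.filter (fun e => ¬ 0 < D e)) (-1) (by norm_num)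
    b1 b2 b3 b4 b5 b6 b7 hU (by
      intro e he
      rw [Finset.mem_filter] at he
      obtain ⟨g1, g2, g3, g4⟩ := hE e he.1
      refine ⟨g1, g2, g3, ?_⟩
      have g5 : |D e| = -D e := abs_of_nonpos (not_lt.1 he.2)
      calc _ < |D e| := g4
        _ = -D e := g5
        _ = _ := by rw [hD]; ring)
  have c3 : ((E.filter (fun e => 0 < D e)).card : ℝ) + ((E.filter (fun e => ¬ 0 < D e)).card : ℝ) = (E.card : ℝ) := by
    exact_mod_cast Finset.card_filter_add_card_filter_not (s := E) (fun e => 0 < D e)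
  rw [← c3]
  linarith

end Pool.Agent.H96.FL
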