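import Pool.Agent.H96.FL.Df

/-!
# GFXa: the weight as a divisor sum

`S ⊆ S'` sets of primes, `|r T| ≤ 1` and `r T = 0` for `∏T > R`. For `A ⊆ S'` let `b A = ∑_{T ∪ U = A, T, U ⊆ S} r T r U`: `|b A| ≤ 4^|A|`, `b A = 0` if `∏A > R²` (`∏ (T ∪ U) ≤ ∏T ∏U`) and `pf S r n ^ 2 = pf S' b n` (`RHO_lam`, `RHO_sq`, `RHO_lam_le` in `Pool/Agent/H6/MB/RHO.lean`, private: copy). `f A = b A - κ ∑_{p∈A} (b A + b (A \ {p}))`:
`omS S' n * 1[A ∣ n] = |A| 1[A ∣ n] + ∑_{p ∈ S' \ A} 1[A ∪ {p} ∣ n]`, so `pf S' b n * omS S' n = ∑_B (|B| b B + ∑_{p∈B} b (B \ {p})) 1[B ∣ n]`. `|f A| ≤ 4^|A| (1 + 5|A|/4) ≤ 9^|A|` (Bernoulli), `f A = 0` for `∏A > R² y`.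
-/

set_option autoImplicit false

namespace Pool.Agent.H96.FL

open Finset Pool.Agent.H17 Pool.Agent.H6.MF Pool.Agent.H6.MB

/-- the indicator of divisibility by all elements -/
private noncomputable def GFXa_i (A : Finset ℕ) (n : ℤ) : ℝ := if ∀ p ∈ A, (p : ℤ) ∣ n then 1 else 0

/-- the coefficients of the square -/
private noncomputable def GFXa_b (S : Finset ℕ) (r : Finset ℕ → ℝ) (A : Finset ℕ) : ℝ :=
  ∑ q ∈ (S.powerset ×ˢ S.powerset).filter (fun q => q.1 ∪ q.2 = A), r q.1 * r q.2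

private lemma GFXa_pf (S : Finset ℕ) (c : Finset ℕ → ℝ) (n : ℤ) :
    pf S c n = ∑ T ∈ S.powerset, c T * GFXa_i T n := rfl

private lemma GFXa_i_union (A B : Finset ℕ) (n : ℤ) : GFXa_i (A ∪ B) n = GFXa_i A n * GFXa_i B n := by
  unfold GFXa_i
  by_cases h1 : ∀ p ∈ A, (p : ℤ) ∣ n
  · by_cases h2 : ∀ p ∈ B, (p : ℤ) ∣ n
    · rw [if_pos h1, if_pos h2, if_pos, one_mul]
      intro p hp
      rcases Finset.mem_union.mp hp with h | h
      · exact h1 p h
      · exact h2 p h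
    · rw [if_neg h2, if_neg, mul_zero]
      intro h
      exact h2 (fun p hp => h p (Finset.mem_union_right _ hp))
  · rw [if_neg h1, if_neg, zero_mul]
    intro h
    exact h1 (fun p hp => h p (Finset.mem_union_left _ hp))

private lemma GFXa_sq (S : Finset ℕ) (r : Finset ℕ → ℝ) (n : ℤ) :
    pf S r n ^ 2 = ∑ A ∈ S.powerset, GFXa_b S r A * GFXa_i A n := by
  have h1 : ∀ A ∈ S.powerset, GFXa_b S r A * GFXa_i A n
      = ∑ q ∈ (S.powerset ×ˢ S.powerset).filter (fun q => q.1 ∪ q.2 = A),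
        r q.1 * r q.2 * GFXa_i (q.1 ∪ q.2) n := by
    intro A _
    unfold GFXa_b
    rw [Finset.sum_mul]
    apply Finset.sum_congr rfl
    intro q hq
    rw [Finset.mem_filter] at hq
    rw [hq.2]
  rw [Finset.sum_congr rfl h1, Finset.sum_fiberwise_of_maps_to]
  · rw [GFXa_pf, sq, Finset.sum_mul_sum, ← Finset.sum_product']
    apply Finset.sum_congr rfl
    intro q hq
    rw [GFXa_i_union]
    ring
  · intro q hq
    rw [Finset.mem_product, Finset.mem_powerset, Finset.mem_powerset] at hq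
    rw [Finset.mem_powerset]
    exact Finset.union_subset hq.1 hq.2

private lemma GFXa_b_out {S A : Finset ℕ} (r : Finset ℕ → ℝ) (h : ¬ A ⊆ S) : GFXa_b S r A = 0 := by
  unfold GFXa_b
  apply Finset.sum_eq_zero
  intro q hq
  rw [Finset.mem_filter, Finset.mem_product, Finset.mem_powerset, Finset.mem_powerset] at hq
  exfalso
  apply h
  rw [← hq.2]
  exact Finset.union_subset hq.1.1 hq.1.2

private lemma GFXa_sq' {S S' : Finset ℕ} (hSS : S ⊆ S') (r : Finset ℕ → ℝ) (n : ℤ) :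
    pf S r n ^ 2 = ∑ A ∈ S'.powerset, GFXa_b S r A * GFXa_i A n := by
  rw [GFXa_sq]
  apply Finset.sum_subset (Finset.powerset_mono.mpr hSS)
  intro A _ hA
  rw [Finset.mem_powerset] at hA
  rw [GFXa_b_out r hA, zero_mul]

private lemma GFXa_b_le {S : Finset ℕ} {r : Finset ℕ → ℝ} (h1 : ∀ T, T ⊆ S → |r T| ≤ 1) (A : Finset ℕ) :
    |GFXa_b S r A| ≤ 4 ^ A.card := by
  unfold GFXa_b
  calc |∑ q ∈ (S.powerset ×ˢ S.powerset).filter (fun q => q.1 ∪ q.2 = A), r q.1 * r q.2|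
      ≤ ∑ q ∈ (S.powerset ×ˢ S.powerset).filter (fun q => q.1 ∪ q.2 = A), |r q.1 * r q.2| :=
        Finset.abs_sum_le_sum_abs _ _
    _ ≤ ∑ q ∈ (S.powerset ×ˢ S.powerset).filter (fun q => q.1 ∪ q.2 = A), (1 : ℝ) := by
        apply Finset.sum_le_sum
        intro q hq
        rw [Finset.mem_filter, Finset.mem_product, Finset.mem_powerset, Finset.mem_powerset] at hq
        rw [abs_mul]
        exact mul_le_one₀ (h1 _ hq.1.1) (abs_nonneg _) (h1 _ hq.1.2)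
    _ ≤ ∑ q ∈ A.powerset ×ˢ A.powerset, (1 : ℝ) := by
        apply Finset.sum_le_sum_of_subset_of_nonneg
        · intro q hq
          rw [Finset.mem_filter] at hq
          rw [Finset.mem_product, Finset.mem_powerset, Finset.mem_powerset, ← hq.2]
          exact ⟨Finset.subset_union_left, Finset.subset_union_right⟩
        · intro _ _ _; norm_num
    _ = _ := by
        simp only [Finset.sum_const, Finset.card_product, Finset.card_powerset, nsmul_eq_mul, mul_one]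
        push_cast
        rw [← mul_pow]
        norm_num

private lemma GFXa_b_zero {S A : Finset ℕ} (hS : ∀ p ∈ S, p.Prime) {r : Finset ℕ → ℝ} {R : ℝ}
    (hr0 : ∀ T : Finset ℕ, T ⊆ S → R < ∏ p ∈ T, (p : ℝ) → r T = 0)
    (hA : R ^ 2 < ∏ p ∈ A, (p : ℝ)) : GFXa_b S r A = 0 := by
  unfold GFXa_b
  apply Finset.sum_eq_zero
  intro q hq
  rw [Finset.mem_filter, Finset.mem_product, Finset.mem_powerset, Finset.mem_powerset] at hq
  obtain ⟨⟨h1, h2⟩, h3⟩ := hq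
  have hp1 : ∀ T : Finset ℕ, T ⊆ S → 1 ≤ ∏ p ∈ T, (p : ℝ) := by
    intro T hT
    have := Finset.prod_le_prod (s := T) (f := fun _ => (1 : ℝ)) (g := fun p : ℕ => (p : ℝ))
      (fun _ _ => zero_le_one) (fun p hp => by exact_mod_cast (hS p (hT hp)).one_le)
    simpa using this
  by_cases h4 : R < ∏ p ∈ q.1, (p : ℝ)
  · rw [hr0 _ h1 h4, zero_mul]
  by_cases h5 : R < ∏ p ∈ q.2, (p : ℝ)
  · rw [hr0 _ h2 h5, mul_zero]
  exfalso
  rw [not_lt] at h4 h5
  have h6 : ∏ p ∈ A, (p : ℝ) ≤ (∏ p ∈ q.1, (p : ℝ)) * ∏ p ∈ q.2, (p : ℝ) := by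
    rw [← h3, ← Finset.prod_union_inter]
    have h7 := hp1 (q.1 ∩ q.2) (Finset.inter_subset_left.trans h1)
    have h8 := hp1 (q.1 ∪ q.2) (Finset.union_subset h1 h2)
    nlinarith
  have h9 := hp1 q.1 h1
  have h10 := hp1 q.2 h2
  have : (∏ p ∈ q.1, (p : ℝ)) * ∏ p ∈ q.2, (p : ℝ) ≤ R ^ 2 := by
    rw [sq]
    exact mul_le_mul h4 h5 (by linarith) (by linarith)
  linarith

private lemma GFXa_om (S' : Finset ℕ) (n : ℤ) : (omS S' n : ℝ) = ∑ p ∈ S', GFXa_i {p} n := by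
  unfold omS GFXa_i
  rw [Finset.card_filter]
  push_cast
  apply Finset.sum_congr rfl
  intro p _
  simp

private lemma GFXa_one {S' A : Finset ℕ} (hA : A ⊆ S') (n : ℤ) :
    GFXa_i A n * (omS S' n : ℝ) = ∑ p ∈ A, GFXa_i A n + ∑ p ∈ S' \ A, GFXa_i (insert p A) n := by
  rw [GFXa_om, ← Finset.sum_sdiff hA, mul_add, add_comm]
  congr 1
  · rw [Finset.mul_sum]
    apply Finset.sum_congr rfl
    intro p hp
    rw [← GFXa_i_union]
    congr 1
    rw [Finset.union_eq_left]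
    simpa using hp
  · rw [Finset.mul_sum]
    apply Finset.sum_congr rfl
    intro p hp
    rw [← GFXa_i_union, Finset.union_comm]
    rfl

private lemma GFXa_swap (S' : Finset ℕ) (b : Finset ℕ → ℝ) (n : ℤ) :
    ∑ A ∈ S'.powerset, ∑ p ∈ S' \ A, b A * GFXa_i (insert p A) n
      = ∑ B ∈ S'.powerset, ∑ p ∈ B, b (B \ {p}) * GFXa_i B n := by
  rw [Finset.sum_sigma', Finset.sum_sigma']
  apply Finset.sum_bij' (fun (x : (_ : Finset ℕ) × ℕ) _ => (⟨insert x.2 x.1, x.2⟩ : (_ : Finset ℕ) × ℕ))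
    (fun (x : (_ : Finset ℕ) × ℕ) _ => (⟨x.1 \ {x.2}, x.2⟩ : (_ : Finset ℕ) × ℕ))
  · rintro ⟨A, p⟩ h
    simp only [Finset.mem_sigma, Finset.mem_powerset, Finset.mem_sdiff] at h ⊢
    exact ⟨Finset.insert_subset h.2.1 h.1, Finset.mem_insert_self _ _⟩
  · rintro ⟨B, p⟩ h
    simp only [Finset.mem_sigma, Finset.mem_powerset, Finset.mem_sdiff] at h ⊢
    exact ⟨Finset.sdiff_subset.trans h.1, h.1 h.2, by simp⟩
  · rintro ⟨A, p⟩ h
    simp only [Finset.mem_sigma, Finset.mem_powerset, Finset.mem_sdiff] at h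
    simp only [Sigma.mk.injEq, heq_eq_eq, and_true]
    rw [Finset.sdiff_singleton_eq_erase, Finset.erase_insert h.2.2]
  · rintro ⟨B, p⟩ h
    simp only [Finset.mem_sigma, Finset.mem_powerset, Finset.mem_sdiff] at h
    simp only [Sigma.mk.injEq, heq_eq_eq, and_true]
    rw [Finset.sdiff_singleton_eq_erase, Finset.insert_erase h.2]
  · rintro ⟨A, p⟩ h
    simp only [Finset.mem_sigma, Finset.mem_powerset, Finset.mem_sdiff] at h
    simp only
    congr 2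
    rw [Finset.sdiff_singleton_eq_erase, Finset.erase_insert h.2.2]

theorem GFX_coef (S S' : Finset ℕ) (hS' : ∀ p ∈ S', p.Prime) (hSS : S ⊆ S') (r : Finset ℕ → ℝ) (R y κ : ℝ)
    (hR : 1 ≤ R) (hy : 1 ≤ y) (hκ0 : 0 ≤ κ) (hκ1 : κ ≤ 1) (hyS : ∀ p ∈ S', (p : ℝ) ≤ y)
    (hr1 : ∀ T : Finset ℕ, T ⊆ S → |r T| ≤ 1) (hr0 : ∀ T : Finset ℕ, T ⊆ S → R < ∏ p ∈ T, (p : ℝ) → r T = 0) :
    ∃ f : Finset ℕ → ℝ, (∀ T : Finset ℕ, T ⊆ S' → |f T| ≤ 9 ^ T.card) ∧
      (∀ T : Finset ℕ, T ⊆ S' → R ^ 2 * y < ∏ p ∈ T, (p : ℝ) → f T = 0) ∧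
      ∀ n : ℤ, pf S r n ^ 2 * (1 - κ * omS S' n) = pf S' f n := by
  have hS : ∀ p ∈ S, p.Prime := fun p hp => hS' p (hSS hp)
  refine ⟨fun A => GFXa_b S r A - κ * ∑ p ∈ A, (GFXa_b S r A + GFXa_b S r (A \ {p})), ?_, ?_, ?_⟩
  · intro A hA
    have h1 := GFXa_b_le hr1 A
    have h2 : |∑ p ∈ A, (GFXa_b S r A + GFXa_b S r (A \ {p}))| ≤ A.card * (4 ^ A.card * (5 / 4)) := by
      calc |∑ p ∈ A, (GFXa_b S r A + GFXa_b S r (A \ {p}))|
          ≤ ∑ p ∈ A, |GFXa_b S r A + GFXa_b S r (A \ {p})| := Finset.abs_sum_le_sum_abs _ _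
        _ ≤ ∑ p ∈ A, (4 ^ A.card * (5 / 4) : ℝ) := by
            apply Finset.sum_le_sum
            intro p hp
            have h3 := GFXa_b_le hr1 (A \ {p})
            have h4 : (A \ {p}).card + 1 = A.card := by
              rw [Finset.sdiff_singleton_eq_erase, Finset.card_erase_add_one hp]
            have h5 : (4 : ℝ) ^ A.card = 4 ^ (A \ {p}).card * 4 := by rw [← h4, pow_succ]
            have h6 := abs_add_le (GFXa_b S r A) (GFXa_b S r (A \ {p}))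
            linarith
        _ = _ := by rw [Finset.sum_const, nsmul_eq_mul]
    have h3 : (0 : ℝ) < 4 ^ A.card := by positivity
    have h4 : |κ * ∑ p ∈ A, (GFXa_b S r A + GFXa_b S r (A \ {p}))| ≤ A.card * (4 ^ A.card * (5 / 4)) := by
      rw [abs_mul, abs_of_nonneg hκ0]
      calc κ * |∑ p ∈ A, (GFXa_b S r A + GFXa_b S r (A \ {p}))|
          ≤ 1 * |∑ p ∈ A, (GFXa_b S r A + GFXa_b S r (A \ {p}))| :=
            mul_le_mul_of_nonneg_right hκ1 (abs_nonneg _)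
        _ ≤ _ := by rw [one_mul]; exact h2
    have h5 : (1 : ℝ) + A.card * (5 / 4) ≤ (1 + 5 / 4) ^ A.card :=
      one_add_mul_le_pow (by norm_num) A.card
    have h6 : (9 : ℝ) ^ A.card = 4 ^ A.card * (1 + 5 / 4) ^ A.card := by
      rw [← mul_pow]; norm_num
    have h7 := abs_sub (GFXa_b S r A) (κ * ∑ p ∈ A, (GFXa_b S r A + GFXa_b S r (A \ {p})))
    show |GFXa_b S r A - κ * ∑ p ∈ A, (GFXa_b S r A + GFXa_b S r (A \ {p}))| ≤ 9 ^ A.card
    rw [h6]
    nlinarith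
  · intro A hA h
    have hR2 : (0 : ℝ) < R ^ 2 := by positivity
    have h1 : GFXa_b S r A = 0 := by
      apply GFXa_b_zero hS hr0
      nlinarith
    have h2 : ∀ p ∈ A, GFXa_b S r (A \ {p}) = 0 := by
      intro p hp
      apply GFXa_b_zero hS hr0
      have h3 : ∏ q ∈ A, (q : ℝ) = p * ∏ q ∈ A \ {p}, (q : ℝ) := by
        rw [Finset.sdiff_singleton_eq_erase, Finset.mul_prod_erase A (fun q : ℕ => (q : ℝ)) hp]
      rw [h3] at h
      have h4 := hyS p (hA hp)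
      have h5 : (0 : ℝ) < p := by exact_mod_cast (hS' p (hA hp)).pos
      have h6 : (0 : ℝ) < ∏ q ∈ A \ {p}, (q : ℝ) :=
        Finset.prod_pos (fun q hq => by exact_mod_cast (hS' q (hA (Finset.mem_sdiff.mp hq).1)).pos)
      by_contra h7
      rw [not_lt] at h7
      have h8 : (p : ℝ) * ∏ q ∈ A \ {p}, (q : ℝ) ≤ y * R ^ 2 := mul_le_mul h4 h7 h6.le (by linarith)
      linarith
    show GFXa_b S r A - κ * ∑ p ∈ A, (GFXa_b S r A + GFXa_b S r (A \ {p})) = 0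
    rw [Finset.sum_eq_zero (fun p hp => by rw [h1, h2 p hp, add_zero]), h1]
    ring
  · intro n
    rw [GFXa_sq' hSS, GFXa_pf, mul_sub, mul_one]
    have h1 : (∑ A ∈ S'.powerset, GFXa_b S r A * GFXa_i A n) * (omS S' n : ℝ)
        = ∑ A ∈ S'.powerset, (∑ p ∈ A, (GFXa_b S r A + GFXa_b S r (A \ {p}))) * GFXa_i A n := by
      have h2 : ∀ A ∈ S'.powerset, GFXa_b S r A * GFXa_i A n * (omS S' n : ℝ)
          = ∑ p ∈ A, GFXa_b S r A * GFXa_i A n + ∑ p ∈ S' \ A, GFXa_b S r A * GFXa_i (insert p A) n := by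
        intro A hA
        rw [Finset.mem_powerset] at hA
        rw [mul_assoc, GFXa_one hA, mul_add, Finset.mul_sum, Finset.mul_sum]
      rw [Finset.sum_mul, Finset.sum_congr rfl h2, Finset.sum_add_distrib, GFXa_swap, ← Finset.sum_add_distrib]
      apply Finset.sum_congr rfl
      intro A _
      rw [← Finset.sum_add_distrib, Finset.sum_mul]
      apply Finset.sum_congr rfl
      intro p _
      ring
    rw [show (∑ A ∈ S'.powerset, GFXa_b S r A * GFXa_i A n) * (κ * (omS S' n : ℝ))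
      = κ * ((∑ A ∈ S'.powerset, GFXa_b S r A * GFXa_i A n) * (omS S' n : ℝ)) by ring, h1,
      Finset.mul_sum, ← Finset.sum_sub_distrib]
    apply Finset.sum_congr rfl
    intro A _
    ring

end Pool.Agent.H96.FL
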