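import Pool.Agent.H96.FL.SELb
import Pool.Agent.H6.MB.MAJ

/-!
# GFXb: averages of Selberg's weight

`1 ≤ z ≤ R ≤ y`, `S = PI z R`, `PR z y = PR z R * PR R y` (coprime, `MAJ_cop`; `PI z y` is the disjoint union of `PI z R` and `PI R y`), `f = pf S (sr S R)` has period `PR z R`.
* `GFXb1`: `avg_mul` with the function `1` and `SEL_avg`.
* `GFXb2`: `omS (PI z y) n = ∑_{p ∈ PI z y} 1[p ∣ n]`. For `p ∈ S`: `avg (f² 1[p ∣ n]) ≤ (1/p) G⁻² sH S (R/p) R` (`SEL_p`, `avg_mul` with `1`); for `p ∈ PI R y`: `avg_mul`: `avg f² * avg 1[p ∣ n] = G⁻¹/p` (the average of `1[p ∣ n]` over a period `PR R y` is `1/p`).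
-/

set_option autoImplicit false

namespace Pool.Agent.H96.FL

open Finset Pool.Agent.H17 Pool.Agent.H6.MF Pool.Agent.H6.MB

theorem GFXb_per (S : Finset ℕ) (c : Finset ℕ → ℝ) (P : ℕ) (h : ∀ p ∈ S, p ∣ P) (n k : ℤ) :
    pf S c (n + k * P) = pf S c n := by
  unfold pf
  refine Finset.sum_congr rfl fun T hT => ?_
  rw [Finset.mem_powerset] at hT
  congr 1
  have : (∀ p ∈ T, (p : ℤ) ∣ n + k * P) ↔ ∀ p ∈ T, (p : ℤ) ∣ n := by
    refine forall₂_congr fun p hp => ?_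
    have : (p : ℤ) ∣ k * P := (Int.natCast_dvd_natCast.mpr (h p (hT hp))).mul_left k
    exact dvd_add_left this
  simp only [this]

theorem GFXb_cnt (p q : ℕ) (hp : 0 < p) :
    ∑ m ∈ Finset.range (p * q), (if (p : ℤ) ∣ (m : ℤ) then (1 : ℝ) else 0) = q := by
  induction q with
  | zero => simp
  | succ q ih =>
    rw [Nat.mul_succ, Finset.sum_range_add, ih, Finset.sum_eq_single 0]
    · simp
    · intro j hj hj0
      rw [if_neg]
      intro hd
      have h1 : (p : ℤ) ∣ (j : ℤ) := by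
        have h2 : (p : ℤ) ∣ ((p * q : ℕ) : ℤ) := by
          push_cast
          exact Dvd.intro _ rfl
        rw [Nat.cast_add] at hd
        exact (dvd_add_right h2).1 hd
      have h3 : p ∣ j := by exact_mod_cast h1
      exact absurd (Nat.le_of_dvd (Nat.pos_of_ne_zero hj0) h3) (not_le.2 (Finset.mem_range.1 hj))
    · intro h
      exact absurd (Finset.mem_range.2 hp) h

theorem GFXb_avg1 (p Q : ℕ) (hp : 0 < p) (hQ : 0 < Q) (h : p ∣ Q) :
    avgP Q (fun n => if (p : ℤ) ∣ n then (1 : ℝ) else 0) = 1 / (p : ℝ) := by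
  obtain ⟨q, rfl⟩ := h
  unfold avgP
  rw [GFXb_cnt p q hp]
  have hq : 0 < q := Nat.pos_of_mul_pos_left hQ
  have hp' : (p : ℝ) ≠ 0 := by exact_mod_cast hp.ne'
  have hq' : (q : ℝ) ≠ 0 := by exact_mod_cast hq.ne'
  push_cast
  field_simp

theorem GFXb_avgone (Q : ℕ) (hQ : 0 < Q) : avgP Q (fun _ => (1 : ℝ)) = 1 := by
  unfold avgP
  have hQ' : (Q : ℝ) ≠ 0 := by exact_mod_cast hQ.ne'
  simp [hQ']

theorem GFXb_union (z R y : ℝ) (hz : 0 ≤ z) (hzR : z ≤ R) (hRy : R ≤ y) :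
    PI z y = PI z R ∪ PI R y ∧ Disjoint (PI z R) (PI R y) := by
  have hR : 0 ≤ R := hz.trans hzR
  have hy : 0 ≤ y := hR.trans hRy
  constructor
  · ext p
    rw [Finset.mem_union, MAJ_mem hy, MAJ_mem hR, MAJ_mem hy]
    constructor
    · rintro ⟨h1, h2, h3⟩
      rcases le_or_gt (p : ℝ) R with h | h
      · exact Or.inl ⟨h1, h2, h⟩
      · exact Or.inr ⟨h1, h, h3⟩
    · rintro (⟨h1, h2, h3⟩ | ⟨h1, h2, h3⟩)
      · exact ⟨h1, h2, h3.trans hRy⟩
      · exact ⟨h1, lt_of_le_of_lt hzR h2, h3⟩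
  · rw [Finset.disjoint_left]
    intro p h1 h2
    rw [MAJ_mem hR] at h1
    rw [MAJ_mem hy] at h2
    linarith [h1.2.2, h2.2.1]

theorem GFXb_PR (z R y : ℝ) (hz : 0 ≤ z) (hzR : z ≤ R) (hRy : R ≤ y) :
    PR z y = PR z R * PR R y := by
  obtain ⟨h1, h2⟩ := GFXb_union z R y hz hzR hRy
  unfold PR
  rw [h1, Finset.prod_union h2]

theorem GFXb_dvd {p : ℕ} {w z : ℝ} (h : p ∈ PI w z) : p ∣ PR w z := Finset.dvd_prod_of_mem _ h

theorem GFXb1 (z R y : ℝ) (hz : 1 ≤ z) (hzR : z ≤ R) (hRy : R ≤ y) :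
    avgP (PR z y) (fun n => pf (PI z R) (sr (PI z R) R) n ^ 2) = (sG (PI z R) R)⁻¹ := by
  have hz0 : 0 ≤ z := by linarith
  have hR0 : 0 ≤ R := hz0.trans hzR
  have hy0 : 0 ≤ y := hR0.trans hRy
  have hP := MAJ_PR_pos z R
  have hQ := MAJ_PR_pos R y
  have hc := MAJ_cop (w := z) hR0 hy0
  have h1 := avg_mul hP hQ hc (F := fun n => pf (PI z R) (sr (PI z R) R) n ^ 2) (G := fun _ => (1 : ℝ))
    (fun n k => by
      simp only [GFXb_per (PI z R) (sr (PI z R) R) (PR z R) (fun p hp => GFXb_dvd hp)]) (fun _ _ => rfl)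
  rw [GFXb_avgone _ hQ, mul_one] at h1
  simp only [mul_one] at h1
  rw [GFXb_PR z R y hz0 hzR hRy, h1]
  exact SEL_avg (PI z R) R (hz.trans hzR) (fun p hp => ((MAJ_mem hR0).1 hp).1)

theorem GFXb2 (z R y : ℝ) (hz : 1 ≤ z) (hzR : z ≤ R) (hRy : R ≤ y) :
    avgP (PR z y) (fun n => pf (PI z R) (sr (PI z R) R) n ^ 2 * omS (PI z y) n) ≤
      (sG (PI z R) R)⁻¹ * (∑ p ∈ PI z R, 1 / (p : ℝ) * ((sG (PI z R) R)⁻¹ * sH (PI z R) (R / p) R) +
        ∑ p ∈ PI R y, 1 / (p : ℝ)) := by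
  have hz0 : 0 ≤ z := by linarith
  have hR0 : 0 ≤ R := hz0.trans hzR
  have hy0 : 0 ≤ y := hR0.trans hRy
  have hP := MAJ_PR_pos z R
  have hQ := MAJ_PR_pos R y
  have hc := MAJ_cop (w := z) hR0 hy0
  obtain ⟨hu, hd⟩ := GFXb_union z R y hz0 hzR hRy
  set f : ℤ → ℝ := fun n => pf (PI z R) (sr (PI z R) R) n ^ 2 with hf
  have hper : ∀ n k : ℤ, f (n + k * (PR z R : ℕ)) = f n := fun n k => by
    simp only [hf, GFXb_per (PI z R) (sr (PI z R) R) (PR z R) (fun p hp => GFXb_dvd hp)]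
  have hsel : avgP (PR z R) f = (sG (PI z R) R)⁻¹ :=
    SEL_avg (PI z R) R (hz.trans hzR) (fun p hp => ((MAJ_mem hR0).1 hp).1)
  have hperd : ∀ (p P : ℕ), p ∣ P → ∀ n k : ℤ, ((p : ℤ) ∣ n + k * (P : ℕ)) ↔ (p : ℤ) ∣ n := by
    intro p P hpP n k
    exact dvd_add_left ((Int.natCast_dvd_natCast.mpr hpP).mul_left k)
  -- expansion
  have hexp : avgP (PR z y) (fun n => f n * omS (PI z y) n) =
      ∑ p ∈ PI z R, avgP (PR z y) (fun n => if (p : ℤ) ∣ n then f n else 0) +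
      ∑ p ∈ PI R y, avgP (PR z y) (fun n => if (p : ℤ) ∣ n then f n else 0) := by
    rw [← Finset.sum_union hd, ← hu]
    unfold avgP
    rw [← Finset.sum_div, Finset.sum_comm]
    congr 1
    refine Finset.sum_congr rfl fun m _ => ?_
    unfold omS
    beta_reduce
    rw [Finset.card_filter, Nat.cast_sum, Finset.mul_sum]
    refine Finset.sum_congr rfl fun p _ => ?_
    split_ifs <;> simp
  have hS : ∀ p ∈ PI z R, avgP (PR z y) (fun n => if (p : ℤ) ∣ n then f n else 0) ≤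
      1 / (p : ℝ) * ((sG (PI z R) R)⁻¹) ^ 2 * sH (PI z R) (R / p) R := by
    intro p hp
    have h1 := avg_mul hP hQ hc (F := fun n => if (p : ℤ) ∣ n then f n else 0) (G := fun _ => (1 : ℝ))
      (fun n k => by
        simp only [hper, hperd p (PR z R) (GFXb_dvd hp)]) (fun _ _ => rfl)
    rw [GFXb_avgone _ hQ, mul_one] at h1
    simp only [mul_one] at h1
    rw [GFXb_PR z R y hz0 hzR hRy, h1]
    exact SEL_p (PI z R) R (hz.trans hzR) (fun p hp => ((MAJ_mem hR0).1 hp).1) p hp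
  have hT : ∀ p ∈ PI R y, avgP (PR z y) (fun n => if (p : ℤ) ∣ n then f n else 0) =
      (sG (PI z R) R)⁻¹ * (1 / (p : ℝ)) := by
    intro p hp
    have h1 := avg_mul hP hQ hc (F := f) (G := fun n => if (p : ℤ) ∣ n then (1 : ℝ) else 0) hper
      (fun n k => by simp only [hperd p (PR R y) (GFXb_dvd hp)])
    rw [GFXb_avg1 p _ ((MAJ_mem hy0).1 hp).1.pos hQ (GFXb_dvd hp), hsel] at h1
    rw [GFXb_PR z R y hz0 hzR hRy, ← h1]
    congr 1
    funext n
    split_ifs <;> simp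
  rw [hexp, mul_add]
  refine add_le_add ?_ ?_
  · rw [Finset.mul_sum]
    refine Finset.sum_le_sum fun p hp => (hS p hp).trans (le_of_eq ?_)
    ring
  · rw [Finset.mul_sum]
    exact le_of_eq (Finset.sum_congr rfl hT)

end Pool.Agent.H96.FL
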