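import Pool.Agent.H96.FL.Df
import Pool.Agent.H67.GT.MERT
import Pool.Agent.H75.EK.Mert

/-!
# MNBs: sums over primes

Mertens' theorems from `Pool/Agent/H67/GT/MERT.lean` (`F_eq`, `mertens_lower`, `F_upper`, `log_floor`) and `Pool/Agent/H75/EK/Mert.lean` (`mert_one`: `∑_{p ≤ x} log p/p = log x + O*(4)`; `mert_two` and `abel_upper` in `Pool/Agent/H75/EK/Abel.lean`: `∑_{a<p≤b} 1/p ≤ log(log b/log a) + 8/log a`).
`PI w z` is the set of the primes in `(w, z]`. `MNBs1`: all primes `≤ R` . `MNBs2`: `log(θ/δ) + 8/(δ log x)`. `MNBs3`: `log(θ/(θ-τ)) ≤ log (4/3) = 0.287...`. `MNBs4`: `log(130/59) = 0.79006...` (`Real.log_two_gt_d9` etc.: `130/59 ≤ 2.2034`, e.g. `(130/59)^5 < e^4 ...` or `log(130/59) = log 2 + log(65/59)`, `log 2 < 0.6932`, `log (65/59) ≤ 6/59 < 0.1017`: sum `< 0.7949`).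
-/

set_option autoImplicit false

namespace Pool.Agent.H96.FL

open Finset Pool.Agent.H6.MB

private theorem MNBs_PI_eq {a b : ℝ} (ha : 0 ≤ a) : PI a b = EK75.prIoc a b := by
  ext p
  simp only [PI, EK75.prIoc, Finset.mem_filter, Finset.mem_range, Finset.mem_Ioc, Nat.lt_succ_iff,
    Nat.floor_lt ha]
  tauto

private theorem MNBs_upper {a b : ℝ} (ha : 2 ≤ a) (hab : a ≤ b) :
    ∑ p ∈ PI a b, 1 / (p : ℝ) ≤ Real.log (Real.log b / Real.log a) + 8 / Real.log a := by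
  have hla : 0 < Real.log a := Real.log_pos (by linarith)
  have hlb : 0 < Real.log b := Real.log_pos (by linarith)
  have h0 : ∑ p ∈ PI a b, 1 / (p : ℝ) = EK75.Ssum (fun _ => 1) a b := by
    rw [MNBs_PI_eq (by linarith)]; rfl
  rw [h0, EK75.abel_main (fun _ => 1) ha hab]
  obtain ⟨c1, c2⟩ := EK75.abel_cmp 1 4 ha hab
  have h1 : ∫ t in Set.Ioc a b, (1 / (t * Real.log t ^ 2)) * EK75.Msum (fun _ => 1) t ≤
      ∫ t in Set.Ioc a b, (1 / (t * Real.log t ^ 2)) * (1 * Real.log t + 4) := by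
    apply MeasureTheory.setIntegral_mono_on (EK75.abel_intM _ ha) c1 measurableSet_Ioc
    intro t ht
    have ht2 : 2 ≤ t := by linarith [ht.1]
    have hl : 0 < Real.log t := Real.log_pos (by linarith)
    apply mul_le_mul_of_nonneg_left
    · rw [one_mul]; exact (EK75.mert_one (by linarith)).2
    · positivity
  rw [c2] at h1
  have h2 : EK75.Msum (fun _ => 1) b / Real.log b ≤ 1 + 4 * (1 / Real.log b) := by
    rw [div_le_iff₀ hlb]
    have := (EK75.mert_one (x := b) (by linarith)).2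
    have e : (1 + 4 * (1 / Real.log b)) * Real.log b = Real.log b + 4 := by field_simp
    linarith
  have h3 : 1 - 4 * (1 / Real.log a) ≤ EK75.Msum (fun _ => 1) a / Real.log a := by
    rw [le_div_iff₀ hla]
    have := (EK75.mert_one (x := a) (by linarith)).1
    have e : (1 - 4 * (1 / Real.log a)) * Real.log a = Real.log a - 4 := by field_simp
    linarith
  have h5 : 8 / Real.log a = 8 * (1 / Real.log a) := by ring
  rw [h5]
  linarith

private theorem MNBs_pow (α β c : ℝ) (hα : 0 < α) (hαβ : α ≤ β) (hc : Real.log (β / α) < c) :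
    ∃ X : ℝ, 1 < X ∧ ∀ x : ℝ, X ≤ x → ∑ p ∈ PI (x ^ α) (x ^ β), 1 / (p : ℝ) ≤ c := by
  set g : ℝ := c - Real.log (β / α) with hg
  have hgp : 0 < g := by rw [hg]; linarith
  refine ⟨Real.exp (max (1 / α) (8 / (α * g))), ?_, ?_⟩
  · apply Real.one_lt_exp_iff.2
    exact lt_of_lt_of_le (by positivity) (le_max_left _ _)
  intro x hx
  have hx0 : 0 < x := lt_of_lt_of_le (Real.exp_pos _) hx
  have hlx : max (1 / α) (8 / (α * g)) ≤ Real.log x := by
    rw [Real.le_log_iff_exp_le hx0]; exact hx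
  have hl1 : 1 / α ≤ Real.log x := (le_max_left _ _).trans hlx
  have hl2 : 8 / (α * g) ≤ Real.log x := (le_max_right _ _).trans hlx
  have hlpos : 0 < Real.log x := lt_of_lt_of_le (by positivity) hl1
  have hx1 : 1 ≤ x := by
    by_contra h
    push Not at h
    have := Real.log_nonpos hx0.le h.le
    linarith
  have ha : 2 ≤ x ^ α := by
    have h1 : Real.exp 1 ≤ x ^ α := by
      rw [Real.rpow_def_of_pos hx0]
      apply Real.exp_le_exp.2
      rw [div_le_iff₀ hα] at hl1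
      linarith
    have h2 := Real.exp_one_gt_d9
    linarith
  have hab : x ^ α ≤ x ^ β := Real.rpow_le_rpow_of_exponent_le hx1 hαβ
  have h := MNBs_upper ha hab
  rw [Real.log_rpow hx0, Real.log_rpow hx0] at h
  have e1 : β * Real.log x / (α * Real.log x) = β / α := by
    field_simp
  rw [e1] at h
  have e2 : 8 / (α * Real.log x) ≤ g := by
    rw [div_le_iff₀ (by positivity)]
    rw [div_le_iff₀ (by positivity)] at hl2
    linarith
  linarith

theorem MNBs1 (z R : ℝ) (hz : 0 ≤ z) (hR : 1 ≤ R) : ∑ p ∈ PI z R, Real.log p / (p : ℝ) ≤ Real.log R + 4 := by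
  have h := (EK75.mert_one hR).2
  refine le_trans ?_ h
  unfold EK75.Msum
  have hsub : PI z R ⊆ EK75.prLe R := by
    intro p hp
    simp only [PI, EK75.prLe, Finset.mem_filter, Finset.mem_range] at hp ⊢
    exact ⟨hp.1, hp.2.1⟩
  calc ∑ p ∈ PI z R, Real.log p / (p : ℝ) ≤ ∑ p ∈ EK75.prLe R, Real.log p / (p : ℝ) := by
        apply Finset.sum_le_sum_of_subset_of_nonneg hsub
        intro p _ _
        have := Real.log_natCast_nonneg p
        positivity
    _ = _ := by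
        refine Finset.sum_congr rfl ?_
        intro p _
        rw [one_mul]

theorem MNBs2 (δ θ : ℝ) (hδ : 0 < δ) (hδθ : δ < θ) : ∃ C X : ℝ, 0 < C ∧ ∀ x : ℝ, X ≤ x →
    ∑ p ∈ PI (x ^ δ) (x ^ θ), 1 / (p : ℝ) ≤ C := by
  obtain ⟨X, _, hX⟩ := MNBs_pow δ θ (Real.log (θ / δ) + 1) hδ hδθ.le (by linarith)
  refine ⟨Real.log (θ / δ) + 1, X, ?_, hX⟩
  have : 0 ≤ Real.log (θ / δ) := Real.log_nonneg (by rw [le_div_iff₀ hδ]; linarith)
  linarith

theorem MNBs3 (τ : ℝ) (hτ0 : 0 < τ) (hτ : τ ≤ 59 / 2000) : ∃ X : ℝ, ∀ x : ℝ, X ≤ x →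
    ∑ p ∈ PI (x ^ (59 / 500 - τ)) (x ^ (59 / 500 : ℝ)), 1 / (p : ℝ) ≤ 1 := by
  have h1 : Real.log ((59 / 500 : ℝ) / (59 / 500 - τ)) < 1 := by
    have hp : (0 : ℝ) < 59 / 500 - τ := by linarith
    have h2 : (59 / 500 : ℝ) / (59 / 500 - τ) ≤ 4 / 3 := by
      rw [div_le_iff₀ hp]; linarith
    have h3 : Real.log ((59 / 500 : ℝ) / (59 / 500 - τ)) ≤ (59 / 500 : ℝ) / (59 / 500 - τ) - 1 :=
      Real.log_le_sub_one_of_pos (by positivity)
    linarith
  obtain ⟨X, _, hX⟩ := MNBs_pow (59 / 500 - τ) (59 / 500) 1 (by linarith) (by linarith) h1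
  exact ⟨X, hX⟩

theorem MNBs4 : ∃ X : ℝ, ∀ x : ℝ, X ≤ x →
    ∑ p ∈ PI (x ^ (59 / 500 : ℝ)) (x ^ (13 / 50 : ℝ)), 1 / (p : ℝ) ≤ 81 / 100 := by
  have h1 : Real.log ((13 / 50 : ℝ) / (59 / 500)) < 81 / 100 := by
    have e : ((13 / 50 : ℝ) / (59 / 500)) = 2 * (65 / 59) := by norm_num
    rw [e, Real.log_mul (by norm_num) (by norm_num)]
    have h2 := Real.log_two_lt_d9
    have h3 : Real.log (65 / 59 : ℝ) ≤ 65 / 59 - 1 := Real.log_le_sub_one_of_pos (by norm_num)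
    linarith
  obtain ⟨X, _, hX⟩ := MNBs_pow (59 / 500) (13 / 50) (81 / 100) (by norm_num) (by norm_num) h1
  exact ⟨X, hX⟩

end Pool.Agent.H96.FL
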