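import Pool.Agent.H96.FL.MNBp
import Pool.Agent.H96.FL.MNBs

/-!
# MNB: the mean number of prime factors in `(z, y]`

`MNBp` with `ε = 1/100`, `MNBs1` to `MNBs4`: `∑_{p∈S} (1/p) G⁻¹ sH ≤ (1+ε) (log R)⁻¹ ∑ log p/p + (ε/log x) ∑_{p∈S} 1/p + ε ∑_{x^(θ-τ) < p ≤ R} 1/p ≤ (1+ε)(1 + 4/log R) + ε C/log x + ε ≤ 1.03` for large `x`, plus `0.81`.
-/

set_option autoImplicit false

namespace Pool.Agent.H96.FL

open Finset Pool.Agent.H17 Pool.Agent.H6.MF Pool.Agent.H6.MB Pool.Agent.H12.DM Pool.Agent.H6.AE Pool.Agent.H96.AE Pool.Agent.H96.AS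

theorem MNB_mem {w z : ℝ} {p : ℕ} (hz : 0 ≤ z) : p ∈ PI w z ↔ (p : ℝ) ≤ z ∧ p.Prime ∧ w < (p : ℝ) := by
  unfold PI
  rw [Finset.mem_filter, Finset.mem_range, Nat.lt_succ_iff, Nat.le_floor_iff hz]

theorem MNB_dlm (m b : ℕ) : 0 < dlm m b ∧ dlm m b < 59 / 500 := by
  unfold dlm
  have hm : (0 : ℝ) ≤ m := Nat.cast_nonneg _
  have hb : (0 : ℝ) ≤ b := Nat.cast_nonneg _
  have h1 : (0 : ℝ) < 40 * ((m : ℝ) + 1) * (4 * (b : ℝ) + 8) := by positivity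
  refine ⟨by positivity, ?_⟩
  rw [div_lt_div_iff₀ h1 (by norm_num)]
  nlinarith [mul_nonneg hm hb]

theorem MNB_sum (ε τ δ x C : ℝ) (hε : 0 < ε) (hL : 1 ≤ Real.log x) (hx : 1 < x)
    (h1 : ∑ p ∈ PI (x ^ δ) (x ^ (59 / 500 : ℝ)), Real.log p / (p : ℝ) ≤
      Real.log (x ^ (59 / 500 : ℝ)) + 4)
    (h2 : ∑ p ∈ PI (x ^ δ) (x ^ (59 / 500 : ℝ)), 1 / (p : ℝ) ≤ C)
    (h3 : ∑ p ∈ PI (x ^ (59 / 500 - τ)) (x ^ (59 / 500 : ℝ)), 1 / (p : ℝ) ≤ 1) :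
    ∑ p ∈ PI (x ^ δ) (x ^ (59 / 500 : ℝ)), 1 / (p : ℝ) *
      ((1 + ε) * (Real.log p / Real.log (x ^ (59 / 500 : ℝ))) +
        (if (p : ℝ) ≤ x ^ (59 / 500 - τ) then ε / Real.log x else ε)) ≤
      (1 + ε) * (1 + 4 / Real.log (x ^ (59 / 500 : ℝ))) + ε / Real.log x * C + ε := by
  have hx0 : 0 < x := by linarith
  have hR : 0 < Real.log (x ^ (59 / 500 : ℝ)) := by
    rw [Real.log_rpow hx0]
    have : 0 < Real.log x := by linarith
    positivity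
  have hR0 : (0 : ℝ) ≤ x ^ (59 / 500 : ℝ) := Real.rpow_nonneg hx0.le _
  have hstep : ∀ p ∈ PI (x ^ δ) (x ^ (59 / 500 : ℝ)), 1 / (p : ℝ) *
      ((1 + ε) * (Real.log p / Real.log (x ^ (59 / 500 : ℝ))) +
        (if (p : ℝ) ≤ x ^ (59 / 500 - τ) then ε / Real.log x else ε)) ≤
      (1 + ε) / Real.log (x ^ (59 / 500 : ℝ)) * (Real.log p / (p : ℝ)) +
        ε / Real.log x * (1 / (p : ℝ)) +
        (if x ^ (59 / 500 - τ) < (p : ℝ) then ε * (1 / (p : ℝ)) else 0) := by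
    intro p hp
    rw [MNB_mem hR0] at hp
    have hp0 : (0 : ℝ) < p := by exact_mod_cast hp.2.1.pos
    have h4 : 1 / (p : ℝ) * ((1 + ε) * (Real.log p / Real.log (x ^ (59 / 500 : ℝ)))) =
        (1 + ε) / Real.log (x ^ (59 / 500 : ℝ)) * (Real.log p / (p : ℝ)) := by
      field_simp
    have h5 : 0 ≤ ε / Real.log x * (1 / (p : ℝ)) := by
      have : 0 < Real.log x := by linarith
      positivity
    rw [mul_add, h4]
    by_cases hc : (p : ℝ) ≤ x ^ (59 / 500 - τ)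
    · rw [if_pos hc, if_neg (not_lt.2 hc)]
      linarith [mul_comm (1 / (p : ℝ)) (ε / Real.log x)]
    · rw [if_neg hc, if_pos (not_le.1 hc)]
      linarith [mul_comm (1 / (p : ℝ)) ε]
  refine (Finset.sum_le_sum hstep).trans ?_
  rw [Finset.sum_add_distrib, Finset.sum_add_distrib, ← Finset.mul_sum, ← Finset.mul_sum,
    ← Finset.sum_filter, ← Finset.mul_sum]
  have h6 : ∑ p ∈ (PI (x ^ δ) (x ^ (59 / 500 : ℝ))).filter
      (fun p : ℕ => x ^ (59 / 500 - τ) < (p : ℝ)), 1 / (p : ℝ) ≤ 1 := by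
    refine le_trans (Finset.sum_le_sum_of_subset_of_nonneg ?_ ?_) h3
    · intro p hp
      rw [Finset.mem_filter, MNB_mem hR0] at hp
      rw [MNB_mem hR0]
      exact ⟨hp.1.1, hp.1.2.1, hp.2⟩
    · intro p _ _
      positivity
  have h7 : (1 + ε) / Real.log (x ^ (59 / 500 : ℝ)) *
      ∑ p ∈ PI (x ^ δ) (x ^ (59 / 500 : ℝ)), Real.log p / (p : ℝ) ≤
      (1 + ε) * (1 + 4 / Real.log (x ^ (59 / 500 : ℝ))) := by
    refine le_trans (mul_le_mul_of_nonneg_left h1 (by positivity)) (le_of_eq ?_)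
    field_simp
  have h8 : ε / Real.log x * ∑ p ∈ PI (x ^ δ) (x ^ (59 / 500 : ℝ)), 1 / (p : ℝ) ≤
      ε / Real.log x * C := by
    apply mul_le_mul_of_nonneg_left h2
    have : 0 < Real.log x := by linarith
    positivity
  have h9 := mul_le_mul_of_nonneg_left h6 hε.le
  linarith

theorem MNB : ∃ m₀ : ℕ, ∀ m : ℕ, m₀ ≤ m → ∃ b₀ : ℕ, ∀ b : ℕ, b₀ ≤ b → ∃ X : ℝ, ∀ x : ℝ, X ≤ x →
    ∀ V : ℤ → ℝ, GoodVm m b x V →
    (∑ p ∈ PI (x ^ dlm m b) (x ^ (59 / 500 : ℝ)), 1 / (p : ℝ) *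
      ((sG (PI (x ^ dlm m b) (x ^ (59 / 500 : ℝ))) (x ^ (59 / 500 : ℝ)))⁻¹ *
        sH (PI (x ^ dlm m b) (x ^ (59 / 500 : ℝ))) (x ^ (59 / 500 : ℝ) / p) (x ^ (59 / 500 : ℝ)))) +
    ∑ p ∈ PI (x ^ (59 / 500 : ℝ)) (x ^ (13 / 50 : ℝ)), 1 / (p : ℝ) ≤ 19 / 10 := by
  obtain ⟨τ, hτ0, hτ, m₀, hm₀⟩ := MNBp (1 / 100) (by norm_num)
  refine ⟨m₀, fun m hm => ?_⟩
  obtain ⟨b₀, hb₀⟩ := hm₀ m hm
  refine ⟨b₀, fun b hb => ?_⟩
  obtain ⟨X₁, hX₁⟩ := hb₀ b hb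
  obtain ⟨hd0, hd1⟩ := MNB_dlm m b
  obtain ⟨C, X₂, hC, hX₂⟩ := MNBs2 (dlm m b) (59 / 500) hd0 hd1
  obtain ⟨X₃, hX₃⟩ := MNBs3 τ hτ0 hτ
  obtain ⟨X₄, hX₄⟩ := MNBs4
  refine ⟨max (max X₁ X₂) (max (max X₃ X₄) (Real.exp (1000 + C))), fun x hx V hV => ?_⟩
  have hx1 : X₁ ≤ x := le_trans ((le_max_left _ _).trans (le_max_left _ _)) hx
  have hx2 : X₂ ≤ x := le_trans ((le_max_right _ _).trans (le_max_left _ _)) hx
  have hx3 : X₃ ≤ x :=
    le_trans (((le_max_left _ _).trans (le_max_left _ _)).trans (le_max_right _ _)) hx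
  have hx4 : X₄ ≤ x :=
    le_trans (((le_max_right _ _).trans (le_max_left _ _)).trans (le_max_right _ _)) hx
  have hx5 : Real.exp (1000 + C) ≤ x := le_trans ((le_max_right _ _).trans (le_max_right _ _)) hx
  have hx0 : 0 < x := lt_of_lt_of_le (Real.exp_pos _) hx5
  have hL : 1000 + C ≤ Real.log x := by
    rw [← Real.log_exp (1000 + C)]
    exact Real.log_le_log (Real.exp_pos _) hx5
  have hx6 : 1 < x := by
    by_contra hcon
    have h1 := Real.log_nonpos hx0.le (not_lt.1 hcon)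
    linarith
  have hR0 : (0 : ℝ) ≤ x ^ (59 / 500 : ℝ) := Real.rpow_nonneg hx0.le _
  have hR1 : (1 : ℝ) ≤ x ^ (59 / 500 : ℝ) := Real.one_le_rpow hx6.le (by norm_num)
  have h1 := MNBs1 (x ^ dlm m b) (x ^ (59 / 500 : ℝ)) (Real.rpow_nonneg hx0.le _) hR1
  have hsum := MNB_sum (1 / 100) τ (dlm m b) x C (by norm_num) (by linarith) hx6 h1
    (hX₂ x hx2) (hX₃ x hx3)
  have hmain : (∑ p ∈ PI (x ^ dlm m b) (x ^ (59 / 500 : ℝ)), 1 / (p : ℝ) *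
      ((sG (PI (x ^ dlm m b) (x ^ (59 / 500 : ℝ))) (x ^ (59 / 500 : ℝ)))⁻¹ *
        sH (PI (x ^ dlm m b) (x ^ (59 / 500 : ℝ))) (x ^ (59 / 500 : ℝ) / p)
          (x ^ (59 / 500 : ℝ)))) ≤
      ∑ p ∈ PI (x ^ dlm m b) (x ^ (59 / 500 : ℝ)), 1 / (p : ℝ) *
      ((1 + 1 / 100) * (Real.log p / Real.log (x ^ (59 / 500 : ℝ))) +
        (if (p : ℝ) ≤ x ^ (59 / 500 - τ) then (1 / 100) / Real.log x else (1 / 100))) := by
    apply Finset.sum_le_sum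
    intro p hp
    rw [MNB_mem hR0] at hp
    apply mul_le_mul_of_nonneg_left
    · exact hX₁ x hx1 V hV p hp.2.2 hp.1
    · positivity
  have h4 := hX₄ x hx4
  have hlog : Real.log (x ^ (59 / 500 : ℝ)) = 59 / 500 * Real.log x := Real.log_rpow hx0 _
  have hLpos : 0 < Real.log x := by linarith
  have h5 : (1 + 1 / 100) * (1 + 4 / Real.log (x ^ (59 / 500 : ℝ))) +
      (1 / 100) / Real.log x * C + 1 / 100 ≤ 109 / 100 := by
    rw [hlog]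
    have h6 : (4 : ℝ) / (59 / 500 * Real.log x) = 2000 / 59 / Real.log x := by
      field_simp
      norm_num
    have h7 : 1 / (100 : ℝ) / Real.log x * C = (C / 100) / Real.log x := by
      field_simp
    rw [h6, h7]
    have h8 : (2000 / 59 : ℝ) / Real.log x * (101 / 100) + (C / 100) / Real.log x ≤ 7 / 100 := by
      have h9 : (2000 / 59 : ℝ) / Real.log x * (101 / 100) + (C / 100) / Real.log x =
          (2000 / 59 * (101 / 100) + C / 100) / Real.log x := by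
        field_simp
      rw [h9, div_le_iff₀ hLpos]
      linarith
    linarith
  linarith

end Pool.Agent.H96.FL
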