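import Pool.Agent.H96.FL.Df
import Pool.Agent.H6.MB.RHO

/-!
# PFCb: divisor sums over the primes in `(x^δ, x^v]` with small coefficients

`S = PI (x^δ) (x^v)`, `P = PR (x^δ) (x^v)`, `|c T| ≤ B^|T|`, `F = pf S c`. Everything is proved in `Pool/Agent/H6/MB/RHO.lean` for the particular coefficients there, in private lemmas which can be copied (`RHO_corr`, `RHO_avgF`, `RHO_nondisj`, `RHO_sum_le_prod`, `RHO_pair`, `RHO_card`, `RHO_TD`, `RHO_omega`, `RHO_large`):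
* `PFC_corr`: no `p ∈ S` divides `k` (`p > x^δ > 4 L² ≥ |k|`), so `avg F(n) F(n+k) = ∑_{T ∩ U = ∅} c_T c_U/(∏T ∏U) = (avg F)² - ∑_{T ∩ U ≠ ∅}`, and the last sum is at most `∑_{p∈S} (B/p)² (∏_{q∈S} (1+B/q))² ≤ C/x^δ` (`mer4`).
* `PFC_TD`: at most `Y` sets `T` have `∏T ≤ Y` (distinct products), and then `|T| ≤ 1/δ` because `∏T ≤ Y ≤ x` and `p > x^δ`.
* `PFC_sup`: `n ≤ 2x` has at most `1/δ + 1` prime factors in `S`, `|F n| ≤ ∑_{T ⊆ {p ∣ n}} B^|T| = (1+B)^(omS S n)`.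
-/

set_option autoImplicit false

namespace Pool.Agent.H96.FL

open Finset Pool.Agent.H17 Pool.Agent.H6.MF Pool.Agent.H6.MB

private lemma PFCb_dvd {T : Finset ℕ} (hT : ∀ p ∈ T, p.Prime) (n : ℤ) :
    ((∏ p ∈ T, p : ℕ) : ℤ) ∣ n ↔ ∀ p ∈ T, (p : ℤ) ∣ n := by
  constructor
  · intro h p hp
    exact (Int.natCast_dvd_natCast.mpr (Finset.dvd_prod_of_mem _ hp)).trans h
  · intro h
    rw [Int.natCast_dvd]
    apply Finset.prod_primes_dvd
    · intro p hp; exact (hT p hp).prime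
    · intro p hp; exact Int.natCast_dvd.mp (h p hp)

private lemma PFCb_pos {T : Finset ℕ} (hT : ∀ p ∈ T, p.Prime) : 0 < ∏ p ∈ T, p :=
  Finset.prod_pos (fun p hp => (hT p hp).pos)

private lemma PFCb_prime {w z : ℝ} : ∀ p ∈ PI w z, p.Prime := fun p hp => by
  unfold PI at hp
  exact (Finset.mem_filter.mp hp).2.1

private lemma PFCb_gt {w z : ℝ} : ∀ p ∈ PI w z, w < (p : ℝ) := fun p hp => by
  unfold PI at hp
  exact (Finset.mem_filter.mp hp).2.2

/-- the number of subsets with bounded product -/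
private lemma PFCb_card {S : Finset ℕ} (hS : ∀ p ∈ S, p.Prime) (D : ℕ) :
    (S.powerset.filter (fun T => ∏ p ∈ T, p ≤ D)).card ≤ D := by
  calc (S.powerset.filter (fun T => ∏ p ∈ T, p ≤ D)).card ≤ (Finset.Icc 1 D).card := by
        apply Finset.card_le_card_of_injOn (fun T => ∏ p ∈ T, p)
        · intro T hT
          simp only [Finset.coe_filter, Set.mem_ofPred_eq, Finset.mem_powerset] at hT
          simp only [Finset.coe_Icc, Set.mem_Icc]
          exact ⟨PFCb_pos (fun p hp => hS p (hT.1 hp)), hT.2⟩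
        · intro T hT U hU h
          simp only [Finset.coe_filter, Set.mem_ofPred_eq, Finset.mem_powerset] at hT hU
          have h1 : ∏ p ∈ T, p = ∏ p ∈ U, p := h
          rw [← Nat.primeFactors_prod (fun p hp => hS p (hT.1 hp)), h1,
            Nat.primeFactors_prod (fun p hp => hS p (hU.1 hp))]
    _ = D := by simp

/-- number of factors of a bounded product of large primes -/
private lemma PFCb_num {T : Finset ℕ} {δ a x M : ℝ} (hδ : 0 < δ) (hx : 2 ≤ x)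
    (hz : ∀ p ∈ T, x ^ δ ≤ (p : ℝ)) (hM : ∏ p ∈ T, (p : ℝ) ≤ M) (hMx : M ≤ x ^ a) :
    (T.card : ℝ) ≤ a / δ := by
  have hx0 : (0 : ℝ) < x := by linarith
  have h4 : (x ^ δ) ^ T.card ≤ ∏ p ∈ T, (p : ℝ) := by
    rw [← Finset.prod_const]
    apply Finset.prod_le_prod
    · intro p _
      exact (Real.rpow_pos_of_pos hx0 δ).le
    · intro p hp
      exact hz p hp
  have h5 : x ^ (δ * T.card) ≤ x ^ a := by
    rw [Real.rpow_mul hx0.le, Real.rpow_natCast]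
    exact h4.trans (hM.trans hMx)
  have h7 : δ * T.card ≤ a := (Real.rpow_le_rpow_left_iff (by linarith)).mp h5
  rw [le_div_iff₀ hδ]
  linarith

/-- number of large prime factors -/
private lemma PFCb_omega {S : Finset ℕ} (hS : ∀ p ∈ S, p.Prime) {δ x : ℝ} (hδ : 0 < δ) (hx : 2 ≤ x)
    (hz : ∀ p ∈ S, x ^ δ ≤ (p : ℝ)) {n : ℤ} (hn : 0 < n) (hn2 : (n : ℝ) ≤ 2 * x) :
    ((S.filter (fun p : ℕ => (p : ℤ) ∣ n)).card : ℝ) ≤ 2 / δ := by
  set T := S.filter (fun p : ℕ => (p : ℤ) ∣ n) with hT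
  have hT1 : ∀ p ∈ T, p.Prime := fun p hp => hS p (Finset.mem_filter.mp hp).1
  have h1 : ((∏ p ∈ T, p : ℕ) : ℤ) ∣ n := (PFCb_dvd hT1 n).mpr (fun p hp => (Finset.mem_filter.mp hp).2)
  have h2 : ((∏ p ∈ T, p : ℕ) : ℤ) ≤ n := Int.le_of_dvd hn h1
  have h3 : ((∏ p ∈ T, p : ℕ) : ℝ) ≤ n := by exact_mod_cast h2
  have h4 : ∏ p ∈ T, (p : ℝ) ≤ n := by
    push_cast at h3
    exact h3
  refine PFCb_num hδ hx (fun p hp => hz p (Finset.mem_filter.mp hp).1) h4 ?_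
  have h6 : x ^ (2 : ℝ) = x * x := by
    rw [show (2 : ℝ) = ((2 : ℕ) : ℝ) by norm_num, Real.rpow_natCast]
    ring
  rw [h6]
  nlinarith

/-- the divisor sum as a sum over the sets of prime factors -/
private lemma PFCb_eq (S : Finset ℕ) (c : Finset ℕ → ℝ) (n : ℤ) :
    pf S c n = ∑ T ∈ (S.filter (fun p : ℕ => (p : ℤ) ∣ n)).powerset, c T := by
  unfold pf
  have h1 : ∀ T ∈ S.powerset, c T * (if ∀ p ∈ T, (p : ℤ) ∣ n then (1 : ℝ) else 0)
      = if ∀ p ∈ T, (p : ℤ) ∣ n then c T else 0 := by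
    intro T _
    split_ifs <;> simp
  rw [Finset.sum_congr rfl h1, ← Finset.sum_filter]
  apply Finset.sum_congr _ (fun _ _ => rfl)
  ext T
  rw [Finset.mem_filter, Finset.mem_powerset, Finset.mem_powerset]
  constructor
  · rintro ⟨h2, h3⟩ p hp
    rw [Finset.mem_filter]
    exact ⟨h2 hp, h3 p hp⟩
  · intro h
    exact ⟨fun p hp => (Finset.mem_filter.mp (h hp)).1, fun p hp => (Finset.mem_filter.mp (h hp)).2⟩

theorem PFC_TD (δ v B : ℝ) (hδ : 0 < δ) (hδv : δ < v) (hv : v ≤ 1) (hB : 1 ≤ B) : ∃ C X : ℝ, 0 < C ∧ ∀ x : ℝ, X ≤ x →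
    ∀ c : Finset ℕ → ℝ, (∀ T : Finset ℕ, T ⊆ PI (x ^ δ) (x ^ v) → |c T| ≤ B ^ T.card) →
    ∀ Y : ℝ, 1 ≤ Y → Y ≤ x → (∀ T : Finset ℕ, T ⊆ PI (x ^ δ) (x ^ v) → Y < ∏ p ∈ T, (p : ℝ) → c T = 0) →
    TD (PR (x ^ δ) (x ^ v)) (C * Y) (pf (PI (x ^ δ) (x ^ v)) c) := by
  have hB0 : (0 : ℝ) < B := by linarith
  refine ⟨B ^ (1 / δ), 3, Real.rpow_pos_of_pos hB0 _, ?_⟩
  intro x hx c hc Y hY hYx hcY
  have hx0 : 0 < x := by linarith
  have hC0 : 0 < B ^ (1 / δ) := Real.rpow_pos_of_pos hB0 _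
  set S := PI (x ^ δ) (x ^ v) with hSdef
  have hS : ∀ p ∈ S, p.Prime := PFCb_prime
  have hz : ∀ p ∈ S, x ^ δ < (p : ℝ) := PFCb_gt
  have h1 : ∀ T ∈ S.powerset, TD (∏ p ∈ S, p) |c T|
      (fun n => c T * (if ∀ p ∈ T, (p : ℤ) ∣ n then 1 else 0)) := by
    intro T hT
    rw [Finset.mem_powerset] at hT
    have hT' : ∀ p ∈ T, p.Prime := fun p hp => hS p (hT hp)
    have h2 := TD_ind (PFCb_pos hT') (Finset.prod_dvd_prod_of_subset _ _ (fun p => p) hT) 0 (c T)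
    have h3 : (fun n : ℤ => if ((∏ p ∈ T, p : ℕ) : ℤ) ∣ n - 0 then c T else 0)
        = (fun n : ℤ => c T * (if ∀ p ∈ T, (p : ℤ) ∣ n then 1 else 0)) := by
      funext n
      rw [sub_zero]
      by_cases h : ∀ p ∈ T, (p : ℤ) ∣ n
      · rw [if_pos ((PFCb_dvd hT' n).mpr h), if_pos h, mul_one]
      · rw [if_neg (fun h4 => h ((PFCb_dvd hT' n).mp h4)), if_neg h, mul_zero]
    rw [h3] at h2
    exact h2
  have h2 := TD_sum S.powerset h1
  have h3 : ∑ T ∈ S.powerset, |c T| ≤ B ^ (1 / δ) * Y := by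
    calc ∑ T ∈ S.powerset, |c T|
        ≤ ∑ T ∈ S.powerset, (if ∏ p ∈ T, p ≤ ⌊Y⌋₊ then B ^ (1 / δ) else 0) := by
          apply Finset.sum_le_sum
          intro T hT
          rw [Finset.mem_powerset] at hT
          by_cases hTY : ∏ p ∈ T, (p : ℝ) ≤ Y
          · rw [if_pos (by
              apply Nat.le_floor
              push_cast
              exact hTY)]
            refine (hc T hT).trans ?_
            rw [← Real.rpow_natCast]
            apply Real.rpow_le_rpow_of_exponent_le hB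
            refine PFCb_num (a := 1) hδ (by linarith) (fun p hp => (hz p (hT hp)).le) hTY ?_
            rw [Real.rpow_one]
            exact hYx
          · rw [hcY T hT (not_le.mp hTY), abs_zero]
            split_ifs
            · exact hC0.le
            · exact le_rfl
      _ = B ^ (1 / δ) * ((S.powerset.filter (fun T => ∏ p ∈ T, p ≤ ⌊Y⌋₊)).card : ℝ) := by
          rw [← Finset.sum_filter, Finset.sum_const, nsmul_eq_mul, mul_comm]
      _ ≤ B ^ (1 / δ) * Y := by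
          apply mul_le_mul_of_nonneg_left _ hC0.le
          have h4 : ((S.powerset.filter (fun T => ∏ p ∈ T, p ≤ ⌊Y⌋₊)).card : ℝ) ≤ (⌊Y⌋₊ : ℝ) := by
            exact_mod_cast PFCb_card hS ⌊Y⌋₊
          exact h4.trans (Nat.floor_le (by linarith))
  exact TD_mono h2 dvd_rfl h3

theorem PFC_sup (δ v : ℝ) (hδ : 0 < δ) (hδv : δ < v) (hv : v ≤ 1) : ∃ C X : ℝ, 0 < C ∧ ∀ x : ℝ, X ≤ x →
    ∀ n : ℤ, 0 < n → (n : ℝ) ≤ 2 * x → (omS (PI (x ^ δ) (x ^ v)) n : ℝ) ≤ C ∧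
      ∀ c : Finset ℕ → ℝ, (∀ T : Finset ℕ, T ⊆ PI (x ^ δ) (x ^ v) → |c T| ≤ 1) →
        |pf (PI (x ^ δ) (x ^ v)) c n| ≤ C := by
  have hC1 : 0 < 2 / δ := by positivity
  have hC2 : (0 : ℝ) < 2 ^ (2 / δ) := by positivity
  refine ⟨2 / δ + 2 ^ (2 / δ), 3, by positivity, ?_⟩
  intro x hx n hn hn2
  have h1 := PFCb_omega (S := PI (x ^ δ) (x ^ v)) PFCb_prime hδ (by linarith)
    (fun p hp => (PFCb_gt p hp).le) hn hn2
  refine ⟨?_, ?_⟩
  · unfold omS
    linarith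
  · intro c hc
    rw [PFCb_eq]
    calc |∑ T ∈ ((PI (x ^ δ) (x ^ v)).filter (fun p : ℕ => (p : ℤ) ∣ n)).powerset, c T|
        ≤ ∑ T ∈ ((PI (x ^ δ) (x ^ v)).filter (fun p : ℕ => (p : ℤ) ∣ n)).powerset, |c T| :=
          Finset.abs_sum_le_sum_abs _ _
      _ ≤ ∑ T ∈ ((PI (x ^ δ) (x ^ v)).filter (fun p : ℕ => (p : ℤ) ∣ n)).powerset, (1 : ℝ) :=
          Finset.sum_le_sum (fun T hT => hc T
            ((Finset.mem_powerset.mp hT).trans (Finset.filter_subset _ _)))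
      _ = 2 ^ ((PI (x ^ δ) (x ^ v)).filter (fun p : ℕ => (p : ℤ) ∣ n)).card := by
          rw [Finset.sum_const, Finset.card_powerset, nsmul_eq_mul, mul_one]
          push_cast
          rfl
      _ ≤ 2 ^ (2 / δ) := by
          rw [← Real.rpow_natCast]
          exact Real.rpow_le_rpow_of_exponent_le (by norm_num) h1
      _ ≤ _ := by linarith

end Pool.Agent.H96.FL
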