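import Pool.Agent.H96.FL.SELa
import Pool.Agent.H96.FL.PFCa
import Pool.Agent.H96.FL.PFCb
import Pool.Agent.H96.FL.MNB
import Pool.Agent.H96.FL.GFXa
import Pool.Agent.H96.FL.GFXb

/-!
# GFX: the lower bound weight

`z = x^δ`, `δ = dlm m b ≤ 1/320`, `R = x^θ`, `θ = 59/500`, `y = x^v`, `v = 13/50`, `S = PI z R`, `S' = PI z y`, `G = sG S R` (`1 ≤ G ≤ C₁`: `MNB_G`), `β n = G * pf S (sr S R) n ^ 2`, `F n = β n * (1 - κ * omS S' n)`, `κ = 51/100`.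
* `F ≤ β`; `F n > 0 → omS S' n ≤ 1` (`κ > 1/2`).
* `GFX_coef` with `κ` and with `0` (`SEL_le`, `SEL_zero`): `F = G * pf S' f`, `β = G * pf S' f₀`, coefficients `≤ 9^|T|`, zero for `∏T > Y = R² y = x^(1/2 - 1/250)`: `PFC_TD`, times `G ≤ C₁` (scaling of `TD`, as `BT_TD` in `Pool/Agent/H96/AS/BT.lean`).
* averages: `GFXb1`: `avg β = 1`; `GFXb2`, `MNB`: `avg (β ω) ≤ 19/10`, so `μ = avg F = 1 - κ avg(β ω) ≥ 31/1000 ≥ 1/50`, `μ ≤ 1`.
* pair correlation: `PFC_corr` for `f` (`B = 9`), times `G² ≤ C₁²`: `≤ μ² + C₁²/L² ≤ μ² + 1/L`.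
* `0 < n ≤ 2x`: `PFC_sup` with `c T = sr S R T` for `T ⊆ S`, `0` otherwise (`|c T| ≤ 1`, `pf S' c = pf S (sr S R)`), and `omS S' n ≤ C`: `β ≤ C`, `F² = β² (1 - κ ω)² ≤ C β`. Take `C` the maximum of all constants.
-/

set_option autoImplicit false

namespace Pool.Agent.H96.FL

open Finset Pool.Agent.H17 Pool.Agent.H6.MF Pool.Agent.H6.MB Pool.Agent.H12.DM Pool.Agent.H6.AE Pool.Agent.H96.AE Pool.Agent.H96.AS

private theorem GFX_TD {P : ℕ} {B g C : ℝ} {F : ℤ → ℝ} (h : TD P B F) (hg : 0 ≤ g) (hgC : g ≤ C) :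
    TD P (C * B) (fun n => g * F n) := by
  obtain ⟨D, lam, h1, h2, h3⟩ := h
  refine ⟨D, fun d => g * lam d, h1, fun n => ?_, ?_⟩
  · simp only
    rw [h2 n, Finset.mul_sum]
    refine Finset.sum_congr rfl fun d _ => ?_
    split_ifs
    · rfl
    · rw [mul_zero]
  · simp only [abs_mul]
    rw [← Finset.mul_sum, abs_of_nonneg hg]
    exact mul_le_mul hgC h3 (Finset.sum_nonneg fun d _ => abs_nonneg _) (hg.trans hgC)

private theorem GFX_avg (P : ℕ) (F : ℤ → ℝ) (g : ℝ) : avgP P (fun n => g * F n) = g * avgP P F := by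
  unfold avgP
  rw [← Finset.mul_sum, mul_div_assoc]

private theorem GFX_sub (P : ℕ) (F G : ℤ → ℝ) : avgP P (fun n => F n - G n) = avgP P F - avgP P G := by
  unfold avgP
  rw [Finset.sum_sub_distrib, sub_div]

private theorem GFX_nonneg (P : ℕ) (F : ℤ → ℝ) (hF : ∀ n, 0 ≤ F n) : 0 ≤ avgP P F := by
  unfold avgP
  exact div_nonneg (Finset.sum_nonneg fun m _ => hF _) (Nat.cast_nonneg _)

private theorem GFX_prime {w z : ℝ} : ∀ p ∈ PI w z, p.Prime := fun p hp => by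
  unfold PI at hp
  exact (Finset.mem_filter.mp hp).2.1

private theorem GFX_le {w z : ℝ} (hz : 0 ≤ z) : ∀ p ∈ PI w z, (p : ℝ) ≤ z := fun p hp => by
  unfold PI at hp
  have h1 := Finset.mem_range.mp (Finset.mem_filter.mp hp).1
  have h2 : p ≤ ⌊z⌋₊ := by omega
  exact le_trans (by exact_mod_cast h2) (Nat.floor_le hz)

private theorem GFX_sub_PI {w z y : ℝ} (h : z ≤ y) : PI w z ⊆ PI w y := fun p hp => by
  unfold PI at hp ⊢
  rw [Finset.mem_filter, Finset.mem_range] at hp ⊢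
  have h1 : ⌊z⌋₊ ≤ ⌊y⌋₊ := Nat.floor_le_floor h
  exact ⟨by omega, hp.2⟩

/-- the divisor sum over a smaller set of primes -/
private theorem GFX_pf (S S' : Finset ℕ) (hSS : S ⊆ S') (r : Finset ℕ → ℝ) (n : ℤ) :
    pf S' (fun T => if T ⊆ S then r T else 0) n = pf S r n := by
  classical
  unfold pf
  have h1 : ∀ T ∈ S'.powerset, (if T ⊆ S then r T else 0) * (if ∀ p ∈ T, (p : ℤ) ∣ n then (1 : ℝ) else 0) =
      if T ⊆ S then r T * (if ∀ p ∈ T, (p : ℤ) ∣ n then 1 else 0) else 0 := by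
    intro T _
    by_cases h : T ⊆ S
    · rw [if_pos h, if_pos h]
    · rw [if_neg h, if_neg h, zero_mul]
  rw [Finset.sum_congr rfl h1, ← Finset.sum_filter]
  apply Finset.sum_congr _ (fun _ _ => rfl)
  ext T
  rw [Finset.mem_filter, Finset.mem_powerset, Finset.mem_powerset]
  exact ⟨fun h => h.2, fun h => ⟨h.trans hSS, h⟩⟩

private theorem GFX_core (x z R y C1 C2 C3 L : ℝ) (hz : 1 ≤ z) (hzR : z ≤ R) (hRy : R ≤ y)
    (hG1 : 1 ≤ sG (PI z R) R) (hG2 : sG (PI z R) R ≤ C1) (hC3 : 0 < C3)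
    (hTD : ∀ c : Finset ℕ → ℝ, (∀ T : Finset ℕ, T ⊆ PI z y → |c T| ≤ 9 ^ T.card) →
      (∀ T : Finset ℕ, T ⊆ PI z y → R ^ 2 * y < ∏ p ∈ T, (p : ℝ) → c T = 0) →
      TD (PR z y) (C2 * (R ^ 2 * y)) (pf (PI z y) c))
    (hcorr : ∀ c : Finset ℕ → ℝ, (∀ T : Finset ℕ, T ⊆ PI z y → |c T| ≤ 9 ^ T.card) →
      ∀ k : ℤ, k ≠ 0 → |(k : ℝ)| ≤ 4 * L ^ 2 →
      avgP (PR z y) (fun n => pf (PI z y) c n * pf (PI z y) c (n + k)) ≤
        avgP (PR z y) (pf (PI z y) c) ^ 2 + 1 / L ^ 2)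
    (hL0 : 0 < L) (hL : C1 ^ 2 ≤ L)
    (hsup : ∀ n : ℤ, 0 < n → (n : ℝ) ≤ 2 * x → (omS (PI z y) n : ℝ) ≤ C3 ∧
      ∀ c : Finset ℕ → ℝ, (∀ T : Finset ℕ, T ⊆ PI z y → |c T| ≤ 1) → |pf (PI z y) c n| ≤ C3)
    (hM : (∑ p ∈ PI z R, 1 / (p : ℝ) * ((sG (PI z R) R)⁻¹ * sH (PI z R) (R / p) R)) +
      ∑ p ∈ PI R y, 1 / (p : ℝ) ≤ 19 / 10) :
    ∃ μ : ℝ, ∃ β F : ℤ → ℝ, 1 / 50 ≤ μ ∧ μ ≤ 1 ∧
      (∀ n, 0 ≤ β n) ∧ (∀ n, F n ≤ β n) ∧
      TD (PR z y) (C1 * (C2 * (R ^ 2 * y))) β ∧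
      TD (PR z y) (C1 * (C2 * (R ^ 2 * y))) F ∧
      avgP (PR z y) β = 1 ∧ avgP (PR z y) F = μ ∧
      (∀ k : ℤ, k ≠ 0 → |(k : ℝ)| ≤ 4 * L ^ 2 →
        avgP (PR z y) (fun n => F n * F (n + k)) ≤ μ ^ 2 + 1 / L) ∧
      (∀ n : ℤ, 0 < n → (n : ℝ) ≤ 2 * x → β n ≤ C1 * C3 ^ 2 * (1 + C3) ^ 2 ∧
        F n ^ 2 ≤ C1 * C3 ^ 2 * (1 + C3) ^ 2 * β n) ∧
      ∀ n : ℤ, 0 < F n → omS (PI z y) n ≤ 1 := by
  have hR : 1 ≤ R := hz.trans hzR
  have hy : 1 ≤ y := hR.trans hRy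
  have hS : ∀ p ∈ PI z R, p.Prime := GFX_prime
  have hS' : ∀ p ∈ PI z y, p.Prime := GFX_prime
  have hSS : PI z R ⊆ PI z y := GFX_sub_PI hRy
  have hr1 : ∀ T : Finset ℕ, T ⊆ PI z R → |sr (PI z R) R T| ≤ 1 := fun T hT => SEL_le _ R hR hS T hT
  have hr0 : ∀ T : Finset ℕ, T ⊆ PI z R → R < ∏ p ∈ T, (p : ℝ) → sr (PI z R) R T = 0 :=
    fun T _ hT' => SEL_zero _ R hS T hT'
  obtain ⟨f, hf1, hf2, hf3⟩ := GFX_coef (PI z R) (PI z y) hS' hSS (sr (PI z R) R) R y (51 / 100) hR hy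
    (by norm_num) (by norm_num) (GFX_le (by linarith)) hr1 hr0
  obtain ⟨g, hg1, hg2, hg3⟩ := GFX_coef (PI z R) (PI z y) hS' hSS (sr (PI z R) R) R y 0 hR hy
    le_rfl (by norm_num) (GFX_le (by linarith)) hr1 hr0
  have hb1 := GFXb1 z R y hz hzR hRy
  have hb2 := GFXb2 z R y hz hzR hRy
  have hG0 : 0 < sG (PI z R) R := by linarith
  have hC1 : 1 ≤ C1 := hG1.trans hG2
  have hβ0 : ∀ n : ℤ, 0 ≤ sG (PI z R) R * pf (PI z R) (sr (PI z R) R) n ^ 2 := fun n =>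
    mul_nonneg hG0.le (sq_nonneg _)
  have hF3 : ∀ n : ℤ, sG (PI z R) R * pf (PI z R) (sr (PI z R) R) n ^ 2 *
      (1 - 51 / 100 * (omS (PI z y) n : ℝ)) = sG (PI z R) R * pf (PI z y) f n := fun n => by
    rw [← hf3 n]
    ring
  have hB3 : ∀ n : ℤ, sG (PI z R) R * pf (PI z R) (sr (PI z R) R) n ^ 2 =
      sG (PI z R) R * pf (PI z y) g n := fun n => by
    rw [← hg3 n]
    ring
  have havg : avgP (PR z y) (fun n => sG (PI z R) R * pf (PI z R) (sr (PI z R) R) n ^ 2) = 1 := by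
    rw [GFX_avg (PR z y) (fun n => pf (PI z R) (sr (PI z R) R) n ^ 2), hb1]
    exact mul_inv_cancel₀ hG0.ne'
  have hFavg : avgP (PR z y) (fun n => sG (PI z R) R * pf (PI z R) (sr (PI z R) R) n ^ 2 *
      (1 - 51 / 100 * (omS (PI z y) n : ℝ))) =
      1 - 51 / 100 * (sG (PI z R) R *
        avgP (PR z y) (fun n => pf (PI z R) (sr (PI z R) R) n ^ 2 * omS (PI z y) n)) := by
    have h1 : (fun n : ℤ => sG (PI z R) R * pf (PI z R) (sr (PI z R) R) n ^ 2 *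
        (1 - 51 / 100 * (omS (PI z y) n : ℝ))) =
        fun n : ℤ => (sG (PI z R) R * pf (PI z R) (sr (PI z R) R) n ^ 2) -
          (51 / 100 * sG (PI z R) R) * (pf (PI z R) (sr (PI z R) R) n ^ 2 * (omS (PI z y) n : ℝ)) := by
      funext n
      ring
    rw [h1, GFX_sub (PR z y) (fun n : ℤ => sG (PI z R) R * pf (PI z R) (sr (PI z R) R) n ^ 2)
      (fun n : ℤ => (51 / 100 * sG (PI z R) R) * (pf (PI z R) (sr (PI z R) R) n ^ 2 * (omS (PI z y) n : ℝ))),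
      havg, GFX_avg (PR z y) (fun n : ℤ => pf (PI z R) (sr (PI z R) R) n ^ 2 * (omS (PI z y) n : ℝ))]
    ring
  have hω1 : sG (PI z R) R *
      avgP (PR z y) (fun n => pf (PI z R) (sr (PI z R) R) n ^ 2 * omS (PI z y) n) ≤ 19 / 10 := by
    calc sG (PI z R) R * avgP (PR z y) (fun n => pf (PI z R) (sr (PI z R) R) n ^ 2 * omS (PI z y) n)
        ≤ sG (PI z R) R * ((sG (PI z R) R)⁻¹ *
          (∑ p ∈ PI z R, 1 / (p : ℝ) * ((sG (PI z R) R)⁻¹ * sH (PI z R) (R / p) R) +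
            ∑ p ∈ PI R y, 1 / (p : ℝ))) := mul_le_mul_of_nonneg_left hb2 hG0.le
      _ = ∑ p ∈ PI z R, 1 / (p : ℝ) * ((sG (PI z R) R)⁻¹ * sH (PI z R) (R / p) R) +
            ∑ p ∈ PI R y, 1 / (p : ℝ) := by
          rw [← mul_assoc, mul_inv_cancel₀ hG0.ne', one_mul]
      _ ≤ 19 / 10 := hM
  have hω0 : 0 ≤ sG (PI z R) R *
      avgP (PR z y) (fun n => pf (PI z R) (sr (PI z R) R) n ^ 2 * omS (PI z y) n) :=
    mul_nonneg hG0.le (GFX_nonneg _ _ fun n => mul_nonneg (sq_nonneg _) (Nat.cast_nonneg _))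
  refine ⟨avgP (PR z y) (fun n => sG (PI z R) R * pf (PI z R) (sr (PI z R) R) n ^ 2 *
      (1 - 51 / 100 * (omS (PI z y) n : ℝ))),
    fun n => sG (PI z R) R * pf (PI z R) (sr (PI z R) R) n ^ 2,
    fun n => sG (PI z R) R * pf (PI z R) (sr (PI z R) R) n ^ 2 * (1 - 51 / 100 * (omS (PI z y) n : ℝ)),
    ?_, ?_, hβ0, ?_, ?_, ?_, havg, rfl, ?_, ?_, ?_⟩
  · rw [hFavg]
    linarith
  · rw [hFavg]
    linarith
  · intro n
    have h1 := hβ0 n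
    have h2 : (0 : ℝ) ≤ (omS (PI z y) n : ℝ) := Nat.cast_nonneg _
    have h3 := mul_nonneg h1 h2
    simp only
    linarith
  · have h1 : (fun n : ℤ => sG (PI z R) R * pf (PI z R) (sr (PI z R) R) n ^ 2) =
        fun n : ℤ => sG (PI z R) R * pf (PI z y) g n := funext hB3
    rw [h1]
    exact GFX_TD (hTD g hg1 hg2) hG0.le hG2
  · have h1 : (fun n : ℤ => sG (PI z R) R * pf (PI z R) (sr (PI z R) R) n ^ 2 *
        (1 - 51 / 100 * (omS (PI z y) n : ℝ))) =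
        fun n : ℤ => sG (PI z R) R * pf (PI z y) f n := funext hF3
    rw [h1]
    exact GFX_TD (hTD f hf1 hf2) hG0.le hG2
  · intro k hk hk'
    have h1 : (fun n : ℤ => sG (PI z R) R * pf (PI z R) (sr (PI z R) R) n ^ 2 *
        (1 - 51 / 100 * (omS (PI z y) n : ℝ))) =
        fun n : ℤ => sG (PI z R) R * pf (PI z y) f n := funext hF3
    have h2 : (fun n : ℤ => (sG (PI z R) R * pf (PI z R) (sr (PI z R) R) n ^ 2 *
        (1 - 51 / 100 * (omS (PI z y) n : ℝ))) *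
        (sG (PI z R) R * pf (PI z R) (sr (PI z R) R) (n + k) ^ 2 *
        (1 - 51 / 100 * (omS (PI z y) (n + k) : ℝ)))) =
        fun n : ℤ => (sG (PI z R) R) ^ 2 * (pf (PI z y) f n * pf (PI z y) f (n + k)) := by
      funext n
      rw [hF3 n, hF3 (n + k)]
      ring
    simp only
    rw [h2, h1, GFX_avg (PR z y) (fun n : ℤ => pf (PI z y) f n * pf (PI z y) f (n + k)),
      GFX_avg (PR z y) (pf (PI z y) f)]
    have h3 := hcorr f hf1 k hk hk'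
    have h4 : (sG (PI z R) R) ^ 2 ≤ L := by
      refine le_trans ?_ hL
      exact pow_le_pow_left₀ hG0.le hG2 2
    have h5 : 0 < L ^ 2 := by positivity
    calc (sG (PI z R) R) ^ 2 * avgP (PR z y) (fun n : ℤ => pf (PI z y) f n * pf (PI z y) f (n + k))
        ≤ (sG (PI z R) R) ^ 2 * (avgP (PR z y) (pf (PI z y) f) ^ 2 + 1 / L ^ 2) :=
          mul_le_mul_of_nonneg_left h3 (sq_nonneg _)
      _ = (sG (PI z R) R * avgP (PR z y) (pf (PI z y) f)) ^ 2 + (sG (PI z R) R) ^ 2 / L ^ 2 := by ring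
      _ ≤ (sG (PI z R) R * avgP (PR z y) (pf (PI z y) f)) ^ 2 + L / L ^ 2 := by
          have h6 := div_le_div_of_nonneg_right h4 h5.le
          linarith
      _ = (sG (PI z R) R * avgP (PR z y) (pf (PI z y) f)) ^ 2 + 1 / L := by
          rw [sq L, div_mul_eq_div_div, div_self hL0.ne']
  · intro n hn hn2
    obtain ⟨h1, h2⟩ := hsup n hn hn2
    have h3 := h2 (fun T => if T ⊆ PI z R then sr (PI z R) R T else 0) (by
      intro T _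
      by_cases h : T ⊆ PI z R
      · rw [if_pos h]
        exact hr1 T h
      · rw [if_neg h, abs_zero]
        exact zero_le_one)
    rw [GFX_pf _ _ hSS] at h3
    have h4 : pf (PI z R) (sr (PI z R) R) n ^ 2 ≤ C3 ^ 2 := by
      rw [← sq_abs]
      exact pow_le_pow_left₀ (abs_nonneg _) h3 2
    have h5 : sG (PI z R) R * pf (PI z R) (sr (PI z R) R) n ^ 2 ≤ C1 * C3 ^ 2 :=
      mul_le_mul hG2 h4 (sq_nonneg _) (by linarith)
    have h6 : (0 : ℝ) ≤ (omS (PI z y) n : ℝ) := Nat.cast_nonneg _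
    have h7 : (1 : ℝ) ≤ (1 + C3) ^ 2 := by nlinarith
    have h8 : 0 ≤ C1 * C3 ^ 2 := by positivity
    have h9 : (1 - 51 / 100 * (omS (PI z y) n : ℝ)) ^ 2 ≤ (1 + C3) ^ 2 := by
      apply sq_le_sq'
      · linarith
      · linarith
    simp only
    constructor
    · calc sG (PI z R) R * pf (PI z R) (sr (PI z R) R) n ^ 2 ≤ C1 * C3 ^ 2 * 1 := by linarith
        _ ≤ C1 * C3 ^ 2 * (1 + C3) ^ 2 := mul_le_mul_of_nonneg_left h7 h8
    · calc (sG (PI z R) R * pf (PI z R) (sr (PI z R) R) n ^ 2 * (1 - 51 / 100 * (omS (PI z y) n : ℝ))) ^ 2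
          = (sG (PI z R) R * pf (PI z R) (sr (PI z R) R) n ^ 2 *
            (1 - 51 / 100 * (omS (PI z y) n : ℝ)) ^ 2) *
            (sG (PI z R) R * pf (PI z R) (sr (PI z R) R) n ^ 2) := by ring
        _ ≤ (C1 * C3 ^ 2 * (1 + C3) ^ 2) * (sG (PI z R) R * pf (PI z R) (sr (PI z R) R) n ^ 2) := by
            apply mul_le_mul_of_nonneg_right _ (hβ0 n)
            exact mul_le_mul h5 h9 (sq_nonneg _) h8
  · intro n hn
    by_contra hcon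
    have h1 : 2 ≤ omS (PI z y) n := by omega
    have h2 : (2 : ℝ) ≤ (omS (PI z y) n : ℝ) := by exact_mod_cast h1
    have h3 := hβ0 n
    have h4 : sG (PI z R) R * pf (PI z R) (sr (PI z R) R) n ^ 2 *
        (1 - 51 / 100 * (omS (PI z y) n : ℝ)) ≤ 0 :=
      mul_nonpos_of_nonneg_of_nonpos h3 (by linarith)
    simp only at hn
    linarith

theorem GFX : ∃ m₀ : ℕ, ∀ m : ℕ, m₀ ≤ m → ∃ b₀ : ℕ, ∀ b : ℕ, b₀ ≤ b → ∃ C X : ℝ, 0 < C ∧ ∀ x : ℝ, X ≤ x →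
    ∀ V : ℤ → ℝ, GoodVm m b x V → ∃ μ : ℝ, ∃ β F : ℤ → ℝ, 1 / 50 ≤ μ ∧ μ ≤ 1 ∧
    GoodF (dlm m b) (13 / 50) (1 / 250) C μ x β F ∧
    ∀ n : ℤ, 0 < F n → omS (PI (x ^ dlm m b) (x ^ (13 / 50 : ℝ))) n ≤ 1 := by
  obtain ⟨m₀, hm₀⟩ := MNB
  refine ⟨m₀, fun m hm => ?_⟩
  obtain ⟨b₀, hb₀⟩ := hm₀ m hm
  refine ⟨b₀, fun b hb => ?_⟩
  obtain ⟨X1, hX1⟩ := hb₀ b hb
  have hδ := dlm_pos m b
  have hδ2 := dlm_le m b
  obtain ⟨C1, X2, hC1, hX2⟩ := MNB_G (dlm m b) (59 / 500) hδ (by linarith)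
  obtain ⟨C2, X3, hC2, hX3⟩ := PFC_TD (dlm m b) (13 / 50) 9 hδ (by linarith) (by norm_num) (by norm_num)
  obtain ⟨X4, hX4⟩ := PFC_corr (dlm m b) (13 / 50) 9 hδ (by linarith) (by norm_num) (by norm_num)
  obtain ⟨C3, X5, hC3, hX5⟩ := PFC_sup (dlm m b) (13 / 50) hδ (by linarith) (by norm_num)
  refine ⟨C1 * C2 + C1 * C3 ^ 2 * (1 + C3) ^ 2,
    max (max X1 X2) (max (max X3 X4) (max X5 (Real.exp (C1 ^ 2 + 1)))), by positivity, ?_⟩
  intro x hx V hV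
  have hx1 : X1 ≤ x := le_trans (le_trans (le_max_left _ _) (le_max_left _ _)) hx
  have hx2 : X2 ≤ x := le_trans (le_trans (le_max_right _ _) (le_max_left _ _)) hx
  have hx3 : X3 ≤ x :=
    le_trans (le_trans (le_trans (le_max_left _ _) (le_max_left _ _)) (le_max_right _ _)) hx
  have hx4 : X4 ≤ x :=
    le_trans (le_trans (le_trans (le_max_right _ _) (le_max_left _ _)) (le_max_right _ _)) hx
  have hx5 : X5 ≤ x :=
    le_trans (le_trans (le_trans (le_max_left _ _) (le_max_right _ _)) (le_max_right _ _)) hx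
  have hx6 : Real.exp (C1 ^ 2 + 1) ≤ x :=
    le_trans (le_trans (le_trans (le_max_right _ _) (le_max_right _ _)) (le_max_right _ _)) hx
  have hx7 : 1 ≤ x := by
    have h1 := Real.add_one_le_exp (C1 ^ 2 + 1)
    have h2 := sq_nonneg C1
    linarith
  have hx0 : 0 < x := by linarith
  have hlog : C1 ^ 2 + 1 ≤ Real.log x := by
    rw [Real.le_log_iff_exp_le hx0]
    exact hx6
  have hz : 1 ≤ x ^ dlm m b := Real.one_le_rpow hx7 hδ.le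
  have hzR : x ^ dlm m b ≤ x ^ (59 / 500 : ℝ) := Real.rpow_le_rpow_of_exponent_le hx7 (by linarith)
  have hRy : x ^ (59 / 500 : ℝ) ≤ x ^ (13 / 50 : ℝ) := Real.rpow_le_rpow_of_exponent_le hx7 (by norm_num)
  have hY : (x ^ (59 / 500 : ℝ)) ^ 2 * x ^ (13 / 50 : ℝ) = x ^ (1 / 2 - 1 / 250 : ℝ) := by
    rw [← Real.rpow_natCast, ← Real.rpow_mul hx0.le, ← Real.rpow_add hx0]
    congr 1
    norm_num
  have hY1 : 1 ≤ (x ^ (59 / 500 : ℝ)) ^ 2 * x ^ (13 / 50 : ℝ) := by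
    rw [hY]
    exact Real.one_le_rpow hx7 (by norm_num)
  have hYx : (x ^ (59 / 500 : ℝ)) ^ 2 * x ^ (13 / 50 : ℝ) ≤ x := by
    rw [hY]
    calc x ^ (1 / 2 - 1 / 250 : ℝ) ≤ x ^ (1 : ℝ) := Real.rpow_le_rpow_of_exponent_le hx7 (by norm_num)
      _ = x := Real.rpow_one x
  obtain ⟨hG0, hG1, hG2⟩ := hX2 x hx2
  obtain ⟨μ, β, F, a1, a2, a3, a4, a5, a6, a7, a8, a9, a10, a11⟩ :=
    GFX_core x (x ^ dlm m b) (x ^ (59 / 500 : ℝ)) (x ^ (13 / 50 : ℝ)) C1 C2 C3 (Real.log x) hz hzR hRy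
      hG1 hG2 hC3
      (fun c hc hc' => hX3 x hx3 c hc _ hY1 hYx hc')
      (fun c hc k hk hk' => hX4 x hx4 c hc k hk hk')
      (by nlinarith [sq_nonneg C1]) (by linarith)
      (fun n hn hn2 => hX5 x hx5 n hn hn2)
      (hX1 x hx1 V hV)
  have hC4 : 0 ≤ C1 * C3 ^ 2 * (1 + C3) ^ 2 := by positivity
  have hC5 : 0 ≤ C1 * C2 := by positivity
  have hTDle : C1 * (C2 * ((x ^ (59 / 500 : ℝ)) ^ 2 * x ^ (13 / 50 : ℝ))) ≤
      (C1 * C2 + C1 * C3 ^ 2 * (1 + C3) ^ 2) * x ^ (1 / 2 - 1 / 250 : ℝ) := by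
    rw [hY]
    have h1 : 0 ≤ x ^ (1 / 2 - 1 / 250 : ℝ) := (Real.rpow_pos_of_pos hx0 _).le
    have h2 := mul_nonneg hC4 h1
    linarith
  refine ⟨μ, β, F, a1, a2, ⟨a3, a4, TD_mono a5 dvd_rfl hTDle, TD_mono a6 dvd_rfl hTDle, a7, a8, a9, ?_⟩, a11⟩
  intro n hn hn2
  obtain ⟨h1, h2⟩ := a10 n hn hn2
  refine ⟨by linarith, ?_⟩
  have h3 := mul_nonneg hC5 (a3 n)
  linarith

end Pool.Agent.H96.FL
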