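import Pool.Agent.H96.FL.OFg
import Pool.Agent.H96.FL.OFD
import Pool.Agent.H96.FL.NMD
import Pool.Agent.H96.FL.GFX
import Pool.Agent.H96.FD.LO
import Pool.Agent.H96.AS.TS

/-!
# UWL: the lower bound, weighted form

Compare `FN` (`Pool/Agent/H96/FD/FNa.lean`) and `UWF`. `η = 1/250`, `v = 13/50`, `m ≥ m₀` (`GFX`), `k + 2 ≤ m`, `k + 4 ≤ 10 (m+1) η`, `b ≥ b₀` (`GFX`), `b ≥ b₁` (`NMD m`) by `TS_choose m k (100 * 2^(k+4)) ε`; `δ = dlm m b`, `C` from `GFX`, `V`, `D` from `NMD`, `μ ≥ 1/50`, `β`, `F` from `GFX`. `T = ∑_{e∈E} sW x (insert e S)`.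
`OFg` (`σ = 1`) and `OFD`: `∑_e ∑_n G Mm V F(n-e) ≥ μ ∑_e ∑_n G Mm(n-e) - A₀ 2^(k+4) √(2 (1/2)^b) N T` and `∑_e ∑_n G Mm D β(n-e) ≤ A₀ 2^(k+4) (1/2)^b N T`.
Pointwise for `0 < n ≤ 2x` (all `n - e`, `n ∈ JJ x H`, `e ∈ [1,H]` for large `x`), `z = x^δ`, `w = yy x ≤ z`: `Mm w n * (V n * F n) ≤ (C/c₂) * (log x if q4 x δ n, else 0) + Mm w n * (D n * β n)`: if `gcd(n, W) > 1`: left side `0`; if `n` is coprime to `W` and has a prime factor in `(w,z]`: `V F ≤ V β ≤ D β`;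
otherwise `Mm w n * V n = (EP 0 z)⁻¹ ≤ log z/c₂ ≤ log x/c₂` (`mer2`, `wp_eq`, `EP_mul`) and `F n ≤ 0`, or `0 < F n ≤ β n ≤ C` and `omS ≤ 1` (`GFX`), so `q4 x δ n`. So `(C/c₂) ∑_e ∑_n G (log x) 1[q4 (n-e)] ≥ (1/50) ∑∑ G Mm - 2 A₀ 2^(k+4) √(2 (1/2)^b) N T ≥ (1/50) (∑∑ G Mm - ε N T)`; `c = c₂/(50 C)`.
-/

set_option autoImplicit false

namespace Pool.Agent.H96.FL

open Finset Pool.Agent.H17 Pool.Agent.H6.MF Pool.Agent.H6.MB Pool.Agent.H12.DM Pool.Agent.H6.AE Pool.Agent.H96.AE Pool.Agent.H96.AS Pool.Agent.H96.FD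

private lemma UWL_large (m b : ℕ) : ∃ X : ℝ, ∀ x : ℝ, X ≤ x → 1 ≤ x ∧ 1 ≤ Real.log x ∧ (Real.log x) ^ 2 ≤ x ∧
    2 ≤ x ^ dlm m b ∧ (yy x : ℝ) ≤ x ^ dlm m b := by
  have hd := dlm_pos m b
  have h1 : ∀ᶠ x : ℝ in Filter.atTop, 1 ≤ x := Filter.eventually_ge_atTop 1
  have h2 : ∀ᶠ x : ℝ in Filter.atTop, 1 ≤ Real.log x := Real.tendsto_log_atTop.eventually_ge_atTop 1
  have h3 : ∀ᶠ x : ℝ in Filter.atTop, 2 ≤ x ^ dlm m b := (tendsto_rpow_atTop hd).eventually_ge_atTop 2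
  have h4 : ∀ᶠ t : ℝ in Filter.atTop, ‖Real.log t‖ ≤ dlm m b * ‖id t‖ := Real.isLittleO_log_id_atTop.bound hd
  have h5 : ∀ᶠ x : ℝ in Filter.atTop, ‖Real.log (Real.log x)‖ ≤ dlm m b * ‖id (Real.log x)‖ :=
    Real.tendsto_log_atTop.eventually h4
  have h6 := eventually_log_pow_le 2 (show (0 : ℝ) < 1 by norm_num)
  obtain ⟨X, hX⟩ := Filter.eventually_atTop.1 (h1.and (h2.and (h3.and (h5.and h6))))
  refine ⟨X, fun x hx => ?_⟩
  obtain ⟨a1, a2, a3, a4, a5⟩ := hX x hx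
  refine ⟨a1, a2, by linarith, a3, ?_⟩
  have e1 : 0 ≤ Real.log (Real.log x) := Real.log_nonneg a2
  have e2 : Real.log (Real.log x) ≤ dlm m b * Real.log x := by
    simp only [id, Real.norm_eq_abs] at a4
    rw [abs_of_nonneg e1, abs_of_nonneg (by linarith)] at a4
    exact a4
  have e3 : ((yy x : ℕ) : ℝ) ≤ Real.log (Real.log x) / 100 := by
    unfold yy
    exact Nat.floor_le (by positivity)
  have e4 : x ^ dlm m b = Real.exp (Real.log x * dlm m b) := Real.rpow_def_of_pos (by linarith) _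
  rw [e4]
  have e5 := Real.add_one_le_exp (Real.log x * dlm m b)
  linarith

open scoped Classical in
/-- the pointwise bound -/
private lemma UWL_pt {m b : ℕ} {x C c₂ μ η : ℝ} {V D β F : ℤ → ℝ} (hL1 : 1 ≤ Real.log x) (hx1 : 1 ≤ x)
    (hz2 : 2 ≤ x ^ dlm m b) (hzw : (yy x : ℝ) ≤ x ^ dlm m b) (hc₂ : 0 < c₂)
    (hmer : ∀ z : ℝ, 2 ≤ z → c₂ / Real.log z ≤ EP 0 z) (hC : 0 < C)
    (hV : GoodVm m b x V) (hD : GoodDm m b x V D) (hF : GoodF (dlm m b) (13 / 50) η C μ x β F)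
    (hq : ∀ n : ℤ, 0 < F n → omS (PI (x ^ dlm m b) (x ^ (13 / 50 : ℝ))) n ≤ 1)
    {n : ℤ} (hn0 : 0 < n) (hn : (n : ℝ) ≤ 2 * x) :
    Mm (yy x) n * (V n * F n) ≤ (C / c₂) * (if q4 x (dlm m b) n then Real.log x else 0) +
      Mm (yy x) n * (D n * β n) := by
  have hd := dlm_pos m b
  have hd1 := dlm_le m b
  obtain ⟨V0, V1, -⟩ := hV
  obtain ⟨D0, D1, -⟩ := hD
  obtain ⟨β0, Fβ, -, -, -, -, -, βC⟩ := hF
  have hL0 : 0 < Real.log x := by linarith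
  have hQ0 : 0 ≤ (C / c₂) * (if q4 x (dlm m b) n then Real.log x else 0) := by
    apply mul_nonneg (by positivity)
    split_ifs
    · exact hL0.le
    · exact le_rfl
  have hD0 : 0 ≤ Mm (yy x) n * (D n * β n) := mul_nonneg (Mm_nonneg _ _) (mul_nonneg (D0 n) (β0 n))
  by_cases hg : Int.gcd n (WW (yy x) : ℤ) = 1
  · by_cases hp : ∃ p ∈ PI (yy x : ℝ) (x ^ dlm m b), (p : ℤ) ∣ n
    · have h1 : V n * F n ≤ D n * β n :=
        (mul_le_mul_of_nonneg_left (Fβ n) (V0 n)).trans (mul_le_mul_of_nonneg_right (D1 n hp) (β0 n))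
      have h2 := mul_le_mul_of_nonneg_left h1 (Mm_nonneg (yy x) n)
      linarith
    · push Not at hp
      have hM : Mm (yy x) n = wp (yy x) := by
        unfold Mm
        rw [if_pos hg]
      have hMV : Mm (yy x) n * V n = (EP 0 (x ^ dlm m b))⁻¹ := by
        rw [hM, V1 n hp, wp_eq, ← mul_inv, ← EP_mul (by positivity) hzw]
      rcases le_or_gt (F n) 0 with hF0 | hF0
      · have h1 : Mm (yy x) n * (V n * F n) ≤ 0 :=
          mul_nonpos_of_nonneg_of_nonpos (Mm_nonneg _ _) (mul_nonpos_of_nonneg_of_nonpos (V0 n) hF0)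
        linarith
      · have hq4 : q4 x (dlm m b) n := by
          refine ⟨fun p hpp hpz hdv => ?_, hq n hF0⟩
          rcases le_or_gt (p : ℝ) (yy x : ℝ) with hpy | hpy
          · have h1 : p ∈ PP (yy x) := mem_PP.2 ⟨by exact_mod_cast hpy, hpp⟩
            exact (Rr_gcd n (yy x)).1 hg p h1 hdv
          · refine hp p ?_ hdv
            unfold PI
            rw [Finset.mem_filter, Finset.mem_range, Nat.lt_succ_iff]
            exact ⟨Nat.le_floor hpz, hpp, hpy⟩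
        rw [if_pos hq4]
        have hFC : F n ≤ C := (Fβ n).trans (βC n hn0 hn).1
        have hlog : Real.log (x ^ dlm m b) = dlm m b * Real.log x := Real.log_rpow (by linarith) _
        have h1 : (EP 0 (x ^ dlm m b))⁻¹ ≤ Real.log x / c₂ := by
          have h2 := hmer (x ^ dlm m b) hz2
          rw [hlog] at h2
          have h3 : 0 < dlm m b * Real.log x := by positivity
          have h4 : (EP 0 (x ^ dlm m b))⁻¹ ≤ (c₂ / (dlm m b * Real.log x))⁻¹ :=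
            inv_anti₀ (by positivity) h2
          rw [inv_div] at h4
          refine h4.trans ?_
          apply div_le_div_of_nonneg_right _ hc₂.le
          nlinarith
        have h5 : Mm (yy x) n * (V n * F n) ≤ C / c₂ * Real.log x := by
          rw [← mul_assoc, hMV]
          have h6 : 0 ≤ (EP 0 (x ^ dlm m b))⁻¹ := (inv_pos.2 (EP_pos _ _)).le
          calc (EP 0 (x ^ dlm m b))⁻¹ * F n ≤ (Real.log x / c₂) * C :=
                mul_le_mul h1 hFC hF0.le (by positivity)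
            _ = _ := by ring
        linarith
  · have hM : Mm (yy x) n = 0 := by
      unfold Mm
      rw [if_neg hg]
    rw [hM, zero_mul]
    rw [hM, zero_mul] at hD0
    linarith

open scoped Classical in
theorem UWL (k : ℕ) (ε : ℝ) (hε : 0 < ε) : ∃ δ : ℝ, 0 < δ ∧ δ ≤ 1 / 320 ∧ ∃ c K X : ℝ, 0 < c ∧ 1 ≤ K ∧
    ∀ x : ℝ, X ≤ x → ∀ H : ℕ, (H : ℝ) ≤ (Real.log x) ^ 2 →
    ∀ S : Finset ℤ, S ⊆ Finset.Icc 1 (H : ℤ) → S.card = k →
    ∀ G : ℤ → ℝ, (∀ n, 0 ≤ G n) → (∀ n, G n ≤ ∏ c ∈ S, La x (n - c)) →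
    ∀ E : Finset ℤ, E ⊆ Finset.Icc 1 (H : ℤ) \ S → K * Real.log x ≤ (E.card : ℝ) → (∀ e ∈ E, adm (insert e S)) →
    c * ((∑ e ∈ E, ∑ n ∈ JJ x H, G (n : ℤ) * Mm (yy x) ((n : ℤ) - e)) -
        ε * ((⌊x⌋₊ : ℝ) + 1) * ∑ e ∈ E, sW x (insert e S)) ≤
      ∑ e ∈ E, ∑ n ∈ JJ x H, G (n : ℤ) * (if q4 x δ ((n : ℤ) - e) then Real.log x else 0) := by
  obtain ⟨c₂, hc₂, hmer⟩ := mer2
  obtain ⟨m₀, hGF⟩ := GFX
  obtain ⟨m, hmm, hm1, hm2⟩ : ∃ m : ℕ, m₀ ≤ m ∧ k + 2 ≤ m ∧ (k : ℝ) + 4 ≤ 10 * ((m : ℝ) + 1) * (1 / 250) := by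
    refine ⟨max m₀ (max (k + 2) (25 * (k + 4))), le_max_left _ _, (le_max_left _ _).trans (le_max_right _ _), ?_⟩
    have h1 : ((25 * (k + 4) : ℕ) : ℝ) ≤ ((max m₀ (max (k + 2) (25 * (k + 4))) : ℕ) : ℝ) := by
      exact_mod_cast (le_max_right _ _).trans (le_max_right _ _)
    push_cast at h1 ⊢
    linarith
  obtain ⟨b₀, hGF⟩ := hGF m hmm
  obtain ⟨b₁, hNMD⟩ := NMD m
  obtain ⟨b, hb, hbD⟩ := TS_choose m k (100 * 2 ^ (k + 4)) ε (by positivity) hε (max b₀ b₁)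
  obtain ⟨C, X₁, hC0, hGF⟩ := hGF b ((le_max_left _ _).trans hb)
  obtain ⟨X₂, hNMD⟩ := hNMD b ((le_max_right _ _).trans hb)
  set δ : ℝ := dlm m b with hδdef
  have hδ0 : 0 < δ := dlm_pos m b
  have hδ1 : δ ≤ 1 / 320 := dlm_le m b
  have hδv : δ < 13 / 50 := by linarith
  obtain ⟨C₁, X₃, hC1, hOF⟩ := OFg m b k (13 / 50) (1 / 250) C (by norm_num) (by norm_num) hm1 hm2 hC0 hδv
  obtain ⟨X₄, hOD⟩ := OFD m b k (13 / 50) (1 / 250) C (by norm_num) (by norm_num) hm1 hm2 hC0 hδv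
  obtain ⟨X₅, hBM⟩ := BMU_maj m b
  obtain ⟨X₆, hLa⟩ := UWL_large m b
  obtain ⟨c, hc0, hLO⟩ := LO k
  set K : ℝ := max 1 (C₁ * 2 ^ b / c) with hK
  have hK1 : 1 ≤ K := le_max_left _ _
  have hKC : C₁ * 2 ^ b / c ≤ K := le_max_right _ _
  refine ⟨δ, hδ0, hδ1, c₂ / (50 * C), K, max X₁ (max X₂ (max X₃ (max X₄ (max X₅ X₆)))), by positivity, hK1,
    fun x hx H hH S hS hSk G hG0 hGL E hE hcard hadm => ?_⟩
  simp only [max_le_iff] at hx
  obtain ⟨hx1, hx2, hx3, hx4, hx5, hx6⟩ := hx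
  obtain ⟨hxx, hL1, hL2, hz2, hzw⟩ := hLa x hx6
  have hx0 : 0 < x := by linarith
  have hL0 : 0 < Real.log x := by linarith
  obtain ⟨V, D, hVg, hDg⟩ := hNMD x hx2
  obtain ⟨μ, β, F, hμ0, hμ1, hFg, hq⟩ := hGF x hx1 V hVg
  have hμ00 : 0 ≤ μ := by linarith
  set N : ℝ := (⌊x⌋₊ : ℝ) + 1 with hN
  have hN0 : 0 ≤ N := by positivity
  have heD : ∀ e ∈ E, e ∉ S := fun e he => (Finset.mem_sdiff.1 (hE he)).2
  set T : ℝ := ∑ e ∈ E, sW x (insert e S) with hT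
  have hT0 : 0 ≤ T := Finset.sum_nonneg fun e _ => sW_nonneg x _
  have hS0 : 0 ≤ sW x S := sW_nonneg x _
  set q : ℝ := (1 / 2 : ℝ) ^ b with hqdef
  have hq0 : 0 < q := by positivity
  have hq1 : q ≤ 1 := pow_le_one₀ (by norm_num) (by norm_num)
  -- the lower bound for `T`
  have hTlow : C₁ * Real.log x * sW x S ≤ q * T := by
    have h1 : (E.card : ℝ) * (c * sW x S) ≤ T := by
      rw [← nsmul_eq_mul, ← Finset.sum_const]
      exact Finset.sum_le_sum fun e he => hLO x S hSk.le e (heD e he) (hadm e he)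
    have h3 : C₁ * 2 ^ b ≤ K * c := by
      rw [div_le_iff₀ hc0] at hKC
      exact hKC
    have h4 : C₁ * 2 ^ b * Real.log x * sW x S ≤ T := by
      refine le_trans ?_ h1
      have h5 : K * Real.log x * (c * sW x S) ≤ (E.card : ℝ) * (c * sW x S) :=
        mul_le_mul_of_nonneg_right hcard (by positivity)
      refine le_trans ?_ h5
      have h6 : C₁ * 2 ^ b * (Real.log x * sW x S) ≤ K * c * (Real.log x * sW x S) :=
        mul_le_mul_of_nonneg_right h3 (by positivity)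
      calc C₁ * 2 ^ b * Real.log x * sW x S = C₁ * 2 ^ b * (Real.log x * sW x S) := by ring
        _ ≤ _ := h6
        _ = _ := by ring
    have h7 : q * 2 ^ b = 1 := by
      rw [hqdef, ← mul_pow]
      norm_num
    calc C₁ * Real.log x * sW x S = (q * 2 ^ b) * (C₁ * Real.log x * sW x S) := by
          rw [h7, one_mul]
      _ = q * (C₁ * 2 ^ b * Real.log x * sW x S) := by ring
      _ ≤ _ := mul_le_mul_of_nonneg_left h4 hq0.le
  -- the majorant of `G`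
  set A₀ : ℝ := (1 + 1 / δ) ^ k with hA0
  have hA00 : 0 ≤ A₀ := by positivity
  have hLV : ∀ n : ℤ, La x n ≤ (1 + 1 / δ) * (Mm (yy x) n * (1 + V n)) := by
    intro n
    have h3 := hBM x hx5 V hVg n
    have h4 := Mm_nonneg (yy x) n
    have h5 := hVg.1 n
    have h6 : 0 ≤ 1 / δ := by positivity
    have h7 := mul_nonneg h4 h5
    have h8 := mul_nonneg h6 h4
    nlinarith
  have hGb : ∀ n, |G n| ≤ A₀ * ∏ c ∈ S, (Mm (yy x) (n - c) * (1 + V (n - c))) := by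
    intro n
    rw [abs_of_nonneg (hG0 n)]
    refine (hGL n).trans ?_
    calc ∏ c ∈ S, La x (n - c) ≤ ∏ c ∈ S, ((1 + 1 / δ) * (Mm (yy x) (n - c) * (1 + V (n - c)))) :=
          Finset.prod_le_prod (fun c _ => La_nonneg hxx _) (fun c _ => hLV _)
      _ = A₀ * ∏ c ∈ S, (Mm (yy x) (n - c) * (1 + V (n - c))) := by
          rw [Finset.prod_mul_distrib, Finset.prod_const, hSk]
  -- the two error terms
  have hErr := hOF x hx3 V hVg μ hμ00 hμ1 β F hFg H hH S hS hSk.le E hE A₀ hA00 G hGb (fun _ => 1)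
    (fun _ => ⟨zero_le_one, le_rfl⟩)
  have hsq : Real.sqrt ((q * T + C₁ * Real.log x * sW x S) * T) ≤ Real.sqrt (2 * q) * T := by
    have h1 : Real.sqrt (2 * q) * T = Real.sqrt (2 * q * T ^ 2) := by
      rw [Real.sqrt_mul (by positivity : (0 : ℝ) ≤ 2 * q) (T ^ 2), Real.sqrt_sq hT0]
    rw [h1]
    apply Real.sqrt_le_sqrt
    have h2 : (q * T + C₁ * Real.log x * sW x S) * T ≤ (q * T + q * T) * T :=
      mul_le_mul_of_nonneg_right (by linarith) hT0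
    refine h2.trans (le_of_eq ?_)
    ring
  have hsq2 : q ≤ Real.sqrt (2 * q) := by
    apply Real.le_sqrt_of_sq_le
    nlinarith
  have hE1 : μ * (∑ e ∈ E, ∑ n ∈ JJ x H, G (n : ℤ) * Mm (yy x) ((n : ℤ) - e)) -
      A₀ * 2 ^ (k + 4) * (Real.sqrt (2 * q) * T) * N ≤
      ∑ e ∈ E, ∑ n ∈ JJ x H, G (n : ℤ) * (Mm (yy x) ((n : ℤ) - e) * (V ((n : ℤ) - e) * F ((n : ℤ) - e))) := by
    have h1 : ∑ n ∈ JJ x H, G (n : ℤ) * ∑ e ∈ E, (fun _ => (1 : ℝ)) e *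
        (Mm (yy x) ((n : ℤ) - e) * (V ((n : ℤ) - e) * F ((n : ℤ) - e) - μ)) =
        (∑ e ∈ E, ∑ n ∈ JJ x H, G (n : ℤ) * (Mm (yy x) ((n : ℤ) - e) * (V ((n : ℤ) - e) * F ((n : ℤ) - e)))) -
        μ * (∑ e ∈ E, ∑ n ∈ JJ x H, G (n : ℤ) * Mm (yy x) ((n : ℤ) - e)) := by
      simp only [one_mul, Finset.mul_sum]
      rw [Finset.sum_comm, ← Finset.sum_sub_distrib]
      refine Finset.sum_congr rfl fun e _ => ?_
      rw [← Finset.sum_sub_distrib]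
      refine Finset.sum_congr rfl fun n _ => ?_
      ring
    rw [h1] at hErr
    have h2 := (abs_le.1 hErr).1
    have h3 : A₀ * 2 ^ (k + 4) * Real.sqrt ((q * T + C₁ * Real.log x * sW x S) * T) * N ≤
        A₀ * 2 ^ (k + 4) * (Real.sqrt (2 * q) * T) * N :=
      mul_le_mul_of_nonneg_right (mul_le_mul_of_nonneg_left hsq (by positivity)) hN0
    linarith
  have hE2 : ∑ e ∈ E, ∑ n ∈ JJ x H, G (n : ℤ) * (Mm (yy x) ((n : ℤ) - e) * (D ((n : ℤ) - e) * β ((n : ℤ) - e))) ≤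
      A₀ * 2 ^ (k + 4) * (Real.sqrt (2 * q) * T) * N := by
    have h1 : ∑ e ∈ E, ∑ n ∈ JJ x H, G (n : ℤ) * (Mm (yy x) ((n : ℤ) - e) * (D ((n : ℤ) - e) * β ((n : ℤ) - e))) ≤
        ∑ e ∈ E, A₀ * 2 ^ (k + 4) * q * sW x (insert e S) * N := by
      refine Finset.sum_le_sum fun e he => ?_
      have h2 := hOD x hx4 V D hVg hDg μ hμ00 hμ1 β F hFg H hH S hS hSk.le A₀ hA00 G hGb e (hE he)
      refine le_trans (le_of_eq ?_) h2
      refine Finset.sum_congr rfl fun n _ => ?_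
      rw [abs_of_nonneg (hG0 _)]
    refine h1.trans ?_
    rw [← Finset.sum_mul, ← Finset.mul_sum]
    apply mul_le_mul_of_nonneg_right _ hN0
    rw [mul_assoc]
    apply mul_le_mul_of_nonneg_left _ (by positivity)
    exact mul_le_mul_of_nonneg_right hsq2 hT0
  have hM0 : 0 ≤ ∑ e ∈ E, ∑ n ∈ JJ x H, G (n : ℤ) * Mm (yy x) ((n : ℤ) - e) :=
    Finset.sum_nonneg fun e _ => Finset.sum_nonneg fun n _ => mul_nonneg (hG0 _) (Mm_nonneg _ _)
  have hpt : ∑ e ∈ E, ∑ n ∈ JJ x H, G (n : ℤ) * (Mm (yy x) ((n : ℤ) - e) * (V ((n : ℤ) - e) * F ((n : ℤ) - e))) ≤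
      (C / c₂) * (∑ e ∈ E, ∑ n ∈ JJ x H, G (n : ℤ) * (if q4 x δ ((n : ℤ) - e) then Real.log x else 0)) +
      ∑ e ∈ E, ∑ n ∈ JJ x H, G (n : ℤ) * (Mm (yy x) ((n : ℤ) - e) * (D ((n : ℤ) - e) * β ((n : ℤ) - e))) := by
    rw [Finset.mul_sum, ← Finset.sum_add_distrib]
    refine Finset.sum_le_sum fun e he => ?_
    rw [Finset.mul_sum, ← Finset.sum_add_distrib]
    refine Finset.sum_le_sum fun n hn => ?_
    have he1 := Finset.mem_Icc.1 (Finset.mem_sdiff.1 (hE he)).1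
    unfold JJ at hn
    rw [Finset.mem_Ico] at hn
    have hn1 : 0 < (n : ℤ) - e := by
      have : ((H : ℤ) + 1) ≤ (n : ℤ) := by exact_mod_cast hn.1
      linarith [he1.2]
    have hn2 : (((n : ℤ) - e : ℤ) : ℝ) ≤ 2 * x := by
      have g1 : (n : ℝ) + 1 ≤ (⌊x⌋₊ : ℝ) + 1 + H := by
        have : n + 1 ≤ ⌊x⌋₊ + 1 + H := hn.2
        exact_mod_cast this
      have g2 : (⌊x⌋₊ : ℝ) ≤ x := Nat.floor_le hx0.le
      have g3 : (1 : ℝ) ≤ (e : ℝ) := by exact_mod_cast he1.1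
      push_cast
      linarith
    have h1 := UWL_pt hL1 hxx hz2 hzw hc₂ hmer hC0 hVg hDg hFg hq hn1 hn2
    have h2 := mul_le_mul_of_nonneg_left h1 (hG0 (n : ℤ))
    refine h2.trans (le_of_eq ?_)
    ring
  set Q : ℝ := ∑ e ∈ E, ∑ n ∈ JJ x H, G (n : ℤ) * (if q4 x δ ((n : ℤ) - e) then Real.log x else 0) with hQ
  set M : ℝ := ∑ e ∈ E, ∑ n ∈ JJ x H, G (n : ℤ) * Mm (yy x) ((n : ℤ) - e) with hM
  have hμM : 1 / 50 * M ≤ μ * M := mul_le_mul_of_nonneg_right hμ0 hM0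
  have hfin : 1 / 50 * (M - ε * N * T) ≤ (C / c₂) * Q := by
    have h1 : 100 * 2 ^ (k + 4) * A₀ * Real.sqrt (2 * q) * (N * T) ≤ ε * (N * T) :=
      mul_le_mul_of_nonneg_right hbD (by positivity)
    have h2 : A₀ * 2 ^ (k + 4) * (Real.sqrt (2 * q) * T) * N =
        1 / 100 * (100 * 2 ^ (k + 4) * A₀ * Real.sqrt (2 * q) * (N * T)) := by ring
    linarith
  have h1 : c₂ / (50 * C) * (M - ε * N * T) = (c₂ / C) * (1 / 50 * (M - ε * N * T)) := by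
    field_simp
  rw [h1]
  calc (c₂ / C) * (1 / 50 * (M - ε * N * T)) ≤ (c₂ / C) * ((C / c₂) * Q) :=
        mul_le_mul_of_nonneg_left hfin (by positivity)
    _ = Q := by
        field_simp

end Pool.Agent.H96.FL
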