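import Pool.Agent.H96.FL.UTR
import Pool.Agent.H96.FL.UWL

/-!
# UFL: the lower bound with at most four prime factors, for all but `K log x` of the shifts

As `UFU` (see its header) with `UWL k ε'` instead of `UWU`. If `n` satisfies `q4 x δ n`, `0 < n ≤ 2x`, and `n` is not divisible by the square of a prime `> x^δ`, then `P4 n` for large `x`: `n` is squarefree (no prime factor `≤ x^δ`), it has at most one prime factor `≤ x^(13/50)`, and at most three `> x^(13/50)` because `x^(4*13/50) > 2x`.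
The number of `n ≤ 2x` divisible by `p²` for a prime `p > x^δ` is at most `∑_{q > x^δ} 2x/q² ≤ 4 x^(1-δ)` . So `∑_{m∈Zs} (L if q4 x δ (m+e)) ≤ L * z4 Z e + 4 L x^(1-δ)` (for `m ∈ Zs`: `0 < m + e ≤ 2x`), `∑_{m∈Zs} Mm w (m+e) ≥ wp w * zc x Z e - wp w * |Z \ Zs|`.
Hence, if `|E| > K L`, `L^(k+1) ∑_{e∈E} z4 Z e + |E| 4 L^(k+1) x^(1-δ) ≥ c (L^k wp w ∑_e zc x Z e - |E| L^k wp w k (x^(1/4)+1) - ε' N T)`, while the hypothesis on `E` gives `L^(k+1) ∑_e z4 Z e < c (L^k wp w ∑_e zc x Z e - ε x ∑_e sing (insert e S))`: a contradiction for small `ε'` and large `x` (`wp w ≤ W ≤ L`; `T ≥ c' |E|`).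
-/

set_option autoImplicit false

namespace Pool.Agent.H96.FL

open Finset Pool.Agent.H17 Pool.Agent.H6.MF Pool.Agent.H6.MB Pool.Agent.H12.DM Pool.Agent.H6.AE Pool.Agent.H96.AE Pool.Agent.H96.AS Pool.Agent.H96.FD Pool.Agent.H6.AS

/-! ### integers without small prime factors and without large square factors -/

lemma UFL_P4 {x δ : ℝ} (hx0 : 0 < x) (hx : 2 * x < x ^ (26 / 25 : ℝ)) {n : ℤ} (hn : 0 < n)
    (hn2 : (n : ℝ) ≤ 2 * x) (hq : q4 x δ n)
    (hsq : ∀ p : ℕ, p.Prime → x ^ δ < (p : ℝ) → ¬ (p : ℤ) ^ 2 ∣ n) : P4 n := by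
  obtain ⟨N, rfl⟩ : ∃ N : ℕ, n = (N : ℤ) := ⟨n.toNat, by omega⟩
  have hN : 0 < N := by exact_mod_cast hn
  obtain ⟨hq1, hq2⟩ := hq
  refine ⟨hn, ?_⟩
  rw [Int.toNat_natCast]
  have hsf : Squarefree N := by
    rw [Nat.squarefree_iff_prime_squarefree]
    intro p hp hd
    by_cases h : (p : ℝ) ≤ x ^ δ
    · exact hq1 p hp h (by exact_mod_cast (Dvd.intro p rfl).trans hd)
    · exact hsq p hp (not_le.mp h) (by rw [pow_two]; exact_mod_cast hd)
  rw [← (ArithmeticFunction.cardDistinctFactors_eq_cardFactors_iff_squarefree hN.ne').mpr hsf,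
    ArithmeticFunction.cardDistinctFactors_apply]
  change N.primeFactors.card ≤ 4
  set y : ℝ := x ^ (13 / 50 : ℝ) with hy
  have hy0 : 0 ≤ y := Real.rpow_nonneg hx0.le _
  have hs := Finset.card_filter_add_card_filter_not (s := N.primeFactors) (fun p : ℕ => (p : ℝ) ≤ y)
  have hA : (N.primeFactors.filter (fun p : ℕ => (p : ℝ) ≤ y)).card ≤ 1 := by
    refine le_trans (Finset.card_le_card ?_) hq2
    intro p hp
    rw [Finset.mem_filter] at hp ⊢
    have hpp := Nat.prime_of_mem_primeFactors hp.1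
    have hpd : (p : ℤ) ∣ (N : ℤ) := by exact_mod_cast Nat.dvd_of_mem_primeFactors hp.1
    refine ⟨?_, hpd⟩
    unfold PI
    rw [Finset.mem_filter, Finset.mem_range]
    refine ⟨Nat.lt_succ_of_le (Nat.le_floor hp.2), hpp, ?_⟩
    by_contra hcon
    exact hq1 p hpp (not_lt.mp hcon) hpd
  have hB : (N.primeFactors.filter (fun p : ℕ => ¬ (p : ℝ) ≤ y)).card ≤ 3 := by
    by_contra hcon
    have hcon4 : 4 ≤ (N.primeFactors.filter (fun p : ℕ => ¬ (p : ℝ) ≤ y)).card := by omega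
    have h1 : y ^ 4 ≤ ((∏ p ∈ N.primeFactors.filter (fun p : ℕ => ¬ (p : ℝ) ≤ y), p : ℕ) : ℝ) := by
      obtain ⟨T, hT, hTc⟩ := Finset.exists_subset_card_eq hcon4
      have h2 : (∏ p ∈ T, p) ∣ ∏ p ∈ N.primeFactors.filter (fun p : ℕ => ¬ (p : ℝ) ≤ y), p :=
        Finset.prod_dvd_prod_of_subset _ _ _ hT
      have h3 : 0 < ∏ p ∈ N.primeFactors.filter (fun p : ℕ => ¬ (p : ℝ) ≤ y), p :=
        Finset.prod_pos (fun p hp => (Nat.prime_of_mem_primeFactors (Finset.mem_filter.mp hp).1).pos)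
      have h4 := Nat.le_of_dvd h3 h2
      have h5 : y ^ 4 ≤ ∏ p ∈ T, (p : ℝ) := by
        rw [← hTc, ← Finset.prod_const]
        refine Finset.prod_le_prod (fun _ _ => hy0) (fun p hp => ?_)
        exact (not_le.mp (Finset.mem_filter.mp (hT hp)).2).le
      refine h5.trans ?_
      rw [← Nat.cast_prod]
      exact_mod_cast h4
    have h6 : (∏ p ∈ N.primeFactors.filter (fun p : ℕ => ¬ (p : ℝ) ≤ y), p) ≤ N := by
      refine Nat.le_of_dvd hN ?_
      refine (Finset.prod_dvd_prod_of_subset _ _ _ (Finset.filter_subset _ _)).trans ?_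
      exact Nat.prod_primeFactors_dvd N
    have h7 : y ^ 4 = x ^ (26 / 25 : ℝ) := by
      rw [hy, ← Real.rpow_natCast, ← Real.rpow_mul hx0.le]
      norm_num
    have h8 : ((∏ p ∈ N.primeFactors.filter (fun p : ℕ => ¬ (p : ℝ) ≤ y), p : ℕ) : ℝ) ≤ (N : ℝ) := by
      exact_mod_cast h6
    have h9 : ((N : ℤ) : ℝ) = (N : ℝ) := by push_cast; rfl
    rw [h9] at hn2
    linarith
  omega

open scoped Classical in
lemma UFL_sq (M : ℕ) {y : ℝ} (hy : 0 < y) :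
    (((Finset.Icc 1 M).filter (fun n : ℕ => ∃ p : ℕ, p.Prime ∧ y < (p : ℝ) ∧ p ^ 2 ∣ n)).card : ℝ) ≤ 2 * M / y := by
  set k := ⌊y⌋₊ with hk
  have h1 : (Finset.Icc 1 M).filter (fun n : ℕ => ∃ p : ℕ, p.Prime ∧ y < (p : ℝ) ∧ p ^ 2 ∣ n) ⊆
      (Finset.Ioo k (M + 1)).biUnion (fun p => (Finset.Icc 1 M).filter (fun n => p ^ 2 ∣ n)) := by
    intro n hn
    rw [Finset.mem_filter, Finset.mem_Icc] at hn
    obtain ⟨⟨hn1, hn2⟩, p, hp, hpy, hd⟩ := hn
    rw [Finset.mem_biUnion]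
    refine ⟨p, ?_, ?_⟩
    · rw [Finset.mem_Ioo]
      refine ⟨(Nat.floor_lt hy.le).mpr hpy, ?_⟩
      have h2 := Nat.le_of_dvd (by omega) hd
      have h3 : p ≤ p ^ 2 := Nat.le_self_pow (by norm_num) p
      omega
    · rw [Finset.mem_filter, Finset.mem_Icc]
      exact ⟨⟨hn1, hn2⟩, hd⟩
  have h2 : ∀ p ∈ Finset.Ioo k (M + 1), (((Finset.Icc 1 M).filter (fun n => p ^ 2 ∣ n)).card : ℝ) ≤ (M : ℝ) * ((p : ℝ) ^ 2)⁻¹ := by
    intro p hp
    have h3 : ((Finset.Icc 1 M).filter (fun n => p ^ 2 ∣ n)).card = M / p ^ 2 := by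
      have := Nat.Ioc_filter_dvd_card_eq_div M (p ^ 2)
      rw [← this]
      rfl
    rw [h3]
    calc (((M / p ^ 2 : ℕ)) : ℝ) ≤ (M : ℝ) / ((p ^ 2 : ℕ) : ℝ) := Nat.cast_div_le
      _ = _ := by push_cast; rw [div_eq_mul_inv]
  calc (((Finset.Icc 1 M).filter (fun n : ℕ => ∃ p : ℕ, p.Prime ∧ y < (p : ℝ) ∧ p ^ 2 ∣ n)).card : ℝ)
      ≤ (((Finset.Ioo k (M + 1)).biUnion (fun p => (Finset.Icc 1 M).filter (fun n => p ^ 2 ∣ n))).card : ℝ) := by
        exact_mod_cast Finset.card_le_card h1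
    _ ≤ ∑ p ∈ Finset.Ioo k (M + 1), (((Finset.Icc 1 M).filter (fun n => p ^ 2 ∣ n)).card : ℝ) := by
        exact_mod_cast Finset.card_biUnion_le
    _ ≤ ∑ p ∈ Finset.Ioo k (M + 1), (M : ℝ) * ((p : ℝ) ^ 2)⁻¹ := Finset.sum_le_sum h2
    _ = (M : ℝ) * ∑ p ∈ Finset.Ioo k (M + 1), ((p : ℝ) ^ 2)⁻¹ := by rw [Finset.mul_sum]
    _ ≤ (M : ℝ) * (2 / ((k : ℝ) + 1)) := by
        refine mul_le_mul_of_nonneg_left ?_ (Nat.cast_nonneg M)
        exact sum_Ioo_inv_sq_le k (M + 1)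
    _ ≤ (M : ℝ) * (2 / y) := by
        refine mul_le_mul_of_nonneg_left ?_ (Nat.cast_nonneg M)
        exact div_le_div_of_nonneg_left (by norm_num) hy (Nat.lt_floor_add_one y).le
    _ = 2 * M / y := by ring

/-! ### the two sides of `UWL` in terms of `z4` and `zc` -/

open scoped Classical in
lemma UFL_upper {x δ : ℝ} (hx0 : 0 < x) (hx : 2 * x < x ^ (26 / 25 : ℝ))
    (hL : Real.log x ^ 2 ≤ x ^ (1 / 4 : ℝ)) (_hL2 : Real.log x ^ 2 ≤ x) (hL0 : 0 ≤ Real.log x) {u : ℤ}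
    {S Z : Finset ℤ} (hS : ∀ e ∈ S, Wnd x u e) (hSne : S.Nonempty) (hZ : Tup x S Z) {e : ℤ} (he : Wnd x u e) :
    ∑ m ∈ Zs x S Z, (if q4 x δ (m + e) then Real.log x else 0) ≤
      Real.log x * ((z4 Z e : ℝ) + 4 * x / x ^ δ) := by
  have hrange : ∀ m ∈ Zs x S Z, 0 < m + e ∧ ((m + e : ℤ) : ℝ) ≤ 2 * x := by
    intro m hm
    obtain ⟨c, hc⟩ := hSne
    rw [Zs, Finset.mem_filter] at hm
    have h1 := hm.2 c hc
    have h2 := (hZ m hm.1 c hc).2
    have h3 := hS c hc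
    obtain ⟨h3a, h3b⟩ := h3
    obtain ⟨h4a, h4b⟩ := he
    have h3a' : (u : ℝ) < (c : ℝ) := by exact_mod_cast h3a
    have h4a' : (u : ℝ) < (e : ℝ) := by exact_mod_cast h4a
    push_cast at h1 h2 ⊢
    constructor
    · have : (0 : ℝ) < ((m + e : ℤ) : ℝ) := by push_cast; linarith
      exact_mod_cast this
    · linarith
  have h0 : ∑ m ∈ Zs x S Z, (if q4 x δ (m + e) then Real.log x else 0) =
      (((Zs x S Z).filter (fun m => q4 x δ (m + e))).card : ℝ) * Real.log x := by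
    rw [← Finset.sum_filter, Finset.sum_const, nsmul_eq_mul]
  rw [h0, mul_comm]
  refine mul_le_mul_of_nonneg_left ?_ hL0
  set bad : ℤ → Prop := fun m => ∃ p : ℕ, p.Prime ∧ x ^ δ < (p : ℝ) ∧ (p : ℤ) ^ 2 ∣ m + e with hbad
  have h1 : (Zs x S Z).filter (fun m => q4 x δ (m + e)) ⊆
      (Z.filter (fun m => P4 (m + e))) ∪ ((Zs x S Z).filter bad) := by
    intro m hm
    rw [Finset.mem_filter] at hm
    rw [Finset.mem_union, Finset.mem_filter, Finset.mem_filter]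
    by_cases hb : bad m
    · exact Or.inr ⟨hm.1, hb⟩
    · refine Or.inl ⟨(Finset.mem_filter.mp hm.1).1, ?_⟩
      have hr := hrange m hm.1
      refine UFL_P4 hx0 hx hr.1 hr.2 hm.2 (fun p hp hpx hd => hb ⟨p, hp, hpx, hd⟩)
  have h2 : ((Zs x S Z).filter bad).card ≤
      ((Finset.Icc 1 ⌊2 * x⌋₊).filter (fun n : ℕ => ∃ p : ℕ, p.Prime ∧ x ^ δ < (p : ℝ) ∧ p ^ 2 ∣ n)).card := by
    refine Finset.card_le_card_of_injOn (fun m => (m + e).toNat) ?_ ?_
    · intro m hm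
      rw [Finset.mem_coe, Finset.mem_filter] at hm
      obtain ⟨hm1, p, hp, hpx, hd⟩ := hm
      have hr := hrange m hm1
      obtain ⟨N, hN⟩ : ∃ N : ℕ, m + e = (N : ℤ) := ⟨(m + e).toNat, by omega⟩
      rw [Finset.mem_coe, Finset.mem_filter, Finset.mem_Icc]
      simp only [hN, Int.toNat_natCast] at hr hd ⊢
      refine ⟨⟨by omega, Nat.le_floor ?_⟩, p, hp, hpx, by exact_mod_cast hd⟩
      have := hr.2
      push_cast at this
      exact this
    · intro m hm m' hm' h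
      rw [Finset.mem_coe, Finset.mem_filter] at hm hm'
      have hr := hrange m hm.1
      have hr' := hrange m' hm'.1
      simp only at h
      omega
  have hxδ : 0 < x ^ δ := Real.rpow_pos_of_pos hx0 δ
  have h3 := UFL_sq ⌊2 * x⌋₊ hxδ
  have h4 : (((Zs x S Z).filter (fun m => q4 x δ (m + e))).card : ℝ) ≤
      (z4 Z e : ℝ) + (((Zs x S Z).filter bad).card : ℝ) := by
    have := (Finset.card_le_card h1).trans (Finset.card_union_le _ _)
    unfold z4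
    exact_mod_cast this
  have h5 : (((Zs x S Z).filter bad).card : ℝ) ≤ 2 * (⌊2 * x⌋₊ : ℝ) / x ^ δ := by
    refine le_trans ?_ h3
    exact_mod_cast h2
  have h6 : 2 * (⌊2 * x⌋₊ : ℝ) / x ^ δ ≤ 4 * x / x ^ δ := by
    refine div_le_div_of_nonneg_right ?_ hxδ.le
    have := Nat.floor_le (show 0 ≤ 2 * x by positivity)
    linarith
  linarith

lemma UFL_lower {x : ℝ} {S Z : Finset ℤ} (e : ℤ) :
    wp (yy x) * ((zc x Z e : ℝ) - ((Z \ Zs x S Z).card : ℝ)) ≤ ∑ m ∈ Zs x S Z, Mm (yy x) (m + e) := by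
  have h0 : ∑ m ∈ Zs x S Z, Mm (yy x) (m + e) =
      (((Zs x S Z).filter (fun m => Int.gcd (m + e) (WW (yy x) : ℤ) = 1)).card : ℝ) * wp (yy x) := by
    unfold Mm
    rw [← Finset.sum_filter, Finset.sum_const, nsmul_eq_mul]
  rw [h0, mul_comm]
  refine mul_le_mul_of_nonneg_right ?_ (wp_pos _).le
  have h1 : Z.filter (fun m => Int.gcd (m + e) (WW (yy x) : ℤ) = 1) ⊆
      (Zs x S Z).filter (fun m => Int.gcd (m + e) (WW (yy x) : ℤ) = 1) ∪ (Z \ Zs x S Z) := by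
    intro m hm
    rw [Finset.mem_filter] at hm
    rw [Finset.mem_union, Finset.mem_filter, Finset.mem_sdiff]
    by_cases h : m ∈ Zs x S Z
    · exact Or.inl ⟨h, hm.2⟩
    · exact Or.inr ⟨hm.1, h⟩
  have h2 := (Finset.card_le_card h1).trans (Finset.card_union_le _ _)
  have h3 : (zc x Z e : ℝ) ≤ (((Zs x S Z).filter (fun m => Int.gcd (m + e) (WW (yy x) : ℤ) = 1)).card : ℝ) +
      ((Z \ Zs x S Z).card : ℝ) := by
    unfold zc
    exact_mod_cast h2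
  linarith

/-! ### the conditions on `x` -/

lemma UFL_lp (j : ℕ) {δ η : ℝ} (hδ : 0 < δ) (hη : 0 < η) :
    ∀ᶠ x : ℝ in Filter.atTop, Real.log x ^ j ≤ η * x ^ δ := by
  have h1 := (tendsto_rpow_atTop hδ).eventually (eventually_log_pow_le j (show 0 < η * δ ^ j by positivity))
  filter_upwards [h1, Filter.eventually_gt_atTop 0] with x h2 h3
  rw [Real.log_rpow h3, mul_pow] at h2
  have h4 : 0 < δ ^ j := by positivity
  have h5 : δ ^ j * Real.log x ^ j ≤ δ ^ j * (η * x ^ δ) := by linarith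
  exact le_of_mul_le_mul_left h5 h4

lemma UFL_wp_le {x : ℝ} (h : 1 ≤ Real.log x) : wp (yy x) ≤ Real.log x := by
  refine le_trans ?_ (MAJ_W h)
  unfold wp
  refine div_le_self (WW_pos_real _).le ?_
  exact_mod_cast Nat.totient_pos.mpr (WW_pos (yy x))

theorem UFL (k : ℕ) (hk : 1 ≤ k) (ε : ℝ) (hε : 0 < ε) : ∃ c K X : ℝ, 0 < c ∧ ∀ x : ℝ, X ≤ x → ∀ u : ℤ,
    ∀ S : Finset ℤ, (∀ e ∈ S, Wnd x u e) → S.card = k → ∀ Z : Finset ℤ, Tup x S Z →
    ∀ E : Finset ℤ, (∀ e ∈ E, Wnd x u e ∧ e ∉ S ∧ sing (insert e S) ≠ 0 ∧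
      (z4 Z e : ℝ) < c * (wp (yy x) / Real.log x * (zc x Z e : ℝ) -
        ε * (sing (insert e S) * x / (Real.log x) ^ (k + 1)))) → (E.card : ℝ) ≤ K * Real.log x := by
  classical
  obtain ⟨δ, hδ, hδ2, c₀, K, X₀, hc₀, hK, hU⟩ := UWL k (ε / 8) (by positivity)
  obtain ⟨c₁, X₁, hc₁, hT⟩ := UTR k hk (1 / 2) (by norm_num)
  have hkr : (1 : ℝ) ≤ k := by exact_mod_cast hk
  have hev : ∀ᶠ x : ℝ in Filter.atTop, 1 ≤ Real.log x ∧ 1 ≤ x ∧ Real.log x ^ 2 ≤ x ∧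
      Real.log x ^ 2 ≤ x ^ (1 / 4 : ℝ) ∧ 2 < x ^ (1 / 25 : ℝ) ∧
      Real.log x ^ (k + 1) ≤ (ε * c₁ / (16 * k)) * x ^ (3 / 4 : ℝ) ∧
      Real.log x ^ (k + 1) ≤ (c₀ * ε * c₁ / 32) * x ^ δ := by
    filter_upwards [Real.tendsto_log_atTop.eventually_ge_atTop 1, Filter.eventually_ge_atTop 1,
      eventually_log_pow_le 2 (show (0 : ℝ) < 1 by norm_num),
      UFL_lp 2 (show (0 : ℝ) < 1 / 4 by norm_num) (show (0 : ℝ) < 1 by norm_num),
      (tendsto_rpow_atTop (show (0 : ℝ) < 1 / 25 by norm_num)).eventually_gt_atTop 2,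
      UFL_lp (k + 1) (show (0 : ℝ) < 3 / 4 by norm_num) (show 0 < ε * c₁ / (16 * k) by positivity),
      UFL_lp (k + 1) hδ (show 0 < c₀ * ε * c₁ / 32 by positivity)] with x h1 h2 h3 h4 h5 h6 h7
    exact ⟨h1, h2, by linarith, by linarith, h5, h6, h7⟩
  obtain ⟨X₂, hX₂⟩ := Filter.eventually_atTop.mp hev
  refine ⟨c₀, K, max X₀ (max X₁ X₂), hc₀, fun x hx u S hS hSc Z hZ E hE => ?_⟩
  have hx0' : X₀ ≤ x := (le_max_left _ _).trans hx
  have hx1' : X₁ ≤ x := (le_max_left _ _).trans ((le_max_right _ _).trans hx)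
  have hx2' : X₂ ≤ x := (le_max_right _ _).trans ((le_max_right _ _).trans hx)
  obtain ⟨hL1, hx1, hLx, hLx4, hx25, hlow, hup⟩ := hX₂ x hx2'
  obtain ⟨v, S', G, hS', hS'c, hG0, hG1, hGf, hGe, hZR⟩ := hT x hx1' u S hS hSc Z hZ
  by_contra hcon
  push Not at hcon
  set L : ℝ := Real.log x with hL
  have hL0 : 0 < L := by linarith
  have hx0 : 0 < x := by linarith
  have hSne : S.Nonempty := by
    rw [← Finset.card_pos]
    omega
  have hEne : E.Nonempty := by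
    rw [← Finset.card_pos]
    have : (0 : ℝ) < (E.card : ℝ) := lt_of_le_of_lt (by positivity) hcon
    exact_mod_cast this
  have hinj : Function.Injective (fun e : ℤ => v - e) := fun a b h => by
    have h1 : v - a = v - b := h
    omega
  have hH : ((⌊L ^ 2⌋₊ : ℕ) : ℝ) ≤ L ^ 2 := Nat.floor_le (by positivity)
  have hmain := hU x hx0' ⌊L ^ 2⌋₊ hH S' hS' hS'c G hG0 hG1 (E.image (fun e => v - e))
    (by
      intro e' he'
      obtain ⟨e, he, rfl⟩ := Finset.mem_image.mp he'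
      exact (hGe e (hE e he).1 (hE e he).2.1 (hE e he).2.2.1).1)
    (by
      rw [Finset.card_image_of_injective _ hinj]
      exact hcon.le)
    (by
      intro e' he'
      obtain ⟨e, he, rfl⟩ := Finset.mem_image.mp he'
      exact (hGe e (hE e he).1 (hE e he).2.1 (hE e he).2.2.1).2.1)
  rw [Finset.sum_image (fun a _ b _ h => hinj h), Finset.sum_image (fun a _ b _ h => hinj h),
    Finset.sum_image (fun a _ b _ h => hinj h)] at hmain
  have hA : ∑ e ∈ E, ∑ n ∈ JJ x ⌊L ^ 2⌋₊, G (n : ℤ) * Mm (yy x) ((n : ℤ) - (v - e)) =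
      ∑ e ∈ E, L ^ k * ∑ m ∈ Zs x S Z, Mm (yy x) (m + e) :=
    Finset.sum_congr rfl (fun e he => hGf (Mm (yy x)) e (hE e he).1)
  have hB : ∑ e ∈ E, ∑ n ∈ JJ x ⌊L ^ 2⌋₊, G (n : ℤ) * (if q4 x δ ((n : ℤ) - (v - e)) then Real.log x else 0) =
      ∑ e ∈ E, L ^ k * ∑ m ∈ Zs x S Z, (if q4 x δ (m + e) then Real.log x else 0) :=
    Finset.sum_congr rfl (fun e he => hGf (fun n => if q4 x δ n then Real.log x else 0) e (hE e he).1)
  rw [hA, hB, Finset.mul_sum, ← Finset.sum_sub_distrib, Finset.mul_sum] at hmain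
  refine absurd hmain (not_le.mpr (Finset.sum_lt_sum_of_nonempty hEne (fun e he => ?_)))
  obtain ⟨he1, he2, he3, he4⟩ := hE e he
  obtain ⟨-, -, ht1, ht2, -⟩ := hGe e he1 he2 he3
  have hb := UFL_upper (δ := δ) hx0 (by
    have : x ^ (26 / 25 : ℝ) = x ^ (1 / 25 : ℝ) * x := by
      rw [show (26 / 25 : ℝ) = 1 / 25 + 1 by norm_num, Real.rpow_add hx0, Real.rpow_one]
    rw [this]
    exact mul_lt_mul_of_pos_right hx25 hx0) hLx4 hLx hL0.le hS hSne hZ he1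
  have ha := UFL_lower (x := x) (S := S) (Z := Z) e
  have hwp0 : 0 < wp (yy x) := wp_pos _
  have hwp1 : wp (yy x) ≤ L := UFL_wp_le hL1
  set a : ℝ := ∑ m ∈ Zs x S Z, Mm (yy x) (m + e) with hadef
  set b : ℝ := ∑ m ∈ Zs x S Z, (if q4 x δ (m + e) then Real.log x else 0) with hbdef
  set t : ℝ := sW x (insert (v - e) S') with htdef
  set s : ℝ := sing (insert e S) with hsdef
  set R : ℝ := ((Z \ Zs x S Z).card : ℝ) with hRdef
  set w : ℝ := wp (yy x) with hwdef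
  have hLk : 0 < L ^ k := by positivity
  have hR0 : 0 ≤ R := Nat.cast_nonneg _
  have hxδ : 0 < x ^ δ := Real.rpow_pos_of_pos hx0 δ
  have hfl : (⌊x⌋₊ : ℝ) + 1 ≤ 2 * x := by
    have := Nat.floor_le hx0.le
    linarith
  -- the upper bound for `b`
  have hb1 : L ^ k * b ≤ L ^ (k + 1) * (z4 Z e : ℝ) + 4 * L ^ (k + 1) * x / x ^ δ := by
    calc L ^ k * b ≤ L ^ k * (L * ((z4 Z e : ℝ) + 4 * x / x ^ δ)) := mul_le_mul_of_nonneg_left hb hLk.le
      _ = _ := by rw [pow_succ]; ring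
  have hz : L ^ (k + 1) * (z4 Z e : ℝ) < c₀ * (L ^ k * w * (zc x Z e : ℝ) - ε * (s * x)) := by
    have h1 := mul_lt_mul_of_pos_left he4 (show 0 < L ^ (k + 1) by positivity)
    refine h1.trans_le (le_of_eq ?_)
    have hLne : L ≠ 0 := hL0.ne'
    have e1 : L ^ (k + 1) * (w / L) = L ^ k * w := by
      rw [pow_succ]
      field_simp
    have e2 : L ^ (k + 1) * (s * x / L ^ (k + 1)) = s * x := by
      field_simp
    calc L ^ (k + 1) * (c₀ * (w / L * (zc x Z e : ℝ) - ε * (s * x / L ^ (k + 1))))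
        = c₀ * (L ^ (k + 1) * (w / L) * (zc x Z e : ℝ) - ε * (L ^ (k + 1) * (s * x / L ^ (k + 1)))) := by ring
      _ = _ := by rw [e1, e2]
  -- the lower bound for `a`
  have ha1 : L ^ k * w * (zc x Z e : ℝ) - L ^ k * w * R ≤ L ^ k * a := by
    have := mul_le_mul_of_nonneg_left ha hLk.le
    linarith
  have hx14 : 1 ≤ x ^ (1 / 4 : ℝ) := Real.one_le_rpow hx1 (by norm_num)
  have hx34 : x ^ (1 / 4 : ℝ) * x ^ (3 / 4 : ℝ) = x := by
    rw [← Real.rpow_add hx0]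
    norm_num
  have herr1 : L ^ k * w * R ≤ ε * c₁ * x / 8 := by
    have h1 : L ^ k * w ≤ L ^ (k + 1) := by
      rw [pow_succ]
      exact mul_le_mul_of_nonneg_left hwp1 hLk.le
    have h2 : R ≤ 2 * k * x ^ (1 / 4 : ℝ) := by
      refine hZR.trans ?_
      nlinarith
    calc L ^ k * w * R ≤ L ^ (k + 1) * (2 * k * x ^ (1 / 4 : ℝ)) :=
          mul_le_mul h1 h2 hR0 (by positivity)
      _ ≤ ((ε * c₁ / (16 * k)) * x ^ (3 / 4 : ℝ)) * (2 * k * x ^ (1 / 4 : ℝ)) :=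
          mul_le_mul_of_nonneg_right hlow (by positivity)
      _ = (ε * c₁ / (16 * k)) * (2 * k) * (x ^ (1 / 4 : ℝ) * x ^ (3 / 4 : ℝ)) := by ring
      _ = ε * c₁ * x / 8 := by
          rw [hx34]
          field_simp
          ring
  have herr2 : 4 * L ^ (k + 1) * x / x ^ δ ≤ c₀ * ε * c₁ * x / 8 := by
    rw [div_le_iff₀ hxδ]
    nlinarith [mul_le_mul_of_nonneg_right hup hx0.le]
  have hs : t / 2 ≤ s := by linarith
  have hεc : 0 < c₀ * ε := by positivity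
  have h5 : c₀ * (ε / 8 * ((⌊x⌋₊ : ℝ) + 1) * t) ≤ c₀ * ε * x * t / 4 := by
    have ht0 : 0 ≤ t := hc₁.le.trans ht1
    have := mul_le_mul_of_nonneg_left hfl (show 0 ≤ c₀ * ε * t / 8 by positivity)
    linarith
  have h6 : c₀ * ε * x * t / 2 ≤ c₀ * (ε * (s * x)) := by
    have := mul_le_mul_of_nonneg_left hs (show 0 ≤ c₀ * ε * x by positivity)
    linarith
  have h7 : c₀ * ε * x * c₁ / 4 ≤ c₀ * ε * x * t / 4 := by
    have := mul_le_mul_of_nonneg_left ht1 (show 0 ≤ c₀ * ε * x by positivity)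
    linarith
  have h8 : c₀ * (L ^ k * w * (zc x Z e : ℝ) - L ^ k * w * R) ≤ c₀ * (L ^ k * a) :=
    mul_le_mul_of_nonneg_left ha1 hc₀.le
  have h9 : c₀ * (L ^ k * w * R) ≤ c₀ * (ε * c₁ * x / 8) := mul_le_mul_of_nonneg_left herr1 hc₀.le
  nlinarith

end Pool.Agent.H96.FL
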