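import Pool.Agent.H96.FL.UFU
import Pool.Agent.H96.FL.UFF
import Pool.Agent.H96.FL.UFL

/-!
# FIN: the final statement
-/

set_option autoImplicit false

namespace Pool.Agent.H96.FL

open Finset Pool.Agent.H17 Pool.Agent.H6.MF Pool.Agent.H6.MB Pool.Agent.H12.DM

theorem FIN_win {x : ℝ} (u : ℤ) {e : ℤ} (h : Wnd x u e) : e ∈ Finset.Ioc u (u + ⌊(Real.log x) ^ 2⌋) := by
  rw [Finset.mem_Ioc]
  refine ⟨h.1, ?_⟩
  have h1 : ((e - u : ℤ) : ℝ) ≤ (Real.log x) ^ 2 := by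
    push_cast
    linarith [h.2]
  have h2 := Int.le_floor.2 h1
  omega

theorem FIN (k : ℕ) (hk : 1 ≤ k) (ε : ℝ) (hε : 0 < ε) : ∃ δ c K X : ℝ, 0 < δ ∧ 0 < c ∧ ∀ x : ℝ, X ≤ x → ∀ u : ℤ,
    ∀ S : Finset ℤ, (∀ e ∈ S, Wnd x u e) → S.card = k → ∀ Z : Finset ℤ, Tup x S Z →
    ∃ B : Finset ℤ, (B.card : ℝ) ≤ K * Real.log x ∧ ∀ e : ℤ, Wnd x u e → e ∉ S → e ∉ B → sing (insert e S) ≠ 0 →
      (zp Z e : ℝ) ≤ (4 + ε) * (wp (yy x) / Real.log x * (zc x Z e : ℝ)) +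
        ε * (sing (insert e S) * x / (Real.log x) ^ (k + 1)) ∧
      |(zr x δ Z e : ℝ) - EP (yy x : ℝ) (x ^ δ) * (zc x Z e : ℝ)| ≤
        ε * (sing (insert e S) * x / (Real.log x) ^ (k + 1)) ∧
      c * (wp (yy x) / Real.log x * (zc x Z e : ℝ) - ε * (sing (insert e S) * x / (Real.log x) ^ (k + 1))) ≤
        (z4 Z e : ℝ) := by
  classical
  obtain ⟨K₁, X₁, h1⟩ := UFU k hk ε hε
  obtain ⟨δ, K₂, X₂, hδ, h2⟩ := UFF k hk ε hε
  obtain ⟨c, K₃, X₃, hc, h3⟩ := UFL k hk ε hε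
  refine ⟨δ, c, K₁ + K₂ + K₃, max X₁ (max X₂ X₃), hδ, hc, fun x hx u S hS hSk Z hZ => ?_⟩
  simp only [max_le_iff] at hx
  obtain ⟨hx1, hx2, hx3⟩ := hx
  set I : Finset ℤ := Finset.Ioc u (u + ⌊(Real.log x) ^ 2⌋) with hI
  set B₁ : Finset ℤ := I.filter (fun e => Wnd x u e ∧ e ∉ S ∧ sing (insert e S) ≠ 0 ∧
      (4 + ε) * (wp (yy x) / Real.log x * (zc x Z e : ℝ)) + ε * (sing (insert e S) * x / (Real.log x) ^ (k + 1)) <
        (zp Z e : ℝ)) with hB1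
  set B₂ : Finset ℤ := I.filter (fun e => Wnd x u e ∧ e ∉ S ∧ sing (insert e S) ≠ 0 ∧
      ε * (sing (insert e S) * x / (Real.log x) ^ (k + 1)) <
        |(zr x δ Z e : ℝ) - EP (yy x : ℝ) (x ^ δ) * (zc x Z e : ℝ)|) with hB2
  set B₃ : Finset ℤ := I.filter (fun e => Wnd x u e ∧ e ∉ S ∧ sing (insert e S) ≠ 0 ∧
      (z4 Z e : ℝ) < c * (wp (yy x) / Real.log x * (zc x Z e : ℝ) -
        ε * (sing (insert e S) * x / (Real.log x) ^ (k + 1)))) with hB3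
  have c1 := h1 x hx1 u S hS hSk Z hZ B₁ (fun e he => (Finset.mem_filter.1 he).2)
  have c2 := h2 x hx2 u S hS hSk Z hZ B₂ (fun e he => (Finset.mem_filter.1 he).2)
  have c3 := h3 x hx3 u S hS hSk Z hZ B₃ (fun e he => (Finset.mem_filter.1 he).2)
  refine ⟨B₁ ∪ (B₂ ∪ B₃), ?_, fun e he heS heB hne => ?_⟩
  · have h4 : ((B₁ ∪ (B₂ ∪ B₃)).card : ℝ) ≤ B₁.card + (B₂.card + B₃.card) := by
      have h5 := Finset.card_union_le B₁ (B₂ ∪ B₃)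
      have h6 := Finset.card_union_le B₂ B₃
      exact_mod_cast (by omega : (B₁ ∪ (B₂ ∪ B₃)).card ≤ B₁.card + (B₂.card + B₃.card))
    linarith
  · have heI := FIN_win u he
    simp only [Finset.mem_union, not_or] at heB
    obtain ⟨n1, n2, n3⟩ := heB
    refine ⟨?_, ?_, ?_⟩
    · by_contra hcon
      exact n1 (Finset.mem_filter.2 ⟨heI, he, heS, hne, not_le.1 hcon⟩)
    · by_contra hcon
      exact n2 (Finset.mem_filter.2 ⟨heI, he, heS, hne, not_le.1 hcon⟩)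
    · by_contra hcon
      exact n3 (Finset.mem_filter.2 ⟨heI, he, heS, hne, not_le.1 hcon⟩)

end Pool.Agent.H96.FL
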