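import Pool.Agent.H96.FL.Df
import Pool.Agent.H6.MB.RHO

/-!
# PFCc: correlations of two divisor sums over the primes in `(x^δ, x^v]` with small coefficients

Exactly as `PFC_corr` (`Pool/Agent/H96/FL/PFCa.lean`, `helper47`; if it is done copy it, otherwise from `RHO_corr` etc. in `Pool/Agent/H6/MB/RHO.lean`) with two different coefficient functions: no `p ∈ S = PI (x^δ) (x^v)` divides `k` (`p > x^δ > 4 L² ≥ |k|`), so `avg F(n) F'(n+k) = ∑_{T ∩ U = ∅} c_T c'_U/(∏T ∏U) = (avg F)(avg F') - ∑_{T ∩ U ≠ ∅}`,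
and the last sum is in absolute value at most `∑_{p∈S} (B/p)² (∏_{q∈S} (1+B/q))² ≤ C/x^δ ≤ 1/L²` (`mer4`).
-/

set_option autoImplicit false

namespace Pool.Agent.H96.FL

open Finset Pool.Agent.H17 Pool.Agent.H6.MF Pool.Agent.H6.MB

private lemma PFCc_dvd {T : Finset ℕ} (hT : ∀ p ∈ T, p.Prime) (n : ℤ) :
    ((∏ p ∈ T, p : ℕ) : ℤ) ∣ n ↔ ∀ p ∈ T, (p : ℤ) ∣ n := by
  constructor
  · intro h p hp
    exact (Int.natCast_dvd_natCast.mpr (Finset.dvd_prod_of_mem _ hp)).trans h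
  · intro h
    rw [Int.natCast_dvd]
    apply Finset.prod_primes_dvd
    · intro p hp; exact (hT p hp).prime
    · intro p hp; exact Int.natCast_dvd.mp (h p hp)

private lemma PFCc_pos {T : Finset ℕ} (hT : ∀ p ∈ T, p.Prime) : 0 < ∏ p ∈ T, p :=
  Finset.prod_pos (fun p hp => (hT p hp).pos)

private lemma PFCc_one_period {q : ℕ} (hq : 0 < q) (s r : ℤ) :
    ∑ j ∈ Finset.range q, (if (q : ℤ) ∣ ((q : ℤ) * s + (j : ℤ)) - r then (1 : ℝ) else 0) = 1 := by
  have hq' : (0 : ℤ) < q := by exact_mod_cast hq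
  have h0 := Int.emod_nonneg r hq'.ne'
  have h1 := Int.emod_lt_of_pos r hq'
  rw [Finset.sum_eq_single (r % (q : ℤ)).toNat]
  · rw [if_pos]
    rw [Int.toNat_of_nonneg h0]
    have h2 : (q : ℤ) ∣ r - r % (q : ℤ) := Int.dvd_self_sub_emod
    have h3 : (q : ℤ) * s + r % (q : ℤ) - r = (q : ℤ) * s - (r - r % (q : ℤ)) := by ring
    rw [h3]
    exact dvd_sub (dvd_mul_right _ _) h2
  · intro j hj hne
    rw [Finset.mem_range] at hj
    rw [if_neg]
    intro hd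
    apply hne
    have h2 : (q : ℤ) ∣ r - r % (q : ℤ) := Int.dvd_self_sub_emod
    have h3 : (q : ℤ) ∣ (j : ℤ) - r % (q : ℤ) := by
      have h4 : (j : ℤ) - r % (q : ℤ) = ((q : ℤ) * s + (j : ℤ) - r) - (q : ℤ) * s + (r - r % (q : ℤ)) := by ring
      rw [h4]
      exact dvd_add (dvd_sub hd (dvd_mul_right _ _)) h2
    have h5 : (j : ℤ) - r % (q : ℤ) = 0 := by
      apply Int.eq_zero_of_abs_lt_dvd h3
      rw [abs_lt]
      have hj' : (j : ℤ) < q := by exact_mod_cast hj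
      constructor <;> omega
    omega
  · intro h
    exfalso
    apply h
    rw [Finset.mem_range]
    omega

private lemma PFCc_sum_ind {q : ℕ} (hq : 0 < q) (r : ℤ) (t : ℕ) :
    ∑ m ∈ Finset.range (q * t), (if (q : ℤ) ∣ (m : ℤ) - r then (1 : ℝ) else 0) = t := by
  induction t with
  | zero => simp
  | succ t ih =>
    have h1 : q * (t + 1) = q * t + q := by ring
    rw [h1, Finset.sum_range_add, ih]
    have h2 := PFCc_one_period hq (t : ℤ) r
    push_cast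
    rw [h2]

private lemma PFCc_avg_ind {P q : ℕ} (hP : 0 < P) (hq : q ∣ P) (r : ℤ) :
    avgP P (fun n => if (q : ℤ) ∣ n - r then (1 : ℝ) else 0) = 1 / (q : ℝ) := by
  obtain ⟨t, rfl⟩ := hq
  have hq0 : 0 < q := Nat.pos_of_ne_zero (by rintro rfl; simp at hP)
  have ht0 : 0 < t := Nat.pos_of_ne_zero (by rintro rfl; simp at hP)
  unfold avgP
  have h1 := PFCc_sum_ind hq0 r t
  simp only
  rw [h1]
  have hq1 : (0 : ℝ) < q := by exact_mod_cast hq0
  have ht1 : (0 : ℝ) < t := by exact_mod_cast ht0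
  push_cast
  field_simp

private lemma PFCc_avg_two {P a b : ℕ} (hP : 0 < P) (hab : a.Coprime b) (hd : a * b ∣ P) (k : ℤ) :
    avgP P (fun n => (if (a : ℤ) ∣ n then (1 : ℝ) else 0) * (if (b : ℤ) ∣ n + k then (1 : ℝ) else 0))
      = 1 / (a : ℝ) * (1 / (b : ℝ)) := by
  have hc : IsCoprime (a : ℤ) (b : ℤ) := Nat.isCoprime_iff_coprime.mpr hab
  obtain ⟨u, v, huv⟩ := id hc
  have h1 := PFCc_avg_ind hP hd (-(k * (u * a)))
  have h2 : (fun n : ℤ => (if (a : ℤ) ∣ n then (1 : ℝ) else 0) * (if (b : ℤ) ∣ n + k then (1 : ℝ) else 0))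
      = (fun n : ℤ => if ((a * b : ℕ) : ℤ) ∣ n - (-(k * (u * a))) then (1 : ℝ) else 0) := by
    funext n
    have ha : (a : ℤ) ∣ n - (-(k * (u * a))) ↔ (a : ℤ) ∣ n := by
      have e1 : n - (-(k * (u * a))) = n + a * (k * u) := by ring
      rw [e1]
      exact dvd_add_left (dvd_mul_right _ _)
    have hb : (b : ℤ) ∣ n - (-(k * (u * a))) ↔ (b : ℤ) ∣ n + k := by
      have e1 : n - (-(k * (u * a))) = (n + k) - b * (k * v) := by
        linear_combination k * huv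
      rw [e1]
      exact dvd_sub_left (dvd_mul_right _ _)
    have h3 : ((a * b : ℕ) : ℤ) ∣ n - (-(k * (u * a))) ↔ ((a : ℤ) ∣ n ∧ (b : ℤ) ∣ n + k) := by
      rw [← ha, ← hb]
      push_cast
      constructor
      · intro h
        exact ⟨(dvd_mul_right _ _).trans h, (dvd_mul_left _ _).trans h⟩
      · rintro ⟨h5, h6⟩
        exact hc.mul_dvd h5 h6
    by_cases h4 : (a : ℤ) ∣ n
    · by_cases h5 : (b : ℤ) ∣ n + k
      · rw [if_pos h4, if_pos h5, if_pos (h3.mpr ⟨h4, h5⟩), one_mul]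
      · rw [if_pos h4, if_neg h5, if_neg (fun h => h5 (h3.mp h).2), mul_zero]
    · rw [if_neg h4, if_neg (fun h => h4 (h3.mp h).1), zero_mul]
  rw [h2, h1]
  push_cast
  rw [one_div_mul_one_div]

private lemma PFCc_avg_sum {ι : Type*} (s : Finset ι) (P : ℕ) (c : ι → ℝ) (F : ι → ℤ → ℝ) :
    avgP P (fun m => ∑ i ∈ s, c i * F i m) = ∑ i ∈ s, c i * avgP P (F i) := by
  unfold avgP
  rw [Finset.sum_comm, Finset.sum_div]
  apply Finset.sum_congr rfl
  intro i _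
  rw [← Finset.mul_sum, mul_div_assoc]

private lemma PFCc_cop {A B : Finset ℕ} (hA : ∀ p ∈ A, p.Prime) (hB : ∀ p ∈ B, p.Prime) (h : Disjoint A B) :
    (∏ p ∈ A, p).Coprime (∏ p ∈ B, p) := by
  apply Nat.Coprime.prod_left
  intro p hp
  apply Nat.Coprime.prod_right
  intro q hq
  rw [Nat.coprime_primes (hA p hp) (hB q hq)]
  rintro rfl
  exact (Finset.disjoint_left.mp h hp) hq

private lemma PFCc_avgF {S : Finset ℕ} (hS : ∀ p ∈ S, p.Prime)
    (lam : Finset ℕ → ℝ) {F : ℤ → ℝ}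
    (hF : ∀ m, F m = ∑ A ∈ S.powerset, lam A * (if ((∏ p ∈ A, p : ℕ) : ℤ) ∣ m then (1 : ℝ) else 0)) :
    avgP (∏ p ∈ S, p) F = ∑ A ∈ S.powerset, lam A / ((∏ p ∈ A, p : ℕ) : ℝ) := by
  have h1 : F = (fun m => ∑ A ∈ S.powerset, lam A * (if ((∏ p ∈ A, p : ℕ) : ℤ) ∣ m then (1 : ℝ) else 0)) := by
    funext m
    exact hF m
  rw [h1, PFCc_avg_sum]
  apply Finset.sum_congr rfl
  intro A hA
  rw [Finset.mem_powerset] at hA
  have h2 := PFCc_avg_ind (PFCc_pos hS) (Finset.prod_dvd_prod_of_subset A S (fun p => p) hA) 0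
  simp only [sub_zero] at h2
  rw [h2]
  ring

private lemma PFCc_powerset_mem {S : Finset ℕ} {g : ℕ → ℝ} (hg : ∀ p ∈ S, 0 ≤ g p) {p : ℕ} (hp : p ∈ S) :
    ∑ A ∈ S.powerset.filter (fun A => p ∈ A), ∏ q ∈ A, g q ≤ g p * ∏ q ∈ S, (1 + g q) := by
  have h1 : ∑ A ∈ S.powerset.filter (fun A => p ∈ A), ∏ q ∈ A, g q
      = ∑ A ∈ (S.erase p).powerset, g p * ∏ q ∈ A, g q := by
    apply Finset.sum_nbij' (i := fun A => A.erase p) (j := fun A => insert p A)
    · intro A hA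
      rw [Finset.mem_filter, Finset.mem_powerset] at hA
      rw [Finset.mem_powerset]
      exact Finset.erase_subset_erase p hA.1
    · intro A hA
      rw [Finset.mem_powerset] at hA
      rw [Finset.mem_filter, Finset.mem_powerset]
      refine ⟨?_, Finset.mem_insert_self _ _⟩
      intro q hq
      rw [Finset.mem_insert] at hq
      rcases hq with rfl | hq
      · exact hp
      · exact Finset.mem_of_mem_erase (hA hq)
    · intro A hA
      rw [Finset.mem_filter] at hA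
      exact Finset.insert_erase hA.2
    · intro A hA
      rw [Finset.mem_powerset] at hA
      exact Finset.erase_insert (fun h => Finset.notMem_erase p S (hA h))
    · intro A hA
      rw [Finset.mem_filter] at hA
      exact (Finset.mul_prod_erase A g hA.2).symm
  rw [h1, ← Finset.mul_sum, ← Finset.prod_one_add]
  apply mul_le_mul_of_nonneg_left _ (hg p hp)
  apply Finset.prod_le_prod_of_subset_of_one_le (Finset.erase_subset _ _)
  · intro q hq
    linarith [hg q (Finset.mem_of_mem_erase hq)]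
  · intro q hq _
    linarith [hg q hq]

private lemma PFCc_nondisj {S : Finset ℕ} {g : ℕ → ℝ} (hg : ∀ p ∈ S, 0 ≤ g p) :
    ∑ A ∈ S.powerset, ∑ B ∈ S.powerset, (if Disjoint A B then 0 else (∏ q ∈ A, g q) * ∏ q ∈ B, g q)
      ≤ (∑ p ∈ S, g p ^ 2) * (∏ q ∈ S, (1 + g q)) ^ 2 := by
  have hn : ∀ A ∈ S.powerset, 0 ≤ ∏ q ∈ A, g q := by
    intro A hA
    rw [Finset.mem_powerset] at hA
    exact Finset.prod_nonneg (fun q hq => hg q (hA hq))
  calc ∑ A ∈ S.powerset, ∑ B ∈ S.powerset, (if Disjoint A B then 0 else (∏ q ∈ A, g q) * ∏ q ∈ B, g q)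
      ≤ ∑ A ∈ S.powerset, ∑ B ∈ S.powerset, ∑ p ∈ S,
          (if p ∈ A then ∏ q ∈ A, g q else 0) * (if p ∈ B then ∏ q ∈ B, g q else 0) := by
        apply Finset.sum_le_sum
        intro A hA
        apply Finset.sum_le_sum
        intro B hB
        have hnn : ∀ p ∈ S, 0 ≤ (if p ∈ A then ∏ q ∈ A, g q else 0) * (if p ∈ B then ∏ q ∈ B, g q else 0) := by
          intro p _
          apply mul_nonneg
          · split_ifs
            · exact hn A hA
            · exact le_rfl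
          · split_ifs
            · exact hn B hB
            · exact le_rfl
        split_ifs with hd
        · exact Finset.sum_nonneg hnn
        · rw [Finset.not_disjoint_iff] at hd
          obtain ⟨p, hpA, hpB⟩ := hd
          have h1 := Finset.single_le_sum (f := fun p => (if p ∈ A then ∏ q ∈ A, g q else 0) *
            (if p ∈ B then ∏ q ∈ B, g q else 0)) hnn (Finset.mem_powerset.mp hA hpA)
          simp only [if_pos hpA, if_pos hpB] at h1
          exact h1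
    _ = ∑ p ∈ S, (∑ A ∈ S.powerset, if p ∈ A then ∏ q ∈ A, g q else 0) ^ 2 := by
        have h1 : ∀ p ∈ S, (∑ A ∈ S.powerset, if p ∈ A then ∏ q ∈ A, g q else 0) ^ 2
            = ∑ A ∈ S.powerset, ∑ B ∈ S.powerset,
              (if p ∈ A then ∏ q ∈ A, g q else 0) * (if p ∈ B then ∏ q ∈ B, g q else 0) := by
          intro p _
          rw [sq, Finset.sum_mul_sum]
        rw [Finset.sum_congr rfl h1]
        symm
        rw [Finset.sum_comm]
        apply Finset.sum_congr rfl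
        intro A _
        rw [Finset.sum_comm]
    _ ≤ ∑ p ∈ S, (g p * ∏ q ∈ S, (1 + g q)) ^ 2 := by
        apply Finset.sum_le_sum
        intro p hp
        rw [← Finset.sum_filter]
        apply pow_le_pow_left₀ _ (PFCc_powerset_mem hg hp)
        apply Finset.sum_nonneg
        intro A hA
        exact hn A (Finset.mem_filter.mp hA).1
    _ = _ := by
        rw [Finset.sum_mul]
        apply Finset.sum_congr rfl
        intro p _
        ring

private lemma PFCc_sum_le_prod {S : Finset ℕ} {g : ℕ → ℝ} (hg : ∀ p ∈ S, 0 ≤ g p) :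
    1 + ∑ p ∈ S, g p ≤ ∏ p ∈ S, (1 + g p) := by
  induction S using Finset.induction_on with
  | empty => simp
  | insert p S hp ih =>
    rw [Finset.sum_insert hp, Finset.prod_insert hp]
    have h1 := ih (fun q hq => hg q (Finset.mem_insert_of_mem hq))
    have h2 := hg p (Finset.mem_insert_self _ _)
    have h3 : 0 ≤ ∑ q ∈ S, g q := Finset.sum_nonneg (fun q hq => hg q (Finset.mem_insert_of_mem hq))
    nlinarith

private lemma PFCc_PI_prime {w z : ℝ} : ∀ p ∈ PI w z, p.Prime := fun p hp => by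
  unfold PI at hp
  exact (Finset.mem_filter.mp hp).2.1

private lemma PFCc_mem_PI {w z : ℝ} (hz : 0 ≤ z) {p : ℕ} : p ∈ PI w z ↔ p.Prime ∧ w < (p : ℝ) ∧ (p : ℝ) ≤ z := by
  unfold PI
  rw [Finset.mem_filter, Finset.mem_range, Nat.lt_succ_iff, Nat.le_floor_iff hz]
  tauto

private lemma PFCc_corr {S : Finset ℕ} (hS : ∀ p ∈ S, p.Prime) (k : ℤ) (hk : ∀ p ∈ S, ¬ (p : ℤ) ∣ k)
    (lam lam' : Finset ℕ → ℝ) {F F' : ℤ → ℝ}
    (hF : ∀ m, F m = ∑ A ∈ S.powerset, lam A * (if ((∏ p ∈ A, p : ℕ) : ℤ) ∣ m then (1 : ℝ) else 0))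
    (hF' : ∀ m, F' m = ∑ A ∈ S.powerset, lam' A * (if ((∏ p ∈ A, p : ℕ) : ℤ) ∣ m then (1 : ℝ) else 0)) :
    avgP (∏ p ∈ S, p) (fun m => F m * F' (m + k))
      = ∑ A ∈ S.powerset, ∑ B ∈ S.powerset,
        (if Disjoint A B then (lam A / ((∏ p ∈ A, p : ℕ) : ℝ)) * (lam' B / ((∏ p ∈ B, p : ℕ) : ℝ)) else 0) := by
  have h1 : (fun m => F m * F' (m + k)) = (fun m => ∑ q ∈ S.powerset ×ˢ S.powerset, (lam q.1 * lam' q.2) *
      ((if ((∏ p ∈ q.1, p : ℕ) : ℤ) ∣ m then (1 : ℝ) else 0) *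
        (if ((∏ p ∈ q.2, p : ℕ) : ℤ) ∣ m + k then (1 : ℝ) else 0))) := by
    funext m
    rw [hF, hF', Finset.sum_mul_sum, ← Finset.sum_product']
    apply Finset.sum_congr rfl
    intro q _
    ring
  rw [h1, PFCc_avg_sum, Finset.sum_product]
  apply Finset.sum_congr rfl
  intro A hA
  apply Finset.sum_congr rfl
  intro B hB
  rw [Finset.mem_powerset] at hA hB
  simp only
  have hA' : ∀ p ∈ A, p.Prime := fun p hp => hS p (hA hp)
  have hB' : ∀ p ∈ B, p.Prime := fun p hp => hS p (hB hp)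
  by_cases hd : Disjoint A B
  · rw [if_pos hd, PFCc_avg_two (PFCc_pos hS) (PFCc_cop hA' hB' hd)]
    · ring
    · rw [← Finset.prod_union hd]
      exact Finset.prod_dvd_prod_of_subset _ _ _ (Finset.union_subset hA hB)
  · rw [if_neg hd]
    rw [Finset.not_disjoint_iff] at hd
    obtain ⟨p, hpA, hpB⟩ := hd
    have h2 : (fun m : ℤ => (if ((∏ p ∈ A, p : ℕ) : ℤ) ∣ m then (1 : ℝ) else 0) *
        (if ((∏ p ∈ B, p : ℕ) : ℤ) ∣ m + k then (1 : ℝ) else 0)) = fun _ => 0 := by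
      funext m
      by_cases h3 : ((∏ p ∈ A, p : ℕ) : ℤ) ∣ m
      · by_cases h4 : ((∏ p ∈ B, p : ℕ) : ℤ) ∣ m + k
        · exfalso
          have h5 := (PFCc_dvd hA' m).mp h3 p hpA
          have h6 := (PFCc_dvd hB' (m + k)).mp h4 p hpB
          exact hk p (hA hpA) ((dvd_add_right h5).mp h6)
        · rw [if_neg h4, mul_zero]
      · rw [if_neg h3, zero_mul]
    rw [h2]
    simp [avgP]

private lemma PFCc_pf {S : Finset ℕ} (hS : ∀ p ∈ S, p.Prime) (c : Finset ℕ → ℝ) (m : ℤ) :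
    pf S c m = ∑ A ∈ S.powerset, c A * (if ((∏ p ∈ A, p : ℕ) : ℤ) ∣ m then (1 : ℝ) else 0) := by
  unfold pf
  apply Finset.sum_congr rfl
  intro A hA
  rw [Finset.mem_powerset] at hA
  have h := PFCc_dvd (T := A) (fun p hp => hS p (hA hp)) m
  by_cases h1 : ((∏ p ∈ A, p : ℕ) : ℤ) ∣ m
  · rw [if_pos h1, if_pos (h.mp h1)]
  · rw [if_neg h1, if_neg (fun h2 => h1 (h.mpr h2))]

private lemma PFCc_pair {S : Finset ℕ} (hS : ∀ p ∈ S, p.Prime) {B : ℝ} (hB : 0 ≤ B) {c c' : Finset ℕ → ℝ}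
    (hc : ∀ T ⊆ S, |c T| ≤ B ^ T.card) (hc' : ∀ T ⊆ S, |c' T| ≤ B ^ T.card)
    {z C : ℝ} (hz : 0 < z) (hzS : ∀ p ∈ S, z ≤ (p : ℝ)) (hC : ∏ p ∈ S, (1 + B / (p : ℝ)) ≤ C) (k : ℤ)
    (hk : ∀ p ∈ S, ¬ (p : ℤ) ∣ k) :
    avgP (∏ p ∈ S, p) (fun m => pf S c m * pf S c' (m + k))
      ≤ avgP (∏ p ∈ S, p) (pf S c) * avgP (∏ p ∈ S, p) (pf S c') + B * C ^ 3 / z := by
  have hg : ∀ p ∈ S, 0 ≤ B / (p : ℝ) := by
    intro p _
    positivity
  rw [PFCc_avgF hS c (F := pf S c) (PFCc_pf hS c), PFCc_avgF hS c' (F := pf S c') (PFCc_pf hS c')]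
  have h2 := PFCc_corr hS k hk c c' (F := pf S c) (F' := pf S c') (PFCc_pf hS c) (PFCc_pf hS c')
  rw [h2]
  set a : Finset ℕ → ℝ := fun A => c A / ((∏ p ∈ A, p : ℕ) : ℝ) with ha
  set a' : Finset ℕ → ℝ := fun A => c' A / ((∏ p ∈ A, p : ℕ) : ℝ) with ha'
  have hab : ∀ (d : Finset ℕ → ℝ), (∀ T ⊆ S, |d T| ≤ B ^ T.card) → ∀ A ⊆ S,
      |d A / ((∏ p ∈ A, p : ℕ) : ℝ)| ≤ ∏ q ∈ A, (B / (q : ℝ)) := by
    intro d hd A hA
    rw [abs_div, Finset.prod_div_distrib, Nat.abs_cast, Finset.prod_const]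
    push_cast
    apply div_le_div_of_nonneg_right (hd A hA)
    exact Finset.prod_nonneg (fun p _ => Nat.cast_nonneg p)
  have h3 : ∑ A ∈ S.powerset, ∑ B ∈ S.powerset, (if Disjoint A B then a A * a' B else 0)
      ≤ (∑ A ∈ S.powerset, a A) * (∑ A ∈ S.powerset, a' A) + ∑ A ∈ S.powerset, ∑ D ∈ S.powerset,
        (if Disjoint A D then 0 else (∏ q ∈ A, (B / (q : ℝ))) * ∏ q ∈ D, (B / (q : ℝ))) := by
    rw [Finset.sum_mul_sum, ← Finset.sum_add_distrib]
    apply Finset.sum_le_sum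
    intro A hA
    rw [← Finset.sum_add_distrib]
    apply Finset.sum_le_sum
    intro D hD
    rw [Finset.mem_powerset] at hA hD
    split_ifs with hd
    · linarith
    · have e1 : |a A * a' D| ≤ (∏ q ∈ A, (B / (q : ℝ))) * ∏ q ∈ D, (B / (q : ℝ)) := by
        rw [abs_mul]
        exact mul_le_mul (hab c hc A hA) (hab c' hc' D hD) (abs_nonneg _) ((abs_nonneg _).trans (hab c hc A hA))
      have e2 := neg_abs_le (a A * a' D)
      linarith
  refine h3.trans ?_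
  apply add_le_add le_rfl
  refine (PFCc_nondisj hg).trans ?_
  have hPnn : 0 ≤ ∏ q ∈ S, (1 + B / (q : ℝ)) := Finset.prod_nonneg (fun q hq => by linarith [hg q hq])
  have hC0 : 0 ≤ C := hPnn.trans hC
  have h4 : ∑ p ∈ S, (B / (p : ℝ)) ^ 2 ≤ B / z * C := by
    calc ∑ p ∈ S, (B / (p : ℝ)) ^ 2 ≤ ∑ p ∈ S, B / z * (B / (p : ℝ)) := by
          apply Finset.sum_le_sum
          intro p hp
          rw [sq]
          apply mul_le_mul_of_nonneg_right _ (hg p hp)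
          exact div_le_div_of_nonneg_left hB hz (hzS p hp)
      _ = B / z * ∑ p ∈ S, (B / (p : ℝ)) := by rw [Finset.mul_sum]
      _ ≤ B / z * C := by
          apply mul_le_mul_of_nonneg_left _ (by positivity)
          have := PFCc_sum_le_prod hg
          linarith
  calc (∑ p ∈ S, (B / (p : ℝ)) ^ 2) * (∏ q ∈ S, (1 + B / (q : ℝ))) ^ 2
      ≤ (B / z * C) * C ^ 2 := by
        apply mul_le_mul h4 (pow_le_pow_left₀ hPnn hC 2) (by positivity) (by positivity)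
    _ = B * C ^ 3 / z := by ring

private lemma PFCc_large (δ K : ℝ) (hδ : 0 < δ) : ∃ X : ℝ, ∀ x : ℝ, X ≤ x →
    3 ≤ x ∧ 4 * (Real.log x) ^ 2 < x ^ δ ∧ K * (Real.log x) ^ 2 ≤ x ^ δ := by
  have h1 : ∀ᶠ x : ℝ in Filter.atTop, (|K| + 5) * (Real.log x) ^ 2 ≤ x ^ δ := by
    have h2 := (isLittleO_log_rpow_rpow_atTop (2 : ℝ) hδ).bound (show (0 : ℝ) < 1 / (|K| + 5) by positivity)
    filter_upwards [h2, Filter.eventually_ge_atTop (3 : ℝ)] with x hx hx3
    have hl : 0 ≤ Real.log x := Real.log_nonneg (by linarith)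
    have hp : 0 < x ^ δ := Real.rpow_pos_of_pos (by linarith) δ
    rw [Real.norm_of_nonneg (Real.rpow_nonneg hl _), Real.norm_of_nonneg hp.le] at hx
    have h3 : Real.log x ^ (2 : ℝ) = Real.log x ^ 2 := by
      rw [show (2 : ℝ) = ((2 : ℕ) : ℝ) by norm_num, Real.rpow_natCast]
    rw [h3] at hx
    have hK : 0 < |K| + 5 := by positivity
    calc (|K| + 5) * (Real.log x) ^ 2 ≤ (|K| + 5) * (1 / (|K| + 5) * x ^ δ) := mul_le_mul_of_nonneg_left hx hK.le
      _ = x ^ δ := by field_simp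
  obtain ⟨X, hX⟩ := Filter.eventually_atTop.mp ((Filter.eventually_ge_atTop (3 : ℝ)).and h1)
  refine ⟨X, fun x hx => ?_⟩
  obtain ⟨h3, h4⟩ := hX x hx
  have hl : 0 < Real.log x := Real.log_pos (by linarith)
  have hl2 : 0 < (Real.log x) ^ 2 := by positivity
  refine ⟨h3, ?_, ?_⟩
  · nlinarith [abs_nonneg K]
  · nlinarith [abs_nonneg K, le_abs_self K]

theorem PFCc (δ v B : ℝ) (hδ : 0 < δ) (hδv : δ < v) (hv : v ≤ 1) (hB : 1 ≤ B) : ∃ X : ℝ, ∀ x : ℝ, X ≤ x →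
    ∀ c c' : Finset ℕ → ℝ, (∀ T : Finset ℕ, T ⊆ PI (x ^ δ) (x ^ v) → |c T| ≤ B ^ T.card) →
    (∀ T : Finset ℕ, T ⊆ PI (x ^ δ) (x ^ v) → |c' T| ≤ B ^ T.card) →
    ∀ k : ℤ, k ≠ 0 → |(k : ℝ)| ≤ 4 * (Real.log x) ^ 2 →
    avgP (PR (x ^ δ) (x ^ v)) (fun n => pf (PI (x ^ δ) (x ^ v)) c n * pf (PI (x ^ δ) (x ^ v)) c' (n + k)) ≤
      avgP (PR (x ^ δ) (x ^ v)) (pf (PI (x ^ δ) (x ^ v)) c) * avgP (PR (x ^ δ) (x ^ v)) (pf (PI (x ^ δ) (x ^ v)) c') +
        1 / (Real.log x) ^ 2 := by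
  have hv0 : 0 < v := hδ.trans hδv
  have hq0 : 0 < δ / v := div_pos hδ hv0
  have hq1 : δ / v ≤ 1 := by rw [div_le_one hv0]; exact hδv.le
  obtain ⟨C4, hC4, hC4'⟩ := mer4 B (δ / v) (by linarith) hq0 hq1
  obtain ⟨X, hX⟩ := PFCc_large δ (B * C4 ^ 3) hδ
  refine ⟨X, ?_⟩
  intro x hx c c' hc hc' k hk hk2
  obtain ⟨hx3, hxk, hxc⟩ := hX x hx
  have hx0 : 0 < x := by linarith
  have hx1 : 1 ≤ x := by linarith
  have hlog : 0 < Real.log x := Real.log_pos (by linarith)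
  have hz0 : 0 < x ^ δ := Real.rpow_pos_of_pos hx0 δ
  have hR0 : 0 < x ^ v := Real.rpow_pos_of_pos hx0 v
  have hR1 : 1 ≤ x ^ v := Real.one_le_rpow hx1 hv0.le
  have hRz : (x ^ v) ^ (δ / v) = x ^ δ := by
    rw [← Real.rpow_mul hx0.le]
    congr 1
    field_simp
  have hC := hC4' (x ^ v) hR1
  rw [hRz] at hC
  have hS : ∀ p ∈ PI (x ^ δ) (x ^ v), p.Prime := PFCc_PI_prime
  have hzS : ∀ p ∈ PI (x ^ δ) (x ^ v), x ^ δ < (p : ℝ) := fun p hp => ((PFCc_mem_PI hR0.le).mp hp).2.1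
  have hkS : ∀ p ∈ PI (x ^ δ) (x ^ v), ¬ (p : ℤ) ∣ k := by
    intro p hp hdvd
    have h1 := Int.le_of_dvd (abs_pos.mpr hk) ((dvd_abs _ _).mpr hdvd)
    have h2 : (p : ℝ) ≤ |(k : ℝ)| := by exact_mod_cast h1
    linarith [hzS p hp]
  have h1 := PFCc_pair hS (by linarith : (0 : ℝ) ≤ B) (fun T hT => hc T hT) (fun T hT => hc' T hT) hz0
    (fun p hp => (hzS p hp).le) hC k hkS
  unfold PR
  refine h1.trans ?_
  have h4 : B * C4 ^ 3 / x ^ δ ≤ 1 / (Real.log x) ^ 2 := by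
    rw [div_le_div_iff₀ hz0 (by positivity), one_mul]
    exact hxc
  linarith

end Pool.Agent.H96.FL
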