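import Pool.Agent.H96.FL.Df
import Pool.Agent.H6.MB.RHO

/-!
# PFM: the average of a divisor sum, and the sum of the absolute values of its terms

* `PFM_avg`: `avgP` over the period `∏_{p ∈ PI w z} p` of the indicator function of `∏T ∣ n` is `1/∏T` (`RHO_avgF` and the lemmas before it in `Pool/Agent/H6/MB/RHO.lean`, private: copy).
* `PFM_bd`: `∑_{T ⊆ S} A^|T|/∏T = ∏_{p∈S} (1 + A/p) ≤ ∏_{p∈S} (1+1/p)^A ≤ (EP (x^δ) (x^(1/2)))⁻¹ ^ A` (`EP w z = ∏_{p ∈ PI w z} (1 - 1/p)`; Bernoulli: `1 + A/p ≤ (1+1/p)^A`, `one_add_mul_le_pow`; `Finset.prod_one_add`), and `EP 0 R = EP 0 z * EP z R` (`EP_mul`), `EP 0 z ≤ 1/log z` (`mer3`), `EP 0 R ≥ c₂/log R` (`mer2`),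
  so `(EP z R)⁻¹ ≤ log R/(c₂ log z) = 1/(2 c₂ δ)` for `z = x^δ`, `R = x^(1/2)`. `C₀ = max 1 ((1/(2 c₂))^A)`.
-/

set_option autoImplicit false

namespace Pool.Agent.H96.FL

open Finset Pool.Agent.H17 Pool.Agent.H6.MF Pool.Agent.H6.MB

private lemma PFM_dvd {T : Finset ℕ} (hT : ∀ p ∈ T, p.Prime) (n : ℤ) :
    ((∏ p ∈ T, p : ℕ) : ℤ) ∣ n ↔ ∀ p ∈ T, (p : ℤ) ∣ n := by
  constructor
  · intro h p hp
    exact (Int.natCast_dvd_natCast.mpr (Finset.dvd_prod_of_mem _ hp)).trans h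
  · intro h
    rw [Int.natCast_dvd]
    apply Finset.prod_primes_dvd
    · intro p hp; exact (hT p hp).prime
    · intro p hp; exact Int.natCast_dvd.mp (h p hp)

private lemma PFM_pos {T : Finset ℕ} (hT : ∀ p ∈ T, p.Prime) : 0 < ∏ p ∈ T, p :=
  Finset.prod_pos (fun p hp => (hT p hp).pos)

private lemma PFM_one_period {q : ℕ} (hq : 0 < q) (s r : ℤ) :
    ∑ j ∈ Finset.range q, (if (q : ℤ) ∣ ((q : ℤ) * s + (j : ℤ)) - r then (1 : ℝ) else 0) = 1 := by
  have hq' : (0 : ℤ) < q := by exact_mod_cast hq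
  have h0 := Int.emod_nonneg r hq'.ne'
  have h1 := Int.emod_lt_of_pos r hq'
  rw [Finset.sum_eq_single (r % (q : ℤ)).toNat]
  · rw [if_pos]
    rw [Int.toNat_of_nonneg h0]
    have h2 : (q : ℤ) ∣ r - r % (q : ℤ) := Int.dvd_self_sub_emod
    have h3 : (q : ℤ) * s + r % (q : ℤ) - r = (q : ℤ) * s - (r - r % (q : ℤ)) := by ring
    rw [h3]
    exact dvd_sub (dvd_mul_right _ _) h2
  · intro j hj hne
    rw [Finset.mem_range] at hj
    rw [if_neg]
    intro hd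
    apply hne
    have h2 : (q : ℤ) ∣ r - r % (q : ℤ) := Int.dvd_self_sub_emod
    have h3 : (q : ℤ) ∣ (j : ℤ) - r % (q : ℤ) := by
      have h4 : (j : ℤ) - r % (q : ℤ) = ((q : ℤ) * s + (j : ℤ) - r) - (q : ℤ) * s + (r - r % (q : ℤ)) := by ring
      rw [h4]
      exact dvd_add (dvd_sub hd (dvd_mul_right _ _)) h2
    have h5 : (j : ℤ) - r % (q : ℤ) = 0 := by
      apply Int.eq_zero_of_abs_lt_dvd h3
      rw [abs_lt]
      have hj' : (j : ℤ) < q := by exact_mod_cast hj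
      constructor <;> omega
    omega
  · intro h
    exfalso
    apply h
    rw [Finset.mem_range]
    omega

private lemma PFM_sum_ind {q : ℕ} (hq : 0 < q) (r : ℤ) (t : ℕ) :
    ∑ m ∈ Finset.range (q * t), (if (q : ℤ) ∣ (m : ℤ) - r then (1 : ℝ) else 0) = t := by
  induction t with
  | zero => simp
  | succ t ih =>
    have h1 : q * (t + 1) = q * t + q := by ring
    rw [h1, Finset.sum_range_add, ih]
    have h2 := PFM_one_period hq (t : ℤ) r
    push_cast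
    rw [h2]

private lemma PFM_avg_ind {P q : ℕ} (hP : 0 < P) (hq : q ∣ P) (r : ℤ) :
    avgP P (fun n => if (q : ℤ) ∣ n - r then (1 : ℝ) else 0) = 1 / (q : ℝ) := by
  obtain ⟨t, rfl⟩ := hq
  have hq0 : 0 < q := Nat.pos_of_ne_zero (by rintro rfl; simp at hP)
  have ht0 : 0 < t := Nat.pos_of_ne_zero (by rintro rfl; simp at hP)
  unfold avgP
  have h1 := PFM_sum_ind hq0 r t
  simp only
  rw [h1]
  have hq1 : (0 : ℝ) < q := by exact_mod_cast hq0
  have ht1 : (0 : ℝ) < t := by exact_mod_cast ht0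
  push_cast
  field_simp

private lemma PFM_avg_sum {ι : Type*} (s : Finset ι) (P : ℕ) (c : ι → ℝ) (F : ι → ℤ → ℝ) :
    avgP P (fun m => ∑ i ∈ s, c i * F i m) = ∑ i ∈ s, c i * avgP P (F i) := by
  unfold avgP
  rw [Finset.sum_comm, Finset.sum_div]
  apply Finset.sum_congr rfl
  intro i _
  rw [← Finset.mul_sum, mul_div_assoc]

private lemma PFM_avgF {S : Finset ℕ} (hS : ∀ p ∈ S, p.Prime)
    (lam : Finset ℕ → ℝ) {F : ℤ → ℝ}
    (hF : ∀ m, F m = ∑ A ∈ S.powerset, lam A * (if ((∏ p ∈ A, p : ℕ) : ℤ) ∣ m then (1 : ℝ) else 0)) :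
    avgP (∏ p ∈ S, p) F = ∑ A ∈ S.powerset, lam A / ((∏ p ∈ A, p : ℕ) : ℝ) := by
  have h1 : F = (fun m => ∑ A ∈ S.powerset, lam A * (if ((∏ p ∈ A, p : ℕ) : ℤ) ∣ m then (1 : ℝ) else 0)) := by
    funext m
    exact hF m
  rw [h1, PFM_avg_sum]
  apply Finset.sum_congr rfl
  intro A hA
  rw [Finset.mem_powerset] at hA
  have h2 := PFM_avg_ind (PFM_pos hS) (Finset.prod_dvd_prod_of_subset A S (fun p => p) hA) 0
  simp only [sub_zero] at h2
  rw [h2]
  ring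

private lemma PFM_prime {w z : ℝ} : ∀ p ∈ PI w z, p.Prime := fun p hp => by
  simp only [PI, Finset.mem_filter] at hp
  exact hp.2.1

theorem PFM_avg (w z : ℝ) (c : Finset ℕ → ℝ) :
    avgP (PR w z) (pf (PI w z) c) = ∑ T ∈ (PI w z).powerset, c T / ∏ p ∈ T, (p : ℝ) := by
  unfold PR
  rw [PFM_avgF PFM_prime c (F := pf (PI w z) c) (fun m => ?_)]
  · simp only [Nat.cast_prod]
  · unfold pf
    apply Finset.sum_congr rfl
    intro T hT
    rw [Finset.mem_powerset] at hT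
    congr 1
    have h := PFM_dvd (fun p hp => PFM_prime (w := w) (z := z) p (hT hp)) m
    by_cases h1 : ∀ p ∈ T, (p : ℤ) ∣ m
    · rw [if_pos h1, if_pos (h.2 h1)]
    · rw [if_neg h1, if_neg (fun h2 => h1 (h.1 h2))]

theorem PFM_bd (A : ℕ) : ∃ C₀ : ℝ, 1 ≤ C₀ ∧ ∀ δ : ℝ, 0 < δ → δ < 1 / 2 → ∃ X : ℝ, ∀ x : ℝ, X ≤ x →
    ∑ T ∈ (PI (x ^ δ) (x ^ (1 / 2 : ℝ))).powerset, (A : ℝ) ^ T.card / ∏ p ∈ T, (p : ℝ) ≤ C₀ / δ ^ A := by
  obtain ⟨c, hc, hc2⟩ := mer2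
  refine ⟨max 1 ((1 / (2 * c)) ^ A), le_max_left _ _, fun δ hδ hδ2 => ?_⟩
  have h1 : ∀ᶠ x : ℝ in Filter.atTop, 2 ≤ x ^ δ := (tendsto_rpow_atTop hδ).eventually_ge_atTop 2
  obtain ⟨X, hX⟩ := Filter.eventually_atTop.1 (h1.and (Filter.eventually_ge_atTop (3 : ℝ)))
  refine ⟨X, fun x hx => ?_⟩
  obtain ⟨hz2, hx3⟩ := hX x hx
  have hx0 : 0 < x := by linarith
  have hx1 : 1 ≤ x := by linarith
  set z := x ^ δ with hz
  set R := x ^ (1 / 2 : ℝ) with hR
  have hzR : z ≤ R := Real.rpow_le_rpow_of_exponent_le hx1 hδ2.le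
  have hlogx : 0 < Real.log x := Real.log_pos (by linarith)
  have hlz : Real.log z = δ * Real.log x := Real.log_rpow hx0 _
  have hlR : Real.log R = 1 / 2 * Real.log x := Real.log_rpow hx0 _
  have hmul := EP_mul (w := 0) (y := z) (z := R) (by linarith) hzR
  have h0z := mer3 z hz2
  have h0R := hc2 R (hz2.trans hzR)
  have hEz := EP_pos 0 z
  have hER := EP_pos z R
  rw [hlz] at h0z
  rw [hlR, hmul] at h0R
  have hprod : 0 < δ * Real.log x := mul_pos hδ hlogx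
  have hlow : 2 * c * δ ≤ EP z R := by
    have e1 : c / (1 / 2 * Real.log x) ≤ 1 / (δ * Real.log x) * EP z R :=
      h0R.trans (mul_le_mul_of_nonneg_right h0z hER.le)
    have e2 : 1 / (δ * Real.log x) * EP z R = EP z R / (δ * Real.log x) := by ring
    rw [e2, le_div_iff₀ hprod] at e1
    have e3 : c / (1 / 2 * Real.log x) * (δ * Real.log x) = 2 * c * δ := by
      field_simp
    rw [e3] at e1
    exact e1
  have hlow0 : 0 < 2 * c * δ := by positivity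
  have hinv : (EP z R)⁻¹ ≤ 1 / (2 * c * δ) := by
    rw [← one_div]
    exact one_div_le_one_div_of_le hlow0 hlow
  have hsum : ∑ T ∈ (PI z R).powerset, (A : ℝ) ^ T.card / ∏ p ∈ T, (p : ℝ) = ∏ p ∈ PI z R, (1 + (A : ℝ) / (p : ℝ)) := by
    rw [Finset.prod_one_add]
    apply Finset.sum_congr rfl
    intro T _
    rw [Finset.prod_div_distrib, Finset.prod_const]
  have hp2 : ∀ p ∈ PI z R, (2 : ℝ) ≤ (p : ℝ) := fun p hp => by exact_mod_cast (PFM_prime p hp).two_le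
  have hbd : ∏ p ∈ PI z R, (1 + (A : ℝ) / (p : ℝ)) ≤ (EP z R)⁻¹ ^ A := by
    unfold EP
    rw [← Finset.prod_inv_distrib, ← Finset.prod_pow]
    apply Finset.prod_le_prod
    · intro p hp
      have := hp2 p hp
      positivity
    · intro p hp
      have h2 := hp2 p hp
      have hp0 : (0 : ℝ) < p := by linarith
      have e1 : 1 + (A : ℝ) * (1 / (p : ℝ)) ≤ (1 + 1 / (p : ℝ)) ^ A := by
        apply one_add_mul_le_pow
        have : (0 : ℝ) ≤ 1 / (p : ℝ) := by positivity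
        linarith
      have e2 : (1 + 1 / (p : ℝ)) ≤ (1 - 1 / (p : ℝ))⁻¹ := by
        have e3 : (0 : ℝ) < 1 - 1 / (p : ℝ) := by
          rw [sub_pos, div_lt_one hp0]
          linarith
        rw [← one_div, le_div_iff₀ e3]
        have e4 : (0 : ℝ) ≤ (1 / (p : ℝ)) ^ 2 := by positivity
        nlinarith
      calc 1 + (A : ℝ) / (p : ℝ) = 1 + (A : ℝ) * (1 / (p : ℝ)) := by ring
        _ ≤ (1 + 1 / (p : ℝ)) ^ A := e1
        _ ≤ _ := pow_le_pow_left₀ (by positivity) e2 A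
  rw [hsum]
  calc ∏ p ∈ PI z R, (1 + (A : ℝ) / (p : ℝ)) ≤ (EP z R)⁻¹ ^ A := hbd
    _ ≤ (1 / (2 * c * δ)) ^ A := pow_le_pow_left₀ (by positivity) hinv A
    _ = (1 / (2 * c)) ^ A / δ ^ A := by
        rw [← div_pow]
        congr 1
        field_simp
    _ ≤ max 1 ((1 / (2 * c)) ^ A) / δ ^ A := by
        apply div_le_div_of_nonneg_right (le_max_right _ _)
        positivity

end Pool.Agent.H96.FL
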