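import Pool.Agent.H96.FL.EDf
import Pool.Agent.H96.FL.PFCc
import Pool.Agent.H96.FL.PFCb
import Pool.Agent.H96.FL.PFM

/-!
# GFE: the family of weights given by arbitrary coefficients

`S = PI (x^δ) (x^(1/2))`, `P = PR (x^δ) (x^(1/2))`. `b T = A^|T|` if `∏T ≤ x^(1/2-η)`, `0` otherwise; `Q = ∑_{T⊆S} b T/∏T = avg (pf S b)` (`PFM_avg`; `Q ≥ 1`: the term `T = ∅`; `Q ≤ C₀/δ^A`: `PFM_bd`), `β = pf S b/Q`. `|c e T| ≤ b T`, so `|pf S (c e) n| ≤ pf S b n`.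
`TD`: `PFC_TD` with `Y = x^(1/2-η)` (and division by `Q ≥ 1`: `pf S c/Q = pf S (c/Q)` with `|c T/Q| ≤ A^|T|`). Correlations: `PFCc` for `c e/Q`, `c e'/Q` (`1/L² ≤ 1/L`). Sup: for `0 < n ≤ 2x` the number of primes of `S` dividing `n` is at most `C'` (`PFC_sup`), so `0 ≤ pf S b n ≤ ∑_{T ⊆ S, T ∣ n} A^|T| = (1+A)^(omS S n) ≤ (1+A)^C'`, and `F² ≤ β² ≤ C β`.
`GoodF` for `F = β`, `μ = 1` in the same way.
-/

set_option autoImplicit false

namespace Pool.Agent.H96.FL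

open Finset Pool.Agent.H17 Pool.Agent.H6.MF Pool.Agent.H6.MB

private lemma GFE_eq (S : Finset ℕ) (c : Finset ℕ → ℝ) (n : ℤ) :
    pf S c n = ∑ T ∈ (S.filter (fun p : ℕ => (p : ℤ) ∣ n)).powerset, c T := by
  unfold pf
  have h1 : ∀ T ∈ S.powerset, c T * (if ∀ p ∈ T, (p : ℤ) ∣ n then (1 : ℝ) else 0)
      = if ∀ p ∈ T, (p : ℤ) ∣ n then c T else 0 := by
    intro T _
    split_ifs <;> simp
  rw [Finset.sum_congr rfl h1, ← Finset.sum_filter]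
  apply Finset.sum_congr _ (fun _ _ => rfl)
  ext T
  rw [Finset.mem_filter, Finset.mem_powerset, Finset.mem_powerset]
  constructor
  · rintro ⟨h2, h3⟩ p hp
    rw [Finset.mem_filter]
    exact ⟨h2 hp, h3 p hp⟩
  · intro h
    exact ⟨fun p hp => (Finset.mem_filter.mp (h hp)).1, fun p hp => (Finset.mem_filter.mp (h hp)).2⟩

private lemma GFE_div (S : Finset ℕ) (c : Finset ℕ → ℝ) (Q : ℝ) (n : ℤ) :
    pf S (fun T => c T / Q) n = pf S c n / Q := by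
  rw [GFE_eq, GFE_eq, Finset.sum_div]

private lemma GFE_abs (S : Finset ℕ) (c b : Finset ℕ → ℝ) (h : ∀ T, T ⊆ S → |c T| ≤ b T) (n : ℤ) :
    |pf S c n| ≤ pf S b n := by
  rw [GFE_eq, GFE_eq]
  refine (Finset.abs_sum_le_sum_abs _ _).trans (Finset.sum_le_sum fun T hT => h T ?_)
  exact (Finset.mem_powerset.1 hT).trans (Finset.filter_subset _ _)

private lemma GFE_mono (S : Finset ℕ) (c b : Finset ℕ → ℝ) (h : ∀ T, T ⊆ S → c T ≤ b T) (n : ℤ) :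
    pf S c n ≤ pf S b n := by
  rw [GFE_eq, GFE_eq]
  refine Finset.sum_le_sum fun T hT => h T ?_
  exact (Finset.mem_powerset.1 hT).trans (Finset.filter_subset _ _)

private lemma GFE_nonneg (S : Finset ℕ) (b : Finset ℕ → ℝ) (h : ∀ T, T ⊆ S → 0 ≤ b T) (n : ℤ) :
    0 ≤ pf S b n := by
  rw [GFE_eq]
  refine Finset.sum_nonneg fun T hT => h T ?_
  exact (Finset.mem_powerset.1 hT).trans (Finset.filter_subset _ _)

private lemma GFE_pow (S : Finset ℕ) (A : ℝ) (n : ℤ) :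
    pf S (fun T => A ^ T.card) n = (A + 1) ^ omS S n := by
  rw [GFE_eq]
  have h := Finset.sum_pow_mul_eq_add_pow A 1 (S.filter (fun p : ℕ => (p : ℤ) ∣ n))
  simp only [one_pow, mul_one] at h
  exact h

theorem GFE (A : ℕ) (hA : 1 ≤ A) : ∃ C₀ : ℝ, 1 ≤ C₀ ∧ ∀ δ η : ℝ, 0 < δ → δ < 1 / 2 → 0 < η → η ≤ 1 / 20 →
    ∃ C X : ℝ, 1 ≤ C ∧ ∀ x : ℝ, X ≤ x → ∀ c : ℤ → Finset ℕ → ℝ,
    (∀ e : ℤ, ∀ T : Finset ℕ, T ⊆ PI (x ^ δ) (x ^ (1 / 2 : ℝ)) → |c e T| ≤ (A : ℝ) ^ T.card) →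
    (∀ e : ℤ, ∀ T : Finset ℕ, T ⊆ PI (x ^ δ) (x ^ (1 / 2 : ℝ)) → x ^ (1 / 2 - η) < ∏ p ∈ T, (p : ℝ) → c e T = 0) →
    ∃ (Q : ℝ) (β : ℤ → ℝ), 1 ≤ Q ∧ Q ≤ C₀ / δ ^ A ∧
      GoodE δ (1 / 2) η C x
        (fun e => (∑ T ∈ (PI (x ^ δ) (x ^ (1 / 2 : ℝ))).powerset, c e T / ∏ p ∈ T, (p : ℝ)) / Q) β
        (fun e n => pf (PI (x ^ δ) (x ^ (1 / 2 : ℝ))) (c e) n / Q) ∧
      GoodF δ (1 / 2) η C 1 x β β := by
  obtain ⟨C₀, hC₀, hbd⟩ := PFM_bd A
  refine ⟨C₀, hC₀, fun δ η hδ hδ2 hη hη2 => ?_⟩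
  have hA1 : (1 : ℝ) ≤ A := by exact_mod_cast hA
  have hA0 : (0 : ℝ) < A := by linarith
  obtain ⟨X4, hX4⟩ := hbd δ hδ hδ2
  obtain ⟨C1, X1, hC1, hTD⟩ := PFC_TD δ (1 / 2) A hδ hδ2 (by norm_num) hA1
  obtain ⟨X2, hcorr⟩ := PFCc δ (1 / 2) A hδ hδ2 (by norm_num) hA1
  obtain ⟨C3, X3, hC3, hsup⟩ := PFC_sup δ (1 / 2) hδ hδ2 (by norm_num)
  have hpow0 : (0 : ℝ) < ((A : ℝ) + 1) ^ C3 := Real.rpow_pos_of_pos (by linarith) _
  refine ⟨1 + C1 + ((A : ℝ) + 1) ^ C3, max (max X1 X2) (max (max X3 X4) 3), by linarith, ?_⟩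
  intro x hx c hc hc0
  have hx1 : X1 ≤ x := (le_max_left _ _).trans ((le_max_left _ _).trans hx)
  have hx2 : X2 ≤ x := (le_max_right _ _).trans ((le_max_left _ _).trans hx)
  have hx3 : X3 ≤ x := (le_max_left _ _).trans ((le_max_left _ _).trans ((le_max_right _ _).trans hx))
  have hx4 : X4 ≤ x := (le_max_right _ _).trans ((le_max_left _ _).trans ((le_max_right _ _).trans hx))
  have hx5 : 3 ≤ x := (le_max_right _ _).trans ((le_max_right _ _).trans hx)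
  have hx0 : (0 : ℝ) < x := by linarith
  have hxone : (1 : ℝ) ≤ x := by linarith
  have hL : 1 ≤ Real.log x := by
    rw [Real.le_log_iff_exp_le hx0]
    have := Real.exp_one_lt_d9
    linarith
  set S := PI (x ^ δ) (x ^ (1 / 2 : ℝ)) with hS
  have hSp : ∀ p ∈ S, p.Prime := fun p hp => by
    rw [hS] at hp
    unfold PI at hp
    exact (Finset.mem_filter.mp hp).2.1
  have hprod : ∀ T, T ⊆ S → (0 : ℝ) < ∏ p ∈ T, (p : ℝ) := fun T hT =>
    Finset.prod_pos fun p hp => by exact_mod_cast (hSp p (hT hp)).pos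
  set Y := x ^ (1 / 2 - η) with hY
  have hY1 : 1 ≤ Y := Real.one_le_rpow hxone (by linarith)
  have hYx : Y ≤ x := by
    calc Y ≤ x ^ (1 : ℝ) := Real.rpow_le_rpow_of_exponent_le hxone (by linarith)
      _ = x := Real.rpow_one x
  have hY0 : 0 < Y := by linarith
  set b : Finset ℕ → ℝ := fun T => if (∏ p ∈ T, (p : ℝ)) ≤ Y then (A : ℝ) ^ T.card else 0 with hb
  have hb0 : ∀ T, 0 ≤ b T := by
    intro T
    rw [hb]
    simp only
    split_ifs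
    · positivity
    · exact le_rfl
  have hbA : ∀ T, b T ≤ (A : ℝ) ^ T.card := by
    intro T
    rw [hb]
    simp only
    split_ifs
    · exact le_rfl
    · positivity
  have hbY : ∀ T : Finset ℕ, Y < ∏ p ∈ T, (p : ℝ) → b T = 0 := by
    intro T hT
    rw [hb]
    simp only
    rw [if_neg (not_le.2 hT)]
  have hcb : ∀ e : ℤ, ∀ T, T ⊆ S → |c e T| ≤ b T := by
    intro e T hT
    by_cases h : (∏ p ∈ T, (p : ℝ)) ≤ Y
    · have : b T = (A : ℝ) ^ T.card := by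
        rw [hb]
        simp only
        rw [if_pos h]
      rw [this]
      exact hc e T hT
    · rw [hc0 e T hT (not_le.1 h), abs_zero]
      exact hb0 T
  set Q : ℝ := ∑ T ∈ S.powerset, b T / ∏ p ∈ T, (p : ℝ) with hQ
  have hQ1 : 1 ≤ Q := by
    have h1 : b ∅ / ∏ p ∈ (∅ : Finset ℕ), (p : ℝ) = 1 := by
      rw [hb]
      simp only [Finset.prod_empty, Finset.card_empty, pow_zero]
      rw [if_pos hY1, div_one]
    calc (1 : ℝ) = b ∅ / ∏ p ∈ (∅ : Finset ℕ), (p : ℝ) := h1.symm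
      _ ≤ Q := by
        rw [hQ]
        exact Finset.single_le_sum (f := fun T : Finset ℕ => b T / ∏ p ∈ T, (p : ℝ))
          (fun T hT => div_nonneg (hb0 T) (hprod T (Finset.mem_powerset.1 hT)).le)
          (Finset.empty_mem_powerset S)
  have hQ0 : 0 < Q := by linarith
  have hQbd : Q ≤ C₀ / δ ^ A := by
    refine le_trans ?_ (hX4 x hx4)
    rw [hQ]
    exact Finset.sum_le_sum fun T hT =>
      div_le_div_of_nonneg_right (hbA T) (hprod T (Finset.mem_powerset.1 hT)).le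
  set β : ℤ → ℝ := fun n => pf S b n / Q with hβ
  -- bounds of the normalised coefficients
  have hdivA : ∀ c' : Finset ℕ → ℝ, (∀ T : Finset ℕ, T ⊆ S → |c' T| ≤ (A : ℝ) ^ T.card) →
      ∀ T : Finset ℕ, T ⊆ S → |c' T / Q| ≤ (A : ℝ) ^ T.card := by
    intro c' h T hT
    rw [abs_div, abs_of_pos hQ0]
    exact (div_le_self (abs_nonneg _) hQ1).trans (h T hT)
  have hbabs : ∀ T : Finset ℕ, T ⊆ S → |b T| ≤ (A : ℝ) ^ T.card := by
    intro T _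
    rw [abs_of_nonneg (hb0 T)]
    exact hbA T
  have hmonoTD : ∀ F : ℤ → ℝ, TD (PR (x ^ δ) (x ^ (1 / 2 : ℝ))) (C1 * Y) F →
      TD (PR (x ^ δ) (x ^ (1 / 2 : ℝ))) ((1 + C1 + ((A : ℝ) + 1) ^ C3) * Y) F := by
    intro F hF
    refine TD_mono hF dvd_rfl (mul_le_mul_of_nonneg_right ?_ hY0.le)
    linarith
  have hTDgen : ∀ c' : Finset ℕ → ℝ, (∀ T : Finset ℕ, T ⊆ S → |c' T| ≤ (A : ℝ) ^ T.card) →
      (∀ T : Finset ℕ, T ⊆ S → Y < ∏ p ∈ T, (p : ℝ) → c' T = 0) →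
      TD (PR (x ^ δ) (x ^ (1 / 2 : ℝ))) ((1 + C1 + ((A : ℝ) + 1) ^ C3) * Y) (fun n => pf S c' n / Q) := by
    intro c' h h0
    have h1 := hTD x hx1 (fun T => c' T / Q) (hdivA c' h) Y hY1 hYx (fun T hT hYT => by
      rw [h0 T hT hYT, zero_div])
    have h2 : pf (PI (x ^ δ) (x ^ (1 / 2 : ℝ))) (fun T => c' T / Q) = fun n => pf S c' n / Q := by
      funext n
      rw [← hS]
      exact GFE_div S c' Q n
    rw [h2] at h1
    exact hmonoTD _ h1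
  have havg : ∀ c' : Finset ℕ → ℝ, avgP (PR (x ^ δ) (x ^ (1 / 2 : ℝ))) (fun n => pf S c' n / Q) =
      (∑ T ∈ S.powerset, c' T / ∏ p ∈ T, (p : ℝ)) / Q := by
    intro c'
    have h1 := PFM_avg (x ^ δ) (x ^ (1 / 2 : ℝ)) (fun T => c' T / Q)
    have h2 : pf (PI (x ^ δ) (x ^ (1 / 2 : ℝ))) (fun T => c' T / Q) = fun n => pf S c' n / Q := by
      funext n
      rw [← hS]
      exact GFE_div S c' Q n
    rw [h2, ← hS] at h1
    rw [h1, Finset.sum_div]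
    exact Finset.sum_congr rfl fun T _ => by rw [div_right_comm]
  have hcor : ∀ c1 c2 : Finset ℕ → ℝ, (∀ T : Finset ℕ, T ⊆ S → |c1 T| ≤ (A : ℝ) ^ T.card) →
      (∀ T : Finset ℕ, T ⊆ S → |c2 T| ≤ (A : ℝ) ^ T.card) →
      ∀ k : ℤ, k ≠ 0 → |(k : ℝ)| ≤ 4 * (Real.log x) ^ 2 →
      avgP (PR (x ^ δ) (x ^ (1 / 2 : ℝ))) (fun n => pf S c1 n / Q * (pf S c2 (n + k) / Q)) ≤
        (∑ T ∈ S.powerset, c1 T / ∏ p ∈ T, (p : ℝ)) / Q * ((∑ T ∈ S.powerset, c2 T / ∏ p ∈ T, (p : ℝ)) / Q) +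
          1 / Real.log x := by
    intro c1 c2 h1 h2 k hk hk2
    have h3 := hcorr x hx2 (fun T => c1 T / Q) (fun T => c2 T / Q) (hdivA c1 h1) (hdivA c2 h2) k hk hk2
    have e1 : pf (PI (x ^ δ) (x ^ (1 / 2 : ℝ))) (fun T => c1 T / Q) = fun n => pf S c1 n / Q := by
      funext n
      rw [← hS]
      exact GFE_div S c1 Q n
    have e2 : pf (PI (x ^ δ) (x ^ (1 / 2 : ℝ))) (fun T => c2 T / Q) = fun n => pf S c2 n / Q := by
      funext n
      rw [← hS]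
      exact GFE_div S c2 Q n
    rw [e1, e2, havg, havg] at h3
    refine h3.trans (add_le_add le_rfl ?_)
    have hL0 : 0 < Real.log x := by linarith
    apply one_div_le_one_div_of_le hL0
    nlinarith
  have hβ0 : ∀ n, 0 ≤ β n := fun n => div_nonneg (GFE_nonneg S b (fun T _ => hb0 T) n) hQ0.le
  have hFβ : ∀ (e : ℤ) (n : ℤ), |pf S (c e) n / Q| ≤ β n := by
    intro e n
    rw [abs_div, abs_of_pos hQ0, hβ]
    exact div_le_div_of_nonneg_right (GFE_abs S (c e) b (hcb e) n) hQ0.le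
  have hβC : ∀ n : ℤ, 0 < n → (n : ℝ) ≤ 2 * x → β n ≤ 1 + C1 + ((A : ℝ) + 1) ^ C3 := by
    intro n hn hn2
    have h1 := (hsup x hx3 n hn hn2).1
    rw [← hS] at h1
    have h2 : pf S b n ≤ ((A : ℝ) + 1) ^ omS S n := by
      rw [← GFE_pow]
      exact GFE_mono S b _ (fun T _ => hbA T) n
    have h3 : ((A : ℝ) + 1) ^ omS S n ≤ ((A : ℝ) + 1) ^ C3 := by
      rw [← Real.rpow_natCast]
      exact Real.rpow_le_rpow_of_exponent_le (by linarith) h1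
    have h4 : β n ≤ pf S b n := by
      rw [hβ]
      exact div_le_self (GFE_nonneg S b (fun T _ => hb0 T) n) hQ1
    linarith
  have havgβ : avgP (PR (x ^ δ) (x ^ (1 / 2 : ℝ))) β = 1 := by
    rw [hβ, havg, ← hQ]
    exact div_self hQ0.ne'
  have hTDβ : TD (PR (x ^ δ) (x ^ (1 / 2 : ℝ))) ((1 + C1 + ((A : ℝ) + 1) ^ C3) * Y) β :=
    hTDgen b hbabs (fun T _ h => hbY T h)
  refine ⟨Q, β, hQ1, hQbd, ⟨hβ0, hFβ, hTDβ, fun e => hTDgen (c e) (hc e) (hc0 e), havgβ, fun e => havg (c e), ?_, ?_⟩,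
    ⟨hβ0, fun n => le_rfl, hTDβ, hTDβ, havgβ, havgβ, ?_, ?_⟩⟩
  · intro e e' k hk hk2
    exact hcor (c e) (c e') (hc e) (hc e') k hk hk2
  · intro e n hn hn2
    have h1 := hFβ e n
    have h2 := hβC n hn hn2
    have h3 := hβ0 n
    have h4 : (pf S (c e) n / Q) ^ 2 ≤ β n ^ 2 := by
      rw [← sq_abs]
      exact pow_le_pow_left₀ (abs_nonneg _) h1 2
    refine h4.trans ?_
    rw [sq]
    exact mul_le_mul_of_nonneg_right h2 h3
  · intro k hk hk2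
    have h1 := hcor b b hbabs hbabs k hk hk2
    rw [← hQ, div_self hQ0.ne'] at h1
    rw [one_pow]
    rw [one_mul] at h1
    exact h1
  · intro n hn hn2
    have h2 := hβC n hn hn2
    have h3 := hβ0 n
    refine ⟨h2, ?_⟩
    rw [sq]
    exact mul_le_mul_of_nonneg_right h2 h3

end Pool.Agent.H96.FL
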