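import Pool.Agent.H96.FL.OFE
import Pool.Agent.H96.FL.OFD
import Pool.Agent.H96.FL.NMD
import Pool.Agent.H96.FL.GFE
import Pool.Agent.H96.FD.LO
import Pool.Agent.H96.AS.TS

/-!
# UWB: level of distribution, weighted form

Compare `UWL` (`Pool/Agent/H96/FL/UWL.lean`) and `UWF`. `m` with `k + 2 ≤ m`, `k + 4 ≤ 10 (m+1) η`; `C₀` from `GFE A`; `b ≥ b₁` (`NMD m`) by `TS_choose m (k+A+1) (2 * 2^(k+4) * C₀) ε`; `δ = dlm m b ≤ 1/320`, `v = 1/2`, `C` from `GFE`, so `2 * 2^(k+4) * C₀ * (1+1/δ)^(k+A+1) * √(2 (1/2)^b) ≤ ε`, hence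
`2 * 2^(k+4) * Q * A₀ * √(2 (1/2)^b) ≤ ε δ` with `A₀ = (1+1/δ)^k`, `Q ≤ C₀/δ^A ≤ C₀ (1+1/δ)^A`, `1/δ ≤ 1 + 1/δ`. `μ e = (∑_T c e T/∏T)/Q`, `F e = pf (c e)/Q`, `β` from `GFE`.
`OFE`: `|∑_e ∑_n G Mm (V F_e - μ_e)(n-e)| ≤ A₀ 2^(k+4) √(2 (1/2)^b) N T` (`T = ∑_{e∈E} sW x (insert e S)`, `C₁ L sW x S ≤ (1/2)^b T` by `LO k` and `K` large, as in `UWL`, `FN`); `OFD` (with `F = β`, `μ = 1`): `∑_e ∑_n G Mm D β(n-e) ≤ A₀ 2^(k+4) (1/2)^b N T`, and `(1/2)^b ≤ √(2 (1/2)^b)`.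
Pointwise (`w = yy x ≤ z = x^δ`): `0 ≤ Mm w n * V n - rgh x δ n ≤ Mm w n * D n` (see `UWF`: if `n` has a prime factor `≤ w` then `Mm w n = 0 = rgh`; if `n` is coprime to `W` and has a prime factor in `(w, z]` then `rgh = 0` and `V ≤ D` (`GoodDm`); otherwise `Mm w n * V n = wp w * (EP w z)⁻¹ = (EP 0 z)⁻¹ = rgh x δ n` (`wp_eq`, `EP_mul`, `GoodVm`)),
so `|rgh x δ n * F e n - Mm w n * μ e - Mm w n * (V n * F e n - μ e)| = |rgh - Mm V| |F e n| ≤ Mm D β`. Multiply by `Q`.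
-/

set_option autoImplicit false

namespace Pool.Agent.H96.FL

open Finset Pool.Agent.H17 Pool.Agent.H6.MF Pool.Agent.H6.MB Pool.Agent.H12.DM Pool.Agent.H6.AE Pool.Agent.H96.AE Pool.Agent.H96.AS Pool.Agent.H96.FD

private theorem UWB_ev (m b : ℕ) : ∃ X : ℝ, ∀ x : ℝ, X ≤ x →
    1 ≤ x ∧ 1 ≤ Real.log x ∧ (yy x : ℝ) ≤ x ^ dlm m b := by
  have h1 : ∀ᶠ x : ℝ in Filter.atTop, 1 ≤ x ∧ 1 ≤ Real.log x ∧ (yy x : ℝ) ≤ x ^ dlm m b := by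
    have e3 := (isLittleO_log_rpow_atTop (dlm_pos m b)).bound (show (0 : ℝ) < 1 by norm_num)
    filter_upwards [Filter.eventually_ge_atTop (1 : ℝ), Real.tendsto_log_atTop.eventually_ge_atTop 1,
      e3] with x a1 a2 a5
    refine ⟨a1, a2, ?_⟩
    rw [one_mul, Real.norm_of_nonneg (by linarith), Real.norm_of_nonneg (by positivity)] at a5
    have hll : 0 ≤ Real.log (Real.log x) := Real.log_nonneg a2
    have b1 : (yy x : ℝ) ≤ Real.log (Real.log x) / 100 := Nat.floor_le (by positivity)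
    have b2 : Real.log (Real.log x) ≤ Real.log x - 1 := Real.log_le_sub_one_of_pos (by linarith)
    linarith
  exact Filter.eventually_atTop.1 h1

private theorem UWB_dvd_WW {y p : ℕ} (hp : p.Prime) : p ∣ WW y ↔ p ≤ y := by
  unfold WW
  constructor
  · intro h
    obtain ⟨q, hq, hpq⟩ := (Nat.Prime.prime hp).exists_mem_finset_dvd h
    have h1 := mem_PP.1 hq
    rw [(Nat.prime_dvd_prime_iff_eq hp h1.2).1 hpq]
    exact h1.1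
  · intro h
    exact Finset.dvd_prod_of_mem _ (mem_PP.2 ⟨h, hp⟩)

/-- the pointwise comparison -/
private theorem UWB_pt {m b : ℕ} {x : ℝ} (hx : 1 ≤ x) (hyz : (yy x : ℝ) ≤ x ^ dlm m b) {V D : ℤ → ℝ}
    (hV : GoodVm m b x V) (hD : GoodDm m b x V D) (n : ℤ) :
    |rgh x (dlm m b) n - Mm (yy x) n * V n| ≤ Mm (yy x) n * D n := by
  obtain ⟨z, hz⟩ : ∃ z : ℝ, z = x ^ dlm m b := ⟨_, rfl⟩
  have hz0 : 0 ≤ z := by
    rw [hz]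
    positivity
  have hM0 := Mm_nonneg (yy x) n
  have hD0 := hD.1 n
  have hV0 := hV.1 n
  have hMD : 0 ≤ Mm (yy x) n * D n := mul_nonneg hM0 hD0
  have hV1 := hV.2.1 n
  have hD1 := hD.2.1 n
  rw [← hz] at hV1 hD1 hyz
  unfold rgh
  rw [← hz]
  by_cases hg : Int.gcd n (WW (yy x) : ℤ) = 1
  · have hMw : Mm (yy x) n = wp (yy x) := by
      unfold Mm
      rw [if_pos hg]
    by_cases hq : ∃ p ∈ PI (yy x : ℝ) z, (p : ℤ) ∣ n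
    · have h1 := hD1 hq
      have h2 : ¬ ∀ p : ℕ, p.Prime → (p : ℝ) ≤ z → ¬ (p : ℤ) ∣ n := by
        intro h
        obtain ⟨p, hp, hpn⟩ := hq
        rw [NUA_mem hz0] at hp
        exact h p hp.1 hp.2.2 hpn
      rw [if_neg h2, zero_sub, abs_neg, abs_of_nonneg (mul_nonneg hM0 hV0)]
      exact mul_le_mul_of_nonneg_left h1 hM0
    · push Not at hq
      have h1 := hV1 hq
      have h2 : ∀ p : ℕ, p.Prime → (p : ℝ) ≤ z → ¬ (p : ℤ) ∣ n := by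
        intro p hp hpz hpn
        by_cases hpy : (yy x : ℝ) < (p : ℝ)
        · exact hq p ((NUA_mem hz0).2 ⟨hp, hpy, hpz⟩) hpn
        · have hpy' : p ≤ yy x := by
            exact_mod_cast not_lt.1 hpy
          have h3 : p ∣ WW (yy x) := (UWB_dvd_WW hp).2 hpy'
          have h4 : p ∣ Int.gcd n (WW (yy x) : ℤ) :=
            Int.dvd_gcd hpn (Int.natCast_dvd_natCast.2 h3) |> fun h => by exact_mod_cast h
          rw [hg] at h4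
          exact hp.one_lt.ne' (Nat.dvd_one.1 h4)
      rw [if_pos h2, h1, hMw, wp_eq, EP_mul (Nat.cast_nonneg (yy x)) hyz, mul_inv, sub_self, abs_zero,
        ← wp_eq, ← hMw]
      exact hMD
  · have hMw : Mm (yy x) n = 0 := by
      unfold Mm
      rw [if_neg hg]
    have h2 : ¬ ∀ p : ℕ, p.Prime → (p : ℝ) ≤ z → ¬ (p : ℤ) ∣ n := by
      intro h
      obtain ⟨p, hp, hpg⟩ := Nat.exists_prime_and_dvd hg
      have h3 : (p : ℤ) ∣ n := (Int.natCast_dvd_natCast.2 hpg).trans (Int.gcd_dvd_left _ _)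
      have h4 : p ∣ WW (yy x) := by
        have h5 : (p : ℤ) ∣ (WW (yy x) : ℤ) := (Int.natCast_dvd_natCast.2 hpg).trans (Int.gcd_dvd_right _ _)
        exact_mod_cast h5
      have h5 : p ≤ yy x := (UWB_dvd_WW hp).1 h4
      refine h p hp ?_ h3
      have h6 : (p : ℝ) ≤ (yy x : ℝ) := by exact_mod_cast h5
      exact h6.trans hyz
    rw [if_neg h2, hMw, zero_mul, zero_mul, sub_zero, abs_zero]

private theorem UWB_dlm (m b : ℕ) (δ₀ : ℝ) (hδ₀ : 0 < δ₀) (hb : ⌈1 / δ₀⌉₊ ≤ b) : dlm m b ≤ δ₀ := by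
  have h1 : 1 / δ₀ ≤ (b : ℝ) := (Nat.le_ceil _).trans (by exact_mod_cast hb)
  unfold dlm
  have hm : (0 : ℝ) ≤ (m : ℝ) := Nat.cast_nonneg m
  have hb0 : (0 : ℝ) ≤ (b : ℝ) := Nat.cast_nonneg b
  rw [div_le_iff₀ hδ₀] at h1
  rw [div_le_iff₀ (by positivity)]
  have h2 : (b : ℝ) ≤ 40 * ((m : ℝ) + 1) * (4 * (b : ℝ) + 8) := by nlinarith [mul_nonneg hm hb0]
  nlinarith

theorem UWBd (δ₀ : ℝ) (hδ₀ : 0 < δ₀) (k A : ℕ) (hA : 1 ≤ A) (η : ℝ) (hη0 : 0 < η) (hη1 : η ≤ 1 / 20) (ε : ℝ) (hε : 0 < ε) :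
    ∃ δ : ℝ, 0 < δ ∧ δ ≤ 1 / 320 ∧ δ ≤ δ₀ ∧ ∃ K X : ℝ, 1 ≤ K ∧
    ∀ x : ℝ, X ≤ x → ∀ H : ℕ, (H : ℝ) ≤ (Real.log x) ^ 2 →
    ∀ S : Finset ℤ, S ⊆ Finset.Icc 1 (H : ℤ) → S.card = k →
    ∀ G : ℤ → ℝ, (∀ n, 0 ≤ G n) → (∀ n, G n ≤ ∏ c ∈ S, La x (n - c)) →
    ∀ E : Finset ℤ, E ⊆ Finset.Icc 1 (H : ℤ) \ S → K * Real.log x ≤ (E.card : ℝ) → (∀ e ∈ E, adm (insert e S)) →
    ∀ c : ℤ → Finset ℕ → ℝ,
    (∀ e : ℤ, ∀ T : Finset ℕ, T ⊆ PI (x ^ δ) (x ^ (1 / 2 : ℝ)) → |c e T| ≤ (A : ℝ) ^ T.card) →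
    (∀ e : ℤ, ∀ T : Finset ℕ, T ⊆ PI (x ^ δ) (x ^ (1 / 2 : ℝ)) → x ^ (1 / 2 - η) < ∏ p ∈ T, (p : ℝ) → c e T = 0) →
    |∑ e ∈ E, ∑ n ∈ JJ x H, G (n : ℤ) *
        (rgh x δ ((n : ℤ) - e) * pf (PI (x ^ δ) (x ^ (1 / 2 : ℝ))) (c e) ((n : ℤ) - e) -
          Mm (yy x) ((n : ℤ) - e) * ∑ T ∈ (PI (x ^ δ) (x ^ (1 / 2 : ℝ))).powerset, c e T / ∏ p ∈ T, (p : ℝ))| ≤
        ε * δ * ((⌊x⌋₊ : ℝ) + 1) * ∑ e ∈ E, sW x (insert e S) := by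
  obtain ⟨C₀, hC₀, hG⟩ := GFE A hA
  obtain ⟨m, hm1, hm2⟩ : ∃ m : ℕ, k + 2 ≤ m ∧ (k : ℝ) + 4 ≤ 10 * ((m : ℝ) + 1) * η := by
    refine ⟨max (k + 2) ⌈((k : ℝ) + 4) / (10 * η)⌉₊, le_max_left _ _, ?_⟩
    have h1 : ((k : ℝ) + 4) / (10 * η) ≤ ((max (k + 2) ⌈((k : ℝ) + 4) / (10 * η)⌉₊ : ℕ) : ℝ) :=
      (Nat.le_ceil _).trans (by exact_mod_cast le_max_right _ _)
    rw [div_le_iff₀ (by positivity)] at h1
    nlinarith
  obtain ⟨b₁, hNum⟩ := NMD m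
  obtain ⟨b, hb, hbD⟩ := TS_choose m (k + A + 1) (2 * 2 ^ (k + 4) * C₀) ε (by positivity) hε (max b₁ ⌈1 / δ₀⌉₊)
  obtain ⟨X₁, hV⟩ := hNum b ((le_max_left _ _).trans hb)
  set δ : ℝ := dlm m b with hδdef
  have hδ0 : 0 < δ := dlm_pos m b
  have hδ1 : δ ≤ 1 / 320 := dlm_le m b
  have hδ2 : δ ≤ δ₀ := UWB_dlm m b δ₀ hδ₀ ((le_max_right _ _).trans hb)
  have hδv : dlm m b < 1 / 2 := by
    rw [← hδdef]
    linarith
  obtain ⟨C, X₆, hC1', hGC⟩ := hG δ η hδ0 hδv hη0 hη1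
  have hC0 : 0 < C := by linarith
  obtain ⟨C₁, X₂, hC1, hOF⟩ := OFE m b k (1 / 2) η C hη0 hη1 hm1 hm2 hC0 hδv
  obtain ⟨X₃, hOD⟩ := OFD m b k (1 / 2) η C hη0 hη1 hm1 hm2 hC0 hδv
  obtain ⟨X₄, hBM⟩ := BMU_maj m b
  obtain ⟨X₅, hev⟩ := UWB_ev m b
  obtain ⟨c₀, hc0, hLO⟩ := LO k
  set K : ℝ := max 1 (C₁ * 2 ^ b / c₀) with hK
  have hK1 : 1 ≤ K := le_max_left _ _
  have hKC : C₁ * 2 ^ b / c₀ ≤ K := le_max_right _ _
  refine ⟨δ, hδ0, hδ1, hδ2, K, max X₁ (max X₂ (max X₃ (max X₄ (max X₅ X₆)))), hK1,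
    fun x hx H hH S hSI hSc G hG0 hGL E hE hcard hadm c hc1 hc2 => ?_⟩
  simp only [max_le_iff] at hx
  obtain ⟨hx1, hx2, hx3, hx4, hx5, hx6⟩ := hx
  obtain ⟨hxx, hL1, hyz⟩ := hev x hx5
  have hL0 : 0 < Real.log x := by linarith
  obtain ⟨V, D, hVg, hDg⟩ := hV x hx1
  obtain ⟨Q, β, hQ1, hQ2, hEg, hFg⟩ := hGC x hx6 c hc1 hc2
  have hQ0 : 0 < Q := by linarith
  set N : ℝ := (⌊x⌋₊ : ℝ) + 1 with hN
  have hN0 : 0 ≤ N := by positivity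
  have heS : ∀ e ∈ E, e ∉ S := fun e he => (Finset.mem_sdiff.1 (hE he)).2
  set T : ℝ := ∑ e ∈ E, sW x (insert e S) with hT
  have hT0 : 0 ≤ T := Finset.sum_nonneg fun e _ => sW_nonneg x _
  have hS0 : 0 ≤ sW x S := sW_nonneg x _
  -- the lower bound for `T`
  have hTlow : C₁ * Real.log x * sW x S ≤ (1 / 2 : ℝ) ^ b * T := by
    have h1 : (E.card : ℝ) * (c₀ * sW x S) ≤ T := by
      rw [← nsmul_eq_mul, ← Finset.sum_const]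
      exact Finset.sum_le_sum fun e he => hLO x S hSc.le e (heS e he) (hadm e he)
    have h3 : C₁ * 2 ^ b ≤ K * c₀ := by
      rw [div_le_iff₀ hc0] at hKC
      exact hKC
    have h4 : C₁ * 2 ^ b * Real.log x * sW x S ≤ T := by
      refine le_trans ?_ h1
      have h5 : K * Real.log x * (c₀ * sW x S) ≤ (E.card : ℝ) * (c₀ * sW x S) :=
        mul_le_mul_of_nonneg_right hcard (by positivity)
      refine le_trans ?_ h5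
      have h6 : C₁ * 2 ^ b * (Real.log x * sW x S) ≤ K * c₀ * (Real.log x * sW x S) :=
        mul_le_mul_of_nonneg_right h3 (by positivity)
      calc C₁ * 2 ^ b * Real.log x * sW x S = C₁ * 2 ^ b * (Real.log x * sW x S) := by ring
        _ ≤ _ := h6
        _ = _ := by ring
    have h7 : (1 / 2 : ℝ) ^ b * 2 ^ b = 1 := by
      rw [← mul_pow]
      norm_num
    calc C₁ * Real.log x * sW x S = ((1 / 2 : ℝ) ^ b * 2 ^ b) * (C₁ * Real.log x * sW x S) := by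
          rw [h7, one_mul]
      _ = (1 / 2 : ℝ) ^ b * (C₁ * 2 ^ b * Real.log x * sW x S) := by ring
      _ ≤ _ := mul_le_mul_of_nonneg_left h4 (by positivity)
  -- the majorant of `G`
  set A₀ : ℝ := (1 + 1 / δ) ^ k with hA0
  have hA00 : 0 ≤ A₀ := by positivity
  have hLV : ∀ n : ℤ, La x n ≤ (1 + 1 / δ) * (Mm (yy x) n * (1 + V n)) := by
    intro n
    have h3 := hBM x hx4 V hVg n
    have h4 := Mm_nonneg (yy x) n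
    have h5 := hVg.1 n
    have h6 : 0 ≤ 1 / δ := by positivity
    have h7 := mul_nonneg h4 h5
    have h8 := mul_nonneg h6 h4
    nlinarith
  have hGb : ∀ n, |G n| ≤ A₀ * ∏ c ∈ S, (Mm (yy x) (n - c) * (1 + V (n - c))) := by
    intro n
    rw [abs_of_nonneg (hG0 n)]
    refine (hGL n).trans ?_
    rw [hA0, ← hSc, ← Finset.prod_const, ← Finset.prod_mul_distrib]
    exact Finset.prod_le_prod (fun c _ => La_nonneg hxx _) fun c _ => hLV _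
  -- the two errors
  set F : ℤ → ℤ → ℝ := fun e n => pf (PI (x ^ δ) (x ^ (1 / 2 : ℝ))) (c e) n / Q with hF
  set μ : ℤ → ℝ := fun e => (∑ T ∈ (PI (x ^ δ) (x ^ (1 / 2 : ℝ))).powerset, c e T / ∏ p ∈ T, (p : ℝ)) / Q with hμ
  have hErr := hOF x hx2 V hVg μ β F hEg H hH S hSI hSc.le E hE A₀ hA00 G hGb
  have hErD : ∀ e ∈ E, ∑ n ∈ JJ x H, G (n : ℤ) * (Mm (yy x) ((n : ℤ) - e) * (D ((n : ℤ) - e) * β ((n : ℤ) - e))) ≤
      A₀ * 2 ^ (k + 4) * (1 / 2 : ℝ) ^ b * sW x (insert e S) * N := by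
    intro e he
    have h1 := hOD x hx3 V D hVg hDg 1 zero_le_one le_rfl _ _ hFg H hH S hSI hSc.le A₀ hA00 G hGb e (hE he)
    refine le_trans (Finset.sum_le_sum fun n _ => ?_) h1
    rw [abs_of_nonneg (hG0 _)]
  have hsq : Real.sqrt (((1 / 2 : ℝ) ^ b * T + C₁ * Real.log x * sW x S) * T) ≤
      Real.sqrt (2 * (1 / 2 : ℝ) ^ b) * T := by
    have h1 : Real.sqrt (2 * (1 / 2 : ℝ) ^ b) * T = Real.sqrt (2 * (1 / 2 : ℝ) ^ b * T ^ 2) := by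
      rw [Real.sqrt_mul (by positivity : (0 : ℝ) ≤ 2 * (1 / 2 : ℝ) ^ b) (T ^ 2), Real.sqrt_sq hT0]
    rw [h1]
    apply Real.sqrt_le_sqrt
    have h2 : ((1 / 2 : ℝ) ^ b * T + C₁ * Real.log x * sW x S) * T ≤
        ((1 / 2 : ℝ) ^ b * T + (1 / 2 : ℝ) ^ b * T) * T :=
      mul_le_mul_of_nonneg_right (by linarith) hT0
    refine h2.trans (le_of_eq ?_)
    ring
  have hhalf : (1 / 2 : ℝ) ^ b ≤ Real.sqrt (2 * (1 / 2 : ℝ) ^ b) := by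
    apply Real.le_sqrt_of_sq_le
    have h1 : (0 : ℝ) ≤ (1 / 2 : ℝ) ^ b := by positivity
    have h2 : (1 / 2 : ℝ) ^ b ≤ 1 := pow_le_one₀ (by norm_num) (by norm_num)
    nlinarith
  set R : ℝ := Real.sqrt (2 * (1 / 2 : ℝ) ^ b) with hR
  have hR0 : 0 ≤ R := Real.sqrt_nonneg _
  have hQA : Q ≤ C₀ * (1 + 1 / δ) ^ A := by
    refine hQ2.trans ?_
    have h1 : (1 / δ) ^ A ≤ (1 + 1 / δ) ^ A := pow_le_pow_left₀ (by positivity) (by linarith) _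
    calc C₀ / δ ^ A = C₀ * (1 / δ) ^ A := by
          rw [one_div, inv_pow, div_eq_mul_inv]
      _ ≤ _ := mul_le_mul_of_nonneg_left h1 (by linarith)
  have hbD' : 2 * 2 ^ (k + 4) * A₀ * R * Q ≤ ε * δ := by
    have h1 : 2 * 2 ^ (k + 4) * C₀ * (A₀ * (1 + 1 / δ) ^ A * (1 + 1 / δ)) * R ≤ ε := by
      rw [hA0, ← pow_add, ← pow_succ]
      exact hbD
    have h2 : 1 ≤ (1 + 1 / δ) * δ := by
      rw [add_mul, one_mul, div_mul_cancel₀ _ hδ0.ne']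
      linarith
    have h3 : 0 ≤ 2 * 2 ^ (k + 4) * A₀ * R := by positivity
    have h4 : 0 ≤ 2 * 2 ^ (k + 4) * A₀ * R * (C₀ * (1 + 1 / δ) ^ A) := by positivity
    calc 2 * 2 ^ (k + 4) * A₀ * R * Q ≤ 2 * 2 ^ (k + 4) * A₀ * R * (C₀ * (1 + 1 / δ) ^ A) :=
          mul_le_mul_of_nonneg_left hQA h3
      _ = 2 * 2 ^ (k + 4) * A₀ * R * (C₀ * (1 + 1 / δ) ^ A) * 1 := by ring
      _ ≤ 2 * 2 ^ (k + 4) * A₀ * R * (C₀ * (1 + 1 / δ) ^ A) * ((1 + 1 / δ) * δ) :=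
          mul_le_mul_of_nonneg_left h2 h4
      _ = (2 * 2 ^ (k + 4) * C₀ * (A₀ * (1 + 1 / δ) ^ A * (1 + 1 / δ)) * R) * δ := by ring
      _ ≤ ε * δ := mul_le_mul_of_nonneg_right h1 hδ0.le
  -- the decomposition
  have hdec : ∑ e ∈ E, ∑ n ∈ JJ x H, G (n : ℤ) *
      (rgh x δ ((n : ℤ) - e) * pf (PI (x ^ δ) (x ^ (1 / 2 : ℝ))) (c e) ((n : ℤ) - e) -
          Mm (yy x) ((n : ℤ) - e) * ∑ T ∈ (PI (x ^ δ) (x ^ (1 / 2 : ℝ))).powerset, c e T / ∏ p ∈ T, (p : ℝ)) =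
      Q * (∑ e ∈ E, ∑ n ∈ JJ x H, G (n : ℤ) *
          ((rgh x δ ((n : ℤ) - e) - Mm (yy x) ((n : ℤ) - e) * V ((n : ℤ) - e)) * F e ((n : ℤ) - e)) +
        ∑ n ∈ JJ x H, G (n : ℤ) * ∑ e ∈ E, Mm (yy x) ((n : ℤ) - e) *
          (V ((n : ℤ) - e) * F e ((n : ℤ) - e) - μ e)) := by
    have h1 : ∑ n ∈ JJ x H, G (n : ℤ) * ∑ e ∈ E, Mm (yy x) ((n : ℤ) - e) *
          (V ((n : ℤ) - e) * F e ((n : ℤ) - e) - μ e) =
        ∑ e ∈ E, ∑ n ∈ JJ x H, G (n : ℤ) * (Mm (yy x) ((n : ℤ) - e) *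
          (V ((n : ℤ) - e) * F e ((n : ℤ) - e) - μ e)) := by
      simp only [Finset.mul_sum]
      rw [Finset.sum_comm]
    rw [h1, ← Finset.sum_add_distrib, Finset.mul_sum]
    refine Finset.sum_congr rfl fun e _ => ?_
    rw [← Finset.sum_add_distrib, Finset.mul_sum]
    refine Finset.sum_congr rfl fun n _ => ?_
    have h2 : pf (PI (x ^ δ) (x ^ (1 / 2 : ℝ))) (c e) ((n : ℤ) - e) = Q * F e ((n : ℤ) - e) := by
      show _ = Q * (_ / Q)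
      rw [← mul_div_assoc, mul_div_cancel_left₀ _ hQ0.ne']
    have h3 : ∑ T ∈ (PI (x ^ δ) (x ^ (1 / 2 : ℝ))).powerset, c e T / ∏ p ∈ T, (p : ℝ) = Q * μ e := by
      show _ = Q * (_ / Q)
      rw [← mul_div_assoc, mul_div_cancel_left₀ _ hQ0.ne']
    rw [h2, h3]
    ring
  have hp1 : |∑ e ∈ E, ∑ n ∈ JJ x H, G (n : ℤ) *
      ((rgh x δ ((n : ℤ) - e) - Mm (yy x) ((n : ℤ) - e) * V ((n : ℤ) - e)) * F e ((n : ℤ) - e))| ≤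
      A₀ * 2 ^ (k + 4) * R * T * N := by
    refine (Finset.abs_sum_le_sum_abs _ _).trans ?_
    have h1 : ∀ e ∈ E, |∑ n ∈ JJ x H, G (n : ℤ) *
        ((rgh x δ ((n : ℤ) - e) - Mm (yy x) ((n : ℤ) - e) * V ((n : ℤ) - e)) * F e ((n : ℤ) - e))| ≤
        A₀ * 2 ^ (k + 4) * (1 / 2 : ℝ) ^ b * sW x (insert e S) * N := by
      intro e he
      refine (Finset.abs_sum_le_sum_abs _ _).trans (le_trans (Finset.sum_le_sum fun n _ => ?_) (hErD e he))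
      rw [abs_mul, abs_of_nonneg (hG0 _), abs_mul]
      refine mul_le_mul_of_nonneg_left ?_ (hG0 _)
      rw [← mul_assoc]
      exact mul_le_mul (UWB_pt hxx hyz hVg hDg _) (hEg.2.1 e _) (abs_nonneg _)
        (mul_nonneg (Mm_nonneg _ _) (hDg.1 _))
    refine (Finset.sum_le_sum h1).trans ?_
    rw [← Finset.sum_mul, ← Finset.mul_sum, ← hT]
    refine mul_le_mul_of_nonneg_right (mul_le_mul_of_nonneg_right ?_ hT0) hN0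
    exact mul_le_mul_of_nonneg_left hhalf (by positivity)
  have hp2 : |∑ n ∈ JJ x H, G (n : ℤ) * ∑ e ∈ E, Mm (yy x) ((n : ℤ) - e) *
      (V ((n : ℤ) - e) * F e ((n : ℤ) - e) - μ e)| ≤
      A₀ * 2 ^ (k + 4) * R * T * N := by
    refine hErr.trans ?_
    calc A₀ * 2 ^ (k + 4) * Real.sqrt (((1 / 2 : ℝ) ^ b * T + C₁ * Real.log x * sW x S) * T) * N
        ≤ A₀ * 2 ^ (k + 4) * (R * T) * N :=
          mul_le_mul_of_nonneg_right (mul_le_mul_of_nonneg_left hsq (by positivity)) hN0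
      _ = _ := by ring
  rw [hdec, abs_mul, abs_of_pos hQ0]
  refine (mul_le_mul_of_nonneg_left ((abs_add_le _ _).trans (add_le_add hp1 hp2)) hQ0.le).trans ?_
  calc Q * (A₀ * 2 ^ (k + 4) * R * T * N + A₀ * 2 ^ (k + 4) * R * T * N)
      = (2 * 2 ^ (k + 4) * A₀ * R * Q) * (T * N) := by ring
    _ ≤ ε * δ * (T * N) := mul_le_mul_of_nonneg_right hbD' (by positivity)
    _ = _ := by ring


theorem UWB (k A : ℕ) (hA : 1 ≤ A) (η : ℝ) (hη0 : 0 < η) (hη1 : η ≤ 1 / 20) (ε : ℝ) (hε : 0 < ε) :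
    ∃ δ : ℝ, 0 < δ ∧ δ ≤ 1 / 320 ∧ ∃ K X : ℝ, 1 ≤ K ∧
    ∀ x : ℝ, X ≤ x → ∀ H : ℕ, (H : ℝ) ≤ (Real.log x) ^ 2 →
    ∀ S : Finset ℤ, S ⊆ Finset.Icc 1 (H : ℤ) → S.card = k →
    ∀ G : ℤ → ℝ, (∀ n, 0 ≤ G n) → (∀ n, G n ≤ ∏ c ∈ S, La x (n - c)) →
    ∀ E : Finset ℤ, E ⊆ Finset.Icc 1 (H : ℤ) \ S → K * Real.log x ≤ (E.card : ℝ) → (∀ e ∈ E, adm (insert e S)) →
    ∀ c : ℤ → Finset ℕ → ℝ,
    (∀ e : ℤ, ∀ T : Finset ℕ, T ⊆ PI (x ^ δ) (x ^ (1 / 2 : ℝ)) → |c e T| ≤ (A : ℝ) ^ T.card) →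
    (∀ e : ℤ, ∀ T : Finset ℕ, T ⊆ PI (x ^ δ) (x ^ (1 / 2 : ℝ)) → x ^ (1 / 2 - η) < ∏ p ∈ T, (p : ℝ) → c e T = 0) →
    |∑ e ∈ E, ∑ n ∈ JJ x H, G (n : ℤ) *
        (rgh x δ ((n : ℤ) - e) * pf (PI (x ^ δ) (x ^ (1 / 2 : ℝ))) (c e) ((n : ℤ) - e) -
          Mm (yy x) ((n : ℤ) - e) * ∑ T ∈ (PI (x ^ δ) (x ^ (1 / 2 : ℝ))).powerset, c e T / ∏ p ∈ T, (p : ℝ))| ≤
        ε * δ * ((⌊x⌋₊ : ℝ) + 1) * ∑ e ∈ E, sW x (insert e S) := by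
  obtain ⟨δ, h1, h2, _, h3⟩ := UWBd (1 / 320) (by norm_num) k A hA η hη0 hη1 ε hε
  exact ⟨δ, h1, h2, h3⟩

end Pool.Agent.H96.FL
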