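import Pool.Agent.H96.FL.UTR
import Pool.Agent.H96.FL.UWB
import Pool.Agent.H96.FL.UFL

/-!
# UFB: level of distribution `1/2 - η`, for all but `K log x` of the shifts

As `UFF`/`UFU` (see the header of `UFU.lean`) with `UWB k A η ε'` instead of `UWU`. `δ` from `UWB`, `z = x^δ`, `w = yy x ≤ z`, `L = log x`. For `e ∈ E` and `T ⊆ PI z (x^(1/2))` with `∏T ≤ x^(1/2-η)` let `g e T = zrT x δ (Zs x S Z) e T - EP w z * zc x (Zs x S Z) e/∏T` and `c (v - e) T = A^|T| * sign (g e T)` (`0` if `∏T > x^(1/2-η)`; the shifts `e' = v - e`, `v` from `UTR`).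
`∑_{m∈Zs} rgh x δ (m+e) * pf (c (v-e)) (m+e) = (EP 0 z)⁻¹ ∑_T c (v-e) T * zrT x δ Zs e T`, `∑_{m∈Zs} Mm w (m+e) = wp w * zc x Zs e`, `EP 0 z * wp w = EP w z` (`wp_eq`, `EP_mul`), so
`EP 0 z * ∑_{m∈Zs} (rgh (m+e) pf (c (v-e)) (m+e) - Mm w (m+e) ∑_T c (v-e) T/∏T) = ∑_T c (v-e) T * g e T = ∑_T A^|T| |g e T| = erT x δ η A (Zs x S Z) e`.
`erT` for `Z` and for `Zs` differ by at most `2 |Z \ Zs| ∑_T A^|T| ≤ 2 k (x^(1/4)+1) * A^(1/δ) * x^(1/2)` (the number of `T` with `∏T ≤ x^(1/2)` is at most `x^(1/2)`, `|T| ≤ 1/δ`; `EP ≤ 1`, `∏T ≥ 1`; see `PFCb_card`, `PFCb_num` in `PFCb.lean`, private: copy), which is `≤ ε' x/L^(k+2)` for large `x`.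
If `|E| > K L`: `UTR` (with `f = rgh * pf (c (v-e)) - Mm * ∑`, which may depend on `e`) and `UWB` for `H = ⌊L²⌋₊`, `S'`, `G`, `E' = {v - e : e ∈ E}`: `L^k ∑_{e∈E} erT(Zs) ≤ EP 0 z * ε' δ N T'`, `EP 0 z ≤ 1/log z = 1/(δ L)` (`mer3`), `T' = ∑ sW x (insert (v-e) S')`, `(1-ε') T' ≤ ∑_{e∈E} sing (insert e S)`, `T' ≥ c |E|`:
a contradiction to the hypothesis on `E` for small `ε'` and large `x`.
-/

set_option autoImplicit false

namespace Pool.Agent.H96.FL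

open Finset Pool.Agent.H17 Pool.Agent.H6.MF Pool.Agent.H6.MB Pool.Agent.H12.DM Pool.Agent.H6.AE Pool.Agent.H96.AE Pool.Agent.H96.AS Pool.Agent.H96.FD

open scoped Classical in
private theorem UFB_a (x δ : ℝ) (n : ℤ) :
    EP 0 (x ^ δ) * rgh x δ n = if ∀ p : ℕ, p.Prime → (p : ℝ) ≤ x ^ δ → ¬ (p : ℤ) ∣ n then (1 : ℝ) else 0 := by
  unfold rgh
  split_ifs with h
  · exact mul_inv_cancel₀ (EP_pos _ _).ne'
  · simp

private theorem UFB_b (x δ : ℝ) (n : ℤ) (hw : (yy x : ℝ) ≤ x ^ δ) :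
    EP 0 (x ^ δ) * Mm (yy x) n =
      EP (yy x : ℝ) (x ^ δ) * (if Int.gcd n (WW (yy x) : ℤ) = 1 then (1 : ℝ) else 0) := by
  unfold Mm
  split_ifs with h
  · rw [wp_eq, EP_mul (w := 0) (y := (yy x : ℝ)) (z := x ^ δ) (by positivity) hw]
    have h1 := (EP_pos 0 (yy x : ℝ)).ne'
    field_simp
  · simp

/-- indicator function of the multiples of all `p ∈ T` -/
private noncomputable def UFB_i (T : Finset ℕ) (n : ℤ) : ℝ := if ∀ p ∈ T, (p : ℤ) ∣ n then 1 else 0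

private noncomputable def UFB_f (x δ : ℝ) (T : Finset ℕ) (n : ℤ) : ℝ :=
  EP 0 (x ^ δ) * (rgh x δ n * UFB_i T n - Mm (yy x) n / ∏ p ∈ T, (p : ℝ))

private noncomputable def UFB_h (x δ : ℝ) (S Z : Finset ℤ) (e : ℤ) (T : Finset ℕ) : ℝ :=
  ∑ m ∈ Zs x S Z, UFB_f x δ T (m + e)

private noncomputable def UFB_c (x δ η : ℝ) (A : ℕ) (S Z : Finset ℤ) (e : ℤ) (T : Finset ℕ) : ℝ :=
  if (∏ p ∈ T, (p : ℝ)) ≤ x ^ (1 / 2 - η) then (A : ℝ) ^ T.card * (if 0 ≤ UFB_h x δ S Z e T then 1 else -1) else 0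

open scoped Classical in
private theorem UFB_zrT (x δ : ℝ) (Z : Finset ℤ) (e : ℤ) (T : Finset ℕ) :
    (zrT x δ Z e T : ℝ) = ∑ m ∈ Z, EP 0 (x ^ δ) * (rgh x δ (m + e) * UFB_i T (m + e)) := by
  unfold zrT
  rw [← Finset.sum_boole]
  refine Finset.sum_congr rfl fun m _ => ?_
  rw [← mul_assoc, UFB_a]
  unfold UFB_i
  by_cases h1 : ∀ p : ℕ, p.Prime → (p : ℝ) ≤ x ^ δ → ¬ (p : ℤ) ∣ m + e
  · by_cases h2 : ∀ p ∈ T, (p : ℤ) ∣ m + e
    · rw [if_pos h1, if_pos h2, if_pos ⟨h1, h2⟩]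
      norm_num
    · rw [if_neg h2, if_neg (fun h => h2 h.2)]
      norm_num
  · rw [if_neg h1, if_neg (fun h => h1 h.1)]
    norm_num

private theorem UFB_zc (x δ : ℝ) (Z : Finset ℤ) (e : ℤ) (T : Finset ℕ) (hw : (yy x : ℝ) ≤ x ^ δ) :
    EP (yy x : ℝ) (x ^ δ) * (zc x Z e : ℝ) / ∏ p ∈ T, (p : ℝ) =
      ∑ m ∈ Z, EP 0 (x ^ δ) * (Mm (yy x) (m + e) / ∏ p ∈ T, (p : ℝ)) := by
  have h2 : EP (yy x : ℝ) (x ^ δ) * (zc x Z e : ℝ) = ∑ m ∈ Z, EP 0 (x ^ δ) * Mm (yy x) (m + e) := by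
    unfold zc
    rw [Finset.sum_congr rfl (fun m _ => UFB_b x δ (m + e) hw), ← Finset.mul_sum, Finset.sum_boole]
  rw [h2, Finset.sum_div]
  refine Finset.sum_congr rfl fun m _ => ?_
  ring

private theorem UFB_f_le (x δ : ℝ) (T : Finset ℕ) (n : ℤ) (hw : (yy x : ℝ) ≤ x ^ δ) (hT : 1 ≤ ∏ p ∈ T, (p : ℝ)) :
    |UFB_f x δ T n| ≤ 1 := by
  classical
  have h1 : UFB_f x δ T n = (EP 0 (x ^ δ) * rgh x δ n) * UFB_i T n - (EP 0 (x ^ δ) * Mm (yy x) n) / ∏ p ∈ T, (p : ℝ) := by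
    unfold UFB_f
    ring
  rw [h1]
  have h2 : 0 ≤ (EP 0 (x ^ δ) * rgh x δ n) * UFB_i T n ∧ (EP 0 (x ^ δ) * rgh x δ n) * UFB_i T n ≤ 1 := by
    rw [UFB_a]
    unfold UFB_i
    split_ifs <;> norm_num
  have h3 : 0 ≤ EP 0 (x ^ δ) * Mm (yy x) n ∧ EP 0 (x ^ δ) * Mm (yy x) n ≤ 1 := by
    rw [UFB_b x δ n hw]
    have := EP_pos (yy x : ℝ) (x ^ δ)
    have := EP_le_one (yy x : ℝ) (x ^ δ)
    split_ifs <;> constructor <;> linarith
  have h4 : 0 ≤ (EP 0 (x ^ δ) * Mm (yy x) n) / ∏ p ∈ T, (p : ℝ) := div_nonneg h3.1 (by linarith)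
  have h5 : (EP 0 (x ^ δ) * Mm (yy x) n) / ∏ p ∈ T, (p : ℝ) ≤ 1 := by
    rw [div_le_one (by linarith)]
    linarith [h3.2]
  rw [abs_le]
  constructor <;> linarith [h2.1, h2.2]

private theorem UFB_g (x δ : ℝ) (S Z : Finset ℤ) (e : ℤ) (T : Finset ℕ) (hw : (yy x : ℝ) ≤ x ^ δ)
    (hT : 1 ≤ ∏ p ∈ T, (p : ℝ)) :
    |(zrT x δ Z e T : ℝ) - EP (yy x : ℝ) (x ^ δ) * (zc x Z e : ℝ) / ∏ p ∈ T, (p : ℝ)| ≤
      |UFB_h x δ S Z e T| + ((Z \ Zs x S Z).card : ℝ) := by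
  have hsub : Zs x S Z ⊆ Z := Finset.filter_subset _ _
  have h1 : (zrT x δ Z e T : ℝ) - EP (yy x : ℝ) (x ^ δ) * (zc x Z e : ℝ) / ∏ p ∈ T, (p : ℝ) =
      ∑ m ∈ Z, UFB_f x δ T (m + e) := by
    rw [UFB_zrT, UFB_zc x δ Z e T hw, ← Finset.sum_sub_distrib]
    refine Finset.sum_congr rfl fun m _ => ?_
    unfold UFB_f
    ring
  rw [h1, ← Finset.sum_sdiff hsub]
  refine (abs_add_le _ _).trans ?_
  have h2 : |∑ m ∈ Z \ Zs x S Z, UFB_f x δ T (m + e)| ≤ ((Z \ Zs x S Z).card : ℝ) := by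
    refine (Finset.abs_sum_le_sum_abs _ _).trans ?_
    refine (Finset.sum_le_sum fun m _ => UFB_f_le x δ T (m + e) hw hT).trans ?_
    simp
  unfold UFB_h
  linarith

/-- the number of subsets with bounded product -/
private lemma UFB_card {S : Finset ℕ} (hS : ∀ p ∈ S, p.Prime) (D : ℕ) :
    (S.powerset.filter (fun T => ∏ p ∈ T, p ≤ D)).card ≤ D := by
  have hpos : ∀ T : Finset ℕ, T ⊆ S → 0 < ∏ p ∈ T, p := fun T hT => Finset.prod_pos fun p hp => (hS p (hT hp)).pos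
  calc (S.powerset.filter (fun T => ∏ p ∈ T, p ≤ D)).card ≤ (Finset.Icc 1 D).card := by
        apply Finset.card_le_card_of_injOn (fun T => ∏ p ∈ T, p)
        · intro T hT
          simp only [Finset.coe_filter, Set.mem_ofPred_eq, Finset.mem_powerset] at hT
          simp only [Finset.coe_Icc, Set.mem_Icc]
          exact ⟨hpos T hT.1, hT.2⟩
        · intro T hT U hU h
          simp only [Finset.coe_filter, Set.mem_ofPred_eq, Finset.mem_powerset] at hT hU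
          have h1 : ∏ p ∈ T, p = ∏ p ∈ U, p := h
          rw [← Nat.primeFactors_prod (fun p hp => hS p (hT.1 hp)), h1,
            Nat.primeFactors_prod (fun p hp => hS p (hU.1 hp))]
    _ = D := by simp

private lemma UFB_num {T : Finset ℕ} {δ x : ℝ} (hδ : 0 < δ) (hx : 2 ≤ x)
    (hz : ∀ p ∈ T, x ^ δ ≤ (p : ℝ)) (hM : ∏ p ∈ T, (p : ℝ) ≤ x) : (T.card : ℝ) ≤ 1 / δ := by
  have hx0 : (0 : ℝ) < x := by linarith
  have h4 : (x ^ δ) ^ T.card ≤ ∏ p ∈ T, (p : ℝ) := by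
    rw [← Finset.prod_const]
    apply Finset.prod_le_prod
    · intro p _
      exact (Real.rpow_pos_of_pos hx0 δ).le
    · intro p hp
      exact hz p hp
  have h5 : x ^ (δ * T.card) ≤ x ^ (1 : ℝ) := by
    rw [Real.rpow_mul hx0.le, Real.rpow_natCast, Real.rpow_one]
    exact h4.trans hM
  have h7 : δ * T.card ≤ 1 := (Real.rpow_le_rpow_left_iff (by linarith)).mp h5
  rw [le_div_iff₀ hδ]
  linarith

private lemma UFB_mem {w z : ℝ} {p : ℕ} (hz : 0 ≤ z) : p ∈ PI w z ↔ p.Prime ∧ w < (p : ℝ) ∧ (p : ℝ) ≤ z := by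
  unfold PI
  rw [Finset.mem_filter, Finset.mem_range, Nat.lt_succ_iff, Nat.le_floor_iff hz]
  tauto

private lemma UFB_one {x δ : ℝ} (hx : 0 < x) {T : Finset ℕ} (hT : T ⊆ PI (x ^ δ) (x ^ (1 / 2 : ℝ))) :
    1 ≤ ∏ p ∈ T, (p : ℝ) := by
  have h : ∏ p ∈ T, (1 : ℝ) ≤ ∏ p ∈ T, (p : ℝ) := by
    refine Finset.prod_le_prod (fun _ _ => zero_le_one) fun p hp => ?_
    have := ((UFB_mem (Real.rpow_pos_of_pos hx _).le).1 (hT hp)).1.one_lt
    exact_mod_cast this.le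
  rwa [Finset.prod_const_one] at h

/-- the sum of the weights -/
private lemma UFB_sum (x δ η : ℝ) (A : ℕ) (hA : 1 ≤ A) (hδ : 0 < δ) (hx : 2 ≤ x) (hη : 0 < η) :
    ∑ T ∈ (PI (x ^ δ) (x ^ (1 / 2 : ℝ))).powerset.filter (fun T : Finset ℕ => (∏ p ∈ T, (p : ℝ)) ≤ x ^ (1 / 2 - η)),
      (A : ℝ) ^ T.card ≤ x ^ (1 / 2 : ℝ) * (A : ℝ) ^ (1 / δ) := by
  have hx0 : 0 < x := by linarith
  have hA1 : (1 : ℝ) ≤ A := by exact_mod_cast hA
  have hS : ∀ p ∈ PI (x ^ δ) (x ^ (1 / 2 : ℝ)), p.Prime := fun p hp =>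
    ((UFB_mem (Real.rpow_pos_of_pos hx0 _).le).1 hp).1
  have h1 : ∀ T ∈ (PI (x ^ δ) (x ^ (1 / 2 : ℝ))).powerset.filter
      (fun T : Finset ℕ => (∏ p ∈ T, (p : ℝ)) ≤ x ^ (1 / 2 - η)), (A : ℝ) ^ T.card ≤ (A : ℝ) ^ (1 / δ) := by
    intro T hT
    rw [Finset.mem_filter, Finset.mem_powerset] at hT
    have h2 := UFB_num hδ hx (fun p hp => ((UFB_mem (Real.rpow_pos_of_pos hx0 _).le).1 (hT.1 hp)).2.1.le)
      (hT.2.trans (by
        calc x ^ (1 / 2 - η) ≤ x ^ (1 : ℝ) := Real.rpow_le_rpow_of_exponent_le (by linarith) (by linarith)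
          _ = x := Real.rpow_one x))
    rw [← Real.rpow_natCast]
    exact Real.rpow_le_rpow_of_exponent_le hA1 h2
  refine (Finset.sum_le_sum h1).trans ?_
  rw [Finset.sum_const, nsmul_eq_mul]
  refine mul_le_mul_of_nonneg_right ?_ (by positivity)
  have h2 : (PI (x ^ δ) (x ^ (1 / 2 : ℝ))).powerset.filter
      (fun T : Finset ℕ => (∏ p ∈ T, (p : ℝ)) ≤ x ^ (1 / 2 - η)) ⊆
      (PI (x ^ δ) (x ^ (1 / 2 : ℝ))).powerset.filter (fun T => ∏ p ∈ T, p ≤ ⌊x ^ (1 / 2 : ℝ)⌋₊) := by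
    intro T hT
    rw [Finset.mem_filter] at hT ⊢
    refine ⟨hT.1, Nat.le_floor ?_⟩
    push_cast
    exact hT.2.trans (Real.rpow_le_rpow_of_exponent_le (by linarith) (by linarith))
  have h3 := (Finset.card_le_card h2).trans (UFB_card hS _)
  have h4 : (⌊x ^ (1 / 2 : ℝ)⌋₊ : ℝ) ≤ x ^ (1 / 2 : ℝ) := Nat.floor_le (by positivity)
  refine le_trans ?_ h4
  exact_mod_cast h3

/-- the error term in terms of the weighted sums -/
private theorem UFB_er (x δ η : ℝ) (A : ℕ) (S Z : Finset ℤ) (e : ℤ) (hx : 0 < x) (hw : (yy x : ℝ) ≤ x ^ δ) :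
    erT x δ η A Z e ≤ EP 0 (x ^ δ) * (∑ m ∈ Zs x S Z,
        (rgh x δ (m + e) * pf (PI (x ^ δ) (x ^ (1 / 2 : ℝ))) (UFB_c x δ η A S Z e) (m + e) -
          Mm (yy x) (m + e) * ∑ T ∈ (PI (x ^ δ) (x ^ (1 / 2 : ℝ))).powerset,
            UFB_c x δ η A S Z e T / ∏ p ∈ T, (p : ℝ))) +
      ((Z \ Zs x S Z).card : ℝ) *
        ∑ T ∈ (PI (x ^ δ) (x ^ (1 / 2 : ℝ))).powerset.filter (fun T : Finset ℕ => (∏ p ∈ T, (p : ℝ)) ≤ x ^ (1 / 2 - η)),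
          (A : ℝ) ^ T.card := by
  set P : Finset ℕ := PI (x ^ δ) (x ^ (1 / 2 : ℝ)) with hP
  -- the sum with signs
  have h1 : EP 0 (x ^ δ) * (∑ m ∈ Zs x S Z,
        (rgh x δ (m + e) * pf P (UFB_c x δ η A S Z e) (m + e) -
          Mm (yy x) (m + e) * ∑ T ∈ P.powerset, UFB_c x δ η A S Z e T / ∏ p ∈ T, (p : ℝ))) =
      ∑ T ∈ P.powerset, UFB_c x δ η A S Z e T * UFB_h x δ S Z e T := by
    have h2 : ∀ m : ℤ, EP 0 (x ^ δ) * (rgh x δ m * pf P (UFB_c x δ η A S Z e) m -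
          Mm (yy x) m * ∑ T ∈ P.powerset, UFB_c x δ η A S Z e T / ∏ p ∈ T, (p : ℝ)) =
        ∑ T ∈ P.powerset, UFB_c x δ η A S Z e T * UFB_f x δ T m := by
      intro m
      unfold pf UFB_f UFB_i
      rw [Finset.mul_sum, Finset.mul_sum, ← Finset.sum_sub_distrib, Finset.mul_sum]
      refine Finset.sum_congr rfl fun T _ => ?_
      ring
    rw [Finset.mul_sum, Finset.sum_congr rfl fun m _ => h2 (m + e), Finset.sum_comm]
    refine Finset.sum_congr rfl fun T _ => ?_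
    unfold UFB_h
    rw [Finset.mul_sum]
  rw [h1]
  have h3 : ∑ T ∈ P.powerset, UFB_c x δ η A S Z e T * UFB_h x δ S Z e T =
      ∑ T ∈ P.powerset.filter (fun T : Finset ℕ => (∏ p ∈ T, (p : ℝ)) ≤ x ^ (1 / 2 - η)),
        (A : ℝ) ^ T.card * |UFB_h x δ S Z e T| := by
    rw [Finset.sum_filter]
    refine Finset.sum_congr rfl fun T _ => ?_
    unfold UFB_c
    split_ifs with h4 h5
    · rw [abs_of_nonneg h5]
      ring
    · rw [abs_of_neg (not_le.1 h5)]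
      ring
    · ring
  rw [h3]
  unfold erT
  rw [Finset.mul_sum, ← Finset.sum_add_distrib]
  refine Finset.sum_le_sum fun T hT => ?_
  rw [Finset.mem_filter, Finset.mem_powerset] at hT
  have h4 := UFB_g x δ S Z e T hw (UFB_one hx hT.1)
  have h5 : (0 : ℝ) ≤ (A : ℝ) ^ T.card := by positivity
  calc (A : ℝ) ^ T.card * |(zrT x δ Z e T : ℝ) - EP (yy x : ℝ) (x ^ δ) * (zc x Z e : ℝ) / ∏ p ∈ T, (p : ℝ)|
      ≤ (A : ℝ) ^ T.card * (|UFB_h x δ S Z e T| + ((Z \ Zs x S Z).card : ℝ)) := mul_le_mul_of_nonneg_left h4 h5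
    _ = _ := by ring

theorem UFB (k : ℕ) (hk : 1 ≤ k) (A : ℕ) (hA : 1 ≤ A) (η : ℝ) (hη0 : 0 < η) (hη1 : η ≤ 1 / 20) (ε : ℝ) (hε : 0 < ε) :
    ∃ δ K X : ℝ, 0 < δ ∧ ∀ x : ℝ, X ≤ x → ∀ u : ℤ,
    ∀ S : Finset ℤ, (∀ e ∈ S, Wnd x u e) → S.card = k → ∀ Z : Finset ℤ, Tup x S Z →
    ∀ E : Finset ℤ, (∀ e ∈ E, Wnd x u e ∧ e ∉ S ∧ sing (insert e S) ≠ 0 ∧
      ε * (sing (insert e S) * x / (Real.log x) ^ (k + 1)) < erT x δ η A Z e) → (E.card : ℝ) ≤ K * Real.log x := by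
  classical
  obtain ⟨δ, hδ, hδ2, K, X₀, hK, hU⟩ := UWB k A hA η hη0 hη1 (ε / 16) (by positivity)
  obtain ⟨c₁, X₁, hc₁, hT⟩ := UTR k hk (1 / 2) (by norm_num)
  have hkr : (1 : ℝ) ≤ k := by exact_mod_cast hk
  have hA1 : (1 : ℝ) ≤ A := by exact_mod_cast hA
  have hAδ : (1 : ℝ) ≤ (A : ℝ) ^ (1 / δ) := Real.one_le_rpow hA1 (by positivity)
  have hev : ∀ᶠ x : ℝ in Filter.atTop, 1 ≤ Real.log x ∧ 2 ≤ x ∧ 2 ≤ x ^ δ ∧ (yy x : ℝ) ≤ x ^ δ ∧
      Real.log x ^ (k + 1) ≤ (ε * c₁ / (16 * k * (A : ℝ) ^ (1 / δ))) * x ^ (1 / 4 : ℝ) := by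
    have h3 := (isLittleO_log_rpow_atTop hδ).bound (show (0 : ℝ) < 1 by norm_num)
    filter_upwards [Real.tendsto_log_atTop.eventually_ge_atTop 1, Filter.eventually_ge_atTop 2,
      (tendsto_rpow_atTop hδ).eventually_ge_atTop 2, h3,
      UFL_lp (k + 1) (show (0 : ℝ) < 1 / 4 by norm_num)
        (show 0 < ε * c₁ / (16 * k * (A : ℝ) ^ (1 / δ)) by positivity)] with x h1 h2 h4 h5 h6
    refine ⟨h1, h2, h4, ?_, h6⟩
    rw [one_mul, Real.norm_of_nonneg (by linarith), Real.norm_of_nonneg (by positivity)] at h5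
    have hll : 0 ≤ Real.log (Real.log x) := Real.log_nonneg h1
    have b1 : (yy x : ℝ) ≤ Real.log (Real.log x) / 100 := Nat.floor_le (by positivity)
    have b2 : Real.log (Real.log x) ≤ Real.log x - 1 := Real.log_le_sub_one_of_pos (by linarith)
    linarith
  obtain ⟨X₂, hX₂⟩ := Filter.eventually_atTop.mp hev
  refine ⟨δ, K, max X₀ (max X₁ X₂), hδ, fun x hx u S hS hSc Z hZ E hE => ?_⟩
  have hx0' : X₀ ≤ x := (le_max_left _ _).trans hx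
  have hx1' : X₁ ≤ x := (le_max_left _ _).trans ((le_max_right _ _).trans hx)
  have hx2' : X₂ ≤ x := (le_max_right _ _).trans ((le_max_right _ _).trans hx)
  obtain ⟨hL1, hx2, hz2, hwz, hlow⟩ := hX₂ x hx2'
  obtain ⟨v, S', G, hS', hS'c, hG0, hG1, hGf, hGe, hZR⟩ := hT x hx1' u S hS hSc Z hZ
  by_contra hcon
  push Not at hcon
  set L : ℝ := Real.log x with hL
  have hL0 : 0 < L := by linarith
  have hx0 : 0 < x := by linarith
  have hx1 : 1 ≤ x := by linarith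
  have hEne : E.Nonempty := by
    rw [← Finset.card_pos]
    have : (0 : ℝ) < (E.card : ℝ) := lt_of_le_of_lt (by positivity) hcon
    exact_mod_cast this
  have hinj : Function.Injective (fun e : ℤ => v - e) := fun a b h => by
    have h1 : v - a = v - b := h
    omega
  have hH : ((⌊L ^ 2⌋₊ : ℕ) : ℝ) ≤ L ^ 2 := Nat.floor_le (by positivity)
  have hmain := hU x hx0' ⌊L ^ 2⌋₊ hH S' hS' hS'c G hG0 hG1 (E.image (fun e => v - e))
    (by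
      intro e' he'
      obtain ⟨e, he, rfl⟩ := Finset.mem_image.mp he'
      exact (hGe e (hE e he).1 (hE e he).2.1 (hE e he).2.2.1).1)
    (by
      rw [Finset.card_image_of_injective _ hinj]
      exact hcon.le)
    (by
      intro e' he'
      obtain ⟨e, he, rfl⟩ := Finset.mem_image.mp he'
      exact (hGe e (hE e he).1 (hE e he).2.1 (hE e he).2.2.1).2.1)
    (fun e' => UFB_c x δ η A S Z (v - e'))
    (by
      intro e' T _
      unfold UFB_c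
      have h1 : (0 : ℝ) ≤ (A : ℝ) ^ T.card := by positivity
      split_ifs
      · rw [mul_one, abs_of_nonneg h1]
      · rw [mul_neg, mul_one, abs_neg, abs_of_nonneg h1]
      · rw [abs_zero]
        exact h1)
    (by
      intro e' T _ h
      unfold UFB_c
      rw [if_neg (not_le.2 h)])
  rw [Finset.sum_image (fun a _ b _ h => hinj h), Finset.sum_image (fun a _ b _ h => hinj h)] at hmain
  have hA' : ∑ e ∈ E, ∑ n ∈ JJ x ⌊L ^ 2⌋₊, G (n : ℤ) *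
        (rgh x δ ((n : ℤ) - (v - e)) * pf (PI (x ^ δ) (x ^ (1 / 2 : ℝ))) (UFB_c x δ η A S Z (v - (v - e))) ((n : ℤ) - (v - e)) -
          Mm (yy x) ((n : ℤ) - (v - e)) * ∑ T ∈ (PI (x ^ δ) (x ^ (1 / 2 : ℝ))).powerset,
            UFB_c x δ η A S Z (v - (v - e)) T / ∏ p ∈ T, (p : ℝ)) =
      ∑ e ∈ E, L ^ k * ∑ m ∈ Zs x S Z,
        (rgh x δ (m + e) * pf (PI (x ^ δ) (x ^ (1 / 2 : ℝ))) (UFB_c x δ η A S Z e) (m + e) -
          Mm (yy x) (m + e) * ∑ T ∈ (PI (x ^ δ) (x ^ (1 / 2 : ℝ))).powerset,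
            UFB_c x δ η A S Z e T / ∏ p ∈ T, (p : ℝ)) := by
    refine Finset.sum_congr rfl fun e he => ?_
    rw [sub_sub_cancel]
    exact hGf (fun n => rgh x δ n * pf (PI (x ^ δ) (x ^ (1 / 2 : ℝ))) (UFB_c x δ η A S Z e) n -
          Mm (yy x) n * ∑ T ∈ (PI (x ^ δ) (x ^ (1 / 2 : ℝ))).powerset,
            UFB_c x δ η A S Z e T / ∏ p ∈ T, (p : ℝ)) e (hE e he).1
  rw [hA'] at hmain
  have hmain2 := (le_abs_self _).trans hmain
  -- for a single shift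
  set b : ℤ → ℝ := fun e => ∑ m ∈ Zs x S Z,
        (rgh x δ (m + e) * pf (PI (x ^ δ) (x ^ (1 / 2 : ℝ))) (UFB_c x δ η A S Z e) (m + e) -
          Mm (yy x) (m + e) * ∑ T ∈ (PI (x ^ δ) (x ^ (1 / 2 : ℝ))).powerset,
            UFB_c x δ η A S Z e T / ∏ p ∈ T, (p : ℝ)) with hb
  set t : ℤ → ℝ := fun e => sW x (insert (v - e) S') with ht
  have hEP0 : 0 < EP 0 (x ^ δ) := EP_pos _ _
  have hLk : 0 < L ^ k := by positivity
  have hfl : (⌊x⌋₊ : ℝ) + 1 ≤ 2 * x := by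
    have := Nat.floor_le hx0.le
    linarith
  have hmer : EP 0 (x ^ δ) * (δ * L) ≤ 1 := by
    have h1 := mer3 (x ^ δ) hz2
    rw [Real.log_rpow hx0] at h1
    rw [le_div_iff₀ (by positivity)] at h1
    exact h1
  have hT0 : 0 ≤ ∑ e ∈ E, t e := Finset.sum_nonneg fun e he => by
    have := (hGe e (hE e he).1 (hE e he).2.1 (hE e he).2.2.1).2.2.1
    linarith
  -- the total of the weighted sums
  have htot : ∑ e ∈ E, L ^ (k + 1) * (EP 0 (x ^ δ) * b e) ≤ ε / 8 * x * ∑ e ∈ E, t e := by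
    have h1 : ∑ e ∈ E, L ^ (k + 1) * (EP 0 (x ^ δ) * b e) = (EP 0 (x ^ δ) * L) * ∑ e ∈ E, L ^ k * b e := by
      rw [Finset.mul_sum]
      refine Finset.sum_congr rfl fun e _ => ?_
      rw [pow_succ]
      ring
    rw [h1]
    have h2 : (EP 0 (x ^ δ) * L) * ∑ e ∈ E, L ^ k * b e ≤
        (EP 0 (x ^ δ) * L) * (ε / 16 * δ * ((⌊x⌋₊ : ℝ) + 1) * ∑ e ∈ E, t e) :=
      mul_le_mul_of_nonneg_left hmain2 (by positivity)
    refine h2.trans ?_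
    have h3 : (EP 0 (x ^ δ) * L) * (ε / 16 * δ * ((⌊x⌋₊ : ℝ) + 1) * ∑ e ∈ E, t e) =
        (EP 0 (x ^ δ) * (δ * L)) * (ε / 16 * ((⌊x⌋₊ : ℝ) + 1) * ∑ e ∈ E, t e) := by ring
    rw [h3]
    have h4 : 0 ≤ ε / 16 * ((⌊x⌋₊ : ℝ) + 1) * ∑ e ∈ E, t e := by positivity
    refine (mul_le_of_le_one_left h4 hmer).trans ?_
    have h5 : ε / 16 * ((⌊x⌋₊ : ℝ) + 1) ≤ ε / 16 * (2 * x) := mul_le_mul_of_nonneg_left hfl (by positivity)
    refine (mul_le_mul_of_nonneg_right h5 hT0).trans (le_of_eq ?_)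
    ring
  have hx14 : 1 ≤ x ^ (1 / 4 : ℝ) := Real.one_le_rpow hx1 (by norm_num)
  have hxx : x ^ (1 / 4 : ℝ) * x ^ (1 / 4 : ℝ) * x ^ (1 / 2 : ℝ) = x := by
    rw [← Real.rpow_add hx0, ← Real.rpow_add hx0]
    norm_num
  have hlt : ∑ e ∈ E, (ε / 8 * x * t e) < ∑ e ∈ E, L ^ (k + 1) * (EP 0 (x ^ δ) * b e) := by
    refine Finset.sum_lt_sum_of_nonempty hEne fun e he => ?_
    obtain ⟨he1, he2, he3, he4⟩ := hE e he
    obtain ⟨-, -, ht1, ht2, -⟩ := hGe e he1 he2 he3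
    have h2 := UFB_sum x δ η A hA hδ hx2 hη0
    obtain ⟨Q, hQ⟩ : ∃ Q : ℝ, Q = ∑ T ∈ (PI (x ^ δ) (x ^ (1 / 2 : ℝ))).powerset.filter
        (fun T : Finset ℕ => (∏ p ∈ T, (p : ℝ)) ≤ x ^ (1 / 2 - η)), (A : ℝ) ^ T.card := ⟨_, rfl⟩
    have h1 : erT x δ η A Z e ≤ EP 0 (x ^ δ) * b e + ((Z \ Zs x S Z).card : ℝ) * Q := by
      rw [hQ]
      exact UFB_er x δ η A S Z e hx0 hwz
    rw [← hQ] at h2
    set R : ℝ := ((Z \ Zs x S Z).card : ℝ) with hRdef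
    have hR0 : 0 ≤ R := Nat.cast_nonneg _
    have hR : R ≤ 2 * k * x ^ (1 / 4 : ℝ) := by
      refine hZR.trans ?_
      nlinarith
    have h3 := mul_le_mul_of_nonneg_left h2 hR0
    set s : ℝ := sing (insert e S) with hsdef
    have hLk1 : 0 < L ^ (k + 1) := by positivity
    have h4 : ε * (s * x) < L ^ (k + 1) * erT x δ η A Z e := by
      have h5 := mul_lt_mul_of_pos_left he4 hLk1
      refine lt_of_eq_of_lt ?_ h5
      field_simp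
    have h6 : L ^ (k + 1) * (R * (x ^ (1 / 2 : ℝ) * (A : ℝ) ^ (1 / δ))) ≤ ε * c₁ * x / 8 := by
      have h7 : R * (x ^ (1 / 2 : ℝ) * (A : ℝ) ^ (1 / δ)) ≤
          (2 * k * x ^ (1 / 4 : ℝ)) * (x ^ (1 / 2 : ℝ) * (A : ℝ) ^ (1 / δ)) :=
        mul_le_mul_of_nonneg_right hR (by positivity)
      calc L ^ (k + 1) * (R * (x ^ (1 / 2 : ℝ) * (A : ℝ) ^ (1 / δ)))
          ≤ ((ε * c₁ / (16 * k * (A : ℝ) ^ (1 / δ))) * x ^ (1 / 4 : ℝ)) *
            ((2 * k * x ^ (1 / 4 : ℝ)) * (x ^ (1 / 2 : ℝ) * (A : ℝ) ^ (1 / δ))) :=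
            mul_le_mul hlow h7 (by positivity) (by positivity)
        _ = (ε * c₁ / (16 * k * (A : ℝ) ^ (1 / δ))) * (2 * k) * (A : ℝ) ^ (1 / δ) *
            (x ^ (1 / 4 : ℝ) * x ^ (1 / 4 : ℝ) * x ^ (1 / 2 : ℝ)) := by ring
        _ = ε * c₁ * x / 8 := by
            rw [hxx]
            field_simp
            ring
    have h8 : L ^ (k + 1) * erT x δ η A Z e ≤ L ^ (k + 1) * (EP 0 (x ^ δ) * b e) + ε * c₁ * x / 8 := by
      have h9 : erT x δ η A Z e ≤ EP 0 (x ^ δ) * b e + R * (x ^ (1 / 2 : ℝ) * (A : ℝ) ^ (1 / δ)) := by linarith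
      have h9' := mul_le_mul_of_nonneg_left h9 hLk1.le
      rw [mul_add] at h9'
      linarith
    have h10 : c₁ ≤ t e := ht1
    have h11 : t e / 2 ≤ s := by
      have : (1 - 1 / 2) * t e ≤ s := ht2
      linarith
    have h12 : ε * x * t e / 2 ≤ ε * (s * x) := by
      have := mul_le_mul_of_nonneg_left h11 (show 0 ≤ ε * x by positivity)
      linarith
    have h13 : ε * c₁ * x / 8 ≤ ε * x * t e / 8 := by
      have := mul_le_mul_of_nonneg_left h10 (show 0 ≤ ε * x by positivity)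
      linarith
    have h14 : 0 < ε * x * t e := by
      have : 0 < t e := lt_of_lt_of_le hc₁ h10
      positivity
    linarith
  rw [← Finset.mul_sum] at hlt
  linarith

end Pool.Agent.H96.FL
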