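import Pool.Agent.H96.FL.EDf

/-!
# UFD: from squarefree integers to sets of primes

The map `d ↦ d.primeFactors` is injective on squarefree integers, `∏_{p ∈ d.primeFactors} p = d` (`Nat.prod_primeFactors_of_squarefree`); for `d ∈ rd x δ η` the primes `p ∣ d` satisfy `x^δ < p ≤ d ≤ x^(1/2-η) ≤ x^(1/2)` (`x ≥ 1`), so `d.primeFactors ⊆ PI (x^δ) (x^(1/2))`, and `∏ = d ≤ x^(1/2-η) ≤ x^(1/2-η')`; `zrd x δ Z e d = zrT x δ Z e d.primeFactors`
(`d ∣ n ↔ ∀ p ∈ d.primeFactors, p ∣ n`; see `PFCb_dvd` in `PFCb.lean`). All terms of `erT` are nonnegative (`Finset.sum_le_sum_of_injOn` or `Finset.sum_image` and `Finset.sum_le_sum_of_subset_of_nonneg`).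
-/

set_option autoImplicit false

namespace Pool.Agent.H96.FL

open Finset Pool.Agent.H17 Pool.Agent.H6.MF Pool.Agent.H6.MB Pool.Agent.H12.DM

private lemma UFD_dvd {T : Finset ℕ} (hT : ∀ p ∈ T, p.Prime) (n : ℤ) :
    ((∏ p ∈ T, p : ℕ) : ℤ) ∣ n ↔ ∀ p ∈ T, (p : ℤ) ∣ n := by
  constructor
  · intro h p hp
    exact (Int.natCast_dvd_natCast.mpr (Finset.dvd_prod_of_mem _ hp)).trans h
  · intro h
    rw [Int.natCast_dvd]
    apply Finset.prod_primes_dvd
    · intro p hp; exact (hT p hp).prime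
    · intro p hp; exact Int.natCast_dvd.mp (h p hp)

theorem UFD (x δ η η' : ℝ) (hx : 1 ≤ x) (h0 : 0 ≤ η') (h1 : η' ≤ η) (A : ℕ) (Z : Finset ℤ) (e : ℤ) :
    ∑ d ∈ rd x δ η, (A : ℝ) ^ d.primeFactors.card *
      |(zrd x δ Z e d : ℝ) - EP (yy x : ℝ) (x ^ δ) * (zc x Z e : ℝ) / (d : ℝ)| ≤ erT x δ η' A Z e := by
  classical
  have hmem : ∀ d ∈ rd x δ η, 1 ≤ d ∧ (d : ℝ) ≤ x ^ (1 / 2 - η) ∧ Squarefree d ∧
      ∀ p ∈ d.primeFactors, x ^ δ < (p : ℝ) := by
    intro d hd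
    unfold rd at hd
    rw [Finset.mem_filter, Finset.mem_Icc] at hd
    refine ⟨hd.1.1, ?_, hd.2.1, hd.2.2⟩
    have hx0 : (0 : ℝ) ≤ x ^ (1 / 2 - η) := Real.rpow_nonneg (by linarith) _
    exact (Nat.le_floor_iff hx0).mp hd.1.2
  have hprod : ∀ d ∈ rd x δ η, ∏ p ∈ d.primeFactors, p = d := fun d hd =>
    Nat.prod_primeFactors_of_squarefree (hmem d hd).2.2.1
  have hzr : ∀ d ∈ rd x δ η, zrd x δ Z e d = zrT x δ Z e d.primeFactors := by
    intro d hd
    unfold zrd zrT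
    congr 1
    apply Finset.filter_congr
    intro m _
    have h2 := UFD_dvd (T := d.primeFactors) (fun p hp => Nat.prime_of_mem_primeFactors hp) (m + e)
    rw [hprod d hd] at h2
    rw [h2]
  have key : ∑ d ∈ rd x δ η, (A : ℝ) ^ d.primeFactors.card *
      |(zrd x δ Z e d : ℝ) - EP (yy x : ℝ) (x ^ δ) * (zc x Z e : ℝ) / (d : ℝ)| =
      ∑ T ∈ (rd x δ η).image Nat.primeFactors, (A : ℝ) ^ T.card *
        |(zrT x δ Z e T : ℝ) - EP (yy x : ℝ) (x ^ δ) * (zc x Z e : ℝ) / ∏ p ∈ T, (p : ℝ)| := by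
    rw [Finset.sum_image]
    · apply Finset.sum_congr rfl
      intro d hd
      have h3 : (d : ℝ) = ∏ p ∈ d.primeFactors, (p : ℝ) := by
        rw [← Nat.cast_prod, hprod d hd]
      rw [hzr d hd, ← h3]
    · intro d hd d' hd' h
      have h4 : d.primeFactors = d'.primeFactors := h
      rw [← hprod d hd, ← hprod d' hd', h4]
  rw [key]
  unfold erT
  apply Finset.sum_le_sum_of_subset_of_nonneg
  · intro T hT
    obtain ⟨d, hd, rfl⟩ := Finset.mem_image.mp hT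
    obtain ⟨h5, h6, h7, h8⟩ := hmem d hd
    rw [Finset.mem_filter, Finset.mem_powerset]
    refine ⟨?_, ?_⟩
    · intro p hp
      unfold PI
      rw [Finset.mem_filter, Finset.mem_range]
      refine ⟨?_, Nat.prime_of_mem_primeFactors hp, h8 p hp⟩
      have h9 : (p : ℝ) ≤ x ^ (1 / 2 : ℝ) := by
        have h10 : p ≤ d := Nat.le_of_dvd h5 (Nat.dvd_of_mem_primeFactors hp)
        calc (p : ℝ) ≤ (d : ℝ) := by exact_mod_cast h10
          _ ≤ x ^ (1 / 2 - η) := h6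
          _ ≤ x ^ (1 / 2 : ℝ) := Real.rpow_le_rpow_of_exponent_le hx (by linarith)
      exact Nat.lt_succ_of_le (Nat.le_floor h9)
    · have h3 : ∏ p ∈ d.primeFactors, (p : ℝ) = (d : ℝ) := by
        rw [← Nat.cast_prod, hprod d hd]
      rw [h3]
      exact h6.trans (Real.rpow_le_rpow_of_exponent_le hx (by linarith))
  · intro T _ _
    positivity

end Pool.Agent.H96.FL
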