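import Pool.Agent.H96.FL.GPa

/-!
# GPR: Rankin's bound for `sG`

`sa U = ∏_{p∈U} 1/(p-1)`, `∑_{U⊆S} sa U = ∏_{p∈S} (1 + 1/(p-1)) = ∏_{p∈S} (1 - 1/p)⁻¹` (`Finset.prod_one_add`). With `a = (3/2)/log t`: `∑_{U⊆S, ∏U > R} sa U ≤ R^(-a) ∑_{U⊆S} ∏_{p∈U} p^a/(p-1) = R^(-a) ∏_{p∈S} (1 + p^a/(p-1))` and
`(1 + p^a/(p-1)) (1 - 1/p) = 1 + (p^a - 1)/p ≤ exp((p^a-1)/p)`. With `v = a log p ∈ [0, 3/2]`: `p^a - 1 = e^v - 1 ≤ v + κ v²`, `κ = (e^(3/2) - 5/2)/(9/4)` (`(e^v-1-v)/v²` is increasing; or: `e^v - 1 - v = ∑_{k≥2} v^k/k!`),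
so `∑_{p∈S} (p^a-1)/p ≤ (3/2) (∑_{p≤t} log p/p)/log t + κ (9/4) (∑_{p≤t} log² p/p)/log² t ≤ 3/2 + (e^(3/2) - 5/2)/2 + small ≤ 5/2` for large `t` (`GPa_one` with `a = 1`, `GPa_sq`; `e^(3/2) < 4.4817`, so `3/2 + 0.99085 = 2.49085`; e.g. `e < 2.7182818286`, `e^(3/2) = e * e^(1/2)`, or `(e^(3/2))² = e³`).
So `∏_{p∈S} (1-1/p) * ∑_{U⊆S, ∏U>R} sa U ≤ R^(-a) e^(5/2) = exp(5/2 - (3/2) log R/log t)`.
-/

set_option autoImplicit false

namespace Pool.Agent.H96.FL

open Finset Pool.Agent.H6.MB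

theorem GPR_exp {v c : ℝ} (hv : 0 ≤ v) (hvc : v ≤ c) (hc : 0 < c) :
    Real.exp v - 1 ≤ v + v ^ 2 / c ^ 2 * (Real.exp c - (1 + c)) := by
  have key : ∀ x : ℝ, HasSum (fun n : ℕ => x ^ (n + 2) / ((n + 2).factorial : ℝ))
      (Real.exp x - (1 + x)) := by
    intro x
    have h := NormedSpace.expSeries_div_hasSum_exp (𝔸 := ℝ) x
    rw [← Real.exp_eq_exp_ℝ] at h
    have h2 := (hasSum_nat_add_iff' 2).2 h
    simpa [Finset.sum_range_succ] using h2
  have h1 := key v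
  have h2 := (key c).mul_left (v ^ 2 / c ^ 2)
  have h3 := hasSum_le (fun n => ?_) h1 h2
  · linarith
  · have hf : (0 : ℝ) < ((n + 2).factorial : ℝ) := by exact_mod_cast Nat.factorial_pos _
    have hc2 : c ^ 2 ≠ 0 := by positivity
    have e1 : v ^ 2 / c ^ 2 * (c ^ (n + 2) / ((n + 2).factorial : ℝ)) =
        v ^ 2 * c ^ n / ((n + 2).factorial : ℝ) := by
      rw [pow_add]
      field_simp
    rw [e1]
    have h5 : v ^ n ≤ c ^ n := pow_le_pow_left₀ hv hvc n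
    have h6 : v ^ (n + 2) ≤ v ^ 2 * c ^ n := by
      rw [pow_add, mul_comm]
      exact mul_le_mul_of_nonneg_left h5 (sq_nonneg v)
    exact div_le_div_of_nonneg_right h6 hf.le

theorem GPR_num : Real.exp (3 / 2) ≤ 4.4817 := by
  have h1 : Real.exp (3 / 2) ^ 2 = Real.exp 1 ^ 3 := by
    rw [← Real.exp_nat_mul, ← Real.exp_nat_mul]
    norm_num
  have h2 : Real.exp 1 < 2.7182818286 := Real.exp_one_lt_d9
  have h3 : Real.exp 1 ^ 3 ≤ 2.7182818286 ^ 3 := pow_le_pow_left₀ (Real.exp_pos 1).le h2.le 3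
  have h4 : Real.exp (3 / 2) ^ 2 ≤ 4.4817 ^ 2 := by
    rw [h1]
    refine h3.trans ?_
    norm_num
  exact le_of_sq_le_sq h4 (by norm_num)

/-- Rankin's trick -/
theorem GPR_rankin (S : Finset ℕ) (hS : ∀ p ∈ S, p.Prime) (R : ℝ) (hR : 1 ≤ R) (a : ℝ)
    (ha : 0 ≤ a) :
    1 - Real.exp (-(a * Real.log R)) * Real.exp (∑ p ∈ S, (Real.exp (a * Real.log p) - 1) / (p : ℝ)) ≤
      sG S R * ∏ p ∈ S, (1 - 1 / (p : ℝ)) := by
  have h2 : ∀ p ∈ S, (2 : ℝ) ≤ p := fun p hp => by exact_mod_cast (hS p hp).two_le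
  have hP : 0 ≤ ∏ p ∈ S, (1 - 1 / (p : ℝ)) := by
    refine Finset.prod_nonneg fun p hp => ?_
    have h := h2 p hp
    have : 1 / (p : ℝ) ≤ 1 := by
      rw [div_le_one (by linarith)]
      linarith
    linarith
  have hsa : ∀ U ∈ S.powerset, 0 ≤ sa U := by
    intro U hU
    refine Finset.prod_nonneg fun p hp => ?_
    have h := h2 p (Finset.mem_powerset.1 hU hp)
    exact div_nonneg zero_le_one (by linarith)
  have htot : (∑ U ∈ S.powerset, sa U) * ∏ p ∈ S, (1 - 1 / (p : ℝ)) = 1 := by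
    have h3 : ∑ U ∈ S.powerset, sa U = ∏ p ∈ S, (1 + 1 / ((p : ℝ) - 1)) :=
      (Finset.prod_one_add (f := fun p : ℕ => 1 / ((p : ℝ) - 1)) S).symm
    rw [h3, ← Finset.prod_mul_distrib]
    refine Finset.prod_eq_one fun p hp => ?_
    have h := h2 p hp
    have h4 : (p : ℝ) - 1 ≠ 0 := by linarith
    have h5 : (p : ℝ) ≠ 0 := by linarith
    field_simp
    ring
  have hsplit : sG S R + ∑ U ∈ S.powerset.filter (fun U : Finset ℕ => ¬ (∏ p ∈ U, (p : ℝ)) ≤ R), sa U =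
      ∑ U ∈ S.powerset, sa U := Finset.sum_filter_add_sum_filter_not _ _ _
  have htail : ∑ U ∈ S.powerset.filter (fun U : Finset ℕ => ¬ (∏ p ∈ U, (p : ℝ)) ≤ R), sa U ≤
      Real.exp (-(a * Real.log R)) * ∏ p ∈ S, (1 + Real.exp (a * Real.log p) * (1 / ((p : ℝ) - 1))) := by
    rw [Finset.prod_one_add, Finset.mul_sum]
    have hnn : ∀ U ∈ S.powerset, 0 ≤ Real.exp (-(a * Real.log R)) *
        ∏ p ∈ U, Real.exp (a * Real.log p) * (1 / ((p : ℝ) - 1)) := by
      intro U hU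
      rw [Finset.prod_mul_distrib]
      exact mul_nonneg (Real.exp_pos _).le (mul_nonneg
        (Finset.prod_nonneg fun p _ => (Real.exp_pos _).le) (hsa U hU))
    refine (Finset.sum_le_sum fun U hU => ?_).trans
      (Finset.sum_le_sum_of_subset_of_nonneg (Finset.filter_subset _ _) fun U hU _ => hnn U hU)
    rw [Finset.mem_filter] at hU
    rw [Finset.prod_mul_distrib]
    have h6 : ∏ p ∈ U, Real.exp (a * Real.log p) = Real.exp (a * Real.log (∏ p ∈ U, (p : ℝ))) := by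
      rw [← Real.exp_sum, ← Finset.mul_sum, Real.log_prod]
      intro p hp
      have h := h2 p (Finset.mem_powerset.1 hU.1 hp)
      linarith
    have h7 : 1 ≤ Real.exp (-(a * Real.log R)) * ∏ p ∈ U, Real.exp (a * Real.log p) := by
      rw [h6, ← Real.exp_add]
      apply Real.one_le_exp
      have h8 : Real.log R ≤ Real.log (∏ p ∈ U, (p : ℝ)) :=
        Real.log_le_log (by linarith) (not_le.1 hU.2).le
      have h9 := mul_le_mul_of_nonneg_left h8 ha
      linarith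
    have h10 : sa U = ∏ p ∈ U, 1 / ((p : ℝ) - 1) := rfl
    rw [← h10, ← mul_assoc]
    calc sa U = 1 * sa U := (one_mul _).symm
      _ ≤ _ := mul_le_mul_of_nonneg_right h7 (hsa U hU.1)
  have hprod : (∏ p ∈ S, (1 + Real.exp (a * Real.log p) * (1 / ((p : ℝ) - 1)))) *
      ∏ p ∈ S, (1 - 1 / (p : ℝ)) ≤
      Real.exp (∑ p ∈ S, (Real.exp (a * Real.log p) - 1) / (p : ℝ)) := by
    rw [← Finset.prod_mul_distrib, Real.exp_sum]
    refine Finset.prod_le_prod (fun p hp => ?_) fun p hp => ?_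
    · have h := h2 p hp
      have h11 : 0 ≤ 1 - 1 / (p : ℝ) := by
        have : 1 / (p : ℝ) ≤ 1 := by
          rw [div_le_one (by linarith)]
          linarith
        linarith
      have h12 : 0 ≤ Real.exp (a * Real.log p) * (1 / ((p : ℝ) - 1)) :=
        mul_nonneg (Real.exp_pos _).le (div_nonneg zero_le_one (by linarith))
      exact mul_nonneg (by linarith) h11
    · have h := h2 p hp
      have h4 : (p : ℝ) - 1 ≠ 0 := by linarith
      have h5 : (p : ℝ) ≠ 0 := by linarith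
      have h13 : (1 + Real.exp (a * Real.log p) * (1 / ((p : ℝ) - 1))) * (1 - 1 / (p : ℝ)) =
          (Real.exp (a * Real.log p) - 1) / (p : ℝ) + 1 := by
        field_simp
        ring
      rw [h13]
      exact Real.add_one_le_exp _
  have hfin : (∑ U ∈ S.powerset.filter (fun U : Finset ℕ => ¬ (∏ p ∈ U, (p : ℝ)) ≤ R), sa U) *
      ∏ p ∈ S, (1 - 1 / (p : ℝ)) ≤ Real.exp (-(a * Real.log R)) *
        Real.exp (∑ p ∈ S, (Real.exp (a * Real.log p) - 1) / (p : ℝ)) := by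
    refine (mul_le_mul_of_nonneg_right htail hP).trans ?_
    rw [mul_assoc]
    exact mul_le_mul_of_nonneg_left hprod (Real.exp_pos _).le
  have h14 : sG S R * ∏ p ∈ S, (1 - 1 / (p : ℝ)) = 1 -
      (∑ U ∈ S.powerset.filter (fun U : Finset ℕ => ¬ (∏ p ∈ U, (p : ℝ)) ≤ R), sa U) *
      ∏ p ∈ S, (1 - 1 / (p : ℝ)) := by
    have h15 := htot
    rw [← hsplit, add_mul] at h15
    linarith
  rw [h14]
  linarith

theorem GPR : ∃ T₀ : ℝ, ∀ t : ℝ, T₀ ≤ t → ∀ S : Finset ℕ, (∀ p ∈ S, p.Prime) → (∀ p ∈ S, (p : ℝ) ≤ t) →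
    ∀ R : ℝ, 1 ≤ R →
    1 - Real.exp (5 / 2 - 3 / 2 * (Real.log R / Real.log t)) ≤ sG S R * ∏ p ∈ S, (1 - 1 / (p : ℝ)) := by
  obtain ⟨T, hT⟩ := GPa_sq (1 / 1000) (by norm_num)
  refine ⟨max T (Real.exp 2400), fun t ht S hS hSt R hR => ?_⟩
  have ht1 : T ≤ t := (le_max_left _ _).trans ht
  have ht2 : Real.exp 2400 ≤ t := (le_max_right _ _).trans ht
  have ht0 : 0 < t := (Real.exp_pos _).trans_le ht2
  have hl : 2400 ≤ Real.log t := by
    rw [← Real.log_exp 2400]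
    exact Real.log_le_log (Real.exp_pos _) ht2
  have hl0 : 0 < Real.log t := by linarith
  have ht3 : 1 ≤ t := by
    have : (1 : ℝ) ≤ Real.exp 2400 := Real.one_le_exp (by norm_num)
    linarith
  have h2 : ∀ p ∈ S, (2 : ℝ) ≤ p := fun p hp => by exact_mod_cast (hS p hp).two_le
  set a : ℝ := 3 / 2 / Real.log t with ha
  have ha0 : 0 < a := by positivity
  have hmain := GPR_rankin S hS R hR a ha0.le
  have hsub : ∀ w : ℝ, w ≤ 1 → S ⊆ PI w t := by
    intro w hw p hp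
    rw [PI, Finset.mem_filter, Finset.mem_range]
    refine ⟨Nat.lt_succ_of_le (Nat.le_floor (hSt p hp)), hS p hp, ?_⟩
    have := h2 p hp
    linarith
  have hnn1 : ∀ p ∈ PI 1 t, p ∉ S → 0 ≤ Real.log p / (p : ℝ) := by
    intro p hp _
    rw [PI, Finset.mem_filter] at hp
    exact div_nonneg (Real.log_nonneg hp.2.2.le) (by linarith [hp.2.2])
  have hnn2 : ∀ p ∈ PI 0 t, p ∉ S → 0 ≤ Real.log p ^ 2 / (p : ℝ) := by
    intro p hp _
    rw [PI, Finset.mem_filter] at hp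
    exact div_nonneg (sq_nonneg _) hp.2.2.le
  have hA : ∑ p ∈ S, Real.log p / (p : ℝ) ≤ Real.log t + 8 := by
    refine (Finset.sum_le_sum_of_subset_of_nonneg (hsub 1 le_rfl) hnn1).trans ?_
    have h := (abs_le.1 (GPa_one (a := 1) (b := t) le_rfl ht3)).2
    rw [div_one] at h
    linarith
  have hB : ∑ p ∈ S, Real.log p ^ 2 / (p : ℝ) ≤ (1 / 2 + 1 / 1000) * Real.log t ^ 2 :=
    (Finset.sum_le_sum_of_subset_of_nonneg (hsub 0 zero_le_one) hnn2).trans (hT t ht1)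
  have hE : Real.exp (3 / 2) - (1 + 3 / 2) ≤ 1.9817 := by
    have := GPR_num
    norm_num at this ⊢
    linarith
  have hE0 : 0 ≤ Real.exp (3 / 2) - (1 + 3 / 2) := by
    have := Real.add_one_le_exp (3 / 2 : ℝ)
    linarith
  have hsum : ∑ p ∈ S, (Real.exp (a * Real.log p) - 1) / (p : ℝ) ≤ 5 / 2 := by
    have h3 : ∀ p ∈ S, (Real.exp (a * Real.log p) - 1) / (p : ℝ) ≤
        a * (Real.log p / (p : ℝ)) +
          (Real.exp (3 / 2) - (1 + 3 / 2)) / Real.log t ^ 2 * (Real.log p ^ 2 / (p : ℝ)) := by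
      intro p hp
      have hp2 := h2 p hp
      have hp0 : (0 : ℝ) < p := by linarith
      have hlp : 0 ≤ Real.log p := Real.log_nonneg (by linarith)
      have hlt : Real.log p ≤ Real.log t := Real.log_le_log hp0 (hSt p hp)
      have h4 : a * Real.log p ≤ 3 / 2 := by
        rw [ha, div_mul_eq_mul_div, div_le_iff₀ hl0]
        exact mul_le_mul_of_nonneg_left hlt (by norm_num)
      have h5 := GPR_exp (mul_nonneg ha0.le hlp) h4 (by norm_num)
      have h6 : (a * Real.log p) ^ 2 / (3 / 2) ^ 2 = Real.log p ^ 2 / Real.log t ^ 2 := by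
        rw [ha]
        field_simp
      rw [h6] at h5
      have h7 := div_le_div_of_nonneg_right h5 hp0.le
      refine h7.trans (le_of_eq ?_)
      field_simp
    refine (Finset.sum_le_sum h3).trans ?_
    rw [Finset.sum_add_distrib, ← Finset.mul_sum, ← Finset.mul_sum]
    have h8 : a * ∑ p ∈ S, Real.log p / (p : ℝ) ≤ 3 / 2 + 12 / Real.log t := by
      refine (mul_le_mul_of_nonneg_left hA ha0.le).trans (le_of_eq ?_)
      rw [ha]
      field_simp
      ring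
    have h9 : (Real.exp (3 / 2) - (1 + 3 / 2)) / Real.log t ^ 2 * ∑ p ∈ S, Real.log p ^ 2 / (p : ℝ) ≤
        (Real.exp (3 / 2) - (1 + 3 / 2)) * (1 / 2 + 1 / 1000) := by
      refine (mul_le_mul_of_nonneg_left hB (div_nonneg hE0 (sq_nonneg _))).trans (le_of_eq ?_)
      field_simp
    have h10 : 12 / Real.log t ≤ 1 / 200 := by
      rw [div_le_div_iff₀ hl0 (by norm_num)]
      linarith
    norm_num at hE h9 ⊢
    linarith
  refine le_trans ?_ hmain
  have h11 : Real.exp (-(a * Real.log R)) *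
      Real.exp (∑ p ∈ S, (Real.exp (a * Real.log p) - 1) / (p : ℝ)) ≤
      Real.exp (5 / 2 - 3 / 2 * (Real.log R / Real.log t)) := by
    rw [← Real.exp_add, Real.exp_le_exp]
    have h12 : a * Real.log R = 3 / 2 * (Real.log R / Real.log t) := by
      rw [ha]
      ring
    rw [h12]
    linarith
  linarith

end Pool.Agent.H96.FL
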