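import Pool.Agent.H96.FL.GPa

/-!
# GPb: asymptotics of `EP (x^δ) t`

`z = x^δ`. `log EP z t = ∑_{z<p≤t} log(1 - 1/p)`; `≤ -∑ 1/p ≤ -log(log t/log z) + 16/log z` (`GPa_lo`, `log z = δ log x`) and `≥ -∑ (1/p + 1/p²)` (`p ≥ 2`; `Real.one_sub_inv_le_log_of_pos`-type bounds: `log(1-u) ≥ -u - u²` for `0 ≤ u ≤ 1/2`), `∑_{p > z} 1/p² ≤ 2/z`, `GPa_up`. `exp(16/log z) ≤ 1 + ε` for large `x`.
-/

set_option autoImplicit false

namespace Pool.Agent.H96.FL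

open Finset Pool.Agent.H6.MB

private lemma GPb_mem {w z : ℝ} {p : ℕ} (hp : p ∈ PI w z) :
    p.Prime ∧ w < (p : ℝ) ∧ p < ⌊z⌋₊ + 1 := by
  unfold PI at hp
  rw [Finset.mem_filter, Finset.mem_range] at hp
  exact ⟨hp.2.1, hp.2.2, hp.1⟩

private lemma GPb_exp {u : ℝ} (h1 : u ≤ 1 / 2) :
    Real.exp (-u - 2 * u ^ 2) ≤ 1 - u := by
  have h2 : (0 : ℝ) < 1 - u := by linarith
  have h3 := Real.one_sub_inv_le_log_of_pos h2
  rw [← Real.le_log_iff_exp_le h2]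
  refine le_trans ?_ h3
  have h4 : (1 - u)⁻¹ ≤ 1 + u + 2 * u ^ 2 := by
    rw [inv_le_iff_one_le_mul₀ h2]
    have h5 : 0 ≤ u ^ 2 * (1 - 2 * u) := mul_nonneg (sq_nonneg u) (by linarith)
    nlinarith
  linarith

private lemma GPb_le (z t : ℝ) : EP z t ≤ Real.exp (-∑ p ∈ PI z t, 1 / (p : ℝ)) := by
  unfold EP
  rw [← Finset.sum_neg_distrib, Real.exp_sum]
  refine Finset.prod_le_prod (fun p hp => ?_) fun p hp => ?_
  · have h1 := (GPb_mem hp).1.one_lt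
    have h2 : (1 : ℝ) ≤ (p : ℝ) := by exact_mod_cast h1.le
    have h3 : 1 / (p : ℝ) ≤ 1 := by
      rw [div_le_one (by linarith)]
      exact h2
    linarith
  · have h1 := Real.add_one_le_exp (-(1 / (p : ℝ)))
    linarith

private lemma GPb_ge (z t : ℝ) :
    Real.exp (-∑ p ∈ PI z t, 1 / (p : ℝ) - 2 * ∑ p ∈ PI z t, ((p : ℝ) ^ 2)⁻¹) ≤ EP z t := by
  have e : -∑ p ∈ PI z t, 1 / (p : ℝ) - 2 * ∑ p ∈ PI z t, ((p : ℝ) ^ 2)⁻¹ =
      ∑ p ∈ PI z t, (-(1 / (p : ℝ)) - 2 * (1 / (p : ℝ)) ^ 2) := by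
    rw [Finset.sum_sub_distrib, Finset.sum_neg_distrib, Finset.mul_sum]
    congr 1
    refine Finset.sum_congr rfl fun p _ => ?_
    rw [div_pow, one_pow, one_div]
  rw [e, Real.exp_sum]
  unfold EP
  refine Finset.prod_le_prod (fun p _ => (Real.exp_pos _).le) fun p hp => ?_
  have h1 := (GPb_mem hp).1.two_le
  have h2 : (2 : ℝ) ≤ (p : ℝ) := by exact_mod_cast h1
  refine GPb_exp ?_
  rw [div_le_div_iff₀ (by linarith) two_pos]
  linarith

private lemma GPb_sq {z t : ℝ} (hz : 0 < z) : ∑ p ∈ PI z t, ((p : ℝ) ^ 2)⁻¹ ≤ 2 / z := by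
  have h1 : PI z t ⊆ Finset.Ioo ⌊z⌋₊ (⌊t⌋₊ + 1) := by
    intro p hp
    obtain ⟨-, h2, h3⟩ := GPb_mem hp
    rw [Finset.mem_Ioo]
    exact ⟨(Nat.floor_lt hz.le).2 h2, h3⟩
  calc ∑ p ∈ PI z t, ((p : ℝ) ^ 2)⁻¹ ≤ ∑ p ∈ Finset.Ioo ⌊z⌋₊ (⌊t⌋₊ + 1), ((p : ℝ) ^ 2)⁻¹ :=
        Finset.sum_le_sum_of_subset_of_nonneg h1 fun p _ _ => by positivity
    _ ≤ 2 / ((⌊z⌋₊ : ℝ) + 1) := sum_Ioo_inv_sq_le _ _
    _ ≤ 2 / z := div_le_div_of_nonneg_left two_pos.le hz (Nat.lt_floor_add_one z).le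

/-- The common setting. -/
private lemma GPb_set {δ K x t : ℝ} (hδ : 0 < δ) (hK : 0 ≤ K)
    (hx : Real.exp ((K + 2) / δ) ≤ x) (ht : x ^ δ ≤ t) :
    Real.log (x ^ δ) = δ * Real.log x ∧ K + 2 ≤ Real.log (x ^ δ) ∧ 2 ≤ x ^ δ ∧
      Real.log (x ^ δ) ≤ x ^ δ ∧ Real.log (x ^ δ) ≤ Real.log t := by
  have hx0 : 0 < x := lt_of_lt_of_le (Real.exp_pos _) hx
  have h1 : (K + 2) / δ ≤ Real.log x := (Real.le_log_iff_exp_le hx0).2 hx
  have h2 : Real.log (x ^ δ) = δ * Real.log x := Real.log_rpow hx0 δ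
  have h3 : K + 2 ≤ Real.log (x ^ δ) := by
    rw [h2, mul_comm]
    exact (div_le_iff₀ hδ).1 h1
  have hz0 : 0 < x ^ δ := Real.rpow_pos_of_pos hx0 δ
  have h4 := Real.log_le_sub_one_of_pos hz0
  exact ⟨h2, h3, by linarith, by linarith, Real.log_le_log hz0 ht⟩

theorem GPb_up (δ ε : ℝ) (hδ : 0 < δ) (hε : 0 < ε) : ∃ X : ℝ, ∀ x : ℝ, X ≤ x → ∀ t : ℝ, x ^ δ ≤ t →
    EP (x ^ δ) t ≤ (1 + ε) * (δ * Real.log x / Real.log t) := by
  have hl : 0 < Real.log (1 + ε) := Real.log_pos (by linarith)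
  refine ⟨Real.exp ((16 / Real.log (1 + ε) + 2) / δ), fun x hx t ht => ?_⟩
  obtain ⟨h2, h3, h4, -, h6⟩ := GPb_set hδ (by positivity) hx ht
  obtain ⟨z, hz⟩ : ∃ z, z = x ^ δ := ⟨_, rfl⟩
  rw [← hz] at h2 h3 h4 h6 ht ⊢
  have hK : 0 < 16 / Real.log (1 + ε) := by positivity
  have hlz : 0 < Real.log z := by linarith
  have hlt : 0 < Real.log t := by linarith
  have h7 := GPa_lo h4 ht
  have h8 : 16 / Real.log z ≤ Real.log (1 + ε) := by
    rw [div_le_iff₀ hlz]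
    have h9 : 16 / Real.log (1 + ε) ≤ Real.log z := by linarith
    rw [div_le_iff₀ hl] at h9
    linarith
  have h9 : Real.log (Real.log t / Real.log z) = - Real.log (Real.log z / Real.log t) := by
    rw [← Real.log_inv, inv_div]
  calc EP z t ≤ Real.exp (-∑ p ∈ PI z t, 1 / (p : ℝ)) := GPb_le z t
    _ ≤ Real.exp (Real.log (1 + ε) + Real.log (Real.log z / Real.log t)) := by
        rw [Real.exp_le_exp]
        linarith
    _ = (1 + ε) * (δ * Real.log x / Real.log t) := by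
        rw [Real.exp_add, Real.exp_log (by linarith), Real.exp_log (by positivity), h2]

theorem GPb_lo (δ ε : ℝ) (hδ : 0 < δ) (hε : 0 < ε) : ∃ X : ℝ, ∀ x : ℝ, X ≤ x → ∀ t : ℝ, x ^ δ ≤ t →
    (1 - ε) * (δ * Real.log x / Real.log t) ≤ EP (x ^ δ) t := by
  refine ⟨Real.exp ((12 / ε + 2) / δ), fun x hx t ht => ?_⟩
  obtain ⟨h2, h3, h4, h5, h6⟩ := GPb_set hδ (by positivity) hx ht
  obtain ⟨z, hz⟩ : ∃ z, z = x ^ δ := ⟨_, rfl⟩
  rw [← hz] at h2 h3 h4 h5 h6 ht ⊢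
  have hK : 0 < 12 / ε := by positivity
  have hlz : 0 < Real.log z := by linarith
  have hlt : 0 < Real.log t := by linarith
  have h7 := GPa_up h4 ht
  have h8 : 12 / Real.log z ≤ ε := by
    rw [div_le_iff₀ hlz]
    have h9 : 12 / ε ≤ Real.log z := by linarith
    rw [div_le_iff₀ hε] at h9
    linarith
  have h9 : Real.log (Real.log t / Real.log z) = - Real.log (Real.log z / Real.log t) := by
    rw [← Real.log_inv, inv_div]
  have h10 := GPb_sq (z := z) (t := t) (by linarith)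
  have h11 : 2 / z ≤ 2 / Real.log z := div_le_div_of_nonneg_left two_pos.le hlz h5
  have h12 : 12 / Real.log z = 8 / Real.log z + 2 * (2 / Real.log z) := by ring
  calc (1 - ε) * (δ * Real.log x / Real.log t)
      ≤ Real.exp (-ε) * (δ * Real.log x / Real.log t) := by
        refine mul_le_mul_of_nonneg_right ?_ ?_
        · have := Real.add_one_le_exp (-ε)
          linarith
        · rw [← h2]
          positivity
    _ = Real.exp (-ε + Real.log (Real.log z / Real.log t)) := by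
        rw [Real.exp_add, Real.exp_log (by positivity), h2]
    _ ≤ Real.exp (-∑ p ∈ PI z t, 1 / (p : ℝ) - 2 * ∑ p ∈ PI z t, ((p : ℝ) ^ 2)⁻¹) := by
        rw [Real.exp_le_exp]
        linarith
    _ ≤ EP z t := GPb_ge z t

end Pool.Agent.H96.FL
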