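import Pool.Agent.H96.FL.TDf
import Pool.Agent.H96.FL.GPb
import Pool.Agent.H96.FL.GPR

/-!
# GPm: the first part of the main term (primes `p ≤ x^(1/20)`)

`z = x^δ`, `θ = 499/1000`, `S_p = gS x δ p = {q ∈ PI z (x^(1/20)) : q < p}`, `R_p = gR x p = (x^θ/p)^(1/2)`, `u = log p/log x ∈ (δ, 1/20]`. `GPR` with `t = p ≥ z` (large), `S = S_p`: `log R_p/log p = (θ/u - 1)/2`, so `sG * ∏_{q∈S_p} (1-1/q) ≥ 1 - T`, `T = exp(13/4 - (3/4) θ/u) ≤ 6 u²` for `0 < u ≤ 1/20`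
(`GPm_num`; with `v = (3/4) θ/u = 0.37425/u ≥ 7.485`: `v² e^(-v)` is decreasing for `v ≥ 2`: `log v ≤ log v₀ + (v - v₀)/v₀`, `v₀ = 7.485`; at `u = 1/20`: `exp(-4.235) ≤ 0.015`). So `(sG)⁻¹ ≤ ∏_{S_p}/(1-T) ≤ ∏_{S_p} (1 + 6.1 u²)` (`T ≤ 0.015`),
and `∏_{q∈S_p} (1-1/q) = EP z p/(1-1/p) ≤ (1+ε) δ/u` (`GPb_up`; `PI z p = insert p S_p`). Hence the difference is at most `6.1 (1+ε) δ ∑_{p ≤ x^(1/20)} (1/p) log p/log x ≤ 6.1 (1+ε) δ (1/20 + 8/log x) ≤ (7/20) δ` (`GPa_one`).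
The last step: `1 - ∑_{p∈P} (1/p) ∏_{q∈P, q<p} (1-1/q) = ∏_{p∈P} (1-1/p) = EP z (x^(1/20)) ≥ (1-ε) 20 δ` (`Finset.prod_one_sub_ordered`, `GPb_lo`): `20 δ (1-ε) - (7/20) δ ≥ (39/2) δ`.
-/

set_option autoImplicit false

namespace Pool.Agent.H96.FL

open Finset Pool.Agent.H17 Pool.Agent.H6.MF Pool.Agent.H6.MB Pool.Agent.H12.DM

private lemma GPm_mem_PI {w z : ℝ} (hz : 0 ≤ z) {p : ℕ} : p ∈ PI w z ↔ p.Prime ∧ w < (p : ℝ) ∧ (p : ℝ) ≤ z := by
  unfold PI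
  rw [Finset.mem_filter, Finset.mem_range, Nat.lt_succ_iff, Nat.le_floor_iff hz]
  tauto

theorem GPm_num (u : ℝ) (h0 : 0 < u) (h1 : u ≤ 1 / 20) : Real.exp (13 / 4 - 1497 / 4000 / u) ≤ 6 * u ^ 2 := by
  have hexp : (200 : ℝ) / 3 ≤ Real.exp (847 / 200) := by
    have e1 : (2.718 : ℝ) ≤ Real.exp 1 := by
      have := Real.exp_one_gt_d9
      linarith
    have e2 : Real.exp (847 / 200) = Real.exp 1 ^ 4 * Real.exp (47 / 200) := by
      rw [← Real.exp_nat_mul, ← Real.exp_add]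
      norm_num
    have e3 : (1 : ℝ) + 47 / 200 ≤ Real.exp (47 / 200) := by
      have := Real.add_one_le_exp (47 / 200 : ℝ)
      linarith
    have e4 : (2.718 : ℝ) ^ 4 ≤ Real.exp 1 ^ 4 := pow_le_pow_left₀ (by norm_num) e1 4
    rw [e2]
    calc (200 : ℝ) / 3 ≤ 2.718 ^ 4 * (1 + 47 / 200) := by norm_num
      _ ≤ _ := mul_le_mul e4 e3 (by norm_num) (by positivity)
  have hy0 : ∃ y : ℝ, 1 ≤ y ∧ u = 1 / (20 * y) := by
    refine ⟨1 / (20 * u), ?_, ?_⟩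
    · rw [le_div_iff₀ (by positivity)]
      linarith
    · field_simp
  obtain ⟨y, hy1, rfl⟩ := hy0
  have hy0 : 0 < y := by linarith
  have hw : y ^ 2 ≤ Real.exp (1497 / 200 * (y - 1)) := by
    have a1 : y ≤ Real.exp (1497 / 400 * (y - 1)) := by
      have := Real.add_one_le_exp (1497 / 400 * (y - 1))
      nlinarith
    calc y ^ 2 ≤ Real.exp (1497 / 400 * (y - 1)) ^ 2 := pow_le_pow_left₀ hy0.le a1 2
      _ = _ := by
        rw [← Real.exp_nat_mul]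
        congr 1
        push_cast
        ring
  have hs : Real.exp (13 / 4 - 1497 / 4000 / (1 / (20 * y))) =
      (Real.exp (847 / 200))⁻¹ * (Real.exp (1497 / 200 * (y - 1)))⁻¹ := by
    rw [← Real.exp_neg, ← Real.exp_neg, ← Real.exp_add]
    congr 1
    field_simp
    ring
  rw [hs]
  have h3 : (Real.exp (847 / 200))⁻¹ ≤ 3 / 200 := by
    rw [inv_le_comm₀ (Real.exp_pos _) (by norm_num)]
    norm_num at hexp ⊢
    linarith
  have h4 : (Real.exp (1497 / 200 * (y - 1)))⁻¹ ≤ (y ^ 2)⁻¹ := by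
    rw [inv_le_inv₀ (Real.exp_pos _) (by positivity)]
    exact hw
  calc (Real.exp (847 / 200))⁻¹ * (Real.exp (1497 / 200 * (y - 1)))⁻¹
      ≤ 3 / 200 * (y ^ 2)⁻¹ := mul_le_mul h3 h4 (by positivity) (by norm_num)
    _ = _ := by
      field_simp
      norm_num

/-- one prime -/
private lemma GPm_term {δ x : ℝ} {T₀ : ℝ} (hδ : 0 < δ)
    (hT : ∀ t : ℝ, T₀ ≤ t → ∀ S : Finset ℕ, (∀ p ∈ S, p.Prime) → (∀ p ∈ S, (p : ℝ) ≤ t) →
      ∀ R : ℝ, 1 ≤ R →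
      1 - Real.exp (5 / 2 - 3 / 2 * (Real.log R / Real.log t)) ≤ sG S R * ∏ p ∈ S, (1 - 1 / (p : ℝ)))
    (hx1 : 1 < x) (hzT : T₀ ≤ x ^ δ) (hz51 : 51 ≤ x ^ δ)
    (hup : ∀ t : ℝ, x ^ δ ≤ t → EP (x ^ δ) t ≤ (1 + 1 / 20) * (δ * Real.log x / Real.log t))
    {p : ℕ} (hp : p ∈ PI (x ^ δ) (x ^ (1 / 20 : ℝ))) :
    1 / (p : ℝ) * (sG (gS x δ p) (gR x p))⁻¹ ≤
      1 / (p : ℝ) * ∏ q ∈ PI (x ^ δ) (x ^ (1 / 20 : ℝ)) with q < p, (1 - 1 / (q : ℝ)) +
        61 / 10 * (108 / 100) * δ * (1 / Real.log x) * (Real.log p / (p : ℝ)) := by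
  have hx0 : 0 < x := by linarith
  have hL : 0 < Real.log x := Real.log_pos hx1
  have hz1 : 0 ≤ x ^ (1 / 20 : ℝ) := Real.rpow_nonneg hx0.le _
  obtain ⟨hpp, hp1, hp2⟩ := (GPm_mem_PI hz1).1 hp
  have hp51 : 51 < (p : ℝ) := by linarith
  have hp0 : 0 < (p : ℝ) := by linarith
  have hlp : 0 < Real.log p := Real.log_pos (by linarith)
  have hlp2 : Real.log p ≤ 1 / 20 * Real.log x := by
    rw [← Real.log_rpow hx0]
    exact Real.log_le_log hp0 hp2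
  set u : ℝ := Real.log p / Real.log x with hu
  have hu0 : 0 < u := div_pos hlp hL
  have hu1 : u ≤ 1 / 20 := by
    rw [hu, div_le_iff₀ hL]
    exact hlp2
  have hgS : gS x δ p = (PI (x ^ δ) (x ^ (1 / 20 : ℝ))).filter (fun q => q < p) := by
    unfold gS
    rw [if_pos hp2]
  have hgR : gR x p = (x ^ (499 / 1000 : ℝ) / p) ^ (1 / 2 : ℝ) := by
    unfold gR
    rw [if_pos hp2]
  have hxp : 0 < x ^ (499 / 1000 : ℝ) / p := div_pos (Real.rpow_pos_of_pos hx0 _) hp0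
  have hlogR : Real.log (gR x p) = 1 / 2 * (499 / 1000 * Real.log x - Real.log p) := by
    rw [hgR, Real.log_rpow hxp, Real.log_div (Real.rpow_pos_of_pos hx0 _).ne' hp0.ne',
      Real.log_rpow hx0]
  have hR1 : 1 ≤ gR x p := by
    rw [hgR]
    apply Real.one_le_rpow _ (by norm_num)
    rw [one_le_div hp0]
    exact hp2.trans (Real.rpow_le_rpow_of_exponent_le hx1.le (by norm_num))
  set P : ℝ := ∏ q ∈ PI (x ^ δ) (x ^ (1 / 20 : ℝ)) with q < p, (1 - 1 / (q : ℝ)) with hP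
  have hSp : ∀ q ∈ (PI (x ^ δ) (x ^ (1 / 20 : ℝ))).filter (fun q => q < p), q.Prime := by
    intro q hq
    exact ((GPm_mem_PI hz1).1 (Finset.mem_filter.1 hq).1).1
  have hP0 : 0 < P := by
    rw [hP]
    apply Finset.prod_pos
    intro q hq
    have h2 : (1 : ℝ) < q := by exact_mod_cast (hSp q hq).one_lt
    have h3 : 1 / (q : ℝ) < 1 := by
      rw [div_lt_one (by linarith)]
      exact h2
    linarith
  have hmain := hT p (by linarith) (gS x δ p) (by rw [hgS]; exact hSp) (by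
    rw [hgS]
    intro q hq
    exact_mod_cast (Finset.mem_filter.1 hq).2.le) (gR x p) hR1
  have hexp : Real.exp (5 / 2 - 3 / 2 * (Real.log (gR x p) / Real.log p)) ≤ 6 * u ^ 2 := by
    have h1 : 5 / 2 - 3 / 2 * (Real.log (gR x p) / Real.log p) = 13 / 4 - 1497 / 4000 / u := by
      rw [hlogR, hu]
      field_simp
      ring
    rw [h1]
    exact GPm_num u hu0 hu1
  rw [hgS] at hmain ⊢
  set G : ℝ := sG ((PI (x ^ δ) (x ^ (1 / 20 : ℝ))).filter (fun q => q < p)) (gR x p) with hG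
  have hu2 : u ^ 2 ≤ 1 / 400 := by nlinarith
  have hGP : 1 - 6 * u ^ 2 ≤ G * P := by linarith
  have hG0 : 0 < G := by
    by_contra hneg
    push Not at hneg
    have : G * P ≤ 0 := mul_nonpos_of_nonpos_of_nonneg hneg hP0.le
    linarith
  have hGi : G⁻¹ ≤ P * (1 + 61 / 10 * u ^ 2) := by
    rw [inv_le_iff_one_le_mul₀ hG0]
    have hu2' : 0 ≤ u ^ 2 := sq_nonneg u
    have h5 : (1 - 6 * u ^ 2) * (1 + 61 / 10 * u ^ 2) ≤ G * P * (1 + 61 / 10 * u ^ 2) :=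
      mul_le_mul_of_nonneg_right hGP (by linarith)
    nlinarith
  -- the product in terms of EP
  have hEP : EP (x ^ δ) p = (1 - 1 / (p : ℝ)) * P := by
    unfold EP
    have h6 : PI (x ^ δ) (p : ℝ) = insert p ((PI (x ^ δ) (x ^ (1 / 20 : ℝ))).filter (fun q => q < p)) := by
      ext q
      rw [GPm_mem_PI hp0.le, Finset.mem_insert, Finset.mem_filter, GPm_mem_PI hz1]
      constructor
      · rintro ⟨h7, h8, h9⟩
        have h9' : q ≤ p := by exact_mod_cast h9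
        rcases h9'.eq_or_lt with h10 | h10
        · exact Or.inl h10
        · exact Or.inr ⟨⟨h7, h8, h9.trans hp2⟩, h10⟩
      · rintro (h7 | ⟨⟨h7, h8, _⟩, h10⟩)
        · rw [h7]
          exact ⟨hpp, hp1, le_rfl⟩
        · exact ⟨h7, h8, by exact_mod_cast h10.le⟩
    rw [h6, Finset.prod_insert (by simp), hP]
  have hPu : P * u ≤ 108 / 100 * δ := by
    have h7 := hup p hp1.le
    rw [hEP] at h7
    have h8 : δ * Real.log x / Real.log p = δ / u := by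
      rw [hu]
      field_simp
    rw [h8] at h7
    have h9 : 50 / 51 ≤ 1 - 1 / (p : ℝ) := by
      have : 1 / (p : ℝ) ≤ 1 / 51 := one_div_le_one_div_of_le (by norm_num) hp51.le
      linarith
    have h10 : 50 / 51 * P ≤ (1 + 1 / 20) * (δ / u) :=
      (mul_le_mul_of_nonneg_right h9 hP0.le).trans h7
    have h11 : 50 / 51 * P * u ≤ (1 + 1 / 20) * (δ / u) * u := mul_le_mul_of_nonneg_right h10 hu0.le
    have h12 : (1 + 1 / 20) * (δ / u) * u = (1 + 1 / 20) * δ := by field_simp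
    rw [h12] at h11
    nlinarith
  have hpi : 0 < 1 / (p : ℝ) := by positivity
  calc 1 / (p : ℝ) * G⁻¹ ≤ 1 / (p : ℝ) * (P * (1 + 61 / 10 * u ^ 2)) :=
        mul_le_mul_of_nonneg_left hGi hpi.le
    _ = 1 / (p : ℝ) * P + 61 / 10 * (P * u) * u * (1 / (p : ℝ)) := by ring
    _ ≤ 1 / (p : ℝ) * P + 61 / 10 * (108 / 100 * δ) * u * (1 / (p : ℝ)) := by
        gcongr
    _ = _ := by
        rw [hu]
        ring

theorem GPm (δ : ℝ) (hδ : 0 < δ) (hδ1 : δ ≤ 1 / 200) : ∃ X : ℝ, ∀ x : ℝ, X ≤ x →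
    39 / 2 * δ ≤ 1 - ∑ p ∈ PI (x ^ δ) (x ^ (1 / 20 : ℝ)), 1 / (p : ℝ) * (sG (gS x δ p) (gR x p))⁻¹ := by
  obtain ⟨T₀, hT⟩ := GPR
  obtain ⟨X1, hX1⟩ := GPb_up δ (1 / 20) hδ (by norm_num)
  obtain ⟨X2, hX2⟩ := GPb_lo δ (1 / 200) hδ (by norm_num)
  refine ⟨max (max X1 X2) (max (Real.exp 8000) ((max T₀ 51) ^ (1 / δ))), fun x hx => ?_⟩
  have hxa : X1 ≤ x := (le_max_left _ _).trans ((le_max_left _ _).trans hx)
  have hxb : X2 ≤ x := (le_max_right _ _).trans ((le_max_left _ _).trans hx)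
  have hxc : Real.exp 8000 ≤ x := (le_max_left _ _).trans ((le_max_right _ _).trans hx)
  have hxd : (max T₀ 51) ^ (1 / δ) ≤ x := (le_max_right _ _).trans ((le_max_right _ _).trans hx)
  have hx1 : 1 < x := lt_of_lt_of_le (by
    rw [← Real.exp_zero]
    exact Real.exp_lt_exp.2 (by norm_num)) hxc
  have hx0 : 0 < x := by linarith
  have hL8 : 8000 ≤ Real.log x := by
    rw [Real.le_log_iff_exp_le hx0]
    exact hxc
  have hL : 0 < Real.log x := by linarith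
  have hM0 : 0 ≤ max T₀ 51 := (by norm_num : (0 : ℝ) ≤ 51).trans (le_max_right _ _)
  have hz : max T₀ 51 ≤ x ^ δ := by
    have h1 := Real.rpow_le_rpow (Real.rpow_nonneg hM0 _) hxd hδ.le
    rwa [← Real.rpow_mul hM0, one_div_mul_cancel hδ.ne', Real.rpow_one] at h1
  have hzT : T₀ ≤ x ^ δ := (le_max_left _ _).trans hz
  have hz51 : 51 ≤ x ^ δ := (le_max_right _ _).trans hz
  have hz0 : 0 < x ^ δ := by linarith
  have hzz : x ^ δ ≤ x ^ (1 / 20 : ℝ) := Real.rpow_le_rpow_of_exponent_le hx1.le (by linarith)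
  have hsum := Finset.sum_le_sum (fun p hp => GPm_term hδ hT hx1 hzT hz51 (hX1 x hxa) (p := p) hp)
    (s := PI (x ^ δ) (x ^ (1 / 20 : ℝ)))
  rw [Finset.sum_add_distrib, ← Finset.mul_sum] at hsum
  have hord := Finset.prod_one_sub_ordered (PI (x ^ δ) (x ^ (1 / 20 : ℝ))) (fun p : ℕ => 1 / (p : ℝ))
  have hlo := hX2 x hxb (x ^ (1 / 20 : ℝ)) hzz
  unfold EP at hlo
  have hlog : Real.log (x ^ (1 / 20 : ℝ)) = 1 / 20 * Real.log x := Real.log_rpow hx0 _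
  have h20 : δ * Real.log x / Real.log (x ^ (1 / 20 : ℝ)) = 20 * δ := by
    rw [hlog]
    field_simp
  rw [h20] at hlo
  have hone := GPa_one (a := x ^ δ) (b := x ^ (1 / 20 : ℝ)) (by linarith) hzz
  have hone2 : ∑ p ∈ PI (x ^ δ) (x ^ (1 / 20 : ℝ)), Real.log p / (p : ℝ) ≤ 1 / 20 * Real.log x + 8 := by
    have h1 := (abs_le.1 hone).2
    have h2 : Real.log (x ^ (1 / 20 : ℝ) / x ^ δ) ≤ 1 / 20 * Real.log x := by
      rw [Real.log_div (by positivity) hz0.ne', hlog, Real.log_rpow hx0]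
      nlinarith
    linarith
  have hsec : 61 / 10 * (108 / 100) * δ * (1 / Real.log x) *
      ∑ p ∈ PI (x ^ δ) (x ^ (1 / 20 : ℝ)), Real.log p / (p : ℝ) ≤ 7 / 20 * δ := by
    have h1 : 61 / 10 * (108 / 100) * δ * (1 / Real.log x) *
        ∑ p ∈ PI (x ^ δ) (x ^ (1 / 20 : ℝ)), Real.log p / (p : ℝ) ≤
        61 / 10 * (108 / 100) * δ * (1 / Real.log x) * (1 / 20 * Real.log x + 8) :=
      mul_le_mul_of_nonneg_left hone2 (by positivity)
    refine h1.trans ?_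
    have h2 : 61 / 10 * (108 / 100) * δ * (1 / Real.log x) * (1 / 20 * Real.log x + 8) =
        61 / 10 * (108 / 100) * δ * (1 / 20 + 8 / Real.log x) := by
      field_simp
    rw [h2]
    have h3 : 8 / Real.log x ≤ 1 / 1000 := by
      rw [div_le_iff₀ hL]
      linarith
    nlinarith
  linarith

end Pool.Agent.H96.FL
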