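import Pool.Agent.H96.FL.TDf
import Pool.Agent.H96.FL.GPb
import Pool.Agent.H96.FL.GPR

/-!
# GPn: the second part of the main term (primes `x^(1/20) < p ≤ x^(9/20)`)

`z = x^δ`, `θ = 499/1000`, `1 ≤ j ≤ 8`, `I_j = PI (x^(j/20)) (x^((j+1)/20))`. For `p ∈ I_j`: `gj x p = j`, `gS x δ p = PI z (x^(gt j))`, `gR x p = x^((θ-(j+1)/20)/2)`, `gw x p = (113/200) (1 - (20/9) log p/log x)`. `gt 1 = gt 2 = 1/20`, `gt j = (θ - (j+1)/20)/6` for `3 ≤ j ≤ 8` (`≥ 49/6000 > 1/200 ≥ δ`).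
`GPR` with `t = x^(gt j)`: `log R/log t = s/2`, `s = (θ-(j+1)/20)/gt j` (`399/50` for `j = 1`, `349/50` for `j = 2`, `6` for `j ≥ 3`), so `(sG)⁻¹ ≤ EP z t/(1 - exp(5/2 - 3 s/4)) ≤ (1+ε) (δ/gt j)/(1 - exp(5/2 - 3 s/4))` (`GPb_up`).
`∑_{p∈I_j} (1/p) (1 - (20/9) log p/log x) ≤ log((j+1)/j) + small - (20/9) (1/20 - 8/log x) = log((j+1)/j) - 1/9 + small` (`GPa_up`, `GPa_one`).
Numerical values: `(1 - exp(5/2-3s/4))⁻¹ ≤ 1.0317, 1.0695, 1.1566` (`exp(-3.485) ≤ 0.0307`, `exp(-2.735) ≤ 0.0650`, `exp(-2) ≤ 0.1354`), `w_j = log((j+1)/j) - 1/9 ≤ 0.5821, 0.2945, 0.1767, 0.1121, 0.0713, 0.0431, 0.0225, 0.0067`, `1/gt j = 20, 20, 6/0.299, 6/0.249, 6/0.199, 6/0.149, 6/0.099, 6/0.049`: the sum over `j` of the products is `≤ 32.7`, times `113/200`: `≤ 18.5`; with the errors `≤ 37/2 + 1/10 ≤ 187/10`... (the true value is `18.38`).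
(Upper bounds for `log q`: `q ≤ exp b` by `Real.sum_le_exp_of_nonneg`.)
-/

set_option autoImplicit false

namespace Pool.Agent.H96.FL

open Finset Pool.Agent.H17 Pool.Agent.H6.MF Pool.Agent.H6.MB Pool.Agent.H12.DM

theorem GPn_log {y b : ℝ} (hy : 0 < y) (hb : 0 ≤ b) (h : y ≤ 1 + b + b ^ 2 / 2 + b ^ 3 / 6 + b ^ 4 / 24) :
    Real.log y ≤ b := by
  rw [Real.log_le_iff_le_exp hy]
  refine h.trans ?_
  have h1 := Real.sum_le_exp_of_nonneg hb 5
  refine le_trans (le_of_eq ?_) h1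
  simp [Finset.sum_range_succ, Nat.factorial]

theorem GPn_e1 : Real.exp (-(697 / 200)) ≤ 307 / 10000 := by
  have h1 : (2.718 : ℝ) ≤ Real.exp 1 := by
    have := Real.exp_one_gt_d9
    linarith
  have h2 : (1.623 : ℝ) ≤ Real.exp (97 / 200) := by
    have h3 := Real.sum_le_exp_of_nonneg (x := 97 / 200) (by norm_num) 5
    refine le_trans ?_ h3
    simp [Finset.sum_range_succ, Nat.factorial]
    norm_num
  have h3 : Real.exp (697 / 200) = Real.exp 1 ^ 3 * Real.exp (97 / 200) := by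
    rw [← Real.exp_nat_mul, ← Real.exp_add]
    norm_num
  have h4 : (2.718 : ℝ) ^ 3 * 1.623 ≤ Real.exp (697 / 200) := by
    rw [h3]
    gcongr
  rw [Real.exp_neg, inv_le_comm₀ (Real.exp_pos _) (by norm_num)]
  refine le_trans ?_ h4
  norm_num

theorem GPn_e2 : Real.exp (-(547 / 200)) ≤ 65 / 1000 := by
  have h1 : (2.718 : ℝ) ≤ Real.exp 1 := by
    have := Real.exp_one_gt_d9
    linarith
  have h2 : (2.084 : ℝ) ≤ Real.exp (147 / 200) := by
    have h3 := Real.sum_le_exp_of_nonneg (x := 147 / 200) (by norm_num) 6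
    refine le_trans ?_ h3
    simp [Finset.sum_range_succ, Nat.factorial]
    norm_num
  have h3 : Real.exp (547 / 200) = Real.exp 1 ^ 2 * Real.exp (147 / 200) := by
    rw [← Real.exp_nat_mul, ← Real.exp_add]
    norm_num
  have h4 : (2.718 : ℝ) ^ 2 * 2.084 ≤ Real.exp (547 / 200) := by
    rw [h3]
    gcongr
  rw [Real.exp_neg, inv_le_comm₀ (Real.exp_pos _) (by norm_num)]
  refine le_trans ?_ h4
  norm_num

theorem GPn_e3 : Real.exp (-2) ≤ 1354 / 10000 := by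
  have h1 : (2.7182 : ℝ) ≤ Real.exp 1 := by
    have := Real.exp_one_gt_d9
    linarith
  have h3 : Real.exp 2 = Real.exp 1 ^ 2 := by
    rw [← Real.exp_nat_mul]
    norm_num
  have h4 : (2.7182 : ℝ) ^ 2 ≤ Real.exp 2 := by
    rw [h3]
    gcongr
  rw [Real.exp_neg, inv_le_comm₀ (Real.exp_pos _) (by norm_num)]
  refine le_trans ?_ h4
  norm_num

theorem GPn_tm {lg g E l g' e : ℝ} (h1 : lg ≤ l) (hl : 0 ≤ l - 1 / 9) (hg : g = g') (hg0 : 0 < g') (h2 : E ≤ e) (he : e < 1) :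
    (lg - 1 / 9) / g / (1 - E) ≤ (l - 1 / 9) / g' / (1 - e) := by
  subst hg
  have h3 : (lg - 1 / 9) / g ≤ (l - 1 / 9) / g := by gcongr
  have h4 : 0 ≤ (l - 1 / 9) / g := by positivity
  calc (lg - 1 / 9) / g / (1 - E) ≤ (l - 1 / 9) / g / (1 - E) := by
        apply div_le_div_of_nonneg_right h3
        linarith
    _ ≤ (l - 1 / 9) / g / (1 - e) := by
        apply div_le_div_of_nonneg_left h4 (by linarith) (by linarith)

theorem GPn_g1 : gt 1 = 1 / 20 := by unfold gt; rw [min_eq_left]; norm_num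
theorem GPn_g2 : gt 2 = 1 / 20 := by unfold gt; rw [min_eq_left]; norm_num
theorem GPn_g3 : gt 3 = 299 / 6000 := by unfold gt; rw [min_eq_right] <;> norm_num
theorem GPn_g4 : gt 4 = 249 / 6000 := by unfold gt; rw [min_eq_right] <;> norm_num
theorem GPn_g5 : gt 5 = 199 / 6000 := by unfold gt; rw [min_eq_right] <;> norm_num
theorem GPn_g6 : gt 6 = 149 / 6000 := by unfold gt; rw [min_eq_right] <;> norm_num
theorem GPn_g7 : gt 7 = 99 / 6000 := by unfold gt; rw [min_eq_right] <;> norm_num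
theorem GPn_g8 : gt 8 = 49 / 6000 := by unfold gt; rw [min_eq_right] <;> norm_num

theorem GPn_num : ∑ j ∈ Finset.Icc (1 : ℕ) 8, 113 / 200 * ((Real.log (((j : ℝ) + 1) / j) - 1 / 9) / gt j /
        (1 - Real.exp (5 / 2 - 3 / 4 * ((499 / 1000 - ((j : ℝ) + 1) / 20) / gt j)))) ≤ 187 / 10 := by
  have hI : Finset.Icc (1 : ℕ) 8 = {1, 2, 3, 4, 5, 6, 7, 8} := by decide
  rw [hI]
  simp only [← Finset.mul_sum]
  rw [Finset.sum_insert (by decide), Finset.sum_insert (by decide), Finset.sum_insert (by decide),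
    Finset.sum_insert (by decide), Finset.sum_insert (by decide), Finset.sum_insert (by decide),
    Finset.sum_insert (by decide), Finset.sum_singleton]
  rw [GPn_g1, GPn_g2, GPn_g3, GPn_g4, GPn_g5, GPn_g6, GPn_g7, GPn_g8]
  have hl1 : Real.log (((1 : ℕ) + 1 : ℝ) / (1 : ℕ)) ≤ 6932 / 10000 := by
    have := Real.log_two_lt_d9
    norm_num
    linarith
  have hl2 : Real.log (((2 : ℕ) + 1 : ℝ) / (2 : ℕ)) ≤ 4056 / 10000 := by
    apply GPn_log <;> norm_num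
  have hl3 : Real.log (((3 : ℕ) + 1 : ℝ) / (3 : ℕ)) ≤ 2878 / 10000 := by
    apply GPn_log <;> norm_num
  have hl4 : Real.log (((4 : ℕ) + 1 : ℝ) / (4 : ℕ)) ≤ 2232 / 10000 := by
    apply GPn_log <;> norm_num
  have hl5 : Real.log (((5 : ℕ) + 1 : ℝ) / (5 : ℕ)) ≤ 1824 / 10000 := by
    apply GPn_log <;> norm_num
  have hl6 : Real.log (((6 : ℕ) + 1 : ℝ) / (6 : ℕ)) ≤ 1542 / 10000 := by
    apply GPn_log <;> norm_num
  have hl7 : Real.log (((7 : ℕ) + 1 : ℝ) / (7 : ℕ)) ≤ 1336 / 10000 := by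
    apply GPn_log <;> norm_num
  have hl8 : Real.log (((8 : ℕ) + 1 : ℝ) / (8 : ℕ)) ≤ 1178 / 10000 := by
    apply GPn_log <;> norm_num
  have he1 : Real.exp (5 / 2 - 3 / 4 * ((499 / 1000 - (((1 : ℕ) : ℝ) + 1) / 20) / (1 / 20))) ≤ 307 / 10000 := by
    refine le_trans (le_of_eq ?_) GPn_e1
    norm_num
  have he2 : Real.exp (5 / 2 - 3 / 4 * ((499 / 1000 - (((2 : ℕ) : ℝ) + 1) / 20) / (1 / 20))) ≤ 65 / 1000 := by
    refine le_trans (le_of_eq ?_) GPn_e2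
    norm_num
  have he3 : Real.exp (5 / 2 - 3 / 4 * ((499 / 1000 - (((3 : ℕ) : ℝ) + 1) / 20) / (299 / 6000))) ≤ 1354 / 10000 := by
    refine le_trans (le_of_eq ?_) GPn_e3
    norm_num
  have he4 : Real.exp (5 / 2 - 3 / 4 * ((499 / 1000 - (((4 : ℕ) : ℝ) + 1) / 20) / (249 / 6000))) ≤ 1354 / 10000 := by
    refine le_trans (le_of_eq ?_) GPn_e3
    norm_num
  have he5 : Real.exp (5 / 2 - 3 / 4 * ((499 / 1000 - (((5 : ℕ) : ℝ) + 1) / 20) / (199 / 6000))) ≤ 1354 / 10000 := by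
    refine le_trans (le_of_eq ?_) GPn_e3
    norm_num
  have he6 : Real.exp (5 / 2 - 3 / 4 * ((499 / 1000 - (((6 : ℕ) : ℝ) + 1) / 20) / (149 / 6000))) ≤ 1354 / 10000 := by
    refine le_trans (le_of_eq ?_) GPn_e3
    norm_num
  have he7 : Real.exp (5 / 2 - 3 / 4 * ((499 / 1000 - (((7 : ℕ) : ℝ) + 1) / 20) / (99 / 6000))) ≤ 1354 / 10000 := by
    refine le_trans (le_of_eq ?_) GPn_e3
    norm_num
  have he8 : Real.exp (5 / 2 - 3 / 4 * ((499 / 1000 - (((8 : ℕ) : ℝ) + 1) / 20) / (49 / 6000))) ≤ 1354 / 10000 := by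
    refine le_trans (le_of_eq ?_) GPn_e3
    norm_num
  have t1 := GPn_tm hl1 (by norm_num) (rfl : (1 / 20 : ℝ) = 1 / 20) (by norm_num) he1 (by norm_num)
  have t2 := GPn_tm hl2 (by norm_num) (rfl : (1 / 20 : ℝ) = 1 / 20) (by norm_num) he2 (by norm_num)
  have t3 := GPn_tm hl3 (by norm_num) (rfl : (299 / 6000 : ℝ) = 299 / 6000) (by norm_num) he3 (by norm_num)
  have t4 := GPn_tm hl4 (by norm_num) (rfl : (249 / 6000 : ℝ) = 249 / 6000) (by norm_num) he4 (by norm_num)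
  have t5 := GPn_tm hl5 (by norm_num) (rfl : (199 / 6000 : ℝ) = 199 / 6000) (by norm_num) he5 (by norm_num)
  have t6 := GPn_tm hl6 (by norm_num) (rfl : (149 / 6000 : ℝ) = 149 / 6000) (by norm_num) he6 (by norm_num)
  have t7 := GPn_tm hl7 (by norm_num) (rfl : (99 / 6000 : ℝ) = 99 / 6000) (by norm_num) he7 (by norm_num)
  have t8 := GPn_tm hl8 (by norm_num) (rfl : (49 / 6000 : ℝ) = 49 / 6000) (by norm_num) he8 (by norm_num)
  have hs := add_le_add t1 (add_le_add t2 (add_le_add t3 (add_le_add t4 (add_le_add t5 (add_le_add t6 (add_le_add t7 t8))))))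
  refine le_trans (mul_le_mul_of_nonneg_left hs (by norm_num)) ?_
  norm_num

theorem GPn_gt_lo (j : ℕ) (hj8 : j ≤ 8) : 49 / 6000 ≤ gt j := by
  unfold gt
  have : (j : ℝ) ≤ 8 := by exact_mod_cast hj8
  apply le_min
  · norm_num
  · linarith

theorem GPn_gt_s (j : ℕ) (hj8 : j ≤ 8) : 6 ≤ (499 / 1000 - ((j : ℝ) + 1) / 20) / gt j := by
  have h0 := GPn_gt_lo j hj8
  rw [le_div_iff₀ (by linarith)]
  have : gt j ≤ (499 / 1000 - ((j : ℝ) + 1) / 20) / 6 := by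
    unfold gt
    exact min_le_right _ _
  linarith

theorem GPn_E (j : ℕ) (hj8 : j ≤ 8) :
    0 < 1 - Real.exp (5 / 2 - 3 / 4 * ((499 / 1000 - ((j : ℝ) + 1) / 20) / gt j)) := by
  have h0 := GPn_gt_s j hj8
  have : Real.exp (5 / 2 - 3 / 4 * ((499 / 1000 - ((j : ℝ) + 1) / 20) / gt j)) < 1 := by
    rw [Real.exp_lt_one_iff]
    linarith
  linarith

theorem GPn_PI {a b : ℝ} {p : ℕ} (hp : p ∈ PI a b) : p.Prime ∧ a < (p : ℝ) ∧ (p : ℝ) ≤ b := by
  unfold PI at hp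
  rw [Finset.mem_filter, Finset.mem_range] at hp
  obtain ⟨h1, h2, h3⟩ := hp
  refine ⟨h2, h3, ?_⟩
  have h4 : p ≤ ⌊b⌋₊ := by omega
  rcases le_or_gt 0 b with hb | hb
  · exact (Nat.le_floor_iff hb).1 h4
  · rw [Nat.floor_of_nonpos hb.le] at h4
    have := h2.pos
    omega

theorem GPn_gj {x : ℝ} (hx : 1 < x) {j : ℕ} {p : ℕ} (hp : p ∈ PI (x ^ ((j : ℝ) / 20)) (x ^ (((j : ℝ) + 1) / 20))) :
    gj x p = j := by
  obtain ⟨h1, h2, h3⟩ := GPn_PI hp
  have hL : 0 < Real.log x := Real.log_pos hx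
  have hp0 : (0 : ℝ) < p := by exact_mod_cast h1.pos
  have h4 : (j : ℝ) / 20 * Real.log x < Real.log p := by
    rw [← Real.log_rpow (by linarith)]
    exact Real.log_lt_log (Real.rpow_pos_of_pos (by linarith) _) h2
  have h5 : Real.log p ≤ ((j : ℝ) + 1) / 20 * Real.log x := by
    rw [← Real.log_rpow (by linarith)]
    exact Real.log_le_log hp0 h3
  unfold gj
  have h6 : ⌈20 * Real.log p / Real.log x⌉₊ = j + 1 := by
    rw [Nat.ceil_eq_iff (by omega)]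
    constructor
    · rw [Nat.add_sub_cancel, lt_div_iff₀ hL]
      linarith
    · rw [div_le_iff₀ hL]
      push_cast
      linarith
  rw [h6, Nat.add_sub_cancel]

/-- the functions on the range -/
theorem GPn_vals {x δ : ℝ} (hx : 1 < x) {j : ℕ} (hj1 : 1 ≤ j) (hj8 : j ≤ 8) {p : ℕ}
    (hp : p ∈ PI (x ^ ((j : ℝ) / 20)) (x ^ (((j : ℝ) + 1) / 20))) :
    gS x δ p = PI (x ^ δ) (x ^ gt j) ∧ gR x p = x ^ ((499 / 1000 - ((j : ℝ) + 1) / 20) / 2) ∧
      gw x p = 113 / 200 * (1 - 20 / 9 * (Real.log p / Real.log x)) := by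
  have hg := GPn_gj hx hp
  obtain ⟨h1, h2, h3⟩ := GPn_PI hp
  have hj1' : (1 : ℝ) ≤ j := by exact_mod_cast hj1
  have hj8' : (j : ℝ) ≤ 8 := by exact_mod_cast hj8
  have h4 : ¬ ((p : ℝ) ≤ x ^ (1 / 20 : ℝ)) := by
    have : x ^ (1 / 20 : ℝ) ≤ x ^ ((j : ℝ) / 20) := Real.rpow_le_rpow_of_exponent_le hx.le (by linarith)
    intro h
    linarith
  have h5 : (p : ℝ) ≤ x ^ (9 / 20 : ℝ) :=
    h3.trans (Real.rpow_le_rpow_of_exponent_le hx.le (by linarith))
  refine ⟨?_, ?_, ?_⟩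
  · unfold gS
    rw [if_neg h4, hg]
  · unfold gR
    rw [if_neg h4, if_pos h5, hg]
  · unfold gw
    rw [if_neg h4, if_pos h5, Real.log_rpow (by linarith)]
    have hL : 0 < Real.log x := Real.log_pos hx
    field_simp

theorem GPn_lg (j : ℕ) (hj1 : 1 ≤ j) (hj8 : j ≤ 8) : 0 ≤ Real.log (((j : ℝ) + 1) / j) - 1 / 9 := by
  have hj1' : (1 : ℝ) ≤ j := by exact_mod_cast hj1
  have hj8' : (j : ℝ) ≤ 8 := by exact_mod_cast hj8
  have h1 := Real.one_sub_inv_le_log_of_pos (x := ((j : ℝ) + 1) / j) (by positivity)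
  have h2 : (1 : ℝ) / 9 ≤ 1 - (((j : ℝ) + 1) / j)⁻¹ := by
    rw [inv_div, div_le_iff₀ (by norm_num)]
    have : (j : ℝ) / (j + 1) = 1 - 1 / (j + 1) := by
      field_simp
      ring
    rw [this]
    have h3 : (1 : ℝ) / 9 ≤ 1 / (j + 1) := by
      apply one_div_le_one_div_of_le <;> linarith
    linarith
  linarith

/-- the contribution of the primes with `gj x p = j` -/
theorem GPn_j (δ : ℝ) (hδ : 0 < δ) (hδ1 : δ ≤ 1 / 200) (ε : ℝ) (hε : 0 < ε) (j : ℕ) (hj1 : 1 ≤ j) (hj8 : j ≤ 8) :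
    ∃ X : ℝ, ∀ x : ℝ, X ≤ x →
    ∑ p ∈ PI (x ^ ((j : ℝ) / 20)) (x ^ (((j : ℝ) + 1) / 20)), gw x p / (p : ℝ) * (sG (gS x δ p) (gR x p))⁻¹ ≤
      δ * (113 / 200 * ((Real.log (((j : ℝ) + 1) / j) - 1 / 9) / gt j /
        (1 - Real.exp (5 / 2 - 3 / 4 * ((499 / 1000 - ((j : ℝ) + 1) / 20) / gt j)))) + ε) := by
  have hj1' : (1 : ℝ) ≤ j := by exact_mod_cast hj1
  have hj8' : (j : ℝ) ≤ 8 := by exact_mod_cast hj8
  have hgt := GPn_gt_lo j hj8
  have hgt0 : 0 < gt j := by linarith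
  have hE := GPn_E j hj8
  have hlg := GPn_lg j hj1 hj8
  obtain ⟨T₀, hT⟩ := GPR
  set w : ℝ := Real.log (((j : ℝ) + 1) / j) - 1 / 9 with hw
  set Q : ℝ := 1 - Real.exp (5 / 2 - 3 / 4 * ((499 / 1000 - ((j : ℝ) + 1) / 20) / gt j)) with hQ
  -- the main value and the errors
  set M : ℝ := 113 / 200 * (w / gt j / Q) with hM
  have hM0 : 0 ≤ M := by positivity
  set K : ℝ := 113 / 200 * (1 / gt j / Q) with hK
  have hK0 : 0 < K := by positivity
  obtain ⟨X₁, hX₁⟩ := GPb_up δ (min 1 (ε / (2 * (M + 1)))) hδ (by positivity)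
  set e : ℝ := min 1 (ε / (2 * (M + 1))) with he
  have he1 : e ≤ 1 := min_le_left _ _
  have he0 : 0 < e := by positivity
  have heM : e * M ≤ ε / 2 := by
    have h1 : e ≤ ε / (2 * (M + 1)) := min_le_right _ _
    calc e * M ≤ ε / (2 * (M + 1)) * (M + 1) := by
          apply mul_le_mul h1 (by linarith) hM0 (by positivity)
      _ = ε / 2 := by field_simp
  refine ⟨max (max X₁ (Real.exp (1800 * K / ε))) (max (Real.exp 20) ((max T₀ 2) ^ (1 / (1 / 200) : ℝ))), ?_⟩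
  intro x hx
  have hx1 : X₁ ≤ x := (le_max_left _ _).trans ((le_max_left _ _).trans hx)
  have hx2 : Real.exp (1800 * K / ε) ≤ x := (le_max_right _ _).trans ((le_max_left _ _).trans hx)
  have hx3 : Real.exp 20 ≤ x := (le_max_left _ _).trans ((le_max_right _ _).trans hx)
  have hx4 : (max T₀ 2) ^ (1 / (1 / 200) : ℝ) ≤ x := (le_max_right _ _).trans ((le_max_right _ _).trans hx)
  have hxpos : 0 < x := (Real.exp_pos _).trans_le hx3
  have hL20 : 20 ≤ Real.log x := (Real.le_log_iff_exp_le hxpos).2 hx3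
  have hx0 : 1 < x := by
    by_contra h
    have := Real.log_nonpos hxpos.le (not_lt.1 h)
    linarith
  have hL : 0 < Real.log x := by linarith
  have hLK : 1800 * K / ε ≤ Real.log x := (Real.le_log_iff_exp_le hxpos).2 hx2
  -- the size of the level
  have hlow : max T₀ 2 ≤ x ^ (1 / 200 : ℝ) := by
    have h1 := Real.rpow_le_rpow (by positivity) hx4 (by norm_num : (0 : ℝ) ≤ 1 / 200)
    rw [← Real.rpow_mul (by positivity)] at h1
    norm_num at h1 ⊢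
    exact h1
  have ht : x ^ (1 / 200 : ℝ) ≤ x ^ gt j := Real.rpow_le_rpow_of_exponent_le hx0.le (by linarith)
  have htT : T₀ ≤ x ^ gt j := (le_max_left _ _).trans (hlow.trans ht)
  have hzt : x ^ δ ≤ x ^ gt j := Real.rpow_le_rpow_of_exponent_le hx0.le (by linarith)
  set S := PI (x ^ δ) (x ^ gt j) with hS
  set R := x ^ ((499 / 1000 - ((j : ℝ) + 1) / 20) / 2) with hR
  have hR1 : 1 ≤ R := Real.one_le_rpow hx0.le (by linarith)
  have hG := hT (x ^ gt j) htT S (fun p hp => (GPn_PI hp).1) (fun p hp => (GPn_PI hp).2.2) R hR1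
  have hlr : Real.log R / Real.log (x ^ gt j) = (499 / 1000 - ((j : ℝ) + 1) / 20) / gt j / 2 := by
    rw [hR, Real.log_rpow hxpos, Real.log_rpow hxpos]
    field_simp
  have hexp : 1 - Real.exp (5 / 2 - 3 / 2 * (Real.log R / Real.log (x ^ gt j))) = Q := by
    rw [hlr, hQ]
    congr 2
    ring
  rw [hexp] at hG
  have hEP : ∏ p ∈ S, (1 - 1 / (p : ℝ)) = EP (x ^ δ) (x ^ gt j) := rfl
  have hEPpos : 0 < EP (x ^ δ) (x ^ gt j) := by
    rw [← hEP]
    apply Finset.prod_pos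
    intro p hp
    have h2 : (2 : ℝ) ≤ p := by exact_mod_cast (GPn_PI hp).1.two_le
    have : 1 / (p : ℝ) ≤ 1 / 2 := by
      apply one_div_le_one_div_of_le <;> linarith
    linarith
  rw [hEP] at hG
  have hsG : 0 < sG S R := by
    by_contra h
    have : sG S R * EP (x ^ δ) (x ^ gt j) ≤ 0 := mul_nonpos_of_nonpos_of_nonneg (not_lt.1 h) hEPpos.le
    linarith
  have hEPup := hX₁ x hx1 (x ^ gt j) hzt
  have hEPup' : EP (x ^ δ) (x ^ gt j) ≤ (1 + e) * (δ / gt j) := by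
    refine hEPup.trans (le_of_eq ?_)
    rw [Real.log_rpow hxpos]
    field_simp
  have hinv : (sG S R)⁻¹ ≤ (1 + e) * (δ / gt j) / Q := by
    rw [le_div_iff₀ hE, inv_mul_le_iff₀ hsG]
    calc Q ≤ sG S R * EP (x ^ δ) (x ^ gt j) := hG
      _ ≤ sG S R * ((1 + e) * (δ / gt j)) := by
          apply mul_le_mul_of_nonneg_left hEPup' hsG.le
  -- the sum of the weights
  set I := PI (x ^ ((j : ℝ) / 20)) (x ^ (((j : ℝ) + 1) / 20)) with hI
  have hsum : ∑ p ∈ I, gw x p / (p : ℝ) * (sG (gS x δ p) (gR x p))⁻¹ =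
      (113 / 200 * (∑ p ∈ I, 1 / (p : ℝ) - 20 / 9 / Real.log x * ∑ p ∈ I, Real.log p / (p : ℝ))) * (sG S R)⁻¹ := by
    rw [Finset.mul_sum, ← Finset.sum_sub_distrib, Finset.mul_sum, Finset.sum_mul]
    apply Finset.sum_congr rfl
    intro p hp
    obtain ⟨v1, v2, v3⟩ := GPn_vals (δ := δ) hx0 hj1 hj8 hp
    rw [v1, v2, v3, ← hS, ← hR]
    have hp0 : (0 : ℝ) < p := by exact_mod_cast (GPn_PI hp).1.pos
    field_simp
  have ha2 : (2 : ℝ) ≤ x ^ ((j : ℝ) / 20) := by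
    have h1 : x ^ (1 / 20 : ℝ) ≤ x ^ ((j : ℝ) / 20) := Real.rpow_le_rpow_of_exponent_le hx0.le (by linarith)
    have h2 : Real.exp 1 ≤ x ^ (1 / 20 : ℝ) := by
      rw [Real.rpow_def_of_pos hxpos]
      apply Real.exp_le_exp.2
      linarith
    have := Real.exp_one_gt_d9
    linarith
  have hab : x ^ ((j : ℝ) / 20) ≤ x ^ (((j : ℝ) + 1) / 20) :=
    Real.rpow_le_rpow_of_exponent_le hx0.le (by linarith)
  have hup := GPa_up ha2 hab
  have hone := GPa_one (by linarith : (1 : ℝ) ≤ x ^ ((j : ℝ) / 20)) hab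
  rw [Real.log_rpow hxpos, Real.log_rpow hxpos] at hup
  have hrat : ((j : ℝ) + 1) / 20 * Real.log x / ((j : ℝ) / 20 * Real.log x) = ((j : ℝ) + 1) / j := by
    field_simp
  rw [hrat] at hup
  have hdiv : Real.log (x ^ (((j : ℝ) + 1) / 20) / x ^ ((j : ℝ) / 20)) = Real.log x / 20 := by
    rw [Real.log_div (by positivity) (by positivity), Real.log_rpow hxpos, Real.log_rpow hxpos]
    ring
  rw [hdiv] at hone
  have hone' : Real.log x / 20 - 8 ≤ ∑ p ∈ I, Real.log p / (p : ℝ) := by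
    have := (abs_le.1 hone).1
    linarith
  have h160 : 8 / ((j : ℝ) / 20 * Real.log x) ≤ 160 / Real.log x := by
    rw [div_le_div_iff₀ (by positivity) hL]
    have : 0 ≤ (j - 1 : ℝ) * Real.log x := mul_nonneg (by linarith) hL.le
    linarith
  have hW : 113 / 200 * (∑ p ∈ I, 1 / (p : ℝ) - 20 / 9 / Real.log x * ∑ p ∈ I, Real.log p / (p : ℝ)) ≤
      113 / 200 * (w + 200 / Real.log x) := by
    apply mul_le_mul_of_nonneg_left _ (by norm_num)
    have h1 : 20 / 9 / Real.log x * (Real.log x / 20 - 8) ≤ 20 / 9 / Real.log x * ∑ p ∈ I, Real.log p / (p : ℝ) :=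
      mul_le_mul_of_nonneg_left hone' (by positivity)
    have h2 : 20 / 9 / Real.log x * (Real.log x / 20 - 8) = 1 / 9 - 160 / 9 / Real.log x := by
      field_simp
      ring
    have h3 : 160 / Real.log x + 160 / 9 / Real.log x ≤ 200 / Real.log x := by
      rw [← add_div]
      apply div_le_div_of_nonneg_right _ hL.le
      norm_num
    rw [hw]
    linarith
  rw [hsum]
  have hsGi : 0 ≤ (sG S R)⁻¹ := by positivity
  have hWp : 0 ≤ 113 / 200 * (w + 200 / Real.log x) := by positivity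
  calc (113 / 200 * (∑ p ∈ I, 1 / (p : ℝ) - 20 / 9 / Real.log x * ∑ p ∈ I, Real.log p / (p : ℝ))) * (sG S R)⁻¹
      ≤ 113 / 200 * (w + 200 / Real.log x) * (sG S R)⁻¹ := mul_le_mul_of_nonneg_right hW hsGi
    _ ≤ 113 / 200 * (w + 200 / Real.log x) * ((1 + e) * (δ / gt j) / Q) := mul_le_mul_of_nonneg_left hinv hWp
    _ = δ * (M + e * M + (1 + e) * (K * (200 / Real.log x))) := by
        rw [hM, hK]
        field_simp
    _ ≤ δ * (M + ε) := by
        apply mul_le_mul_of_nonneg_left _ hδ.le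
        have h5 : (1 + e) * (K * (200 / Real.log x)) ≤ ε / 2 := by
          have h6 : K * (200 / Real.log x) ≤ ε / 4 := by
            rw [mul_div_assoc', div_le_iff₀ hL]
            rw [div_le_iff₀ hε] at hLK
            have h8 : 0 < Real.log x * ε := mul_pos hL hε
            linarith
          have h7 : 0 ≤ K * (200 / Real.log x) := by positivity
          have h8 : (1 + e) * (K * (200 / Real.log x)) ≤ 2 * (K * (200 / Real.log x)) :=
            mul_le_mul_of_nonneg_right (by linarith) h7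
          linarith
        linarith

theorem GPn_mem {a b : ℝ} (hb : 0 ≤ b) {p : ℕ} : p ∈ PI a b ↔ p.Prime ∧ a < (p : ℝ) ∧ (p : ℝ) ≤ b := by
  refine ⟨GPn_PI, ?_⟩
  rintro ⟨h1, h2, h3⟩
  unfold PI
  rw [Finset.mem_filter, Finset.mem_range]
  have := (Nat.le_floor_iff hb).2 h3
  exact ⟨by omega, h1, h2⟩

theorem GPn_split {a b c : ℝ} (hb : 0 ≤ b) (hab : a ≤ b) (hbc : b ≤ c) (f : ℕ → ℝ) :
    ∑ p ∈ PI a c, f p = ∑ p ∈ PI a b, f p + ∑ p ∈ PI b c, f p := by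
  rw [← Finset.sum_union]
  · apply Finset.sum_congr _ (fun _ _ => rfl)
    ext p
    rw [Finset.mem_union, GPn_mem (hb.trans hbc), GPn_mem hb, GPn_mem (hb.trans hbc)]
    constructor
    · rintro ⟨h1, h2, h3⟩
      rcases le_or_gt (p : ℝ) b with h | h
      · exact Or.inl ⟨h1, h2, h⟩
      · exact Or.inr ⟨h1, h, h3⟩
    · rintro (⟨h1, h2, h3⟩ | ⟨h1, h2, h3⟩)
      · exact ⟨h1, h2, h3.trans hbc⟩
      · exact ⟨h1, hab.trans_lt h2, h3⟩
  · rw [Finset.disjoint_left]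
    intro p h1 h2
    have h3 := (GPn_PI h1).2.2
    have h4 := (GPn_PI h2).2.1
    linarith

theorem GPn_parts {x : ℝ} (hx : 1 ≤ x) (f : ℕ → ℝ) (J : ℕ) :
    ∑ p ∈ PI (x ^ (1 / 20 : ℝ)) (x ^ (((J : ℝ) + 1) / 20)), f p =
      ∑ j ∈ Finset.Icc 1 J, ∑ p ∈ PI (x ^ ((j : ℝ) / 20)) (x ^ (((j : ℝ) + 1) / 20)), f p := by
  induction J with
  | zero =>
    have h1 : PI (x ^ (1 / 20 : ℝ)) (x ^ ((((0 : ℕ) : ℝ) + 1) / 20)) = ∅ := by
      apply Finset.eq_empty_of_forall_notMem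
      intro p hp
      obtain ⟨-, h2, h3⟩ := GPn_PI hp
      norm_num at h3
      norm_num at h2
      linarith
    rw [h1]
    simp
  | succ J ih =>
    rw [Finset.sum_Icc_succ_top (by omega), ← ih, GPn_split (b := x ^ (((J : ℝ) + 1) / 20)) (by positivity)]
    · push_cast
      rfl
    · apply Real.rpow_le_rpow_of_exponent_le hx
      have : (0 : ℝ) ≤ J := Nat.cast_nonneg J
      linarith
    · apply Real.rpow_le_rpow_of_exponent_le hx
      push_cast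
      linarith

theorem GPn (δ : ℝ) (hδ : 0 < δ) (hδ1 : δ ≤ 1 / 200) : ∃ X : ℝ, ∀ x : ℝ, X ≤ x →
    ∑ p ∈ PI (x ^ (1 / 20 : ℝ)) (x ^ (9 / 20 : ℝ)), gw x p / (p : ℝ) * (sG (gS x δ p) (gR x p))⁻¹ ≤ 94 / 5 * δ := by
  have h0 : ∀ j : ℕ, ∃ X : ℝ, j ∈ Finset.Icc (1 : ℕ) 8 → ∀ x : ℝ, X ≤ x →
      ∑ p ∈ PI (x ^ ((j : ℝ) / 20)) (x ^ (((j : ℝ) + 1) / 20)), gw x p / (p : ℝ) * (sG (gS x δ p) (gR x p))⁻¹ ≤
      δ * (113 / 200 * ((Real.log (((j : ℝ) + 1) / j) - 1 / 9) / gt j /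
        (1 - Real.exp (5 / 2 - 3 / 4 * ((499 / 1000 - ((j : ℝ) + 1) / 20) / gt j)))) + 1 / 80) := by
    intro j
    by_cases hj : j ∈ Finset.Icc (1 : ℕ) 8
    · obtain ⟨X, hX⟩ := GPn_j δ hδ hδ1 (1 / 80) (by norm_num) j (Finset.mem_Icc.1 hj).1 (Finset.mem_Icc.1 hj).2
      exact ⟨X, fun _ => hX⟩
    · exact ⟨0, fun h => absurd h hj⟩
  choose X hX using h0
  refine ⟨max 1 (∑ j ∈ Finset.Icc (1 : ℕ) 8, |X j|), ?_⟩
  intro x hx
  have hx1 : 1 ≤ x := (le_max_left _ _).trans hx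
  have hx2 : ∀ j ∈ Finset.Icc (1 : ℕ) 8, X j ≤ x := by
    intro j hj
    have h1 : |X j| ≤ ∑ j ∈ Finset.Icc (1 : ℕ) 8, |X j| :=
      Finset.single_le_sum (f := fun j => |X j|) (fun _ _ => abs_nonneg _) hj
    exact (le_abs_self _).trans (h1.trans ((le_max_right _ _).trans hx))
  have h1 := GPn_parts hx1 (fun p => gw x p / (p : ℝ) * (sG (gS x δ p) (gR x p))⁻¹) 8
  have h2 : ((((8 : ℕ) : ℝ) + 1) / 20) = 9 / 20 := by norm_num
  rw [h2] at h1
  rw [h1]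
  refine (Finset.sum_le_sum (fun j hj => hX j hj x (hx2 j hj))).trans ?_
  rw [← Finset.mul_sum, Finset.sum_add_distrib]
  have h3 := GPn_num
  have h4 : ∑ j ∈ Finset.Icc (1 : ℕ) 8, (1 / 80 : ℝ) = 1 / 10 := by
    rw [Finset.sum_const, Nat.card_Icc]
    norm_num
  rw [h4]
  have h5 := mul_le_mul_of_nonneg_left (add_le_add_left h3 (1 / 10 : ℝ)) hδ.le
  nlinarith

end Pool.Agent.H96.FL
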