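import Pool.Agent.H96.FL.Df

/-!
# SELa: Selberg's weight with one prime factor prescribed

`S` a finite set of primes, `R ≥ 1`, `P = ∏_{p∈S} p`, `G = sG S R`, `ρ_T = sr S R T`, `f = pf S (sr S R)`. Let `χ_p(n) = 1 - p * 1[p ∣ n]` (period `p`, mean `0`, mean square `p - 1`). Expanding `∏_{p∈U} χ_p = ∑_{T⊆U} (-1)^|T| (∏_T p) 1[T ∣ n]`:
`f(n) = G⁻¹ ∑_{U ⊆ S, ∏ U ≤ R} sa U * ∏_{p∈U} χ_p(n)` (exchange the sums: `U = T ∪ U'`, `U' ⊆ S \ T`, `sa (T ∪ U') = sa T * sa U'`).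
* `SEL_one`: `sr S R ∅ = 1`. `SEL_zero`: empty sum. 
* `SEL_le`: `G = ∑_{K⊆T} ∑_{U' ⊆ S\T, ∏K ∏U' ≤ R} sa K sa U' ≥ (∑_{K⊆T} sa K) * ∑_{U' ⊆ S\T, ∏T ∏U' ≤ R} sa U'` and `∑_{K ⊆ T} sa K = ∏_{p∈T} (1 + 1/(p-1)) = ∏_{p∈T} p/(p-1)`.
-/

set_option autoImplicit false

namespace Pool.Agent.H96.FL

open Finset Pool.Agent.H17 Pool.Agent.H6.MF Pool.Agent.H6.MB

private theorem SELa_pos {p : ℕ} (hp : p.Prime) : (0 : ℝ) < (p : ℝ) - 1 := by
  have h := hp.one_lt
  have h2 : (1 : ℝ) < (p : ℝ) := by exact_mod_cast h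
  linarith

private theorem SELa_sa_nonneg {S : Finset ℕ} (hS : ∀ p ∈ S, p.Prime) {U : Finset ℕ} (hU : U ⊆ S) :
    0 ≤ sa U := by
  unfold sa
  exact Finset.prod_nonneg fun p hp => (one_div_pos.2 (SELa_pos (hS p (hU hp)))).le

private theorem SELa_one_le {S : Finset ℕ} (hS : ∀ p ∈ S, p.Prime) {U : Finset ℕ} (hU : U ⊆ S) :
    (1 : ℝ) ≤ ∏ p ∈ U, (p : ℝ) := by
  have h : (1 : ℕ) ≤ ∏ p ∈ U, p := Finset.one_le_prod' fun p hp => (hS p (hU hp)).one_lt.le
  have h2 : ((1 : ℕ) : ℝ) ≤ ((∏ p ∈ U, p : ℕ) : ℝ) := Nat.cast_le.2 h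
  rwa [Nat.cast_one, Nat.cast_prod] at h2

private theorem SELa_sG_pos {S : Finset ℕ} {R : ℝ} (hR : 1 ≤ R) (hS : ∀ p ∈ S, p.Prime) :
    0 < sG S R := by
  unfold sG
  have h1 : sa ∅ ≤ ∑ U ∈ S.powerset.filter (fun U : Finset ℕ => (∏ p ∈ U, (p : ℝ)) ≤ R), sa U := by
    refine Finset.single_le_sum (f := sa) (fun U hU => ?_) ?_
    · exact SELa_sa_nonneg hS (Finset.mem_powerset.1 (Finset.mem_filter.1 hU).1)
    · refine Finset.mem_filter.2 ⟨Finset.empty_mem_powerset S, ?_⟩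
      rw [Finset.prod_empty]
      exact hR
  have h2 : sa ∅ = 1 := by
    unfold sa
    rw [Finset.prod_empty]
  linarith

theorem SEL_one (S : Finset ℕ) (R : ℝ) (hR : 1 ≤ R) (hS : ∀ p ∈ S, p.Prime) : sr S R ∅ = 1 := by
  have h := SELa_sG_pos hR hS
  unfold sr
  rw [Finset.card_empty, pow_zero, Finset.prod_empty, Finset.prod_empty, Finset.sdiff_empty,
    one_mul, one_mul]
  have e : (∑ U ∈ S.powerset.filter (fun U : Finset ℕ => (1 : ℝ) * (∏ p ∈ U, (p : ℝ)) ≤ R), sa U) =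
      sG S R := by
    unfold sG
    refine Finset.sum_congr ?_ fun _ _ => rfl
    refine Finset.filter_congr fun U _ => ?_
    rw [one_mul]
  rw [e, div_self h.ne']

theorem SEL_zero (S : Finset ℕ) (R : ℝ) (hS : ∀ p ∈ S, p.Prime) (T : Finset ℕ) (hT : R < ∏ p ∈ T, (p : ℝ)) :
    sr S R T = 0 := by
  have e : (S \ T).powerset.filter
      (fun U : Finset ℕ => (∏ p ∈ T, (p : ℝ)) * (∏ p ∈ U, (p : ℝ)) ≤ R) = ∅ := by
    refine Finset.filter_eq_empty_iff.2 fun U hU hle => ?_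
    have hUS : U ⊆ S := (Finset.mem_powerset.1 hU).trans Finset.sdiff_subset
    have h1 := SELa_one_le hS hUS
    have h0 : (0 : ℝ) ≤ ∏ p ∈ T, (p : ℝ) := Finset.prod_nonneg fun p _ => Nat.cast_nonneg p
    have h2 : (∏ p ∈ T, (p : ℝ)) * 1 ≤ (∏ p ∈ T, (p : ℝ)) * (∏ p ∈ U, (p : ℝ)) :=
      mul_le_mul_of_nonneg_left h1 h0
    linarith
  unfold sr
  rw [e, Finset.sum_empty, mul_zero, zero_div]

theorem SEL_le (S : Finset ℕ) (R : ℝ) (hR : 1 ≤ R) (hS : ∀ p ∈ S, p.Prime) (T : Finset ℕ) (hT : T ⊆ S) :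
    |sr S R T| ≤ 1 := by
  have hG := SELa_sG_pos hR hS
  obtain ⟨F, hF⟩ : ∃ F, F = (S \ T).powerset.filter
      (fun U : Finset ℕ => (∏ p ∈ T, (p : ℝ)) * (∏ p ∈ U, (p : ℝ)) ≤ R) := ⟨_, rfl⟩
  have hFU : ∀ U ∈ F, U ⊆ S \ T ∧ (∏ p ∈ T, (p : ℝ)) * (∏ p ∈ U, (p : ℝ)) ≤ R := by
    intro U hU
    rw [hF] at hU
    exact ⟨Finset.mem_powerset.1 (Finset.mem_filter.1 hU).1, (Finset.mem_filter.1 hU).2⟩
  have hF0 : 0 ≤ ∑ U ∈ F, sa U :=
    Finset.sum_nonneg fun U hU => SELa_sa_nonneg hS ((hFU U hU).1.trans Finset.sdiff_subset)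
  have hprod : ∏ p ∈ T, ((p : ℝ) / ((p : ℝ) - 1)) = ∑ K ∈ T.powerset, sa K := by
    have e1 : ∏ p ∈ T, ((p : ℝ) / ((p : ℝ) - 1)) = ∏ p ∈ T, (1 + 1 / ((p : ℝ) - 1)) := by
      refine Finset.prod_congr rfl fun p hp => ?_
      have h1 := SELa_pos (hS p (hT hp))
      field_simp
      ring
    rw [e1, Finset.prod_one_add]
    rfl
  have hprod0 : 0 ≤ ∏ p ∈ T, ((p : ℝ) / ((p : ℝ) - 1)) := by
    rw [hprod]
    exact Finset.sum_nonneg fun K hK => SELa_sa_nonneg hS ((Finset.mem_powerset.1 hK).trans hT)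
  have key : (∏ p ∈ T, ((p : ℝ) / ((p : ℝ) - 1))) * (∑ U ∈ F, sa U) ≤ sG S R := by
    rw [hprod, Finset.sum_mul_sum, ← Finset.sum_product']
    have hinj : Set.InjOn (fun q : Finset ℕ × Finset ℕ => q.1 ∪ q.2) (T.powerset ×ˢ F : Finset _) := by
      rintro ⟨K, U⟩ h1 ⟨K', U'⟩ h2 h3
      have h1' := Finset.mem_product.1 (Finset.mem_coe.1 h1)
      have h2' := Finset.mem_product.1 (Finset.mem_coe.1 h2)
      have k1 := Finset.mem_powerset.1 h1'.1
      have k2 := Finset.mem_powerset.1 h2'.1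
      have u1 := (hFU _ h1'.2).1
      have u2 := (hFU _ h2'.2).1
      simp only at h3 k1 k2 u1 u2
      have d : ∀ x, x ∈ K ∪ U ↔ x ∈ K' ∪ U' := fun x => by rw [h3]
      refine Prod.ext (Finset.ext fun x => ?_) (Finset.ext fun x => ?_)
      · have hx := d x
        rw [Finset.mem_union, Finset.mem_union] at hx
        constructor
        · intro hK
          rcases hx.1 (Or.inl hK) with h | h
          · exact h
          · exact absurd (k1 hK) (Finset.mem_sdiff.1 (u2 h)).2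
        · intro hK
          rcases hx.2 (Or.inl hK) with h | h
          · exact h
          · exact absurd (k2 hK) (Finset.mem_sdiff.1 (u1 h)).2
      · have hx := d x
        rw [Finset.mem_union, Finset.mem_union] at hx
        constructor
        · intro hU
          rcases hx.1 (Or.inr hU) with h | h
          · exact absurd (k2 h) (Finset.mem_sdiff.1 (u1 hU)).2
          · exact h
        · intro hU
          rcases hx.2 (Or.inr hU) with h | h
          · exact absurd (k1 h) (Finset.mem_sdiff.1 (u2 hU)).2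
          · exact h
    have hsum : ∑ q ∈ T.powerset ×ˢ F, sa q.1 * sa q.2 =
        ∑ U ∈ (T.powerset ×ˢ F).image (fun q : Finset ℕ × Finset ℕ => q.1 ∪ q.2), sa U := by
      rw [Finset.sum_image hinj]
      refine Finset.sum_congr rfl fun q hq => ?_
      have hq' := Finset.mem_product.1 hq
      have k1 := Finset.mem_powerset.1 hq'.1
      have u1 := (hFU _ hq'.2).1
      unfold sa
      rw [Finset.prod_union]
      exact Finset.disjoint_left.2 fun x hx hx' => (Finset.mem_sdiff.1 (u1 hx')).2 (k1 hx)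
    rw [hsum]
    unfold sG
    refine Finset.sum_le_sum_of_subset_of_nonneg ?_ fun U hU _ => ?_
    · intro V hV
      obtain ⟨q, hq, rfl⟩ := Finset.mem_image.1 hV
      have hq' := Finset.mem_product.1 hq
      have k1 := Finset.mem_powerset.1 hq'.1
      obtain ⟨u1, u2⟩ := hFU _ hq'.2
      refine Finset.mem_filter.2 ⟨Finset.mem_powerset.2 ?_, ?_⟩
      · exact Finset.union_subset (k1.trans hT) (u1.trans Finset.sdiff_subset)
      · rw [Finset.prod_union (Finset.disjoint_left.2 fun x hx hx' =>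
          (Finset.mem_sdiff.1 (u1 hx')).2 (k1 hx))]
        have hKT : ∏ p ∈ q.1, (p : ℝ) ≤ ∏ p ∈ T, (p : ℝ) := by
          rw [← Finset.prod_sdiff k1]
          have h1 := SELa_one_le hS ((Finset.sdiff_subset (s := T) (t := q.1)).trans hT)
          have h0 : (0 : ℝ) ≤ ∏ p ∈ q.1, (p : ℝ) := Finset.prod_nonneg fun p _ => Nat.cast_nonneg p
          exact le_mul_of_one_le_left h0 h1
        have h0 : (0 : ℝ) ≤ ∏ p ∈ q.2, (p : ℝ) := Finset.prod_nonneg fun p _ => Nat.cast_nonneg p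
        exact (mul_le_mul_of_nonneg_right hKT h0).trans u2
    · exact SELa_sa_nonneg hS (Finset.mem_powerset.1 (Finset.mem_filter.1 hU).1)
  have e : |sr S R T| = (∏ p ∈ T, ((p : ℝ) / ((p : ℝ) - 1))) * (∑ U ∈ F, sa U) / sG S R := by
    unfold sr
    rw [← hF, abs_div, abs_mul, abs_mul, abs_pow, abs_neg, abs_one, one_pow, one_mul,
      abs_of_nonneg hprod0, abs_of_nonneg hF0, abs_of_pos hG]
  rw [e, div_le_one hG]
  exact key

end Pool.Agent.H96.FL
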