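import Pool.Agent.H96.FL.TDf
import Pool.Agent.H96.FL.SELa

/-!
# GPp: Richert's weight is positive only at integers with at most three prime factors

`z = x^δ`, `z₁ = x^(1/20)`, `y = x^(9/20)`, `P = PI z (x^(1/2))`. All terms of the sum are `≥ 0` (`0 ≤ gw ≤ 1`): `GPp_le`. Let `n` have no prime factor `≤ z`, `0 < n ≤ 2x`.
* If some `p ∈ PI z z₁` divides `n`, let `p` be the smallest one: no `q ∈ gS x δ p` divides `n`, so `pf (gS x δ p) (sr ..) n = sr .. ∅ = 1` (`SEL_one`; only `T = ∅` contributes), `gw x p = 1`: the sum is `≥ 1`.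
* Otherwise for all `p ∈ PI z₁ y` with `p ∣ n` (`gS x δ p = PI z (x^(gt (gj x p)))`, `gt ≤ 1/20`) again `pf .. n = 1`, so the sum is `(113/200) ∑_{p ∣ n, z₁ < p ≤ y} (1 - log p/log y)` (`p ≤ y ≤ x^(1/2)`; prime factors of `n` in `(z, z₁]` do not exist). If no square of a prime `> z` divides `n` then `n` is squarefree (no prime factor `≤ z`), `n = ∏_{p∣n} p`; the omitted terms (`p > y`) are `≤ 0`, so
  `∑_{p ∣ n, z₁ < p ≤ y} (1 - log p/log y) ≥ ∑_{p ∣ n} (1 - log p/log y) = Ω(n) - log n/log y ≥ 4 - (log x + log 2)/((9/20) log x) ≥ 200/113` for large `x` if `Ω(n) ≥ 4` (`4 - 20/9 = 1.7777 > 1.76991 = 200/113`).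
-/

set_option autoImplicit false

namespace Pool.Agent.H96.FL

open Finset Pool.Agent.H17 Pool.Agent.H6.MF Pool.Agent.H6.MB Pool.Agent.H12.DM

theorem GPp_w (x : ℝ) (hx : 1 < x) (p : ℕ) (hp : p.Prime) : 0 ≤ gw x p ∧ gw x p ≤ 1 := by
  have hx0 : 0 < x := by linarith
  have hL : 0 < Real.log x := Real.log_pos hx
  have hly : Real.log (x ^ (9 / 20 : ℝ)) = 9 / 20 * Real.log x := Real.log_rpow hx0 _
  have hly0 : 0 < Real.log (x ^ (9 / 20 : ℝ)) := by rw [hly]; positivity
  have hp0 : (0 : ℝ) < p := by exact_mod_cast hp.pos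
  have hlp : 0 ≤ Real.log p := Real.log_natCast_nonneg p
  unfold gw
  split_ifs with h1 h2
  · exact ⟨zero_le_one, le_rfl⟩
  · have h3 : Real.log p / Real.log (x ^ (9 / 20 : ℝ)) ≤ 1 := by
      rw [div_le_one hly0]
      exact Real.log_le_log hp0 h2
    have h4 : 0 ≤ Real.log p / Real.log (x ^ (9 / 20 : ℝ)) := by positivity
    constructor <;> nlinarith
  · exact ⟨le_rfl, zero_le_one⟩

private lemma GPp_pf {S : Finset ℕ} {c : Finset ℕ → ℝ} {n : ℤ} (h : ∀ q ∈ S, ¬ (q : ℤ) ∣ n) : pf S c n = c ∅ := by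
  unfold pf
  rw [Finset.sum_eq_single_of_mem ∅ (Finset.empty_mem_powerset S)]
  · simp
  · intro T hT hne
    rw [Finset.mem_powerset] at hT
    obtain ⟨q, hq⟩ := Finset.nonempty_iff_ne_empty.2 hne
    rw [if_neg (fun h' => h q (hT hq) (h' q hq)), mul_zero]

private lemma GPp_mem {w z : ℝ} {p : ℕ} (hz : 0 ≤ z) : p ∈ PI w z ↔ p.Prime ∧ w < (p : ℝ) ∧ (p : ℝ) ≤ z := by
  unfold PI
  rw [Finset.mem_filter, Finset.mem_range, Nat.lt_succ_iff, Nat.le_floor_iff hz]
  tauto

private lemma GPp_gS {δ x : ℝ} (hx : 1 < x) {p : ℕ} : ∀ q ∈ gS x δ p, q ∈ PI (x ^ δ) (x ^ (1 / 20 : ℝ)) ∧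
    ((p : ℝ) ≤ x ^ (1 / 20 : ℝ) → q < p) := by
  have hx0 : 0 < x := by linarith
  intro q hq
  unfold gS at hq
  split_ifs at hq with h1
  · rw [Finset.mem_filter] at hq
    exact ⟨hq.1, fun _ => hq.2⟩
  · refine ⟨?_, fun h => absurd h h1⟩
    rw [GPp_mem (Real.rpow_pos_of_pos hx0 _).le] at hq ⊢
    exact ⟨hq.1, hq.2.1, hq.2.2.trans (Real.rpow_le_rpow_of_exponent_le hx.le (min_le_left _ _))⟩

private lemma GPp_gR {x : ℝ} (hx : 1 < x) {p : ℕ} (hp : p.Prime) : 1 ≤ gR x p := by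
  have hx0 : 0 < x := by linarith
  have hL : 0 < Real.log x := Real.log_pos hx
  have hp0 : (0 : ℝ) < p := by exact_mod_cast hp.pos
  unfold gR
  split_ifs with h1 h2
  · have h2 : (p : ℝ) ≤ x ^ (499 / 1000 : ℝ) := h1.trans (Real.rpow_le_rpow_of_exponent_le hx.le (by norm_num))
    exact Real.one_le_rpow (by rw [le_div_iff₀ hp0]; linarith) (by norm_num)
  · have h3 : Real.log p ≤ 9 / 20 * Real.log x := by
      have := Real.log_le_log hp0 h2
      rwa [Real.log_rpow hx0] at this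
    push Not at h1
    have h4 : 1 / 20 * Real.log x < Real.log p := by
      have := Real.log_lt_log (Real.rpow_pos_of_pos hx0 _) h1
      rwa [Real.log_rpow hx0] at this
    have h5 : 1 < 20 * Real.log p / Real.log x := by
      rw [lt_div_iff₀ hL]; linarith
    have h6 : 20 * Real.log p / Real.log x ≤ 9 := by
      rw [div_le_iff₀ hL]; linarith
    have h7 : ⌈20 * Real.log p / Real.log x⌉₊ ≤ 9 := by
      rw [Nat.ceil_le]; exact_mod_cast h6
    have h9 : (gj x p : ℝ) ≤ 8 := by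
      have : gj x p ≤ 8 := by unfold gj; omega
      exact_mod_cast this
    exact Real.one_le_rpow hx.le (by linarith)
  · exact le_rfl

private lemma GPp_one {δ x : ℝ} (hx : 1 < x) {p : ℕ} (hp : p.Prime) {n : ℤ} (h : ∀ q ∈ gS x δ p, ¬ (q : ℤ) ∣ n) :
    pf (gS x δ p) (sr (gS x δ p) (gR x p)) n = 1 := by
  have hx0 : 0 < x := by linarith
  rw [GPp_pf h, SEL_one _ _ (GPp_gR hx hp)]
  intro q hq
  have := (GPp_gS hx q hq).1
  rw [GPp_mem (Real.rpow_pos_of_pos hx0 _).le] at this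
  exact this.1

/-- squarefree integers: number of prime factors and logarithm -/
private lemma GPp_sqf {N : ℕ} (hN : Squarefree N) : ArithmeticFunction.cardFactors N = N.primeFactors.card ∧
    Real.log N = ∑ p ∈ N.primeFactors, Real.log p := by
  constructor
  · have h1 := (ArithmeticFunction.cardDistinctFactors_eq_cardFactors_iff_squarefree hN.ne_zero).2 hN
    rw [← h1]
    rfl
  · have h1 := Nat.prod_primeFactors_of_squarefree hN
    conv_lhs => rw [← h1]
    push_cast
    rw [Real.log_prod]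
    intro p hp
    have := (Nat.prime_of_mem_primeFactors hp).pos
    exact_mod_cast this.ne'

open scoped Classical in
theorem GPp (δ : ℝ) (hδ : 0 < δ) (hδ1 : δ ≤ 1 / 200) : ∃ X : ℝ, ∀ x : ℝ, X ≤ x → ∀ n : ℤ, 0 < n → (n : ℝ) ≤ 2 * x →
    (∀ p : ℕ, p.Prime → (p : ℝ) ≤ x ^ δ → ¬ (p : ℤ) ∣ n) →
    1 - ∑ p ∈ PI (x ^ δ) (x ^ (1 / 2 : ℝ)),
        gw x p * (if (p : ℤ) ∣ n then pf (gS x δ p) (sr (gS x δ p) (gR x p)) n ^ 2 else 0) ≤
      if q3 x δ n then 1 else 0 := by
  obtain ⟨X, hX⟩ := Filter.eventually_atTop.1 ((Real.tendsto_log_atTop.eventually_ge_atTop 1000).and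
    (Filter.eventually_ge_atTop (2 : ℝ)))
  refine ⟨X, fun x hxX n hn hn2 hr => ?_⟩
  obtain ⟨hL, hx2⟩ := hX x hxX
  have hx : 1 < x := by linarith
  have hx0 : 0 < x := by linarith
  have hpos : ∀ e : ℝ, 0 ≤ x ^ e := fun e => (Real.rpow_pos_of_pos hx0 e).le
  have hmon : ∀ e e' : ℝ, e ≤ e' → x ^ e ≤ x ^ e' := fun e e' h => Real.rpow_le_rpow_of_exponent_le hx.le h
  have hterm : ∀ p ∈ PI (x ^ δ) (x ^ (1 / 2 : ℝ)),
      0 ≤ gw x p * (if (p : ℤ) ∣ n then pf (gS x δ p) (sr (gS x δ p) (gR x p)) n ^ 2 else 0) := by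
    intro p hp
    rw [GPp_mem (hpos _)] at hp
    refine mul_nonneg (GPp_w x hx p hp.1).1 ?_
    split_ifs
    · exact sq_nonneg _
    · exact le_rfl
  have hsum0 := Finset.sum_nonneg hterm
  have hr0 : (0 : ℝ) ≤ if q3 x δ n then 1 else 0 := by split_ifs <;> norm_num
  by_cases hA : ∃ p : ℕ, p ∈ PI (x ^ δ) (x ^ (1 / 20 : ℝ)) ∧ (p : ℤ) ∣ n
  · obtain ⟨hp, hpn⟩ := Nat.find_spec hA
    set p := Nat.find hA with hpdef
    have hp' := (GPp_mem (hpos _)).1 hp
    have hpP : p ∈ PI (x ^ δ) (x ^ (1 / 2 : ℝ)) := by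
      rw [GPp_mem (hpos _)]
      exact ⟨hp'.1, hp'.2.1, hp'.2.2.trans (hmon _ _ (by norm_num))⟩
    have h1 : pf (gS x δ p) (sr (gS x δ p) (gR x p)) n = 1 := by
      apply GPp_one hx hp'.1
      intro q hq hqn
      have h2 := GPp_gS hx q hq
      exact Nat.find_min hA (h2.2 hp'.2.2) ⟨h2.1, hqn⟩
    have h2 : gw x p = 1 := by
      unfold gw
      rw [if_pos hp'.2.2]
    have h3 := Finset.single_le_sum hterm hpP
    rw [h2, if_pos hpn, h1] at h3
    linarith
  · push Not at hA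
    by_cases hq : q3 x δ n
    · rw [if_pos hq]
      linarith
    · rw [if_neg hq]
      -- all prime factors are larger than `x^(1/20)`
      have hbig : ∀ p : ℕ, p.Prime → (p : ℤ) ∣ n → x ^ (1 / 20 : ℝ) < (p : ℝ) := by
        intro p hp hpn
        by_contra hcon
        push Not at hcon
        rcases le_or_gt (p : ℝ) (x ^ δ) with h | h
        · exact hr p hp h hpn
        · exact hA p ((GPp_mem (hpos _)).2 ⟨hp, h, hcon⟩) hpn
      obtain ⟨N, hN⟩ : ∃ N : ℕ, n = (N : ℤ) := ⟨n.toNat, by omega⟩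
      have hN0 : 0 < N := by omega
      have hdvd : ∀ p : ℕ, (p : ℤ) ∣ n ↔ p ∣ N := by
        intro p
        rw [hN, Int.natCast_dvd_natCast]
      have hq' : ¬ (P3 x n ∨ ∃ p : ℕ, p.Prime ∧ x ^ δ < (p : ℝ) ∧ ((p : ℤ) ^ 2 ∣ n)) := fun h => hq ⟨hr, h⟩
      push Not at hq'
      obtain ⟨hq1, hq2⟩ := hq'
      have hsq : Squarefree N := by
        rw [Nat.squarefree_iff_prime_squarefree]
        intro p hp hpp
        have h1 : p ∣ N := (Dvd.intro p rfl).trans hpp
        have h2 : x ^ δ < (p : ℝ) := lt_of_le_of_lt (hmon _ _ (by linarith)) (hbig p hp ((hdvd p).2 h1))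
        apply hq2 p hp h2
        rw [hN]
        have : ((p * p : ℕ) : ℤ) ∣ (N : ℤ) := Int.natCast_dvd_natCast.2 hpp
        push_cast at this
        rwa [pow_two]
      obtain ⟨hc, hl⟩ := GPp_sqf hsq
      have hcard : 4 ≤ N.primeFactors.card := by
        by_contra hcon
        apply hq1
        unfold P3
        refine ⟨hn, ?_, hbig⟩
        rw [hN, Int.toNat_natCast, hc]
        omega
      set y : ℝ := x ^ (9 / 20 : ℝ) with hy
      have hly : Real.log y = 9 / 20 * Real.log x := Real.log_rpow hx0 _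
      have hly0 : 0 < Real.log y := by rw [hly]; linarith
      have hmemF : ∀ p ∈ N.primeFactors, p.Prime ∧ (p : ℤ) ∣ n ∧ x ^ (1 / 20 : ℝ) < (p : ℝ) := by
        intro p hp
        have h1 := Nat.prime_of_mem_primeFactors hp
        have h2 : (p : ℤ) ∣ n := (hdvd p).2 (Nat.dvd_of_mem_primeFactors hp)
        exact ⟨h1, h2, hbig p h1 h2⟩
      set F : Finset ℕ := N.primeFactors.filter (fun p => (p : ℝ) ≤ y) with hF
      have hFP : F ⊆ PI (x ^ δ) (x ^ (1 / 2 : ℝ)) := by
        intro p hp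
        rw [hF, Finset.mem_filter] at hp
        obtain ⟨h1, h2, h3⟩ := hmemF p hp.1
        rw [GPp_mem (hpos _)]
        exact ⟨h1, lt_of_le_of_lt (hmon _ _ (by linarith)) h3, hp.2.trans (hmon _ _ (by norm_num))⟩
      have hval : ∀ p ∈ F, gw x p * (if (p : ℤ) ∣ n then pf (gS x δ p) (sr (gS x δ p) (gR x p)) n ^ 2 else 0) =
          113 / 200 * (1 - Real.log p / Real.log y) := by
        intro p hp
        rw [hF, Finset.mem_filter] at hp
        obtain ⟨h1, h2, h3⟩ := hmemF p hp.1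
        have h4 : pf (gS x δ p) (sr (gS x δ p) (gR x p)) n = 1 := by
          apply GPp_one hx h1
          intro q hq' hqn
          exact hA q (GPp_gS hx q hq').1 hqn
        rw [if_pos h2, h4]
        unfold gw
        rw [if_neg (not_le.2 h3), if_pos hp.2]
        ring
      have h1 : ∑ p ∈ F, 113 / 200 * (1 - Real.log p / Real.log y) ≤
          ∑ p ∈ PI (x ^ δ) (x ^ (1 / 2 : ℝ)),
            gw x p * (if (p : ℤ) ∣ n then pf (gS x δ p) (sr (gS x δ p) (gR x p)) n ^ 2 else 0) := by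
        rw [← Finset.sum_congr rfl hval]
        exact Finset.sum_le_sum_of_subset_of_nonneg hFP fun p hp _ => hterm p hp
      have h2 : ∑ p ∈ N.primeFactors, 113 / 200 * (1 - Real.log p / Real.log y) ≤
          ∑ p ∈ F, 113 / 200 * (1 - Real.log p / Real.log y) := by
        rw [hF, ← Finset.sum_filter_add_sum_filter_not N.primeFactors (fun p : ℕ => (p : ℝ) ≤ y)]
        have h3 : ∑ p ∈ N.primeFactors.filter (fun p : ℕ => ¬ (p : ℝ) ≤ y),
            113 / 200 * (1 - Real.log p / Real.log y) ≤ 0 := by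
          apply Finset.sum_nonpos
          intro p hp
          rw [Finset.mem_filter] at hp
          have hy0 : 0 < y := Real.rpow_pos_of_pos hx0 _
          have h4 : Real.log y ≤ Real.log p := Real.log_le_log hy0 (not_le.1 hp.2).le
          have h5 : 1 ≤ Real.log p / Real.log y := by rw [le_div_iff₀ hly0]; linarith
          linarith
        linarith
      have h3 : ∑ p ∈ N.primeFactors, 113 / 200 * (1 - Real.log p / Real.log y) =
          113 / 200 * ((N.primeFactors.card : ℝ) - Real.log N / Real.log y) := by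
        rw [← Finset.mul_sum, Finset.sum_sub_distrib, Finset.sum_const, nsmul_eq_mul, mul_one, ← Finset.sum_div, ← hl]
      have h4 : Real.log N ≤ Real.log x + 1 := by
        have h5 : (N : ℝ) ≤ 2 * x := by
          have : (n : ℝ) = (N : ℝ) := by rw [hN]; norm_cast
          rw [← this]; exact hn2
        have h6 : (0 : ℝ) < N := by exact_mod_cast hN0
        have h7 := Real.log_le_log h6 h5
        rw [Real.log_mul (by norm_num) hx0.ne'] at h7
        have h8 := Real.log_two_lt_d9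
        linarith
      have h5 : Real.log N / Real.log y ≤ 20 / 9 + 1 / 400 := by
        rw [div_le_iff₀ hly0, hly]
        linarith
      have h6 : (4 : ℝ) ≤ (N.primeFactors.card : ℝ) := by exact_mod_cast hcard
      linarith

end Pool.Agent.H96.FL
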