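import Pool.Agent.H96.FL.GPk
import Pool.Agent.H96.FL.GPm
import Pool.Agent.H96.FL.GPn
import Pool.Agent.H96.FL.GPp

/-!
# GP: the lower bound sieve with at most three prime factors

`GPk` with `P = PI (x^δ) (x^(1/2))`, `S = gS x δ`, `R = gR x`, `w = gw x`, `Y = x^(1/2 - 1/1000)`. Hypotheses for `p ∈ P` with `gw x p ≠ 0` (so `p ≤ x^(9/20)`): `gS x δ p ⊆ P` with all elements `< p` (first case by definition; second case `q ≤ x^(gt j) ≤ x^(1/20) < p`); `gR x p ≥ 1` (`p ≤ x^(1/20)`: `x^θ/p ≥ 1`; otherwise `j = gj x p ≤ 8`, `(j+1)/20 ≤ 9/20 < θ`);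
`p (gR x p)² ≤ x^θ` (equality in the first case; `p ≤ x^((j+1)/20)` in the second: `20 log p/log x ≤ ⌈...⌉ = j + 1`). `0 ≤ w ≤ 1`: `GPp_w`. `∑_{p∈P} = ∑_{PI z (x^(1/20))} + ∑_{PI (x^(1/20)) (x^(9/20))} + ∑_{PI (x^(9/20)) (x^(1/2))}`, `gw = 1` in the first range, `0` in the last: `GPm`, `GPn`: `1 - ∑ ≥ (39/2) δ - (94/5) δ ≥ δ/2`.
-/

set_option autoImplicit false

namespace Pool.Agent.H96.FL

open Finset Pool.Agent.H17 Pool.Agent.H6.MF Pool.Agent.H6.MB Pool.Agent.H12.DM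

private lemma GP_mem_PI {w z : ℝ} (hz : 0 ≤ z) {p : ℕ} : p ∈ PI w z ↔ p.Prime ∧ w < (p : ℝ) ∧ (p : ℝ) ≤ z := by
  unfold PI
  rw [Finset.mem_filter, Finset.mem_range, Nat.lt_succ_iff, Nat.le_floor_iff hz]
  tauto

/-- the shape of a prime with nonzero weight -/
private lemma GP_w_ne {x : ℝ} {p : ℕ} (h : gw x p ≠ 0) : (p : ℝ) ≤ x ^ (9 / 20 : ℝ) ∨ (p : ℝ) ≤ x ^ (1 / 20 : ℝ) := by
  unfold gw at h
  split_ifs at h with h1 h2
  · exact Or.inr h1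
  · exact Or.inl h2
  · exact absurd rfl h

private lemma GP_gj {x : ℝ} (hx : 1 < x) {p : ℕ} (h1 : ¬ (p : ℝ) ≤ x ^ (1 / 20 : ℝ)) (h2 : (p : ℝ) ≤ x ^ (9 / 20 : ℝ)) :
    ((gj x p : ℝ) + 1) ≤ 9 ∧ (p : ℝ) ≤ x ^ (((gj x p : ℝ) + 1) / 20) := by
  have hx0 : 0 < x := by linarith
  have hL : 0 < Real.log x := Real.log_pos hx
  push Not at h1
  have hp0 : (0 : ℝ) < p := lt_trans (Real.rpow_pos_of_pos hx0 _) h1
  have h3 : Real.log p ≤ 9 / 20 * Real.log x := by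
    have := Real.log_le_log hp0 h2
    rwa [Real.log_rpow hx0] at this
  have h4 : 1 / 20 * Real.log x < Real.log p := by
    have := Real.log_lt_log (Real.rpow_pos_of_pos hx0 _) h1
    rwa [Real.log_rpow hx0] at this
  have h5 : 1 < 20 * Real.log p / Real.log x := by
    rw [lt_div_iff₀ hL]; linarith
  have h6 : 20 * Real.log p / Real.log x ≤ 9 := by
    rw [div_le_iff₀ hL]; linarith
  have h7 : ⌈20 * Real.log p / Real.log x⌉₊ ≤ 9 := by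
    rw [Nat.ceil_le]; exact_mod_cast h6
  have h8 : 1 ≤ ⌈20 * Real.log p / Real.log x⌉₊ := by
    rw [Nat.one_le_ceil_iff]; linarith
  have h9 : ((gj x p : ℝ) + 1) = (⌈20 * Real.log p / Real.log x⌉₊ : ℝ) := by
    unfold gj
    rw [Nat.cast_sub h8]
    push_cast
    ring
  refine ⟨?_, ?_⟩
  · rw [h9]; exact_mod_cast h7
  · rw [h9]
    have h10 : 20 * Real.log p / Real.log x ≤ (⌈20 * Real.log p / Real.log x⌉₊ : ℝ) := Nat.le_ceil _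
    rw [div_le_iff₀ hL] at h10
    rw [← Real.log_le_log_iff hp0 (Real.rpow_pos_of_pos hx0 _), Real.log_rpow hx0]
    linarith

private lemma GP_gt_le (j : ℕ) : gt j ≤ 1 / 20 := min_le_left _ _

private lemma GP_hS {δ x : ℝ} (hx : 1 < x) {p : ℕ} (_hw : gw x p ≠ 0) :
    gS x δ p ⊆ PI (x ^ δ) (x ^ (1 / 2 : ℝ)) ∧ ∀ q ∈ gS x δ p, q < p := by
  have hx0 : 0 < x := by linarith
  have hp20 : ∀ e : ℝ, 0 ≤ x ^ e := fun e => (Real.rpow_pos_of_pos hx0 e).le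
  have hmono : ∀ e : ℝ, e ≤ 1 / 20 → PI (x ^ δ) (x ^ e) ⊆ PI (x ^ δ) (x ^ (1 / 2 : ℝ)) := by
    intro e he q hq
    rw [GP_mem_PI (hp20 _)] at hq ⊢
    exact ⟨hq.1, hq.2.1, hq.2.2.trans (Real.rpow_le_rpow_of_exponent_le hx.le (by linarith))⟩
  unfold gS
  by_cases h1 : (p : ℝ) ≤ x ^ (1 / 20 : ℝ)
  · rw [if_pos h1]
    refine ⟨(Finset.filter_subset _ _).trans (hmono _ le_rfl), fun q hq => ?_⟩
    exact (Finset.mem_filter.1 hq).2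
  · rw [if_neg h1]
    refine ⟨hmono _ (GP_gt_le _), fun q hq => ?_⟩
    rw [GP_mem_PI (hp20 _)] at hq
    have h2 : (q : ℝ) ≤ x ^ (1 / 20 : ℝ) := hq.2.2.trans (Real.rpow_le_rpow_of_exponent_le hx.le (GP_gt_le _))
    push Not at h1
    exact_mod_cast lt_of_le_of_lt h2 h1

private lemma GP_hR {x : ℝ} (hx : 1 < x) {p : ℕ} (hp : p.Prime) (hw : gw x p ≠ 0) :
    1 ≤ gR x p ∧ (p : ℝ) * gR x p ^ 2 ≤ x ^ (1 / 2 - 1 / 1000 : ℝ) := by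
  have hx0 : 0 < x := by linarith
  have hp0 : (0 : ℝ) < p := by exact_mod_cast hp.pos
  unfold gR
  by_cases h1 : (p : ℝ) ≤ x ^ (1 / 20 : ℝ)
  · rw [if_pos h1]
    have h2 : (p : ℝ) ≤ x ^ (499 / 1000 : ℝ) := h1.trans (Real.rpow_le_rpow_of_exponent_le hx.le (by norm_num))
    have h3 : 1 ≤ x ^ (499 / 1000 : ℝ) / p := by rw [le_div_iff₀ hp0]; linarith
    refine ⟨Real.one_le_rpow h3 (by norm_num), ?_⟩
    rw [← Real.rpow_natCast, ← Real.rpow_mul (by linarith)]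
    norm_num
    rw [mul_div_cancel₀ _ hp0.ne']
  · rw [if_neg h1]
    have h2 : (p : ℝ) ≤ x ^ (9 / 20 : ℝ) := by
      rcases GP_w_ne hw with h | h
      · exact h
      · exact absurd h h1
    rw [if_pos h2]
    obtain ⟨h3, h4⟩ := GP_gj hx h1 h2
    refine ⟨Real.one_le_rpow hx.le (by linarith), ?_⟩
    rw [← Real.rpow_natCast, ← Real.rpow_mul hx0.le]
    have h5 : x ^ (1 / 2 - 1 / 1000 : ℝ) = x ^ (((gj x p : ℝ) + 1) / 20) *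
        x ^ ((499 / 1000 - ((gj x p : ℝ) + 1) / 20) / 2 * ((2 : ℕ) : ℝ)) := by
      rw [← Real.rpow_add hx0]
      congr 1
      push_cast
      ring
    rw [h5]
    exact mul_le_mul_of_nonneg_right h4 (Real.rpow_pos_of_pos hx0 _).le

/-- splitting the sum over the primes -/
private lemma GP_split {δ x : ℝ} (hx : 1 < x) (hδ1 : δ ≤ 1 / 200) (f : ℕ → ℝ)
    (h0 : ∀ p : ℕ, ¬ (p : ℝ) ≤ x ^ (9 / 20 : ℝ) → f p = 0) :
    ∑ p ∈ PI (x ^ δ) (x ^ (1 / 2 : ℝ)), f p =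
      ∑ p ∈ PI (x ^ δ) (x ^ (1 / 20 : ℝ)), f p + ∑ p ∈ PI (x ^ (1 / 20 : ℝ)) (x ^ (9 / 20 : ℝ)), f p := by
  classical
  have hx0 : 0 < x := by linarith
  have hp20 : ∀ e : ℝ, 0 ≤ x ^ e := fun e => (Real.rpow_pos_of_pos hx0 e).le
  have hmon : ∀ e e' : ℝ, e ≤ e' → x ^ e ≤ x ^ e' := fun e e' h => Real.rpow_le_rpow_of_exponent_le hx.le h
  rw [← Finset.sum_filter_add_sum_filter_not (PI (x ^ δ) (x ^ (1 / 2 : ℝ))) (fun p : ℕ => (p : ℝ) ≤ x ^ (1 / 20 : ℝ))]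
  congr 1
  · apply Finset.sum_congr _ fun _ _ => rfl
    ext p
    rw [Finset.mem_filter, GP_mem_PI (hp20 _), GP_mem_PI (hp20 _)]
    constructor
    · rintro ⟨⟨a, b, c⟩, d⟩
      exact ⟨a, b, d⟩
    · rintro ⟨a, b, c⟩
      exact ⟨⟨a, b, c.trans (hmon _ _ (by norm_num))⟩, c⟩
  · symm
    apply Finset.sum_subset
    · intro p hp
      rw [GP_mem_PI (hp20 _)] at hp
      rw [Finset.mem_filter, GP_mem_PI (hp20 _)]
      exact ⟨⟨hp.1, lt_of_le_of_lt (hmon _ _ (by linarith)) hp.2.1, hp.2.2.trans (hmon _ _ (by norm_num))⟩,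
        not_le.2 hp.2.1⟩
    · intro p hp hn
      rw [Finset.mem_filter, GP_mem_PI (hp20 _)] at hp
      rw [GP_mem_PI (hp20 _)] at hn
      apply h0
      intro h
      exact hn ⟨hp.1.1, not_le.1 hp.2, h⟩

open scoped Classical in
theorem GP (δ : ℝ) (hδ : 0 < δ) (hδ1 : δ ≤ 1 / 200) : ∃ X : ℝ, ∀ x : ℝ, X ≤ x → ∃ c : Finset ℕ → ℝ,
    (∀ T : Finset ℕ, T ⊆ PI (x ^ δ) (x ^ (1 / 2 : ℝ)) → |c T| ≤ 4 ^ T.card) ∧
    (∀ T : Finset ℕ, T ⊆ PI (x ^ δ) (x ^ (1 / 2 : ℝ)) → x ^ (1 / 2 - 1 / 1000 : ℝ) < ∏ p ∈ T, (p : ℝ) → c T = 0) ∧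
    δ / 2 ≤ ∑ T ∈ (PI (x ^ δ) (x ^ (1 / 2 : ℝ))).powerset, c T / ∏ p ∈ T, (p : ℝ) ∧
    ∀ n : ℤ, 0 < n → (n : ℝ) ≤ 2 * x → (∀ p : ℕ, p.Prime → (p : ℝ) ≤ x ^ δ → ¬ (p : ℤ) ∣ n) →
      pf (PI (x ^ δ) (x ^ (1 / 2 : ℝ))) c n ≤ if q3 x δ n then 1 else 0 := by
  obtain ⟨X1, h1⟩ := GPm δ hδ hδ1
  obtain ⟨X2, h2⟩ := GPn δ hδ hδ1
  obtain ⟨X3, h3⟩ := GPp δ hδ hδ1
  refine ⟨max (max X1 X2) (max X3 2), fun x hx => ?_⟩
  have hx1 : X1 ≤ x := le_trans (le_trans (le_max_left _ _) (le_max_left _ _)) hx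
  have hx2 : X2 ≤ x := le_trans (le_trans (le_max_right _ _) (le_max_left _ _)) hx
  have hx3 : X3 ≤ x := le_trans (le_trans (le_max_left _ _) (le_max_right _ _)) hx
  have hx4 : (2 : ℝ) ≤ x := le_trans (le_trans (le_max_right _ _) (le_max_right _ _)) hx
  have hx5 : 1 < x := by linarith
  have hx0 : 0 < x := by linarith
  have hP : ∀ p ∈ PI (x ^ δ) (x ^ (1 / 2 : ℝ)), p.Prime := fun p hp =>
    ((GP_mem_PI (Real.rpow_pos_of_pos hx0 _).le).1 hp).1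
  obtain ⟨c, c1, c2, c3, c4⟩ := GPk (PI (x ^ δ) (x ^ (1 / 2 : ℝ))) hP (gS x δ) (gR x) (gw x)
    (x ^ (1 / 2 - 1 / 1000 : ℝ)) (Real.one_le_rpow hx5.le (by norm_num))
    (fun p _ hw => GP_hS hx5 hw) (fun p hp hw => (GP_hR hx5 (hP p hp) hw).1)
    (fun p hp => GPp_w x hx5 p (hP p hp)) (fun p hp hw => (GP_hR hx5 (hP p hp) hw).2)
  refine ⟨c, c1, c2, ?_, ?_⟩
  · rw [c4, GP_split hx5 hδ1 (fun p => gw x p / (p : ℝ) * (sG (gS x δ p) (gR x p))⁻¹)]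
    · have e1 : ∑ p ∈ PI (x ^ δ) (x ^ (1 / 20 : ℝ)), gw x p / (p : ℝ) * (sG (gS x δ p) (gR x p))⁻¹ =
          ∑ p ∈ PI (x ^ δ) (x ^ (1 / 20 : ℝ)), 1 / (p : ℝ) * (sG (gS x δ p) (gR x p))⁻¹ := by
        apply Finset.sum_congr rfl
        intro p hp
        rw [GP_mem_PI (Real.rpow_pos_of_pos hx0 _).le] at hp
        unfold gw
        rw [if_pos hp.2.2]
      rw [e1]
      have h4 := h1 x hx1
      have h5 := h2 x hx2
      linarith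
    · intro p hp
      have h6 : ¬ (p : ℝ) ≤ x ^ (1 / 20 : ℝ) := fun h => hp (h.trans
        (Real.rpow_le_rpow_of_exponent_le hx5.le (by norm_num)))
      have h7 : gw x p = 0 := by
        unfold gw
        rw [if_neg h6, if_neg hp]
      rw [h7, zero_div, zero_mul]
  · intro n hn hn2 hr
    rw [c3]
    exact h3 x hx3 n hn hn2 hr

end Pool.Agent.H96.FL
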