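import Pool.Agent.H96.FL.UWB
import Pool.Agent.H96.FL.GP

/-!
# UWT: the lower bound with at most three prime factors, weighted form

`UWBd k 4` (in `UWB.lean`; `UWB` with the additional conclusion `δ ≤ δ₀`) with `η = 1/1000`, `ε/2`, `δ₀ = 1/200`; `GP δ` gives `c`; apply it with `c e T = c T` for all `e`, `μ = ∑_T c T/∏T ≥ δ/2`. For `n ∈ JJ x H`, `e ∈ [1, H]` the integer `n - e` is in `(0, 2x]` for large `x`. If `n - e` has a prime factor `≤ x^δ` then `rgh = 0`; otherwise `rgh = (EP 0 z)⁻¹ ≤ log z/c₂ = δ log x/c₂`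
(`mer2`, `z = x^δ`) and `pf c (n-e) ≤ 1[q3]`. So `(δ/c₂) ∑_e ∑_n G (log x if q3 x δ (n-e)) ≥ ∑_e ∑_n G rgh pf c ≥ μ ∑_e ∑_n G Mm - (ε/2) δ N T ≥ (δ/2) (∑_e ∑_n G Mm - ε N T)`, `N = ⌊x⌋₊ + 1`, `T = ∑ sW x (insert e S)`; so `c = c₂/2`.
(`UWB` already gives `δ ≤ 1/320 ≤ 1/200`.)
-/

set_option autoImplicit false

namespace Pool.Agent.H96.FL

open Finset Pool.Agent.H17 Pool.Agent.H6.MF Pool.Agent.H6.MB Pool.Agent.H12.DM Pool.Agent.H6.AE Pool.Agent.H96.AE Pool.Agent.H96.AS Pool.Agent.H96.FD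

theorem UWT_large (δ : ℝ) (hδ : 0 < δ) : ∃ X : ℝ, ∀ x : ℝ, X ≤ x → 1 ≤ x ∧ 1 ≤ Real.log x ∧ (Real.log x) ^ 2 ≤ x ∧
    2 ≤ x ^ δ := by
  have h1 : ∀ᶠ x : ℝ in Filter.atTop, 1 ≤ x := Filter.eventually_ge_atTop 1
  have h2 : ∀ᶠ x : ℝ in Filter.atTop, 1 ≤ Real.log x := Real.tendsto_log_atTop.eventually_ge_atTop 1
  have h3 : ∀ᶠ x : ℝ in Filter.atTop, 2 ≤ x ^ δ := (tendsto_rpow_atTop hδ).eventually_ge_atTop 2
  have h4 := isLittleO_log_rpow_atTop (show (0 : ℝ) < 1 / 2 by norm_num)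
  have h5 : ∀ᶠ x : ℝ in Filter.atTop, ‖Real.log x‖ ≤ 1 * ‖x ^ (1 / 2 : ℝ)‖ := h4.bound one_pos
  obtain ⟨X, hX⟩ := Filter.eventually_atTop.1 (h1.and (h2.and (h3.and h5)))
  refine ⟨X, fun x hx => ?_⟩
  obtain ⟨a1, a2, a3, a4⟩ := hX x hx
  refine ⟨a1, a2, ?_, a3⟩
  rw [one_mul, Real.norm_eq_abs, Real.norm_eq_abs, abs_of_nonneg (by linarith),
    abs_of_nonneg (by positivity)] at a4
  have h6 : (Real.log x) ^ 2 ≤ (x ^ (1 / 2 : ℝ)) ^ 2 := pow_le_pow_left₀ (by linarith) a4 2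
  have h7 : (x ^ (1 / 2 : ℝ)) ^ 2 = x := by
    rw [← Real.rpow_natCast, ← Real.rpow_mul (by linarith)]
    norm_num
  rwa [h7] at h6

open scoped Classical in
/-- `UWT` with a constant `c` which does not depend on `k`, `ε` -/
theorem UWTa : ∃ c : ℝ, 0 < c ∧ ∀ (k : ℕ) (ε : ℝ), 0 < ε → ∃ δ : ℝ, 0 < δ ∧ δ ≤ 1 / 320 ∧ ∃ K X : ℝ, 1 ≤ K ∧
    ∀ x : ℝ, X ≤ x → ∀ H : ℕ, (H : ℝ) ≤ (Real.log x) ^ 2 →
    ∀ S : Finset ℤ, S ⊆ Finset.Icc 1 (H : ℤ) → S.card = k →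
    ∀ G : ℤ → ℝ, (∀ n, 0 ≤ G n) → (∀ n, G n ≤ ∏ c ∈ S, La x (n - c)) →
    ∀ E : Finset ℤ, E ⊆ Finset.Icc 1 (H : ℤ) \ S → K * Real.log x ≤ (E.card : ℝ) → (∀ e ∈ E, adm (insert e S)) →
    c * ((∑ e ∈ E, ∑ n ∈ JJ x H, G (n : ℤ) * Mm (yy x) ((n : ℤ) - e)) -
        ε * ((⌊x⌋₊ : ℝ) + 1) * ∑ e ∈ E, sW x (insert e S)) ≤
      ∑ e ∈ E, ∑ n ∈ JJ x H, G (n : ℤ) * (if q3 x δ ((n : ℤ) - e) then Real.log x else 0) := by
  obtain ⟨c₂, hc₂, hmer⟩ := mer2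
  refine ⟨c₂ / 2, by positivity, fun k ε hε => ?_⟩
  obtain ⟨δ, hδ, hδ320, K, X₁, hK, h1⟩ := UWB k 4 (by norm_num) (1 / 1000) (by norm_num) (by norm_num)
    (ε / 2) (by positivity)
  obtain ⟨X₂, h2⟩ := GP δ hδ (by linarith)
  obtain ⟨X₃, h3⟩ := UWT_large δ hδ
  refine ⟨δ, hδ, hδ320, K, max X₁ (max X₂ X₃), hK,
    fun x hx H hH S hS hSk G hG0 hG E hE hEK hadm => ?_⟩
  simp only [max_le_iff] at hx
  obtain ⟨hx1, hx2, hx3⟩ := hx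
  obtain ⟨c, hc1, hc2, hc3, hc4⟩ := h2 x hx2
  obtain ⟨hxone, hlog, hlog2, hz⟩ := h3 x hx3
  have key := h1 x hx1 H hH S hS hSk G hG0 hG E hE hEK hadm (fun _ => c)
    (fun _ T hT => by
      have := hc1 T hT
      push_cast
      exact this) (fun _ T hT h => hc2 T hT h)
  set μ : ℝ := ∑ T ∈ (PI (x ^ δ) (x ^ (1 / 2 : ℝ))).powerset, c T / ∏ p ∈ T, (p : ℝ) with hμ
  set M0 : ℝ := ∑ e ∈ E, ∑ n ∈ JJ x H, G (n : ℤ) * Mm (yy x) ((n : ℤ) - e) with hM0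
  set N : ℝ := (⌊x⌋₊ : ℝ) + 1 with hN
  set T0 : ℝ := ∑ e ∈ E, sW x (insert e S) with hT0
  set Q0 : ℝ := ∑ e ∈ E, ∑ n ∈ JJ x H, G (n : ℤ) * (if q3 x δ ((n : ℤ) - e) then Real.log x else 0) with hQ0
  have hL0 : 0 < Real.log x := by linarith
  have e1 : ∑ e ∈ E, ∑ n ∈ JJ x H, G (n : ℤ) *
      (rgh x δ ((n : ℤ) - e) * pf (PI (x ^ δ) (x ^ (1 / 2 : ℝ))) c ((n : ℤ) - e) -
        Mm (yy x) ((n : ℤ) - e) * μ) =
      ∑ e ∈ E, ∑ n ∈ JJ x H, G (n : ℤ) *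
        (rgh x δ ((n : ℤ) - e) * pf (PI (x ^ δ) (x ^ (1 / 2 : ℝ))) c ((n : ℤ) - e)) - μ * M0 := by
    rw [hM0, Finset.mul_sum, ← Finset.sum_sub_distrib]
    refine Finset.sum_congr rfl fun e _ => ?_
    rw [Finset.mul_sum, ← Finset.sum_sub_distrib]
    refine Finset.sum_congr rfl fun n _ => ?_
    ring
  have key2 := (abs_le.1 key).1
  rw [e1] at key2
  have hM0nn : 0 ≤ M0 := by
    rw [hM0]
    exact Finset.sum_nonneg fun e _ => Finset.sum_nonneg fun n _ => mul_nonneg (hG0 _) (Mm_nonneg _ _)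
  have hpt : ∀ e ∈ E, ∀ n ∈ JJ x H,
      G (n : ℤ) * (rgh x δ ((n : ℤ) - e) * pf (PI (x ^ δ) (x ^ (1 / 2 : ℝ))) c ((n : ℤ) - e)) ≤
        (δ / c₂) * (G (n : ℤ) * (if q3 x δ ((n : ℤ) - e) then Real.log x else 0)) := by
    intro e he n hn
    have heI := (Finset.mem_sdiff.1 (hE he)).1
    rw [Finset.mem_Icc] at heI
    unfold JJ at hn
    rw [Finset.mem_Ico] at hn
    obtain ⟨n', hn'⟩ : ∃ n' : ℤ, n' = (n : ℤ) - e := ⟨_, rfl⟩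
    have hpos : 0 < n' := by omega
    have hle : (n' : ℝ) ≤ 2 * x := by
      have h5 : n' ≤ (⌊x⌋₊ : ℤ) + (H : ℤ) := by omega
      have h6 : (n' : ℝ) ≤ (⌊x⌋₊ : ℝ) + (H : ℝ) := by exact_mod_cast h5
      have h7 : (⌊x⌋₊ : ℝ) ≤ x := Nat.floor_le (by linarith)
      linarith
    rw [← hn']
    have hq0 : 0 ≤ (if q3 x δ n' then Real.log x else 0) := by
      split_ifs
      · exact hL0.le
      · exact le_rfl
    have hG1 := hG0 (n : ℤ)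
    suffices h : rgh x δ n' * pf (PI (x ^ δ) (x ^ (1 / 2 : ℝ))) c n' ≤
        (δ / c₂) * (if q3 x δ n' then Real.log x else 0) by
      calc G (n : ℤ) * (rgh x δ n' * pf (PI (x ^ δ) (x ^ (1 / 2 : ℝ))) c n') ≤
          G (n : ℤ) * ((δ / c₂) * (if q3 x δ n' then Real.log x else 0)) :=
            mul_le_mul_of_nonneg_left h hG1
        _ = _ := by ring
    by_cases hr : ∀ p : ℕ, p.Prime → (p : ℝ) ≤ x ^ δ → ¬ (p : ℤ) ∣ n'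
    · have h5 : rgh x δ n' = (EP 0 (x ^ δ))⁻¹ := by
        unfold rgh
        rw [if_pos hr]
      have h6 := hc4 n' hpos hle hr
      have h7 : (EP 0 (x ^ δ))⁻¹ ≤ (δ / c₂) * Real.log x := by
        have h8 := hmer (x ^ δ) hz
        rw [Real.log_rpow (by linarith)] at h8
        have h9 : (EP 0 (x ^ δ))⁻¹ ≤ (c₂ / (δ * Real.log x))⁻¹ :=
          inv_anti₀ (by positivity) h8
        rw [inv_div] at h9
        refine h9.trans (le_of_eq ?_)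
        ring
      have h10 : 0 ≤ (EP 0 (x ^ δ))⁻¹ := (inv_pos.2 (EP_pos _ _)).le
      rw [h5]
      refine (mul_le_mul_of_nonneg_left h6 h10).trans ?_
      split_ifs
      · rw [mul_one]
        exact h7
      · rw [mul_zero, mul_zero]
    · have h5 : rgh x δ n' = 0 := by
        unfold rgh
        rw [if_neg hr]
      rw [h5, zero_mul]
      positivity
  have hA : ∑ e ∈ E, ∑ n ∈ JJ x H, G (n : ℤ) *
      (rgh x δ ((n : ℤ) - e) * pf (PI (x ^ δ) (x ^ (1 / 2 : ℝ))) c ((n : ℤ) - e)) ≤ (δ / c₂) * Q0 := by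
    rw [hQ0, Finset.mul_sum]
    refine Finset.sum_le_sum fun e he => ?_
    rw [Finset.mul_sum]
    exact Finset.sum_le_sum fun n hn => hpt e he n hn
  have hμM : δ / 2 * M0 ≤ μ * M0 := mul_le_mul_of_nonneg_right hc3 hM0nn
  have hfin : δ / 2 * (M0 - ε * N * T0) ≤ (δ / c₂) * Q0 := by
    have : δ / 2 * (M0 - ε * N * T0) = δ / 2 * M0 - ε / 2 * δ * N * T0 := by ring
    rw [this]
    linarith
  have h12 := mul_le_mul_of_nonneg_left hfin (show 0 ≤ c₂ / δ by positivity)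
  have h13 : c₂ / δ * (δ / 2 * (M0 - ε * N * T0)) = c₂ / 2 * (M0 - ε * N * T0) := by
    field_simp
  have h14 : c₂ / δ * (δ / c₂ * Q0) = Q0 := by
    field_simp
  rw [h13, h14] at h12
  exact h12

open scoped Classical in
theorem UWT (k : ℕ) (ε : ℝ) (hε : 0 < ε) : ∃ δ : ℝ, 0 < δ ∧ δ ≤ 1 / 320 ∧ ∃ c K X : ℝ, 0 < c ∧ 1 ≤ K ∧
    ∀ x : ℝ, X ≤ x → ∀ H : ℕ, (H : ℝ) ≤ (Real.log x) ^ 2 →
    ∀ S : Finset ℤ, S ⊆ Finset.Icc 1 (H : ℤ) → S.card = k →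
    ∀ G : ℤ → ℝ, (∀ n, 0 ≤ G n) → (∀ n, G n ≤ ∏ c ∈ S, La x (n - c)) →
    ∀ E : Finset ℤ, E ⊆ Finset.Icc 1 (H : ℤ) \ S → K * Real.log x ≤ (E.card : ℝ) → (∀ e ∈ E, adm (insert e S)) →
    c * ((∑ e ∈ E, ∑ n ∈ JJ x H, G (n : ℤ) * Mm (yy x) ((n : ℤ) - e)) -
        ε * ((⌊x⌋₊ : ℝ) + 1) * ∑ e ∈ E, sW x (insert e S)) ≤
      ∑ e ∈ E, ∑ n ∈ JJ x H, G (n : ℤ) * (if q3 x δ ((n : ℤ) - e) then Real.log x else 0) := by
  obtain ⟨c, hc, h⟩ := UWTa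
  obtain ⟨δ, hδ, hδ2, K, X, hK, h⟩ := h k ε hε
  exact ⟨δ, hδ, hδ2, c, K, X, hc, hK, h⟩

end Pool.Agent.H96.FL
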