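import Pool.Agent.H96.FL.UTR
import Pool.Agent.H96.FL.UWT
import Pool.Agent.H96.FL.UFL

/-!
# UFT: the lower bound with at most three prime factors, for all but `K log x` of the shifts

Copy of `UFL` (`Pool/Agent/H96/FL/UFL.lean`) with `UWT`, `q3`, `P3`, `z3` instead of `UWL`, `q4`, `P4`, `z4`. If `q3 x δ n` and `n` is not divisible by the square of a prime `> x^δ` then `P3 n` (by definition of `q3`; so this step is easier than in `UFL`); the number of `n ≤ 2x` divisible by such a square is at most `4 x^(1-δ)`.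
-/

set_option autoImplicit false

namespace Pool.Agent.H96.FL

open Finset Pool.Agent.H17 Pool.Agent.H6.MF Pool.Agent.H6.MB Pool.Agent.H12.DM Pool.Agent.H6.AE Pool.Agent.H96.AE Pool.Agent.H96.AS Pool.Agent.H96.FD

open scoped Classical in
lemma UFT_upper {x δ : ℝ} (hx0 : 0 < x) (_hx : 2 * x < x ^ (26 / 25 : ℝ))
    (hL : Real.log x ^ 2 ≤ x ^ (1 / 4 : ℝ)) (_hL2 : Real.log x ^ 2 ≤ x) (hL0 : 0 ≤ Real.log x) {u : ℤ}
    {S Z : Finset ℤ} (hS : ∀ e ∈ S, Wnd x u e) (hSne : S.Nonempty) (hZ : Tup x S Z) {e : ℤ} (he : Wnd x u e) :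
    ∑ m ∈ Zs x S Z, (if q3 x δ (m + e) then Real.log x else 0) ≤
      Real.log x * ((z3 x Z e : ℝ) + 4 * x / x ^ δ) := by
  have hrange : ∀ m ∈ Zs x S Z, 0 < m + e ∧ ((m + e : ℤ) : ℝ) ≤ 2 * x := by
    intro m hm
    obtain ⟨c, hc⟩ := hSne
    rw [Zs, Finset.mem_filter] at hm
    have h1 := hm.2 c hc
    have h2 := (hZ m hm.1 c hc).2
    have h3 := hS c hc
    obtain ⟨h3a, h3b⟩ := h3
    obtain ⟨h4a, h4b⟩ := he
    have h3a' : (u : ℝ) < (c : ℝ) := by exact_mod_cast h3a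
    have h4a' : (u : ℝ) < (e : ℝ) := by exact_mod_cast h4a
    push_cast at h1 h2 ⊢
    constructor
    · have : (0 : ℝ) < ((m + e : ℤ) : ℝ) := by push_cast; linarith
      exact_mod_cast this
    · linarith
  have h0 : ∑ m ∈ Zs x S Z, (if q3 x δ (m + e) then Real.log x else 0) =
      (((Zs x S Z).filter (fun m => q3 x δ (m + e))).card : ℝ) * Real.log x := by
    rw [← Finset.sum_filter, Finset.sum_const, nsmul_eq_mul]
  rw [h0, mul_comm]
  refine mul_le_mul_of_nonneg_left ?_ hL0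
  set bad : ℤ → Prop := fun m => ∃ p : ℕ, p.Prime ∧ x ^ δ < (p : ℝ) ∧ (p : ℤ) ^ 2 ∣ m + e with hbad
  have h1 : (Zs x S Z).filter (fun m => q3 x δ (m + e)) ⊆
      (Z.filter (fun m => P3 x (m + e))) ∪ ((Zs x S Z).filter bad) := by
    intro m hm
    rw [Finset.mem_filter] at hm
    rw [Finset.mem_union, Finset.mem_filter, Finset.mem_filter]
    by_cases hb : bad m
    · exact Or.inr ⟨hm.1, hb⟩
    · refine Or.inl ⟨(Finset.mem_filter.mp hm.1).1, ?_⟩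
      have hr := hrange m hm.1
      rcases hm.2.2 with h | h
      · exact h
      · exact absurd h hb
  have h2 : ((Zs x S Z).filter bad).card ≤
      ((Finset.Icc 1 ⌊2 * x⌋₊).filter (fun n : ℕ => ∃ p : ℕ, p.Prime ∧ x ^ δ < (p : ℝ) ∧ p ^ 2 ∣ n)).card := by
    refine Finset.card_le_card_of_injOn (fun m => (m + e).toNat) ?_ ?_
    · intro m hm
      rw [Finset.mem_coe, Finset.mem_filter] at hm
      obtain ⟨hm1, p, hp, hpx, hd⟩ := hm
      have hr := hrange m hm1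
      obtain ⟨N, hN⟩ : ∃ N : ℕ, m + e = (N : ℤ) := ⟨(m + e).toNat, by omega⟩
      rw [Finset.mem_coe, Finset.mem_filter, Finset.mem_Icc]
      simp only [hN, Int.toNat_natCast] at hr hd ⊢
      refine ⟨⟨by omega, Nat.le_floor ?_⟩, p, hp, hpx, by exact_mod_cast hd⟩
      have := hr.2
      push_cast at this
      exact this
    · intro m hm m' hm' h
      rw [Finset.mem_coe, Finset.mem_filter] at hm hm'
      have hr := hrange m hm.1
      have hr' := hrange m' hm'.1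
      simp only at h
      omega
  have hxδ : 0 < x ^ δ := Real.rpow_pos_of_pos hx0 δ
  have h3 := UFL_sq ⌊2 * x⌋₊ hxδ
  have h4 : (((Zs x S Z).filter (fun m => q3 x δ (m + e))).card : ℝ) ≤
      (z3 x Z e : ℝ) + (((Zs x S Z).filter bad).card : ℝ) := by
    have := (Finset.card_le_card h1).trans (Finset.card_union_le _ _)
    unfold z3
    exact_mod_cast this
  have h5 : (((Zs x S Z).filter bad).card : ℝ) ≤ 2 * (⌊2 * x⌋₊ : ℝ) / x ^ δ := by
    refine le_trans ?_ h3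
    exact_mod_cast h2
  have h6 : 2 * (⌊2 * x⌋₊ : ℝ) / x ^ δ ≤ 4 * x / x ^ δ := by
    refine div_le_div_of_nonneg_right ?_ hxδ.le
    have := Nat.floor_le (show 0 ≤ 2 * x by positivity)
    linarith
  linarith

theorem UFTa : ∃ c : ℝ, 0 < c ∧ ∀ k : ℕ, 1 ≤ k → ∀ ε : ℝ, 0 < ε → ∃ K X : ℝ, ∀ x : ℝ, X ≤ x → ∀ u : ℤ,
    ∀ S : Finset ℤ, (∀ e ∈ S, Wnd x u e) → S.card = k → ∀ Z : Finset ℤ, Tup x S Z →
    ∀ E : Finset ℤ, (∀ e ∈ E, Wnd x u e ∧ e ∉ S ∧ sing (insert e S) ≠ 0 ∧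
      (z3 x Z e : ℝ) < c * (wp (yy x) / Real.log x * (zc x Z e : ℝ) -
        ε * (sing (insert e S) * x / (Real.log x) ^ (k + 1)))) → (E.card : ℝ) ≤ K * Real.log x := by
  classical
  obtain ⟨c₀, hc₀, hW⟩ := UWTa
  refine ⟨c₀, hc₀, fun k hk ε hε => ?_⟩
  obtain ⟨δ, hδ, hδ2, K, X₀, hK, hU⟩ := hW k (ε / 8) (by positivity)
  obtain ⟨c₁, X₁, hc₁, hT⟩ := UTR k hk (1 / 2) (by norm_num)
  have hkr : (1 : ℝ) ≤ k := by exact_mod_cast hk
  have hev : ∀ᶠ x : ℝ in Filter.atTop, 1 ≤ Real.log x ∧ 1 ≤ x ∧ Real.log x ^ 2 ≤ x ∧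
      Real.log x ^ 2 ≤ x ^ (1 / 4 : ℝ) ∧ 2 < x ^ (1 / 25 : ℝ) ∧
      Real.log x ^ (k + 1) ≤ (ε * c₁ / (16 * k)) * x ^ (3 / 4 : ℝ) ∧
      Real.log x ^ (k + 1) ≤ (c₀ * ε * c₁ / 32) * x ^ δ := by
    filter_upwards [Real.tendsto_log_atTop.eventually_ge_atTop 1, Filter.eventually_ge_atTop 1,
      eventually_log_pow_le 2 (show (0 : ℝ) < 1 by norm_num),
      UFL_lp 2 (show (0 : ℝ) < 1 / 4 by norm_num) (show (0 : ℝ) < 1 by norm_num),
      (tendsto_rpow_atTop (show (0 : ℝ) < 1 / 25 by norm_num)).eventually_gt_atTop 2,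
      UFL_lp (k + 1) (show (0 : ℝ) < 3 / 4 by norm_num) (show 0 < ε * c₁ / (16 * k) by positivity),
      UFL_lp (k + 1) hδ (show 0 < c₀ * ε * c₁ / 32 by positivity)] with x h1 h2 h3 h4 h5 h6 h7
    exact ⟨h1, h2, by linarith, by linarith, h5, h6, h7⟩
  obtain ⟨X₂, hX₂⟩ := Filter.eventually_atTop.mp hev
  refine ⟨K, max X₀ (max X₁ X₂), fun x hx u S hS hSc Z hZ E hE => ?_⟩
  have hx0' : X₀ ≤ x := (le_max_left _ _).trans hx
  have hx1' : X₁ ≤ x := (le_max_left _ _).trans ((le_max_right _ _).trans hx)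
  have hx2' : X₂ ≤ x := (le_max_right _ _).trans ((le_max_right _ _).trans hx)
  obtain ⟨hL1, hx1, hLx, hLx4, hx25, hlow, hup⟩ := hX₂ x hx2'
  obtain ⟨v, S', G, hS', hS'c, hG0, hG1, hGf, hGe, hZR⟩ := hT x hx1' u S hS hSc Z hZ
  by_contra hcon
  push Not at hcon
  set L : ℝ := Real.log x with hL
  have hL0 : 0 < L := by linarith
  have hx0 : 0 < x := by linarith
  have hSne : S.Nonempty := by
    rw [← Finset.card_pos]
    omega
  have hEne : E.Nonempty := by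
    rw [← Finset.card_pos]
    have : (0 : ℝ) < (E.card : ℝ) := lt_of_le_of_lt (by positivity) hcon
    exact_mod_cast this
  have hinj : Function.Injective (fun e : ℤ => v - e) := fun a b h => by
    have h1 : v - a = v - b := h
    omega
  have hH : ((⌊L ^ 2⌋₊ : ℕ) : ℝ) ≤ L ^ 2 := Nat.floor_le (by positivity)
  have hmain := hU x hx0' ⌊L ^ 2⌋₊ hH S' hS' hS'c G hG0 hG1 (E.image (fun e => v - e))
    (by
      intro e' he'
      obtain ⟨e, he, rfl⟩ := Finset.mem_image.mp he'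
      exact (hGe e (hE e he).1 (hE e he).2.1 (hE e he).2.2.1).1)
    (by
      rw [Finset.card_image_of_injective _ hinj]
      exact hcon.le)
    (by
      intro e' he'
      obtain ⟨e, he, rfl⟩ := Finset.mem_image.mp he'
      exact (hGe e (hE e he).1 (hE e he).2.1 (hE e he).2.2.1).2.1)
  rw [Finset.sum_image (fun a _ b _ h => hinj h), Finset.sum_image (fun a _ b _ h => hinj h),
    Finset.sum_image (fun a _ b _ h => hinj h)] at hmain
  have hA : ∑ e ∈ E, ∑ n ∈ JJ x ⌊L ^ 2⌋₊, G (n : ℤ) * Mm (yy x) ((n : ℤ) - (v - e)) =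
      ∑ e ∈ E, L ^ k * ∑ m ∈ Zs x S Z, Mm (yy x) (m + e) :=
    Finset.sum_congr rfl (fun e he => hGf (Mm (yy x)) e (hE e he).1)
  have hB : ∑ e ∈ E, ∑ n ∈ JJ x ⌊L ^ 2⌋₊, G (n : ℤ) * (if q3 x δ ((n : ℤ) - (v - e)) then Real.log x else 0) =
      ∑ e ∈ E, L ^ k * ∑ m ∈ Zs x S Z, (if q3 x δ (m + e) then Real.log x else 0) :=
    Finset.sum_congr rfl (fun e he => hGf (fun n => if q3 x δ n then Real.log x else 0) e (hE e he).1)
  rw [hA, hB, Finset.mul_sum, ← Finset.sum_sub_distrib, Finset.mul_sum] at hmain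
  refine absurd hmain (not_le.mpr (Finset.sum_lt_sum_of_nonempty hEne (fun e he => ?_)))
  obtain ⟨he1, he2, he3, he4⟩ := hE e he
  obtain ⟨-, -, ht1, ht2, -⟩ := hGe e he1 he2 he3
  have hb := UFT_upper (δ := δ) hx0 (by
    have : x ^ (26 / 25 : ℝ) = x ^ (1 / 25 : ℝ) * x := by
      rw [show (26 / 25 : ℝ) = 1 / 25 + 1 by norm_num, Real.rpow_add hx0, Real.rpow_one]
    rw [this]
    exact mul_lt_mul_of_pos_right hx25 hx0) hLx4 hLx hL0.le hS hSne hZ he1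
  have ha := UFL_lower (x := x) (S := S) (Z := Z) e
  have hwp0 : 0 < wp (yy x) := wp_pos _
  have hwp1 : wp (yy x) ≤ L := UFL_wp_le hL1
  set a : ℝ := ∑ m ∈ Zs x S Z, Mm (yy x) (m + e) with hadef
  set b : ℝ := ∑ m ∈ Zs x S Z, (if q3 x δ (m + e) then Real.log x else 0) with hbdef
  set t : ℝ := sW x (insert (v - e) S') with htdef
  set s : ℝ := sing (insert e S) with hsdef
  set R : ℝ := ((Z \ Zs x S Z).card : ℝ) with hRdef
  set w : ℝ := wp (yy x) with hwdef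
  have hLk : 0 < L ^ k := by positivity
  have hR0 : 0 ≤ R := Nat.cast_nonneg _
  have hxδ : 0 < x ^ δ := Real.rpow_pos_of_pos hx0 δ
  have hfl : (⌊x⌋₊ : ℝ) + 1 ≤ 2 * x := by
    have := Nat.floor_le hx0.le
    linarith
  -- the upper bound for `b`
  have hb1 : L ^ k * b ≤ L ^ (k + 1) * (z3 x Z e : ℝ) + 4 * L ^ (k + 1) * x / x ^ δ := by
    calc L ^ k * b ≤ L ^ k * (L * ((z3 x Z e : ℝ) + 4 * x / x ^ δ)) := mul_le_mul_of_nonneg_left hb hLk.le
      _ = _ := by rw [pow_succ]; ring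
  have hz : L ^ (k + 1) * (z3 x Z e : ℝ) < c₀ * (L ^ k * w * (zc x Z e : ℝ) - ε * (s * x)) := by
    have h1 := mul_lt_mul_of_pos_left he4 (show 0 < L ^ (k + 1) by positivity)
    refine h1.trans_le (le_of_eq ?_)
    have hLne : L ≠ 0 := hL0.ne'
    have e1 : L ^ (k + 1) * (w / L) = L ^ k * w := by
      rw [pow_succ]
      field_simp
    have e2 : L ^ (k + 1) * (s * x / L ^ (k + 1)) = s * x := by
      field_simp
    calc L ^ (k + 1) * (c₀ * (w / L * (zc x Z e : ℝ) - ε * (s * x / L ^ (k + 1))))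
        = c₀ * (L ^ (k + 1) * (w / L) * (zc x Z e : ℝ) - ε * (L ^ (k + 1) * (s * x / L ^ (k + 1)))) := by ring
      _ = _ := by rw [e1, e2]
  -- the lower bound for `a`
  have ha1 : L ^ k * w * (zc x Z e : ℝ) - L ^ k * w * R ≤ L ^ k * a := by
    have := mul_le_mul_of_nonneg_left ha hLk.le
    linarith
  have hx14 : 1 ≤ x ^ (1 / 4 : ℝ) := Real.one_le_rpow hx1 (by norm_num)
  have hx34 : x ^ (1 / 4 : ℝ) * x ^ (3 / 4 : ℝ) = x := by
    rw [← Real.rpow_add hx0]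
    norm_num
  have herr1 : L ^ k * w * R ≤ ε * c₁ * x / 8 := by
    have h1 : L ^ k * w ≤ L ^ (k + 1) := by
      rw [pow_succ]
      exact mul_le_mul_of_nonneg_left hwp1 hLk.le
    have h2 : R ≤ 2 * k * x ^ (1 / 4 : ℝ) := by
      refine hZR.trans ?_
      nlinarith
    calc L ^ k * w * R ≤ L ^ (k + 1) * (2 * k * x ^ (1 / 4 : ℝ)) :=
          mul_le_mul h1 h2 hR0 (by positivity)
      _ ≤ ((ε * c₁ / (16 * k)) * x ^ (3 / 4 : ℝ)) * (2 * k * x ^ (1 / 4 : ℝ)) :=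
          mul_le_mul_of_nonneg_right hlow (by positivity)
      _ = (ε * c₁ / (16 * k)) * (2 * k) * (x ^ (1 / 4 : ℝ) * x ^ (3 / 4 : ℝ)) := by ring
      _ = ε * c₁ * x / 8 := by
          rw [hx34]
          field_simp
          ring
  have herr2 : 4 * L ^ (k + 1) * x / x ^ δ ≤ c₀ * ε * c₁ * x / 8 := by
    rw [div_le_iff₀ hxδ]
    nlinarith [mul_le_mul_of_nonneg_right hup hx0.le]
  have hs : t / 2 ≤ s := by linarith
  have hεc : 0 < c₀ * ε := by positivity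
  have h5 : c₀ * (ε / 8 * ((⌊x⌋₊ : ℝ) + 1) * t) ≤ c₀ * ε * x * t / 4 := by
    have ht0 : 0 ≤ t := hc₁.le.trans ht1
    have := mul_le_mul_of_nonneg_left hfl (show 0 ≤ c₀ * ε * t / 8 by positivity)
    linarith
  have h6 : c₀ * ε * x * t / 2 ≤ c₀ * (ε * (s * x)) := by
    have := mul_le_mul_of_nonneg_left hs (show 0 ≤ c₀ * ε * x by positivity)
    linarith
  have h7 : c₀ * ε * x * c₁ / 4 ≤ c₀ * ε * x * t / 4 := by
    have := mul_le_mul_of_nonneg_left ht1 (show 0 ≤ c₀ * ε * x by positivity)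
    linarith
  have h8 : c₀ * (L ^ k * w * (zc x Z e : ℝ) - L ^ k * w * R) ≤ c₀ * (L ^ k * a) :=
    mul_le_mul_of_nonneg_left ha1 hc₀.le
  have h9 : c₀ * (L ^ k * w * R) ≤ c₀ * (ε * c₁ * x / 8) := mul_le_mul_of_nonneg_left herr1 hc₀.le
  nlinarith

theorem UFT (k : ℕ) (hk : 1 ≤ k) (ε : ℝ) (hε : 0 < ε) : ∃ c K X : ℝ, 0 < c ∧ ∀ x : ℝ, X ≤ x → ∀ u : ℤ,
    ∀ S : Finset ℤ, (∀ e ∈ S, Wnd x u e) → S.card = k → ∀ Z : Finset ℤ, Tup x S Z →
    ∀ E : Finset ℤ, (∀ e ∈ E, Wnd x u e ∧ e ∉ S ∧ sing (insert e S) ≠ 0 ∧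
      (z3 x Z e : ℝ) < c * (wp (yy x) / Real.log x * (zc x Z e : ℝ) -
        ε * (sing (insert e S) * x / (Real.log x) ^ (k + 1)))) → (E.card : ℝ) ≤ K * Real.log x := by
  obtain ⟨c, hc, h⟩ := UFTa
  obtain ⟨K, X, h⟩ := h k hk ε hε
  exact ⟨c, K, X, hc, h⟩

end Pool.Agent.H96.FL
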