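import Pool.Agent.H96.FL.Df
import Pool.Agent.H67.GT.MERT
import Pool.Agent.H75.EK.Mert

/-!
# GPa: Mertens' theorems on ranges

* `GPa_up`: this is the private theorem `MNBs_upper` in `Pool/Agent/H96/FL/MNBs.lean` (copy; `PI a b = EK75.prIoc a b`).
* `GPa_lo`: the same with the lower bounds: `∑_{a<p≤b} 1/p = M(b)/log b - M(a)/log a + ∫_a^b M(t)/(t log² t) dt` (`EK75.abel_main`), `M(t) ≥ log t - 4`, `M(a) ≤ log a + 4` (`EK75.mert_one`): `≥ log(log b/log a) - 8/log a`.
* `GPa_one`: `EK75.mert_one` for `a` and `b` (`∑_{a<p≤b} log p/p = M(b) - M(a)`).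
* `GPa_sq`: choose `n ≥ 1/ε`; for `j < n` the primes in `(t^(j/n), t^((j+1)/n)]` contribute at most `((j+1)/n) log t * (log t/n + 8)` (`GPa_one`), and `∑_{j<n} (j+1)/n² = (n+1)/(2n) ≤ 1/2 + ε/2`; the rest is `O(log t)`. (`p ≥ 2 > t^0`.)
-/

set_option autoImplicit false

namespace Pool.Agent.H96.FL

open Finset Pool.Agent.H6.MB

private theorem GPa_PI_eq {a b : ℝ} (ha : 0 ≤ a) : PI a b = EK75.prIoc a b := by
  ext p
  simp only [PI, EK75.prIoc, Finset.mem_filter, Finset.mem_range, Finset.mem_Ioc, Nat.lt_succ_iff,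
    Nat.floor_lt ha]
  tauto

private theorem GPa_mem {w z : ℝ} (hz : 0 ≤ z) {p : ℕ} :
    p ∈ PI w z ↔ p.Prime ∧ w < (p : ℝ) ∧ (p : ℝ) ≤ z := by
  simp only [PI, Finset.mem_filter, Finset.mem_range, Nat.lt_succ_iff, Nat.le_floor_iff hz]
  tauto

private theorem GPa_split {a b c : ℝ} (hb : 0 ≤ b) (hab : a ≤ b) (hbc : b ≤ c) (f : ℕ → ℝ) :
    ∑ p ∈ PI a c, f p = ∑ p ∈ PI a b, f p + ∑ p ∈ PI b c, f p := by
  have hd : Disjoint (PI a b) (PI b c) := by
    rw [Finset.disjoint_left]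
    intro p h1 h2
    have := ((GPa_mem hb).1 h1).2.2
    have := ((GPa_mem (hb.trans hbc)).1 h2).2.1
    linarith
  rw [← Finset.sum_union hd]
  refine Finset.sum_congr ?_ fun _ _ => rfl
  ext p
  rw [Finset.mem_union, GPa_mem (hb.trans hbc), GPa_mem hb, GPa_mem (hb.trans hbc)]
  constructor
  · rintro ⟨h1, h2, h3⟩
    rcases le_or_gt (p : ℝ) b with h4 | h4
    · exact Or.inl ⟨h1, h2, h4⟩
    · exact Or.inr ⟨h1, h4, h3⟩
  · rintro (⟨h1, h2, h3⟩ | ⟨h1, h2, h3⟩)
    · exact ⟨h1, h2, h3.trans hbc⟩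
    · exact ⟨h1, lt_of_le_of_lt hab h2, h3⟩

theorem GPa_up {a b : ℝ} (ha : 2 ≤ a) (hab : a ≤ b) :
    ∑ p ∈ PI a b, 1 / (p : ℝ) ≤ Real.log (Real.log b / Real.log a) + 8 / Real.log a := by
  have hla : 0 < Real.log a := Real.log_pos (by linarith)
  have hlb : 0 < Real.log b := Real.log_pos (by linarith)
  have h0 : ∑ p ∈ PI a b, 1 / (p : ℝ) = EK75.Ssum (fun _ => 1) a b := by
    rw [GPa_PI_eq (by linarith)]; rfl
  rw [h0, EK75.abel_main (fun _ => 1) ha hab]
  obtain ⟨c1, c2⟩ := EK75.abel_cmp 1 4 ha hab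
  have h1 : ∫ t in Set.Ioc a b, (1 / (t * Real.log t ^ 2)) * EK75.Msum (fun _ => 1) t ≤
      ∫ t in Set.Ioc a b, (1 / (t * Real.log t ^ 2)) * (1 * Real.log t + 4) := by
    apply MeasureTheory.setIntegral_mono_on (EK75.abel_intM _ ha) c1 measurableSet_Ioc
    intro t ht
    have ht2 : 2 ≤ t := by linarith [ht.1]
    have hl : 0 < Real.log t := Real.log_pos (by linarith)
    apply mul_le_mul_of_nonneg_left
    · rw [one_mul]; exact (EK75.mert_one (by linarith)).2
    · positivity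
  rw [c2] at h1
  have h2 : EK75.Msum (fun _ => 1) b / Real.log b ≤ 1 + 4 * (1 / Real.log b) := by
    rw [div_le_iff₀ hlb]
    have := (EK75.mert_one (x := b) (by linarith)).2
    have e : (1 + 4 * (1 / Real.log b)) * Real.log b = Real.log b + 4 := by field_simp
    linarith
  have h3 : 1 - 4 * (1 / Real.log a) ≤ EK75.Msum (fun _ => 1) a / Real.log a := by
    rw [le_div_iff₀ hla]
    have := (EK75.mert_one (x := a) (by linarith)).1
    have e : (1 - 4 * (1 / Real.log a)) * Real.log a = Real.log a - 4 := by field_simp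
    linarith
  have h5 : 8 / Real.log a = 8 * (1 / Real.log a) := by ring
  rw [h5]
  linarith

theorem GPa_lo {a b : ℝ} (ha : 2 ≤ a) (hab : a ≤ b) :
    Real.log (Real.log b / Real.log a) - 16 / Real.log a ≤ ∑ p ∈ PI a b, 1 / (p : ℝ) := by
  have hla : 0 < Real.log a := Real.log_pos (by linarith)
  have h0 : ∑ p ∈ PI a b, 1 / (p : ℝ) = EK75.Ssum (fun _ => 1) a b := by
    rw [GPa_PI_eq (by linarith)]; rfl
  have h1 := EK75.abel_lower (fun _ => 1) (fun _ => zero_le_one) 4 4 0 (by norm_num) (by norm_num)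
    le_rfl a b ha hab (EK75.mert_one (by linarith)).2
    (fun v hv _ => by
      have := (EK75.mert_one (x := v) (by linarith)).1
      linarith)
  rw [h0]
  have h2 : 16 / Real.log a = 2 * ((4 + 4) / Real.log a) := by ring
  have h3 : 0 ≤ (4 + 4) / Real.log a := by positivity
  rw [h2]
  linarith

theorem GPa_one {a b : ℝ} (ha : 1 ≤ a) (hab : a ≤ b) :
    |∑ p ∈ PI a b, Real.log p / (p : ℝ) - Real.log (b / a)| ≤ 8 := by
  have key : ∀ x : ℝ, 1 ≤ x → ∑ p ∈ PI 1 x, Real.log p / (p : ℝ) = EK75.Msum (fun _ => 1) x := by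
    intro x hx
    unfold EK75.Msum
    have h1 : PI 1 x = EK75.prLe x := by
      ext p
      simp only [PI, EK75.prLe, Finset.mem_filter, Finset.mem_range]
      constructor
      · exact fun h => ⟨h.1, h.2.1⟩
      · exact fun h => ⟨h.1, h.2, by exact_mod_cast h.2.one_lt⟩
    rw [h1]
    refine Finset.sum_congr rfl fun p _ => ?_
    rw [one_mul]
  have h1 := GPa_split (a := 1) (b := a) (c := b) (by linarith) ha hab
    (fun p => Real.log p / (p : ℝ))
  rw [key b (ha.trans hab), key a ha] at h1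
  obtain ⟨h2, h3⟩ := EK75.mert_one ha
  obtain ⟨h4, h5⟩ := EK75.mert_one (ha.trans hab)
  rw [Real.log_div (by linarith) (by linarith), abs_le]
  constructor <;> linarith

theorem GPa_sq (ε : ℝ) (hε : 0 < ε) : ∃ T : ℝ, ∀ t : ℝ, T ≤ t →
    ∑ p ∈ PI 0 t, (Real.log p) ^ 2 / (p : ℝ) ≤ (1 / 2 + ε) * (Real.log t) ^ 2 := by
  obtain ⟨n, hn⟩ := exists_nat_gt (1 / ε)
  have hnR : (0 : ℝ) < n := lt_trans (by positivity) hn
  have hn1 : 1 / (n : ℝ) ≤ ε := by
    rw [div_le_iff₀ hnR]
    rw [div_lt_iff₀ hε] at hn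
    linarith
  refine ⟨Real.exp (8 * ((n : ℝ) + 1) / ε), fun t ht => ?_⟩
  have ht0 : 0 < t := lt_of_lt_of_le (Real.exp_pos _) ht
  have hL : 8 * ((n : ℝ) + 1) / ε ≤ Real.log t := by
    rw [Real.le_log_iff_exp_le ht0]
    exact ht
  have hL0 : 0 < Real.log t := lt_of_lt_of_le (by positivity) hL
  have ht1 : 1 ≤ t := by
    by_contra h
    push Not at h
    have := Real.log_nonpos ht0.le h.le
    linarith
  -- the induction over the pieces
  have hind : ∀ k : ℕ, ∑ p ∈ PI 1 (t ^ ((k : ℝ) / n)), (Real.log p) ^ 2 / (p : ℝ) ≤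
      ∑ j ∈ Finset.range k, (((j : ℝ) + 1) / n * Real.log t) * (Real.log t / n + 8) := by
    intro k
    induction k with
    | zero =>
      have h1 : PI 1 (t ^ (((0 : ℕ) : ℝ) / n)) = ∅ := by
        rw [Finset.eq_empty_iff_forall_notMem]
        intro p hp
        rw [GPa_mem (by positivity)] at hp
        have h2 := hp.2.2
        rw [Nat.cast_zero, zero_div, Real.rpow_zero] at h2
        have h3 := hp.2.1
        linarith
      rw [h1]
      simp
    | succ k ih =>
      have hk1 : (1 : ℝ) ≤ t ^ ((k : ℝ) / n) := Real.one_le_rpow ht1 (by positivity)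
      have hkk : t ^ ((k : ℝ) / n) ≤ t ^ (((k + 1 : ℕ) : ℝ) / n) := by
        apply Real.rpow_le_rpow_of_exponent_le ht1
        push_cast
        exact div_le_div_of_nonneg_right (by linarith) hnR.le
      rw [GPa_split (by linarith) hk1 hkk, Finset.sum_range_succ]
      refine add_le_add ih ?_
      have h1 := GPa_one hk1 hkk
      rw [abs_le] at h1
      have h2 : Real.log (t ^ (((k + 1 : ℕ) : ℝ) / n) / t ^ ((k : ℝ) / n)) = Real.log t / n := by
        rw [← Real.rpow_sub ht0, Real.log_rpow ht0]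
        push_cast
        ring
      rw [h2] at h1
      have h3 : ∑ p ∈ PI (t ^ ((k : ℝ) / n)) (t ^ (((k + 1 : ℕ) : ℝ) / n)),
          (Real.log p) ^ 2 / (p : ℝ) ≤
          ∑ p ∈ PI (t ^ ((k : ℝ) / n)) (t ^ (((k + 1 : ℕ) : ℝ) / n)),
            (((k : ℝ) + 1) / n * Real.log t) * (Real.log p / (p : ℝ)) := by
        refine Finset.sum_le_sum fun p hp => ?_
        rw [GPa_mem (by positivity)] at hp
        have hp0 : (0 : ℝ) < p := by exact_mod_cast hp.1.pos
        have hlp : 0 ≤ Real.log p := Real.log_natCast_nonneg p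
        have h4 : Real.log p ≤ ((k : ℝ) + 1) / n * Real.log t := by
          have h5 := Real.log_le_log hp0 hp.2.2
          rw [Real.log_rpow ht0] at h5
          push_cast at h5
          exact h5
        have h6 : (Real.log p) ^ 2 / (p : ℝ) = Real.log p * (Real.log p / p) := by ring
        rw [h6]
        exact mul_le_mul_of_nonneg_right h4 (by positivity)
      refine h3.trans ?_
      rw [← Finset.mul_sum]
      refine mul_le_mul_of_nonneg_left (by linarith) (by positivity)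
  have hgauss : ∀ k : ℕ, ∑ j ∈ Finset.range k, ((j : ℝ) + 1) = (k : ℝ) * (k + 1) / 2 := by
    intro k
    induction k with
    | zero => simp
    | succ k ih =>
      rw [Finset.sum_range_succ, ih]
      push_cast
      ring
  have h1 := hind n
  rw [div_self hnR.ne', Real.rpow_one] at h1
  have h2 : PI 0 t = PI 1 t := by
    ext p
    rw [GPa_mem ht0.le, GPa_mem ht0.le]
    constructor
    · exact fun h => ⟨h.1, by exact_mod_cast h.1.one_lt, h.2.2⟩
    · exact fun h => ⟨h.1, by linarith [h.2.1], h.2.2⟩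
  rw [h2]
  refine h1.trans ?_
  have h3 : ∑ j ∈ Finset.range n, (((j : ℝ) + 1) / n * Real.log t) * (Real.log t / n + 8) =
      (∑ j ∈ Finset.range n, ((j : ℝ) + 1)) * (Real.log t / n * (Real.log t / n + 8)) := by
    rw [Finset.sum_mul]
    refine Finset.sum_congr rfl fun j _ => ?_
    ring
  rw [h3, hgauss]
  have h4 : (n : ℝ) * (n + 1) / 2 * (Real.log t / n * (Real.log t / n + 8)) =
      (1 / 2 + 1 / n / 2) * Real.log t ^ 2 + 4 * (n + 1) * Real.log t := by
    field_simp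
    ring
  rw [h4]
  have h5 : 4 * ((n : ℝ) + 1) ≤ ε / 2 * Real.log t := by
    rw [div_le_iff₀ hε] at hL
    linarith
  have h6 : 4 * ((n : ℝ) + 1) * Real.log t ≤ ε / 2 * Real.log t * Real.log t :=
    mul_le_mul_of_nonneg_right h5 hL0.le
  have h7 : 1 / (n : ℝ) * Real.log t ^ 2 ≤ ε * Real.log t ^ 2 :=
    mul_le_mul_of_nonneg_right hn1 (by positivity)
  nlinarith [h6, h7]

end Pool.Agent.H96.FL
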