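import Pool.Agent.H96.FL.Df
import Pool.Agent.H6.MB.BLK

/-!
# SELb: Selberg's weight with one prime factor prescribed

`S` a finite set of primes, `R ≥ 1`, `P = ∏_{p∈S} p`, `G = sG S R`, `ρ_T = sr S R T`, `f = pf S (sr S R)`. Let `χ_p(n) = 1 - p * 1[p ∣ n]` (period `p`, mean `0`, mean square `p - 1`). Expanding `∏_{p∈U} χ_p = ∑_{T⊆U} (-1)^|T| (∏_T p) 1[T ∣ n]`:
`f(n) = G⁻¹ ∑_{U ⊆ S, ∏ U ≤ R} sa U * ∏_{p∈U} χ_p(n)` (exchange the sums: `U = T ∪ U'`, `U' ⊆ S \ T`, `sa (T ∪ U') = sa T * sa U'`).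
* `SEL_avg`: orthogonality: `avg_P (∏_U χ ∏_{U'} χ) = 0` for `U ≠ U'`, `= ∏_U (p-1)` for `U = U'` (product over `p ∈ S` of averages over `p`: `BLK_avg_prod` in `Pool/Agent/H6/MB/BLK.lean`), so `avg f² = G⁻² ∑_U (sa U)² ∏_U (p-1) = G⁻¹`.
* `SEL_p`: for `p ∣ n`: `χ_p(n) = 1 - p`, so `f(n) = G⁻¹ ∑_{U ∌ p} sa U ∏_U χ (1[∏U ≤ R] - 1[p ∏U ≤ R])`, and by independence of `p` and the other primes the average is `(1/p) G⁻² ∑_{U ∌ p, ∏U ≤ R < p ∏U} sa U`. (The last sum is at most `sH S (R/p) R`.)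
(Alternatively use the classical identities in `Pool/Agent/H17/Selberg.lean`, `RHO.lean`.)
-/

set_option autoImplicit false

namespace Pool.Agent.H96.FL

open Finset Pool.Agent.H17 Pool.Agent.H6.MF Pool.Agent.H6.MB

/-- the function `1 - p 1[p ∣ n]` -/
noncomputable def SELb_chi (p : ℕ) (n : ℤ) : ℝ := 1 - (p : ℝ) * (if (p : ℤ) ∣ n then 1 else 0)

theorem SELb_shift (p : ℕ) (n k : ℤ) : (p : ℤ) ∣ n + k * p ↔ (p : ℤ) ∣ n :=
  dvd_add_left (Dvd.intro_left k rfl)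

theorem SELb_chi_per (p : ℕ) (n k : ℤ) : SELb_chi p (n + k * p) = SELb_chi p n := by
  unfold SELb_chi
  simp only [SELb_shift]

theorem SELb_ind_sum {p : ℕ} (hp : 0 < p) :
    ∑ m ∈ Finset.range p, (if (p : ℤ) ∣ (m : ℤ) then (1 : ℝ) else 0) = 1 := by
  have h1 := BLK_one hp 0
  simp only [add_zero] at h1
  rw [Finset.sum_boole, h1]
  norm_num

theorem SELb_avg_ind {p : ℕ} (hp : 0 < p) :
    avgP p (fun n => if (p : ℤ) ∣ n then (1 : ℝ) else 0) = 1 / (p : ℝ) := by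
  unfold avgP
  rw [SELb_ind_sum hp]

theorem SELb_avg_one {p : ℕ} (hp : 0 < p) : avgP p (fun _ => (1 : ℝ)) = 1 := by
  unfold avgP
  have hp' : (p : ℝ) ≠ 0 := by exact_mod_cast hp.ne'
  rw [Finset.sum_const, Finset.card_range, nsmul_eq_mul, mul_one, div_self hp']

theorem SELb_avg_chi {p : ℕ} (hp : 0 < p) : avgP p (SELb_chi p) = 0 := by
  unfold avgP SELb_chi
  rw [Finset.sum_sub_distrib, ← Finset.mul_sum, SELb_ind_sum hp]
  simp

theorem SELb_avg_chi2 {p : ℕ} (hp : 0 < p) :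
    avgP p (fun n => SELb_chi p n * SELb_chi p n) = (p : ℝ) - 1 := by
  have hp' : (p : ℝ) ≠ 0 := by exact_mod_cast hp.ne'
  have h1 : ∀ m : ℕ, SELb_chi p (m : ℤ) * SELb_chi p (m : ℤ) =
      1 + ((p : ℝ) ^ 2 - 2 * p) * (if (p : ℤ) ∣ (m : ℤ) then (1 : ℝ) else 0) := by
    intro m
    unfold SELb_chi
    split_ifs
    · ring
    · ring
  unfold avgP
  rw [Finset.sum_congr rfl (fun m _ => h1 m), Finset.sum_add_distrib, ← Finset.mul_sum,
    SELb_ind_sum hp, Finset.sum_const, Finset.card_range, nsmul_eq_mul]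
  field_simp
  ring

/-- orthogonality -/
theorem SELb_orth (S : Finset ℕ) (hS : ∀ p ∈ S, p.Prime) {U U' : Finset ℕ} (hU : U ⊆ S)
    (hU' : U' ⊆ S) :
    avgP (∏ p ∈ S, p) (fun n => (∏ p ∈ U, SELb_chi p n) * ∏ p ∈ U', SELb_chi p n) =
      if U = U' then ∏ p ∈ U, ((p : ℝ) - 1) else 0 := by
  classical
  have h1 : (fun n : ℤ => (∏ p ∈ U, SELb_chi p n) * ∏ p ∈ U', SELb_chi p n) =
      fun n => ∏ p ∈ S, ((if p ∈ U then SELb_chi p n else 1) * (if p ∈ U' then SELb_chi p n else 1)) := by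
    funext n
    rw [Finset.prod_mul_distrib, Finset.prod_ite_mem, Finset.prod_ite_mem,
      Finset.inter_eq_right.mpr hU, Finset.inter_eq_right.mpr hU']
  rw [h1, BLK_avg_prod S hS (fun p n => (if p ∈ U then SELb_chi p n else 1) *
    (if p ∈ U' then SELb_chi p n else 1)) (fun p _ n k => by simp only [SELb_chi_per])]
  by_cases h : U = U'
  · subst h
    rw [if_pos rfl]
    have h2 : ∀ p ∈ S, avgP p (fun n => (if p ∈ U then SELb_chi p n else 1) *
        (if p ∈ U then SELb_chi p n else 1)) = if p ∈ U then ((p : ℝ) - 1) else 1 := by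
      intro p hp
      by_cases hpU : p ∈ U
      · simp only [if_pos hpU]
        exact SELb_avg_chi2 (hS p hp).pos
      · simp only [if_neg hpU, mul_one]
        exact SELb_avg_one (hS p hp).pos
    rw [Finset.prod_congr rfl h2, Finset.prod_ite_mem, Finset.inter_eq_right.mpr hU]
  · rw [if_neg h]
    have h3 : ∃ p, (p ∈ U ∧ p ∉ U') ∨ (p ∉ U ∧ p ∈ U') := by
      by_contra hcon
      push Not at hcon
      apply h
      ext p
      constructor
      · intro hp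
        exact (hcon p).1 hp
      · intro hp
        by_contra hpU
        exact (hcon p).2 hpU hp
    obtain ⟨p, hp⟩ := h3
    rcases hp with ⟨h4, h5⟩ | ⟨h4, h5⟩
    · refine Finset.prod_eq_zero (hU h4) ?_
      simp only [if_pos h4, if_neg h5, mul_one]
      exact SELb_avg_chi (hS p (hU h4)).pos
    · refine Finset.prod_eq_zero (hU' h5) ?_
      simp only [if_pos h5, if_neg h4, one_mul]
      exact SELb_avg_chi (hS p (hU' h5)).pos

theorem SELb_avg_sum {ι : Type*} (P : ℕ) (s : Finset ι) (F : ι → ℤ → ℝ) :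
    avgP P (fun n => ∑ i ∈ s, F i n) = ∑ i ∈ s, avgP P (F i) := by
  unfold avgP
  rw [Finset.sum_comm, Finset.sum_div]

theorem SELb_avg_smul (P : ℕ) (c : ℝ) (F : ℤ → ℝ) :
    avgP P (fun n => c * F n) = c * avgP P F := by
  unfold avgP
  rw [← Finset.mul_sum, mul_div_assoc]

theorem SELb_sa_sq {U : Finset ℕ} (hU : ∀ p ∈ U, p.Prime) :
    sa U * sa U * ∏ p ∈ U, ((p : ℝ) - 1) = sa U := by
  have h1 : sa U * ∏ p ∈ U, ((p : ℝ) - 1) = 1 := by
    unfold sa
    rw [← Finset.prod_mul_distrib]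
    refine Finset.prod_eq_one fun p hp => ?_
    have h2 : (1 : ℝ) < p := by exact_mod_cast (hU p hp).one_lt
    have h3 : (p : ℝ) - 1 ≠ 0 := by linarith
    field_simp
  rw [mul_assoc, h1, mul_one]

/-- the mean square of a combination of products of `χ` -/
theorem SELb_quad (S : Finset ℕ) (hS : ∀ p ∈ S, p.Prime) (A : Finset (Finset ℕ))
    (hA : ∀ U ∈ A, U ⊆ S) :
    avgP (∏ p ∈ S, p) (fun n => (∑ U ∈ A, sa U * ∏ p ∈ U, SELb_chi p n) ^ 2) = ∑ U ∈ A, sa U := by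
  classical
  have h1 : (fun n : ℤ => (∑ U ∈ A, sa U * ∏ p ∈ U, SELb_chi p n) ^ 2) =
      fun n => ∑ U ∈ A, ∑ U' ∈ A, (sa U * sa U') *
        ((∏ p ∈ U, SELb_chi p n) * ∏ p ∈ U', SELb_chi p n) := by
    funext n
    rw [sq, Finset.sum_mul_sum]
    refine Finset.sum_congr rfl fun U _ => Finset.sum_congr rfl fun U' _ => ?_
    ring
  rw [h1, SELb_avg_sum]
  refine Finset.sum_congr rfl fun U hU => ?_
  rw [SELb_avg_sum]
  have h2 : ∀ U' ∈ A, avgP (∏ p ∈ S, p) (fun n => (sa U * sa U') *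
      ((∏ p ∈ U, SELb_chi p n) * ∏ p ∈ U', SELb_chi p n)) = if U = U' then sa U else 0 := by
    intro U' hU'
    rw [SELb_avg_smul, SELb_orth S hS (hA U hU) (hA U' hU')]
    by_cases h : U = U'
    · subst h
      rw [if_pos rfl, if_pos rfl]
      exact SELb_sa_sq (fun p hp => hS p (hA U hU hp))
    · rw [if_neg h, if_neg h, mul_zero]
  rw [Finset.sum_congr rfl h2, Finset.sum_ite_eq, if_pos hU]

theorem SELb_prod_chi (U : Finset ℕ) (n : ℤ) :
    ∏ p ∈ U, SELb_chi p n = ∑ T ∈ U.powerset, (-1) ^ T.card * (∏ p ∈ T, (p : ℝ)) *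
      (if ∀ p ∈ T, (p : ℤ) ∣ n then 1 else 0) := by
  classical
  have h1 : ∀ p ∈ U, SELb_chi p n = -((p : ℝ) * (if (p : ℤ) ∣ n then 1 else 0)) + 1 := by
    intro p _
    unfold SELb_chi
    ring
  rw [Finset.prod_congr rfl h1, Finset.prod_add]
  refine Finset.sum_congr rfl fun T _ => ?_
  rw [Finset.prod_const_one, mul_one]
  have h2 : ∀ p ∈ T, -((p : ℝ) * (if (p : ℤ) ∣ n then (1 : ℝ) else 0)) =
      (-1) * ((p : ℝ) * (if (p : ℤ) ∣ n then (1 : ℝ) else 0)) := fun p _ => by ring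
  rw [Finset.prod_congr rfl h2, Finset.prod_mul_distrib, Finset.prod_const,
    Finset.prod_mul_distrib, Finset.prod_ite_zero, Finset.prod_const_one, mul_assoc]

/-- Selberg's function in terms of the `χ` -/
theorem SELb_pf (S : Finset ℕ) (R : ℝ) (n : ℤ) :
    pf S (sr S R) n = (sG S R)⁻¹ *
      ∑ U ∈ S.powerset.filter (fun U : Finset ℕ => (∏ p ∈ U, (p : ℝ)) ≤ R),
        sa U * ∏ p ∈ U, SELb_chi p n := by
  classical
  have h1 : ∀ U ∈ S.powerset.filter (fun U : Finset ℕ => (∏ p ∈ U, (p : ℝ)) ≤ R),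
      sa U * ∏ p ∈ U, SELb_chi p n = ∑ T ∈ S.powerset, if T ⊆ U then sa U * ((-1) ^ T.card *
        (∏ p ∈ T, (p : ℝ)) * (if ∀ p ∈ T, (p : ℤ) ∣ n then 1 else 0)) else 0 := by
    intro U hU
    have hUS := Finset.mem_powerset.mp (Finset.mem_filter.mp hU).1
    rw [SELb_prod_chi, Finset.mul_sum, ← Finset.sum_filter]
    have h2 : S.powerset.filter (fun T => T ⊆ U) = U.powerset := by
      ext T
      rw [Finset.mem_filter, Finset.mem_powerset, Finset.mem_powerset]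
      exact ⟨fun h => h.2, fun h => ⟨h.trans hUS, h⟩⟩
    rw [h2]
  rw [Finset.sum_congr rfl h1, Finset.sum_comm, Finset.mul_sum]
  unfold pf
  refine Finset.sum_congr rfl fun T hT => ?_
  have hTS := Finset.mem_powerset.mp hT
  rw [← Finset.sum_filter, Finset.filter_filter]
  have h3 : ∑ U ∈ S.powerset.filter (fun U : Finset ℕ => (∏ p ∈ U, (p : ℝ)) ≤ R ∧ T ⊆ U), sa U =
      sa T * ∑ U ∈ (S \ T).powerset.filter (fun U : Finset ℕ => (∏ p ∈ T, (p : ℝ)) *
        (∏ p ∈ U, (p : ℝ)) ≤ R), sa U := by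
    rw [Finset.mul_sum]
    refine Finset.sum_nbij' (fun U => U \ T) (fun U => T ∪ U) ?_ ?_ ?_ ?_ ?_
    · intro U hU
      obtain ⟨h4, h5, h6⟩ := Finset.mem_filter.mp hU
      rw [Finset.mem_powerset] at h4
      rw [Finset.mem_filter, Finset.mem_powerset]
      refine ⟨Finset.sdiff_subset_sdiff h4 (Finset.Subset.refl T), ?_⟩
      rw [mul_comm, Finset.prod_sdiff h6]
      exact h5
    · intro U hU
      obtain ⟨h4, h5⟩ := Finset.mem_filter.mp hU
      rw [Finset.mem_powerset] at h4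
      rw [Finset.mem_filter, Finset.mem_powerset]
      have hd : Disjoint T U := (Finset.sdiff_disjoint.mono_left h4).symm
      refine ⟨Finset.union_subset hTS (h4.trans Finset.sdiff_subset), ?_, Finset.subset_union_left⟩
      rw [Finset.prod_union hd]
      exact h5
    · intro U hU
      obtain ⟨h4, h5, h6⟩ := Finset.mem_filter.mp hU
      exact Finset.union_sdiff_of_subset h6
    · intro U hU
      obtain ⟨h4, h5⟩ := Finset.mem_filter.mp hU
      rw [Finset.mem_powerset] at h4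
      have hd : Disjoint T U := (Finset.sdiff_disjoint.mono_left h4).symm
      exact Finset.union_sdiff_cancel_left hd
    · intro U hU
      obtain ⟨h4, h5, h6⟩ := Finset.mem_filter.mp hU
      unfold sa
      rw [mul_comm, Finset.prod_sdiff h6]
  rw [← Finset.sum_mul, h3]
  unfold sr
  have h7 : ∏ p ∈ T, ((p : ℝ) / ((p : ℝ) - 1)) = (∏ p ∈ T, (p : ℝ)) * sa T := by
    unfold sa
    rw [← Finset.prod_mul_distrib]
    refine Finset.prod_congr rfl fun p _ => ?_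
    rw [mul_one_div]
  rw [h7, div_eq_mul_inv]
  ring

theorem SEL_avg (S : Finset ℕ) (R : ℝ) (hR : 1 ≤ R) (hS : ∀ p ∈ S, p.Prime) :
    avgP (∏ p ∈ S, p) (fun n => pf S (sr S R) n ^ 2) = (sG S R)⁻¹ := by
  have h1 : (fun n : ℤ => pf S (sr S R) n ^ 2) = fun n => ((sG S R)⁻¹) ^ 2 *
      (∑ U ∈ S.powerset.filter (fun U : Finset ℕ => (∏ p ∈ U, (p : ℝ)) ≤ R),
        sa U * ∏ p ∈ U, SELb_chi p n) ^ 2 := by
    funext n
    rw [SELb_pf, mul_pow]
  rw [h1, SELb_avg_smul, SELb_quad S hS _ (fun U hU =>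
    Finset.mem_powerset.mp (Finset.mem_filter.mp hU).1)]
  change ((sG S R)⁻¹) ^ 2 * sG S R = (sG S R)⁻¹
  by_cases h : sG S R = 0
  · rw [h]; simp
  · field_simp

theorem SEL_p (S : Finset ℕ) (R : ℝ) (hR : 1 ≤ R) (hS : ∀ p ∈ S, p.Prime) (p : ℕ) (hp : p ∈ S) :
    avgP (∏ p ∈ S, p) (fun n => if (p : ℤ) ∣ n then pf S (sr S R) n ^ 2 else 0) ≤
      1 / (p : ℝ) * ((sG S R)⁻¹) ^ 2 * sH S (R / p) R := by
  classical
  have hpp := hS p hp
  have hp0 : (0 : ℝ) < p := by exact_mod_cast hpp.pos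
  have hp1 : (1 : ℝ) < p := by exact_mod_cast hpp.one_lt
  have hS' : ∀ q ∈ S.erase p, q.Prime := fun q hq => hS q (Finset.mem_of_mem_erase hq)
  set A : Finset (Finset ℕ) := (S.erase p).powerset.filter
    (fun U : Finset ℕ => R / p < (∏ q ∈ U, (q : ℝ)) ∧ (∏ q ∈ U, (q : ℝ)) ≤ R) with hA
  have hAsub : ∀ U ∈ A, U ⊆ S.erase p := fun U hU =>
    Finset.mem_powerset.mp (Finset.mem_filter.mp hU).1
  -- the value of the sum at multiples of `p`
  have hval : ∀ n : ℤ, (p : ℤ) ∣ n →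
      ∑ U ∈ S.powerset.filter (fun U : Finset ℕ => (∏ q ∈ U, (q : ℝ)) ≤ R),
        sa U * ∏ q ∈ U, SELb_chi q n = ∑ U ∈ A, sa U * ∏ q ∈ U, SELb_chi q n := by
    intro n hn
    have hchi : SELb_chi p n = 1 - p := by
      unfold SELb_chi
      rw [if_pos hn, mul_one]
    have hins : S = insert p (S.erase p) := (Finset.insert_erase hp).symm
    have hnot : p ∉ S.erase p := Finset.notMem_erase p S
    rw [Finset.sum_filter]
    conv_lhs => rw [hins]
    rw [Finset.sum_powerset_insert hnot, hA, Finset.sum_filter, ← Finset.sum_add_distrib]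
    refine Finset.sum_congr rfl fun U hU => ?_
    have hUs := Finset.mem_powerset.mp hU
    have hpU : p ∉ U := fun h => hnot (hUs h)
    rw [Finset.prod_insert hpU, Finset.prod_insert hpU, hchi]
    have hsa : sa (insert p U) = 1 / ((p : ℝ) - 1) * sa U := by
      unfold sa
      rw [Finset.prod_insert hpU]
    rw [hsa]
    have hU0 : (0 : ℝ) ≤ ∏ q ∈ U, (q : ℝ) := Finset.prod_nonneg fun q _ => Nat.cast_nonneg q
    have hne : (p : ℝ) - 1 ≠ 0 := by linarith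
    have hkey : 1 / ((p : ℝ) - 1) * sa U * ((1 - (p : ℝ)) * ∏ q ∈ U, SELb_chi q n) =
        -(sa U * ∏ q ∈ U, SELb_chi q n) := by
      field_simp
      ring
    rw [hkey]
    by_cases h1 : (p : ℝ) * ∏ q ∈ U, (q : ℝ) ≤ R
    · have h2 : ∏ q ∈ U, (q : ℝ) ≤ R := by nlinarith
      have h3 : ¬ (R / p < ∏ q ∈ U, (q : ℝ)) := by
        rw [not_lt, le_div_iff₀ hp0, mul_comm]
        exact h1
      rw [if_pos h1, if_pos h2, if_neg (fun h => h3 h.1)]
      ring
    · rw [if_neg h1, add_zero]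
      have h3 : R / p < ∏ q ∈ U, (q : ℝ) := by
        rw [div_lt_iff₀ hp0, mul_comm]
        exact not_le.mp h1
      by_cases h2 : ∏ q ∈ U, (q : ℝ) ≤ R
      · rw [if_pos h2, if_pos ⟨h3, h2⟩]
      · rw [if_neg h2, if_neg (fun h => h2 h.2)]
  have h1 : (fun n : ℤ => if (p : ℤ) ∣ n then pf S (sr S R) n ^ 2 else 0) = fun n =>
      ((sG S R)⁻¹) ^ 2 * ((if (p : ℤ) ∣ n then (1 : ℝ) else 0) *
        (∑ U ∈ A, sa U * ∏ q ∈ U, SELb_chi q n) ^ 2) := by
    funext n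
    by_cases hn : (p : ℤ) ∣ n
    · rw [if_pos hn, if_pos hn, SELb_pf, hval n hn, mul_pow, one_mul]
    · rw [if_neg hn, if_neg hn, zero_mul, mul_zero]
  have hpos : 0 < ∏ q ∈ S.erase p, q := Finset.prod_pos fun q hq => (hS' q hq).pos
  have hcop : p.Coprime (∏ q ∈ S.erase p, q) := by
    refine Nat.Coprime.prod_right fun q hq => ?_
    rw [Nat.coprime_primes hpp (hS' q hq)]
    exact fun h => (Finset.mem_erase.mp hq).1 h.symm
  have hper : ∀ n k : ℤ, (∑ U ∈ A, sa U * ∏ q ∈ U, SELb_chi q (n + k * ((∏ q ∈ S.erase p, q : ℕ) : ℤ))) ^ 2 =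
      (∑ U ∈ A, sa U * ∏ q ∈ U, SELb_chi q n) ^ 2 := by
    intro n k
    congr 1
    refine Finset.sum_congr rfl fun U hU => ?_
    congr 1
    refine Finset.prod_congr rfl fun q hq => ?_
    obtain ⟨c, hc⟩ := Finset.dvd_prod_of_mem (fun q => q) (hAsub U hU hq)
    have h3 : n + k * ((∏ q ∈ S.erase p, q : ℕ) : ℤ) = n + (k * c) * q := by
      rw [hc]
      push_cast
      ring
    rw [h3, SELb_chi_per]
  rw [h1, SELb_avg_smul, ← Finset.mul_prod_erase S (fun q => q) hp,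
    avg_mul hpp.pos hpos hcop (F := fun n => if (p : ℤ) ∣ n then (1 : ℝ) else 0)
      (G := fun n => (∑ U ∈ A, sa U * ∏ q ∈ U, SELb_chi q n) ^ 2)
      (fun n k => by simp only [SELb_shift]) hper,
    SELb_avg_ind hpp.pos, SELb_quad _ hS' A hAsub]
  have h4 : ∑ U ∈ A, sa U ≤ sH S (R / p) R := by
    unfold sH
    refine Finset.sum_le_sum_of_subset_of_nonneg ?_ ?_
    · intro U hU
      obtain ⟨h5, h6⟩ := Finset.mem_filter.mp hU
      rw [Finset.mem_filter, Finset.mem_powerset]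
      exact ⟨(Finset.mem_powerset.mp h5).trans (Finset.erase_subset p S), h6⟩
    · intro U hU _
      have hUS := Finset.mem_powerset.mp (Finset.mem_filter.mp hU).1
      unfold sa
      refine Finset.prod_nonneg fun q hq => ?_
      have : (1 : ℝ) < q := by exact_mod_cast (hS q (hUS hq)).one_lt
      exact div_nonneg zero_le_one (by linarith)
  have h5 : 0 ≤ 1 / (p : ℝ) * ((sG S R)⁻¹) ^ 2 := by positivity
  calc ((sG S R)⁻¹) ^ 2 * (1 / (p : ℝ) * ∑ U ∈ A, sa U)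
      = 1 / (p : ℝ) * ((sG S R)⁻¹) ^ 2 * ∑ U ∈ A, sa U := by ring
    _ ≤ _ := mul_le_mul_of_nonneg_left h4 h5

end Pool.Agent.H96.FL
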