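import Pool.Agent.H96.FL.SELa
import Pool.Agent.H96.FL.SELb
import Pool.Agent.H96.FL.PFM

/-!
# GPk: the coefficients of a combination of Selberg weights

For `p ∈ P` and `A ⊆ S p` let `b p A = ∑_{T ∪ U = A, T, U ⊆ S p} r T r U`, `r = sr (S p) (R p)` (`|r| ≤ 1`: `SEL_le`; `r T = 0` for `∏T > R p`: `SEL_zero`): `|b p A| ≤ 4^|A|`, `b p A = 0` for `∏A > (R p)²`, `pf (S p) r n ^ 2 = ∑_{A ⊆ S p} b p A 1[A ∣ n]` (see `GFXa_b_le`, `GFXa_b_zero`, `GFXa_sq` in `Pool/Agent/H96/FL/GFXa.lean`, private: copy).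
`c ∅ = 1`, and for `T ≠ ∅` with largest element `p` (`T.max'`): `c T = - w p * b p (T \ {p})` if `T \ {p} ⊆ S p`, `0` otherwise. The map `(p, A) ↦ insert p A` (`p ∈ P`, `A ⊆ S p`, so `p ∉ A` is the largest element) is injective. `|c T| ≤ 4^|T|`; `c T = 0` if `∏T > Y ≥ p (R p)²`.
Last statement: `∑_{A ⊆ S p} b p A/∏A = avgP (∏ S p) (pf (S p) r ^ 2) = (sG (S p) (R p))⁻¹` (`SEL_avg`, and the average of `1[A ∣ n]` over the period `∏ S p` is `1/∏A`: private lemma `PFM_avgF` in `Pool/Agent/H96/FL/PFM.lean`, copy).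
-/

set_option autoImplicit false

namespace Pool.Agent.H96.FL

open Finset Pool.Agent.H17 Pool.Agent.H6.MF Pool.Agent.H6.MB

/-- the indicator of divisibility by all elements -/
private noncomputable def GPk_i (A : Finset ℕ) (n : ℤ) : ℝ := if ∀ p ∈ A, (p : ℤ) ∣ n then 1 else 0

/-- the coefficients of the square -/
private noncomputable def GPk_b (S : Finset ℕ) (r : Finset ℕ → ℝ) (A : Finset ℕ) : ℝ :=
  ∑ q ∈ (S.powerset ×ˢ S.powerset).filter (fun q => q.1 ∪ q.2 = A), r q.1 * r q.2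

private lemma GPk_pf (S : Finset ℕ) (c : Finset ℕ → ℝ) (n : ℤ) :
    pf S c n = ∑ T ∈ S.powerset, c T * GPk_i T n := rfl

private lemma GPk_i_union (A B : Finset ℕ) (n : ℤ) : GPk_i (A ∪ B) n = GPk_i A n * GPk_i B n := by
  unfold GPk_i
  by_cases h1 : ∀ p ∈ A, (p : ℤ) ∣ n
  · by_cases h2 : ∀ p ∈ B, (p : ℤ) ∣ n
    · rw [if_pos h1, if_pos h2, if_pos, one_mul]
      intro p hp
      rcases Finset.mem_union.mp hp with h | h
      · exact h1 p h
      · exact h2 p h
    · rw [if_neg h2, if_neg, mul_zero]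
      intro h
      exact h2 (fun p hp => h p (Finset.mem_union_right _ hp))
  · rw [if_neg h1, if_neg, zero_mul]
    intro h
    exact h1 (fun p hp => h p (Finset.mem_union_left _ hp))

private lemma GPk_sq (S : Finset ℕ) (r : Finset ℕ → ℝ) (n : ℤ) :
    pf S r n ^ 2 = ∑ A ∈ S.powerset, GPk_b S r A * GPk_i A n := by
  have h1 : ∀ A ∈ S.powerset, GPk_b S r A * GPk_i A n
      = ∑ q ∈ (S.powerset ×ˢ S.powerset).filter (fun q => q.1 ∪ q.2 = A),
        r q.1 * r q.2 * GPk_i (q.1 ∪ q.2) n := by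
    intro A _
    unfold GPk_b
    rw [Finset.sum_mul]
    apply Finset.sum_congr rfl
    intro q hq
    rw [Finset.mem_filter] at hq
    rw [hq.2]
  rw [Finset.sum_congr rfl h1, Finset.sum_fiberwise_of_maps_to]
  · rw [GPk_pf, sq, Finset.sum_mul_sum, ← Finset.sum_product']
    apply Finset.sum_congr rfl
    intro q hq
    rw [GPk_i_union]
    ring
  · intro q hq
    rw [Finset.mem_product, Finset.mem_powerset, Finset.mem_powerset] at hq
    rw [Finset.mem_powerset]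
    exact Finset.union_subset hq.1 hq.2

private lemma GPk_b_out {S A : Finset ℕ} (r : Finset ℕ → ℝ) (h : ¬ A ⊆ S) : GPk_b S r A = 0 := by
  unfold GPk_b
  apply Finset.sum_eq_zero
  intro q hq
  rw [Finset.mem_filter, Finset.mem_product, Finset.mem_powerset, Finset.mem_powerset] at hq
  exfalso
  apply h
  rw [← hq.2]
  exact Finset.union_subset hq.1.1 hq.1.2

private lemma GPk_sq' {S S' : Finset ℕ} (hSS : S ⊆ S') (r : Finset ℕ → ℝ) (n : ℤ) :
    pf S r n ^ 2 = ∑ A ∈ S'.powerset, GPk_b S r A * GPk_i A n := by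
  rw [GPk_sq]
  apply Finset.sum_subset (Finset.powerset_mono.mpr hSS)
  intro A _ hA
  rw [Finset.mem_powerset] at hA
  rw [GPk_b_out r hA, zero_mul]

private lemma GPk_b_le {S : Finset ℕ} {r : Finset ℕ → ℝ} (h1 : ∀ T, T ⊆ S → |r T| ≤ 1) (A : Finset ℕ) :
    |GPk_b S r A| ≤ 4 ^ A.card := by
  unfold GPk_b
  calc |∑ q ∈ (S.powerset ×ˢ S.powerset).filter (fun q => q.1 ∪ q.2 = A), r q.1 * r q.2|
      ≤ ∑ q ∈ (S.powerset ×ˢ S.powerset).filter (fun q => q.1 ∪ q.2 = A), |r q.1 * r q.2| :=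
        Finset.abs_sum_le_sum_abs _ _
    _ ≤ ∑ q ∈ (S.powerset ×ˢ S.powerset).filter (fun q => q.1 ∪ q.2 = A), (1 : ℝ) := by
        apply Finset.sum_le_sum
        intro q hq
        rw [Finset.mem_filter, Finset.mem_product, Finset.mem_powerset, Finset.mem_powerset] at hq
        rw [abs_mul]
        exact mul_le_one₀ (h1 _ hq.1.1) (abs_nonneg _) (h1 _ hq.1.2)
    _ ≤ ∑ q ∈ A.powerset ×ˢ A.powerset, (1 : ℝ) := by
        apply Finset.sum_le_sum_of_subset_of_nonneg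
        · intro q hq
          rw [Finset.mem_filter] at hq
          rw [Finset.mem_product, Finset.mem_powerset, Finset.mem_powerset, ← hq.2]
          exact ⟨Finset.subset_union_left, Finset.subset_union_right⟩
        · intro _ _ _; norm_num
    _ = _ := by
        simp only [Finset.sum_const, Finset.card_product, Finset.card_powerset, nsmul_eq_mul, mul_one]
        push_cast
        rw [← mul_pow]
        norm_num

private lemma GPk_b_zero {S A : Finset ℕ} (hS : ∀ p ∈ S, p.Prime) {r : Finset ℕ → ℝ} {R : ℝ}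
    (hr0 : ∀ T : Finset ℕ, T ⊆ S → R < ∏ p ∈ T, (p : ℝ) → r T = 0)
    (hA : R ^ 2 < ∏ p ∈ A, (p : ℝ)) : GPk_b S r A = 0 := by
  unfold GPk_b
  apply Finset.sum_eq_zero
  intro q hq
  rw [Finset.mem_filter, Finset.mem_product, Finset.mem_powerset, Finset.mem_powerset] at hq
  obtain ⟨⟨h1, h2⟩, h3⟩ := hq
  have hp1 : ∀ T : Finset ℕ, T ⊆ S → 1 ≤ ∏ p ∈ T, (p : ℝ) := by
    intro T hT
    have := Finset.prod_le_prod (s := T) (f := fun _ => (1 : ℝ)) (g := fun p : ℕ => (p : ℝ))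
      (fun _ _ => zero_le_one) (fun p hp => by exact_mod_cast (hS p (hT hp)).one_le)
    simpa using this
  by_cases h4 : R < ∏ p ∈ q.1, (p : ℝ)
  · rw [hr0 _ h1 h4, zero_mul]
  by_cases h5 : R < ∏ p ∈ q.2, (p : ℝ)
  · rw [hr0 _ h2 h5, mul_zero]
  exfalso
  rw [not_lt] at h4 h5
  have h6 : ∏ p ∈ A, (p : ℝ) ≤ (∏ p ∈ q.1, (p : ℝ)) * ∏ p ∈ q.2, (p : ℝ) := by
    rw [← h3, ← Finset.prod_union_inter]
    have h7 := hp1 (q.1 ∩ q.2) (Finset.inter_subset_left.trans h1)
    have h8 := hp1 (q.1 ∪ q.2) (Finset.union_subset h1 h2)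
    nlinarith
  have h9 := hp1 q.1 h1
  have h10 := hp1 q.2 h2
  have : (∏ p ∈ q.1, (p : ℝ)) * ∏ p ∈ q.2, (p : ℝ) ≤ R ^ 2 := by
    rw [sq]
    exact mul_le_mul h4 h5 (by linarith) (by linarith)
  linarith

private lemma GPk_dvd {T : Finset ℕ} (hT : ∀ p ∈ T, p.Prime) (n : ℤ) :
    ((∏ p ∈ T, p : ℕ) : ℤ) ∣ n ↔ ∀ p ∈ T, (p : ℤ) ∣ n := by
  constructor
  · intro h p hp
    exact (Int.natCast_dvd_natCast.mpr (Finset.dvd_prod_of_mem _ hp)).trans h
  · intro h
    rw [Int.natCast_dvd]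
    apply Finset.prod_primes_dvd
    · intro p hp; exact (hT p hp).prime
    · intro p hp; exact Int.natCast_dvd.mp (h p hp)

private lemma GPk_pos {T : Finset ℕ} (hT : ∀ p ∈ T, p.Prime) : 0 < ∏ p ∈ T, p :=
  Finset.prod_pos (fun p hp => (hT p hp).pos)

private lemma GPk_one_period {q : ℕ} (hq : 0 < q) (s r : ℤ) :
    ∑ j ∈ Finset.range q, (if (q : ℤ) ∣ ((q : ℤ) * s + (j : ℤ)) - r then (1 : ℝ) else 0) = 1 := by
  have hq' : (0 : ℤ) < q := by exact_mod_cast hq
  have h0 := Int.emod_nonneg r hq'.ne'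
  have h1 := Int.emod_lt_of_pos r hq'
  rw [Finset.sum_eq_single (r % (q : ℤ)).toNat]
  · rw [if_pos]
    rw [Int.toNat_of_nonneg h0]
    have h2 : (q : ℤ) ∣ r - r % (q : ℤ) := Int.dvd_self_sub_emod
    have h3 : (q : ℤ) * s + r % (q : ℤ) - r = (q : ℤ) * s - (r - r % (q : ℤ)) := by ring
    rw [h3]
    exact dvd_sub (dvd_mul_right _ _) h2
  · intro j hj hne
    rw [Finset.mem_range] at hj
    rw [if_neg]
    intro hd
    apply hne
    have h2 : (q : ℤ) ∣ r - r % (q : ℤ) := Int.dvd_self_sub_emod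
    have h3 : (q : ℤ) ∣ (j : ℤ) - r % (q : ℤ) := by
      have h4 : (j : ℤ) - r % (q : ℤ) = ((q : ℤ) * s + (j : ℤ) - r) - (q : ℤ) * s + (r - r % (q : ℤ)) := by ring
      rw [h4]
      exact dvd_add (dvd_sub hd (dvd_mul_right _ _)) h2
    have h5 : (j : ℤ) - r % (q : ℤ) = 0 := by
      apply Int.eq_zero_of_abs_lt_dvd h3
      rw [abs_lt]
      have hj' : (j : ℤ) < q := by exact_mod_cast hj
      constructor <;> omega
    omega
  · intro h
    exfalso
    apply h
    rw [Finset.mem_range]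
    omega

private lemma GPk_sum_ind {q : ℕ} (hq : 0 < q) (r : ℤ) (t : ℕ) :
    ∑ m ∈ Finset.range (q * t), (if (q : ℤ) ∣ (m : ℤ) - r then (1 : ℝ) else 0) = t := by
  induction t with
  | zero => simp
  | succ t ih =>
    have h1 : q * (t + 1) = q * t + q := by ring
    rw [h1, Finset.sum_range_add, ih]
    have h2 := GPk_one_period hq (t : ℤ) r
    push_cast
    rw [h2]

private lemma GPk_avg_ind {P q : ℕ} (hP : 0 < P) (hq : q ∣ P) (r : ℤ) :
    avgP P (fun n => if (q : ℤ) ∣ n - r then (1 : ℝ) else 0) = 1 / (q : ℝ) := by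
  obtain ⟨t, rfl⟩ := hq
  have hq0 : 0 < q := Nat.pos_of_ne_zero (by rintro rfl; simp at hP)
  have ht0 : 0 < t := Nat.pos_of_ne_zero (by rintro rfl; simp at hP)
  unfold avgP
  have h1 := GPk_sum_ind hq0 r t
  simp only
  rw [h1]
  have hq1 : (0 : ℝ) < q := by exact_mod_cast hq0
  have ht1 : (0 : ℝ) < t := by exact_mod_cast ht0
  push_cast
  field_simp

private lemma GPk_avg_sum {ι : Type*} (s : Finset ι) (P : ℕ) (c : ι → ℝ) (F : ι → ℤ → ℝ) :
    avgP P (fun m => ∑ i ∈ s, c i * F i m) = ∑ i ∈ s, c i * avgP P (F i) := by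
  unfold avgP
  rw [Finset.sum_comm, Finset.sum_div]
  apply Finset.sum_congr rfl
  intro i _
  rw [← Finset.mul_sum, mul_div_assoc]

private lemma GPk_avgF {S : Finset ℕ} (hS : ∀ p ∈ S, p.Prime)
    (lam : Finset ℕ → ℝ) {F : ℤ → ℝ}
    (hF : ∀ m, F m = ∑ A ∈ S.powerset, lam A * (if ((∏ p ∈ A, p : ℕ) : ℤ) ∣ m then (1 : ℝ) else 0)) :
    avgP (∏ p ∈ S, p) F = ∑ A ∈ S.powerset, lam A / ((∏ p ∈ A, p : ℕ) : ℝ) := by
  have h1 : F = (fun m => ∑ A ∈ S.powerset, lam A * (if ((∏ p ∈ A, p : ℕ) : ℤ) ∣ m then (1 : ℝ) else 0)) := by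
    funext m
    exact hF m
  rw [h1, GPk_avg_sum]
  apply Finset.sum_congr rfl
  intro A hA
  rw [Finset.mem_powerset] at hA
  have h2 := GPk_avg_ind (GPk_pos hS) (Finset.prod_dvd_prod_of_subset A S (fun p => p) hA) 0
  simp only [sub_zero] at h2
  rw [h2]
  ring

/-! ### the combination -/

/-- the coefficients -/
private noncomputable def GPk_c (P : Finset ℕ) (w : ℕ → ℝ) (b : ℕ → Finset ℕ → ℝ) (T : Finset ℕ) : ℝ :=
  (if T = ∅ then 1 else 0) - ∑ p ∈ P, w p * (if p ∈ T then b p (T.erase p) else 0)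

private lemma GPk_lin (P : Finset ℕ) (w : ℕ → ℝ) (b : ℕ → Finset ℕ → ℝ) (φ : Finset ℕ → ℝ) :
    ∑ T ∈ P.powerset, GPk_c P w b T * φ T =
      φ ∅ - ∑ p ∈ P, w p * ∑ A ∈ (P.erase p).powerset, b p A * φ (insert p A) := by
  unfold GPk_c
  have h0 : ∀ T ∈ P.powerset, ((if T = ∅ then (1 : ℝ) else 0) -
      ∑ p ∈ P, w p * (if p ∈ T then b p (T.erase p) else 0)) * φ T =
      (if T = ∅ then (1 : ℝ) else 0) * φ T -
        ∑ p ∈ P, w p * ((if p ∈ T then b p (T.erase p) else 0) * φ T) := by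
    intro T _
    rw [sub_mul, Finset.sum_mul]
    congr 1
    exact Finset.sum_congr rfl (fun p _ => by ring)
  rw [Finset.sum_congr rfl h0, Finset.sum_sub_distrib]
  congr 1
  · rw [Finset.sum_eq_single ∅]
    · rw [if_pos rfl, one_mul]
    · intro T _ hT
      rw [if_neg hT, zero_mul]
    · intro h
      exact absurd (Finset.empty_mem_powerset P) h
  · rw [Finset.sum_comm]
    refine Finset.sum_congr rfl (fun p hp => ?_)
    rw [← Finset.mul_sum]
    congr 1
    have hP : P.powerset = (insert p (P.erase p)).powerset := by rw [Finset.insert_erase hp]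
    rw [hP, Finset.sum_powerset_insert (Finset.notMem_erase p P)]
    have h1 : ∑ t ∈ (P.erase p).powerset, (if p ∈ t then b p (t.erase p) else 0) * φ t = 0 := by
      refine Finset.sum_eq_zero (fun t ht => ?_)
      rw [Finset.mem_powerset] at ht
      rw [if_neg (fun h => Finset.notMem_erase p P (ht h)), zero_mul]
    rw [h1, zero_add]
    refine Finset.sum_congr rfl (fun t ht => ?_)
    rw [Finset.mem_powerset] at ht
    rw [if_pos (Finset.mem_insert_self p t),
      Finset.erase_insert (fun h => Finset.notMem_erase p P (ht h))]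

private lemma GPk_avg {S : Finset ℕ} (hS : ∀ p ∈ S, p.Prime) {R : ℝ} (hR : 1 ≤ R) :
    ∑ A ∈ S.powerset, GPk_b S (sr S R) A * (∏ p ∈ A, (p : ℝ))⁻¹ = (sG S R)⁻¹ := by
  rw [← SEL_avg S R hR hS, GPk_avgF hS (GPk_b S (sr S R)) (F := fun n => pf S (sr S R) n ^ 2)]
  · refine Finset.sum_congr rfl (fun A _ => ?_)
    rw [Nat.cast_prod, div_eq_mul_inv]
  · intro m
    rw [GPk_sq]
    refine Finset.sum_congr rfl (fun A hA => ?_)
    rw [Finset.mem_powerset] at hA
    congr 1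
    unfold GPk_i
    have h := GPk_dvd (fun p hp => hS p (hA hp)) m
    by_cases h1 : ∀ p ∈ A, (p : ℤ) ∣ m
    · rw [if_pos h1, if_pos (h.2 h1)]
    · rw [if_neg h1, if_neg (fun h2 => h1 (h.1 h2))]

theorem GPk (P : Finset ℕ) (hP : ∀ p ∈ P, p.Prime) (S : ℕ → Finset ℕ) (R w : ℕ → ℝ) (Y : ℝ) (hY1 : 1 ≤ Y)
    (hS : ∀ p ∈ P, w p ≠ 0 → S p ⊆ P ∧ ∀ q ∈ S p, q < p) (hR : ∀ p ∈ P, w p ≠ 0 → 1 ≤ R p)
    (hw : ∀ p ∈ P, 0 ≤ w p ∧ w p ≤ 1) (hY : ∀ p ∈ P, w p ≠ 0 → (p : ℝ) * R p ^ 2 ≤ Y) :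
    ∃ c : Finset ℕ → ℝ, (∀ T : Finset ℕ, T ⊆ P → |c T| ≤ 4 ^ T.card) ∧
      (∀ T : Finset ℕ, T ⊆ P → Y < ∏ p ∈ T, (p : ℝ) → c T = 0) ∧
      (∀ n : ℤ, pf P c n = 1 - ∑ p ∈ P, w p * (if (p : ℤ) ∣ n then pf (S p) (sr (S p) (R p)) n ^ 2 else 0)) ∧
      ∑ T ∈ P.powerset, c T / ∏ p ∈ T, (p : ℝ) = 1 - ∑ p ∈ P, w p / (p : ℝ) * (sG (S p) (R p))⁻¹ := by
  have hSp : ∀ p ∈ P, w p ≠ 0 → ∀ q ∈ S p, q.Prime := fun p hp h0 q hq => hP q ((hS p hp h0).1 hq)
  have hSe : ∀ p ∈ P, w p ≠ 0 → S p ⊆ P.erase p := fun p hp h0 q hq => by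
    rw [Finset.mem_erase]
    exact ⟨((hS p hp h0).2 q hq).ne, (hS p hp h0).1 hq⟩
  refine ⟨GPk_c P w (fun p => GPk_b (S p) (sr (S p) (R p))), ?_, ?_, ?_, ?_⟩
  · intro T hT
    rcases Finset.eq_empty_or_nonempty T with rfl | hne
    · unfold GPk_c
      rw [if_pos rfl, Finset.sum_eq_zero (fun p _ => by rw [if_neg (Finset.notMem_empty p), mul_zero]), sub_zero,
        abs_one, Finset.card_empty, pow_zero]
    · unfold GPk_c
      set M := T.max' hne with hM
      have hMT : M ∈ T := Finset.max'_mem T hne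
      rw [if_neg hne.ne_empty, Finset.sum_eq_single M]
      · rw [if_pos hMT, zero_sub, abs_neg, abs_mul, abs_of_nonneg (hw M (hT hMT)).1]
        by_cases h0 : w M = 0
        · rw [h0, zero_mul]
          positivity
        · have h1 := GPk_b_le (S := S M) (r := sr (S M) (R M))
            (fun U hU => SEL_le (S M) (R M) (hR M (hT hMT) h0) (hSp M (hT hMT) h0) U hU) (T.erase M)
          have h2 : (4 : ℝ) ^ (T.erase M).card ≤ 4 ^ T.card :=
            pow_le_pow_right₀ (by norm_num) (Finset.card_le_card (Finset.erase_subset M T))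
          calc w M * |GPk_b (S M) (sr (S M) (R M)) (T.erase M)|
              ≤ 1 * |GPk_b (S M) (sr (S M) (R M)) (T.erase M)| :=
                mul_le_mul_of_nonneg_right (hw M (hT hMT)).2 (abs_nonneg _)
            _ ≤ 4 ^ T.card := by
                rw [one_mul]
                exact h1.trans h2
      · intro p hp hpM
        by_cases hpT : p ∈ T
        · rw [if_pos hpT]
          by_cases h0 : w p = 0
          · rw [h0, zero_mul]
          · show w p * GPk_b (S p) (sr (S p) (R p)) (T.erase p) = 0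
            rw [GPk_b_out, mul_zero]
            intro hsub
            have h1 : M ∈ T.erase p := Finset.mem_erase.mpr ⟨fun h => hpM h.symm, hMT⟩
            have h2 := (hS p hp h0).2 M (hsub h1)
            have h3 := Finset.le_max' T p hpT
            omega
        · rw [if_neg hpT, mul_zero]
      · intro h
        exact absurd (hT hMT) h
  · intro T hT hYT
    have hne : T ≠ ∅ := by
      rintro rfl
      rw [Finset.prod_empty] at hYT
      linarith
    unfold GPk_c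
    rw [if_neg hne, Finset.sum_eq_zero, sub_zero]
    intro p hp
    by_cases hpT : p ∈ T
    · rw [if_pos hpT]
      by_cases h0 : w p = 0
      · rw [h0, zero_mul]
      · show w p * GPk_b (S p) (sr (S p) (R p)) (T.erase p) = 0
        rw [GPk_b_zero (R := R p) (hSp p hp h0) (fun U _ hU => SEL_zero (S p) (R p) (hSp p hp h0) U hU), mul_zero]
        have h1 : (p : ℝ) * ∏ q ∈ T.erase p, (q : ℝ) = ∏ q ∈ T, (q : ℝ) :=
          Finset.mul_prod_erase T (fun q : ℕ => (q : ℝ)) hpT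
        have h2 := hY p hp h0
        have h3 : (0 : ℝ) < p := by exact_mod_cast (hP p hp).pos
        rw [← h1] at hYT
        exact lt_of_mul_lt_mul_left (lt_of_le_of_lt h2 hYT) h3.le
    · rw [if_neg hpT, mul_zero]
  · intro n
    have h1 := GPk_lin P w (fun p => GPk_b (S p) (sr (S p) (R p))) (fun T => GPk_i T n)
    refine h1.trans ?_
    have h2 : GPk_i ∅ n = 1 := by
      unfold GPk_i
      rw [if_pos (fun p hp => absurd hp (Finset.notMem_empty p))]
    simp only [h2]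
    congr 1
    refine Finset.sum_congr rfl (fun p hp => ?_)
    by_cases h0 : w p = 0
    · rw [h0, zero_mul, zero_mul]
    · congr 1
      have h3 : ∀ A ∈ (P.erase p).powerset, GPk_b (S p) (sr (S p) (R p)) A * GPk_i (insert p A) n =
          (if (p : ℤ) ∣ n then 1 else 0) * (GPk_b (S p) (sr (S p) (R p)) A * GPk_i A n) := by
        intro A _
        have h4 : insert p A = {p} ∪ A := rfl
        have h5 : GPk_i {p} n = if (p : ℤ) ∣ n then 1 else 0 := by
          unfold GPk_i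
          simp
        rw [h4, GPk_i_union, h5]
        ring
      rw [Finset.sum_congr rfl h3, ← Finset.mul_sum, ← GPk_sq' (hSe p hp h0)]
      by_cases h6 : (p : ℤ) ∣ n
      · rw [if_pos h6, if_pos h6, one_mul]
      · rw [if_neg h6, if_neg h6, zero_mul]
  · have h1 := GPk_lin P w (fun p => GPk_b (S p) (sr (S p) (R p))) (fun T => (∏ p ∈ T, (p : ℝ))⁻¹)
    have h2 : ∀ T ∈ P.powerset, GPk_c P w (fun p => GPk_b (S p) (sr (S p) (R p))) T / ∏ p ∈ T, (p : ℝ) =
        GPk_c P w (fun p => GPk_b (S p) (sr (S p) (R p))) T * (∏ p ∈ T, (p : ℝ))⁻¹ :=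
      fun T _ => div_eq_mul_inv _ _
    rw [Finset.sum_congr rfl h2]
    refine h1.trans ?_
    simp only [Finset.prod_empty, inv_one]
    congr 1
    refine Finset.sum_congr rfl (fun p hp => ?_)
    by_cases h0 : w p = 0
    · rw [h0, zero_mul, zero_div, zero_mul]
    · rw [div_eq_mul_inv, mul_assoc]
      congr 1
      have h3 : ∀ A ∈ (P.erase p).powerset, GPk_b (S p) (sr (S p) (R p)) A * (∏ q ∈ insert p A, (q : ℝ))⁻¹ =
          (p : ℝ)⁻¹ * (GPk_b (S p) (sr (S p) (R p)) A * (∏ q ∈ A, (q : ℝ))⁻¹) := by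
        intro A hA
        rw [Finset.mem_powerset] at hA
        rw [Finset.prod_insert (fun h => Finset.notMem_erase p P (hA h)), mul_inv]
        ring
      rw [Finset.sum_congr rfl h3, ← Finset.mul_sum]
      congr 1
      rw [← GPk_avg (hSp p hp h0) (hR p hp h0)]
      symm
      refine Finset.sum_subset (Finset.powerset_mono.mpr (hSe p hp h0)) (fun A _ hA => ?_)
      rw [Finset.mem_powerset] at hA
      rw [GPk_b_out _ hA, zero_mul]

end Pool.Agent.H96.FL
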