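import Pool.Agent.H96.FL.Df
import Pool.Agent.H6.MF.GLK
import Pool.Agent.H6.MB.RHO

/-!
# MNBg: upper and lower bound for `sG`

`z = x^δ`, `R = x^θ`, `S = PI z R`, `G = sG S R`. `G ≥ EP 0 z * log R` is `RHO_G_lower` in `Pool/Agent/H6/MB/RHO.lean` (private: copy; `sG` in other notation, `GK_lower`, `Op_union`, `Op_upper` in `Pool/Agent/H6/MF/GLK.lean`). `G ≥ 1`: the empty set. `G ≤ ∑_{U ⊆ S} sa U = ∏_{p∈S} (1+1/(p-1)) = (EP z R)⁻¹ ≤ C` (`RHO_G_upper`, `mer5 (δ/θ)`, `z = R^(δ/θ)`).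
-/

set_option autoImplicit false

namespace Pool.Agent.H96.FL

open Finset Pool.Agent.H17 Pool.Agent.H6.MF Pool.Agent.H6.MB Pool.Agent.H12.DM Pool.Agent.H6.AE Pool.Agent.H96.AE Pool.Agent.H96.AS

private lemma MNBg_PI_prime {w z : ℝ} : ∀ p ∈ PI w z, p.Prime := fun p hp => by
  unfold PI at hp
  exact (Finset.mem_filter.mp hp).2.1

private lemma MNBg_mem_PI {w z : ℝ} (hz : 0 ≤ z) {p : ℕ} : p ∈ PI w z ↔ p.Prime ∧ w < (p : ℝ) ∧ (p : ℝ) ≤ z := by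
  unfold PI
  rw [Finset.mem_filter, Finset.mem_range, Nat.lt_succ_iff, Nat.le_floor_iff hz]
  tauto

private lemma MNBg_EP_inv (w z : ℝ) : EP w z * ∏ p ∈ PI w z, (1 + hwK 1 p) = 1 := by
  unfold EP
  rw [← Finset.prod_mul_distrib]
  apply Finset.prod_eq_one
  intro p hp
  have h2 : (1 : ℝ) < p := by exact_mod_cast (MNBg_PI_prime p hp).one_lt
  have h3 : (p : ℝ) ≠ 0 := by linarith
  have h4 : (p : ℝ) - 1 ≠ 0 := by linarith
  unfold hwK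
  field_simp
  ring

private lemma MNBg_G_lower {w z : ℝ} (h0 : 0 ≤ w) (hz : 1 ≤ z) :
    EP 0 w * Real.log z ≤ Op (PI w z) (hwK 1) one1 ⌊z⌋₊ := by
  have hz0 : 0 ≤ z := by linarith
  have hdis : Disjoint (PI 0 w) (PI w z) := by
    rw [Finset.disjoint_left]
    intro p h1 h2
    rw [MNBg_mem_PI h0] at h1
    rw [MNBg_mem_PI hz0] at h2
    linarith [h1.2.2, h2.2.1]
  have hS : ∀ p ∈ PI 0 w ∪ PI w z, p.Prime := by
    intro p hp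
    rw [Finset.mem_union] at hp
    rcases hp with h | h
    · exact MNBg_PI_prime p h
    · exact MNBg_PI_prime p h
  have h1 := GK_lower 1 hS hz (by
    intro p hp hpz
    rw [Finset.mem_union, MNBg_mem_PI h0, MNBg_mem_PI hz0]
    by_cases h : (p : ℝ) ≤ w
    · left
      exact ⟨hp, by exact_mod_cast hp.pos, h⟩
    · right
      exact ⟨hp, not_le.mp h, hpz⟩)
  rw [Op_union hdis] at h1
  have hw1 : ∀ p ∈ PI 0 w, 0 ≤ hwK 1 p := fun p hp => hwK_nonneg 1 (MNBg_PI_prime p hp)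
  have hw2 : ∀ p ∈ PI w z, 0 ≤ hwK 1 p := fun p hp => hwK_nonneg 1 (MNBg_PI_prime p hp)
  have h2 := Op_upper hw1 (Op_mono hw2 one1_mono) ⌊z⌋₊
  have h3 : Real.log z ≤ (∏ p ∈ PI 0 w, (1 + hwK 1 p)) *
      Op (PI w z) (hwK 1) one1 ⌊z⌋₊ := by
    have := h1.trans h2
    simpa using this
  have h4 := MNBg_EP_inv 0 w
  calc EP 0 w * Real.log z ≤ EP 0 w * ((∏ p ∈ PI 0 w, (1 + hwK 1 p)) *
      Op (PI w z) (hwK 1) one1 ⌊z⌋₊) :=
        mul_le_mul_of_nonneg_left h3 (EP_pos 0 w).le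
    _ = _ := by rw [← mul_assoc, h4, one_mul]

private lemma MNBg_G_upper {w z : ℝ} (hz : 1 ≤ z) :
    EP w z * Op (PI w z) (hwK 1) one1 ⌊z⌋₊ ≤ 1 := by
  have hw2 : ∀ p ∈ PI w z, 0 ≤ hwK 1 p := fun p hp => hwK_nonneg 1 (MNBg_PI_prime p hp)
  have h2 := Op_upper hw2 one1_mono ⌊z⌋₊
  have h5 : one1 ⌊z⌋₊ = 1 := by
    unfold one1
    rw [if_pos (Nat.le_floor (by exact_mod_cast hz))]
  rw [h5, mul_one] at h2
  calc _ ≤ EP w z * ∏ p ∈ PI w z, (1 + hwK 1 p) :=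
        mul_le_mul_of_nonneg_left h2 (EP_pos w z).le
    _ = 1 := MNBg_EP_inv w z

private lemma MNBg_sG {S : Finset ℕ} (hS : ∀ p ∈ S, p.Prime) {R : ℝ} (hR : 0 ≤ R) :
    sG S R = Op S (hwK 1) one1 ⌊R⌋₊ := by
  unfold sG Op
  rw [Finset.sum_filter]
  apply Finset.sum_congr rfl
  intro T hT
  rw [Finset.mem_powerset] at hT
  have hpr : ∀ p ∈ T, p.Prime := fun p hp => hS p (hT hp)
  have hpos : 0 < ∏ p ∈ T, p := Finset.prod_pos (fun p hp => (hpr p hp).pos)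
  have h1 : sa T = ∏ p ∈ T, hwK 1 p := by
    unfold sa
    apply Finset.prod_congr rfl
    intro p _
    unfold hwK
    ring
  have hcast : ∏ p ∈ T, (p : ℝ) = ((∏ p ∈ T, p : ℕ) : ℝ) := by push_cast; rfl
  rw [h1, hcast]
  unfold one1
  by_cases h2 : ∏ p ∈ T, p ≤ ⌊R⌋₊
  · rw [if_pos ((Nat.le_floor_iff hR).mp h2), if_pos (show 1 ≤ ⌊R⌋₊ / ∏ p ∈ T, p from Nat.div_pos h2 hpos), mul_one]
  · rw [if_neg (fun h => h2 ((Nat.le_floor_iff hR).mpr h)),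
      if_neg (by rw [Nat.div_eq_of_lt (not_le.mp h2)]; omega), mul_zero]

private lemma MNBg_one {S : Finset ℕ} (hS : ∀ p ∈ S, p.Prime) {R : ℝ} (hR : 1 ≤ R) : 1 ≤ sG S R := by
  unfold sG
  have h1 : ∀ U ∈ S.powerset.filter (fun U : Finset ℕ => (∏ p ∈ U, (p : ℝ)) ≤ R), 0 ≤ sa U := by
    intro U hU
    rw [Finset.mem_filter, Finset.mem_powerset] at hU
    unfold sa
    apply Finset.prod_nonneg
    intro p hp
    have h2 : (1 : ℝ) < p := by exact_mod_cast (hS p (hU.1 hp)).one_lt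
    have h3 : 0 < (p : ℝ) - 1 := by linarith
    positivity
  have h2 : (∅ : Finset ℕ) ∈ S.powerset.filter (fun U : Finset ℕ => (∏ p ∈ U, (p : ℝ)) ≤ R) := by
    rw [Finset.mem_filter, Finset.mem_powerset]
    exact ⟨Finset.empty_subset _, by simpa using hR⟩
  have h3 := Finset.single_le_sum h1 h2
  have h4 : sa ∅ = 1 := by simp [sa]
  rw [h4] at h3
  exact h3

theorem MNB_G (δ θ : ℝ) (hδ : 0 < δ) (hδθ : δ < θ) : ∃ C X : ℝ, 0 < C ∧ ∀ x : ℝ, X ≤ x →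
    EP 0 (x ^ δ) * Real.log (x ^ θ) ≤ sG (PI (x ^ δ) (x ^ θ)) (x ^ θ) ∧
    1 ≤ sG (PI (x ^ δ) (x ^ θ)) (x ^ θ) ∧ sG (PI (x ^ δ) (x ^ θ)) (x ^ θ) ≤ C := by
  have hθ0 : 0 < θ := hδ.trans hδθ
  have hq0 : 0 < δ / θ := div_pos hδ hθ0
  have hq1 : δ / θ ≤ 1 := by rw [div_le_one hθ0]; exact hδθ.le
  obtain ⟨c, hc, hc'⟩ := mer5 (δ / θ) hq0 hq1
  refine ⟨1 / c, 1, by positivity, fun x hx => ?_⟩
  have hx0 : 0 < x := by linarith
  have hz0 : 0 < x ^ δ := Real.rpow_pos_of_pos hx0 δ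
  have hR0 : 0 < x ^ θ := Real.rpow_pos_of_pos hx0 θ
  have hR1 : 1 ≤ x ^ θ := Real.one_le_rpow hx hθ0.le
  have hRz : (x ^ θ) ^ (δ / θ) = x ^ δ := by
    rw [← Real.rpow_mul hx0.le]
    congr 1
    field_simp
  have hce := hc' (x ^ θ) hR1
  rw [hRz] at hce
  have hS : ∀ p ∈ PI (x ^ δ) (x ^ θ), p.Prime := MNBg_PI_prime
  have hone := MNBg_one hS hR1
  refine ⟨?_, hone, ?_⟩
  · rw [MNBg_sG hS hR0.le]
    exact MNBg_G_lower hz0.le hR1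
  · have h1 := MNBg_G_upper (w := x ^ δ) (z := x ^ θ) hR1
    rw [← MNBg_sG hS hR0.le] at h1
    rw [le_div_iff₀ hc]
    have h2 : c * sG (PI (x ^ δ) (x ^ θ)) (x ^ θ) ≤ EP (x ^ δ) (x ^ θ) * sG (PI (x ^ δ) (x ^ θ)) (x ^ θ) :=
      mul_le_mul_of_nonneg_right hce (by linarith)
    linarith

end Pool.Agent.H96.FL
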