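import Pool.Agent.H96.FL.RGS
import Pool.Agent.H96.FL.MNBg

/-!
# MNBp: the density of the multiples of `p` for Selberg's weight

`z = x^δ`, `δ = dlm m b`, `R = x^θ`, `θ = 59/500`, `S = PI z R`, `G = sG S R ≥ EP 0 z * log R` (`MNB_G`; `δ ≤ 1/320 < θ`). Choose `τ > 0` small, then `m₀` with `1/(10(m₀+1)) < τ`, then `b₀` with `4 (1/2)^b₀` small, `ε'` small.
* `p ≤ x^(θ-τ)`: `A = R/p ≥ x^τ`: `sH S (R/p) R ≤ EP 0 z ((1+4(1/2)^b+ε') log p + ε')` (`RGS`), divide by `G`: `≤ (1+ε₁) log p/log R + ε₁/log x` (`log R = θ log x`, `ε' ≤ θ ε₁`).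
* `x^(θ-τ) < p ≤ R` (so `R/p < x^τ`, `R/p ≥ 1`): `sH S (R/p) R ≤ (∑_{U ⊆ S, ∏U ≤ x^τ} sa U) + sH S (x^τ) R`. In the first sum all primes are `≤ x^τ`, so it is `≤ ∏_{p ∈ PI z (x^τ)} (1 + 1/(p-1)) = (EP z (x^τ))⁻¹ = EP 0 z/EP 0 (x^τ) ≤ EP 0 z * τ log x/c` (`mer2`, `EP_mul`; if `x^τ < z` the product is empty, but `1/(10(m+1)) < τ` gives `z ≤ x^τ`).
  The second is `≤ EP 0 z ((1+4(1/2)^b+ε') (θ-τ) log x + ε')` by `RGS`. Divide by `G`: `≤ τ/(c θ) + (1+4(1/2)^b+ε') (θ-τ)/θ + ε'/(θ log x) ≤ (1+ε₁) log p/log R + ε₁`, as `log p/log R ≥ (θ-τ)/θ` and `τ/(cθ) ≤ ε₁/2`.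
-/

set_option autoImplicit false

namespace Pool.Agent.H96.FL

open Finset Pool.Agent.H17 Pool.Agent.H6.MF Pool.Agent.H6.MB Pool.Agent.H12.DM Pool.Agent.H6.AE Pool.Agent.H96.AE Pool.Agent.H96.AS

private theorem MNBp_mem {w z : ℝ} {p : ℕ} : p ∈ PI w z ↔ p.Prime ∧ w < (p : ℝ) ∧ (p : ℝ) ≤ z := by
  unfold PI
  rw [Finset.mem_filter, Finset.mem_range, Nat.lt_succ_iff]
  constructor
  · rintro ⟨h1, h2, h3⟩
    exact ⟨h2, h3, (Nat.le_floor_iff' h2.ne_zero).1 h1⟩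
  · rintro ⟨h1, h2, h3⟩
    exact ⟨Nat.le_floor h3, h1, h2⟩

private theorem MNBp_sa_nonneg {w z : ℝ} {U : Finset ℕ} (hU : U ⊆ PI w z) : 0 ≤ sa U := by
  unfold sa
  refine Finset.prod_nonneg fun p hp => ?_
  have h2p : (2 : ℝ) ≤ p := by exact_mod_cast (MNBp_mem.1 (hU hp)).1.two_le
  have : (0 : ℝ) < (p : ℝ) - 1 := by linarith
  positivity

private theorem MNBp_sum (w z : ℝ) : ∑ U ∈ (PI w z).powerset, sa U = (EP w z)⁻¹ := by
  unfold EP sa
  rw [← Finset.prod_one_add, ← Finset.prod_inv_distrib]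
  refine Finset.prod_congr rfl fun p hp => ?_
  have h2p : (2 : ℝ) ≤ p := by exact_mod_cast (MNBp_mem.1 hp).1.two_le
  have h1 : (p : ℝ) - 1 ≠ 0 := by linarith
  have h0 : (p : ℝ) ≠ 0 := by linarith
  have e : 1 - 1 / (p : ℝ) = (p - 1) / p := by field_simp
  rw [e, inv_div]
  field_simp
  ring

private theorem MNBp_first (w z y : ℝ) :
    ∑ U ∈ (PI w z).powerset.filter (fun U : Finset ℕ => (∏ p ∈ U, (p : ℝ)) ≤ y), sa U ≤ (EP w y)⁻¹ := by
  rw [← MNBp_sum]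
  refine Finset.sum_le_sum_of_subset_of_nonneg ?_ fun U hU _ => MNBp_sa_nonneg (Finset.mem_powerset.1 hU)
  intro U hU
  rw [Finset.mem_filter, Finset.mem_powerset] at hU
  rw [Finset.mem_powerset]
  intro p hp
  have h := MNBp_mem.1 (hU.1 hp)
  rw [MNBp_mem]
  refine ⟨h.1, h.2.1, le_trans ?_ hU.2⟩
  have h1 : ∀ q ∈ U, (1 : ℝ) ≤ (q : ℝ) := fun q hq => by
    exact_mod_cast (MNBp_mem.1 (hU.1 hq)).1.one_lt.le
  rw [← Finset.mul_prod_erase U (fun q : ℕ => (q : ℝ)) hp]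
  have h2 : (1 : ℝ) ≤ ∏ q ∈ U.erase p, (q : ℝ) :=
    Finset.one_le_prod fun q hq => h1 q (Finset.mem_of_mem_erase hq)
  have h3 : (0 : ℝ) ≤ (p : ℝ) := Nat.cast_nonneg p
  nlinarith

private theorem MNBp_split (w z A B R : ℝ) :
    sH (PI w z) A R ≤
      ∑ U ∈ (PI w z).powerset.filter (fun U : Finset ℕ => (∏ p ∈ U, (p : ℝ)) ≤ B), sa U + sH (PI w z) B R := by
  unfold sH
  refine le_trans (Finset.sum_le_sum_of_subset_of_nonneg (t := (PI w z).powerset.filter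
      (fun U : Finset ℕ => (∏ p ∈ U, (p : ℝ)) ≤ B) ∪ (PI w z).powerset.filter
      (fun U : Finset ℕ => B < (∏ p ∈ U, (p : ℝ)) ∧ (∏ p ∈ U, (p : ℝ)) ≤ R)) ?_ ?_) ?_
  · intro U hU
    rw [Finset.mem_filter] at hU
    rw [Finset.mem_union, Finset.mem_filter, Finset.mem_filter]
    rcases le_or_gt (∏ p ∈ U, (p : ℝ)) B with h | h
    · exact Or.inl ⟨hU.1, h⟩
    · exact Or.inr ⟨hU.1, h, hU.2.2⟩
  · intro U hU _
    rw [Finset.mem_union, Finset.mem_filter, Finset.mem_filter] at hU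
    rcases hU with hU | hU
    · exact MNBp_sa_nonneg (Finset.mem_powerset.1 hU.1)
    · exact MNBp_sa_nonneg (Finset.mem_powerset.1 hU.1)
  · rw [Finset.sum_union]
    rw [Finset.disjoint_left]
    intro U h1 h2
    rw [Finset.mem_filter] at h1 h2
    exact absurd h1.2 (not_le.2 h2.2.1)

private theorem MNBp_sH_nonneg (w z A R : ℝ) : 0 ≤ sH (PI w z) A R := by
  unfold sH
  refine Finset.sum_nonneg fun U hU => ?_
  rw [Finset.mem_filter] at hU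
  exact MNBp_sa_nonneg (Finset.mem_powerset.1 hU.1)

theorem MNBp (ε : ℝ) (hε : 0 < ε) : ∃ τ : ℝ, 0 < τ ∧ τ ≤ 59 / 2000 ∧ ∃ m₀ : ℕ, ∀ m : ℕ, m₀ ≤ m → ∃ b₀ : ℕ, ∀ b : ℕ, b₀ ≤ b →
    ∃ X : ℝ, ∀ x : ℝ, X ≤ x → ∀ V : ℤ → ℝ, GoodVm m b x V →
    ∀ p : ℕ, x ^ dlm m b < (p : ℝ) → (p : ℝ) ≤ x ^ (59 / 500 : ℝ) →
    (sG (PI (x ^ dlm m b) (x ^ (59 / 500 : ℝ))) (x ^ (59 / 500 : ℝ)))⁻¹ *
        sH (PI (x ^ dlm m b) (x ^ (59 / 500 : ℝ))) (x ^ (59 / 500 : ℝ) / p) (x ^ (59 / 500 : ℝ)) ≤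
      (1 + ε) * (Real.log p / Real.log (x ^ (59 / 500 : ℝ))) +
        (if (p : ℝ) ≤ x ^ (59 / 500 - τ) then ε / Real.log x else ε) := by
  obtain ⟨c, hc, hmer⟩ := mer2
  obtain ⟨τ, hτdef⟩ : ∃ τ : ℝ, τ = min (59 / 2000) (ε * c * (59 / 500) / 2) := ⟨_, rfl⟩
  have hτ0 : 0 < τ := by rw [hτdef]; positivity
  have hτ1 : τ ≤ 59 / 2000 := by rw [hτdef]; exact min_le_left _ _
  have hτ2 : τ ≤ ε * c * (59 / 500) / 2 := by rw [hτdef]; exact min_le_right _ _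
  refine ⟨τ, hτ0, hτ1, ?_⟩
  obtain ⟨k, hk⟩ := exists_nat_gt (1 / τ)
  refine ⟨k + 1, fun m hm => ?_⟩
  have hm1 : 1 ≤ m := by omega
  have hmτ : 1 / (10 * ((m : ℝ) + 1)) < τ := by
    have h1 : (k : ℝ) + 1 ≤ m := by exact_mod_cast hm
    have h2 : 1 / τ < (m : ℝ) := by linarith
    have h3 : 0 < 1 / τ := by positivity
    rw [div_lt_iff₀ (by linarith)]
    rw [div_lt_iff₀ hτ0] at h2
    nlinarith
  obtain ⟨b₀, hb₀⟩ : ∃ b₀ : ℕ, (1 / 2 : ℝ) ^ b₀ < ε / 8 := exists_pow_lt_of_lt_one (by positivity) (by norm_num)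
  refine ⟨b₀, fun b hb => ?_⟩
  have hb4 : 4 * (1 / 2 : ℝ) ^ b ≤ ε / 2 := by
    have : (1 / 2 : ℝ) ^ b ≤ (1 / 2 : ℝ) ^ b₀ := pow_le_pow_of_le_one (by norm_num) (by norm_num) hb
    linarith
  obtain ⟨δ, hδdef⟩ : ∃ δ : ℝ, δ = dlm m b := ⟨_, rfl⟩
  have hδ0 : 0 < δ := by rw [hδdef]; exact dlm_pos m b
  have hδ1 : δ ≤ 1 / 320 := by rw [hδdef]; exact dlm_le m b
  have hδτ : δ ≤ τ := by
    refine le_trans ?_ hmτ.le
    rw [hδdef]
    unfold dlm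
    apply one_div_le_one_div_of_le (by positivity)
    have hm0 : (0 : ℝ) ≤ (m : ℝ) := Nat.cast_nonneg m
    have hb0 : (0 : ℝ) ≤ (b : ℝ) := Nat.cast_nonneg b
    nlinarith [mul_nonneg hm0 hb0]
  obtain ⟨ε', hε'def⟩ : ∃ ε' : ℝ, ε' = 59 / 1000 * ε := ⟨_, rfl⟩
  have hε' : 0 < ε' := by rw [hε'def]; positivity
  obtain ⟨C, X₁, hC, hG⟩ := MNB_G δ (59 / 500) hδ0 (by linarith)
  obtain ⟨X₂, hX₂⟩ := RGS m b hm1 τ ε' hmτ hε'
  refine ⟨max (max X₁ X₂) (max (Real.exp 1) (2 ^ (1 / τ))), fun x hx V hV p hp1 hp2 => ?_⟩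
  rw [← hδdef] at hp1 hX₂ ⊢
  have hx1 : X₁ ≤ x := le_trans (le_trans (le_max_left _ _) (le_max_left _ _)) hx
  have hx2 : X₂ ≤ x := le_trans (le_trans (le_max_right _ _) (le_max_left _ _)) hx
  have hxe : Real.exp 1 ≤ x := le_trans (le_trans (le_max_left _ _) (le_max_right _ _)) hx
  have hx22 : (2 : ℝ) ^ (1 / τ) ≤ x := le_trans (le_trans (le_max_right _ _) (le_max_right _ _)) hx
  have hx0 : 0 < x := lt_of_lt_of_le (Real.exp_pos 1) hxe
  have hxone : 1 ≤ x := by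
    have := Real.add_one_le_exp (1 : ℝ)
    linarith
  have hlog1 : 1 ≤ Real.log x := by
    rw [← Real.log_exp 1]
    exact Real.log_le_log (Real.exp_pos 1) hxe
  have hxτ2 : (2 : ℝ) ≤ x ^ τ := by
    calc (2 : ℝ) = ((2 : ℝ) ^ (1 / τ)) ^ τ := by
          rw [← Real.rpow_mul (by norm_num), one_div_mul_cancel hτ0.ne', Real.rpow_one]
      _ ≤ x ^ τ := Real.rpow_le_rpow (by positivity) hx22 hτ0.le
  obtain ⟨hG1, hG2, hG3⟩ := hG x hx1
  obtain ⟨R, hRdef⟩ : ∃ R : ℝ, R = x ^ (59 / 500 : ℝ) := ⟨_, rfl⟩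
  rw [← hRdef] at hG1 hG2 hG3 hp2 ⊢
  obtain ⟨G, hGdef⟩ : ∃ G : ℝ, G = sG (PI (x ^ δ) R) R := ⟨_, rfl⟩
  rw [← hGdef] at hG1 hG2 hG3 ⊢
  have hlogR : Real.log R = 59 / 500 * Real.log x := by rw [hRdef, Real.log_rpow hx0]
  have hlogR0 : 0 < Real.log R := by rw [hlogR]; positivity
  have hRx : R ≤ x := by
    rw [hRdef]
    calc x ^ (59 / 500 : ℝ) ≤ x ^ (1 : ℝ) := Real.rpow_le_rpow_of_exponent_le hxone (by norm_num)
      _ = x := Real.rpow_one x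
  have hR0 : 0 < R := by rw [hRdef]; positivity
  have hz1 : 1 ≤ x ^ δ := Real.one_le_rpow hxone hδ0.le
  have hp0 : (1 : ℝ) < (p : ℝ) := lt_of_le_of_lt hz1 hp1
  have hE := EP_pos 0 (x ^ δ)
  obtain ⟨E, hEdef⟩ : ∃ E : ℝ, E = EP 0 (x ^ δ) := ⟨_, rfl⟩
  rw [← hEdef] at hE hG1
  have hG0 : 0 < G := by linarith
  have hq : G⁻¹ * E ≤ 1 / Real.log R := by
    rw [inv_mul_eq_div, div_le_div_iff₀ hG0 hlogR0]
    linarith
  have key : ∀ t : ℝ, 0 ≤ t → ∀ s : ℝ, s ≤ E * t → G⁻¹ * s ≤ t / Real.log R := by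
    intro t ht s hs
    calc G⁻¹ * s ≤ G⁻¹ * (E * t) := mul_le_mul_of_nonneg_left hs (by positivity)
      _ = (G⁻¹ * E) * t := by ring
      _ ≤ (1 / Real.log R) * t := mul_le_mul_of_nonneg_right hq ht
      _ = t / Real.log R := by ring
  have hlogp : 0 < Real.log p := Real.log_pos hp0
  split_ifs with hcase
  · have hA1 : x ^ τ ≤ R / p := by
      rw [le_div_iff₀ (by linarith)]
      calc x ^ τ * (p : ℝ) ≤ x ^ τ * x ^ (59 / 500 - τ) := mul_le_mul_of_nonneg_left hcase (by positivity)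
        _ = R := by
          rw [hRdef, ← Real.rpow_add hx0]
          congr 1
          ring
    have hA2 : R / p ≤ R := by
      rw [div_le_iff₀ (by linarith)]
      nlinarith
    have h := hX₂ x hx2 V hV (R / p) R hA1 hA2 hRx
    rw [← hEdef] at h
    have e1 : R / (R / p) = p := by
      field_simp
    rw [e1] at h
    have h2 := key _ (by positivity) _ h
    refine h2.trans ?_
    have e2 : ((1 + 4 * (1 / 2 : ℝ) ^ b + ε') * Real.log p + ε') / Real.log R =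
        (1 + 4 * (1 / 2 : ℝ) ^ b + ε') * (Real.log p / Real.log R) + ε' / Real.log R := by ring
    rw [e2]
    have h3 : 0 < Real.log p / Real.log R := by positivity
    have h4 : ε' / Real.log R ≤ ε / Real.log x := by
      rw [hlogR, hε'def, div_le_div_iff₀ (by positivity) (by positivity)]
      have : 0 < ε * Real.log x := by positivity
      nlinarith
    have h5 : (1 + 4 * (1 / 2 : ℝ) ^ b + ε') ≤ 1 + ε := by rw [hε'def]; linarith
    have h6 := mul_le_mul_of_nonneg_right h5 h3.le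
    linarith
  · rw [not_le] at hcase
    have hB1 : x ^ τ ≤ R := by
      rw [hRdef]
      exact Real.rpow_le_rpow_of_exponent_le hxone (by linarith)
    have h := hX₂ x hx2 V hV (x ^ τ) R le_rfl hB1 hRx
    rw [← hEdef] at h
    have e1 : Real.log (R / x ^ τ) = (59 / 500 - τ) * Real.log x := by
      rw [Real.log_div hR0.ne' (by positivity), hlogR, Real.log_rpow hx0]
      ring
    rw [e1] at h
    have h1 := MNBp_split (x ^ δ) R (R / p) (x ^ τ) R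
    have h2 := MNBp_first (x ^ δ) R (x ^ τ)
    have h3 : (EP (x ^ δ) (x ^ τ))⁻¹ ≤ E * (τ * Real.log x / c) := by
      have hle : x ^ δ ≤ x ^ τ := Real.rpow_le_rpow_of_exponent_le hxone hδτ
      have hmul := EP_mul (w := 0) (by linarith : (0 : ℝ) ≤ x ^ δ) hle
      have hm := hmer (x ^ τ) hxτ2
      rw [Real.log_rpow hx0] at hm
      have hP := EP_pos (x ^ δ) (x ^ τ)
      rw [hmul, ← hEdef, div_le_iff₀ (by positivity)] at hm
      rw [inv_le_iff_one_le_mul₀ hP]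
      have : 1 ≤ (E * EP (x ^ δ) (x ^ τ) * (τ * Real.log x)) / c := by
        rw [le_div_iff₀ hc]
        linarith
      calc (1 : ℝ) ≤ (E * EP (x ^ δ) (x ^ τ) * (τ * Real.log x)) / c := this
        _ = E * (τ * Real.log x / c) * EP (x ^ δ) (x ^ τ) := by ring
    have h4 : sH (PI (x ^ δ) R) (R / p) R ≤
        E * (τ * Real.log x / c + ((1 + 4 * (1 / 2 : ℝ) ^ b + ε') * ((59 / 500 - τ) * Real.log x) + ε')) := by
      have e := mul_add E (τ * Real.log x / c)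
        ((1 + 4 * (1 / 2 : ℝ) ^ b + ε') * ((59 / 500 - τ) * Real.log x) + ε')
      linarith
    have hθτ : 0 < 59 / 500 - τ := by linarith
    have h5 := key _ (by positivity) _ h4
    refine h5.trans ?_
    have e2 : (τ * Real.log x / c + ((1 + 4 * (1 / 2 : ℝ) ^ b + ε') * ((59 / 500 - τ) * Real.log x) + ε')) /
        Real.log R = τ / (c * (59 / 500)) + (1 + 4 * (1 / 2 : ℝ) ^ b + ε') * ((59 / 500 - τ) / (59 / 500)) +
          ε' / Real.log R := by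
      rw [hlogR]
      field_simp
      ring
    rw [e2]
    have h6 : (59 / 500 - τ) / (59 / 500) ≤ Real.log p / Real.log R := by
      rw [hlogR, div_le_div_iff₀ (by norm_num) (by positivity)]
      have : (59 / 500 - τ) * Real.log x ≤ Real.log p := by
        rw [← Real.log_rpow hx0]
        exact Real.log_le_log (by positivity) hcase.le
      nlinarith
    have h7 : ε' / Real.log R ≤ ε / 2 := by
      rw [hlogR, hε'def, div_le_iff₀ (by positivity)]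
      nlinarith
    have h8 : τ / (c * (59 / 500)) ≤ ε / 2 := by
      rw [div_le_iff₀ (by positivity)]
      linarith
    have h9 : (1 + 4 * (1 / 2 : ℝ) ^ b + ε') ≤ 1 + ε := by rw [hε'def]; linarith
    have h10 : (1 + 4 * (1 / 2 : ℝ) ^ b + ε') * ((59 / 500 - τ) / (59 / 500)) ≤
        (1 + ε) * (Real.log p / Real.log R) :=
      mul_le_mul h9 h6 (by positivity) (by linarith)
    linarith

end Pool.Agent.H96.FL
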