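import Pool.Agent.H96.FL.Df
import Pool.Agent.H6.AE.Num

/-!
# NDa: the weight `ND`, definition, pointwise lower bound and `TD` bound

`Nu_f b J w z n = ∏_{j<J} gb (b+j) (om (NUA_B w z j) n)` (`Pool/Agent/H12/DM/Nu.lean`).
* `ND_nonneg`: `gb_nonneg`.
* `ND_ge`: the prime `p` lies in a block `NUA_B w z j`, `j < J` (`NUA_prod`, `NUA_prod'`, `NUA_step` for the set of primes, or: `z_{j+1} < p ≤ z_j` for the least `j` with `z_{j+1} < p`, `z_j = NUA_z z j`; `z_J < 2 ≤ p`). There `k = om (NUA_B w z j) n ≥ 1` and `gb (b+j) k = C(k-1, 2(b+j)) ≤ C(k, 2(b+j)+1)` (Pascal), so `Nu_f ≤` the term `j`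
  (`Finset.mul_prod_erase`), the other terms are `≥ 0`.
* `ND_TD`: `n ↦ C(om B n, r)` is `∑_{U ⊆ B, |U| = r} 1[∏ U ∣ n]` (compare `BLK_ind_sum`, `gb_TD` in `Pool/Agent/H6/MB/BLK.lean`), `TD` with bound `C(|B|, r) ≤ |B|^r ≤ |B| * z_j^(2(b+j))` for `r = 2(b+j)+1`, because `|B| ≤ z_j`; the other factors as in `Nu_TD` (`gb_TD`; bound `z_i^(2(b+i))`), `TD_mul`, `TD_prod`, `TD_sum`. Sum over `j`:
  `∑_j |B_j| ≤ |PI w z| ≤ z` (disjoint blocks).
-/

set_option autoImplicit false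

namespace Pool.Agent.H96.FL

open Finset Pool.Agent.H17 Pool.Agent.H6.MF Pool.Agent.H6.MB Pool.Agent.H12.DM Pool.Agent.H6.AE

/-- the excess of the Brun-Hooley weight over the indicator function -/
noncomputable def ND (b J : ℕ) (w z : ℝ) (n : ℤ) : ℝ :=
  ∑ j ∈ Finset.range J, ((om (NUA_B w z j) n).choose (2 * (b + j) + 1) : ℝ) *
    ∏ i ∈ (Finset.range J).erase j, gb (b + i) (om (NUA_B w z i) n)

theorem NDa_term_nonneg (b J : ℕ) (w z : ℝ) (n : ℤ) (j : ℕ) :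
    0 ≤ ((om (NUA_B w z j) n).choose (2 * (b + j) + 1) : ℝ) *
    ∏ i ∈ (Finset.range J).erase j, gb (b + i) (om (NUA_B w z i) n) :=
  mul_nonneg (Nat.cast_nonneg _) (Finset.prod_nonneg fun _ _ => gb_nonneg _ _)

theorem ND_nonneg (b J : ℕ) (w z : ℝ) (n : ℤ) : 0 ≤ ND b J w z n :=
  Finset.sum_nonneg fun j _ => NDa_term_nonneg b J w z n j

theorem NDa_gb {b k : ℕ} (hk : 1 ≤ k) : gb b k ≤ (k.choose (2 * b + 1) : ℝ) := by
  obtain ⟨k, rfl⟩ := Nat.exists_eq_add_of_le' hk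
  rw [gb, if_neg (Nat.succ_ne_zero k), Nat.add_sub_cancel, Nat.choose_succ_succ]
  push_cast
  have : (0 : ℝ) ≤ (k.choose (2 * b + 1) : ℝ) := Nat.cast_nonneg _
  linarith

theorem NDa_block {J : ℕ} {w z : ℝ} (hz : 1 ≤ z) (hJ : NUA_z z J < 2) {p : ℕ} (hp : p ∈ PI w z) :
    ∃ j ∈ Finset.range J, p ∈ NUA_B w z j := by
  classical
  by_contra hcon
  push Not at hcon
  have h1 := NUA_prod (w := w) hz (fun q : ℕ => if q = p then 2 else 1) hJ
  have h2 : ∏ j ∈ range J, ∏ q ∈ NUA_B w z j, (if q = p then 2 else 1) = 1 := by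
    refine Finset.prod_eq_one fun j hj => Finset.prod_eq_one fun q hq => ?_
    rw [if_neg]
    rintro rfl
    exact hcon j hj hq
  rw [h2, Finset.prod_ite_eq' (PI w z) p (fun _ => 2), if_pos hp] at h1
  omega

theorem ND_ge {b J : ℕ} {w z : ℝ} (hz : 1 ≤ z) (hJ : NUA_z z J < 2) {n : ℤ} (h : ∃ p ∈ PI w z, (p : ℤ) ∣ n) :
    Nu_f b J w z n ≤ ND b J w z n := by
  classical
  obtain ⟨p, hp, hpn⟩ := h
  obtain ⟨j, hj, hpj⟩ := NDa_block hz hJ hp
  have hk : 1 ≤ om (NUA_B w z j) n := by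
    rw [om]
    exact Finset.card_pos.2 ⟨p, Finset.mem_filter.2 ⟨hpj, hpn⟩⟩
  calc Nu_f b J w z n = gb (b + j) (om (NUA_B w z j) n) *
        ∏ i ∈ (Finset.range J).erase j, gb (b + i) (om (NUA_B w z i) n) := by
        rw [Nu_f, Finset.mul_prod_erase (range J) (fun i => gb (b + i) (om (NUA_B w z i) n)) hj]
    _ ≤ ((om (NUA_B w z j) n).choose (2 * (b + j) + 1) : ℝ) *
        ∏ i ∈ (Finset.range J).erase j, gb (b + i) (om (NUA_B w z i) n) :=
        mul_le_mul_of_nonneg_right (NDa_gb hk) (Finset.prod_nonneg fun _ _ => gb_nonneg _ _)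
    _ ≤ ND b J w z n := by
        rw [ND]
        exact Finset.single_le_sum (f := fun j => ((om (NUA_B w z j) n).choose (2 * (b + j) + 1) : ℝ) *
          ∏ i ∈ (Finset.range J).erase j, gb (b + i) (om (NUA_B w z i) n))
          (fun i _ => NDa_term_nonneg b J w z n i) hj

theorem NDa_choose_sum {B : Finset ℕ} (hB : ∀ p ∈ B, p.Prime) (r : ℕ) (n : ℤ) :
    ((om B n).choose r : ℝ) = ∑ D ∈ B.powersetCard r,
      (if ((∏ p ∈ D, p : ℕ) : ℤ) ∣ n - 0 then (1 : ℝ) else 0) := by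
  classical
  have hset : (B.powersetCard r).filter (fun D => ((∏ p ∈ D, p : ℕ) : ℤ) ∣ n - 0) =
      (B.filter (fun p : ℕ => (p : ℤ) ∣ n)).powersetCard r := by
    ext D
    rw [Finset.mem_filter, Finset.mem_powersetCard, Finset.mem_powersetCard, sub_zero]
    constructor
    · rintro ⟨⟨h1, h2⟩, h3⟩
      refine ⟨fun p hp => Finset.mem_filter.2 ⟨h1 hp, dvd_trans ?_ h3⟩, h2⟩
      exact_mod_cast Finset.dvd_prod_of_mem (fun p => p) hp
    · rintro ⟨h1, h2⟩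
      have h4 : D ⊆ B := h1.trans (Finset.filter_subset _ _)
      refine ⟨⟨h4, h2⟩, ?_⟩
      rw [Int.natCast_dvd]
      refine Finset.prod_primes_dvd _ (fun p hp => (hB p (h4 hp)).prime) (fun p hp => ?_)
      have := (Finset.mem_filter.mp (h1 hp)).2
      rwa [Int.natCast_dvd] at this
  rw [← Finset.sum_filter, hset, Finset.sum_const, Finset.card_powersetCard, nsmul_eq_mul, mul_one, om]

theorem NDa_choose_le (m r : ℕ) : m.choose (r + 1) ≤ m * m.choose r := by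
  have h1 := Nat.choose_succ_right_eq m r
  calc m.choose (r + 1) ≤ m.choose (r + 1) * (r + 1) := Nat.le_mul_of_pos_right _ (Nat.succ_pos r)
    _ = m.choose r * (m - r) := h1
    _ ≤ m.choose r * m := Nat.mul_le_mul_left _ (Nat.sub_le _ _)
    _ = m * m.choose r := Nat.mul_comm _ _

theorem NDa_card_le (b : ℕ) {B : Finset ℕ} (hB : ∀ p ∈ B, p.Prime) {z : ℝ} (hz : 1 ≤ z)
    (hBz : ∀ p ∈ B, (p : ℝ) ≤ z) :
    ((B.card.choose (2 * b + 1) : ℕ) : ℝ) ≤ (B.card : ℝ) * z ^ (2 * b) := by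
  have h1 : ((B.card.choose (2 * b + 1) : ℕ) : ℝ) ≤ (B.card : ℝ) * (B.card.choose (2 * b) : ℝ) := by
    exact_mod_cast NDa_choose_le B.card (2 * b)
  refine h1.trans (mul_le_mul_of_nonneg_left ?_ (Nat.cast_nonneg _))
  refine le_trans ?_ (BLK_card b hB hz hBz)
  rw [← Finset.card_powersetCard]
  have h2 : B.powersetCard (2 * b) ⊆ B.powerset.filter (fun D => D.card ≤ 2 * b) := by
    intro D hD
    rw [Finset.mem_powersetCard] at hD
    exact Finset.mem_filter.2 ⟨Finset.mem_powerset.2 hD.1, hD.2.le⟩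
  exact_mod_cast Finset.card_le_card h2

theorem NDa_choose_TD (b : ℕ) {B : Finset ℕ} (hB : ∀ p ∈ B, p.Prime) {z : ℝ} (hz : 1 ≤ z)
    (hBz : ∀ p ∈ B, (p : ℝ) ≤ z) :
    TD (∏ p ∈ B, p) ((B.card : ℝ) * z ^ (2 * b)) (fun n => ((om B n).choose (2 * b + 1) : ℝ)) := by
  have h1 := TD_sum (P := ∏ p ∈ B, p) (B.powersetCard (2 * b + 1))
    (B := fun _ => |(1 : ℝ)|)
    (F := fun D n => if ((∏ p ∈ D, p : ℕ) : ℤ) ∣ n - 0 then (1 : ℝ) else 0)
    (fun D hD => by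
      have hsub := (Finset.mem_powersetCard.mp hD).1
      exact TD_ind (Finset.prod_pos fun p hp => (hB p (hsub hp)).pos)
        (Finset.prod_dvd_prod_of_subset _ _ _ hsub) 0 _)
  have h2 : (fun n => ((om B n).choose (2 * b + 1) : ℝ)) = fun n => ∑ D ∈ B.powersetCard (2 * b + 1),
      (if ((∏ p ∈ D, p : ℕ) : ℤ) ∣ n - 0 then (1 : ℝ) else 0) := by
    funext n
    exact NDa_choose_sum hB _ n
  rw [h2]
  refine TD_mono h1 dvd_rfl ?_
  rw [Finset.sum_const, Finset.card_powersetCard, nsmul_eq_mul, abs_one, mul_one]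
  exact NDa_card_le b hB hz hBz

theorem NDa_card_PI {w z : ℝ} (hz : 0 ≤ z) : ((PI w z).card : ℝ) ≤ z := by
  have h1 : PI w z ⊆ Finset.Icc 1 ⌊z⌋₊ := by
    intro p hp
    rw [NUA_mem hz] at hp
    exact Finset.mem_Icc.2 ⟨hp.1.pos, Nat.le_floor hp.2.2⟩
  have h2 := Finset.card_le_card h1
  rw [Nat.card_Icc, Nat.add_sub_cancel] at h2
  calc ((PI w z).card : ℝ) ≤ (⌊z⌋₊ : ℝ) := by exact_mod_cast h2
    _ ≤ z := Nat.floor_le hz

theorem NDa_sum_card {J : ℕ} {w z : ℝ} (hz : 1 ≤ z) (hJ : NUA_z z J < 2) :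
    ∑ j ∈ range J, ((NUA_B w z j).card : ℝ) ≤ z := by
  have h1 := NUA_prod (w := w) hz (fun _ : ℕ => 2) hJ
  simp only [Finset.prod_const] at h1
  rw [Finset.prod_pow_eq_pow_sum] at h1
  have h2 := Nat.pow_right_injective (le_refl 2) h1
  calc ∑ j ∈ range J, ((NUA_B w z j).card : ℝ) = ((∑ j ∈ range J, (NUA_B w z j).card : ℕ) : ℝ) := by
        push_cast
        rfl
    _ = ((PI w z).card : ℝ) := by rw [← h2]
    _ ≤ z := NDa_card_PI (by linarith)

theorem ND_TD {b J : ℕ} {w z : ℝ} (hz : 1 ≤ z) (hJ : NUA_z z J < 2) :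
    TD (PR w z) (z * ∏ j ∈ Finset.range J, NUA_z z j ^ (2 * (b + j))) (ND b J w z) := by
  classical
  have hPR : PR w z = ∏ j ∈ range J, ∏ p ∈ NUA_B w z j, p := NUA_prod hz (fun p => p) hJ
  have hBp : ∀ j, ∀ p ∈ NUA_B w z j, p.Prime := fun j p hp => ((NUA_memB hz).1 hp).1
  have hBz : ∀ j, ∀ p ∈ NUA_B w z j, (p : ℝ) ≤ NUA_z z j := fun j p hp => ((NUA_memB hz).1 hp).2.2.2
  have hdvd : ∀ j ∈ range J, ∏ p ∈ NUA_B w z j, p ∣ PR w z := by
    intro j hj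
    rw [hPR]
    exact Finset.dvd_prod_of_mem (fun j => ∏ p ∈ NUA_B w z j, p) hj
  have hterm : ∀ j ∈ range J, TD (PR w z)
      (((NUA_B w z j).card : ℝ) * ∏ i ∈ range J, NUA_z z i ^ (2 * (b + i)))
      (fun n => ((om (NUA_B w z j) n).choose (2 * (b + j) + 1) : ℝ) *
        ∏ i ∈ (Finset.range J).erase j, gb (b + i) (om (NUA_B w z i) n)) := by
    intro j hj
    have h1 : TD (PR w z) (((NUA_B w z j).card : ℝ) * NUA_z z j ^ (2 * (b + j)))
        (fun n => ((om (NUA_B w z j) n).choose (2 * (b + j) + 1) : ℝ)) :=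
      TD_mono (NDa_choose_TD (b + j) (hBp j) (NUA_one_le hz j) (hBz j)) (hdvd j hj) le_rfl
    have h2 : TD (PR w z) (∏ i ∈ (range J).erase j, NUA_z z i ^ (2 * (b + i)))
        (fun n => ∏ i ∈ (range J).erase j, gb (b + i) (om (NUA_B w z i) n)) := by
      refine TD_prod ((range J).erase j) (Nu_PRpos hz) fun i hi => ?_
      exact TD_mono (gb_TD (b + i) (hBp i) (NUA_one_le hz i) (hBz i))
        (hdvd i (Finset.mem_of_mem_erase hi)) le_rfl
    have h3 := TD_mul (Nu_PRpos hz) h1 h2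
    rw [mul_assoc, Finset.mul_prod_erase (range J) (fun i => NUA_z z i ^ (2 * (b + i))) hj] at h3
    exact h3
  have h4 := TD_sum (range J) hterm
  have h5 : (fun n => ∑ j ∈ range J, (fun n => ((om (NUA_B w z j) n).choose (2 * (b + j) + 1) : ℝ) *
        ∏ i ∈ (Finset.range J).erase j, gb (b + i) (om (NUA_B w z i) n)) n) = ND b J w z := by
    funext n
    rw [ND]
  rw [← h5]
  refine TD_mono h4 dvd_rfl ?_
  rw [← Finset.sum_mul]
  refine mul_le_mul_of_nonneg_right (NDa_sum_card hz hJ) (Finset.prod_nonneg fun i _ => ?_)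
  have := NUA_one_le hz i
  positivity

end Pool.Agent.H96.FL
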