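import Pool.Agent.H96.FL.NDa
import Pool.Agent.H96.FL.BLD

/-!
# NDb: the averages of `∏ Nu_f * ND`

Independence of the blocks (`NUA_avg`, `NUA_prod`, `NUA_cop`, `NUA_om_per`, as in `Num_upper`, `Pool/Agent/H6/AE/Num.lean`, whose proof is the model): the average of `∏_{a∈s} Nu_f(t+a)` times the term `j` of `ND(t+a₀)` is `∏_{i≠j} avg(∏_{a ∈ insert a₀ s} gb (b+i) (om B_i (t+a))) * avg(∏_{a∈s} gb (b+j) (om B_j (t+a)) * C(om B_j (t+a₀), 2(b+j)+1))`, at most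
`∏_{i≠j} ((1+(1/2)^(b+i)) M_i^(s.card+1) X_i) * (1/2)^(b+j) M_j^(s.card+1)` (hypotheses `h1` with exponents `1`, `h2`); `∏ M_i = EP w z`, `∏ X_i =` the product in the statement, `X_j ≥ 1`, `∏_i (1+(1/2)^(b+i)) ≤ exp(2 (1/2)^b) ≤ 2` for `b ≥ 2` (`NUA_geom`), `∑_j (1/2)^(b+j) ≤ 2 (1/2)^b`.
-/

set_option autoImplicit false

namespace Pool.Agent.H96.FL

open Finset Pool.Agent.H17 Pool.Agent.H6.MF Pool.Agent.H6.MB Pool.Agent.H12.DM Pool.Agent.H6.AE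

theorem NDb_exp {b : ℕ} (hb : 2 ≤ b) : Real.exp (2 * (1 / 2 : ℝ) ^ b) ≤ 2 := by
  have h1 : (1 / 2 : ℝ) ^ b ≤ (1 / 2 : ℝ) ^ 2 :=
    pow_le_pow_of_le_one (by norm_num) (by norm_num) hb
  have h2 : 2 * (1 / 2 : ℝ) ^ b ≤ 1 / 2 := by
    norm_num at h1 ⊢
    linarith
  have h3 := Real.exp_bound_div_one_sub_of_interval (x := 1 / 2) (by norm_num) (by norm_num)
  have h4 := Real.exp_le_exp.2 h2
  refine h4.trans (h3.trans ?_)
  norm_num

theorem NDb_sum (b J : ℕ) : ∑ j ∈ range J, (1 / 2 : ℝ) ^ (b + j) ≤ 2 * (1 / 2 : ℝ) ^ b := by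
  have h1 : ∑ j ∈ range J, (1 / 2 : ℝ) ^ (b + j) = (1 / 2 : ℝ) ^ b * ∑ j ∈ range J, (1 / 2 : ℝ) ^ j := by
    rw [Finset.mul_sum]
    exact Finset.sum_congr rfl fun j _ => pow_add _ _ _
  rw [h1, mul_comm 2]
  refine mul_le_mul_of_nonneg_left ?_ (by positivity)
  have h2 := Summable.sum_le_tsum (range J) (fun j _ => by positivity) summable_geometric_two
  rwa [tsum_geometric_two] at h2

/-- the block functions of the term `j` -/
noncomputable def NDb_G (b : ℕ) (w z : ℝ) (s : Finset ℤ) (a₀ : ℤ) (j i : ℕ) (t : ℤ) : ℝ :=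
  (∏ a ∈ s, gb (b + i) (om (NUA_B w z i) (t + a))) *
    (if i = j then ((om (NUA_B w z i) (t + a₀)).choose (2 * (b + i) + 1) : ℝ)
      else gb (b + i) (om (NUA_B w z i) (t + a₀)))

theorem NDb_eq {b J : ℕ} {w z : ℝ} (s : Finset ℤ) (a₀ : ℤ) {j : ℕ} (hj : j ∈ range J) (t : ℤ) :
    (∏ a ∈ s, Nu_f b J w z (t + a)) * (((om (NUA_B w z j) (t + a₀)).choose (2 * (b + j) + 1) : ℝ) *
      ∏ i ∈ (Finset.range J).erase j, gb (b + i) (om (NUA_B w z i) (t + a₀))) =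
    ∏ i ∈ range J, NDb_G b w z s a₀ j i t := by
  unfold NDb_G
  rw [Finset.prod_mul_distrib]
  congr 1
  · exact Finset.prod_comm
  · rw [← Finset.mul_prod_erase (range J) _ hj, if_pos rfl]
    congr 1
    refine Finset.prod_congr rfl fun i hi => ?_
    rw [if_neg (Finset.ne_of_mem_erase hi)]

theorem NDb_nonneg (b : ℕ) (w z : ℝ) (s : Finset ℤ) (a₀ : ℤ) (j i : ℕ) (t : ℤ) :
    0 ≤ NDb_G b w z s a₀ j i t := by
  unfold NDb_G
  refine mul_nonneg (Finset.prod_nonneg fun a _ => gb_nonneg _ _) ?_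
  split_ifs
  · exact Nat.cast_nonneg _
  · exact gb_nonneg _ _

theorem ND_avg {m : ℕ} {L : ℝ} {b₁ b J : ℕ} {w z : ℝ} (hz : 1 ≤ z) (hJ : NUA_z z J < 2)
    (hmer : ∀ z : ℝ, 1 ≤ z → ∑ p ∈ PI (Real.sqrt z) z, 1 / (p : ℝ) ≤ L)
    (h1 : ∀ b : ℕ, b₁ ≤ b → ∀ B : Finset ℕ, (∀ p ∈ B, p.Prime) →
    ∑ p ∈ B, 1 / (p : ℝ) ≤ L → ∀ s : Finset ℤ, 1 ≤ s.card → s.card ≤ m → ∀ e : ℤ → ℕ, (∀ a, 1 ≤ e a ∧ e a ≤ m) →
    avgP (∏ p ∈ B, p) (fun t => ∏ a ∈ s, gb b (om B (t + a)) ^ e a)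
      ≤ (1 + (1 / 2) ^ b) * (∏ p ∈ B, (1 - 1 / (p : ℝ))) ^ s.card *
          ∏ p ∈ B.filter (fun p : ℕ => ∃ a ∈ s, ∃ a' ∈ s, a ≠ a' ∧ (p : ℤ) ∣ a - a'), (1 + 2 ^ m / (p : ℝ)))
    (h2 : ∀ b : ℕ, b₁ ≤ b → ∀ B : Finset ℕ, (∀ p ∈ B, p.Prime) →
    ∑ p ∈ B, 1 / (p : ℝ) ≤ L → ∀ s : Finset ℤ, ∀ a₀ : ℤ, a₀ ∉ s → s.card + 1 ≤ m →
    avgP (∏ p ∈ B, p) (fun t => (∏ a ∈ s, gb b (om B (t + a))) * ((om B (t + a₀)).choose (2 * b + 1) : ℝ))
      ≤ (1 / 2) ^ b * (∏ p ∈ B, (1 - 1 / (p : ℝ))) ^ (s.card + 1))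
    (hb : b₁ ≤ b) (hb2 : 2 ≤ b) (s : Finset ℤ) (a₀ : ℤ) (ha₀ : a₀ ∉ s) (hsm : s.card + 1 ≤ m) :
    avgP (PR w z) (fun t => (∏ a ∈ s, Nu_f b J w z (t + a)) * ND b J w z (t + a₀)) ≤
      4 * (1 / 2 : ℝ) ^ b * EP w z ^ (s.card + 1) *
      ∏ p ∈ (PI w z).filter (fun p : ℕ => ∃ a ∈ insert a₀ s, ∃ a' ∈ insert a₀ s, a ≠ a' ∧ (p : ℤ) ∣ a - a'),
        (1 + 2 ^ m / (p : ℝ)) := by
  classical
  have hPR : PR w z = ∏ j ∈ range J, ∏ p ∈ NUA_B w z j, p := NUA_prod hz (fun p => p) hJ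
  have hEP : EP w z = ∏ j ∈ range J, ∏ p ∈ NUA_B w z j, (1 - 1 / (p : ℝ)) := NUA_prod hz _ hJ
  have hBp : ∀ j, ∀ p ∈ NUA_B w z j, p.Prime := fun j p hp => ((NUA_memB hz).1 hp).1
  have hBsum : ∀ j, ∑ p ∈ NUA_B w z j, 1 / (p : ℝ) ≤ L := by
    intro j
    refine le_trans ?_ (hmer (NUA_z z j) (NUA_one_le hz j))
    refine Finset.sum_le_sum_of_subset_of_nonneg (fun p hp => ?_) fun _ _ _ => by positivity
    rw [NUA_memB hz] at hp
    rw [NUA_mem (by linarith [NUA_one_le hz j]), NUA_z_succ (by linarith)]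
    exact ⟨hp.1, hp.2.2.1, hp.2.2.2⟩
  have hM0 : ∀ i, 0 ≤ ∏ p ∈ NUA_B w z i, (1 - 1 / (p : ℝ)) := by
    intro i
    refine Finset.prod_nonneg fun p hp => ?_
    have h3 : (1 : ℝ) ≤ p := by exact_mod_cast (hBp i p hp).one_lt.le
    have h4 : 1 / (p : ℝ) ≤ 1 := by
      rw [div_le_one (by linarith)]
      exact h3
    linarith
  have hcard : (insert a₀ s).card = s.card + 1 := Finset.card_insert_of_notMem ha₀
  obtain ⟨X, hX⟩ : ∃ X : ℕ → ℝ, ∀ i, X i = ∏ p ∈ NUA_B w z i,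
      (if ∃ a ∈ insert a₀ s, ∃ a' ∈ insert a₀ s, a ≠ a' ∧ (p : ℤ) ∣ a - a' then
        (1 + 2 ^ m / (p : ℝ)) else 1) := ⟨_, fun i => rfl⟩
  have hX1 : ∀ i, 1 ≤ X i := by
    intro i
    rw [hX]
    have e1 : (1 : ℝ) = ∏ _p ∈ NUA_B w z i, (1 : ℝ) := by rw [Finset.prod_const_one]
    refine e1.le.trans (Finset.prod_le_prod (fun _ _ => zero_le_one) fun p _ => ?_)
    split_ifs
    · have : (0 : ℝ) ≤ 2 ^ m / (p : ℝ) := by positivity
      linarith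
    · exact le_refl _
  obtain ⟨T, hT⟩ : ∃ T : ℕ → ℝ, ∀ i, T i = (1 + (1 / 2) ^ (b + i)) *
      (∏ p ∈ NUA_B w z i, (1 - 1 / (p : ℝ))) ^ (s.card + 1) * X i := ⟨_, fun i => rfl⟩
  have hT0 : ∀ i, 0 ≤ T i := by
    intro i
    rw [hT]
    have := hX1 i
    have := pow_nonneg (hM0 i) (s.card + 1)
    positivity
  have hTprod : ∏ i ∈ range J, T i ≤ 2 * EP w z ^ (s.card + 1) *
      ∏ p ∈ (PI w z).filter (fun p : ℕ => ∃ a ∈ insert a₀ s, ∃ a' ∈ insert a₀ s, a ≠ a' ∧ (p : ℤ) ∣ a - a'),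
        (1 + 2 ^ m / (p : ℝ)) := by
    rw [Finset.prod_congr rfl fun i _ => hT i, Finset.prod_mul_distrib, Finset.prod_mul_distrib,
      Finset.prod_pow, ← hEP, Finset.prod_congr rfl fun i _ => hX i, ← NUA_prod hz _ hJ,
      Finset.prod_filter]
    have hEP0 : 0 ≤ EP w z := (EP_pos w z).le
    refine mul_le_mul_of_nonneg_right ?_ (Finset.prod_nonneg fun _ _ => by split_ifs <;> positivity)
    exact mul_le_mul_of_nonneg_right ((NUA_geom b J).trans (NDb_exp hb2)) (pow_nonneg hEP0 _)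
  have key : ∀ j ∈ range J, avgP (PR w z) (fun t => (∏ a ∈ s, Nu_f b J w z (t + a)) *
      (((om (NUA_B w z j) (t + a₀)).choose (2 * (b + j) + 1) : ℝ) *
        ∏ i ∈ (Finset.range J).erase j, gb (b + i) (om (NUA_B w z i) (t + a₀)))) ≤
      (1 / 2 : ℝ) ^ (b + j) * ∏ i ∈ range J, T i := by
    intro j hj
    have e1 : (fun t : ℤ => (∏ a ∈ s, Nu_f b J w z (t + a)) *
      (((om (NUA_B w z j) (t + a₀)).choose (2 * (b + j) + 1) : ℝ) *
        ∏ i ∈ (Finset.range J).erase j, gb (b + i) (om (NUA_B w z i) (t + a₀)))) =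
        fun t => ∏ i ∈ range J, NDb_G b w z s a₀ j i t := by
      funext t
      exact NDb_eq s a₀ hj t
    rw [e1, hPR, NUA_avg (fun i => ∏ p ∈ NUA_B w z i, p) (NDb_G b w z s a₀ j) (NUA_pos w z hz)
      (fun i n k => by
        have e2 : ∀ a : ℤ, om (NUA_B w z i) (n + k * ((∏ p ∈ NUA_B w z i, p : ℕ) : ℤ) + a) =
            om (NUA_B w z i) (n + a) := by
          intro a
          rw [show n + k * ((∏ p ∈ NUA_B w z i, p : ℕ) : ℤ) + a =
            (n + a) + k * ((∏ p ∈ NUA_B w z i, p : ℕ) : ℤ) by ring, NUA_om_per]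
        unfold NDb_G
        simp only [e2]) (NUA_cop hz)]
    have e3 : ∀ i ∈ range J, avgP (∏ p ∈ NUA_B w z i, p) (NDb_G b w z s a₀ j i) ≤
        (if i = j then (1 / 2 : ℝ) ^ (b + i) else 1) * T i := by
      intro i _
      by_cases hij : i = j
      · rw [if_pos hij]
        have e4 := h2 (b + i) (hb.trans (Nat.le_add_right _ _)) (NUA_B w z i) (hBp i) (hBsum i) s a₀
          ha₀ hsm
        have e5 : NDb_G b w z s a₀ j i = fun t => (∏ a ∈ s, gb (b + i) (om (NUA_B w z i) (t + a))) *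
            ((om (NUA_B w z i) (t + a₀)).choose (2 * (b + i) + 1) : ℝ) := by
          funext t
          unfold NDb_G
          rw [if_pos hij]
        rw [e5]
        refine e4.trans (mul_le_mul_of_nonneg_left ?_ (by positivity))
        rw [hT]
        have e6 := pow_nonneg (hM0 i) (s.card + 1)
        have e7 : (0 : ℝ) ≤ (1 / 2) ^ (b + i) := by positivity
        have e8 : 1 ≤ (1 + (1 / 2 : ℝ) ^ (b + i)) * X i := by
          nlinarith [hX1 i]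
        nlinarith
      · rw [if_neg hij, one_mul]
        have e4 := h1 (b + i) (hb.trans (Nat.le_add_right _ _)) (NUA_B w z i) (hBp i) (hBsum i)
          (insert a₀ s) (by rw [hcard]; omega) (by rw [hcard]; exact hsm) (fun _ => 1)
          (fun _ => ⟨le_refl 1, by omega⟩)
        have e5 : NDb_G b w z s a₀ j i = fun t => ∏ a ∈ insert a₀ s,
            gb (b + i) (om (NUA_B w z i) (t + a)) ^ 1 := by
          funext t
          unfold NDb_G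
          rw [if_neg hij, Finset.prod_insert ha₀]
          simp only [pow_one]
          rw [mul_comm]
        rw [e5, hT, hX, ← Finset.prod_filter, ← hcard]
        exact e4
    refine (Finset.prod_le_prod (fun i _ => ?_) e3).trans ?_
    · exact div_nonneg (Finset.sum_nonneg fun t _ => NDb_nonneg _ _ _ _ _ _ _ _)
        (Nat.cast_nonneg _)
    · rw [Finset.prod_mul_distrib]
      refine mul_le_mul_of_nonneg_right (le_of_eq ?_) (Finset.prod_nonneg fun i _ => hT0 i)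
      rw [Finset.prod_ite_eq' (range J) j, if_pos hj]
  have e0 : (fun t : ℤ => (∏ a ∈ s, Nu_f b J w z (t + a)) * ND b J w z (t + a₀)) =
      fun t => ∑ j ∈ range J, (∏ a ∈ s, Nu_f b J w z (t + a)) *
        (((om (NUA_B w z j) (t + a₀)).choose (2 * (b + j) + 1) : ℝ) *
          ∏ i ∈ (Finset.range J).erase j, gb (b + i) (om (NUA_B w z i) (t + a₀))) := by
    funext t
    unfold ND
    rw [Finset.mul_sum]
  rw [e0, BLK_sum]
  refine (Finset.sum_le_sum key).trans ?_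
  rw [← Finset.sum_mul]
  have hP0 : 0 ≤ ∏ i ∈ range J, T i := Finset.prod_nonneg fun i _ => hT0 i
  refine (mul_le_mul_of_nonneg_right (NDb_sum b J) hP0).trans ?_
  refine (mul_le_mul_of_nonneg_left hTprod (by positivity)).trans (le_of_eq ?_)
  ring

end Pool.Agent.H96.FL
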