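import Pool.Agent.H96.FL.CLE

/-!
# OFE: the one-step lemma for a family of signed weights

Word for word the proof of `OFg` (`Pool/Agent/H96/FL/OFg.lean`; copy its private lemmas) with `u e = V (F e) - μ e` (depending on `e`) instead of `u = V F - μ`, using `CLE` instead of `CLGa`.
-/

set_option autoImplicit false

namespace Pool.Agent.H96.FL

open Finset Pool.Agent.H17 Pool.Agent.H6.MF Pool.Agent.H6.MB Pool.Agent.H12.DM Pool.Agent.H6.AE Pool.Agent.H96.AE Pool.Agent.H96.AS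

private lemma OFE_cls {W : ℕ} (hW : 0 < W) (J : Finset ℕ) (F : ℕ → ℝ) :
    ∑ n ∈ J, F n = ∑ t ∈ Finset.range W, ∑ n ∈ J.filter (fun n => n % W = t), F n :=
  (Finset.sum_fiberwise_of_maps_to (fun n _ => Finset.mem_range.mpr (Nat.mod_lt n hW)) F).symm

private lemma OFE_per {W : ℕ} {M : ℤ → ℝ} (hper : ∀ n k : ℤ, M (n + k * (W : ℤ)) = M n) {n t : ℕ}
    (h : n % W = t) (e : ℤ) : M ((n : ℤ) - e) = M ((t : ℤ) - e) := by
  have h1 : (n : ℤ) = (t : ℤ) + ((n / W : ℕ) : ℤ) * (W : ℤ) := by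
    have h2 := Nat.div_add_mod n W
    rw [h] at h2
    rw [← h2]
    push_cast
    have : ((n / W : ℕ) : ℤ) = (((W * (n / W) + t) / W : ℕ) : ℤ) := by rw [h2]
    push_cast at this ⊢
    rw [← this]
    ring
  rw [h1, ← hper ((t : ℤ) - e) ((n / W : ℕ) : ℤ)]
  congr 1
  ring

private lemma OFE_in (J : Finset ℕ) (E A : Finset ℤ) (hEA : E ⊆ A) (Pn : ℕ → ℝ) (u : ℤ → ℤ → ℝ)
    (c m : ℤ → ℝ) (β γ φ : ℝ) (hβ : 0 ≤ β) (hγ : 0 ≤ γ) (hc : ∀ e, 0 ≤ c e ∧ c e ≤ m e)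
    (hm : ∀ e, m e ^ 2 = φ * m e)
    (h2 : ∀ e ∈ E, ∀ e' ∈ E, e ≠ e' → ∑ n ∈ J, Pn n * (u e ((n : ℤ) - e) * u e' ((n : ℤ) - e')) ≤ β)
    (h3 : ∀ e ∈ E, ∑ n ∈ J, Pn n * u e ((n : ℤ) - e) ^ 2 ≤ γ) :
    ∑ n ∈ J, Pn n * (∑ e ∈ E, c e * u e ((n : ℤ) - e)) ^ 2 ≤
      β * (∑ e ∈ A, m e) ^ 2 + γ * φ * ∑ e ∈ A, m e := by
  have hm0 : ∀ e, 0 ≤ m e := fun e => (hc e).1.trans (hc e).2
  have e1 : ∑ n ∈ J, Pn n * (∑ e ∈ E, c e * u e ((n : ℤ) - e)) ^ 2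
      = ∑ e ∈ E, ∑ e' ∈ E, c e * c e' * ∑ n ∈ J, Pn n * (u e ((n : ℤ) - e) * u e' ((n : ℤ) - e')) := by
    have : ∀ n ∈ J, Pn n * (∑ e ∈ E, c e * u e ((n : ℤ) - e)) ^ 2
        = ∑ e ∈ E, ∑ e' ∈ E, c e * c e' * (Pn n * (u e ((n : ℤ) - e) * u e' ((n : ℤ) - e'))) := by
      intro n _
      rw [pow_two, Finset.sum_mul_sum, Finset.mul_sum]
      refine Finset.sum_congr rfl fun e _ => ?_
      rw [Finset.mul_sum]
      refine Finset.sum_congr rfl fun e' _ => ?_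
      ring
    rw [Finset.sum_congr rfl this, Finset.sum_comm]
    refine Finset.sum_congr rfl fun e _ => ?_
    rw [Finset.sum_comm]
    refine Finset.sum_congr rfl fun e' _ => ?_
    rw [Finset.mul_sum]
  have e2 : ∀ e ∈ E, ∀ e' ∈ E, c e * c e' * ∑ n ∈ J, Pn n * (u e ((n : ℤ) - e) * u e' ((n : ℤ) - e'))
      ≤ β * (c e * c e') + (if e = e' then γ * (c e * c e) else 0) := by
    intro e he e' he'
    have hcc : 0 ≤ c e * c e' := mul_nonneg (hc e).1 (hc e').1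
    by_cases h : e = e'
    · subst h
      rw [if_pos rfl]
      have h4 : ∑ n ∈ J, Pn n * (u e ((n : ℤ) - e) * u e ((n : ℤ) - e)) ≤ γ := by
        refine le_trans (le_of_eq ?_) (h3 e he)
        refine Finset.sum_congr rfl fun n _ => ?_
        ring
      have h5 := mul_le_mul_of_nonneg_left h4 hcc
      have h6 : 0 ≤ β * (c e * c e) := mul_nonneg hβ hcc
      linarith
    · rw [if_neg h]
      have h5 := mul_le_mul_of_nonneg_left (h2 e he e' he' h) hcc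
      linarith
  rw [e1]
  refine (Finset.sum_le_sum fun e he => Finset.sum_le_sum fun e' he' => e2 e he e' he').trans ?_
  have e3 : ∑ e ∈ E, ∑ e' ∈ E, (β * (c e * c e') + (if e = e' then γ * (c e * c e) else 0))
      = β * (∑ e ∈ E, c e) ^ 2 + γ * ∑ e ∈ E, c e * c e := by
    simp only [Finset.sum_add_distrib]
    congr 1
    · rw [pow_two, Finset.sum_mul_sum, Finset.mul_sum]
      refine Finset.sum_congr rfl fun e _ => ?_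
      rw [Finset.mul_sum]
    · rw [Finset.mul_sum]
      refine Finset.sum_congr rfl fun e he => ?_
      rw [Finset.sum_ite_eq, if_pos he]
  rw [e3]
  have e4 : ∑ e ∈ E, c e ≤ ∑ e ∈ A, m e :=
    (Finset.sum_le_sum fun e _ => (hc e).2).trans
      (Finset.sum_le_sum_of_subset_of_nonneg hEA fun e _ _ => hm0 e)
  have e5 : ∑ e ∈ E, c e * c e ≤ φ * ∑ e ∈ A, m e := by
    rw [Finset.mul_sum]
    refine le_trans (Finset.sum_le_sum fun e _ => ?_)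
      (Finset.sum_le_sum_of_subset_of_nonneg (f := fun e => φ * m e) hEA fun e _ _ => ?_)
    · rw [← hm e, pow_two]
      exact mul_le_mul (hc e).2 (hc e).2 (hc e).1 (hm0 e)
    · rw [← hm e]
      exact sq_nonneg _
  have e6 : 0 ≤ ∑ e ∈ E, c e := Finset.sum_nonneg fun e _ => (hc e).1
  have e7 := mul_le_mul_of_nonneg_left (pow_le_pow_left₀ e6 e4 2) hβ
  have e8 := mul_le_mul_of_nonneg_left e5 hγ
  linarith

private lemma OFE_Q1 {W : ℕ} (hW : 0 < W) {M : ℤ → ℝ} (hper : ∀ n k : ℤ, M (n + k * (W : ℤ)) = M n)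
    (hM : ∀ n, 0 ≤ M n) (S D : Finset ℤ) (J : Finset ℕ) (P : ℕ → ℝ) (α : ℝ)
    (h : ∀ t ∈ Finset.range W, ∑ n ∈ J.filter (fun n => n % W = t), P n ≤ α) :
    ∑ n ∈ J, (∏ c ∈ S, M ((n : ℤ) - c)) * P n * (∑ e ∈ D, M ((n : ℤ) - e)) ≤
      α * ∑ t ∈ Finset.range W, (∏ c ∈ S, M ((t : ℤ) - c)) * (∑ e ∈ D, M ((t : ℤ) - e)) := by
  have hB : ∀ t : ℤ, 0 ≤ ∑ e ∈ D, M (t - e) := fun t => Finset.sum_nonneg fun _ _ => hM _
  rw [OFE_cls hW, Finset.mul_sum]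
  refine Finset.sum_le_sum fun t ht => ?_
  have e1 : ∑ n ∈ J.filter (fun n => n % W = t), (∏ c ∈ S, M ((n : ℤ) - c)) * P n *
      (∑ e ∈ D, M ((n : ℤ) - e)) = ((∏ c ∈ S, M ((t : ℤ) - c)) * (∑ e ∈ D, M ((t : ℤ) - e))) *
        ∑ n ∈ J.filter (fun n => n % W = t), P n := by
    rw [Finset.mul_sum]
    refine Finset.sum_congr rfl fun n hn => ?_
    have hnt := (Finset.mem_filter.mp hn).2
    rw [Finset.prod_congr rfl fun c _ => OFE_per hper hnt c,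
      Finset.sum_congr rfl fun e _ => OFE_per hper hnt e]
    ring
  rw [e1, mul_comm α]
  exact mul_le_mul_of_nonneg_left (h t ht) (mul_nonneg (Finset.prod_nonneg fun _ _ => hM _) (hB _))

private lemma OFE_Q2 {W : ℕ} (hW : 0 < W) {M : ℤ → ℝ} (hper : ∀ n k : ℤ, M (n + k * (W : ℤ)) = M n)
    (hM : ∀ n, 0 ≤ M n) (S D : Finset ℤ) (J : Finset ℕ) (P : ℕ → ℝ)
    (u : ℤ → ℤ → ℝ) (β γ φ : ℝ)
    (hβ : 0 ≤ β) (hγ : 0 ≤ γ) (hφ : 0 ≤ φ) (hMφ : ∀ n, M n ^ 2 = φ * M n)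
    (h2 : ∀ t ∈ Finset.range W, ∀ e ∈ D, ∀ e' ∈ D, e ≠ e' →
      ∑ n ∈ J.filter (fun n => n % W = t), P n * (u e ((n : ℤ) - e) * u e' ((n : ℤ) - e')) ≤ β)
    (h3 : ∀ t ∈ Finset.range W, ∀ e ∈ D,
      ∑ n ∈ J.filter (fun n => n % W = t), P n * u e ((n : ℤ) - e) ^ 2 ≤ γ) :
    ∑ n ∈ J, (∏ c ∈ S, M ((n : ℤ) - c)) * P n *
      (∑ e ∈ D, M ((n : ℤ) - e) * u e ((n : ℤ) - e)) ^ 2 /
        (∑ e ∈ D, M ((n : ℤ) - e)) ≤
      β * (∑ t ∈ Finset.range W, (∏ c ∈ S, M ((t : ℤ) - c)) * (∑ e ∈ D, M ((t : ℤ) - e))) +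
      γ * φ * (∑ t ∈ Finset.range W, ∏ c ∈ S, M ((t : ℤ) - c)) := by
  have hB : ∀ t : ℤ, 0 ≤ ∑ e ∈ D, M (t - e) := fun t => Finset.sum_nonneg fun _ _ => hM _
  rw [OFE_cls hW, Finset.mul_sum, Finset.mul_sum, ← Finset.sum_add_distrib]
  refine Finset.sum_le_sum fun t ht => ?_
  have e1 : ∑ n ∈ J.filter (fun n => n % W = t), (∏ c ∈ S, M ((n : ℤ) - c)) * P n *
      (∑ e ∈ D, M ((n : ℤ) - e) * u e ((n : ℤ) - e)) ^ 2 /
        (∑ e ∈ D, M ((n : ℤ) - e)) = (∏ c ∈ S, M ((t : ℤ) - c)) *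
        ((∑ n ∈ J.filter (fun n => n % W = t), P n *
          (∑ e ∈ D, M ((t : ℤ) - e) * u e ((n : ℤ) - e)) ^ 2) /
          (∑ e ∈ D, M ((t : ℤ) - e))) := by
    rw [Finset.sum_div, Finset.mul_sum]
    refine Finset.sum_congr rfl fun n hn => ?_
    have hnt := (Finset.mem_filter.mp hn).2
    have a1 : ∑ e ∈ D, M ((n : ℤ) - e) * u e ((n : ℤ) - e)
        = ∑ e ∈ D, M ((t : ℤ) - e) * u e ((n : ℤ) - e) := by
      refine Finset.sum_congr rfl fun e _ => ?_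
      rw [OFE_per hper hnt e]
    rw [a1, Finset.prod_congr rfl fun c _ => OFE_per hper hnt c,
      Finset.sum_congr (g := fun e => M ((t : ℤ) - e)) rfl fun e _ => OFE_per hper hnt e]
    ring
  rw [e1]
  have h4 := OFE_in (J.filter (fun n => n % W = t)) D D (Finset.Subset.refl _) P u
    (fun e => M ((t : ℤ) - e)) (fun e => M ((t : ℤ) - e)) β γ φ hβ hγ
    (fun e => ⟨hM _, le_rfl⟩)
    (fun e => hMφ _) (h2 t ht) (h3 t ht)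
  have hB0 := hB (t : ℤ)
  have hS0 : 0 ≤ ∏ c ∈ S, M ((t : ℤ) - c) := Finset.prod_nonneg fun _ _ => hM _
  obtain ⟨B, hBd⟩ : ∃ B : ℝ, B = ∑ e ∈ D, M ((t : ℤ) - e) := ⟨_, rfl⟩
  obtain ⟨R, hR⟩ : ∃ R : ℝ, R = ∏ c ∈ S, M ((t : ℤ) - c) := ⟨_, rfl⟩
  rw [← hBd] at hB0 h4 ⊢
  rw [← hR] at hS0 ⊢
  have h5 := div_le_div_of_nonneg_right h4 hB0
  have h6 : (β * B ^ 2 + γ * φ * B) / B ≤ β * B + γ * φ := by
    rcases hB0.eq_or_lt with h0 | h0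
    · rw [← h0]
      simp only [div_zero, mul_zero]
      positivity
    · apply le_of_eq
      field_simp
  have h7 := mul_le_mul_of_nonneg_left (h5.trans h6) hS0
  refine h7.trans (le_of_eq ?_)
  ring

private lemma OFE_cs {ι κ : Type*} (s : Finset ι) (r : Finset κ) (om Y B : ι → κ → ℝ)
    (hom : ∀ i ∈ s, ∀ k ∈ r, 0 ≤ om i k) (hB : ∀ i ∈ s, ∀ k ∈ r, 0 ≤ B i k)
    (h0 : ∀ i ∈ s, ∀ k ∈ r, B i k = 0 → Y i k = 0) :
    (∑ i ∈ s, ∑ k ∈ r, om i k * |Y i k|) ^ 2 ≤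
      (∑ i ∈ s, ∑ k ∈ r, om i k * B i k) * (∑ i ∈ s, ∑ k ∈ r, om i k * Y i k ^ 2 / B i k) := by
  rw [← Finset.sum_product' s r, ← Finset.sum_product' s r, ← Finset.sum_product' s r]
  apply Finset.sum_sq_le_sum_mul_sum_of_sq_le_mul
  · intro p hp
    rw [Finset.mem_product] at hp
    exact mul_nonneg (hom _ hp.1 _ hp.2) (hB _ hp.1 _ hp.2)
  · intro p hp
    rw [Finset.mem_product] at hp
    have := hom _ hp.1 _ hp.2
    have := hB _ hp.1 _ hp.2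
    positivity
  · intro p hp
    rw [Finset.mem_product] at hp
    rw [mul_pow, sq_abs]
    apply le_of_eq
    by_cases h : B p.1 p.2 = 0
    · rw [h, h0 _ hp.1 _ hp.2 h]
      ring
    · field_simp

private theorem OFE_ev (m b : ℕ) : ∃ X : ℝ, ∀ x : ℝ, X ≤ x →
    1 ≤ x ∧ 1 ≤ Real.log x ∧ 2 ≤ x ^ dlm m b ∧ (yy x : ℝ) ≤ x ^ dlm m b := by
  have h1 : ∀ᶠ x : ℝ in Filter.atTop, 1 ≤ x ∧ 1 ≤ Real.log x ∧ 2 ≤ x ^ dlm m b ∧ (yy x : ℝ) ≤ x ^ dlm m b := by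
    have e1 := tendsto_rpow_atTop (dlm_pos m b)
    have e3 := (isLittleO_log_rpow_atTop (dlm_pos m b)).bound (show (0 : ℝ) < 1 by norm_num)
    filter_upwards [Filter.eventually_ge_atTop (1 : ℝ), Real.tendsto_log_atTop.eventually_ge_atTop 1,
      e1.eventually_ge_atTop 2, e3] with x a1 a2 a3 a5
    refine ⟨a1, a2, a3, ?_⟩
    rw [one_mul, Real.norm_of_nonneg (by linarith), Real.norm_of_nonneg (by positivity)] at a5
    have hll : 0 ≤ Real.log (Real.log x) := Real.log_nonneg a2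
    have b1 : (yy x : ℝ) ≤ Real.log (Real.log x) / 100 := Nat.floor_le (by positivity)
    have b2 : Real.log (Real.log x) ≤ Real.log x - 1 := Real.log_le_sub_one_of_pos (by linarith)
    linarith
  exact Filter.eventually_atTop.1 h1

/-- final computation -/
private lemma OFE_num {T Q1 Q2 N W a b' g' T1 s φ q L C c : ℝ} {j b : ℕ} (hN : 0 ≤ N) (hW : 0 < W)
    (hT1 : 0 ≤ T1) (hs : 0 ≤ s) (hC : 0 < C) (hc : 0 < c) (hL : 0 ≤ L)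
    (ha : a = 2 ^ (j + 3) * (N / W)) (hb' : b' = 2 ^ (j + 5) * (1 / 2 : ℝ) ^ b * (N / W))
    (hg' : g' = 2 ^ (j + 4) * (C + 1) * q * (N / W))
    (hq : q * φ ≤ L / c)
    (hQ1 : Q1 ≤ a * (T1 * W)) (hQ2 : Q2 ≤ b' * (T1 * W) + g' * φ * (s * W)) (hQ20 : 0 ≤ Q2)
    (hT : T ^ 2 ≤ Q1 * Q2) :
    T ≤ 2 ^ (j + 4) * Real.sqrt (((1 / 2 : ℝ) ^ b * T1 + (C + 1) / c * L * s) * T1) * N := by
  obtain ⟨R, hR⟩ : ∃ R : ℝ, R = (1 / 2 : ℝ) ^ b * T1 + (C + 1) / c * L * s := ⟨_, rfl⟩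
  have hR0 : 0 ≤ R := by rw [hR]; positivity
  rw [← hR]
  have hRT : 0 ≤ R * T1 := mul_nonneg hR0 hT1
  have e1 : a * (T1 * W) = 2 ^ (j + 3) * N * T1 := by rw [ha]; field_simp
  have e2 : b' * (T1 * W) + g' * φ * (s * W) ≤ 2 ^ (j + 5) * N * R := by
    have f1 : b' * (T1 * W) = 2 ^ (j + 5) * N * ((1 / 2 : ℝ) ^ b * T1) := by
      rw [hb']; field_simp
    have f2 : g' * φ * (s * W) = 2 ^ (j + 4) * (C + 1) * N * s * (q * φ) := by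
      rw [hg']; field_simp
    have f4 : 2 ^ (j + 4) * (C + 1) * N * s * (q * φ)
        ≤ 2 ^ (j + 4) * (C + 1) * N * s * (L / c) :=
      mul_le_mul_of_nonneg_left hq (by positivity)
    have f5 : 2 ^ (j + 4) * (C + 1) * N * s * (L / c)
        = 2 ^ (j + 4) * N * ((C + 1) / c * L * s) := by
      field_simp
    have f6 : (0 : ℝ) ≤ 2 ^ (j + 4) * N * ((C + 1) / c * L * s) := by positivity
    have f7 : (2 : ℝ) ^ (j + 5) = 2 * 2 ^ (j + 4) := by rw [pow_succ]; ring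
    rw [f1, f2, hR]
    rw [f5] at f4
    have f8 : 2 ^ (j + 5) * N * ((1 / 2 : ℝ) ^ b * T1 + (C + 1) / c * L * s)
        = 2 ^ (j + 5) * N * ((1 / 2 : ℝ) ^ b * T1)
          + 2 * (2 ^ (j + 4) * N * ((C + 1) / c * L * s)) := by
      rw [f7]; ring
    rw [f8]
    linarith
  rw [e1] at hQ1
  have h1 : T ^ 2 ≤ (2 ^ (j + 4) * Real.sqrt (R * T1) * N) ^ 2 := by
    calc T ^ 2 ≤ Q1 * Q2 := hT
      _ ≤ (2 ^ (j + 3) * N * T1) * Q2 := mul_le_mul_of_nonneg_right hQ1 hQ20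
      _ ≤ (2 ^ (j + 3) * N * T1) * (2 ^ (j + 5) * N * R) :=
          mul_le_mul_of_nonneg_left (hQ2.trans e2) (by positivity)
      _ = (2 ^ (j + 4) * Real.sqrt (R * T1) * N) ^ 2 := by
          rw [mul_pow, mul_pow, Real.sq_sqrt hRT]
          have : (2 : ℝ) ^ (j + 3) * 2 ^ (j + 5) = (2 ^ (j + 4)) ^ 2 := by
            rw [← pow_add, ← pow_mul]
            congr 1
            ring
          rw [← this]
          ring
  exact le_of_sq_le_sq h1 (by positivity)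

private lemma OFE_Mφ (w : ℕ) (n : ℤ) : Mm w n ^ 2 = wp w * Mm w n := by
  unfold Mm
  split_ifs <;> ring

private lemma OFE_sW (x : ℝ) (S : Finset ℤ) :
    ∑ t ∈ Finset.range (WW (yy x)), ∏ c ∈ S, Mm (yy x) ((t : ℤ) - c) = sW x S * (WW (yy x) : ℝ) := by
  have h : (0 : ℝ) < (WW (yy x) : ℝ) := WW_pos_real _
  unfold sW avgP
  field_simp

private lemma OFE_sWs (x : ℝ) (S D : Finset ℤ) (hD : ∀ e ∈ D, e ∉ S) :
    ∑ t ∈ Finset.range (WW (yy x)), (∏ c ∈ S, Mm (yy x) ((t : ℤ) - c)) *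
      (∑ e ∈ D, Mm (yy x) ((t : ℤ) - e)) = (∑ e ∈ D, sW x (insert e S)) * (WW (yy x) : ℝ) := by
  rw [Finset.sum_mul]
  simp_rw [Finset.mul_sum]
  rw [Finset.sum_comm]
  refine Finset.sum_congr rfl fun e he => ?_
  rw [← OFE_sW]
  refine Finset.sum_congr rfl fun t _ => ?_
  rw [Finset.prod_insert (hD e he)]
  ring

theorem OFE (m b j : ℕ) (v η C : ℝ) (hη0 : 0 < η) (hη1 : η ≤ 1 / 20) (hj : j + 2 ≤ m)
    (hm : (j : ℝ) + 4 ≤ 10 * ((m : ℝ) + 1) * η) (hC : 0 < C) (hv : dlm m b < v) : ∃ C₁ X : ℝ, 0 < C₁ ∧ ∀ x : ℝ, X ≤ x →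
    ∀ V : ℤ → ℝ, GoodVm m b x V →
    ∀ (μ β : ℤ → ℝ) (F : ℤ → ℤ → ℝ), GoodE (dlm m b) v η C x μ β F →
    ∀ H : ℕ, (H : ℝ) ≤ (Real.log x) ^ 2 → ∀ S : Finset ℤ, S ⊆ Finset.Icc 1 (H : ℤ) → S.card ≤ j →
    ∀ E : Finset ℤ, E ⊆ Finset.Icc 1 (H : ℤ) \ S →
    ∀ A₀ : ℝ, 0 ≤ A₀ → ∀ G : ℤ → ℝ, (∀ n, |G n| ≤ A₀ * ∏ c ∈ S, (Mm (yy x) (n - c) * (1 + V (n - c)))) →
    |∑ n ∈ JJ x H, G (n : ℤ) * ∑ e ∈ E, Mm (yy x) ((n : ℤ) - e) * (V ((n : ℤ) - e) * F e ((n : ℤ) - e) - μ e)|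
      ≤ A₀ * 2 ^ (j + 4) * Real.sqrt (((1 / 2 : ℝ) ^ b * (∑ e ∈ E, sW x (insert e S)) + C₁ * Real.log x * sW x S) *
          ∑ e ∈ E, sW x (insert e S)) * ((⌊x⌋₊ : ℝ) + 1) := by
  obtain ⟨X₁, hX₁⟩ := CLE m b j v η C hη0 hη1 hj hm hC hv
  obtain ⟨c, hc, hmer⟩ := mer2
  obtain ⟨X₂, hX₂⟩ := OFE_ev m b
  refine ⟨(C + 1) / c, max X₁ X₂, by positivity, ?_⟩
  intro x hx V hV μ β F hF H hH S hSI hSj D hD A₀ hA₀ G hG
  obtain ⟨hx1, hL1, hz2, hwz⟩ := hX₂ x ((le_max_right _ _).trans hx)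
  have hcls := hX₁ x ((le_max_left _ _).trans hx) V hV μ β F hF H hH S hSI hSj
  simp only [JC] at hcls
  have hlogz : Real.log (x ^ dlm m b) ≤ Real.log x := by
    rw [Real.log_rpow (by linarith)]
    have h1 := dlm_le m b
    have h2 := dlm_pos m b
    nlinarith
  have hDS : ∀ e ∈ D, e ∉ S := fun e he => (Finset.mem_sdiff.1 (hD he)).2
  have hs1 := OFE_sW x S
  have hs2 := OFE_sWs x S D hDS
  have hsn : 0 ≤ sW x S := sW_nonneg x S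
  have hTn : 0 ≤ ∑ e ∈ D, sW x (insert e S) := Finset.sum_nonneg fun e _ => sW_nonneg x _
  obtain ⟨s, hs⟩ : ∃ s : ℝ, s = sW x S := ⟨_, rfl⟩
  obtain ⟨T1, hT1⟩ : ∃ T1 : ℝ, T1 = ∑ e ∈ D, sW x (insert e S) := ⟨_, rfl⟩
  rw [← hs] at hs1 hsn ⊢
  rw [← hT1] at hs2 hTn ⊢
  obtain ⟨w, hw⟩ : ∃ w : ℕ, w = yy x := ⟨_, rfl⟩
  obtain ⟨z, hz⟩ : ∃ z : ℝ, z = x ^ dlm m b := ⟨_, rfl⟩
  obtain ⟨N, hN⟩ : ∃ N : ℝ, N = (⌊x⌋₊ : ℝ) + 1 := ⟨_, rfl⟩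
  have hN0 : 0 < N := by rw [hN]; positivity
  have hWpos := WW_pos w
  have hWr := WW_pos_real w
  have hV0 : ∀ n, 0 ≤ V n := hV.1
  rw [← hw, ← hz, ← hN] at hcls
  rw [← hw] at hG hs1 hs2 ⊢
  rw [← hz] at hz2 hwz hlogz
  rw [← hw] at hwz
  rw [← hN]
  have hper : ∀ n k : ℤ, Mm w (n + k * (WW w : ℤ)) = Mm w n := Mm_period w
  obtain ⟨u, hu⟩ : ∃ u : ℤ → ℤ → ℝ, u = fun e n => V n * F e n - μ e := ⟨_, rfl⟩
  obtain ⟨P, hP⟩ : ∃ P : ℕ → ℝ, P = fun (n : ℕ) => ∏ c ∈ S, (1 + V ((n : ℤ) - c)) := ⟨_, rfl⟩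
  have hP0 : ∀ n, 0 ≤ P n := by
    intro n
    rw [hP]
    exact Finset.prod_nonneg fun c _ => by have := hV0 ((n : ℤ) - c); linarith
  obtain ⟨a, ha⟩ : ∃ a : ℝ, a = 2 ^ (j + 3) * (N / (WW w : ℝ)) := ⟨_, rfl⟩
  obtain ⟨b', hb'⟩ : ∃ b' : ℝ, b' = 2 ^ (j + 5) * (1 / 2 : ℝ) ^ b * (N / (WW w : ℝ)) := ⟨_, rfl⟩
  obtain ⟨g', hg'⟩ : ∃ g' : ℝ, g' = 2 ^ (j + 4) * (C + 1) * (EP (w : ℝ) z)⁻¹ * (N / (WW w : ℝ)) :=
    ⟨_, rfl⟩
  have hEP0 : 0 < EP (w : ℝ) z := EP_pos _ _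
  have hb0 : 0 ≤ b' := by rw [hb']; positivity
  have hg0 : 0 ≤ g' := by rw [hg']; positivity
  have Q1 := OFE_Q1 hWpos hper (Mm_nonneg w) S D (JJ x H) P a
    (fun t ht => by
      rw [hP, ha]
      exact (hcls t (Finset.mem_range.mp ht)).1)
  have Q2 := OFE_Q2 hWpos hper (Mm_nonneg w) S D (JJ x H) P u b' g' (wp w) hb0 hg0
    (wp_pos w).le (OFE_Mφ w)
    (fun t ht e he e' he' hne => by
      rw [hP, hb', hu]
      exact (hcls t (Finset.mem_range.mp ht)).2.1 e (hD he) e' (hD he') hne)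
    (fun t ht e he => by
      rw [hP, hg', hu]
      exact (hcls t (Finset.mem_range.mp ht)).2.2 e (hD he))
  rw [hs2] at Q1
  rw [hs1, hs2] at Q2
  obtain ⟨om, hom⟩ : ∃ om : ℕ → ℝ,
    om = fun (n : ℕ) => (∏ c ∈ S, Mm w ((n : ℤ) - c)) * P n := ⟨_, rfl⟩
  obtain ⟨Y, hY⟩ : ∃ Y : ℕ → ℝ,
    Y = fun (n : ℕ) => ∑ e ∈ D, Mm w ((n : ℤ) - e) * u e ((n : ℤ) - e) := ⟨_, rfl⟩
  have hom0 : ∀ n, 0 ≤ om n := by
    intro n
    rw [hom]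
    exact mul_nonneg (Finset.prod_nonneg fun _ _ => Mm_nonneg _ _) (hP0 n)
  have hcs := OFE_cs ({()} : Finset Unit) (JJ x H) (fun _ => om) (fun _ => Y)
    (fun _ (n : ℕ) => ∑ e ∈ D, Mm w ((n : ℤ) - e)) (fun _ _ n _ => hom0 n)
    (fun _ _ n _ => Finset.sum_nonneg fun _ _ => Mm_nonneg _ _)
    (by
      intro _ _ n _ h0
      rw [Finset.sum_eq_zero_iff_of_nonneg (fun _ _ => Mm_nonneg _ _)] at h0
      rw [hY]
      refine Finset.sum_eq_zero fun e he => ?_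
      rw [h0 e he]
      ring)
  rw [Finset.sum_singleton, Finset.sum_singleton, Finset.sum_singleton] at hcs
  obtain ⟨T, hT⟩ : ∃ T : ℝ, T = ∑ n ∈ JJ x H, om n * |Y n| := ⟨_, rfl⟩
  rw [← hT] at hcs
  have hq : (EP (w : ℝ) z)⁻¹ * wp w ≤ Real.log x / c := by
    rw [wp_eq, ← mul_inv, mul_comm (EP (w : ℝ) z), ← EP_mul (Nat.cast_nonneg w) hwz]
    have h1 := hmer z hz2
    have h2 : 0 < Real.log z := Real.log_pos (by linarith)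
    have h3 : (EP 0 z)⁻¹ ≤ (c / Real.log z)⁻¹ := inv_anti₀ (by positivity) h1
    rw [inv_div] at h3
    exact h3.trans (div_le_div_of_nonneg_right hlogz hc.le)
  have hQ20 : 0 ≤ ∑ n ∈ JJ x H, om n * Y n ^ 2 / (∑ e ∈ D, Mm w ((n : ℤ) - e)) := by
    refine Finset.sum_nonneg fun n _ => ?_
    exact div_nonneg (mul_nonneg (hom0 n) (sq_nonneg _))
      (Finset.sum_nonneg fun _ _ => Mm_nonneg _ _)
  have hfin := OFE_num (T := T) (j := j) (b := b) hN0.le hWr hTn hsn hC hc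
    (by linarith) ha hb' hg' hq (by rw [hom]; exact Q1)
    (by rw [hom, hY]; exact Q2) hQ20 hcs
  have hlhs : |∑ n ∈ JJ x H, G (n : ℤ) *
        ∑ e ∈ D, Mm w ((n : ℤ) - e) * (V ((n : ℤ) - e) * F e ((n : ℤ) - e) - μ e)|
      ≤ A₀ * T := by
    rw [hT, Finset.mul_sum]
    refine (Finset.abs_sum_le_sum_abs _ _).trans (Finset.sum_le_sum fun n _ => ?_)
    have e1 : ∑ e ∈ D, Mm w ((n : ℤ) - e) * (V ((n : ℤ) - e) * F e ((n : ℤ) - e) - μ e)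
        = Y n := by rw [hY, hu]
    rw [e1, abs_mul, ← mul_assoc]
    refine mul_le_mul_of_nonneg_right ?_ (abs_nonneg _)
    refine (hG (n : ℤ)).trans (le_of_eq ?_)
    rw [hom, hP]
    simp only
    rw [Finset.prod_mul_distrib]
  refine hlhs.trans ?_
  refine (mul_le_mul_of_nonneg_left hfin hA₀).trans (le_of_eq ?_)
  ring

end Pool.Agent.H96.FL
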