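import Pool.Agent.H96.FL.RGSa

/-!
# RGS: integers without small prime factors in `(A, R]`, on the logarithmic scale

`z = x ^ dlm m b`, `w = yy x`. The products `r = ∏ U` of the sets `U ⊆ PI z R` with `A < r ≤ R` are different squarefree integers without prime factor `≤ z`, with at most `1/δ` prime factors (`r ≤ x`, `δ = dlm m b`), so `sa U = ∏ 1/(p-1) ≤ (1 - 1/z)^(-1/δ)/r ≤ (1 + ε')/r` for large `x`.
For integers `r` without prime factor `≤ z`: `1 = EP w z * V r` (`GoodVm`, second part) and `Mm w r = wp w = (EP 0 w)⁻¹` (`wp_eq`), `EP 0 w * EP w z = EP 0 z` (`EP_mul`): `1 = EP 0 z * (Mm w r * V r)` (see the proofs of `MJ`, `BMU_maj`). So the sum is at most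
`(1+ε') EP 0 z ∑_{A < r ≤ R} Mm w r * V r / r` (all integers `r`; the map `U ↦ ∏ U` is injective on sets of primes), and `RGSa`.
-/

set_option autoImplicit false

namespace Pool.Agent.H96.FL

open Finset Pool.Agent.H17 Pool.Agent.H6.MF Pool.Agent.H6.MB Pool.Agent.H12.DM Pool.Agent.H6.AE Pool.Agent.H96.AE Pool.Agent.H96.AS

private theorem RGS_large (δ ε' : ℝ) (hd : 0 < δ) (hε : 0 < ε') : ∃ X : ℝ, ∀ x : ℝ, X ≤ x → 3 ≤ x ∧ 1 ≤ Real.log x ∧
    (yy x : ℝ) ≤ x ^ δ ∧ 2 ≤ x ^ δ ∧ (x ^ δ / (x ^ δ - 1)) ^ ⌊1 / δ⌋₊ ≤ 1 + ε' := by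
  have h1 : ∀ᶠ x : ℝ in Filter.atTop, 3 ≤ x := Filter.eventually_ge_atTop 3
  have h2 : ∀ᶠ x : ℝ in Filter.atTop, 1 ≤ Real.log x := Real.tendsto_log_atTop.eventually_ge_atTop 1
  have h4 : ∀ᶠ t : ℝ in Filter.atTop, ‖Real.log t‖ ≤ δ * ‖id t‖ := Real.isLittleO_log_id_atTop.bound hd
  have h5 : ∀ᶠ x : ℝ in Filter.atTop, ‖Real.log (Real.log x)‖ ≤ δ * ‖id (Real.log x)‖ :=
    Real.tendsto_log_atTop.eventually h4
  have hz : Filter.Tendsto (fun x : ℝ => x ^ δ) Filter.atTop Filter.atTop := tendsto_rpow_atTop hd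
  have h6 : ∀ᶠ x : ℝ in Filter.atTop, 2 ≤ x ^ δ := hz.eventually_ge_atTop 2
  have h7 : Filter.Tendsto (fun z : ℝ => (1 + (z - 1)⁻¹) ^ ⌊1 / δ⌋₊) Filter.atTop (nhds 1) := by
    have e1 : Filter.Tendsto (fun z : ℝ => z - 1) Filter.atTop Filter.atTop := Filter.tendsto_atTop_add_const_right _ _ Filter.tendsto_id
    have e2 := e1.inv_tendsto_atTop
    have e3 := (e2.const_add 1).pow ⌊1 / δ⌋₊
    simpa using e3
  have h8 : ∀ᶠ z : ℝ in Filter.atTop, (1 + (z - 1)⁻¹) ^ ⌊1 / δ⌋₊ ≤ 1 + ε' :=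
    (h7.eventually (gt_mem_nhds (show (1 : ℝ) < 1 + ε' by linarith))).mono fun z hz => le_of_lt hz
  have h9 := hz.eventually h8
  obtain ⟨X, hX⟩ := Filter.eventually_atTop.1 (h1.and (h2.and (h5.and (h6.and h9))))
  refine ⟨X, fun x hx => ?_⟩
  obtain ⟨a1, a2, a4, a5, a6⟩ := hX x hx
  refine ⟨a1, a2, ?_, a5, ?_⟩
  · have e1 : 0 ≤ Real.log (Real.log x) := Real.log_nonneg a2
    have e2 : Real.log (Real.log x) ≤ δ * Real.log x := by
      simp only [id, Real.norm_eq_abs] at a4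
      rw [abs_of_nonneg e1, abs_of_nonneg (by linarith)] at a4
      exact a4
    have e3 : ((yy x : ℕ) : ℝ) ≤ Real.log (Real.log x) / 100 := by
      unfold yy
      exact Nat.floor_le (by positivity)
    have e4 : x ^ δ = Real.exp (Real.log x * δ) := Real.rpow_def_of_pos (by linarith) _
    rw [e4]
    have e5 := Real.add_one_le_exp (Real.log x * δ)
    linarith
  · have e1 : x ^ δ / (x ^ δ - 1) = 1 + (x ^ δ - 1)⁻¹ := by
      have : x ^ δ - 1 ≠ 0 := by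
        intro h
        linarith
      field_simp
      ring
    rw [e1]
    exact a6

/-- the size of `∏ 1/(p-1)` -/
private theorem RGS_sa {x δ ε' : ℝ} (hx : 3 ≤ x) (hd : 0 < δ) (hz : 2 ≤ x ^ δ)
    (hk : (x ^ δ / (x ^ δ - 1)) ^ ⌊1 / δ⌋₊ ≤ 1 + ε') {R : ℝ} (hR : 0 ≤ R) (hRx : R ≤ x) {U : Finset ℕ}
    (hU : U ⊆ PI (x ^ δ) R) (hUR : (∏ p ∈ U, (p : ℝ)) ≤ R) :
    sa U ≤ (1 + ε') * (1 / ∏ p ∈ U, (p : ℝ)) := by
  have hmem : ∀ p ∈ U, x ^ δ < (p : ℝ) := fun p hp => ((MAJ_mem hR).1 (hU hp)).2.1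
  have hx0 : 0 < x := by linarith
  -- the number of factors
  have hc1 : (x ^ δ) ^ U.card ≤ x := by
    calc (x ^ δ) ^ U.card = ∏ _p ∈ U, x ^ δ := by rw [Finset.prod_const]
      _ ≤ ∏ p ∈ U, (p : ℝ) := Finset.prod_le_prod (fun p _ => by positivity) fun p hp => (hmem p hp).le
      _ ≤ x := hUR.trans hRx
  have hc2 : δ * U.card ≤ 1 := by
    rw [← Real.rpow_natCast, ← Real.rpow_mul hx0.le] at hc1
    have e1 : x ^ (δ * (U.card : ℝ)) ≤ x ^ (1 : ℝ) := by rw [Real.rpow_one]; exact hc1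
    exact (Real.rpow_le_rpow_left_iff (by linarith)).1 e1
  have hc3 : U.card ≤ ⌊1 / δ⌋₊ := by
    apply Nat.le_floor
    rw [le_div_iff₀ hd]
    linarith
  have hq1 : 1 ≤ x ^ δ / (x ^ δ - 1) := by
    rw [le_div_iff₀ (by linarith)]
    linarith
  have h1 : sa U ≤ ∏ p ∈ U, (x ^ δ / (x ^ δ - 1)) * (1 / (p : ℝ)) := by
    unfold sa
    refine Finset.prod_le_prod (fun p hp => ?_) fun p hp => ?_
    · have := hmem p hp
      apply div_nonneg zero_le_one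
      linarith
    · have := hmem p hp
      rw [div_mul_div_comm, mul_one, div_le_div_iff₀ (by linarith) (by nlinarith)]
      nlinarith
  rw [Finset.prod_mul_distrib, Finset.prod_const] at h1
  have h2 : ∏ p ∈ U, 1 / (p : ℝ) = 1 / ∏ p ∈ U, (p : ℝ) := by
    rw [Finset.prod_div_distrib, Finset.prod_const_one]
  rw [h2] at h1
  have h3 : (0 : ℝ) < ∏ p ∈ U, (p : ℝ) := Finset.prod_pos fun p hp => by
    have := hmem p hp
    linarith
  have h4 : (x ^ δ / (x ^ δ - 1)) ^ U.card ≤ (x ^ δ / (x ^ δ - 1)) ^ ⌊1 / δ⌋₊ := pow_le_pow_right₀ hq1 hc3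
  refine h1.trans ?_
  apply mul_le_mul_of_nonneg_right (h4.trans hk)
  positivity

/-- `1 = EP 0 z * (Mm w r * V r)` for the rough integers -/
private theorem RGS_one {m b : ℕ} {x : ℝ} (hx : 0 < x) (hw : (yy x : ℝ) ≤ x ^ dlm m b) {V : ℤ → ℝ} (hV : GoodVm m b x V)
    {r : ℕ} (hr : ∀ p : ℕ, p.Prime → (p : ℝ) ≤ x ^ dlm m b → ¬ p ∣ r) :
    EP 0 (x ^ dlm m b) * (Mm (yy x) (r : ℤ) * V (r : ℤ)) = 1 := by
  have hMm : Mm (yy x) (r : ℤ) = wp (yy x) := by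
    unfold Mm
    rw [if_pos]
    rw [Int.gcd_natCast_natCast]
    show r.Coprime (WW (yy x))
    rw [coprime_WW]
    intro p hpm
    have hpm' := mem_PP.mp hpm
    refine hr p hpm'.2 ?_
    have : (p : ℝ) ≤ (yy x : ℝ) := by exact_mod_cast hpm'.1
    linarith
  have hVn : V (r : ℤ) = (EP (yy x : ℝ) (x ^ dlm m b))⁻¹ := by
    apply hV.2.1
    intro p hpp hdv
    have hq := Vc_memPI (by positivity) hpp
    refine hr p hq.1 hq.2 ?_
    exact_mod_cast hdv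
  rw [hMm, hVn, wp_eq, ← mul_inv, ← EP_mul (by positivity) hw]
  have hpos := EP_pos 0 (x ^ dlm m b)
  exact mul_inv_cancel₀ hpos.ne'

theorem RGS (m b : ℕ) (hm1 : 1 ≤ m) (τ ε : ℝ) (hτ : 1 / (10 * ((m : ℝ) + 1)) < τ) (hε : 0 < ε) : ∃ X : ℝ, ∀ x : ℝ, X ≤ x →
    ∀ V : ℤ → ℝ, GoodVm m b x V → ∀ A R : ℝ, x ^ τ ≤ A → A ≤ R → R ≤ x →
    sH (PI (x ^ dlm m b) R) A R ≤
      EP 0 (x ^ dlm m b) * ((1 + 4 * (1 / 2 : ℝ) ^ b + ε) * Real.log (R / A) + ε) := by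
  have hd := dlm_pos m b
  have hε' : 0 < ε / (10 + ε) := by positivity
  obtain ⟨X₁, hX₁⟩ := RGSa m b hm1 τ (ε / 2) hτ (by positivity)
  obtain ⟨X₂, hX₂⟩ := RGS_large (dlm m b) (ε / (10 + ε)) hd hε'
  refine ⟨max X₁ X₂, fun x hx V hV A R hA hAR hR => ?_⟩
  obtain ⟨a1, a2, a3, a4, a5⟩ := hX₂ x ((le_max_right _ _).trans hx)
  have hsum := hX₁ x ((le_max_left _ _).trans hx) V hV A R hA hAR hR
  set ε' := ε / (10 + ε) with hε'def
  set z := x ^ dlm m b with hz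
  have hx0 : 0 < x := by linarith
  have hA0 : 0 < A := lt_of_lt_of_le (by positivity) hA
  have hR0 : 0 < R := lt_of_lt_of_le hA0 hAR
  have hEP := EP_pos 0 z
  have hgn : ∀ n : ℕ, 0 ≤ (1 + ε') * (EP 0 z * (Mm (yy x) (n : ℤ) * V (n : ℤ) / (n : ℝ))) := by
    intro n
    have e1 := hV.1 (n : ℤ)
    have e2 := Mm_nonneg (yy x) (n : ℤ)
    positivity
  -- the sum over the sets of primes
  have hmain : sH (PI z R) A R ≤ ∑ n ∈ Finset.Ioc ⌊A⌋₊ ⌊R⌋₊,
      (1 + ε') * (EP 0 z * (Mm (yy x) (n : ℤ) * V (n : ℤ) / (n : ℝ))) := by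
    unfold sH
    have hprime : ∀ U ∈ (PI z R).powerset.filter (fun U : Finset ℕ => A < (∏ p ∈ U, (p : ℝ)) ∧ (∏ p ∈ U, (p : ℝ)) ≤ R),
        ∀ p ∈ U, p.Prime ∧ z < (p : ℝ) := by
      intro U hU p hp
      have h1 := Finset.mem_powerset.1 (Finset.mem_filter.1 hU).1
      have h2 := (MAJ_mem hR0.le).1 (h1 hp)
      exact ⟨h2.1, h2.2.1⟩
    calc _ ≤ ∑ U ∈ (PI z R).powerset.filter (fun U : Finset ℕ => A < (∏ p ∈ U, (p : ℝ)) ∧ (∏ p ∈ U, (p : ℝ)) ≤ R),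
          (fun n : ℕ => (1 + ε') * (EP 0 z * (Mm (yy x) (n : ℤ) * V (n : ℤ) / (n : ℝ)))) (∏ p ∈ U, p) := by
          refine Finset.sum_le_sum fun U hU => ?_
          have hU' := Finset.mem_filter.1 hU
          have h1 := RGS_sa a1 hd a4 a5 hR0.le hR (Finset.mem_powerset.1 hU'.1) hU'.2.2
          have h2 := RGS_one hx0 a3 hV (r := ∏ p ∈ U, p) (by
            intro q hq hqz hqd
            obtain ⟨p, hp, hqp⟩ := (Prime.dvd_finsetProd_iff hq.prime _).1 hqd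
            have h3 := hprime U hU p hp
            rw [(Nat.prime_dvd_prime_iff_eq hq h3.1).1 hqp] at hqz
            linarith [h3.2])
          refine h1.trans (le_of_eq ?_)
          simp only
          rw [← hz] at h2
          rw [← mul_div_assoc (EP 0 z), h2, Nat.cast_prod]
      _ = ∑ n ∈ ((PI z R).powerset.filter (fun U : Finset ℕ => A < (∏ p ∈ U, (p : ℝ)) ∧ (∏ p ∈ U, (p : ℝ)) ≤ R)).image
          (fun U => ∏ p ∈ U, p), (1 + ε') * (EP 0 z * (Mm (yy x) (n : ℤ) * V (n : ℤ) / (n : ℝ))) := by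
          rw [Finset.sum_image]
          intro U hU U' hU' hUU
          have e1 := Nat.primeFactors_prod (fun p hp => (hprime U hU p hp).1)
          have e2 := Nat.primeFactors_prod (fun p hp => (hprime U' hU' p hp).1)
          rw [← e1, ← e2]
          exact congrArg _ hUU
      _ ≤ _ := by
          apply Finset.sum_le_sum_of_subset_of_nonneg
          · intro n hn
            obtain ⟨U, hU, rfl⟩ := Finset.mem_image.1 hn
            have hU' := (Finset.mem_filter.1 hU).2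
            rw [Finset.mem_Ioc, Nat.floor_lt hA0.le, Nat.le_floor_iff hR0.le, Nat.cast_prod]
            exact hU'
          · intro n _ _
            exact hgn n
  rw [← Finset.mul_sum, ← Finset.mul_sum] at hmain
  refine hmain.trans ?_
  have hlog : 0 ≤ Real.log (R / A) := by
    apply Real.log_nonneg
    rw [le_div_iff₀ hA0]
    linarith
  have hb : (1 / 2 : ℝ) ^ b ≤ 1 := pow_le_one₀ (by norm_num) (by norm_num)
  have hb0 : (0 : ℝ) ≤ (1 / 2 : ℝ) ^ b := by positivity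
  have hε1 : ε' ≤ 1 := by
    rw [hε'def, div_le_one (by positivity)]
    linarith
  have hε2 : ε' * (5 + ε / 2) = ε / 2 := by
    rw [hε'def]
    field_simp
    ring
  rw [mul_left_comm]
  apply mul_le_mul_of_nonneg_left _ hEP.le
  calc (1 + ε') * ∑ n ∈ Finset.Ioc ⌊A⌋₊ ⌊R⌋₊, Mm (yy x) (n : ℤ) * V (n : ℤ) / (n : ℝ)
      ≤ (1 + ε') * ((1 + 4 * (1 / 2 : ℝ) ^ b + ε / 2) * Real.log (R / A) + ε / 2) := by
        apply mul_le_mul_of_nonneg_left hsum
        positivity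
    _ = (1 + 4 * (1 / 2 : ℝ) ^ b + ε / 2 + ε' * (1 + 4 * (1 / 2 : ℝ) ^ b + ε / 2)) * Real.log (R / A) + (1 + ε') * (ε / 2) := by
        ring
    _ ≤ (1 + 4 * (1 / 2 : ℝ) ^ b + ε) * Real.log (R / A) + ε := by
        apply add_le_add
        · apply mul_le_mul_of_nonneg_right _ hlog
          have : ε' * (1 + 4 * (1 / 2 : ℝ) ^ b + ε / 2) ≤ ε' * (5 + ε / 2) := by
            apply mul_le_mul_of_nonneg_left _ hε'.le
            linarith
          linarith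
        · nlinarith

end Pool.Agent.H96.FL
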