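import Pool.Agent.H96.FL.Df
import Pool.Agent.H96.AE.TRN

/-!
# RGSa: the weight `Mm w * V` in `(A, R]` on the logarithmic scale

`w = yy x`, `W = WW w ≤ log x` (`MAJ_W`), `P = PR w z` (period of `V`, coprime to `W`: `MAJ_copW`). By `TRN` (`Pool/Agent/H6/MB/TDT.lean`; or `Pool/Agent/H96/AE/TRN.lean`) in the residue classes `t` modulo `W` (`Mm w` is constant on them: `Mm_period`), `TD` bound `x^(1/(10(m+1)))`:
`Φ(M) = ∑_{r < M} Mm w r * V r = a M + O*(E)`, `a = avg V * avg Mm`, `avg Mm = 1` (sum over a period of `Mm w`), `a ≤ 1 + 4 (1/2)^b` (`GoodVm` with `s = {0}`, exponent `1`, needs `1 ≤ m`), `E ≤ 2 (wp w) W x^(1/(10(m+1))) + 2 a ≤ x^(τ')` for some `τ' < τ` and large `x`.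
Summation by parts (`1/r - 1/(r+1) = 1/(r(r+1))`; all terms are `≥ 0`): `∑_{A<r≤R} Mm V/r ≤ a (log (R/A) + 2/A) + 4 E/A`, and `E/A ≤ x^(τ'-τ) → 0`. (Alternatively cut `(A, R]` into intervals `(y, (1+κ) y]`.)
-/

set_option autoImplicit false

namespace Pool.Agent.H96.FL

open Finset Pool.Agent.H17 Pool.Agent.H6.MF Pool.Agent.H6.MB Pool.Agent.H12.DM Pool.Agent.H6.AE Pool.Agent.H96.AE Pool.Agent.H96.AS

lemma RGSa_Msum (y : ℕ) : ∑ i ∈ Finset.range (WW y), Mm y (i : ℤ) = (WW y : ℝ) := by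
  have h1 : ∀ i ∈ Finset.range (WW y), Mm y (i : ℤ) = if (WW y).Coprime i then wp y else 0 := by
    intro i _
    unfold Mm
    have e : Int.gcd (i : ℤ) (WW y : ℤ) = Nat.gcd i (WW y) := Int.gcd_natCast_natCast _ _
    rw [e, Nat.gcd_comm]
  rw [Finset.sum_congr rfl h1, ← Finset.sum_filter, Finset.sum_const, nsmul_eq_mul,
    ← Nat.totient_eq_card_coprime]
  unfold wp
  have := tot_pos_real y
  field_simp

/-- the sum of `Mm V` over an initial segment -/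
lemma RGSa_range {y P : ℕ} {B : ℝ} {V : ℤ → ℝ} (hV : TD P B V) (hP : 0 < P) (hc : (WW y).Coprime P)
    (M : ℕ) : |∑ n ∈ Finset.range M, Mm y (n : ℤ) * V (n : ℤ) - (M : ℝ) * avgP P V| ≤ B * (WW y : ℝ) := by
  have hW := WW_pos_real y
  have h1 : ∑ n ∈ Finset.range M, Mm y (n : ℤ) * V (n : ℤ) =
      ∑ t ∈ Finset.range (WW y), Mm y (t : ℤ) *
        ∑ n ∈ (Finset.range M).filter (fun n => n % WW y = t), V (n : ℤ) := by
    rw [← Finset.sum_fiberwise_of_maps_to (g := fun n => n % WW y) (t := Finset.range (WW y))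
      (fun n _ => Finset.mem_range.2 (Nat.mod_lt n (WW_pos y)))]
    refine Finset.sum_congr rfl fun t _ => ?_
    rw [Finset.mul_sum]
    refine Finset.sum_congr rfl fun n hn => ?_
    have h2 : n % WW y = t := (Finset.mem_filter.1 hn).2
    have h3 : ((n : ℕ) : ℤ) = (t : ℤ) + ((n / WW y : ℕ) : ℤ) * (WW y : ℤ) := by
      have h4 := Nat.div_add_mod n (WW y)
      rw [h2] at h4
      have h5 : ((WW y * (n / WW y) + t : ℕ) : ℤ) = (n : ℤ) := by exact_mod_cast h4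
      rw [← h5]
      push_cast
      ring
    have h6 : Mm y (n : ℤ) = Mm y (t : ℤ) := by
      rw [h3, Mm_period]
    rw [h6]
  have h2 : (M : ℝ) * avgP P V = ∑ t ∈ Finset.range (WW y), Mm y (t : ℤ) *
      ((M : ℝ) / (WW y : ℝ) * avgP P V) := by
    rw [← Finset.sum_mul, RGSa_Msum]
    field_simp
  rw [h1, h2, ← Finset.sum_sub_distrib]
  calc |∑ t ∈ Finset.range (WW y), (Mm y (t : ℤ) *
        ∑ n ∈ (Finset.range M).filter (fun n => n % WW y = t), V (n : ℤ) -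
          Mm y (t : ℤ) * ((M : ℝ) / (WW y : ℝ) * avgP P V))|
      ≤ ∑ t ∈ Finset.range (WW y), |Mm y (t : ℤ) *
        ∑ n ∈ (Finset.range M).filter (fun n => n % WW y = t), V (n : ℤ) -
          Mm y (t : ℤ) * ((M : ℝ) / (WW y : ℝ) * avgP P V)| := Finset.abs_sum_le_sum_abs _ _
    _ ≤ ∑ t ∈ Finset.range (WW y), Mm y (t : ℤ) * B := by
        refine Finset.sum_le_sum fun t ht => ?_
        rw [← mul_sub, abs_mul, abs_of_nonneg (Mm_nonneg y t)]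
        exact mul_le_mul_of_nonneg_left
          (TRN hV (WW_pos y) hc (Finset.mem_range.1 ht) M hP) (Mm_nonneg y t)
    _ = B * (WW y : ℝ) := by
        rw [← Finset.sum_mul, RGSa_Msum, mul_comm]

/-- summation by parts -/
lemma RGSa_parts (E : ℕ → ℝ) (E0 : ℝ) (hE : ∀ n, |E n| ≤ E0) (n1 : ℕ) (N : ℕ) (hN : n1 ≤ N) :
    |∑ r ∈ Finset.Ioc n1 N, (E (r + 1) - E r) / (r : ℝ) - E (N + 1) / ((N : ℝ) + 1)| ≤
      E0 * (2 / ((n1 : ℝ) + 1) - 1 / ((N : ℝ) + 1)) := by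
  induction N, hN using Nat.le_induction with
  | base =>
    rw [Finset.Ioc_self, Finset.sum_empty, zero_sub, abs_neg, abs_div]
    have h1 : (0 : ℝ) < (n1 : ℝ) + 1 := by positivity
    rw [abs_of_pos h1]
    have h2 : E0 * (2 / ((n1 : ℝ) + 1) - 1 / ((n1 : ℝ) + 1)) = E0 / ((n1 : ℝ) + 1) := by
      field_simp
      ring
    rw [h2]
    exact div_le_div_of_nonneg_right (hE _) h1.le
  | succ N hN ih =>
    rw [Finset.sum_Ioc_succ_top (by omega)]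
    have hp : (0 : ℝ) < (N : ℝ) + 1 := by positivity
    have hp2 : (0 : ℝ) < (N : ℝ) + 1 + 1 := by positivity
    have hmono : 1 / ((N : ℝ) + 1 + 1) ≤ 1 / ((N : ℝ) + 1) :=
      one_div_le_one_div_of_le hp (by linarith)
    push_cast
    have e1 : ∑ r ∈ Finset.Ioc n1 N, (E (r + 1) - E r) / (r : ℝ) +
        (E (N + 1 + 1) - E (N + 1)) / ((N : ℝ) + 1) - E (N + 1 + 1) / ((N : ℝ) + 1 + 1) =
        (∑ r ∈ Finset.Ioc n1 N, (E (r + 1) - E r) / (r : ℝ) - E (N + 1) / ((N : ℝ) + 1)) +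
          E (N + 1 + 1) * (1 / ((N : ℝ) + 1) - 1 / ((N : ℝ) + 1 + 1)) := by
      ring
    rw [e1]
    refine (abs_add_le _ _).trans ?_
    have h3 : |E (N + 1 + 1) * (1 / ((N : ℝ) + 1) - 1 / ((N : ℝ) + 1 + 1))| ≤
        E0 * (1 / ((N : ℝ) + 1) - 1 / ((N : ℝ) + 1 + 1)) := by
      rw [abs_mul, abs_of_nonneg (sub_nonneg.2 hmono)]
      exact mul_le_mul_of_nonneg_right (hE _) (sub_nonneg.2 hmono)
    calc _ ≤ E0 * (2 / ((n1 : ℝ) + 1) - 1 / ((N : ℝ) + 1)) +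
        E0 * (1 / ((N : ℝ) + 1) - 1 / ((N : ℝ) + 1 + 1)) := add_le_add ih h3
      _ = _ := by ring

lemma RGSa_log (n1 N : ℕ) (hN : n1 + 1 ≤ N) :
    ∑ r ∈ Finset.Ioc n1 N, 1 / (r : ℝ) ≤
      1 / ((n1 : ℝ) + 1) + Real.log ((N : ℝ) / ((n1 : ℝ) + 1)) := by
  induction N, hN using Nat.le_induction with
  | base =>
    rw [Finset.sum_Ioc_succ_top (le_refl _), Finset.Ioc_self, Finset.sum_empty, zero_add]
    push_cast
    rw [div_self (by positivity), Real.log_one, add_zero]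
  | succ N hN ih =>
    rw [Finset.sum_Ioc_succ_top (by omega)]
    have hN0 : (0 : ℝ) < (N : ℝ) := by
      have : 0 < N := by omega
      exact_mod_cast this
    have hn1 : (0 : ℝ) < (n1 : ℝ) + 1 := by positivity
    push_cast
    have h1 : Real.log (((N : ℝ) + 1) / ((n1 : ℝ) + 1)) =
        Real.log ((N : ℝ) / ((n1 : ℝ) + 1)) - Real.log ((N : ℝ) / ((N : ℝ) + 1)) := by
      rw [Real.log_div (by positivity) hn1.ne', Real.log_div hN0.ne' hn1.ne',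
        Real.log_div hN0.ne' (by positivity)]
      ring
    have h2 : Real.log ((N : ℝ) / ((N : ℝ) + 1)) ≤ (N : ℝ) / ((N : ℝ) + 1) - 1 :=
      Real.log_le_sub_one_of_pos (by positivity)
    have h3 : (N : ℝ) / ((N : ℝ) + 1) - 1 = -(1 / ((N : ℝ) + 1)) := by
      field_simp
      ring
    rw [h1]
    linarith

lemma RGSa_avg {m b : ℕ} (hm1 : 1 ≤ m) {x : ℝ} {V : ℤ → ℝ} (hV : GoodVm m b x V) :
    avgP (PR (yy x : ℝ) (x ^ dlm m b)) V ≤ 1 + 4 * (1 / 2 : ℝ) ^ b := by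
  have h := hV.2.2.2.1 {0} (by rw [Finset.card_singleton]; exact hm1) (fun _ => 1)
    (fun _ => ⟨le_refl _, hm1⟩)
  have e1 : (fun t : ℤ => ∏ a ∈ ({0} : Finset ℤ), V (t + a) ^ (fun _ : ℤ => 1) a) = V := by
    funext t
    rw [Finset.prod_singleton, add_zero, pow_one]
  have e2 : (PI (yy x : ℝ) (x ^ dlm m b)).filter (fun p : ℕ => ∃ a ∈ ({0} : Finset ℤ),
      ∃ a' ∈ ({0} : Finset ℤ), a ≠ a' ∧ (p : ℤ) ∣ a - a') = ∅ := by
    apply Finset.filter_eq_empty_iff.2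
    rintro p _ ⟨a, ha, a', ha', hne, _⟩
    rw [Finset.mem_singleton] at ha ha'
    exact hne (ha.trans ha'.symm)
  rw [e1, e2, Finset.prod_empty, Finset.sum_singleton, Nat.sub_self, pow_zero, mul_one, mul_one] at h
  exact h

theorem RGSa (m b : ℕ) (hm1 : 1 ≤ m) (τ ε : ℝ) (hτ : 1 / (10 * ((m : ℝ) + 1)) < τ) (hε : 0 < ε) : ∃ X : ℝ, ∀ x : ℝ, X ≤ x →
    ∀ V : ℤ → ℝ, GoodVm m b x V → ∀ A R : ℝ, x ^ τ ≤ A → A ≤ R → R ≤ x →
    ∑ r ∈ Finset.Ioc ⌊A⌋₊ ⌊R⌋₊, Mm (yy x) (r : ℤ) * V (r : ℤ) / (r : ℝ) ≤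
      (1 + 4 * (1 / 2 : ℝ) ^ b + ε) * Real.log (R / A) + ε := by
  have hτ0 : 0 < 1 / (10 * ((m : ℝ) + 1)) := by positivity
  obtain ⟨τ₀, hτ₀⟩ : ∃ τ₀ : ℝ, τ₀ = 1 / (10 * ((m : ℝ) + 1)) := ⟨_, rfl⟩
  rw [← hτ₀] at hτ hτ0
  have hlog : ∀ᶠ x : ℝ in Filter.atTop, Real.log x ≤ (ε / 4) * x ^ (τ - τ₀) := by
    have h1 := (isLittleO_log_rpow_atTop (sub_pos.2 hτ)).bound (show (0 : ℝ) < ε / 4 by positivity)
    filter_upwards [h1, Filter.eventually_ge_atTop (1 : ℝ)] with x hx hx1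
    rw [Real.norm_of_nonneg (Real.log_nonneg hx1),
      Real.norm_of_nonneg (Real.rpow_nonneg (by linarith) _)] at hx
    exact hx
  have hpow : ∀ᶠ x : ℝ in Filter.atTop, 10 / ε ≤ x ^ τ :=
    (tendsto_rpow_atTop (hτ0.trans hτ)).eventually_ge_atTop _
  obtain ⟨X, hX⟩ := Filter.eventually_atTop.1
    (hlog.and (hpow.and ((Filter.eventually_ge_atTop (Real.exp 1)).and
      (Filter.eventually_ge_atTop (1 : ℝ)))))
  refine ⟨X, fun x hx V hV A R hA hAR _ => ?_⟩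
  obtain ⟨hx1, hx2, hx3, hx4⟩ := hX x hx
  have hx0 : 0 < x := by linarith
  have hL : 1 ≤ Real.log x := by
    rw [Real.le_log_iff_exp_le hx0]
    exact hx3
  have hW := MAJ_W hL
  have hP : 0 < PR (yy x : ℝ) (x ^ dlm m b) := MAJ_PR_pos _ _
  have hcop : (WW (yy x)).Coprime (PR (yy x : ℝ) (x ^ dlm m b)) :=
    MAJ_copW (Real.rpow_nonneg hx0.le _) le_rfl
  have hTD := hV.2.2.1
  rw [← hτ₀] at hTD
  obtain ⟨a, ha⟩ : ∃ a, a = avgP (PR (yy x : ℝ) (x ^ dlm m b)) V := ⟨_, rfl⟩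
  have ha0 : 0 ≤ a := by
    rw [ha]
    exact MAJ_avg_nonneg hV.1
  have ha1 : a ≤ 1 + 4 * (1 / 2 : ℝ) ^ b := by
    rw [ha]
    exact RGSa_avg hm1 hV
  have hb1 : (1 / 2 : ℝ) ^ b ≤ 1 := pow_le_one₀ (by norm_num) (by norm_num)
  have ha5 : a ≤ 5 := by linarith
  obtain ⟨E, hE⟩ : ∃ E : ℕ → ℝ, ∀ n, E n =
      ∑ k ∈ Finset.range n, Mm (yy x) (k : ℤ) * V (k : ℤ) - (n : ℝ) * a :=
    ⟨_, fun n => rfl⟩
  have hE0 : ∀ n, |E n| ≤ x ^ τ₀ * (WW (yy x) : ℝ) := by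
    intro n
    rw [hE, ha]
    exact RGSa_range hTD hP hcop n
  have hG : ∀ r : ℕ, Mm (yy x) (r : ℤ) * V (r : ℤ) / (r : ℝ) =
      a * (1 / (r : ℝ)) + (E (r + 1) - E r) / (r : ℝ) := by
    intro r
    rw [hE, hE, Finset.sum_range_succ]
    push_cast
    ring
  have hxτ : 0 < x ^ τ := Real.rpow_pos_of_pos hx0 _
  have hA0 : 0 < A := hxτ.trans_le hA
  have hR0 : 0 < R := hA0.trans_le hAR
  have hRA : 0 ≤ Real.log (R / A) := Real.log_nonneg ((one_le_div hA0).2 hAR)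
  have hfl : ⌊A⌋₊ ≤ ⌊R⌋₊ := Nat.floor_le_floor hAR
  have hAlt : A < (⌊A⌋₊ : ℝ) + 1 := Nat.lt_floor_add_one A
  have hb0 : (0 : ℝ) ≤ (1 / 2 : ℝ) ^ b := by positivity
  rcases eq_or_lt_of_le hfl with heq | hlt
  · rw [heq, Finset.Ioc_self, Finset.sum_empty]
    positivity
  rw [Finset.sum_congr rfl fun r _ => hG r, Finset.sum_add_distrib, ← Finset.mul_sum]
  have h1 := RGSa_log ⌊A⌋₊ ⌊R⌋₊ hlt
  have h2 := RGSa_parts E _ hE0 ⌊A⌋₊ ⌊R⌋₊ hfl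
  have h3 := hE0 (⌊R⌋₊ + 1)
  have hB0 : 0 ≤ x ^ τ₀ * (WW (yy x) : ℝ) := (abs_nonneg _).trans h3
  have hR1 : (0 : ℝ) < (⌊R⌋₊ : ℝ) + 1 := by positivity
  have hA1 : (0 : ℝ) < (⌊A⌋₊ : ℝ) + 1 := by positivity
  have h4 : ∑ r ∈ Finset.Ioc ⌊A⌋₊ ⌊R⌋₊, (E (r + 1) - E r) / (r : ℝ) ≤
      2 * (x ^ τ₀ * (WW (yy x) : ℝ)) / A := by
    have h5 := (abs_le.1 h2).2
    have h6 : E (⌊R⌋₊ + 1) / ((⌊R⌋₊ : ℝ) + 1) ≤ (x ^ τ₀ * (WW (yy x) : ℝ)) / ((⌊R⌋₊ : ℝ) + 1) :=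
      div_le_div_of_nonneg_right ((le_abs_self _).trans h3) hR1.le
    have h7 : (x ^ τ₀ * (WW (yy x) : ℝ)) * (2 / ((⌊A⌋₊ : ℝ) + 1) - 1 / ((⌊R⌋₊ : ℝ) + 1)) +
        (x ^ τ₀ * (WW (yy x) : ℝ)) / ((⌊R⌋₊ : ℝ) + 1) =
        2 * (x ^ τ₀ * (WW (yy x) : ℝ)) / ((⌊A⌋₊ : ℝ) + 1) := by ring
    have h8 : 2 * (x ^ τ₀ * (WW (yy x) : ℝ)) / ((⌊A⌋₊ : ℝ) + 1) ≤
        2 * (x ^ τ₀ * (WW (yy x) : ℝ)) / A :=
      div_le_div_of_nonneg_left (by positivity) hA0 hAlt.le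
    linarith
  have h5 : ∑ r ∈ Finset.Ioc ⌊A⌋₊ ⌊R⌋₊, 1 / (r : ℝ) ≤ 1 / A + Real.log (R / A) := by
    have h6 : 1 / ((⌊A⌋₊ : ℝ) + 1) ≤ 1 / A := one_div_le_one_div_of_le hA0 hAlt.le
    have h7 : (0 : ℝ) < (⌊R⌋₊ : ℝ) := by
      have : 0 < ⌊R⌋₊ := by omega
      exact_mod_cast this
    have h8 : Real.log ((⌊R⌋₊ : ℝ) / ((⌊A⌋₊ : ℝ) + 1)) ≤ Real.log (R / A) := by
      apply Real.log_le_log (by positivity)
      exact div_le_div₀ hR0.le (Nat.floor_le hR0.le) hA0 hAlt.le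
    linarith
  have h6 : a * ∑ r ∈ Finset.Ioc ⌊A⌋₊ ⌊R⌋₊, 1 / (r : ℝ) ≤ 5 / A +
      (1 + 4 * (1 / 2 : ℝ) ^ b) * Real.log (R / A) := by
    calc a * ∑ r ∈ Finset.Ioc ⌊A⌋₊ ⌊R⌋₊, 1 / (r : ℝ) ≤ a * (1 / A + Real.log (R / A)) :=
          mul_le_mul_of_nonneg_left h5 ha0
      _ = a * (1 / A) + a * Real.log (R / A) := by ring
      _ ≤ 5 * (1 / A) + (1 + 4 * (1 / 2 : ℝ) ^ b) * Real.log (R / A) :=
          add_le_add (mul_le_mul_of_nonneg_right ha5 (by positivity))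
            (mul_le_mul_of_nonneg_right ha1 hRA)
      _ = _ := by ring
  have h7 : 5 / A ≤ ε / 2 := by
    rw [div_le_iff₀ hA0]
    have h8 : 10 / ε ≤ A := hx2.trans hA
    rw [div_le_iff₀ hε] at h8
    linarith
  have h8 : 2 * (x ^ τ₀ * (WW (yy x) : ℝ)) / A ≤ ε / 2 := by
    rw [div_le_iff₀ hA0]
    have h9 : x ^ τ₀ * (WW (yy x) : ℝ) ≤ x ^ τ₀ * ((ε / 4) * x ^ (τ - τ₀)) :=
      mul_le_mul_of_nonneg_left (hW.trans hx1) (Real.rpow_nonneg hx0.le _)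
    have h10 : x ^ τ₀ * ((ε / 4) * x ^ (τ - τ₀)) = (ε / 4) * x ^ τ := by
      have h11 : x ^ τ₀ * x ^ (τ - τ₀) = x ^ τ := by
        rw [← Real.rpow_add hx0]
        congr 1
        ring
      rw [← h11]
      ring
    rw [h10] at h9
    have h12 : (ε / 4) * x ^ τ ≤ (ε / 4) * A := mul_le_mul_of_nonneg_left hA (by positivity)
    linarith
  have h9 : (1 + 4 * (1 / 2 : ℝ) ^ b) * Real.log (R / A) ≤
      (1 + 4 * (1 / 2 : ℝ) ^ b + ε) * Real.log (R / A) :=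
    mul_le_mul_of_nonneg_right (by linarith) hRA
  linarith

end Pool.Agent.H96.FL
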