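import Pool.Agent.H96.FL.UDf
import Pool.Agent.H96.AS.PW
import Pool.Agent.H12.DM.Ms

/-!
# SWA: (only `SWA`, `AVZ`) averages over an interval of shifts

`w = yy x`, `W = WW w ≤ log x` (`MAJ_W`), `Mm w` has period `W` and mean `1`, `0 ≤ Mm w ≤ wp w`, `wp w * φ(W) = W`.
* `SWA`: `sW x (insert e S) = avgP W (∏_{c∈S} Mm w (n-c) * Mm w (n-e))` for `e ∉ S`; `∑_{e ∈ Ioc a b} Mm w (n-e) ≤ ((b-a)/W + 1) W ≤ (b - a) + W ≤ 2 (b-a)` for `b - a ≥ log x ≥ W`.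
* `AVZ`: for each `m` the number of `e ∈ Ioc a b` with `gcd(m+e, W) = 1` is at least `⌊(b-a)/W⌋ φ(W) ≥ ((b-a)/W - 1) φ(W)`, times `wp w = W/φ(W)`: `≥ (b - a) - W ≥ (3/4) (b-a)` for `b - a ≥ 4 log x`. Exchange the sums over `m` and `e`.
* `ADE`: let `q = ∏_{p ≤ k+1} p`, `c₀ ∈ S`. If `e ≡ c₀ (mod q)` then for `p ≤ k+1` the residues of `insert e S` modulo `p` are those of `S`, and for `p > k + 1`: `nuH (insert e S) p ≤ k + 1 < p`. So `insert e S` is admissible. There are at least `(b-a)/q - 1` such `e` in `Ioc a b`, at most `k` of them in `S`.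
* `SZE`: let `p` be a prime with `nuH (insert e S) p = p` (`sing_ne_zero_iff`); `p ≤ k + 1 ≤ w`, so `p ∣ W`, and every class modulo `p` contains an element of `insert e S`. For `m ∈ Zs`: the class of `-m` contains `e`: `p ∣ m + e`, or `c ∈ S`: `p ∣ m + c`, a prime `> x^(1/4) > p`: impossible. So `gcd(m+e, W) ≠ 1`.
-/

set_option autoImplicit false

namespace Pool.Agent.H96.FL

open Finset Pool.Agent.H17 Pool.Agent.H6.MF Pool.Agent.H6.MB Pool.Agent.H12.DM Pool.Agent.H6.AE Pool.Agent.H96.AE Pool.Agent.H96.AS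

theorem SWA_low (y : ℕ) (t u : ℤ) (j : ℕ) :
    (j : ℝ) - (WW y : ℝ) ≤ ∑ i ∈ Finset.Ioc u (u + j), Mm y (t + i) := by
  have hYR : (0 : ℝ) < WW y := WW_pos_real y
  induction j using Nat.strong_induction_on generalizing u with
  | _ j ih =>
    rcases le_or_gt j (WW y) with h | h
    · have h1 : (j : ℝ) ≤ (WW y : ℝ) := by exact_mod_cast h
      have h2 : 0 ≤ ∑ i ∈ Finset.Ioc u (u + (j : ℕ)), Mm y (t + i) :=
        Finset.sum_nonneg fun i _ => Mm_nonneg _ _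
      linarith
    · obtain ⟨k, rfl⟩ : ∃ k, j = WW y + k := ⟨j - WW y, by omega⟩
      have hun : Finset.Ioc u (u + ((WW y + k : ℕ) : ℤ)) = Finset.Ioc u (u + (WW y : ℕ)) ∪
          Finset.Ioc (u + (WW y : ℕ)) (u + (WW y : ℕ) + (k : ℕ)) := by
        rw [Finset.Ioc_union_Ioc_eq_Ioc (by omega) (by omega)]
        push_cast
        rw [add_assoc]
      have hdis : Disjoint (Finset.Ioc u (u + (WW y : ℕ)))
          (Finset.Ioc (u + (WW y : ℕ)) (u + (WW y : ℕ) + (k : ℕ))) :=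
        Finset.Ioc_disjoint_Ioc_of_le le_rfl
      rw [hun, Finset.sum_union hdis, Ms_full]
      have := ih k (by have := WW_pos y; omega) (u + (WW y : ℕ))
      push_cast
      linarith

theorem SWA_up (y : ℕ) (n a b : ℤ) (hab : a ≤ b) :
    ∑ e ∈ Finset.Ioc a b, Mm y (n - e) ≤ ((b - a : ℤ) : ℝ) + (WW y : ℝ) := by
  obtain ⟨j, hj⟩ : ∃ j : ℕ, b - a = j := ⟨(b - a).toNat, by omega⟩
  have h1 := Mm_sum y n (-b - 1) j
  have h2 : ∑ e ∈ Finset.Ioc a b, Mm y (n - e) = ∑ i ∈ Finset.Ioc (-b - 1) (-b - 1 + (j : ℤ)), Mm y (n + i) := by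
    refine Finset.sum_bij (fun e _ => -e) ?_ ?_ ?_ ?_
    · intro e he
      rw [Finset.mem_Ioc] at he ⊢
      omega
    · intro e _ e' _ h
      omega
    · intro i hi
      rw [Finset.mem_Ioc] at hi
      exact ⟨-i, by rw [Finset.mem_Ioc]; omega, by ring⟩
    · intro e _
      rw [sub_eq_add_neg]
  rw [h2, hj]
  exact_mod_cast h1

theorem SWA : ∃ X : ℝ, ∀ x : ℝ, X ≤ x → ∀ S : Finset ℤ, ∀ a b : ℤ, Real.log x ≤ ((b - a : ℤ) : ℝ) →
    ∑ e ∈ Finset.Ioc a b \ S, sW x (insert e S) ≤ 2 * ((b - a : ℤ) : ℝ) * sW x S := by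
  obtain ⟨X, hX⟩ := Filter.eventually_atTop.1 (Real.tendsto_log_atTop.eventually_ge_atTop 1)
  refine ⟨X, fun x hx S a b hab => ?_⟩
  have hL := hX x hx
  have hW := MAJ_W hL
  have hab' : a ≤ b := by
    have h1 : (0 : ℝ) ≤ ((b - a : ℤ) : ℝ) := by linarith
    have h2 : (0 : ℤ) ≤ b - a := by exact_mod_cast h1
    omega
  have hWp : (0 : ℝ) < (WW (yy x) : ℝ) := WW_pos_real _
  have h1 : ∀ e ∈ Finset.Ioc a b \ S, sW x (insert e S) =
      (∑ n ∈ Finset.range (WW (yy x)), (∏ c ∈ S, Mm (yy x) ((n : ℤ) - c)) * Mm (yy x) ((n : ℤ) - e)) / (WW (yy x) : ℝ) := by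
    intro e he
    have heS := (Finset.mem_sdiff.1 he).2
    unfold sW avgP
    congr 1
    refine Finset.sum_congr rfl fun n _ => ?_
    show ∏ h ∈ insert e S, Mm (yy x) ((n : ℤ) - h) = _
    rw [Finset.prod_insert heS, mul_comm]
  rw [Finset.sum_congr rfl h1, ← Finset.sum_div, Finset.sum_comm]
  have h2 : 2 * ((b - a : ℤ) : ℝ) * sW x S =
      (∑ n ∈ Finset.range (WW (yy x)), (∏ c ∈ S, Mm (yy x) ((n : ℤ) - c)) * (2 * ((b - a : ℤ) : ℝ))) / (WW (yy x) : ℝ) := by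
    unfold sW avgP
    rw [← Finset.sum_mul]
    ring
  rw [h2]
  refine div_le_div_of_nonneg_right (Finset.sum_le_sum fun n _ => ?_) hWp.le
  rw [← Finset.mul_sum]
  refine mul_le_mul_of_nonneg_left ?_ (Finset.prod_nonneg fun _ _ => Mm_nonneg _ _)
  have h3 : ∑ e ∈ Finset.Ioc a b \ S, Mm (yy x) ((n : ℤ) - e) ≤ ∑ e ∈ Finset.Ioc a b, Mm (yy x) ((n : ℤ) - e) :=
    Finset.sum_le_sum_of_subset_of_nonneg Finset.sdiff_subset fun _ _ _ => Mm_nonneg _ _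
  have h4 := SWA_up (yy x) n a b hab'
  linarith

theorem AVZ : ∃ X : ℝ, ∀ x : ℝ, X ≤ x → ∀ Z : Finset ℤ, ∀ a b : ℤ, 4 * Real.log x ≤ ((b - a : ℤ) : ℝ) →
    3 / 4 * ((b - a : ℤ) : ℝ) * (Z.card : ℝ) ≤ wp (yy x) * ∑ e ∈ Finset.Ioc a b, (zc x Z e : ℝ) := by
  obtain ⟨X, hX⟩ := Filter.eventually_atTop.1 (Real.tendsto_log_atTop.eventually_ge_atTop 1)
  refine ⟨X, fun x hx Z a b hab => ?_⟩
  have hL := hX x hx
  have hW := MAJ_W hL
  have hab' : a ≤ b := by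
    have h1 : (0 : ℝ) ≤ ((b - a : ℤ) : ℝ) := by linarith
    have h2 : (0 : ℤ) ≤ b - a := by exact_mod_cast h1
    omega
  have h1 : ∀ e ∈ Finset.Ioc a b, wp (yy x) * (zc x Z e : ℝ) = ∑ m ∈ Z, Mm (yy x) (m + e) := by
    intro e _
    unfold zc Mm
    rw [Finset.card_filter]
    push_cast
    rw [Finset.mul_sum]
    refine Finset.sum_congr rfl fun m _ => ?_
    split_ifs <;> simp
  rw [Finset.mul_sum, Finset.sum_congr rfl h1, Finset.sum_comm]
  have h2 : ∀ m ∈ Z, 3 / 4 * ((b - a : ℤ) : ℝ) ≤ ∑ e ∈ Finset.Ioc a b, Mm (yy x) (m + e) := by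
    intro m _
    obtain ⟨j, hj⟩ : ∃ j : ℕ, b - a = j := ⟨(b - a).toNat, by omega⟩
    have h3 := SWA_low (yy x) m a j
    have h4 : a + (j : ℤ) = b := by omega
    rw [h4] at h3
    have h5 : ((b - a : ℤ) : ℝ) = (j : ℝ) := by rw [hj]; norm_cast
    rw [h5] at hab ⊢
    linarith
  have h6 := Finset.sum_le_sum h2
  rw [Finset.sum_const, nsmul_eq_mul] at h6
  linarith

end Pool.Agent.H96.FL
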