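import Pool.Agent.H96.FL.UDf
import Pool.Agent.H96.AS.PW

/-!
# SWB: (only `ADE`, `SZE`) averages over an interval of shifts

`w = yy x`, `W = WW w ≤ log x` (`MAJ_W`), `Mm w` has period `W` and mean `1`, `0 ≤ Mm w ≤ wp w`, `wp w * φ(W) = W`.
* `SWA`: `sW x (insert e S) = avgP W (∏_{c∈S} Mm w (n-c) * Mm w (n-e))` for `e ∉ S`; `∑_{e ∈ Ioc a b} Mm w (n-e) ≤ ((b-a)/W + 1) W ≤ (b - a) + W ≤ 2 (b-a)` for `b - a ≥ log x ≥ W`.
* `AVZ`: for each `m` the number of `e ∈ Ioc a b` with `gcd(m+e, W) = 1` is at least `⌊(b-a)/W⌋ φ(W) ≥ ((b-a)/W - 1) φ(W)`, times `wp w = W/φ(W)`: `≥ (b - a) - W ≥ (3/4) (b-a)` for `b - a ≥ 4 log x`. Exchange the sums over `m` and `e`.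
* `ADE`: let `q = ∏_{p ≤ k+1} p`, `c₀ ∈ S`. If `e ≡ c₀ (mod q)` then for `p ≤ k+1` the residues of `insert e S` modulo `p` are those of `S`, and for `p > k + 1`: `nuH (insert e S) p ≤ k + 1 < p`. So `insert e S` is admissible. There are at least `(b-a)/q - 1` such `e` in `Ioc a b`, at most `k` of them in `S`.
* `SZE`: let `p` be a prime with `nuH (insert e S) p = p` (`sing_ne_zero_iff`); `p ≤ k + 1 ≤ w`, so `p ∣ W`, and every class modulo `p` contains an element of `insert e S`. For `m ∈ Zs`: the class of `-m` contains `e`: `p ∣ m + e`, or `c ∈ S`: `p ∣ m + c`, a prime `> x^(1/4) > p`: impossible. So `gcd(m+e, W) ≠ 1`.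
-/

set_option autoImplicit false

namespace Pool.Agent.H96.FL

open Finset Pool.Agent.H17 Pool.Agent.H6.MF Pool.Agent.H6.MB Pool.Agent.H12.DM Pool.Agent.H6.AE Pool.Agent.H96.AE Pool.Agent.H96.AS

private lemma SWB_adm {k : ℕ} {S : Finset ℤ} (hS : S.card = k) (hadm : adm S) {c₀ e : ℤ} (hc : c₀ ∈ S)
    (he : e ≡ c₀ [ZMOD (((k + 1).factorial : ℕ) : ℤ)]) : adm (insert e S) := by
  intro p hp
  by_cases hpk : p ≤ k + 1
  · have h1 : (p : ℤ) ∣ (((k + 1).factorial : ℕ) : ℤ) := by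
      exact_mod_cast (Nat.Prime.dvd_factorial hp).mpr hpk
    have h2 : e % (p : ℤ) = c₀ % (p : ℤ) := he.of_dvd h1
    have h3 : nuH (insert e S) p = nuH S p := by
      unfold nuH
      rw [Finset.image_insert, h2, Finset.insert_eq_of_mem]
      exact Finset.mem_image_of_mem _ hc
    rw [h3]
    exact hadm p hp
  · have h1 := nuH_le_card (insert e S) p
    have h2 := Finset.card_insert_le e S
    omega

private lemma SWB_count {q : ℕ} (hq : 0 < q) (a b v : ℤ) :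
    ((b - a : ℤ) : ℝ) ≤ q * ((((Finset.Ioc a b).filter (fun e => e ≡ v [ZMOD (q : ℤ)])).card : ℝ) + 1) := by
  have hq' : (0 : ℤ) < (q : ℤ) := by exact_mod_cast hq
  have h1 := Int.Ioc_filter_modEq_card a b hq' v
  have h2 : (⌊((b - v : ℤ) : ℚ) / ((q : ℤ) : ℚ)⌋ - ⌊((a - v : ℤ) : ℚ) / ((q : ℤ) : ℚ)⌋ : ℤ) ≤
      (((Finset.Ioc a b).filter (fun e => e ≡ v [ZMOD (q : ℤ)])).card : ℤ) := by
    rw [h1]
    push_cast
    exact le_max_left _ _
  have h3 := Int.lt_floor_add_one (((b - v : ℤ) : ℚ) / ((q : ℤ) : ℚ))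
  have h4 := Int.floor_le (((a - v : ℤ) : ℚ) / ((q : ℤ) : ℚ))
  have h5 : ((⌊((b - v : ℤ) : ℚ) / ((q : ℤ) : ℚ)⌋ : ℤ) : ℚ) - ((⌊((a - v : ℤ) : ℚ) / ((q : ℤ) : ℚ)⌋ : ℤ) : ℚ) ≤
      ((((Finset.Ioc a b).filter (fun e => e ≡ v [ZMOD (q : ℤ)])).card : ℤ) : ℚ) := by exact_mod_cast h2
  have hq0 : (0 : ℚ) < q := by exact_mod_cast hq
  have h6 : ((b - a : ℤ) : ℚ) / (q : ℚ) ≤ (((Finset.Ioc a b).filter (fun e => e ≡ v [ZMOD (q : ℤ)])).card : ℚ) + 1 := by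
    have h7 : ((b - a : ℤ) : ℚ) / (q : ℚ) = ((b - v : ℤ) : ℚ) / ((q : ℤ) : ℚ) - ((a - v : ℤ) : ℚ) / ((q : ℤ) : ℚ) := by
      push_cast
      ring
    rw [h7]
    push_cast at h3 h4 h5 ⊢
    linarith
  rw [div_le_iff₀ hq0] at h6
  have h8 : ((b - a : ℤ) : ℚ) ≤ (q : ℚ) * ((((Finset.Ioc a b).filter (fun e => e ≡ v [ZMOD (q : ℤ)])).card : ℚ) + 1) := by
    linarith
  exact_mod_cast h8

open scoped Classical in
theorem ADE (k : ℕ) (hk : 1 ≤ k) : ∃ q : ℕ, 0 < q ∧ ∀ S : Finset ℤ, S.card = k → adm S → ∀ a b : ℤ, a ≤ b →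
    ((b - a : ℤ) : ℝ) ≤ q * ((((Finset.Ioc a b).filter (fun e => e ∉ S ∧ adm (insert e S))).card : ℝ) + k + 1) := by
  refine ⟨(k + 1).factorial, Nat.factorial_pos _, fun S hS hadm a b _ => ?_⟩
  obtain ⟨c₀, hc⟩ : S.Nonempty := by
    rw [← Finset.card_pos, hS]
    omega
  have h1 := SWB_count (Nat.factorial_pos (k + 1)) a b c₀
  set F := (Finset.Ioc a b).filter (fun e => e ≡ c₀ [ZMOD (((k + 1).factorial : ℕ) : ℤ)]) with hF
  have h2 : F.card ≤ ((Finset.Ioc a b).filter (fun e => e ∉ S ∧ adm (insert e S))).card + k := by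
    have h3 : F ⊆ (Finset.Ioc a b).filter (fun e => e ∉ S ∧ adm (insert e S)) ∪ S := by
      intro e he
      rw [hF, Finset.mem_filter] at he
      rw [Finset.mem_union, Finset.mem_filter]
      by_cases heS : e ∈ S
      · exact Or.inr heS
      · exact Or.inl ⟨he.1, heS, SWB_adm hS hadm hc he.2⟩
    have h4 := (Finset.card_le_card h3).trans (Finset.card_union_le _ _)
    omega
  have h5 : (F.card : ℝ) ≤ (((Finset.Ioc a b).filter (fun e => e ∉ S ∧ adm (insert e S))).card : ℝ) + k := by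
    exact_mod_cast h2
  refine h1.trans ?_
  apply mul_le_mul_of_nonneg_left _ (Nat.cast_nonneg _)
  linarith

private lemma SWB_ev (k : ℕ) : ∃ X : ℝ, ∀ x : ℝ, X ≤ x → k + 1 ≤ yy x ∧ ((k + 1 : ℕ) : ℝ) ≤ x ^ (1 / 4 : ℝ) := by
  have h1 := tendsto_yy.eventually_ge_atTop (k + 1)
  have h2 := (tendsto_rpow_atTop (show (0 : ℝ) < 1 / 4 by norm_num)).eventually_ge_atTop (((k + 1 : ℕ) : ℝ))
  exact Filter.eventually_atTop.1 (h1.and h2)

theorem SZE (k : ℕ) : ∃ X : ℝ, ∀ x : ℝ, X ≤ x → ∀ S Z : Finset ℤ, S.card = k → Tup x S Z → ∀ e : ℤ, e ∉ S →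
    sing (insert e S) = 0 → zc x (Zs x S Z) e = 0 := by
  obtain ⟨X, hX⟩ := SWB_ev k
  refine ⟨X, fun x hx S Z hS hZ e _ hs => ?_⟩
  obtain ⟨hy, hx4⟩ := hX x hx
  have hna : ¬ adm (insert e S) := fun h => ((sing_ne_zero_iff _).2 h) hs
  unfold Pool.Agent.H6.MF.adm at hna
  push Not at hna
  obtain ⟨p, hp, hpn⟩ := hna
  have hpk : p ≤ k + 1 := by
    have h1 := nuH_le_card (insert e S) p
    have h2 := Finset.card_insert_le e S
    omega
  unfold zc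
  rw [Finset.card_eq_zero, Finset.filter_eq_empty_iff]
  intro m hm hg
  obtain ⟨b, hb, hpb⟩ := BAS_exists hp.pos hpn (-m)
  have hpb' : (p : ℤ) ∣ m + b := by
    have h1 : m + b = -(-m - b) := by ring
    rw [h1]
    exact (dvd_neg).2 hpb
  rw [Finset.mem_insert] at hb
  rcases hb with rfl | hb
  · have h2 : (p : ℤ) ∣ (WW (yy x) : ℤ) := by
      rw [Int.natCast_dvd_natCast]
      unfold WW
      exact Finset.dvd_prod_of_mem _ (mem_PP.2 ⟨by omega, hp⟩)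
    have h3 : (p : ℤ) ∣ ((Int.gcd (m + b) (WW (yy x) : ℤ) : ℕ) : ℤ) := Int.dvd_coe_gcd hpb' h2
    rw [hg] at h3
    have h4 : p ∣ 1 := by exact_mod_cast h3
    exact hp.one_lt.ne' (Nat.dvd_one.1 h4)
  · unfold Zs at hm
    rw [Finset.mem_filter] at hm
    have h1 := hm.2 b hb
    obtain ⟨h2, _⟩ := hZ m hm.1 b hb
    unfold isP at h2
    have h3 : 0 < m + b := by
      by_contra hc
      rw [Int.toNat_of_nonpos (not_lt.1 hc)] at h2
      exact Nat.not_prime_zero h2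
    have h4 : (p : ℤ) ∣ (((m + b).toNat : ℕ) : ℤ) := by rw [Int.toNat_of_nonneg h3.le]; exact hpb'
    have h5 : p ∣ (m + b).toNat := by exact_mod_cast h4
    have h6 : p = (m + b).toNat := (Nat.prime_dvd_prime_iff_eq hp h2).1 h5
    have h7 : (p : ℤ) = m + b := by rw [h6, Int.toNat_of_nonneg h3.le]
    have h8 : ((m + b : ℤ) : ℝ) = (p : ℝ) := by rw [← h7]; push_cast; rfl
    rw [h8] at h1
    have h9 : (p : ℝ) ≤ ((k + 1 : ℕ) : ℝ) := by exact_mod_cast hpk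
    linarith

end Pool.Agent.H96.FL
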