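import Pool.Agent.H96.FL.UTR
import Pool.Agent.H96.FL.UWL
import Pool.Agent.H96.FL.UWC
import Pool.Agent.H96.FL.SWA
import Pool.Agent.H96.FL.SWB
import Pool.Agent.H96.FL.UFL

/-!
# UFM: a positive proportion of the shifts in every interval of `K log x` integers

`L = log x`, `N = ⌊x⌋₊ + 1`, `H = ⌊L²⌋₊`, `I = Ioc a b'`, `|I| = b' - a ≥ K L`. We may assume `sing S ≠ 0`. `UTR` (with `ε = 1/2`) gives `v`, `S'`, `G`, `c'`; `PW_sing`, `sing_rf`: `sW x S ≤ 2 sing S`, and `sW x (insert (v-e) S')` is `sW x (insert e S)` or comparable to `sing (insert e S)` up to the factor `2` (by `UTR`), `sW ≥ c'`.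
`E = {e ∈ I : e ∉ S, sing (insert e S) ≠ 0}`, `|E| ≥ K₀ L` by `ADE` (`K` large). `T = ∑_{e∈E} sW x (insert (v-e) S') ≤ 2 ∑_{e∈E} sing (insert e S) ≤ 3·∑ sW x (insert e S)·... ≤ C |I| sing S` (`SWA`, `PW_sing`).
Main term: `∑_{e∈E} ∑_n G Mm (n-(v-e)) = L^k wp w ∑_{e∈E} zc x Zs e ≥ L^k (wp w ∑_{e∈I} zc x Zs e - k wp w |Zs|) ≥ L^k (3/4 |I| - k wp w) |Zs| ≥ (1/2) L^k |I| |Zs| ≥ (h/3) |I| sing S * x` (`AVZ`, `SZE`, `wp w ≤ W ≤ L^(1/68)`, `|Zs| ≥ |Z| - k (x^(1/4)+1)`; `sing S ≥ c''`).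
`UWL k ε₀` with `ε₀` small in terms of `h`: `∑_{e∈E} ∑_n G (L if q4) ≥ c₁ |I| sing S * x`. Each term of the sum over `e` is `≤ C sW N ≤ C' sing (insert e S) x` (`UWC` for the `δ` of `UWL`), and `= L^k ∑_{m∈Zs} (L if q4 x δ (m+e)) ≤ L^(k+1) (z4 Z e + 4 x^(1-δ))` (as in the proof of `UFL`; take the lemma from there or copy it).
So the `e ∈ E` with `z4 Z e < c sing (insert e S) x/L^(k+1)` contribute at most `2 c x ∑_{e∈E} sing (insert e S) ≤ (c₁/2) |I| sing S * x` for small `c`, and the others (they are in the filter of the statement) at most `C' x ∑ sing (insert e S)`.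
-/

set_option autoImplicit false

namespace Pool.Agent.H96.FL

open Finset Pool.Agent.H17 Pool.Agent.H6.MF Pool.Agent.H6.MB Pool.Agent.H12.DM Pool.Agent.H6.AE Pool.Agent.H96.AE Pool.Agent.H96.AS Pool.Agent.H96.FD Pool.Agent.H6.AS

theorem UFM_P4 {x δ : ℝ} (hx : 1 ≤ x) (hx2 : 2 * x < x ^ (52 / 50 : ℝ)) {n : ℤ} (hn0 : 0 < n)
    (hn : (n : ℝ) ≤ 2 * x) (hq : q4 x δ n)
    (hsq : ∀ p : ℕ, p.Prime → x ^ δ < (p : ℝ) → ¬ ((p : ℤ) ^ 2 ∣ n)) : P4 n := by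
  refine ⟨hn0, ?_⟩
  obtain ⟨N, rfl⟩ : ∃ N : ℕ, n = (N : ℤ) := ⟨n.toNat, (Int.toNat_of_nonneg hn0.le).symm⟩
  rw [Int.toNat_natCast]
  have hN0 : N ≠ 0 := by
    rintro rfl
    simp at hn0
  have hNx : (N : ℝ) ≤ 2 * x := by exact_mod_cast hn
  have hx0 : 0 ≤ x := by linarith
  have hsf : Squarefree N := by
    rw [Nat.squarefree_iff_prime_squarefree]
    intro p hp hpp
    rcases le_or_gt (p : ℝ) (x ^ δ) with h | h
    · refine hq.1 p hp h ?_
      exact_mod_cast (Dvd.intro _ rfl : p ∣ p * p).trans hpp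
    · refine hsq p hp h ?_
      have : p ^ 2 ∣ N := by rw [pow_two]; exact hpp
      exact_mod_cast this
  have hcard : ArithmeticFunction.cardFactors N = N.primeFactors.card := by
    rw [← (ArithmeticFunction.cardDistinctFactors_eq_cardFactors_iff_squarefree hN0).2 hsf,
      ArithmeticFunction.cardDistinctFactors_apply]
    rfl
  rw [hcard]
  have hB : (N.primeFactors.filter (fun p : ℕ => (p : ℝ) ≤ x ^ (13 / 50 : ℝ))).card ≤ 1 := by
    refine le_trans (Finset.card_le_card ?_) hq.2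
    intro p hp
    rw [Finset.mem_filter] at hp
    have hpp := Nat.prime_of_mem_primeFactors hp.1
    have hpd := Nat.dvd_of_mem_primeFactors hp.1
    have hpd' : (p : ℤ) ∣ (N : ℤ) := by exact_mod_cast hpd
    rw [Finset.mem_filter]
    refine ⟨?_, hpd'⟩
    unfold PI
    rw [Finset.mem_filter, Finset.mem_range]
    refine ⟨Nat.lt_succ_of_le (Nat.le_floor hp.2), hpp, ?_⟩
    by_contra hcon
    exact hq.1 p hpp (not_lt.1 hcon) hpd'
  have hC : (N.primeFactors.filter (fun p : ℕ => ¬ (p : ℝ) ≤ x ^ (13 / 50 : ℝ))).card ≤ 3 := by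
    by_contra hcon
    push Not at hcon
    obtain ⟨D, hD, hDc⟩ := Finset.exists_subset_card_eq (n := 4) hcon
    have h1 : ∏ p ∈ D, p ≤ N := by
      calc ∏ p ∈ D, p ≤ ∏ p ∈ N.primeFactors, p := by
            refine Finset.prod_le_prod_of_subset_of_one_le' (hD.trans (Finset.filter_subset _ _)) ?_
            intro p hp _
            exact (Nat.prime_of_mem_primeFactors hp).one_lt.le
        _ = N := Nat.prod_primeFactors_of_squarefree hsf
    have h2 : (x ^ (13 / 50 : ℝ)) ^ 4 ≤ ∏ p ∈ D, (p : ℝ) := by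
      rw [← hDc, ← Finset.prod_const]
      refine Finset.prod_le_prod (fun _ _ => Real.rpow_nonneg hx0 _) ?_
      intro p hp
      exact (Finset.mem_filter.1 (hD hp)).2.le
    have h3 : (x ^ (13 / 50 : ℝ)) ^ 4 = x ^ (52 / 50 : ℝ) := by
      rw [← Real.rpow_mul_natCast hx0]
      norm_num
    have h4 : ((∏ p ∈ D, p : ℕ) : ℝ) ≤ N := by exact_mod_cast h1
    rw [Nat.cast_prod] at h4
    linarith
  have := Finset.card_filter_add_card_filter_not (s := N.primeFactors) (fun p : ℕ => (p : ℝ) ≤ x ^ (13 / 50 : ℝ))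
  omega

theorem UFM_sqc {x y : ℝ} (hx : 0 ≤ x) (hy : 2 ≤ y) (A : Finset ℤ)
    (hA : ∀ n ∈ A, 0 < n ∧ (n : ℝ) ≤ 2 * x ∧ ∃ p : ℕ, p.Prime ∧ y < (p : ℝ) ∧ (p : ℤ) ^ 2 ∣ n) :
    (A.card : ℝ) ≤ 4 * x / y := by
  classical
  set m : ℕ := ⌊y⌋₊ with hm
  have hm0 : 0 < m := Nat.floor_pos.2 (by linarith)
  have hmy : y / 2 ≤ m := by
    have := Nat.lt_floor_add_one y
    rw [← hm] at this
    linarith
  have hm0R : (0 : ℝ) < m := by exact_mod_cast hm0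
  set T : Finset ℕ := (Finset.range (⌊2 * x⌋₊ + 1)).filter (fun p => m < p) with hT
  have hsub : A ⊆ T.biUnion (fun p => A.filter (fun n => (p : ℤ) ^ 2 ∣ n)) := by
    intro n hn
    obtain ⟨h0, h2, p, hp, hyp, hd⟩ := hA n hn
    rw [Finset.mem_biUnion]
    refine ⟨p, ?_, Finset.mem_filter.2 ⟨hn, hd⟩⟩
    rw [hT, Finset.mem_filter, Finset.mem_range]
    have h3 : (p : ℤ) ^ 2 ≤ n := Int.le_of_dvd h0 hd
    have hp1 : (1 : ℤ) ≤ p := by exact_mod_cast hp.one_lt.le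
    have h4 : (p : ℤ) ≤ n := by nlinarith
    have h5 : (p : ℝ) ≤ 2 * x := by
      have : (p : ℝ) ≤ (n : ℝ) := by exact_mod_cast h4
      linarith
    refine ⟨Nat.lt_succ_of_le (Nat.le_floor h5), ?_⟩
    have : ((m : ℕ) : ℝ) ≤ y := Nat.floor_le (by linarith)
    have h6 : (m : ℝ) < p := by linarith
    exact_mod_cast h6
  have hone : ∀ p ∈ T, ((A.filter (fun n => (p : ℤ) ^ 2 ∣ n)).card : ℝ) ≤ 2 * x / 24 * (24 / (p : ℝ) ^ 2) := by
    intro p hp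
    rw [hT, Finset.mem_filter] at hp
    have hp0 : 0 < p := by omega
    have hp0R : (0 : ℝ) < p := by exact_mod_cast hp0
    have h1 : A.filter (fun n => (p : ℤ) ^ 2 ∣ n) ⊆
        (Finset.Icc 1 ⌊2 * x / (p : ℝ) ^ 2⌋₊).image (fun t : ℕ => (p : ℤ) ^ 2 * (t : ℤ)) := by
      intro n hn
      rw [Finset.mem_filter] at hn
      obtain ⟨h0, h2, -⟩ := hA n hn.1
      obtain ⟨t, ht⟩ := hn.2
      have hpp : (0 : ℤ) < (p : ℤ) ^ 2 := by positivity
      have ht0 : 0 < t := by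
        by_contra hc
        push Not at hc
        nlinarith
      rw [Finset.mem_image]
      refine ⟨t.toNat, ?_, ?_⟩
      · rw [Finset.mem_Icc]
        refine ⟨by omega, ?_⟩
        apply Nat.le_floor
        rw [le_div_iff₀ (by positivity)]
        have h3 : ((t.toNat : ℕ) : ℝ) = (t : ℝ) := by
          have : ((t.toNat : ℕ) : ℤ) = t := Int.toNat_of_nonneg ht0.le
          exact_mod_cast this
        rw [h3]
        have h4 : (n : ℝ) = (p : ℝ) ^ 2 * (t : ℝ) := by exact_mod_cast ht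
        linarith
      · rw [Int.toNat_of_nonneg ht0.le]
        exact ht.symm
    have h2 : (A.filter (fun n => (p : ℤ) ^ 2 ∣ n)).card ≤ ⌊2 * x / (p : ℝ) ^ 2⌋₊ := by
      refine (Finset.card_le_card h1).trans (Finset.card_image_le.trans ?_)
      rw [Nat.card_Icc, Nat.add_sub_cancel]
    have h3 : ((⌊2 * x / (p : ℝ) ^ 2⌋₊ : ℕ) : ℝ) ≤ 2 * x / (p : ℝ) ^ 2 := Nat.floor_le (by positivity)
    have h4 : ((A.filter (fun n => (p : ℤ) ^ 2 ∣ n)).card : ℝ) ≤ ((⌊2 * x / (p : ℝ) ^ 2⌋₊ : ℕ) : ℝ) := by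
      exact_mod_cast h2
    have h5 : 2 * x / 24 * (24 / (p : ℝ) ^ 2) = 2 * x / (p : ℝ) ^ 2 := by
      field_simp
    rw [h5]
    linarith
  have h1 : (A.card : ℝ) ≤ ∑ p ∈ T, ((A.filter (fun n => (p : ℤ) ^ 2 ∣ n)).card : ℝ) := by
    have := (Finset.card_le_card hsub).trans Finset.card_biUnion_le
    exact_mod_cast this
  have h2 := sum_inv_sq_le hm0 T (fun p hp => (Finset.mem_filter.1 hp).2)
  calc (A.card : ℝ) ≤ ∑ p ∈ T, ((A.filter (fun n => (p : ℤ) ^ 2 ∣ n)).card : ℝ) := h1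
    _ ≤ ∑ p ∈ T, 2 * x / 24 * (24 / (p : ℝ) ^ 2) := Finset.sum_le_sum hone
    _ = 2 * x / 24 * ∑ p ∈ T, (24 / (p : ℝ) ^ 2) := by rw [Finset.mul_sum]
    _ ≤ 2 * x / 24 * (24 / m) := mul_le_mul_of_nonneg_left h2 (by positivity)
    _ = 2 * x / m := by field_simp
    _ ≤ 2 * x / (y / 2) := by gcongr
    _ = 4 * x / y := by field_simp; ring

open scoped Classical in
theorem UFM_Q {x δ : ℝ} {k : ℕ} (hk : 1 ≤ k) (hx : 1 ≤ x) (hL : 1 ≤ Real.log x)
    (hx2 : 2 * x < x ^ (52 / 50 : ℝ)) (hxd : 2 ≤ x ^ δ) (hL4 : (Real.log x) ^ 2 ≤ x ^ (1 / 4 : ℝ))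
    (hLx : (Real.log x) ^ 2 ≤ x) {u : ℤ} {S Z : Finset ℤ} (hS : ∀ e ∈ S, Wnd x u e) (hSc : S.card = k)
    (hZ : Tup x S Z) {e : ℤ} (he : Wnd x u e) :
    ∑ m ∈ Zs x S Z, (if q4 x δ (m + e) then Real.log x else 0) ≤
      Real.log x * ((z4 Z e : ℝ) + 4 * x / x ^ δ) := by
  obtain ⟨c0, hc0⟩ : S.Nonempty := by
    rw [← Finset.card_pos]; omega
  have hrange : ∀ m ∈ Zs x S Z, 0 < m + e ∧ ((m + e : ℤ) : ℝ) ≤ 2 * x := by
    intro m hm
    unfold Zs at hm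
    rw [Finset.mem_filter] at hm
    have h1 := hm.2 c0 hc0
    have h2 := (hZ m hm.1 c0 hc0).2
    obtain ⟨a1, a2⟩ := hS c0 hc0
    obtain ⟨b1, b2⟩ := he
    have a1' : (u : ℝ) < c0 := by exact_mod_cast a1
    have b1' : (u : ℝ) < e := by exact_mod_cast b1
    push_cast at h1 h2 ⊢
    constructor
    · have : (0 : ℝ) < ((m + e : ℤ) : ℝ) := by push_cast; linarith
      exact_mod_cast this
    · linarith
  set B : Finset ℤ := (Zs x S Z).filter (fun m => q4 x δ (m + e) ∧ ¬ P4 (m + e)) with hB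
  have hsub : (Zs x S Z).filter (fun m => q4 x δ (m + e)) ⊆ (Z.filter (fun m => P4 (m + e))) ∪ B := by
    intro m hm
    rw [Finset.mem_filter] at hm
    rw [Finset.mem_union, Finset.mem_filter, hB, Finset.mem_filter]
    by_cases hP : P4 (m + e)
    · left
      exact ⟨(Finset.mem_filter.1 hm.1).1, hP⟩
    · right
      exact ⟨hm.1, hm.2, hP⟩
  have hBc : (B.card : ℝ) ≤ 4 * x / x ^ δ := by
    have hinj : Function.Injective (fun m : ℤ => m + e) := fun a b h => by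
      have h' : a + e = b + e := h
      omega
    rw [← Finset.card_image_of_injective B hinj]
    apply UFM_sqc (by linarith) hxd
    intro n hn
    rw [Finset.mem_image] at hn
    obtain ⟨m, hm, rfl⟩ := hn
    rw [hB, Finset.mem_filter] at hm
    obtain ⟨hr1, hr2⟩ := hrange m hm.1
    refine ⟨hr1, hr2, ?_⟩
    by_contra hcon
    push Not at hcon
    exact hm.2.2 (UFM_P4 hx hx2 hr1 hr2 hm.2.1 hcon)
  rw [← Finset.sum_filter, Finset.sum_const, nsmul_eq_mul, mul_comm]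
  refine mul_le_mul_of_nonneg_left ?_ (by linarith)
  have h1 := (Finset.card_le_card hsub).trans (Finset.card_union_le _ _)
  have h2 : (((Zs x S Z).filter (fun m => q4 x δ (m + e))).card : ℝ) ≤
      ((Z.filter (fun m => P4 (m + e))).card : ℝ) + (B.card : ℝ) := by exact_mod_cast h1
  have h3 : (z4 Z e : ℝ) = ((Z.filter (fun m => P4 (m + e))).card : ℝ) := rfl
  rw [h3]
  linarith


theorem UFM_lg (n : ℕ) {s c : ℝ} (hs : 0 < s) (hc : 0 < c) :
    ∀ᶠ x : ℝ in Filter.atTop, (Real.log x) ^ n ≤ c * x ^ s := by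
  have h1 := (isLittleO_log_rpow_rpow_atTop (n : ℝ) hs).def hc
  filter_upwards [h1, Filter.eventually_ge_atTop (1 : ℝ)] with x hx hx1
  have hL : 0 ≤ Real.log x := Real.log_nonneg hx1
  rw [Real.rpow_natCast, Real.norm_of_nonneg (pow_nonneg hL n),
    Real.norm_of_nonneg (Real.rpow_nonneg (by linarith) s)] at hx
  exact hx

theorem UFM_ev (k : ℕ) {δ A B : ℝ} (hδ : 0 < δ) (hA : 0 < A) (hB : 0 < B) : ∃ X : ℝ, ∀ x : ℝ, X ≤ x →
    1 ≤ x ∧ 1 ≤ Real.log x ∧ 2 * x < x ^ (52 / 50 : ℝ) ∧ 2 ≤ x ^ δ ∧ (Real.log x) ^ 2 ≤ x ^ (1 / 4 : ℝ) ∧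
    (Real.log x) ^ 2 ≤ x ∧ (k : ℝ) * (x ^ (1 / 4 : ℝ) + 1) * (Real.log x) ^ k ≤ A * x ∧
    4 * x / x ^ δ * (Real.log x) ^ (k + 1) ≤ B * x := by
  have e1 : ∀ᶠ x : ℝ in Filter.atTop, 1 ≤ Real.log x := Real.tendsto_log_atTop.eventually_ge_atTop _
  have e2 : ∀ᶠ x : ℝ in Filter.atTop, 2 < x ^ (1 / 25 : ℝ) :=
    (tendsto_rpow_atTop (by norm_num)).eventually_gt_atTop _
  have e3 : ∀ᶠ x : ℝ in Filter.atTop, 2 ≤ x ^ δ := (tendsto_rpow_atTop hδ).eventually_ge_atTop _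
  have e4 := UFM_lg 2 (s := 1 / 4) (c := 1) (by norm_num) one_pos
  have e5 := UFM_lg k (s := 3 / 4) (c := A / (2 * k + 1)) (by norm_num) (by positivity)
  have e6 := UFM_lg (k + 1) (s := δ) (c := B / 4) hδ (by positivity)
  obtain ⟨X, hX⟩ := Filter.eventually_atTop.1
    (e1.and (e2.and (e3.and (e4.and (e5.and (e6.and (Filter.eventually_ge_atTop (1 : ℝ))))))))
  refine ⟨X, fun x hx => ?_⟩
  obtain ⟨h1, h2, h3, h4, h5, h6, h7⟩ := hX x hx
  have hx0 : 0 < x := by linarith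
  have h14 : x ^ (1 / 4 : ℝ) ≤ x := by
    calc x ^ (1 / 4 : ℝ) ≤ x ^ (1 : ℝ) := Real.rpow_le_rpow_of_exponent_le h7 (by norm_num)
      _ = x := Real.rpow_one x
  have h141 : 1 ≤ x ^ (1 / 4 : ℝ) := Real.one_le_rpow h7 (by norm_num)
  rw [one_mul] at h4
  refine ⟨h7, h1, ?_, h3, h4, h4.trans h14, ?_, ?_⟩
  · have : x ^ (52 / 50 : ℝ) = x ^ (1 / 25 : ℝ) * x := by
      rw [show (52 / 50 : ℝ) = 1 / 25 + 1 by norm_num, Real.rpow_add hx0, Real.rpow_one]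
    rw [this]
    exact mul_lt_mul_of_pos_right h2 hx0
  · have hxx : x ^ (1 / 4 : ℝ) * x ^ (3 / 4 : ℝ) = x := by
      rw [← Real.rpow_add hx0]
      norm_num
    have hk0 : (0 : ℝ) ≤ k := Nat.cast_nonneg k
    calc (k : ℝ) * (x ^ (1 / 4 : ℝ) + 1) * (Real.log x) ^ k
        ≤ (k : ℝ) * (2 * x ^ (1 / 4 : ℝ)) * (A / (2 * k + 1) * x ^ (3 / 4 : ℝ)) := by
          gcongr
          linarith
      _ = (2 * k / (2 * k + 1)) * (A * (x ^ (1 / 4 : ℝ) * x ^ (3 / 4 : ℝ))) := by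
          field_simp
      _ ≤ 1 * (A * (x ^ (1 / 4 : ℝ) * x ^ (3 / 4 : ℝ))) := by
          refine mul_le_mul_of_nonneg_right ?_ (by positivity)
          rw [div_le_one (by positivity)]
          linarith
      _ = A * x := by rw [hxx, one_mul]
  · have hd : 0 < x ^ δ := by linarith
    calc 4 * x / x ^ δ * (Real.log x) ^ (k + 1) ≤ 4 * x / x ^ δ * (B / 4 * x ^ δ) := by
          gcongr
      _ = B * x := by field_simp

theorem UFM_Mm (x : ℝ) (Z : Finset ℤ) (e : ℤ) : ∑ m ∈ Z, Mm (yy x) (m + e) = wp (yy x) * (zc x Z e : ℝ) := by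
  unfold Mm zc
  rw [← Finset.sum_filter, Finset.sum_const, nsmul_eq_mul, mul_comm]

theorem UFM_main {k : ℕ} {x h : ℝ} (hh : 0 < h) (hx : 1 ≤ x) (hL : 1 ≤ Real.log x) {cl : ℝ}
    (hk4 : (k : ℝ) * (x ^ (1 / 4 : ℝ) + 1) * (Real.log x) ^ k ≤ h * cl / 2 * x)
    {S Z E0 : Finset ℤ} (hSc : S.card = k) (hcl : cl ≤ sing S)
    (hZc : h * (sing S * x / (Real.log x) ^ k) ≤ (Z.card : ℝ)) {a b : ℤ}
    (hB : 4 * k * Real.log x ≤ ((b - a : ℤ) : ℝ)) (hB0 : 0 ≤ ((b - a : ℤ) : ℝ))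
    (hE0 : ∀ e, e ∈ E0 ↔ (e ∈ Finset.Ioc a b ∧ e ∉ S ∧ adm (insert e S)))
    (hSZE : ∀ e : ℤ, e ∉ S → sing (insert e S) = 0 → zc x (Zs x S Z) e = 0)
    (hAVZ : 3 / 4 * ((b - a : ℤ) : ℝ) * ((Zs x S Z).card : ℝ) ≤
      wp (yy x) * ∑ e ∈ Finset.Ioc a b, (zc x (Zs x S Z) e : ℝ))
    (hZZ : (((Z \ Zs x S Z).card : ℕ) : ℝ) ≤ k * (x ^ (1 / 4 : ℝ) + 1)) :
    h / 4 * ((b - a : ℤ) : ℝ) * sing S * x ≤
      (Real.log x) ^ k * (wp (yy x) * ∑ e ∈ E0, (zc x (Zs x S Z) e : ℝ)) := by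
  classical
  have hwp0 := (wp_pos (yy x)).le
  have hwpL : wp (yy x) ≤ Real.log x := (Bb_wp_le _).trans (MAJ_W hL)
  have hLk : 0 < (Real.log x) ^ k := by positivity
  have h1 : ∑ e ∈ Finset.Ioc a b, (zc x (Zs x S Z) e : ℝ) ≤
      ∑ e ∈ E0, (zc x (Zs x S Z) e : ℝ) + k * ((Zs x S Z).card : ℝ) := by
    have hp : ∀ e ∈ Finset.Ioc a b, (zc x (Zs x S Z) e : ℝ) ≤
        (if e ∈ E0 then (zc x (Zs x S Z) e : ℝ) else 0) + (if e ∈ S then ((Zs x S Z).card : ℝ) else 0) := by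
      intro e he
      by_cases h1 : e ∈ S
      · have h2 : e ∉ E0 := fun h3 => ((hE0 e).1 h3).2.1 h1
        rw [if_neg h2, if_pos h1, zero_add]
        have : zc x (Zs x S Z) e ≤ (Zs x S Z).card := Finset.card_filter_le _ _
        exact_mod_cast this
      · by_cases h2 : adm (insert e S)
        · have h3 : e ∈ E0 := (hE0 e).2 ⟨he, h1, h2⟩
          rw [if_pos h3, if_neg h1, add_zero]
        · have h3 : e ∉ E0 := fun h3 => h2 ((hE0 e).1 h3).2.2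
          have h4 : sing (insert e S) = 0 := by
            by_contra h5
            exact h2 ((sing_ne_zero_iff _).1 h5)
          rw [if_neg h3, if_neg h1, hSZE e h1 h4]
          simp
    refine (Finset.sum_le_sum hp).trans ?_
    rw [Finset.sum_add_distrib]
    have q1 : ∑ e ∈ Finset.Ioc a b, (if e ∈ E0 then (zc x (Zs x S Z) e : ℝ) else 0) =
        ∑ e ∈ E0, (zc x (Zs x S Z) e : ℝ) := by
      rw [← Finset.sum_filter]
      refine Finset.sum_congr ?_ (fun _ _ => rfl)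
      ext e
      rw [Finset.mem_filter]
      exact ⟨fun h => h.2, fun h => ⟨((hE0 e).1 h).1, h⟩⟩
    have q2 : ∑ e ∈ Finset.Ioc a b, (if e ∈ S then ((Zs x S Z).card : ℝ) else 0) ≤
        k * ((Zs x S Z).card : ℝ) := by
      rw [← Finset.sum_filter, Finset.sum_const, nsmul_eq_mul]
      refine mul_le_mul_of_nonneg_right ?_ (Nat.cast_nonneg _)
      have : ((Finset.Ioc a b).filter (fun e => e ∈ S)).card ≤ S.card := by
        refine Finset.card_le_card ?_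
        intro e he
        exact (Finset.mem_filter.1 he).2
      rw [hSc] at this
      exact_mod_cast this
    rw [q1]
    linarith
  have hZs : (Z.card : ℝ) - k * (x ^ (1 / 4 : ℝ) + 1) ≤ ((Zs x S Z).card : ℝ) := by
    have h2 : (Z \ Zs x S Z).card + (Zs x S Z).card = Z.card :=
      Finset.card_sdiff_add_card_eq_card (Finset.filter_subset _ _)
    have h3 : (((Z \ Zs x S Z).card : ℕ) : ℝ) + ((Zs x S Z).card : ℝ) = (Z.card : ℝ) := by exact_mod_cast h2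
    linarith
  have hZs2 : h / 2 * sing S * x ≤ (Real.log x) ^ k * ((Zs x S Z).card : ℝ) := by
    have h2 : h * (sing S * x) ≤ (Real.log x) ^ k * (Z.card : ℝ) := by
      have h3 := mul_le_mul_of_nonneg_left hZc hLk.le
      have h4 : (Real.log x) ^ k * (h * (sing S * x / (Real.log x) ^ k)) = h * (sing S * x) := by
        field_simp
      rw [h4] at h3
      exact h3
    have h3 := mul_le_mul_of_nonneg_left hZs hLk.le
    have h4 : h * cl / 2 * x ≤ h * sing S / 2 * x := by gcongr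
    nlinarith
  have hZ0 : (0 : ℝ) ≤ ((Zs x S Z).card : ℝ) := Nat.cast_nonneg _
  have h2 : 1 / 2 * ((b - a : ℤ) : ℝ) * ((Zs x S Z).card : ℝ) ≤
      wp (yy x) * ∑ e ∈ E0, (zc x (Zs x S Z) e : ℝ) := by
    have h3 := mul_le_mul_of_nonneg_left h1 hwp0
    have h4 : wp (yy x) * (k * ((Zs x S Z).card : ℝ)) ≤ Real.log x * (k * ((Zs x S Z).card : ℝ)) :=
      mul_le_mul_of_nonneg_right hwpL (by positivity)
    have h5 : 4 * k * Real.log x * ((Zs x S Z).card : ℝ) ≤ ((b - a : ℤ) : ℝ) * ((Zs x S Z).card : ℝ) :=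
      mul_le_mul_of_nonneg_right hB hZ0
    nlinarith
  calc h / 4 * ((b - a : ℤ) : ℝ) * sing S * x = 1 / 2 * ((b - a : ℤ) : ℝ) * (h / 2 * sing S * x) := by ring
    _ ≤ 1 / 2 * ((b - a : ℤ) : ℝ) * ((Real.log x) ^ k * ((Zs x S Z).card : ℝ)) :=
        mul_le_mul_of_nonneg_left hZs2 (by linarith)
    _ = (Real.log x) ^ k * (1 / 2 * ((b - a : ℤ) : ℝ) * ((Zs x S Z).card : ℝ)) := by ring
    _ ≤ _ := mul_le_mul_of_nonneg_left h2 hLk.le


theorem UFM_sing {k : ℕ} {x : ℝ} (hP : ∀ s : Finset ℤ, 1 ≤ s.card → s.card ≤ k + 1 →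
      (∀ a ∈ s, ∀ a' ∈ s, |((a - a' : ℤ) : ℝ)| ≤ 4 * (Real.log x) ^ 2) →
      (1 - 1 / 2) * sW x s ≤ sing s ∧ sing s ≤ (1 + 1 / 2) * sW x s)
    {u : ℤ} {S E0 : Finset ℤ} (hk : 1 ≤ k) (hSc : S.card = k) (hS : ∀ e ∈ S, Wnd x u e) {a b : ℤ}
    (hwin : ∀ e ∈ Finset.Ioc a b, Wnd x u e)
    (hE0 : ∀ e, e ∈ E0 ↔ (e ∈ Finset.Ioc a b ∧ e ∉ S ∧ adm (insert e S)))
    (hA : ∑ e ∈ Finset.Ioc a b \ S, sW x (insert e S) ≤ 2 * ((b - a : ℤ) : ℝ) * sW x S)
    (hB0 : 0 ≤ ((b - a : ℤ) : ℝ)) :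
    ∑ e ∈ E0, sing (insert e S) ≤ 8 * ((b - a : ℤ) : ℝ) * sing S := by
  have hdiff : ∀ s : Finset ℤ, (∀ e ∈ s, Wnd x u e) →
      ∀ a ∈ s, ∀ a' ∈ s, |((a - a' : ℤ) : ℝ)| ≤ 4 * (Real.log x) ^ 2 := by
    intro s hs p hp p' hp'
    obtain ⟨a1, a2⟩ := hs p hp
    obtain ⟨b1, b2⟩ := hs p' hp'
    have a1' : (u : ℝ) < p := by exact_mod_cast a1
    have b1' : (u : ℝ) < p' := by exact_mod_cast b1
    have h0 : 0 ≤ (Real.log x) ^ 2 := sq_nonneg _
    push_cast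
    rw [abs_le]
    constructor <;> linarith
  have h1 : ∀ e ∈ E0, sing (insert e S) ≤ (1 + 1 / 2) * sW x (insert e S) := by
    intro e he
    obtain ⟨he1, he2, -⟩ := (hE0 e).1 he
    have hc : (insert e S).card = k + 1 := by rw [Finset.card_insert_of_notMem he2, hSc]
    refine (hP _ (by omega) (by omega) (hdiff _ ?_)).2
    intro e' he'
    rw [Finset.mem_insert] at he'
    rcases he' with rfl | he'
    · exact hwin _ he1
    · exact hS e' he'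
  have h2 : (1 - 1 / 2) * sW x S ≤ sing S := (hP S (by omega) (by omega) (hdiff _ hS)).1
  have h3 : ∑ e ∈ E0, sW x (insert e S) ≤ ∑ e ∈ Finset.Ioc a b \ S, sW x (insert e S) := by
    refine Finset.sum_le_sum_of_subset_of_nonneg ?_ (fun _ _ _ => sW_nonneg _ _)
    intro e he
    obtain ⟨he1, he2, -⟩ := (hE0 e).1 he
    exact Finset.mem_sdiff.2 ⟨he1, he2⟩
  have hs0 := sing_nonneg S
  calc ∑ e ∈ E0, sing (insert e S) ≤ ∑ e ∈ E0, (1 + 1 / 2) * sW x (insert e S) := Finset.sum_le_sum h1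
    _ = (1 + 1 / 2) * ∑ e ∈ E0, sW x (insert e S) := by rw [Finset.mul_sum]
    _ ≤ (1 + 1 / 2) * (2 * ((b - a : ℤ) : ℝ) * sW x S) := by
        refine mul_le_mul_of_nonneg_left (h3.trans hA) (by norm_num)
    _ = 3 * ((b - a : ℤ) : ℝ) * sW x S := by ring
    _ ≤ 3 * ((b - a : ℤ) : ℝ) * (2 * sing S) := by
        refine mul_le_mul_of_nonneg_left (by linarith) (by positivity)
    _ ≤ 8 * ((b - a : ℤ) : ℝ) * sing S := by
        have := mul_nonneg hB0 hs0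
        nlinarith

open scoped Classical in
theorem UFM_fin {x C c c2 Bs Lk1 : ℝ} (hx : 0 < x) (hC : 0 < C) (hc2 : 0 < c2) (hc : 0 < c)
    (hcA : c ≤ c2 / 32) (hcB : c ≤ c2 / (8 * C)) (hBs : 0 ≤ Bs) (hLk : 0 < Lk1)
    {E0 F : Finset ℤ} {s R z : ℤ → ℝ} {cl' ex : ℝ} (hs0 : ∀ e, 0 ≤ s e) (hsl : ∀ e ∈ E0, cl' ≤ s e)
    (hF : ∀ e ∈ E0, e ∉ F → z e < c * (s e * x / Lk1))
    (hR1 : ∀ e ∈ E0, R e ≤ 4 * C * x * s e)
    (hR2 : ∀ e ∈ E0, R e ≤ Lk1 * (z e + ex))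
    (hex : ex * Lk1 ≤ c * cl' * x)
    (hT : ∑ e ∈ E0, s e ≤ 8 * Bs) (hlow : c2 * Bs * x ≤ ∑ e ∈ E0, R e) :
    c * Bs ≤ ∑ e ∈ F, s e := by
  have h1 : ∀ e ∈ E0, R e ≤ (if e ∈ F then 4 * C * x * s e else 0) + 2 * c * x * s e := by
    intro e he
    have hs := hs0 e
    by_cases hf : e ∈ F
    · rw [if_pos hf]
      have := hR1 e he
      have h2 : 0 ≤ 2 * c * x * s e := by positivity
      linarith
    · rw [if_neg hf, zero_add]
      have h3 := hR2 e he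
      have h4 := mul_le_mul_of_nonneg_left (hF e he hf).le hLk.le
      have h5 : Lk1 * (c * (s e * x / Lk1)) = c * x * s e := by field_simp
      have h6 : c * cl' * x ≤ c * s e * x := by
        have := hsl e he
        gcongr
      nlinarith
  have h2 : ∑ e ∈ E0, (if e ∈ F then 4 * C * x * s e else 0) ≤ 4 * C * x * ∑ e ∈ F, s e := by
    rw [← Finset.sum_filter, Finset.mul_sum]
    refine Finset.sum_le_sum_of_subset_of_nonneg ?_ ?_
    · intro e he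
      exact (Finset.mem_filter.1 he).2
    · intro e _ _
      have := hs0 e
      positivity
  have h3 : ∑ e ∈ E0, 2 * c * x * s e ≤ 2 * c * x * (8 * Bs) := by
    rw [← Finset.mul_sum]
    exact mul_le_mul_of_nonneg_left hT (by positivity)
  have h4 := Finset.sum_le_sum h1
  rw [Finset.sum_add_distrib] at h4
  have h5 : 2 * c * x * (8 * Bs) ≤ c2 / 2 * Bs * x := by
    have : 0 ≤ x * Bs := by positivity
    nlinarith
  have h6 : c2 / 2 * Bs * x ≤ 4 * C * x * ∑ e ∈ F, s e := by linarith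
  have h7 : c2 / 2 * Bs ≤ 4 * C * ∑ e ∈ F, s e := by
    refine le_of_mul_le_mul_right ?_ hx
    linarith
  have h8 : c * (8 * C) ≤ c2 := by
    rw [le_div_iff₀ (by positivity)] at hcB
    exact hcB
  have h9 : c * (8 * C) * Bs ≤ c2 * Bs := mul_le_mul_of_nonneg_right h8 hBs
  have h10 : 8 * C * (c * Bs) ≤ 8 * C * ∑ e ∈ F, s e := by linarith
  exact le_of_mul_le_mul_left h10 (by positivity)

theorem UFM (k : ℕ) (hk : 1 ≤ k) (h : ℝ) (hh : 0 < h) : ∃ c K X : ℝ, 0 < c ∧ ∀ x : ℝ, X ≤ x → ∀ u : ℤ,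
    ∀ S : Finset ℤ, (∀ e ∈ S, Wnd x u e) → S.card = k → ∀ Z : Finset ℤ, Tup x S Z →
    h * (sing S * x / (Real.log x) ^ k) ≤ (Z.card : ℝ) →
    ∀ a b : ℤ, u ≤ a → (b : ℝ) ≤ u + (Real.log x) ^ 2 → K * Real.log x ≤ ((b - a : ℤ) : ℝ) →
    c * (((b - a : ℤ) : ℝ) * sing S) ≤
      ∑ e ∈ (Finset.Ioc a b).filter (fun e => e ∉ S ∧ c * (sing (insert e S) * x / (Real.log x) ^ (k + 1)) ≤ (z4 Z e : ℝ)),
        sing (insert e S) := by
  classical
  obtain ⟨cl, hcl0, hcl⟩ := sing_lower k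
  obtain ⟨cl', hcl'0, hcl'⟩ := sing_lower (k + 1)
  obtain ⟨cT, X1, hcT, hT⟩ := UTR k hk (1 / 2) (by norm_num)
  obtain ⟨δ, hδ0, hδ1, c1, K1, X2, hc1, hK1, hL⟩ := UWL k (h / 256) (by positivity)
  obtain ⟨C, X3, hC, hU⟩ := UWC k δ hδ0
  obtain ⟨X4, hA⟩ := SWA
  obtain ⟨X5, hV⟩ := AVZ
  obtain ⟨q, hq0, hD⟩ := ADE k hk
  obtain ⟨X6, hE⟩ := SZE k
  obtain ⟨X7, hP⟩ := PW_sing (k + 1) (1 / 2) (by norm_num)
  obtain ⟨c2, hc2⟩ : ∃ c2 : ℝ, c2 = c1 * h / 8 := ⟨_, rfl⟩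
  have hc20 : 0 < c2 := by rw [hc2]; positivity
  obtain ⟨c, hc⟩ : ∃ c : ℝ, c = min (c2 / 32) (c2 / (8 * C)) := ⟨_, rfl⟩
  have hc0 : 0 < c := by rw [hc]; positivity
  have hcA : c ≤ c2 / 32 := by rw [hc]; exact min_le_left _ _
  have hcB : c ≤ c2 / (8 * C) := by rw [hc]; exact min_le_right _ _
  obtain ⟨X8, hX8⟩ := UFM_ev k (δ := δ) (A := h * cl / 2) (B := c * cl') hδ0 (by positivity) (by positivity)
  refine ⟨c, max (4 * k + 4) (q * (K1 + k + 1)),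
    max X1 (max X2 (max X3 (max X4 (max X5 (max X6 (max X7 X8)))))), hc0, ?_⟩
  intro x hx u S hS hSc Z hZ hZc a b hua hub hK
  simp only [max_le_iff] at hx
  obtain ⟨hx1, hx2, hx3, hx4, hx5, hx6, hx7, hx8⟩ := hx
  obtain ⟨f1, f2, f3, f4, f5, f6, f7, f8⟩ := hX8 x hx8
  have hx0 : 0 < x := by linarith
  have hL0 : 0 < Real.log x := by linarith
  have hq0R : (0 : ℝ) < q := by exact_mod_cast hq0
  have hk0 : (0 : ℝ) ≤ k := Nat.cast_nonneg k
  have hKa : (4 * k + 4) * Real.log x ≤ ((b - a : ℤ) : ℝ) :=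
    (mul_le_mul_of_nonneg_right (le_max_left _ _) hL0.le).trans hK
  have hKb : q * (K1 + k + 1) * Real.log x ≤ ((b - a : ℤ) : ℝ) :=
    (mul_le_mul_of_nonneg_right (le_max_right _ _) hL0.le).trans hK
  have hkL : 0 ≤ (k : ℝ) * Real.log x := by positivity
  have hB0 : 0 < ((b - a : ℤ) : ℝ) := by nlinarith
  have hab : a ≤ b := by
    have : 0 < b - a := by exact_mod_cast hB0
    omega
  by_cases hs : sing S = 0
  · rw [hs, mul_zero, mul_zero]
    exact Finset.sum_nonneg (fun e _ => sing_nonneg _)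
  have hadm : adm S := (sing_ne_zero_iff S).1 hs
  have hclS : cl ≤ sing S := hcl S hSc hadm
  have hsS : 0 < sing S := lt_of_lt_of_le hcl0 hclS
  have hwin : ∀ e ∈ Finset.Ioc a b, Wnd x u e := by
    intro e he
    rw [Finset.mem_Ioc] at he
    refine ⟨by omega, ?_⟩
    have : (e : ℝ) ≤ b := by exact_mod_cast he.2
    linarith
  obtain ⟨E0, hE0, hE0c⟩ : ∃ E0 : Finset ℤ, (∀ e, e ∈ E0 ↔ (e ∈ Finset.Ioc a b ∧ e ∉ S ∧ adm (insert e S))) ∧
      ((b - a : ℤ) : ℝ) ≤ q * ((E0.card : ℝ) + k + 1) := by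
    have h1 := hD S hSc hadm a b hab
    exact ⟨_, fun e => Finset.mem_filter, h1⟩
  have hE0K : K1 * Real.log x ≤ (E0.card : ℝ) := by
    have h1 : q * (K1 + k + 1) * Real.log x ≤ q * ((E0.card : ℝ) + k + 1) := hKb.trans hE0c
    have h2 : (K1 + k + 1) * Real.log x ≤ (E0.card : ℝ) + k + 1 := by
      refine le_of_mul_le_mul_left ?_ hq0R
      linarith
    nlinarith
  obtain ⟨v, S', G, hS', hS'c, hG0, hGle, hGs, hGe, hZZ⟩ := hT x hx1 u S hS hSc Z hZ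
  have hH : ((⌊(Real.log x) ^ 2⌋₊ : ℕ) : ℝ) ≤ (Real.log x) ^ 2 := Nat.floor_le (sq_nonneg _)
  have hGe' : ∀ e ∈ E0, v - e ∈ Finset.Icc 1 (⌊(Real.log x) ^ 2⌋₊ : ℤ) \ S' ∧ adm (insert (v - e) S') ∧
        cT ≤ sW x (insert (v - e) S') ∧ (1 - 1 / 2) * sW x (insert (v - e) S') ≤ sing (insert e S) ∧
        sing (insert e S) ≤ (1 + 1 / 2) * sW x (insert (v - e) S') := by
    intro e he
    obtain ⟨h1, h2, h3⟩ := (hE0 e).1 he
    exact hGe e (hwin e h1) h2 ((sing_ne_zero_iff _).2 h3)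
  have hinj : Function.Injective (fun e : ℤ => v - e) := fun p p' hpp => by
    have h' : v - p = v - p' := hpp
    omega
  have hlow := hL x hx2 _ hH S' hS' hS'c G hG0 hGle (E0.image (fun e => v - e)) (by
      intro e' he'
      rw [Finset.mem_image] at he'
      obtain ⟨e, he, rfl⟩ := he'
      exact (hGe' e he).1) (by
      rw [Finset.card_image_of_injective E0 hinj]
      exact hE0K) (by
      intro e' he'
      rw [Finset.mem_image] at he'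
      obtain ⟨e, he, rfl⟩ := he'
      exact (hGe' e he).2.1)
  rw [Finset.sum_image (fun p _ p' _ hpp => hinj hpp), Finset.sum_image (fun p _ p' _ hpp => hinj hpp),
    Finset.sum_image (fun p _ p' _ hpp => hinj hpp)] at hlow
  have hM1 : ∑ e ∈ E0, ∑ n ∈ JJ x ⌊(Real.log x) ^ 2⌋₊, G (n : ℤ) * Mm (yy x) ((n : ℤ) - (v - e)) =
      (Real.log x) ^ k * (wp (yy x) * ∑ e ∈ E0, (zc x (Zs x S Z) e : ℝ)) := by
    rw [Finset.mul_sum, Finset.mul_sum]
    refine Finset.sum_congr rfl ?_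
    intro e he
    rw [hGs (Mm (yy x)) e (hwin e ((hE0 e).1 he).1), UFM_Mm]
  have hmain := UFM_main hh f1 f2 f7 (E0 := E0) (Z := Z) hSc hclS hZc (a := a) (b := b) (by nlinarith) hB0.le hE0
    (fun e he1 he2 => hE x hx6 S Z hSc hZ e he1 he2) (hV x hx5 _ a b (by nlinarith)) hZZ
  have hTs := UFM_sing (hP x hx7) hk hSc hS hwin hE0 (hA x hx4 S a b (by nlinarith)) hB0.le
  have hTT : ∑ e ∈ E0, sW x (insert (v - e) S') ≤ 2 * ∑ e ∈ E0, sing (insert e S) := by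
    rw [Finset.mul_sum]
    refine Finset.sum_le_sum ?_
    intro e he
    have := (hGe' e he).2.2.2.1
    linarith
  have hN : (⌊x⌋₊ : ℝ) + 1 ≤ 2 * x := by
    have := Nat.floor_le hx0.le
    linarith
  have hN0 : (0 : ℝ) ≤ (⌊x⌋₊ : ℝ) + 1 := by positivity
  have hT0 : 0 ≤ ∑ e ∈ E0, sW x (insert (v - e) S') := Finset.sum_nonneg (fun e _ => sW_nonneg _ _)
  have hBs : 0 ≤ ((b - a : ℤ) : ℝ) * sing S := by positivity
  refine UFM_fin (x := x) (C := C) (c := c) (c2 := c2) (Bs := ((b - a : ℤ) : ℝ) * sing S)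
    (Lk1 := (Real.log x) ^ (k + 1)) hx0 hC hc20 hc0 hcA hcB hBs (by positivity) (E0 := E0)
    (s := fun e => sing (insert e S)) (z := fun e => (z4 Z e : ℝ))
    (R := fun e => ∑ n ∈ JJ x ⌊(Real.log x) ^ 2⌋₊, G (n : ℤ) *
      (if q4 x δ ((n : ℤ) - (v - e)) then Real.log x else 0))
    (cl' := cl') (ex := 4 * x / x ^ δ) (fun e => sing_nonneg _) ?_ ?_ ?_ ?_ ?_ ?_ ?_
  · intro e he
    obtain ⟨h1, h2, h3⟩ := (hE0 e).1 he
    exact hcl' _ (by rw [Finset.card_insert_of_notMem h2, hSc]) h3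
  · intro e he hf
    obtain ⟨h1, h2, h3⟩ := (hE0 e).1 he
    rw [Finset.mem_filter] at hf
    push Not at hf
    exact hf h1 h2
  · intro e he
    obtain ⟨g1, -, -, g4, -⟩ := hGe' e he
    have h1 := (hU x hx3 _ hH S' hS' hS'c G hG0 hGle (v - e) g1).1
    have h2 : sW x (insert (v - e) S') ≤ 2 * sing (insert e S) := by linarith
    have hw0 := sW_nonneg x (insert (v - e) S')
    have hse := sing_nonneg (insert e S)
    calc _ ≤ C * sW x (insert (v - e) S') * ((⌊x⌋₊ : ℝ) + 1) := h1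
      _ ≤ C * (2 * sing (insert e S)) * (2 * x) := by gcongr
      _ = 4 * C * x * sing (insert e S) := by ring
  · intro e he
    obtain ⟨h1, h2, h3⟩ := (hE0 e).1 he
    have g1 := hGs (fun n => if q4 x δ n then Real.log x else 0) e (hwin e h1)
    have g2 := UFM_Q (δ := δ) hk f1 f2 f3 f4 f5 f6 hS hSc hZ (hwin e h1)
    have g3 := mul_le_mul_of_nonneg_left g2 (pow_nonneg hL0.le k)
    calc _ = (Real.log x) ^ k * ∑ m ∈ Zs x S Z, (if q4 x δ (m + e) then Real.log x else 0) := g1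
      _ ≤ (Real.log x) ^ k * (Real.log x * ((z4 Z e : ℝ) + 4 * x / x ^ δ)) := g3
      _ = (Real.log x) ^ (k + 1) * ((z4 Z e : ℝ) + 4 * x / x ^ δ) := by ring
  · linarith
  · calc _ ≤ 8 * ((b - a : ℤ) : ℝ) * sing S := hTs
      _ = 8 * (((b - a : ℤ) : ℝ) * sing S) := by ring
  · refine le_trans ?_ hlow
    rw [hM1, hc2]
    have h1 : h / 256 * ((⌊x⌋₊ : ℝ) + 1) * ∑ e ∈ E0, sW x (insert (v - e) S') ≤
        h / 256 * (2 * x) * (2 * (8 * ((b - a : ℤ) : ℝ) * sing S)) := by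
      have h2 : ∑ e ∈ E0, sW x (insert (v - e) S') ≤ 2 * (8 * ((b - a : ℤ) : ℝ) * sing S) := by linarith
      gcongr
    have h2 : c1 * (h / 8 * ((b - a : ℤ) : ℝ) * sing S * x) ≤ c1 * ((Real.log x) ^ k *
        (wp (yy x) * ∑ e ∈ E0, (zc x (Zs x S Z) e : ℝ)) -
        h / 256 * ((⌊x⌋₊ : ℝ) + 1) * ∑ e ∈ E0, sW x (insert (v - e) S')) := by
      refine mul_le_mul_of_nonneg_left ?_ hc1.le
      have e1 : h / 256 * (2 * x) * (2 * (8 * ((b - a : ℤ) : ℝ) * sing S)) =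
        h / 8 * ((b - a : ℤ) : ℝ) * sing S * x := by ring
      have e2 : h / 4 * ((b - a : ℤ) : ℝ) * sing S * x = 2 * (h / 8 * ((b - a : ℤ) : ℝ) * sing S * x) := by ring
      linarith
    calc c1 * h / 8 * (((b - a : ℤ) : ℝ) * sing S) * x = c1 * (h / 8 * ((b - a : ℤ) : ℝ) * sing S * x) := by ring
      _ ≤ _ := h2

end Pool.Agent.H96.FL
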