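import Pool.Agent.H96.FL.TDf
import Pool.Agent.H96.FL.UWC

/-!
# UWD: `UWC` for `q3` instead of `q4`

Copy the proof of `UWC` (`Pool/Agent/H96/FL/UWC.lean`, first part): it only uses that `q4 x δ n` implies that `n` has no prime factor `≤ x^δ`, which `q3 x δ n` implies as well.
-/

set_option autoImplicit false

namespace Pool.Agent.H96.FL

open Finset Pool.Agent.H17 Pool.Agent.H6.MF Pool.Agent.H6.MB Pool.Agent.H12.DM Pool.Agent.H6.AE Pool.Agent.H96.AE Pool.Agent.H96.AS Pool.Agent.H96.FD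

private lemma UWD_cls {W : ℕ} (hW : 0 < W) (J : Finset ℕ) (F : ℕ → ℝ) :
    ∑ n ∈ J, F n = ∑ t ∈ Finset.range W, ∑ n ∈ J.filter (fun n => n % W = t), F n :=
  (Finset.sum_fiberwise_of_maps_to (fun n _ => Finset.mem_range.mpr (Nat.mod_lt n hW)) F).symm

private lemma UWD_per {W : ℕ} {M : ℤ → ℝ} (hper : ∀ n k : ℤ, M (n + k * (W : ℤ)) = M n) {n t : ℕ}
    (h : n % W = t) (e : ℤ) : M ((n : ℤ) - e) = M ((t : ℤ) - e) := by
  have h2 := Nat.div_add_mod n W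
  rw [h] at h2
  have h1 : (n : ℤ) - e = ((t : ℤ) - e) + ((n / W : ℕ) : ℤ) * (W : ℤ) := by
    have h3 : (n : ℤ) = (W : ℤ) * ((n / W : ℕ) : ℤ) + (t : ℤ) := by exact_mod_cast h2.symm
    rw [h3]
    have h4 : ((n / W : ℕ) : ℤ) = (((n / W : ℕ) : ℤ)) := rfl
    linarith [mul_comm (W : ℤ) ((n / W : ℕ) : ℤ)]
  rw [h1, hper]

private lemma UWD_Q {W : ℕ} (hW : 0 < W) {M : ℤ → ℝ} (hper : ∀ n k : ℤ, M (n + k * (W : ℤ)) = M n)
    (hM : ∀ n, 0 ≤ M n) (S : Finset ℤ) (J : Finset ℕ) (P : ℕ → ℝ) (α : ℝ)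
    (h : ∀ t ∈ Finset.range W, ∑ n ∈ J.filter (fun n => n % W = t), P n ≤ α) :
    ∑ n ∈ J, (∏ c ∈ S, M ((n : ℤ) - c)) * P n ≤
      α * ∑ t ∈ Finset.range W, ∏ c ∈ S, M ((t : ℤ) - c) := by
  rw [UWD_cls hW, Finset.mul_sum]
  refine Finset.sum_le_sum fun t ht => ?_
  have e1 : ∑ n ∈ J.filter (fun n => n % W = t), (∏ c ∈ S, M ((n : ℤ) - c)) * P n =
      (∏ c ∈ S, M ((t : ℤ) - c)) * ∑ n ∈ J.filter (fun n => n % W = t), P n := by
    rw [Finset.mul_sum]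
    refine Finset.sum_congr rfl fun n hn => ?_
    have hnt := (Finset.mem_filter.mp hn).2
    rw [Finset.prod_congr rfl fun c _ => UWD_per hper hnt c]
  rw [e1, mul_comm α]
  exact mul_le_mul_of_nonneg_left (h t ht) (Finset.prod_nonneg fun _ _ => hM _)

private lemma UWD_large (m b : ℕ) : ∃ X : ℝ, ∀ x : ℝ, X ≤ x → 1 ≤ x ∧ 1 ≤ Real.log x ∧ 2 ≤ x ^ dlm m b ∧
    (yy x : ℝ) ≤ x ^ dlm m b := by
  have hd := dlm_pos m b
  have h1 : ∀ᶠ x : ℝ in Filter.atTop, 1 ≤ x := Filter.eventually_ge_atTop 1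
  have h2 : ∀ᶠ x : ℝ in Filter.atTop, 1 ≤ Real.log x := Real.tendsto_log_atTop.eventually_ge_atTop 1
  have h3 : ∀ᶠ x : ℝ in Filter.atTop, 2 ≤ x ^ dlm m b := (tendsto_rpow_atTop hd).eventually_ge_atTop 2
  have h4 : ∀ᶠ t : ℝ in Filter.atTop, ‖Real.log t‖ ≤ dlm m b * ‖id t‖ := Real.isLittleO_log_id_atTop.bound hd
  have h5 : ∀ᶠ x : ℝ in Filter.atTop, ‖Real.log (Real.log x)‖ ≤ dlm m b * ‖id (Real.log x)‖ :=
    Real.tendsto_log_atTop.eventually h4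
  obtain ⟨X, hX⟩ := Filter.eventually_atTop.1 (h1.and (h2.and (h3.and h5)))
  refine ⟨X, fun x hx => ?_⟩
  obtain ⟨a1, a2, a3, a4⟩ := hX x hx
  refine ⟨a1, a2, a3, ?_⟩
  have e1 : 0 ≤ Real.log (Real.log x) := Real.log_nonneg a2
  have e2 : Real.log (Real.log x) ≤ dlm m b * Real.log x := by
    simp only [id, Real.norm_eq_abs] at a4
    rw [abs_of_nonneg e1, abs_of_nonneg (by linarith)] at a4
    exact a4
  have e3 : ((yy x : ℕ) : ℝ) ≤ Real.log (Real.log x) / 100 := by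
    unfold yy
    exact Nat.floor_le (by positivity)
  have e4 : x ^ dlm m b = Real.exp (Real.log x * dlm m b) := Real.rpow_def_of_pos (by linarith) _
  rw [e4]
  have e5 := Real.add_one_le_exp (Real.log x * dlm m b)
  linarith

/-- an integer without prime factor up to `x^δ` -/
private lemma UWD_q4 {m b : ℕ} {x δ : ℝ} (hδ : dlm m b ≤ δ) (a1 : 1 ≤ x) (a2 : 1 ≤ Real.log x) (a3 : 2 ≤ x ^ dlm m b)
    (a4 : (yy x : ℝ) ≤ x ^ dlm m b) {V : ℤ → ℝ} (hV : GoodVm m b x V) {n : ℤ} (h : q3 x δ n) :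
    Real.log x ≤ 1 / dlm m b * (Mm (yy x) n * V n) := by
  have hd := dlm_pos m b
  have hle : x ^ dlm m b ≤ x ^ δ := Real.rpow_le_rpow_of_exponent_le a1 hδ
  have hndvd : ∀ p : ℕ, p.Prime → (p : ℝ) ≤ x ^ dlm m b → ¬ (p : ℤ) ∣ n := fun p hp hpx =>
    h.1 p hp (hpx.trans hle)
  have hMm : Mm (yy x) n = wp (yy x) := by
    unfold Mm
    rw [if_pos]
    have e1 : n.gcd (WW (yy x) : ℤ) = n.natAbs.gcd (WW (yy x)) := by
      simp [Int.gcd]
    rw [e1]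
    show n.natAbs.Coprime (WW (yy x))
    rw [coprime_WW]
    intro p hpm hdv
    have hpm' := mem_PP.mp hpm
    refine hndvd p hpm'.2 ?_ (Int.natCast_dvd.2 hdv)
    have : (p : ℝ) ≤ (yy x : ℝ) := by exact_mod_cast hpm'.1
    linarith
  have hVn : V n = (EP (yy x : ℝ) (x ^ dlm m b))⁻¹ := by
    apply hV.2.1
    intro p hpp
    have hq := Vc_memPI (by linarith) hpp
    exact hndvd p hq.1 hq.2
  rw [hMm, hVn, wp_eq, ← mul_inv, ← EP_mul (by positivity) a4]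
  have h3 := mer3 (x ^ dlm m b) a3
  have hpos := EP_pos 0 (x ^ dlm m b)
  have hlog : Real.log (x ^ dlm m b) = dlm m b * Real.log x := Real.log_rpow (by linarith) _
  rw [hlog] at h3
  have hL : 0 < dlm m b * Real.log x := by
    apply mul_pos hd
    linarith
  have h4 : dlm m b * Real.log x ≤ (EP 0 (x ^ dlm m b))⁻¹ := by
    rw [le_inv_comm₀ hL hpos, inv_eq_one_div]
    exact h3
  calc Real.log x = 1 / dlm m b * (dlm m b * Real.log x) := by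
        field_simp
    _ ≤ 1 / dlm m b * (EP 0 (x ^ dlm m b))⁻¹ := by
        apply mul_le_mul_of_nonneg_left h4
        positivity

private lemma UWD_avg {P : ℕ} (hP : 0 < P) : avgP P (fun _ => 1) = 1 := by
  unfold avgP
  rw [Finset.sum_const, Finset.card_range, nsmul_eq_mul, mul_one]
  exact div_self (by exact_mod_cast hP.ne')

private lemma UWD_good {δ x : ℝ} (a1 : 1 ≤ x) (a2 : 1 ≤ Real.log x) :
    GoodF δ (13 / 50) (1 / 20) 1 1 x (fun _ => 1) (fun _ => 1) := by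
  have hP : 0 < PR (x ^ δ) (x ^ (13 / 50 : ℝ)) := MAJ_PR_pos _ _
  have hx : (1 : ℝ) ≤ 1 * x ^ (1 / 2 - 1 / 20 : ℝ) := by
    rw [one_mul]
    exact Real.one_le_rpow a1 (by norm_num)
  refine ⟨fun _ => zero_le_one, fun _ => le_rfl, TD_mono TD_one dvd_rfl hx, TD_mono TD_one dvd_rfl hx,
    UWD_avg hP, UWD_avg hP, ?_, ?_⟩
  · intro k _ _
    have h1 : (0 : ℝ) ≤ 1 / Real.log x := by positivity
    simp only [mul_one]
    rw [UWD_avg hP]
    linarith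
  · intro n _ _
    norm_num

open scoped Classical in
theorem UWD (k : ℕ) (δ : ℝ) (hδ : 0 < δ) : ∃ C X : ℝ, 0 < C ∧
    ∀ x : ℝ, X ≤ x → ∀ H : ℕ, (H : ℝ) ≤ (Real.log x) ^ 2 →
    ∀ S : Finset ℤ, S ⊆ Finset.Icc 1 (H : ℤ) → S.card = k →
    ∀ G : ℤ → ℝ, (∀ n, 0 ≤ G n) → (∀ n, G n ≤ ∏ c ∈ S, La x (n - c)) →
    ∀ e ∈ Finset.Icc 1 (H : ℤ) \ S,
    ∑ n ∈ JJ x H, G (n : ℤ) * (if q3 x δ ((n : ℤ) - e) then Real.log x else 0) ≤ C * sW x (insert e S) * ((⌊x⌋₊ : ℝ) + 1) := by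
  obtain ⟨m, hm⟩ : ∃ m : ℕ, m = 2 * k + 9 := ⟨_, rfl⟩
  obtain ⟨b₁, hb₁⟩ := Pool.Agent.H6.AE.Num m
  obtain ⟨b₂, hb₂⟩ := exists_nat_ge (1 / δ)
  obtain ⟨b, hb⟩ : ∃ b : ℕ, b = max b₁ b₂ := ⟨_, rfl⟩
  have hbδ : 1 / δ ≤ (b : ℝ) := hb₂.trans (by rw [hb]; exact_mod_cast le_max_right b₁ b₂)
  have hdδ : dlm m b ≤ δ := by
    unfold dlm
    have h1 : (0 : ℝ) ≤ (b : ℝ) := Nat.cast_nonneg b
    have h2 : (0 : ℝ) ≤ (m : ℝ) := Nat.cast_nonneg m
    rw [div_le_iff₀ (by positivity)]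
    have h3 : 1 ≤ δ * (b : ℝ) := by
      rw [div_le_iff₀ hδ] at hbδ
      linarith
    have h4 : (b : ℝ) ≤ 40 * ((m : ℝ) + 1) * (4 * (b : ℝ) + 8) := by nlinarith [mul_nonneg h1 h2]
    have h5 := mul_le_mul_of_nonneg_left h4 hδ.le
    linarith
  obtain ⟨X₁, hX₁⟩ := hb₁ b (by rw [hb]; exact le_max_left _ _)
  obtain ⟨X₂, hX₂⟩ := CLGa m b (k + 1) (13 / 50) (1 / 20) 1 (by norm_num) le_rfl (by omega)
    (by
      rw [hm]
      push_cast
      linarith) one_pos ((dlm_le m b).trans_lt (by norm_num))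
  obtain ⟨X₃, hX₃⟩ := UWD_large m b
  obtain ⟨X₄, hX₄⟩ := BMU_maj m b
  have hd := dlm_pos m b
  have hD : 0 < 1 + 1 / dlm m b := by positivity
  refine ⟨(1 + 1 / dlm m b) ^ (k + 1) * 2 ^ (k + 4), max (max X₁ X₂) (max X₃ X₄), by positivity, ?_⟩
  intro x hx H hH S hS hSk G hG0 hG e he
  obtain ⟨V, hV⟩ := hX₁ x (((le_max_left _ _).trans (le_max_left _ _)).trans hx)
  obtain ⟨a1, a2, a3, a4⟩ := hX₃ x (((le_max_left _ _).trans (le_max_right _ _)).trans hx)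
  have hmaj := hX₄ x (((le_max_right _ _).trans (le_max_right _ _)).trans hx) V hV
  have heI := (Finset.mem_sdiff.1 he).1
  have heS := (Finset.mem_sdiff.1 he).2
  have hcl := hX₂ x (((le_max_right _ _).trans (le_max_left _ _)).trans hx) V hV 1 zero_le_one le_rfl
    (fun _ => 1) (fun _ => 1) (UWD_good a1 a2) H hH (insert e S)
    (Finset.insert_subset heI hS) (by rw [Finset.card_insert_of_notMem heS, hSk])
  have hWpos : 0 < WW (yy x) := WW_pos (yy x)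
  have hWr : (0 : ℝ) < (WW (yy x) : ℝ) := WW_pos_real (yy x)
  have hV0 : ∀ n, 0 ≤ V n := hV.1
  have hM0 : ∀ n, 0 ≤ Mm (yy x) n := Mm_nonneg (yy x)
  have Q := UWD_Q (M := Mm (yy x)) hWpos (Mm_period (yy x)) hM0 (insert e S) (JJ x H)
    (fun n : ℕ => ∏ c ∈ insert e S, (1 + V ((n : ℤ) - c)))
    (2 ^ (k + 4) * (((⌊x⌋₊ : ℝ) + 1) / (WW (yy x) : ℝ)))
    (fun t ht => by
      have h1 := (hcl t (Finset.mem_range.mp ht)).1
      unfold JC at h1
      exact h1)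
  have hsW : ∑ t ∈ Finset.range (WW (yy x)), ∏ c ∈ insert e S, Mm (yy x) ((t : ℤ) - c)
      = sW x (insert e S) * (WW (yy x) : ℝ) := by
    unfold sW avgP
    field_simp
  rw [hsW] at Q
  -- pointwise bounds
  have b1 : ∀ n : ℤ, La x n ≤ (1 + 1 / dlm m b) * (Mm (yy x) n * (1 + V n)) := by
    intro n
    refine (hmaj n).trans ?_
    have h1 : 0 ≤ Mm (yy x) n * V n := mul_nonneg (hM0 n) (hV0 n)
    have h2 : 0 ≤ Mm (yy x) n * (1 + V n) := mul_nonneg (hM0 n) (by linarith [hV0 n])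
    have h3 : Mm (yy x) n * V n ≤ Mm (yy x) n * (1 + V n) :=
      mul_le_mul_of_nonneg_left (by linarith) (hM0 n)
    have h4 : (0 : ℝ) ≤ 1 / dlm m b := by positivity
    have h5 := mul_le_mul_of_nonneg_left h3 h4
    linarith
  have b2 : ∀ n : ℤ, Mm (yy x) n ≤ (1 + 1 / dlm m b) * (Mm (yy x) n * (1 + V n)) := by
    intro n
    have h1 : 0 ≤ Mm (yy x) n * V n := mul_nonneg (hM0 n) (hV0 n)
    have h2 : 0 ≤ Mm (yy x) n * (1 + V n) := mul_nonneg (hM0 n) (by linarith [hV0 n])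
    have h4 : (0 : ℝ) ≤ 1 / dlm m b := by positivity
    have h5 := mul_nonneg h4 h2
    linarith
  have b3 : ∀ n : ℤ, (if q3 x δ n then Real.log x else 0) ≤
      (1 + 1 / dlm m b) * (Mm (yy x) n * (1 + V n)) := by
    intro n
    have h2 : 0 ≤ Mm (yy x) n * (1 + V n) := mul_nonneg (hM0 n) (by linarith [hV0 n])
    split_ifs with hq
    · refine (UWD_q4 hdδ a1 a2 a3 a4 hV hq).trans ?_
      have h1 : 0 ≤ Mm (yy x) n * V n := mul_nonneg (hM0 n) (hV0 n)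
      have h3 : Mm (yy x) n * V n ≤ Mm (yy x) n * (1 + V n) :=
        mul_le_mul_of_nonneg_left (by linarith) (hM0 n)
      have h4 : (0 : ℝ) ≤ 1 / dlm m b := by positivity
      have h5 := mul_le_mul_of_nonneg_left h3 h4
      linarith
    · positivity
  have hG' : ∀ n : ℤ, G n ≤ ∏ c ∈ S, ((1 + 1 / dlm m b) * (Mm (yy x) (n - c) * (1 + V (n - c)))) := by
    intro n
    refine (hG n).trans (Finset.prod_le_prod (fun c _ => ?_) (fun c _ => b1 _))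
    unfold La
    split_ifs
    · linarith
    · exact le_rfl
  have key : ∀ f : ℤ → ℝ, (∀ n, 0 ≤ f n) → (∀ n, f n ≤ (1 + 1 / dlm m b) * (Mm (yy x) n * (1 + V n))) →
      ∑ n ∈ JJ x H, G (n : ℤ) * f ((n : ℤ) - e) ≤
        (1 + 1 / dlm m b) ^ (k + 1) * 2 ^ (k + 4) * sW x (insert e S) * ((⌊x⌋₊ : ℝ) + 1) := by
    intro f hf0 hf
    calc ∑ n ∈ JJ x H, G (n : ℤ) * f ((n : ℤ) - e)
        ≤ ∑ n ∈ JJ x H, (1 + 1 / dlm m b) ^ (k + 1) *
          ((∏ c ∈ insert e S, Mm (yy x) ((n : ℤ) - c)) * ∏ c ∈ insert e S, (1 + V ((n : ℤ) - c))) := by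
          refine Finset.sum_le_sum fun n _ => ?_
          have h1 : (0 : ℝ) ≤ ∏ c ∈ S, ((1 + 1 / dlm m b) * (Mm (yy x) ((n : ℤ) - c) * (1 + V ((n : ℤ) - c)))) :=
            Finset.prod_nonneg fun c _ => mul_nonneg hD.le (mul_nonneg (hM0 _) (by linarith [hV0 ((n : ℤ) - c)]))
          have h2 := mul_le_mul (hG' (n : ℤ)) (hf ((n : ℤ) - e)) (hf0 _) h1
          refine h2.trans (le_of_eq ?_)
          have h3 : ∏ c ∈ insert e S, ((1 + 1 / dlm m b) * (Mm (yy x) ((n : ℤ) - c) * (1 + V ((n : ℤ) - c))))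
              = (1 + 1 / dlm m b) ^ (k + 1) * ((∏ c ∈ insert e S, Mm (yy x) ((n : ℤ) - c)) *
                ∏ c ∈ insert e S, (1 + V ((n : ℤ) - c))) := by
            rw [Finset.prod_mul_distrib, Finset.prod_mul_distrib, Finset.prod_const,
              Finset.card_insert_of_notMem heS, hSk]
          rw [← h3, Finset.prod_insert heS, mul_comm]
      _ = (1 + 1 / dlm m b) ^ (k + 1) * ∑ n ∈ JJ x H,
          (∏ c ∈ insert e S, Mm (yy x) ((n : ℤ) - c)) * ∏ c ∈ insert e S, (1 + V ((n : ℤ) - c)) := by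
          rw [Finset.mul_sum]
      _ ≤ (1 + 1 / dlm m b) ^ (k + 1) * (2 ^ (k + 4) * (((⌊x⌋₊ : ℝ) + 1) / (WW (yy x) : ℝ)) *
          (sW x (insert e S) * (WW (yy x) : ℝ))) :=
          mul_le_mul_of_nonneg_left Q (by positivity)
      _ = _ := by
          field_simp
  refine key (fun n => if q3 x δ n then Real.log x else 0) (fun n => ?_) b3
  show (0 : ℝ) ≤ if q3 x δ n then Real.log x else 0
  split_ifs
  · linarith
  · exact le_rfl

end Pool.Agent.H96.FL
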