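import Pool.Agent.H96.FL.UTR
import Pool.Agent.H96.FL.UWT
import Pool.Agent.H96.FL.UWD
import Pool.Agent.H96.FL.UFM

/-!
# UFN: a positive proportion of the shifts in every interval of `K log x` integers, at most three prime factors

Copy of `UFM` (`Pool/Agent/H96/FL/UFM.lean`) with `UWT`, `UWD`, `q3`, `P3`, `z3` instead of `UWL`, `UWC`, `q4`, `P4`, `z4`. If `q3 x δ n` and `n` is not divisible by the square of a prime `> x^δ` then `P3 n` (definition of `q3`).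
-/

set_option autoImplicit false

namespace Pool.Agent.H96.FL

open Finset Pool.Agent.H17 Pool.Agent.H6.MF Pool.Agent.H6.MB Pool.Agent.H12.DM Pool.Agent.H6.AE Pool.Agent.H96.AE Pool.Agent.H96.AS Pool.Agent.H96.FD

open scoped Classical in
theorem UFN_Q {x δ : ℝ} {k : ℕ} (hk : 1 ≤ k) (hx : 1 ≤ x) (hL : 1 ≤ Real.log x)
    (hxd : 2 ≤ x ^ δ) (hL4 : (Real.log x) ^ 2 ≤ x ^ (1 / 4 : ℝ))
    (hLx : (Real.log x) ^ 2 ≤ x) {u : ℤ} {S Z : Finset ℤ} (hS : ∀ e ∈ S, Wnd x u e) (hSc : S.card = k)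
    (hZ : Tup x S Z) {e : ℤ} (he : Wnd x u e) :
    ∑ m ∈ Zs x S Z, (if q3 x δ (m + e) then Real.log x else 0) ≤
      Real.log x * ((z3 x Z e : ℝ) + 4 * x / x ^ δ) := by
  obtain ⟨c0, hc0⟩ : S.Nonempty := by
    rw [← Finset.card_pos]; omega
  have hrange : ∀ m ∈ Zs x S Z, 0 < m + e ∧ ((m + e : ℤ) : ℝ) ≤ 2 * x := by
    intro m hm
    unfold Zs at hm
    rw [Finset.mem_filter] at hm
    have h1 := hm.2 c0 hc0
    have h2 := (hZ m hm.1 c0 hc0).2
    obtain ⟨a1, a2⟩ := hS c0 hc0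
    obtain ⟨b1, b2⟩ := he
    have a1' : (u : ℝ) < c0 := by exact_mod_cast a1
    have b1' : (u : ℝ) < e := by exact_mod_cast b1
    push_cast at h1 h2 ⊢
    constructor
    · have : (0 : ℝ) < ((m + e : ℤ) : ℝ) := by push_cast; linarith
      exact_mod_cast this
    · linarith
  set B : Finset ℤ := (Zs x S Z).filter (fun m => q3 x δ (m + e) ∧ ¬ P3 x (m + e)) with hB
  have hsub : (Zs x S Z).filter (fun m => q3 x δ (m + e)) ⊆ (Z.filter (fun m => P3 x (m + e))) ∪ B := by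
    intro m hm
    rw [Finset.mem_filter] at hm
    rw [Finset.mem_union, Finset.mem_filter, hB, Finset.mem_filter]
    by_cases hP : P3 x (m + e)
    · left
      exact ⟨(Finset.mem_filter.1 hm.1).1, hP⟩
    · right
      exact ⟨hm.1, hm.2, hP⟩
  have hBc : (B.card : ℝ) ≤ 4 * x / x ^ δ := by
    have hinj : Function.Injective (fun m : ℤ => m + e) := fun a b h => by
      have h' : a + e = b + e := h
      omega
    rw [← Finset.card_image_of_injective B hinj]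
    apply UFM_sqc (by linarith) hxd
    intro n hn
    rw [Finset.mem_image] at hn
    obtain ⟨m, hm, rfl⟩ := hn
    rw [hB, Finset.mem_filter] at hm
    obtain ⟨hr1, hr2⟩ := hrange m hm.1
    refine ⟨hr1, hr2, ?_⟩
    by_contra hcon
    push Not at hcon
    rcases hm.2.1.2 with h | ⟨p, hp, h1, h2⟩
    · exact hm.2.2 h
    · exact hcon p hp h1 h2
  rw [← Finset.sum_filter, Finset.sum_const, nsmul_eq_mul, mul_comm]
  refine mul_le_mul_of_nonneg_left ?_ (by linarith)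
  have h1 := (Finset.card_le_card hsub).trans (Finset.card_union_le _ _)
  have h2 : (((Zs x S Z).filter (fun m => q3 x δ (m + e))).card : ℝ) ≤
      ((Z.filter (fun m => P3 x (m + e))).card : ℝ) + (B.card : ℝ) := by exact_mod_cast h1
  have h3 : (z3 x Z e : ℝ) = ((Z.filter (fun m => P3 x (m + e))).card : ℝ) := rfl
  rw [h3]
  linarith

open Pool.Agent.H6.AS in
theorem UFN_aux (k : ℕ) (hk : 1 ≤ k) (h : ℝ) (hh : 0 < h) : ∃ c K X : ℝ, 0 < c ∧ ∀ x : ℝ, X ≤ x → ∀ u : ℤ,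
    ∀ S : Finset ℤ, (∀ e ∈ S, Wnd x u e) → S.card = k → ∀ Z : Finset ℤ, Tup x S Z →
    h * (sing S * x / (Real.log x) ^ k) ≤ (Z.card : ℝ) →
    ∀ a b : ℤ, u ≤ a → (b : ℝ) ≤ u + (Real.log x) ^ 2 → K * Real.log x ≤ ((b - a : ℤ) : ℝ) →
    c * (((b - a : ℤ) : ℝ) * sing S) ≤
      ∑ e ∈ (Finset.Ioc a b).filter (fun e => e ∉ S ∧ c * (sing (insert e S) * x / (Real.log x) ^ (k + 1)) ≤ (z3 x Z e : ℝ)),
        sing (insert e S) := by
  classical
  obtain ⟨cl, hcl0, hcl⟩ := sing_lower k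
  obtain ⟨cl', hcl'0, hcl'⟩ := sing_lower (k + 1)
  obtain ⟨cT, X1, hcT, hT⟩ := UTR k hk (1 / 2) (by norm_num)
  obtain ⟨δ, hδ0, hδ1, c1, K1, X2, hc1, hK1, hL⟩ := UWT k (h / 256) (by positivity)
  obtain ⟨C, X3, hC, hU⟩ := UWD k δ hδ0
  obtain ⟨X4, hA⟩ := SWA
  obtain ⟨X5, hV⟩ := AVZ
  obtain ⟨q, hq0, hD⟩ := ADE k hk
  obtain ⟨X6, hE⟩ := SZE k
  obtain ⟨X7, hP⟩ := PW_sing (k + 1) (1 / 2) (by norm_num)
  obtain ⟨c2, hc2⟩ : ∃ c2 : ℝ, c2 = c1 * h / 8 := ⟨_, rfl⟩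
  have hc20 : 0 < c2 := by rw [hc2]; positivity
  obtain ⟨c, hc⟩ : ∃ c : ℝ, c = min (c2 / 32) (c2 / (8 * C)) := ⟨_, rfl⟩
  have hc0 : 0 < c := by rw [hc]; positivity
  have hcA : c ≤ c2 / 32 := by rw [hc]; exact min_le_left _ _
  have hcB : c ≤ c2 / (8 * C) := by rw [hc]; exact min_le_right _ _
  obtain ⟨X8, hX8⟩ := UFM_ev k (δ := δ) (A := h * cl / 2) (B := c * cl') hδ0 (by positivity) (by positivity)
  refine ⟨c, max (4 * k + 4) (q * (K1 + k + 1)),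
    max X1 (max X2 (max X3 (max X4 (max X5 (max X6 (max X7 X8)))))), hc0, ?_⟩
  intro x hx u S hS hSc Z hZ hZc a b hua hub hK
  simp only [max_le_iff] at hx
  obtain ⟨hx1, hx2, hx3, hx4, hx5, hx6, hx7, hx8⟩ := hx
  obtain ⟨f1, f2, f3, f4, f5, f6, f7, f8⟩ := hX8 x hx8
  have hx0 : 0 < x := by linarith
  have hL0 : 0 < Real.log x := by linarith
  have hq0R : (0 : ℝ) < q := by exact_mod_cast hq0
  have hk0 : (0 : ℝ) ≤ k := Nat.cast_nonneg k
  have hKa : (4 * k + 4) * Real.log x ≤ ((b - a : ℤ) : ℝ) :=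
    (mul_le_mul_of_nonneg_right (le_max_left _ _) hL0.le).trans hK
  have hKb : q * (K1 + k + 1) * Real.log x ≤ ((b - a : ℤ) : ℝ) :=
    (mul_le_mul_of_nonneg_right (le_max_right _ _) hL0.le).trans hK
  have hkL : 0 ≤ (k : ℝ) * Real.log x := by positivity
  have hB0 : 0 < ((b - a : ℤ) : ℝ) := by nlinarith
  have hab : a ≤ b := by
    have : 0 < b - a := by exact_mod_cast hB0
    omega
  by_cases hs : sing S = 0
  · rw [hs, mul_zero, mul_zero]
    exact Finset.sum_nonneg (fun e _ => sing_nonneg _)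
  have hadm : adm S := (sing_ne_zero_iff S).1 hs
  have hclS : cl ≤ sing S := hcl S hSc hadm
  have hsS : 0 < sing S := lt_of_lt_of_le hcl0 hclS
  have hwin : ∀ e ∈ Finset.Ioc a b, Wnd x u e := by
    intro e he
    rw [Finset.mem_Ioc] at he
    refine ⟨by omega, ?_⟩
    have : (e : ℝ) ≤ b := by exact_mod_cast he.2
    linarith
  obtain ⟨E0, hE0, hE0c⟩ : ∃ E0 : Finset ℤ, (∀ e, e ∈ E0 ↔ (e ∈ Finset.Ioc a b ∧ e ∉ S ∧ adm (insert e S))) ∧
      ((b - a : ℤ) : ℝ) ≤ q * ((E0.card : ℝ) + k + 1) := by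
    have h1 := hD S hSc hadm a b hab
    exact ⟨_, fun e => Finset.mem_filter, h1⟩
  have hE0K : K1 * Real.log x ≤ (E0.card : ℝ) := by
    have h1 : q * (K1 + k + 1) * Real.log x ≤ q * ((E0.card : ℝ) + k + 1) := hKb.trans hE0c
    have h2 : (K1 + k + 1) * Real.log x ≤ (E0.card : ℝ) + k + 1 := by
      refine le_of_mul_le_mul_left ?_ hq0R
      linarith
    nlinarith
  obtain ⟨v, S', G, hS', hS'c, hG0, hGle, hGs, hGe, hZZ⟩ := hT x hx1 u S hS hSc Z hZ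
  have hH : ((⌊(Real.log x) ^ 2⌋₊ : ℕ) : ℝ) ≤ (Real.log x) ^ 2 := Nat.floor_le (sq_nonneg _)
  have hGe' : ∀ e ∈ E0, v - e ∈ Finset.Icc 1 (⌊(Real.log x) ^ 2⌋₊ : ℤ) \ S' ∧ adm (insert (v - e) S') ∧
        cT ≤ sW x (insert (v - e) S') ∧ (1 - 1 / 2) * sW x (insert (v - e) S') ≤ sing (insert e S) ∧
        sing (insert e S) ≤ (1 + 1 / 2) * sW x (insert (v - e) S') := by
    intro e he
    obtain ⟨h1, h2, h3⟩ := (hE0 e).1 he
    exact hGe e (hwin e h1) h2 ((sing_ne_zero_iff _).2 h3)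
  have hinj : Function.Injective (fun e : ℤ => v - e) := fun p p' hpp => by
    have h' : v - p = v - p' := hpp
    omega
  have hlow := hL x hx2 _ hH S' hS' hS'c G hG0 hGle (E0.image (fun e => v - e)) (by
      intro e' he'
      rw [Finset.mem_image] at he'
      obtain ⟨e, he, rfl⟩ := he'
      exact (hGe' e he).1) (by
      rw [Finset.card_image_of_injective E0 hinj]
      exact hE0K) (by
      intro e' he'
      rw [Finset.mem_image] at he'
      obtain ⟨e, he, rfl⟩ := he'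
      exact (hGe' e he).2.1)
  rw [Finset.sum_image (fun p _ p' _ hpp => hinj hpp), Finset.sum_image (fun p _ p' _ hpp => hinj hpp),
    Finset.sum_image (fun p _ p' _ hpp => hinj hpp)] at hlow
  have hM1 : ∑ e ∈ E0, ∑ n ∈ JJ x ⌊(Real.log x) ^ 2⌋₊, G (n : ℤ) * Mm (yy x) ((n : ℤ) - (v - e)) =
      (Real.log x) ^ k * (wp (yy x) * ∑ e ∈ E0, (zc x (Zs x S Z) e : ℝ)) := by
    rw [Finset.mul_sum, Finset.mul_sum]
    refine Finset.sum_congr rfl ?_
    intro e he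
    rw [hGs (Mm (yy x)) e (hwin e ((hE0 e).1 he).1), UFM_Mm]
  have hmain := UFM_main hh f1 f2 f7 (E0 := E0) (Z := Z) hSc hclS hZc (a := a) (b := b) (by nlinarith) hB0.le hE0
    (fun e he1 he2 => hE x hx6 S Z hSc hZ e he1 he2) (hV x hx5 _ a b (by nlinarith)) hZZ
  have hTs := UFM_sing (hP x hx7) hk hSc hS hwin hE0 (hA x hx4 S a b (by nlinarith)) hB0.le
  have hTT : ∑ e ∈ E0, sW x (insert (v - e) S') ≤ 2 * ∑ e ∈ E0, sing (insert e S) := by
    rw [Finset.mul_sum]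
    refine Finset.sum_le_sum ?_
    intro e he
    have := (hGe' e he).2.2.2.1
    linarith
  have hN : (⌊x⌋₊ : ℝ) + 1 ≤ 2 * x := by
    have := Nat.floor_le hx0.le
    linarith
  have hN0 : (0 : ℝ) ≤ (⌊x⌋₊ : ℝ) + 1 := by positivity
  have hT0 : 0 ≤ ∑ e ∈ E0, sW x (insert (v - e) S') := Finset.sum_nonneg (fun e _ => sW_nonneg _ _)
  have hBs : 0 ≤ ((b - a : ℤ) : ℝ) * sing S := by positivity
  refine UFM_fin (x := x) (C := C) (c := c) (c2 := c2) (Bs := ((b - a : ℤ) : ℝ) * sing S)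
    (Lk1 := (Real.log x) ^ (k + 1)) hx0 hC hc20 hc0 hcA hcB hBs (by positivity) (E0 := E0)
    (s := fun e => sing (insert e S)) (z := fun e => (z3 x Z e : ℝ))
    (R := fun e => ∑ n ∈ JJ x ⌊(Real.log x) ^ 2⌋₊, G (n : ℤ) *
      (if q3 x δ ((n : ℤ) - (v - e)) then Real.log x else 0))
    (cl' := cl') (ex := 4 * x / x ^ δ) (fun e => sing_nonneg _) ?_ ?_ ?_ ?_ ?_ ?_ ?_
  · intro e he
    obtain ⟨h1, h2, h3⟩ := (hE0 e).1 he
    exact hcl' _ (by rw [Finset.card_insert_of_notMem h2, hSc]) h3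
  · intro e he hf
    obtain ⟨h1, h2, h3⟩ := (hE0 e).1 he
    rw [Finset.mem_filter] at hf
    push Not at hf
    exact hf h1 h2
  · intro e he
    obtain ⟨g1, -, -, g4, -⟩ := hGe' e he
    have h1 := hU x hx3 _ hH S' hS' hS'c G hG0 hGle (v - e) g1
    have h2 : sW x (insert (v - e) S') ≤ 2 * sing (insert e S) := by linarith
    have hw0 := sW_nonneg x (insert (v - e) S')
    have hse := sing_nonneg (insert e S)
    calc _ ≤ C * sW x (insert (v - e) S') * ((⌊x⌋₊ : ℝ) + 1) := h1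
      _ ≤ C * (2 * sing (insert e S)) * (2 * x) := by gcongr
      _ = 4 * C * x * sing (insert e S) := by ring
  · intro e he
    obtain ⟨h1, h2, h3⟩ := (hE0 e).1 he
    have g1 := hGs (fun n => if q3 x δ n then Real.log x else 0) e (hwin e h1)
    have g2 := UFN_Q (δ := δ) hk f1 f2 f4 f5 f6 hS hSc hZ (hwin e h1)
    have g3 := mul_le_mul_of_nonneg_left g2 (pow_nonneg hL0.le k)
    calc _ = (Real.log x) ^ k * ∑ m ∈ Zs x S Z, (if q3 x δ (m + e) then Real.log x else 0) := g1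
      _ ≤ (Real.log x) ^ k * (Real.log x * ((z3 x Z e : ℝ) + 4 * x / x ^ δ)) := g3
      _ = (Real.log x) ^ (k + 1) * ((z3 x Z e : ℝ) + 4 * x / x ^ δ) := by ring
  · linarith
  · calc _ ≤ 8 * ((b - a : ℤ) : ℝ) * sing S := hTs
      _ = 8 * (((b - a : ℤ) : ℝ) * sing S) := by ring
  · refine le_trans ?_ hlow
    rw [hM1, hc2]
    have h1 : h / 256 * ((⌊x⌋₊ : ℝ) + 1) * ∑ e ∈ E0, sW x (insert (v - e) S') ≤
        h / 256 * (2 * x) * (2 * (8 * ((b - a : ℤ) : ℝ) * sing S)) := by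
      have h2 : ∑ e ∈ E0, sW x (insert (v - e) S') ≤ 2 * (8 * ((b - a : ℤ) : ℝ) * sing S) := by linarith
      gcongr
    have h2 : c1 * (h / 8 * ((b - a : ℤ) : ℝ) * sing S * x) ≤ c1 * ((Real.log x) ^ k *
        (wp (yy x) * ∑ e ∈ E0, (zc x (Zs x S Z) e : ℝ)) -
        h / 256 * ((⌊x⌋₊ : ℝ) + 1) * ∑ e ∈ E0, sW x (insert (v - e) S')) := by
      refine mul_le_mul_of_nonneg_left ?_ hc1.le
      have e1 : h / 256 * (2 * x) * (2 * (8 * ((b - a : ℤ) : ℝ) * sing S)) =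
        h / 8 * ((b - a : ℤ) : ℝ) * sing S * x := by ring
      have e2 : h / 4 * ((b - a : ℤ) : ℝ) * sing S * x = 2 * (h / 8 * ((b - a : ℤ) : ℝ) * sing S * x) := by ring
      linarith
    calc c1 * h / 8 * (((b - a : ℤ) : ℝ) * sing S) * x = c1 * (h / 8 * ((b - a : ℤ) : ℝ) * sing S * x) := by ring
      _ ≤ _ := h2

theorem UFN (k : ℕ) (hk : 1 ≤ k) (h : ℝ) (hh : 0 < h) : ∃ c K X : ℝ, 0 < c ∧ ∀ x : ℝ, X ≤ x → ∀ u : ℤ,
    ∀ S : Finset ℤ, (∀ e ∈ S, Wnd x u e) → S.card = k → ∀ Z : Finset ℤ, Tup x S Z →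
    h * (sing S * x / (Real.log x) ^ k) ≤ (Z.card : ℝ) →
    ∀ a b : ℤ, u ≤ a → (b : ℝ) ≤ u + (Real.log x) ^ 2 → K * Real.log x ≤ ((b - a : ℤ) : ℝ) →
    c * (((b - a : ℤ) : ℝ) * sing S) ≤
      ∑ e ∈ (Finset.Ioc a b).filter (fun e => e ∉ S ∧ c * (sing (insert e S) * x / (Real.log x) ^ (k + 1)) ≤ (z3 x Z e : ℝ)),
        sing (insert e S) :=
  UFN_aux k hk h hh

end Pool.Agent.H96.FL
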