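import Pool.Agent.H96.FL.FINC
import Pool.Agent.H96.FL.UFN

/-!
# MP_1039f5_nt: sieving one more shift, relative to an arbitrary set of prime tuples

Definitions in `UDf.lean`, `EDf.lean` and `TDf.lean` in `Pool/Agent/H96/FL`: `Wnd x u e` says that `e` lies in `(u, u + (log x)^2]`; `Tup x S Z` says
that for all `m ∈ Z` and `c ∈ S` the number `m + c` is a prime `≤ x`. For the elements `m` of `Z`: `zp Z e` of them have `m + e` prime, `zc x Z e` of
them have `m + e` coprime to `W = WW (yy x)`, `zrd x δ Z e d` of them have `m + e` without prime factor `≤ x^δ` and divisible by `d`, `z3 x Z e` of them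
have `m + e` positive with at most three prime factors counted with multiplicity, all of them `> x^(1/20)`. `rd x δ η` is the set of the squarefree `d ≤ x^(1/2-η)` all of whose
prime factors are `> x^δ`. `EP w z` is the product of `1 - 1/p` over the primes `p` in `(w, z]`.
-/

set_option autoImplicit false

namespace Pool.Agent.Results.MP_1039f5_nt.RelativeSieve

open Finset Pool.Agent.H17 Pool.Agent.H6.MF Pool.Agent.H6.MB Pool.Agent.H12.DM Pool.Agent.H96.FL

/-- **Sieving one more shift, relative to an arbitrary set of prime tuples.** Let `S` be any set of `k ≥ 1` shifts in an interval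
`(u, u + (log x)^2]` and `Z` ANY set of integers `m` such that all `m + c`, `c ∈ S`, are primes `≤ x` (for `k = 2`: any set of prime pairs
with a given difference). For all but `K log x` of the shifts `e` in the interval (with `sing (insert e S) ≠ 0`), up to errors of `ε` times the
size `sing (insert e S) x / (log x)^(k+1)` predicted by the uniform Hardy-Littlewood conjecture for all `m`:
(1) the number of `m ∈ Z` with `m + e` prime is at most `4 + ε` times the number expected from the distribution of `Z` modulo `W`;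
(2) **level of distribution `1/2`**: the number of `m ∈ Z` with `m + e` free of prime factors `≤ x^δ` and divisible by `d` is as expected, on average over
all squarefree `d ≤ x^(1/2-η)` with prime factors `> x^δ`, with weights `A^(ω d)`, absolute values inside (a Bombieri-Vinogradov theorem for `Z`);
(3) at least `c` times as many (`c > 0` absolute) `m ∈ Z` as expected have `m + e` with at most three prime factors, all `> x^(1/20)`. Second part: if `Z` contains at least `h` times
as many `m` as predicted for all of them then in every interval of at least `K log x` shifts a positive proportion `c` of the shifts `e` (with weights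
`sing (insert e S)`) has at least `c sing (insert e S) x / (log x)^(k+1)` elements `m ∈ Z` such that `m + e` has at most three prime factors, all `> x^(1/20)`. -/
theorem result :
    (∃ c : ℝ, 0 < c ∧ ∀ k : ℕ, 1 ≤ k → ∀ A : ℕ, 1 ≤ A → ∀ η : ℝ, 0 < η → ∀ ε : ℝ, 0 < ε →
      ∃ δ K X : ℝ, 0 < δ ∧ ∀ x : ℝ, X ≤ x → ∀ u : ℤ,
      ∀ S : Finset ℤ, (∀ e ∈ S, Wnd x u e) → S.card = k → ∀ Z : Finset ℤ, Tup x S Z →
      ∃ B : Finset ℤ, (B.card : ℝ) ≤ K * Real.log x ∧ ∀ e : ℤ, Wnd x u e → e ∉ S → e ∉ B → sing (insert e S) ≠ 0 →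
        (zp Z e : ℝ) ≤ (4 + ε) * (wp (yy x) / Real.log x * (zc x Z e : ℝ)) +
          ε * (sing (insert e S) * x / (Real.log x) ^ (k + 1)) ∧
        ∑ d ∈ rd x δ η, (A : ℝ) ^ d.primeFactors.card *
            |(zrd x δ Z e d : ℝ) - EP (yy x : ℝ) (x ^ δ) * (zc x Z e : ℝ) / (d : ℝ)| ≤
          ε * (sing (insert e S) * x / (Real.log x) ^ (k + 1)) ∧
        c * (wp (yy x) / Real.log x * (zc x Z e : ℝ) - ε * (sing (insert e S) * x / (Real.log x) ^ (k + 1))) ≤
          (z3 x Z e : ℝ)) ∧
    (∀ k : ℕ, 1 ≤ k → ∀ h : ℝ, 0 < h → ∃ c K X : ℝ, 0 < c ∧ ∀ x : ℝ, X ≤ x → ∀ u : ℤ,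
      ∀ S : Finset ℤ, (∀ e ∈ S, Wnd x u e) → S.card = k → ∀ Z : Finset ℤ, Tup x S Z →
      h * (sing S * x / (Real.log x) ^ k) ≤ (Z.card : ℝ) →
      ∀ a b : ℤ, u ≤ a → (b : ℝ) ≤ u + (Real.log x) ^ 2 → K * Real.log x ≤ ((b - a : ℤ) : ℝ) →
      c * (((b - a : ℤ) : ℝ) * sing S) ≤
        ∑ e ∈ (Finset.Ioc a b).filter
          (fun e => e ∉ S ∧ c * (sing (insert e S) * x / (Real.log x) ^ (k + 1)) ≤ (z3 x Z e : ℝ)),
          sing (insert e S)) :=
  ⟨FINC, fun k hk h hh => UFN k hk h hh⟩

end Pool.Agent.Results.MP_1039f5_nt.RelativeSieve
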