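import Pool.Agent.H96.FL.EDf

/-!
# TDf: definitions for the lower bound with at most three prime factors

`z = x^δ`, `z₁ = x^(1/20)`, `y = x^(9/20)`, `θ = 499/1000`. Richert's weights: `1 - ∑_{p ∣ n, z < p ≤ z₁} Λ_p(n)² - (113/200) ∑_{p ∣ n, z₁ < p ≤ y} (1 - log p/log y) Λ_p(n)²` with Selberg's `Λ_p = pf (gS x δ p) (sr (gS x δ p) (gR x p))`.
-/

set_option autoImplicit false

namespace Pool.Agent.H96.FL

open Finset Pool.Agent.H17 Pool.Agent.H6.MF Pool.Agent.H6.MB Pool.Agent.H12.DM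

/-- `n` is positive with at most three prime factors, counted with multiplicity, all of them larger than `x^(1/20)` -/
def P3 (x : ℝ) (n : ℤ) : Prop := 0 < n ∧ ArithmeticFunction.cardFactors n.toNat ≤ 3 ∧
  ∀ p : ℕ, p.Prime → (p : ℤ) ∣ n → x ^ (1 / 20 : ℝ) < (p : ℝ)

open scoped Classical in
/-- the number of `m ∈ Z` such that `m + e` is positive with at most three prime factors, all of them larger than `x^(1/20)` -/
noncomputable def z3 (x : ℝ) (Z : Finset ℤ) (e : ℤ) : ℕ := (Z.filter (fun m => P3 x (m + e))).card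

/-- no prime factor `≤ x^δ`, and at most three prime factors (all `> x^(1/20)`) or divisible by the square of a prime `> x^δ` -/
def q3 (x δ : ℝ) (n : ℤ) : Prop :=
  (∀ p : ℕ, p.Prime → (p : ℝ) ≤ x ^ δ → ¬ (p : ℤ) ∣ n) ∧
    (P3 x n ∨ ∃ p : ℕ, p.Prime ∧ x ^ δ < (p : ℝ) ∧ ((p : ℤ) ^ 2 ∣ n))

/-- the index `j` with `x^(j/20) < p ≤ x^((j+1)/20)` -/
noncomputable def gj (x : ℝ) (p : ℕ) : ℕ := ⌈20 * Real.log p / Real.log x⌉₊ - 1

/-- the exponent of the sifting level for the primes `p` with `gj x p = j` -/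
noncomputable def gt (j : ℕ) : ℝ := min (1 / 20) ((499 / 1000 - ((j : ℝ) + 1) / 20) / 6)

/-- the sifting primes for the prime `p` -/
noncomputable def gS (x δ : ℝ) (p : ℕ) : Finset ℕ :=
  if (p : ℝ) ≤ x ^ (1 / 20 : ℝ) then (PI (x ^ δ) (x ^ (1 / 20 : ℝ))).filter (fun q => q < p)
  else PI (x ^ δ) (x ^ gt (gj x p))

/-- the level of the sieve for the prime `p` -/
noncomputable def gR (x : ℝ) (p : ℕ) : ℝ :=
  if (p : ℝ) ≤ x ^ (1 / 20 : ℝ) then (x ^ (499 / 1000 : ℝ) / p) ^ (1 / 2 : ℝ)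
  else if (p : ℝ) ≤ x ^ (9 / 20 : ℝ) then x ^ ((499 / 1000 - ((gj x p : ℝ) + 1) / 20) / 2)
  else 1

/-- the weight of the prime `p` -/
noncomputable def gw (x : ℝ) (p : ℕ) : ℝ :=
  if (p : ℝ) ≤ x ^ (1 / 20 : ℝ) then 1
  else if (p : ℝ) ≤ x ^ (9 / 20 : ℝ) then 113 / 200 * (1 - Real.log p / Real.log (x ^ (9 / 20 : ℝ)))
  else 0

end Pool.Agent.H96.FL
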