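import Pool.Agent.H96.FL.Df
import Pool.Agent.H6.AS.ARB
import Mathlib.NumberTheory.ArithmeticFunction.Misc

/-!
# UDf: definitions for the final statement

`S` is a set of `k` shifts in `(u, u + (log x)^2]`, `Z` a set of integers `m` such that all `m + c`, `c ∈ S`, are primes `≤ x`.
-/

set_option autoImplicit false

namespace Pool.Agent.H96.FL

open Finset Pool.Agent.H17 Pool.Agent.H6.MF Pool.Agent.H6.MB Pool.Agent.H12.DM

/-- `e` is in the window `(u, u + (log x)^2]` -/
def Wnd (x : ℝ) (u e : ℤ) : Prop := u < e ∧ (e : ℝ) ≤ u + (Real.log x) ^ 2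

/-- all elements of `Z` give prime tuples of shape `S` -/
def Tup (x : ℝ) (S Z : Finset ℤ) : Prop := ∀ m ∈ Z, ∀ c ∈ S, isP (m + c) ∧ ((m + c : ℤ) : ℝ) ≤ x

/-- the number of `m ∈ Z` with `m + e` coprime to `W` -/
noncomputable def zc (x : ℝ) (Z : Finset ℤ) (e : ℤ) : ℕ := (Z.filter (fun m => Int.gcd (m + e) (WW (yy x) : ℤ) = 1)).card

open scoped Classical in
/-- the number of `m ∈ Z` with `m + e` prime -/
noncomputable def zp (Z : Finset ℤ) (e : ℤ) : ℕ := (Z.filter (fun m => isP (m + e))).card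

open scoped Classical in
/-- the number of `m ∈ Z` such that `m + e` has no prime factor `≤ x^δ` -/
noncomputable def zr (x δ : ℝ) (Z : Finset ℤ) (e : ℤ) : ℕ :=
  (Z.filter (fun m => ∀ p : ℕ, p.Prime → (p : ℝ) ≤ x ^ δ → ¬ (p : ℤ) ∣ m + e)).card

/-- `n` is positive with at most four prime factors, counted with multiplicity -/
def P4 (n : ℤ) : Prop := 0 < n ∧ ArithmeticFunction.cardFactors n.toNat ≤ 4

open scoped Classical in
/-- the number of `m ∈ Z` such that `m + e` is positive with at most four prime factors -/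
noncomputable def z4 (Z : Finset ℤ) (e : ℤ) : ℕ := (Z.filter (fun m => P4 (m + e))).card

/-- the elements of `Z` for which all the primes are `> x^(1/4)` -/
noncomputable def Zs (x : ℝ) (S Z : Finset ℤ) : Finset ℤ := Z.filter (fun m => ∀ c ∈ S, x ^ (1 / 4 : ℝ) < ((m + c : ℤ) : ℝ))

end Pool.Agent.H96.FL
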