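import Pool.Agent.H96.FL.Df
import Pool.Agent.H96.FD.LO
import Pool.Agent.H96.AS.TS

/-!
# UWU: the upper bound, weighted form

The proof of `FN` (`Pool/Agent/H96/FD/FNa.lean`, to be copied) without the step `BDs` (Bombieri-Vinogradov for the fixed pair), for an arbitrary set `S` of `k` shifts instead of `{a, b}` and an arbitrary `G` with `0 ≤ G ≤ ∏_{c∈S} La x (n - c)` instead of the product itself: `η` with `q = 1/(1/4 - η) ≤ 4 + ε`, `m` with `k + 2 ≤ m`, `k + 4 ≤ 10 (m+1) η`, `b` by `TS_choose m k (q * 2^(k+4)) ε`,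
`OF m b k η C`, `LO k`, `K ≥ 1` with `C₁ 2^b/c ≤ K`. `A₀ = (1 + 1/δ)^k`, `La ≤ (1 + 1/δ) Mm (1 + V)` (`BMU_maj`), `La x (n-e) ≤ q Mm V β (n-e)` (`MJ`), so
`∑_e ∑_n G La(n-e) ≤ q ∑_e ∑_n G Mm(n-e) + q * (error)`, error `≤ A₀ 2^(k+4) √(2 (1/2)^b) N T`, `T = ∑_{e∈E} sW x (insert e S)`. (`σ = 1`.)
-/

set_option autoImplicit false

namespace Pool.Agent.H96.FL

open Finset Pool.Agent.H17 Pool.Agent.H6.MF Pool.Agent.H6.MB Pool.Agent.H12.DM Pool.Agent.H6.AE Pool.Agent.H96.AE Pool.Agent.H96.AS Pool.Agent.H96.FD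

theorem UWU (k : ℕ) (ε : ℝ) (hε : 0 < ε) : ∃ K X : ℝ, 1 ≤ K ∧ ∀ x : ℝ, X ≤ x → ∀ H : ℕ, (H : ℝ) ≤ (Real.log x) ^ 2 →
    ∀ S : Finset ℤ, S ⊆ Finset.Icc 1 (H : ℤ) → S.card = k →
    ∀ G : ℤ → ℝ, (∀ n, 0 ≤ G n) → (∀ n, G n ≤ ∏ c ∈ S, La x (n - c)) →
    ∀ E : Finset ℤ, E ⊆ Finset.Icc 1 (H : ℤ) \ S → K * Real.log x ≤ (E.card : ℝ) → (∀ e ∈ E, adm (insert e S)) →
    ∑ e ∈ E, ∑ n ∈ JJ x H, G (n : ℤ) * La x ((n : ℤ) - e) ≤
      (4 + ε) * (∑ e ∈ E, ∑ n ∈ JJ x H, G (n : ℤ) * Mm (yy x) ((n : ℤ) - e)) +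
        ε * ((⌊x⌋₊ : ℝ) + 1) * ∑ e ∈ E, sW x (insert e S) := by
  obtain ⟨η, hη0, hη1, hηq⟩ : ∃ η : ℝ, 0 < η ∧ η ≤ 1 / 20 ∧ 1 / (1 / 4 - η) ≤ 4 + ε := by
    refine ⟨min (1 / 20) (ε / (4 * (4 + ε))), by positivity, min_le_left _ _, ?_⟩
    have h1 : min (1 / 20) (ε / (4 * (4 + ε))) ≤ 1 / 20 := min_le_left _ _
    have h2 : min (1 / 20) (ε / (4 * (4 + ε))) ≤ ε / (4 * (4 + ε)) := min_le_right _ _
    rw [div_le_iff₀ (by linarith)]
    rw [le_div_iff₀ (by positivity)] at h2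
    nlinarith
  set q : ℝ := 1 / (1 / 4 - η) with hq
  have hθ0 : 0 < 1 / 4 - η := by linarith
  have hq0 : 0 < q := by
    rw [hq]
    positivity
  obtain ⟨m, hm1, hm2⟩ : ∃ m : ℕ, k + 2 ≤ m ∧ (k : ℝ) + 4 ≤ 10 * ((m : ℝ) + 1) * η := by
    refine ⟨max (k + 2) ⌈((k : ℝ) + 4) / (10 * η)⌉₊, le_max_left _ _, ?_⟩
    have h1 : ((k : ℝ) + 4) / (10 * η) ≤
        ((max (k + 2) ⌈((k : ℝ) + 4) / (10 * η)⌉₊ : ℕ) : ℝ) :=
      (Nat.le_ceil _).trans (by exact_mod_cast le_max_right _ _)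
    rw [div_le_iff₀ (by positivity)] at h1
    nlinarith
  obtain ⟨b₁, hNum⟩ := Num m
  obtain ⟨b, hb, hbD⟩ := TS_choose m k (q * 2 ^ (k + 4)) ε (by positivity) hε b₁
  obtain ⟨X₁, hV⟩ := hNum b hb
  set δ : ℝ := dlm m b with hδdef
  have hδ0 : 0 < δ := dlm_pos m b
  have hδ1 : δ ≤ 1 / 320 := dlm_le m b
  have hδθ : δ < 1 / 4 - η := by linarith
  obtain ⟨C, X₂, hC0, hBT⟩ := BT δ (1 / 4 - η) hδ0 hδθ (by linarith)
  obtain ⟨C₁, X₃, hC1, hOF⟩ := OF m b k η C hη0 hη1 hm1 hm2 hC0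
  obtain ⟨X₄, hMJ⟩ := MJ m b (1 / 4 - η) C hδθ (by linarith)
  obtain ⟨X₅, hBM⟩ := BMU_maj m b
  obtain ⟨c, hc0, hLO⟩ := LO k
  set K : ℝ := max 1 (C₁ * 2 ^ b / c) with hK
  have hK1 : 1 ≤ K := le_max_left _ _
  have hKC : C₁ * 2 ^ b / c ≤ K := le_max_right _ _
  refine ⟨K, max X₁ (max X₂ (max X₃ (max X₄ (max X₅ (Real.exp 1))))), hK1,
    fun x hx H hH S hSI hSk G hG0 hGle E hE hcard hadm => ?_⟩
  simp only [max_le_iff] at hx
  obtain ⟨hx1, hx2, hx3, hx4, hx5, hx7⟩ := hx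
  have hx0 : 0 < x := (Real.exp_pos 1).trans_le hx7
  have hxx : 1 ≤ x := by
    have h1 : (1 : ℝ) ≤ Real.exp 1 := Real.one_le_exp (by norm_num)
    linarith
  have hL1 : 1 ≤ Real.log x := by
    rw [Real.le_log_iff_exp_le hx0]
    exact hx7
  have hL0 : 0 < Real.log x := by linarith
  obtain ⟨V, hVg⟩ := hV x hx1
  obtain ⟨β, hβ⟩ := hBT x hx2
  set N : ℝ := (⌊x⌋₊ : ℝ) + 1 with hN
  have hN0 : 0 ≤ N := by positivity
  have heE : ∀ e ∈ E, e ∉ S := fun e he => (Finset.mem_sdiff.1 (hE he)).2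
  set T : ℝ := ∑ e ∈ E, sW x (insert e S) with hT
  have hT0 : 0 ≤ T := Finset.sum_nonneg fun e _ => sW_nonneg x _
  have hS0 : 0 ≤ sW x S := sW_nonneg x _
  -- the lower bound for `T`
  have hTlow : C₁ * Real.log x * sW x S ≤ (1 / 2 : ℝ) ^ b * T := by
    have h1 : (E.card : ℝ) * (c * sW x S) ≤ T := by
      rw [← nsmul_eq_mul, ← Finset.sum_const]
      exact Finset.sum_le_sum fun e he => hLO x S hSk.le e (heE e he) (hadm e he)
    have h3 : C₁ * 2 ^ b ≤ K * c := by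
      rw [div_le_iff₀ hc0] at hKC
      exact hKC
    have h4 : C₁ * 2 ^ b * Real.log x * sW x S ≤ T := by
      refine le_trans ?_ h1
      have h5 : K * Real.log x * (c * sW x S) ≤ (E.card : ℝ) * (c * sW x S) :=
        mul_le_mul_of_nonneg_right hcard (by positivity)
      refine le_trans ?_ h5
      have h6 : C₁ * 2 ^ b * (Real.log x * sW x S) ≤ K * c * (Real.log x * sW x S) :=
        mul_le_mul_of_nonneg_right h3 (by positivity)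
      calc C₁ * 2 ^ b * Real.log x * sW x S = C₁ * 2 ^ b * (Real.log x * sW x S) := by ring
        _ ≤ _ := h6
        _ = _ := by ring
    have h7 : (1 / 2 : ℝ) ^ b * 2 ^ b = 1 := by
      rw [← mul_pow]
      norm_num
    calc C₁ * Real.log x * sW x S = ((1 / 2 : ℝ) ^ b * 2 ^ b) * (C₁ * Real.log x * sW x S) := by
          rw [h7, one_mul]
      _ = (1 / 2 : ℝ) ^ b * (C₁ * 2 ^ b * Real.log x * sW x S) := by ring
      _ ≤ _ := mul_le_mul_of_nonneg_left h4 (by positivity)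
  -- the error term
  set A₀ : ℝ := (1 + 1 / δ) ^ k with hA0
  have hA00 : 0 ≤ A₀ := by positivity
  have hLV : ∀ n : ℤ, La x n ≤ (1 + 1 / δ) * (Mm (yy x) n * (1 + V n)) := by
    intro n
    have h3 := hBM x hx5 V hVg n
    have h4 := Mm_nonneg (yy x) n
    have h5 := hVg.1 n
    have h6 : 0 ≤ 1 / δ := by positivity
    have h7 := mul_nonneg h4 h5
    have h8 := mul_nonneg h6 h4
    nlinarith
  have hGb : ∀ n, |G n| ≤ A₀ * ∏ c ∈ S, (Mm (yy x) (n - c) * (1 + V (n - c))) := by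
    intro n
    rw [abs_of_nonneg (hG0 n), hA0]
    refine (hGle n).trans ?_
    calc ∏ c ∈ S, La x (n - c) ≤ ∏ c ∈ S, ((1 + 1 / δ) * (Mm (yy x) (n - c) * (1 + V (n - c)))) :=
          Finset.prod_le_prod (fun c _ => La_nonneg hxx _) (fun c _ => hLV _)
      _ = _ := by rw [Finset.prod_mul_distrib, Finset.prod_const, hSk]
  have hErr := hOF x hx3 V hVg β hβ H hH S hSI hSk.le E hE A₀ hA00 G hGb (fun _ => 1)
    (fun _ => ⟨zero_le_one, le_refl _⟩)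
  rw [← hT] at hErr
  set Er : ℝ := ∑ n ∈ JJ x H, G (n : ℤ) *
    ∑ e ∈ E, (fun _ : ℤ => (1 : ℝ)) e * (Mm (yy x) ((n : ℤ) - e) * (V ((n : ℤ) - e) * β ((n : ℤ) - e) - 1)) with hEr
  have hsq : Real.sqrt (((1 / 2 : ℝ) ^ b * T + C₁ * Real.log x * sW x S) * T) ≤
      Real.sqrt (2 * (1 / 2 : ℝ) ^ b) * T := by
    have h1 : Real.sqrt (2 * (1 / 2 : ℝ) ^ b) * T = Real.sqrt (2 * (1 / 2 : ℝ) ^ b * T ^ 2) := by
      rw [Real.sqrt_mul (by positivity : (0 : ℝ) ≤ 2 * (1 / 2 : ℝ) ^ b) (T ^ 2), Real.sqrt_sq hT0]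
    rw [h1]
    apply Real.sqrt_le_sqrt
    have h2 : ((1 / 2 : ℝ) ^ b * T + C₁ * Real.log x * sW x S) * T ≤
        ((1 / 2 : ℝ) ^ b * T + (1 / 2 : ℝ) ^ b * T) * T :=
      mul_le_mul_of_nonneg_right (by linarith) hT0
    refine h2.trans (le_of_eq ?_)
    ring
  have hEb : q * Er ≤ ε * N * T := by
    have h1 : Er ≤ A₀ * 2 ^ (k + 4) * (Real.sqrt (2 * (1 / 2 : ℝ) ^ b) * T) * N := by
      refine (le_abs_self _).trans (hErr.trans ?_)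
      exact mul_le_mul_of_nonneg_right (mul_le_mul_of_nonneg_left hsq (by positivity)) hN0
    calc q * Er ≤ q * (A₀ * 2 ^ (k + 4) * (Real.sqrt (2 * (1 / 2 : ℝ) ^ b) * T) * N) :=
          mul_le_mul_of_nonneg_left h1 hq0.le
      _ = (q * 2 ^ (k + 4) * A₀ * Real.sqrt (2 * (1 / 2 : ℝ) ^ b)) * (T * N) := by ring
      _ ≤ ε * (T * N) := mul_le_mul_of_nonneg_right hbD (by positivity)
      _ = _ := by ring
  -- the main term
  have hstep : ∑ e ∈ E, ∑ n ∈ JJ x H, G (n : ℤ) * La x ((n : ℤ) - e) ≤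
      q * (∑ e ∈ E, ∑ n ∈ JJ x H, G (n : ℤ) * Mm (yy x) ((n : ℤ) - e)) + q * Er := by
    have hE2 : Er = ∑ e ∈ E, ∑ n ∈ JJ x H, G (n : ℤ) *
        (Mm (yy x) ((n : ℤ) - e) * (V ((n : ℤ) - e) * β ((n : ℤ) - e) - 1)) := by
      rw [hEr]
      simp only [Finset.mul_sum]
      rw [Finset.sum_comm]
      refine Finset.sum_congr rfl fun e _ => Finset.sum_congr rfl fun n _ => ?_
      ring
    rw [hE2, ← mul_add, ← Finset.sum_add_distrib, Finset.mul_sum]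
    refine Finset.sum_le_sum fun e _ => ?_
    rw [← Finset.sum_add_distrib, Finset.mul_sum]
    refine Finset.sum_le_sum fun n _ => ?_
    have h1 := hMJ x hx4 V hVg β hβ ((n : ℤ) - e)
    rw [← hq] at h1
    have h2 := mul_le_mul_of_nonneg_left h1 (hG0 (n : ℤ))
    refine h2.trans (le_of_eq ?_)
    ring
  have hMn : 0 ≤ ∑ e ∈ E, ∑ n ∈ JJ x H, G (n : ℤ) * Mm (yy x) ((n : ℤ) - e) :=
    Finset.sum_nonneg fun e _ => Finset.sum_nonneg fun n _ => mul_nonneg (hG0 _) (Mm_nonneg _ _)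
  exact hstep.trans (add_le_add (mul_le_mul_of_nonneg_right hηq hMn) hEb)

end Pool.Agent.H96.FL
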