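import Pool.Agent.H96.FL.UTR
import Pool.Agent.H96.FL.UWU

/-!
# UFU: the upper bound, for all but `K log x` of the shifts

`L = log x`, `N = ⌊x⌋₊ + 1 ≤ (1+κ) x`. Let `E` be as in the statement with `|E| > K L`; `UTR` (with a small `ε'`) and `UWU k ε'` for `H = ⌊L²⌋₊`, `S'`, `G` and `E' = {v - e : e ∈ E}` (`|E'| = |E| ≥ K L`):
`L^k ∑_{e∈E} ∑_{m∈Zs} La x (m+e) ≤ (4 + ε') L^k ∑_{e∈E} ∑_{m∈Zs} Mm w (m+e) + ε' N T`, `T = ∑_{e∈E} sW x (insert (v-e) S')`, `(1-ε') T ≤ ∑_{e∈E} sing (insert e S)`.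
`∑_{m∈Zs} Mm w (m+e) ≤ wp w * zc x Z e` (`Mm` is `wp w` or `0`; `Zs ⊆ Z`). `L * zp Z e ≤ ∑_{m∈Zs} La x (m+e) + L * x^(1/2)` for large `x`: `m + e` prime, `m ∈ Zs`, `x^(1/4) < m+e ≤ x` contributes `L` to the sum; the others: at most `|Z \ Zs| ≤ k (x^(1/4)+1)`, or `0 < m + e ≤ x^(1/4)`, or `x < m + e ≤ x + L²` (as `m + c ≤ x` for some `c ∈ S`, `e - c < L²`).
Hence `L^(k+1) ∑_e zp Z e ≤ (4+ε') L^k wp w ∑_e zc x Z e + ε' N T + |E| L^(k+1) x^(1/2)`, and `|E| L^(k+1) x^(1/2) ≤ ε' x T` as `T ≥ c |E|`. The hypothesis on `E` gives `L^(k+1) ∑_e zp Z e > (4+ε) L^k wp w ∑_e zc + ε x ∑_e sing (insert e S)` (`E` nonempty): a contradiction for small `ε'` (`ε' ≤ ε/8`, `ε' ≤ 1/2`), as `T > 0`.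
-/

set_option autoImplicit false

namespace Pool.Agent.H96.FL

open Finset Pool.Agent.H17 Pool.Agent.H6.MF Pool.Agent.H6.MB Pool.Agent.H12.DM Pool.Agent.H6.AE Pool.Agent.H96.AE Pool.Agent.H96.AS Pool.Agent.H96.FD Pool.Agent.H6.AS

theorem UFU_Mm (x : ℝ) (S Z : Finset ℤ) (e : ℤ) :
    ∑ m ∈ Zs x S Z, Mm (yy x) (m + e) ≤ wp (yy x) * (zc x Z e : ℝ) := by
  unfold zc Mm
  rw [← Finset.sum_filter, Finset.sum_const, nsmul_eq_mul, mul_comm]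
  have h0 : 0 ≤ wp (yy x) := by unfold wp; positivity
  refine mul_le_mul_of_nonneg_left ?_ h0
  have h1 : ((Zs x S Z).filter (fun m => Int.gcd (m + e) (WW (yy x) : ℤ) = 1)).card ≤
      (Z.filter (fun m => Int.gcd (m + e) (WW (yy x) : ℤ) = 1)).card := by
    refine Finset.card_le_card (Finset.filter_subset_filter _ ?_)
    exact Finset.filter_subset _ _
  exact_mod_cast h1

theorem UFU_zp {k : ℕ} {x : ℝ} (hx : 1 ≤ x) {u : ℤ} {S Z : Finset ℤ} (hS : ∀ e ∈ S, Wnd x u e)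
    (hc : 1 ≤ S.card) (hZ : Tup x S Z) {e : ℤ} (he : Wnd x u e)
    (hd : (((Z \ Zs x S Z).card : ℕ) : ℝ) ≤ k * (x ^ (1 / 4 : ℝ) + 1))
    (hbig : k * (x ^ (1 / 4 : ℝ) + 1) + x ^ (1 / 4 : ℝ) + (Real.log x) ^ 2 + 1 ≤ x ^ (1 / 2 : ℝ)) :
    Real.log x * (zp Z e : ℝ) ≤ ∑ m ∈ Zs x S Z, La x (m + e) + Real.log x * x ^ (1 / 2 : ℝ) := by
  classical
  have hL : 0 ≤ Real.log x := Real.log_nonneg hx
  obtain ⟨c, hcS⟩ : S.Nonempty := Finset.card_pos.mp (by omega)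
  -- the four sets
  have hA : ∑ m ∈ Zs x S Z, La x (m + e) = Real.log x *
      (((Zs x S Z).filter (fun m : ℤ => isP (m + e) ∧ x ^ (1 / 4 : ℝ) < (((m + e : ℤ)) : ℝ) ∧ (((m + e : ℤ)) : ℝ) ≤ x)).card : ℝ) := by
    unfold La
    rw [← Finset.sum_filter, Finset.sum_const, nsmul_eq_mul, mul_comm]
  have hsub : (Z.filter (fun m => isP (m + e))) ⊆
      ((Zs x S Z).filter (fun m : ℤ => isP (m + e) ∧ x ^ (1 / 4 : ℝ) < (((m + e : ℤ)) : ℝ) ∧ (((m + e : ℤ)) : ℝ) ≤ x)) ∪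
      ((Z \ Zs x S Z) ∪ ((Z.filter (fun m : ℤ => 0 < m + e ∧ (((m + e : ℤ)) : ℝ) ≤ x ^ (1 / 4 : ℝ))) ∪
        (Z.filter (fun m : ℤ => x < (((m + e : ℤ)) : ℝ))))) := by
    intro m hm
    rw [Finset.mem_filter] at hm
    obtain ⟨hmZ, hmP⟩ := hm
    have hpos : 0 < m + e := by
      by_contra hcon
      have : (m + e).toNat = 0 := Int.toNat_of_nonpos (by omega)
      unfold isP at hmP
      rw [this] at hmP
      exact Nat.not_prime_zero hmP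
    by_cases h1 : m ∈ Zs x S Z
    · by_cases h2 : x ^ (1 / 4 : ℝ) < (((m + e : ℤ)) : ℝ)
      · by_cases h3 : (((m + e : ℤ)) : ℝ) ≤ x
        · exact Finset.mem_union_left _ (Finset.mem_filter.mpr ⟨h1, hmP, h2, h3⟩)
        · refine Finset.mem_union_right _ (Finset.mem_union_right _ (Finset.mem_union_right _ ?_))
          exact Finset.mem_filter.mpr ⟨hmZ, not_le.mp h3⟩
      · refine Finset.mem_union_right _ (Finset.mem_union_right _ (Finset.mem_union_left _ ?_))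
        exact Finset.mem_filter.mpr ⟨hmZ, hpos, not_lt.mp h2⟩
    · refine Finset.mem_union_right _ (Finset.mem_union_left _ ?_)
      exact Finset.mem_sdiff.mpr ⟨hmZ, h1⟩
  have hC : (((Z.filter (fun m : ℤ => 0 < m + e ∧ (((m + e : ℤ)) : ℝ) ≤ x ^ (1 / 4 : ℝ))).card : ℕ) : ℝ) ≤ x ^ (1 / 4 : ℝ) := by
    have hy : 0 ≤ x ^ (1 / 4 : ℝ) := Real.rpow_nonneg (by linarith) _
    have h1 : (Z.filter (fun m : ℤ => 0 < m + e ∧ (((m + e : ℤ)) : ℝ) ≤ x ^ (1 / 4 : ℝ))).card ≤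
        (Finset.Icc (1 : ℤ) ⌊x ^ (1 / 4 : ℝ)⌋).card := by
      refine Finset.card_le_card_of_injOn (fun m => m + e) ?_ ?_
      · intro m hm
        rw [Finset.mem_coe, Finset.mem_filter] at hm
        rw [Finset.mem_coe, Finset.mem_Icc]
        exact ⟨hm.2.1, Int.le_floor.mpr hm.2.2⟩
      · intro a _ b _ hab
        exact add_right_cancel hab
    have h2 : ((Finset.Icc (1 : ℤ) ⌊x ^ (1 / 4 : ℝ)⌋).card : ℝ) ≤ x ^ (1 / 4 : ℝ) := by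
      rw [Int.card_Icc]
      have h3 : (0 : ℤ) ≤ ⌊x ^ (1 / 4 : ℝ)⌋ := Int.floor_nonneg.mpr hy
      have h4 : ((⌊x ^ (1 / 4 : ℝ)⌋ + 1 - 1).toNat : ℤ) = ⌊x ^ (1 / 4 : ℝ)⌋ := by
        rw [Int.toNat_of_nonneg (by omega)]; ring
      have h5 : (((⌊x ^ (1 / 4 : ℝ)⌋ + 1 - 1).toNat : ℕ) : ℝ) = ((⌊x ^ (1 / 4 : ℝ)⌋ : ℤ) : ℝ) := by
        exact_mod_cast h4
      rw [h5]
      exact Int.floor_le _
    have h3 : (((Z.filter (fun m : ℤ => 0 < m + e ∧ (((m + e : ℤ)) : ℝ) ≤ x ^ (1 / 4 : ℝ))).card : ℕ) : ℝ) ≤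
        ((Finset.Icc (1 : ℤ) ⌊x ^ (1 / 4 : ℝ)⌋).card : ℝ) := by exact_mod_cast h1
    exact h3.trans h2
  have hD : (((Z.filter (fun m : ℤ => x < (((m + e : ℤ)) : ℝ))).card : ℕ) : ℝ) ≤ (Real.log x) ^ 2 + 1 := by
    have h1 : (Z.filter (fun m : ℤ => x < (((m + e : ℤ)) : ℝ))).card ≤
        (Finset.Ioc ⌊x⌋ ⌊x + (Real.log x) ^ 2⌋).card := by
      refine Finset.card_le_card_of_injOn (fun m => m + e) ?_ ?_
      · intro m hm
        rw [Finset.mem_coe, Finset.mem_filter] at hm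
        rw [Finset.mem_coe, Finset.mem_Ioc]
        refine ⟨Int.floor_lt.mpr hm.2, Int.le_floor.mpr ?_⟩
        have h2 := (hZ m hm.1 c hcS).2
        have h3 := (hS c hcS).1
        have h4 := he.2
        have h5 : ((u : ℤ) : ℝ) < (c : ℝ) := by exact_mod_cast h3
        push_cast at h2 ⊢
        linarith
      · intro a _ b _ hab
        exact add_right_cancel hab
    have h2 : ((Finset.Ioc ⌊x⌋ ⌊x + (Real.log x) ^ 2⌋).card : ℝ) ≤ (Real.log x) ^ 2 + 1 := by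
      rw [Int.card_Ioc]
      have hle : ⌊x⌋ ≤ ⌊x + (Real.log x) ^ 2⌋ := Int.floor_le_floor (by nlinarith)
      have h4 : ((⌊x + (Real.log x) ^ 2⌋ - ⌊x⌋).toNat : ℤ) = ⌊x + (Real.log x) ^ 2⌋ - ⌊x⌋ :=
        Int.toNat_of_nonneg (by omega)
      have h5 : (((⌊x + (Real.log x) ^ 2⌋ - ⌊x⌋).toNat : ℕ) : ℝ) =
          ((⌊x + (Real.log x) ^ 2⌋ : ℤ) : ℝ) - ((⌊x⌋ : ℤ) : ℝ) := by
        exact_mod_cast h4
      rw [h5]
      have h6 := Int.floor_le (x + (Real.log x) ^ 2)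
      have h7 := Int.sub_one_lt_floor x
      linarith
    have h3 : (((Z.filter (fun m : ℤ => x < (((m + e : ℤ)) : ℝ))).card : ℕ) : ℝ) ≤
        ((Finset.Ioc ⌊x⌋ ⌊x + (Real.log x) ^ 2⌋).card : ℝ) := by exact_mod_cast h1
    exact h3.trans h2
  have hcard : (zp Z e : ℝ) ≤
      (((Zs x S Z).filter (fun m : ℤ => isP (m + e) ∧ x ^ (1 / 4 : ℝ) < (((m + e : ℤ)) : ℝ) ∧ (((m + e : ℤ)) : ℝ) ≤ x)).card : ℝ) +
      (((Z \ Zs x S Z).card : ℝ) + (((Z.filter (fun m : ℤ => 0 < m + e ∧ (((m + e : ℤ)) : ℝ) ≤ x ^ (1 / 4 : ℝ))).card : ℝ) +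
        ((Z.filter (fun m : ℤ => x < (((m + e : ℤ)) : ℝ))).card : ℝ))) := by
    have h0 : zp Z e = (Z.filter (fun m => isP (m + e))).card := by
      unfold zp
      congr
    rw [h0]
    have h1 := (Finset.card_le_card hsub).trans ((Finset.card_union_le _ _).trans
      (Nat.add_le_add_left ((Finset.card_union_le _ _).trans (Nat.add_le_add_left (Finset.card_union_le _ _) _)) _))
    exact_mod_cast h1
  have htot : (zp Z e : ℝ) ≤
      (((Zs x S Z).filter (fun m : ℤ => isP (m + e) ∧ x ^ (1 / 4 : ℝ) < (((m + e : ℤ)) : ℝ) ∧ (((m + e : ℤ)) : ℝ) ≤ x)).card : ℝ) +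
      x ^ (1 / 2 : ℝ) := by
    linarith
  calc Real.log x * (zp Z e : ℝ) ≤ Real.log x * ((((Zs x S Z).filter (fun m : ℤ => isP (m + e) ∧ x ^ (1 / 4 : ℝ) < (((m + e : ℤ)) : ℝ) ∧ (((m + e : ℤ)) : ℝ) ≤ x)).card : ℝ) +
      x ^ (1 / 2 : ℝ)) := mul_le_mul_of_nonneg_left htot hL
    _ = ∑ m ∈ Zs x S Z, La x (m + e) + Real.log x * x ^ (1 / 2 : ℝ) := by rw [hA]; ring

/-- the estimates for large `x` -/
theorem UFU_large (k : ℕ) (δ : ℝ) (hδ : 0 < δ) : ∃ X : ℝ, ∀ x : ℝ, X ≤ x → 1 ≤ x ∧ 0 < Real.log x ∧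
    k * (x ^ (1 / 4 : ℝ) + 1) + x ^ (1 / 4 : ℝ) + (Real.log x) ^ 2 + 1 ≤ x ^ (1 / 2 : ℝ) ∧
    (Real.log x) ^ (k + 1) * x ^ (1 / 2 : ℝ) ≤ δ * x := by
  have e1 : ∀ᶠ x : ℝ in Filter.atTop, (Real.log x) ^ 2 ≤ x ^ (1 / 4 : ℝ) := by
    have h := (isLittleO_log_rpow_rpow_atTop (2 : ℝ) (show (0 : ℝ) < 1 / 4 by norm_num)).bound one_pos
    filter_upwards [h, Filter.eventually_ge_atTop (1 : ℝ)] with x hx hx1
    have hL : 0 ≤ Real.log x := Real.log_nonneg hx1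
    have h2 : Real.log x ^ (2 : ℝ) = (Real.log x) ^ 2 := by
      rw [show (2 : ℝ) = ((2 : ℕ) : ℝ) by norm_num, Real.rpow_natCast]
    rw [h2, one_mul, Real.norm_of_nonneg (by positivity), Real.norm_of_nonneg (by positivity)] at hx
    exact hx
  have e2 : ∀ᶠ x : ℝ in Filter.atTop, (Real.log x) ^ (k + 1) ≤ δ * x ^ (1 / 2 : ℝ) := by
    have h := (isLittleO_log_rpow_rpow_atTop ((k + 1 : ℕ) : ℝ) (show (0 : ℝ) < 1 / 2 by norm_num)).bound hδ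
    filter_upwards [h, Filter.eventually_ge_atTop (1 : ℝ)] with x hx hx1
    have hL : 0 ≤ Real.log x := Real.log_nonneg hx1
    rw [Real.rpow_natCast, Real.norm_of_nonneg (by positivity), Real.norm_of_nonneg (by positivity)] at hx
    exact hx
  have e3 : ∀ᶠ x : ℝ in Filter.atTop, (2 * k + 3 : ℝ) ≤ x ^ (1 / 4 : ℝ) :=
    (tendsto_rpow_atTop (show (0 : ℝ) < 1 / 4 by norm_num)).eventually_ge_atTop _
  obtain ⟨X, hX⟩ := Filter.eventually_atTop.mp (e1.and (e2.and (e3.and (Filter.eventually_ge_atTop (3 : ℝ)))))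
  refine ⟨X, fun x hx => ?_⟩
  obtain ⟨h1, h2, h3, h4⟩ := hX x hx
  have hx0 : 0 < x := by linarith
  have hy2 : x ^ (1 / 4 : ℝ) * x ^ (1 / 4 : ℝ) = x ^ (1 / 2 : ℝ) := by
    rw [← Real.rpow_add hx0]; norm_num
  have hz2 : x ^ (1 / 2 : ℝ) * x ^ (1 / 2 : ℝ) = x := by
    rw [← Real.rpow_add hx0]; norm_num
  have hk0 : (0 : ℝ) ≤ k := Nat.cast_nonneg k
  refine ⟨by linarith, Real.log_pos (by linarith), ?_, ?_⟩
  · rw [← hy2]
    set y := x ^ (1 / 4 : ℝ) with hy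
    have hy1 : 1 ≤ y := by linarith
    have h5 : (2 * k + 3 : ℝ) * y ≤ y * y := mul_le_mul_of_nonneg_right h3 (by linarith)
    have h6 : (k : ℝ) * 1 ≤ k * y := mul_le_mul_of_nonneg_left hy1 hk0
    nlinarith
  · have hz0 : 0 ≤ x ^ (1 / 2 : ℝ) := Real.rpow_nonneg hx0.le _
    calc (Real.log x) ^ (k + 1) * x ^ (1 / 2 : ℝ) ≤ (δ * x ^ (1 / 2 : ℝ)) * x ^ (1 / 2 : ℝ) :=
          mul_le_mul_of_nonneg_right h2 hz0
      _ = δ * x := by rw [mul_assoc, hz2]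

theorem UFU (k : ℕ) (hk : 1 ≤ k) (ε : ℝ) (hε : 0 < ε) : ∃ K X : ℝ, ∀ x : ℝ, X ≤ x → ∀ u : ℤ,
    ∀ S : Finset ℤ, (∀ e ∈ S, Wnd x u e) → S.card = k → ∀ Z : Finset ℤ, Tup x S Z →
    ∀ E : Finset ℤ, (∀ e ∈ E, Wnd x u e ∧ e ∉ S ∧ sing (insert e S) ≠ 0 ∧
      (4 + ε) * (wp (yy x) / Real.log x * (zc x Z e : ℝ)) + ε * (sing (insert e S) * x / (Real.log x) ^ (k + 1)) <
        (zp Z e : ℝ)) → (E.card : ℝ) ≤ K * Real.log x := by
  classical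
  set ε' : ℝ := min (ε / 8) (1 / 2) with hε'
  have hε'0 : 0 < ε' := lt_min (by linarith) (by norm_num)
  have hε'1 : ε' ≤ ε / 8 := min_le_left _ _
  have hε'2 : ε' ≤ 1 / 2 := min_le_right _ _
  obtain ⟨c, X₁, hc0, hT⟩ := UTR k hk ε' hε'0
  obtain ⟨K, X₂, hK1, hW⟩ := UWU k ε' hε'0
  obtain ⟨X₃, hX₃⟩ := UFU_large k (ε' * c) (mul_pos hε'0 hc0)
  refine ⟨K, max X₁ (max X₂ X₃), fun x hx u S hS hcard Z hZ E hE => ?_⟩
  have hx₁ : X₁ ≤ x := (le_max_left _ _).trans hx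
  have hx₂ : X₂ ≤ x := ((le_max_left _ _).trans (le_max_right _ _)).trans hx
  have hx₃ : X₃ ≤ x := ((le_max_right _ _).trans (le_max_right _ _)).trans hx
  obtain ⟨hx1, hL0, hbig, hlog⟩ := hX₃ x hx₃
  by_contra hcon
  rw [not_le] at hcon
  obtain ⟨v, S', G, hS'1, hS'2, hG0, hG1, hG2, hG3, hG4⟩ := hT x hx₁ u S hS hcard Z hZ
  set L : ℝ := Real.log x with hL
  have hE0 : (0 : ℝ) < E.card := lt_of_le_of_lt (by positivity) hcon
  have hEne : E.Nonempty := Finset.card_pos.mp (by exact_mod_cast hE0)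
  have hinj : Set.InjOn (fun e : ℤ => v - e) (E : Set ℤ) := by
    intro a _ b _ hab
    have : v - a = v - b := hab
    omega
  have hWU := hW x hx₂ ⌊(Real.log x) ^ 2⌋₊ (Nat.floor_le (by positivity)) S' hS'1 hS'2 G hG0 hG1
    (E.image (fun e => v - e)) (by
      intro a ha
      rw [Finset.mem_image] at ha
      obtain ⟨e, he, rfl⟩ := ha
      exact (hG3 e (hE e he).1 (hE e he).2.1 (hE e he).2.2.1).1)
    (by rw [Finset.card_image_of_injOn hinj]; exact hcon.le)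
    (by
      intro a ha
      rw [Finset.mem_image] at ha
      obtain ⟨e, he, rfl⟩ := ha
      exact (hG3 e (hE e he).1 (hE e he).2.1 (hE e he).2.2.1).2.1)
  rw [Finset.sum_image hinj, Finset.sum_image hinj, Finset.sum_image hinj] at hWU
  have hr1 : ∑ e ∈ E, ∑ n ∈ JJ x ⌊(Real.log x) ^ 2⌋₊, G (n : ℤ) * La x ((n : ℤ) - (v - e)) =
      ∑ e ∈ E, L ^ k * ∑ m ∈ Zs x S Z, La x (m + e) :=
    Finset.sum_congr rfl fun e he => hG2 (La x) e (hE e he).1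
  have hr2 : ∑ e ∈ E, ∑ n ∈ JJ x ⌊(Real.log x) ^ 2⌋₊, G (n : ℤ) * Mm (yy x) ((n : ℤ) - (v - e)) =
      ∑ e ∈ E, L ^ k * ∑ m ∈ Zs x S Z, Mm (yy x) (m + e) :=
    Finset.sum_congr rfl fun e he => hG2 (Mm (yy x)) e (hE e he).1
  rw [hr1, hr2, ← Finset.mul_sum, ← Finset.mul_sum] at hWU
  set T : ℝ := ∑ e ∈ E, sW x (insert (v - e) S') with hTdef
  set Sg : ℝ := ∑ e ∈ E, sing (insert e S) with hSg
  set Pz : ℝ := ∑ e ∈ E, (zp Z e : ℝ) with hPz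
  set Cz : ℝ := ∑ e ∈ E, (zc x Z e : ℝ) with hCz
  have hw0 : 0 ≤ wp (yy x) := by unfold wp; positivity
  have hLk : 0 < L ^ k := pow_pos hL0 k
  have hx0 : 0 < x := by linarith
  -- `T` against the singular series
  have hT1 : (1 - ε') * T ≤ Sg := by
    rw [hTdef, hSg, Finset.mul_sum]
    exact Finset.sum_le_sum fun e he => (hG3 e (hE e he).1 (hE e he).2.1 (hE e he).2.2.1).2.2.2.1
  have hT2 : c * (E.card : ℝ) ≤ T := by
    have h1 : ∑ e ∈ E, c ≤ T := by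
      rw [hTdef]
      exact Finset.sum_le_sum fun e he => (hG3 e (hE e he).1 (hE e he).2.1 (hE e he).2.2.1).2.2.1
    rw [Finset.sum_const, nsmul_eq_mul] at h1
    linarith
  have hT0 : 0 < T := lt_of_lt_of_le (mul_pos hc0 hE0) hT2
  have hT3 : T ≤ 2 * Sg := by nlinarith
  have hSg0 : 0 < Sg := by linarith
  -- the majorant
  have hM : ∑ e ∈ E, ∑ m ∈ Zs x S Z, Mm (yy x) (m + e) ≤ wp (yy x) * Cz := by
    rw [hCz, Finset.mul_sum]
    exact Finset.sum_le_sum fun e _ => UFU_Mm x S Z e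
  -- the primes
  have hP : L * Pz ≤ ∑ e ∈ E, ∑ m ∈ Zs x S Z, La x (m + e) + (E.card : ℝ) * (L * x ^ (1 / 2 : ℝ)) := by
    have h1 : L * Pz ≤ ∑ e ∈ E, (∑ m ∈ Zs x S Z, La x (m + e) + L * x ^ (1 / 2 : ℝ)) := by
      rw [hPz, Finset.mul_sum]
      exact Finset.sum_le_sum fun e he => UFU_zp hx1 hS (by omega) hZ (hE e he).1 hG4 hbig
    rw [Finset.sum_add_distrib, Finset.sum_const, nsmul_eq_mul] at h1
    exact h1
  -- the error from small and large values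
  have hErr : L ^ k * ((E.card : ℝ) * (L * x ^ (1 / 2 : ℝ))) ≤ ε' * x * T := by
    have h1 : L ^ k * ((E.card : ℝ) * (L * x ^ (1 / 2 : ℝ))) = (E.card : ℝ) * (L ^ (k + 1) * x ^ (1 / 2 : ℝ)) := by
      rw [pow_succ]; ring
    rw [h1]
    calc (E.card : ℝ) * (L ^ (k + 1) * x ^ (1 / 2 : ℝ)) ≤ (E.card : ℝ) * (ε' * c * x) :=
          mul_le_mul_of_nonneg_left hlog hE0.le
      _ = ε' * x * (c * (E.card : ℝ)) := by ring
      _ ≤ ε' * x * T := mul_le_mul_of_nonneg_left hT2 (by positivity)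
  -- the hypothesis
  have hH : (4 + ε) * (wp (yy x) / L * Cz) + ε * (Sg * x / L ^ (k + 1)) < Pz := by
    have h1 : ∑ e ∈ E, ((4 + ε) * (wp (yy x) / L * (zc x Z e : ℝ)) + ε * (sing (insert e S) * x / L ^ (k + 1))) < Pz := by
      rw [hPz]
      exact Finset.sum_lt_sum_of_nonempty hEne fun e he => (hE e he).2.2.2
    have h2 : ∑ e ∈ E, ((4 + ε) * (wp (yy x) / L * (zc x Z e : ℝ)) + ε * (sing (insert e S) * x / L ^ (k + 1))) =
        (4 + ε) * (wp (yy x) / L * Cz) + ε * (Sg * x / L ^ (k + 1)) := by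
      rw [Finset.sum_add_distrib, hCz, hSg, Finset.mul_sum, Finset.mul_sum, Finset.sum_mul, Finset.sum_div, Finset.mul_sum]
    rw [h2] at h1
    exact h1
  have hH2 : (4 + ε) * (L ^ k * (wp (yy x) * Cz)) + ε * (Sg * x) < L ^ k * (L * Pz) := by
    have h1 : L ^ k * (L * ((4 + ε) * (wp (yy x) / L * Cz) + ε * (Sg * x / L ^ (k + 1)))) < L ^ k * (L * Pz) :=
      mul_lt_mul_of_pos_left (mul_lt_mul_of_pos_left hH hL0) hLk
    have h2 : L ^ k * (L * ((4 + ε) * (wp (yy x) / L * Cz) + ε * (Sg * x / L ^ (k + 1)))) =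
        (4 + ε) * (L ^ k * (wp (yy x) * Cz)) + ε * (Sg * x) := by
      rw [pow_succ]
      field_simp
    rw [h2] at h1
    exact h1
  -- combine
  have hN : ((⌊x⌋₊ : ℝ) + 1) ≤ 2 * x := by
    have := Nat.floor_le hx0.le
    linarith
  have hC0 : 0 ≤ Cz := Finset.sum_nonneg fun e _ => Nat.cast_nonneg _
  have hA1 : L ^ k * (L * Pz) ≤ (4 + ε') * (L ^ k * (wp (yy x) * Cz)) + ε' * (2 * x) * T + ε' * x * T := by
    have h1 : L ^ k * (L * Pz) ≤ L ^ k * (∑ e ∈ E, ∑ m ∈ Zs x S Z, La x (m + e) + (E.card : ℝ) * (L * x ^ (1 / 2 : ℝ))) :=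
      mul_le_mul_of_nonneg_left hP hLk.le
    have h2 : (4 + ε') * (L ^ k * ∑ e ∈ E, ∑ m ∈ Zs x S Z, Mm (yy x) (m + e)) ≤ (4 + ε') * (L ^ k * (wp (yy x) * Cz)) :=
      mul_le_mul_of_nonneg_left (mul_le_mul_of_nonneg_left hM hLk.le) (by linarith)
    have h3 : ε' * ((⌊x⌋₊ : ℝ) + 1) * T ≤ ε' * (2 * x) * T :=
      mul_le_mul_of_nonneg_right (mul_le_mul_of_nonneg_left hN hε'0.le) hT0.le
    rw [mul_add] at h1
    linarith
  have hA2 : ε' * (2 * x) * T + ε' * x * T ≤ 6 * ε' * (Sg * x) := by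
    have h1 : ε' * x * T ≤ ε' * x * (2 * Sg) := mul_le_mul_of_nonneg_left hT3 (by positivity)
    nlinarith
  have hA3 : (4 + ε') * (L ^ k * (wp (yy x) * Cz)) ≤ (4 + ε) * (L ^ k * (wp (yy x) * Cz)) :=
    mul_le_mul_of_nonneg_right (by linarith) (by positivity)
  have hA4 : 6 * ε' * (Sg * x) ≤ ε * (Sg * x) := mul_le_mul_of_nonneg_right (by linarith) (by positivity)
  linarith

end Pool.Agent.H96.FL
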