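import Pool.Agent.H96.FL.UDf
import Pool.Agent.H96.FD.LO
import Pool.Agent.H96.AS.PW

/-!
# UTR: from the window `(u, u + L²]` to `[1, H]`

`L = log x`, `H = ⌊L²⌋₊`, `v = u + H + 1`, `S' = rf v S = {v - c : c ∈ S}` (`Pool/Agent/H6/AS/ARB.lean`: `mem_rf`, `card_rf`, `sing_rf`), `G n = L^k` if `n - v ∈ Zs x S Z`, `0` otherwise.
* an integer `e` with `u < e`, `e ≤ u + L²` satisfies `u + 1 ≤ e ≤ u + H`, so `v - e ∈ [1, H]`; `rf v (insert e S) = insert (v - e) S'`.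
* `G ≤ ∏_{c'∈S'} La x (n - c')`: for `m = n - v ∈ Zs x S Z` and `c' = v - c`: `n - c' = m + c` is a prime in `(x^(1/4), x]`, so the product is `L^k`; the product is `≥ 0` anyway (`La_nonneg`).
* `∑_{n∈JJ x H} G n f(n - (v - e)) = L^k ∑_{m∈Zs} f(m+e)`: `n = m + v`; for `m ∈ Zs` (`k ≥ 1`, some `c ∈ S`): `m + v = (m + c) + (v - c)` with `x^(1/4) < m + c ≤ x`, `1 ≤ v - c ≤ H`, so `H + 1 ≤ m + v` (`x^(1/4) ≥ L² ≥ H` for large `x`) and `m + v < ⌊x⌋₊ + 1 + H`: `m + v ∈ JJ x H = Ico (H+1) (⌊x⌋₊+1+H)`.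
* for `e ∉ S`, `sing (insert e S) ≠ 0`: `sing (insert (v-e) S') = sing (insert e S)`, `adm` (`sing_ne_zero_iff`); `PW_sing (k+1) ε`; `c ≤ sW x s` for admissible `s` with at most `k + 1` elements: induction with `LO k` (`sW x ∅ = 1`; subsets of admissible sets are admissible, see `FNb_adm`, `FNb_low` in `Pool/Agent/H96/FD/FNb.lean`).
* `Z \ Zs`: `m + c ∈ [1, x^(1/4)]` for one of the `k` elements `c ∈ S`.
-/

set_option autoImplicit false

namespace Pool.Agent.H96.FL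

open Finset Pool.Agent.H17 Pool.Agent.H6.MF Pool.Agent.H6.MB Pool.Agent.H12.DM Pool.Agent.H6.AE Pool.Agent.H96.AE Pool.Agent.H96.AS Pool.Agent.H96.FD Pool.Agent.H6.AS

theorem UTR_ev : ∃ X : ℝ, ∀ x : ℝ, X ≤ x → 1 ≤ x ∧ 1 ≤ Real.log x ∧ (Real.log x) ^ 2 ≤ x ^ (1 / 4 : ℝ) := by
  have h1 : ∀ᶠ x : ℝ in Filter.atTop, 1 ≤ Real.log x := Real.tendsto_log_atTop.eventually_ge_atTop 1
  have h2 : ∀ᶠ x : ℝ in Filter.atTop, ‖Real.log x‖ ≤ 1 * ‖x ^ (1 / 8 : ℝ)‖ :=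
    (isLittleO_log_rpow_atTop (show (0 : ℝ) < 1 / 8 by norm_num)).bound (by norm_num)
  obtain ⟨X, hX⟩ := Filter.eventually_atTop.1 (h1.and (h2.and (Filter.eventually_ge_atTop (1 : ℝ))))
  refine ⟨X, fun x hx => ?_⟩
  obtain ⟨hL, h3, hx1⟩ := hX x hx
  have hx0 : 0 < x := by linarith
  refine ⟨hx1, hL, ?_⟩
  rw [one_mul, Real.norm_of_nonneg (by linarith), Real.norm_of_nonneg (by positivity)] at h3
  have h4 : x ^ (1 / 4 : ℝ) = (x ^ (1 / 8 : ℝ)) ^ 2 := by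
    rw [← Real.rpow_natCast, ← Real.rpow_mul hx0.le]
    norm_num
  rw [h4]
  exact pow_le_pow_left₀ (by linarith) h3 2

theorem UTR_adm {s t : Finset ℤ} (h : s ⊆ t) (ht : Pool.Agent.H6.MF.adm t) : Pool.Agent.H6.MF.adm s := by
  intro p hp
  refine lt_of_le_of_lt ?_ (ht p hp)
  unfold nuH
  exact Finset.card_le_card (Finset.image_subset_image h)

theorem UTR_low {k : ℕ} {c₀ : ℝ} (hc0 : 0 < c₀)
    (hLO : ∀ (x : ℝ) (S : Finset ℤ), S.card ≤ k → ∀ e : ℤ, e ∉ S → Pool.Agent.H6.MF.adm (insert e S) →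
      c₀ * sW x S ≤ sW x (insert e S)) (x : ℝ) :
    ∀ j : ℕ, j ≤ k + 1 → ∀ s : Finset ℤ, s.card = j → Pool.Agent.H6.MF.adm s → c₀ ^ j ≤ sW x s := by
  intro j
  induction j with
  | zero =>
    intro _ s hs _
    rw [Finset.card_eq_zero] at hs
    subst hs
    rw [sW_eq_Sy, Sy_eq, pow_zero]
    refine le_of_eq ?_
    refine (Finset.prod_eq_one fun p _ => ?_).symm
    unfold loc nuH
    simp
  | succ j ih =>
    intro hj s hs hadm
    obtain ⟨a, t, hat, rfl, ht⟩ := Finset.card_eq_succ.1 hs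
    have h1 := hLO x t (by omega) a hat hadm
    have h2 := ih (by omega) t ht (UTR_adm (Finset.subset_insert a t) hadm)
    rw [pow_succ, mul_comm]
    exact (mul_le_mul_of_nonneg_left h2 hc0.le).trans h1

theorem UTR_win {x : ℝ} {u e : ℤ} (h : Wnd x u e) :
    u + 1 ≤ e ∧ e ≤ u + (⌊(Real.log x) ^ 2⌋₊ : ℤ) := by
  obtain ⟨h1, h2⟩ := h
  refine ⟨by omega, ?_⟩
  have h3 : (e - u).toNat ≤ ⌊(Real.log x) ^ 2⌋₊ := by
    refine Nat.le_floor ?_
    have h4 : (((e - u).toNat : ℕ) : ℤ) = e - u := Int.toNat_of_nonneg (by omega)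
    have h5 : (((e - u).toNat : ℕ) : ℝ) = (e : ℝ) - u := by
      have h6 : (((e - u).toNat : ℕ) : ℝ) = ((e - u : ℤ) : ℝ) := by exact_mod_cast congrArg (Int.cast : ℤ → ℝ) h4
      rw [h6]
      push_cast
      ring
    rw [h5]
    linarith
  omega

theorem UTR_small {x : ℝ} (hx : 1 ≤ x) {S Z : Finset ℤ} (hT : Tup x S Z) :
    (((Z \ Zs x S Z).card : ℕ) : ℝ) ≤ S.card * (x ^ (1 / 4 : ℝ) + 1) := by
  have hy0 : (0 : ℝ) ≤ x ^ (1 / 4 : ℝ) := Real.rpow_nonneg (by linarith) _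
  obtain ⟨M, hM⟩ : ∃ M : ℕ, M = ⌊x ^ (1 / 4 : ℝ)⌋₊ := ⟨_, rfl⟩
  have hMle : (M : ℝ) ≤ x ^ (1 / 4 : ℝ) := by
    rw [hM]
    exact Nat.floor_le hy0
  have hsub : Z \ Zs x S Z ⊆ S.biUnion (fun c => (Finset.Icc (1 : ℤ) (M : ℤ)).image (fun t => t - c)) := by
    intro m hm
    rw [Finset.mem_sdiff] at hm
    obtain ⟨hmZ, hmn⟩ := hm
    have h1 : ¬ ∀ c ∈ S, x ^ (1 / 4 : ℝ) < ((m + c : ℤ) : ℝ) := by
      intro h
      exact hmn (Finset.mem_filter.2 ⟨hmZ, h⟩)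
    push Not at h1
    obtain ⟨c, hc, hle⟩ := h1
    rw [Finset.mem_biUnion]
    refine ⟨c, hc, Finset.mem_image.2 ⟨m + c, ?_, by ring⟩⟩
    have hpr := (hT m hmZ c hc).1
    have hpos : 0 < m + c := by
      by_contra hcon
      unfold isP at hpr
      rw [Int.toNat_of_nonpos (not_lt.1 hcon)] at hpr
      exact Nat.not_prime_zero hpr
    rw [Finset.mem_Icc]
    refine ⟨by omega, ?_⟩
    have h2 : (m + c).toNat ≤ M := by
      rw [hM]
      refine Nat.le_floor ?_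
      have h4 : (((m + c).toNat : ℕ) : ℤ) = m + c := Int.toNat_of_nonneg (by omega)
      have h5 : (((m + c).toNat : ℕ) : ℝ) = ((m + c : ℤ) : ℝ) := by exact_mod_cast congrArg (Int.cast : ℤ → ℝ) h4
      rw [h5]
      exact hle
    omega
  have h3 : (Z \ Zs x S Z).card ≤ S.card * M := by
    refine (Finset.card_le_card hsub).trans ?_
    refine Finset.card_biUnion_le_card_mul _ _ _ fun c _ => ?_
    refine Finset.card_image_le.trans ?_
    rw [Int.card_Icc]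
    omega
  calc (((Z \ Zs x S Z).card : ℕ) : ℝ) ≤ ((S.card * M : ℕ) : ℝ) := by exact_mod_cast h3
    _ = S.card * (M : ℝ) := by push_cast; ring
    _ ≤ S.card * (x ^ (1 / 4 : ℝ) + 1) := by
      refine mul_le_mul_of_nonneg_left ?_ (Nat.cast_nonneg _)
      linarith

theorem UTR_sW_nonneg (x : ℝ) (s : Finset ℤ) : 0 ≤ sW x s := by
  unfold sW avgP
  exact div_nonneg (Finset.sum_nonneg fun n _ => Finset.prod_nonneg fun h _ => Mm_nonneg _ _) (Nat.cast_nonneg _)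

theorem UTR (k : ℕ) (hk : 1 ≤ k) (ε : ℝ) (hε : 0 < ε) : ∃ c X : ℝ, 0 < c ∧ ∀ x : ℝ, X ≤ x → ∀ u : ℤ,
    ∀ S : Finset ℤ, (∀ e ∈ S, Wnd x u e) → S.card = k → ∀ Z : Finset ℤ, Tup x S Z →
    ∃ v : ℤ, ∃ S' : Finset ℤ, ∃ G : ℤ → ℝ, S' ⊆ Finset.Icc 1 (⌊(Real.log x) ^ 2⌋₊ : ℤ) ∧ S'.card = k ∧
      (∀ n, 0 ≤ G n) ∧ (∀ n, G n ≤ ∏ c ∈ S', La x (n - c)) ∧
      (∀ f : ℤ → ℝ, ∀ e : ℤ, Wnd x u e → ∑ n ∈ JJ x ⌊(Real.log x) ^ 2⌋₊, G (n : ℤ) * f ((n : ℤ) - (v - e)) =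
        (Real.log x) ^ k * ∑ m ∈ Zs x S Z, f (m + e)) ∧
      (∀ e : ℤ, Wnd x u e → e ∉ S → sing (insert e S) ≠ 0 →
        v - e ∈ Finset.Icc 1 (⌊(Real.log x) ^ 2⌋₊ : ℤ) \ S' ∧ adm (insert (v - e) S') ∧
        c ≤ sW x (insert (v - e) S') ∧ (1 - ε) * sW x (insert (v - e) S') ≤ sing (insert e S) ∧
        sing (insert e S) ≤ (1 + ε) * sW x (insert (v - e) S')) ∧
      (((Z \ Zs x S Z).card : ℕ) : ℝ) ≤ k * (x ^ (1 / 4 : ℝ) + 1) := by
  obtain ⟨c₁, hc1, hLO⟩ := LO k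
  obtain ⟨X₁, hX₁⟩ := UTR_ev
  obtain ⟨X₂, hX₂⟩ := PW_sing (k + 1) ε hε
  obtain ⟨c₀, hc0, hc0le⟩ : ∃ c₀ : ℝ, 0 < c₀ ∧ c₀ ≤ c₁ := ⟨c₁, hc1, le_refl _⟩
  refine ⟨c₀ ^ (k + 1), max X₁ X₂, pow_pos hc0 _, ?_⟩
  intro x hx u S hS hcard Z hT
  obtain ⟨hx1, hL1, hLx⟩ := hX₁ x ((le_max_left _ _).trans hx)
  have hPW := hX₂ x ((le_max_right _ _).trans hx)
  have hx0 : 0 ≤ x := by linarith
  obtain ⟨L, hLdef⟩ : ∃ L : ℝ, L = Real.log x := ⟨_, rfl⟩
  have hL0 : 0 ≤ L := by rw [hLdef]; linarith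
  obtain ⟨H, hH⟩ : ∃ H : ℕ, H = ⌊(Real.log x) ^ 2⌋₊ := ⟨_, rfl⟩
  have hHL : (H : ℝ) ≤ (Real.log x) ^ 2 := by
    rw [hH]
    exact Nat.floor_le (by positivity)
  obtain ⟨v, hv⟩ : ∃ v : ℤ, v = u + H + 1 := ⟨_, rfl⟩
  have hwin : ∀ e : ℤ, Wnd x u e → 1 ≤ v - e ∧ v - e ≤ H := by
    intro e he
    obtain ⟨h1, h2⟩ := UTR_win he
    rw [← hH] at h2
    constructor <;> omega
  have hS'sub : rf v S ⊆ Finset.Icc 1 (H : ℤ) := by
    intro a ha
    rw [mem_rf] at ha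
    obtain ⟨h1, h2⟩ := hwin _ (hS _ ha)
    rw [Finset.mem_Icc]
    constructor <;> omega
  have hS'card : (rf v S).card = k := by rw [card_rf, hcard]
  have hSne : S.Nonempty := by
    rw [← Finset.card_pos]
    omega
  have hLa0 : ∀ n : ℤ, 0 ≤ La x n := fun n => by
    unfold La
    split_ifs
    · linarith
    · exact le_refl _
  classical
  refine ⟨v, rf v S, fun n => if n - v ∈ Zs x S Z then L ^ k else 0, ?_, hS'card, ?_, ?_, ?_, ?_, ?_⟩
  · rw [← hH]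
    exact hS'sub
  · intro n
    dsimp only
    split_ifs
    · positivity
    · exact le_refl _
  · intro n
    dsimp only
    split_ifs with h
    · have h1 : ∀ c ∈ rf v S, La x (n - c) = L := by
        intro c hc
        rw [mem_rf] at hc
        obtain ⟨hmZ, hms⟩ := Finset.mem_filter.1 h
        have h2 := hT _ hmZ _ hc
        have h3 := hms _ hc
        have h4 : n - v + (v - c) = n - c := by ring
        rw [h4] at h2 h3
        unfold La
        rw [if_pos ⟨h2.1, h3, h2.2⟩, hLdef]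
      rw [Finset.prod_congr rfl h1, Finset.prod_const, hS'card]
    · exact Finset.prod_nonneg fun c _ => hLa0 _
  · intro f e he
    rw [← hH, ← hLdef, Finset.mul_sum]
    have h1 : ∑ n ∈ JJ x H, (if ((n : ℕ) : ℤ) - v ∈ Zs x S Z then L ^ k else 0) * f ((n : ℤ) - (v - e)) =
        ∑ n ∈ (JJ x H).filter (fun n : ℕ => (n : ℤ) - v ∈ Zs x S Z), L ^ k * f ((n : ℤ) - (v - e)) := by
      rw [Finset.sum_filter]
      refine Finset.sum_congr rfl fun n _ => ?_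
      split_ifs
      · rfl
      · rw [zero_mul]
    rw [h1]
    have hrange : ∀ m ∈ Zs x S Z, (H : ℤ) + 1 ≤ m + v ∧ m + v < (⌊x⌋₊ : ℤ) + 1 + H := by
      intro m hm
      obtain ⟨c, hc⟩ := hSne
      obtain ⟨hmZ, hms⟩ := Finset.mem_filter.1 hm
      have h2 := (hT m hmZ c hc).2
      have h3 := hms c hc
      obtain ⟨h4, h5⟩ := hwin c (hS c hc)
      have h6 : (H : ℝ) < ((m + c : ℤ) : ℝ) := by linarith
      have h7 : (H : ℤ) < m + c := by exact_mod_cast h6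
      have h8 : (m + c).toNat ≤ ⌊x⌋₊ := by
        refine Nat.le_floor ?_
        have h9 : (((m + c).toNat : ℕ) : ℤ) = m + c := Int.toNat_of_nonneg (by omega)
        have h10 : (((m + c).toNat : ℕ) : ℝ) = ((m + c : ℤ) : ℝ) := by exact_mod_cast congrArg (Int.cast : ℤ → ℝ) h9
        rw [h10]
        exact h2
      constructor <;> omega
    refine Finset.sum_nbij' (fun n : ℕ => (n : ℤ) - v) (fun m : ℤ => (m + v).toNat) ?_ ?_ ?_ ?_ ?_
    · intro n hn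
      exact (Finset.mem_filter.1 hn).2
    · intro m hm
      obtain ⟨h2, h3⟩ := hrange m hm
      have h4 : (((m + v).toNat : ℕ) : ℤ) = m + v := Int.toNat_of_nonneg (by omega)
      rw [Finset.mem_filter]
      refine ⟨?_, ?_⟩
      · unfold JJ
        rw [Finset.mem_Ico]
        constructor <;> omega
      · rw [h4, add_sub_cancel_right]
        exact hm
    · intro n hn
      rw [sub_add_cancel]
      exact Int.toNat_natCast n
    · intro m hm
      obtain ⟨h2, h3⟩ := hrange m hm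
      have h4 : (((m + v).toNat : ℕ) : ℤ) = m + v := Int.toNat_of_nonneg (by omega)
      rw [h4, add_sub_cancel_right]
    · intro n hn
      have h2 : (n : ℤ) - (v - e) = (n : ℤ) - v + e := by ring
      rw [h2]
  · intro e he heS hsing
    have hins : insert (v - e) (rf v S) = rf v (insert e S) := by
      unfold rf
      rw [Finset.image_insert]
    obtain ⟨h1, h2⟩ := hwin e he
    have hnot : v - e ∉ rf v S := by
      rw [mem_rf]
      have : v - (v - e) = e := by ring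
      rw [this]
      exact heS
    have hs : sing (insert (v - e) (rf v S)) = sing (insert e S) := by rw [hins, sing_rf]
    have hadm : Pool.Agent.H6.MF.adm (insert (v - e) (rf v S)) := by
      rw [← sing_ne_zero_iff, hs]
      exact hsing
    have hcd : (insert (v - e) (rf v S)).card = k + 1 := by
      rw [Finset.card_insert_of_notMem hnot, hS'card]
    have hsub : ∀ a ∈ insert (v - e) (rf v S), 1 ≤ a ∧ a ≤ (H : ℤ) := by
      intro a ha
      rcases Finset.mem_insert.1 ha with rfl | ha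
      · exact ⟨h1, h2⟩
      · exact Finset.mem_Icc.1 (hS'sub ha)
    have hp := hPW (insert (v - e) (rf v S)) (by rw [hcd]; omega) (by rw [hcd]) (by
      intro a ha a' ha'
      obtain ⟨b1, b2⟩ := hsub a ha
      obtain ⟨b3, b4⟩ := hsub a' ha'
      have h3 : |a - a'| ≤ (H : ℤ) := by
        rw [abs_le]
        constructor <;> omega
      have h4 : |((a - a' : ℤ) : ℝ)| ≤ (H : ℝ) := by exact_mod_cast h3
      have h5 : 0 ≤ (Real.log x) ^ 2 := by positivity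
      linarith)
    refine ⟨?_, hadm, ?_, ?_, ?_⟩
    · rw [Finset.mem_sdiff, Finset.mem_Icc, ← hH]
      exact ⟨⟨h1, h2⟩, hnot⟩
    · refine UTR_low hc0 ?_ x (k + 1) (le_refl _) _ hcd hadm
      intro y T hTc a ha hadm'
      refine le_trans ?_ (hLO y T hTc a ha hadm')
      refine mul_le_mul_of_nonneg_right hc0le ?_
      exact UTR_sW_nonneg y T
    · rw [← hs]
      exact hp.1
    · rw [← hs]
      exact hp.2
  · have h1 := UTR_small hx1 hT
    rw [hcard] at h1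
    exact h1

end Pool.Agent.H96.FL
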